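import Pool.Agent.TSG.GlP

set_option autoImplicit false

/-!
# Even kinds, the lists chosen for every interval of the total mass (MP_d27362_co)
-/

namespace Pool.Agent.TSG

open Finset
open Pool.Agent.TSC
open Pool.Agent.TSM (q0 RD chd fam c1 tau)
open Pool.Agent.TSR (OBr)

variable {tl : List TC} {dl : List (Seg (Kn Dec))} {d : Seg (Kn Dec)}

/-- the lists of one kind with `m` nontrivial children and `K` children: for the exact number,
or for any number -/
def ChK (tl : List TC) (κ : Dec) (tw : Bool) (m K : ℕ) (dc : Seg (Kn Dec)) : Prop :=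
  (∃ kd, KdOk kd K ∧ ∀ S0 ∈ shLX κ tw m, CovE tl kd dc S0) ∨
  ∃ kd M, KdOk kd K ∧ ShM M m ∧ ∀ S0 ∈ shLA κ M tw, CovE tl kd dc S0

/-- **one kind**, the lists chosen for every interval -/
theorem poT_C (hc : covers tl dl = true) (hs : LOK tl dl sgnL)
    (hk : ∀ D, RD D → KOk (knAt dl d D) D) {lf tw : Bool} {m : ℕ}
    (hev : Even (lf.toNat + tw.toNat + m)) (hm : 4 ≤ m) {κ : Dec} (hκ : 0 ≤ κ.val)
    (H : ∀ dc ∈ dl, ChK tl κ tw m (lf.toNat + tw.toNat + m) dc) :
    TSM.PoT (sysE (chiF dl d) (chi_nonneg hk)) Adm3 (VV tl dl d) (PP' dl d) lf tw m := by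
  intro K O N tc hI hT
  have hK : Even K := by rw [hI.hK]; exact hev
  have hK0 : 0 < K := by rw [hI.hK]; omega
  obtain ⟨k, hkm, hn, e, fv, fg, hf⟩ := fact_T hI hT.hO hκ
  have hcm : c1 O N ≤ m := by
    rw [← hI.hN]
    exact TSM.c1_le O N
  have hc0 : (N.filter fun i => ¬ tau (O i) = 1).card = m - c1 O N := by
    have := card_filter_add_card_filter_not (s := N) (fun i => tau (O i) = 1)
    rw [hI.hN] at this
    have e2 : (N.filter fun i => tau (O i) = 1).card = c1 O N := rfl
    omega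
  have hmem : shX κ m (c1 O N) k ∈ shLX κ tw m := by
    unfold shLX
    rw [List.mem_flatMap]
    exact ⟨c1 O N, List.mem_range.mpr (by omega), List.mem_map.2 ⟨k, hkm, rfl⟩⟩
  refine TSM.po_evenV rfl (chi_nonneg hk) adm3_zero hK hK0 hI hT hn hf.hL fun σ ρ hF D hD => ?_
  rcases H _ (pick_D (d := d) hc hD).1 with ⟨kd, hkd, H⟩ | ⟨kd, M, hkd, hM, H⟩
  · refine evE_at hc hs (hk D hD) hD (by rw [hI.hK]; exact hkd) rfl rfl
      (H _ hmem) (fh_shE hf hF (Or.inr (Or.inl ⟨rfl, by omega⟩)) (Or.inl rfl)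
        (Or.inr (Nat.testBit_two_pow_self)) (fun h => by simpa using h) (fun h => by simpa using h)
        (fun j h => h) (fun h => ?_) (fun h => ?_))
    · obtain ⟨h1, h2⟩ := hf.a1 h
      exact ⟨shl_le rfl h1, le_shh rfl h2⟩
    · obtain ⟨h1, h2⟩ := hf.a0 h
      exact ⟨shl_le hc0 h1, le_shh hc0 h2⟩
  have key : ∀ (pa : ℕ) (z0 z1 : Bool), shAny κ M pa z0 z1 k ∈ shLA κ M tw →
      pa = (k.cd.n + tw.toNat) % 2 → (z0 = true → c1 O N = 0) → (z1 = true → c1 O N = m) →
      TSM.EvF2 (chiF dl d) D K (fun a => (TSM.UU (fam σ e O)).eval a)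
        (fun a => (TSM.YY (fam σ e O)).eval a) (fun a => ∑ i, TSM.Vi (VV tl dl d) N tc O i D a)
        (fun a => VV tl dl d D a ((chd 0 (fam σ e O)).sn a))
        (fun a => PP' dl d D a ((chd 0 (fam σ e O)).sn a)) := by
    intro pa z0 z1 hmem hpa hz0 hz1
    exact evE_at hc hs (hk D hD) hD (by rw [hI.hK]; exact hkd) rfl rfl
      (H _ hmem) (fh_shE hf hF hM (Or.inr hpa)
        (Or.inl rfl) hz0 hz1 (fun j _ => Nat.zero_testBit j) (fun h => hf.a1 h)
        (fun h => hf.a0 h))
  cases tw
  · simp only [Bool.false_eq_true, if_false, casN] at hkm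
    split_ifs at hkm with h1 h2
    · rw [List.mem_singleton] at hkm
      subst hkm
      exact key 1 false false (by simp [shLA]) rfl (fun h => by simp at h) (fun h => by simp at h)
    · rw [List.mem_singleton] at hkm
      subst hkm
      rcases h2 with h2 | h2
      · exact key 0 true false (by simp [shLA]) rfl (fun _ => h2) (fun h => by simp at h)
      · exact key 0 false true (by simp [shLA]) rfl (fun h => by simp at h) (fun _ => h2)
    · simp only [List.mem_cons, List.not_mem_nil, or_false] at hkm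
      rcases hkm with rfl | rfl
      · exact key 0 false false (by simp [shLA]) rfl (fun h => by simp at h)
          (fun h => by simp at h)
      · exact key 0 false false (by simp [shLA]) rfl (fun h => by simp at h)
          (fun h => by simp at h)
  · simp only [if_true, casP] at hkm
    rw [if_neg (by omega)] at hkm
    split_ifs at hkm with h1 h2
    · rw [List.mem_singleton] at hkm
      subst hkm
      exact key 1 false false (by simp [shLA]) rfl (fun h => by simp at h) (fun h => by simp at h)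
    · rw [List.mem_singleton] at hkm
      subst hkm
      rcases h2 with h2 | h2
      · exact key 0 true false (by simp [shLA]) rfl (fun _ => h2) (fun h => by simp at h)
      · exact key 0 false true (by simp [shLA]) rfl (fun h => by simp at h) (fun _ => h2)
    · simp only [List.mem_cons, List.not_mem_nil, or_false] at hkm
      rcases hkm with rfl | rfl
      · exact key 0 false false (by simp [shLA]) rfl (fun h => by simp at h)
          (fun h => by simp at h)
      · exact key 0 false false (by simp [shLA]) rfl (fun h => by simp at h)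
          (fun h => by simp at h)

/-- the lists for at least eight children at one interval: all together, or eight children
separately, or seven nontrivial children of eight separately -/
def Ch8 (tl : List TC) (κ : Dec) (dc : Seg (Kn Dec)) : Prop :=
  (∀ S0 ∈ shA κ 106, CovE tl 0 dc S0) ∨
  ((∀ S0 ∈ shK κ 8, CovE tl 8 dc S0) ∧ ∀ S0 ∈ shA κ 108, CovE tl 0 dc S0) ∨
  ((∀ S0 ∈ shLX κ false 7, CovE tl 8 dc S0) ∧
    ∀ S0 ∈ shLA κ 106 true ++ shLA κ 108 false, CovE tl 0 dc S0)

lemma Ch8.chK {κ : Dec} {dc : Seg (Kn Dec)} (h : Ch8 tl κ dc) {lf tw : Bool} {m : ℕ}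
    (hev : Even (lf.toNat + tw.toNat + m)) (h8 : 8 ≤ lf.toNat + tw.toNat + m) :
    ChK tl κ tw m (lf.toNat + tw.toNat + m) dc := by
  have hev' := Nat.even_iff.1 hev
  have z0 : KdOk 0 (lf.toNat + tw.toNat + m) := ⟨Or.inl rfl, by omega⟩
  have hA : ∀ q : ℕ, 4 ≤ q → q + 2 ≤ lf.toNat + tw.toNat + m →
      (∀ S0 ∈ shA κ (100 + q), CovE tl 0 dc S0) → ChK tl κ tw m (lf.toNat + tw.toNat + m) dc := by
    intro q hq hq2 H
    cases tw
    · have hm' : q + 1 ≤ m := by
        cases lf <;> simp at hq2 <;> omega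
      refine Or.inr ⟨0, 100 + q + 1, z0, Or.inr (Or.inr ⟨by omega, by omega⟩),
        fun S0 hS0 => H S0 ?_⟩
      unfold shA
      rw [List.mem_append]
      exact Or.inr hS0
    · have hm' : q ≤ m := by
        cases lf <;> simp at hq2 <;> omega
      refine Or.inr ⟨0, 100 + q, z0, Or.inr (Or.inr ⟨by omega, by omega⟩),
        fun S0 hS0 => H S0 ?_⟩
      unfold shA
      rw [List.mem_append]
      exact Or.inl hS0
  rcases h with h | ⟨h, h'⟩ | ⟨h, h'⟩
  · exact hA 6 (by norm_num) (by omega) h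
  · rcases Nat.lt_or_ge (lf.toNat + tw.toNat + m) 10 with h5 | h5
    · have h6 : lf.toNat + tw.toNat + m = 8 := by omega
      refine Or.inl ⟨8, ⟨Or.inr h6.symm, by omega⟩, fun S0 hS0 => h S0 ?_⟩
      unfold shK
      simp only [List.mem_append]
      cases lf <;> cases tw
      · have : m = 8 := by simpa using h6
        subst this
        exact Or.inr (Or.inr (Or.inr hS0))
      · have : m = 7 := by
          simp at h6
          omega
        subst this
        exact Or.inr (Or.inr (Or.inl hS0))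
      · have : m = 7 := by
          simp at h6
          omega
        subst this
        exact Or.inr (Or.inl hS0)
      · have : m = 6 := by
          simp at h6
          omega
        subst this
        exact Or.inl hS0
    · exact hA 8 (by norm_num) (by omega) h'
  · cases tw
    · rcases Nat.lt_or_ge m 8 with h5 | h5
      · have h6 : lf.toNat + 0 + m = 8 ∧ m = 7 := by
          cases lf <;> simp at h8 hev' ⊢ <;> omega
        obtain ⟨h6, rfl⟩ := h6
        exact Or.inl ⟨8, ⟨Or.inr h6.symm, by omega⟩, h⟩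
      · exact Or.inr ⟨0, 108, z0, Or.inr (Or.inr ⟨by omega, by omega⟩),
          fun S0 hS0 => h' S0 (List.mem_append.2 (Or.inr hS0))⟩
    · have hm' : 6 ≤ m := by
        cases lf <;> simp at h8 <;> omega
      exact Or.inr ⟨0, 106, z0, Or.inr (Or.inr ⟨by omega, by omega⟩),
        fun S0 hS0 => h' S0 (List.mem_append.2 (Or.inl hS0))⟩

/-- **the lists for all even kinds**: `K = 4`, `K = 6` and `K ≥ 8`, the last ones chosen for every
interval of the total mass -/
theorem even_kindsC (hc : covers tl dl = true) (hs : LOK tl dl sgnL)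
    (hk : ∀ D, RD D → KOk (knAt dl d D) D) {k4 k6 : ℕ} (h4 : k4 = 0 ∨ k4 = 4)
    (h6 : k6 = 0 ∨ k6 = 6) {κ4 κ6 κ8 : Dec} (hκ4 : 0 ≤ κ4.val) (hκ6 : 0 ≤ κ6.val)
    (hκ8 : 0 ≤ κ8.val) (H4 : ∀ dc ∈ dl, ∀ S0 ∈ shK κ4 4, CovE tl k4 dc S0)
    (H6 : ∀ dc ∈ dl, ∀ S0 ∈ shK κ6 6, CovE tl k6 dc S0)
    (H8 : ∀ dc ∈ dl, Ch8 tl κ8 dc) (lf tw : Bool) (m : ℕ)
    (_h2 : 2 ≤ m) (hev : Even (lf.toNat + tw.toNat + m))
    (h : 4 ≤ lf.toNat + tw.toNat + m) :
    TSM.PoT (sysE (chiF dl d) (chi_nonneg hk)) Adm3 (VV tl dl d) (PP' dl d) lf tw m := by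
  have h' := Nat.even_iff.1 hev
  rcases Nat.lt_or_ge (lf.toNat + tw.toNat + m) 6 with h1 | h1
  · exact kinds_K hc hs hk (K := 4) ⟨2, rfl⟩ le_rfl ⟨h4, by norm_num⟩ hκ4 H4 lf tw m (by omega)
  · rcases Nat.lt_or_ge (lf.toNat + tw.toNat + m) 8 with h3 | h3
    · exact kinds_K hc hs hk (K := 6) ⟨3, rfl⟩ (by norm_num) ⟨h6, by norm_num⟩ hκ6 H6 lf tw m
        (by omega)
    · have hm' : 4 ≤ m := by
        cases lf <;> cases tw <;> simp at h3 <;> omega
      exact poT_C hc hs hk hev hm' hκ8 fun dc hdc => (H8 dc hdc).chK hev h3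

end Pool.Agent.TSG
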