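import Pool.Agent.TSG.RowN

set_option autoImplicit false

/-!
# Rows of the table of the even rule, part 2 (MP_d27362_co, helper2)
-/

namespace Pool.Agent.TSG

/-- rows for `kd = 4` -/
def xr4_0 : List RowN :=
  [⟨38660, 4360, 21000, 1800, 0, 0⟩,
   ⟨38660, 4580, 22500, 1800, 0, 0⟩,
   ⟨38660, 5050, 25490, 1800, 0, 0⟩,
   ⟨38930, 2900, 8030, 1660, 0, 0⟩,
   ⟨39220, 3230, 11880, 1470, 0, 0⟩,
   ⟨39220, 3440, 13850, 1470, 0, 0⟩,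
   ⟨39220, 3610, 15330, 1470, 0, 0⟩,
   ⟨39220, 3800, 16820, 1470, 0, 0⟩,
   ⟨39220, 4010, 18300, 1470, 0, 0⟩,
   ⟨39220, 4230, 19780, 1470, 0, 0⟩,
   ⟨39220, 5220, 25710, 1470, 0, 0⟩,
   ⟨39270, 4460, 21260, 1470, 0, 0⟩,
   ⟨39270, 4710, 22740, 1470, 0, 0⟩,
   ⟨39490, 2720, 6430, 1330, 0, 0⟩,
   ⟨39740, 4230, 19630, 1210, 0, 0⟩,
   ⟨39740, 4480, 21030, 1210, 0, 0⟩,
   ⟨39740, 4990, 23830, 1210, 0, 0⟩,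
   ⟨40650, 3070, 11860, 850, 0, 0⟩,
   ⟨40650, 3080, 11990, 850, 0, 0⟩,
   ⟨40650, 3200, 13010, 850, 0, 0⟩]

set_option maxRecDepth 100000 in
lemma xr4_0_t : xr4_0.all (rowN 4) = true := by decide +kernel

/-- rows for `kd = 4` -/
def xr4_1 : List RowN :=
  [⟨40650, 3290, 13750, 850, 0, 0⟩,
   ⟨40650, 3430, 14860, 850, 0, 0⟩,
   ⟨40700, 3640, 16240, 850, 0, 0⟩,
   ⟨40700, 3830, 17370, 850, 0, 0⟩,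
   ⟨40760, 2730, 8260, 830, 0, 0⟩,
   ⟨40830, 3060, 12040, 790, 0, 0⟩,
   ⟨40830, 3190, 13200, 790, 0, 0⟩,
   ⟨40890, 2930, 10810, 770, 0, 0⟩,
   ⟨41060, 3250, 13980, 720, 0, 0⟩,
   ⟨41060, 3410, 15110, 720, 0, 0⟩,
   ⟨41110, 3590, 16240, 720, 0, 0⟩,
   ⟨41110, 3810, 17370, 720, 0, 0⟩,
   ⟨41260, 2530, 6620, 660, 0, 0⟩,
   ⟨41310, 2790, 10060, 680, 0, 0⟩,
   ⟨41310, 2940, 11740, 680, 0, 0⟩,
   ⟨41310, 4110, 18990, 680, 0, 0⟩,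
   ⟨41410, 2800, 10230, 620, 0, 0⟩,
   ⟨41410, 2960, 11930, 620, 0, 0⟩,
   ⟨41730, 2710, 9830, 540, 0, 0⟩,
   ⟨41730, 2770, 10530, 540, 0, 0⟩]

set_option maxRecDepth 100000 in
lemma xr4_1_t : xr4_1.all (rowN 4) = true := by decide +kernel

/-- rows for `kd = 4` -/
def xr4_2 : List RowN :=
  [⟨41730, 2900, 11930, 540, 0, 0⟩,
   ⟨42660, 2430, 7980, 360, 0, 0⟩,
   ⟨43190, 2240, 6280, 270, 0, 0⟩,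
   ⟨43260, 2240, 6530, 260, 0, 0⟩,
   ⟨43340, 2190, 5840, 250, 0, 0⟩,
   ⟨43420, 2180, 5840, 240, 0, 0⟩,
   ⟨43420, 2210, 6410, 240, 0, 0⟩,
   ⟨43420, 2220, 6470, 240, 0, 0⟩,
   ⟨43420, 2250, 6990, 240, 0, 0⟩,
   ⟨43470, 2280, 7520, 240, 0, 0⟩,
   ⟨43470, 2320, 8040, 240, 0, 0⟩,
   ⟨43810, 2330, 9030, 200, 0, 0⟩,
   ⟨44090, 2040, 4700, 170, 0, 0⟩,
   ⟨44150, 2010, 4430, 160, 0, 0⟩,
   ⟨44500, 1940, 3730, 130, 0, 0⟩,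
   ⟨44630, 1960, 4580, 120, 0, 0⟩,
   ⟨44630, 1970, 4690, 120, 0, 0⟩,
   ⟨44630, 2000, 5340, 120, 0, 0⟩,
   ⟨44630, 2010, 5470, 120, 0, 0⟩,
   ⟨44680, 1930, 3920, 120, 0, 0⟩]

set_option maxRecDepth 100000 in
lemma xr4_2_t : xr4_2.all (rowN 4) = true := by decide +kernel

end Pool.Agent.TSG
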