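import Pool.Agent.TSG.RowN

set_option autoImplicit false

/-!
# Rows of the table of the even rule, part 3 (MP_d27362_co, helper2)
-/

namespace Pool.Agent.TSG

/-- rows for `kd = 4` -/
def xr4_3 : List RowN :=
  [⟨44680, 2150, 8090, 120, 0, 0⟩,
   ⟨44760, 1920, 3910, 110, 0, 0⟩,
   ⟨44910, 2230, 10290, 100, 0, 0⟩,
   ⟨44940, 2150, 9030, 100, 0, 0⟩,
   ⟨45000, 1850, 3360, 200, 0, 0⟩,
   ⟨45040, 1830, 2730, 100, 0, 0⟩,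
   ⟨45380, 2150, 10170, 90, 0, 0⟩,
   ⟨45640, 3090, 12060, 60, 0, 0⟩,
   ⟨45690, 1760, 2460, 60, 0, 0⟩,
   ⟨45800, 3350, 27730, 900, 0, 0⟩,
   ⟨45880, 1850, 5300, 50, 0, 0⟩,
   ⟨45930, 1740, 2540, 50, 0, 0⟩,
   ⟨46000, 2500, 20000, 1000, 0, 0⟩,
   ⟨46010, 2460, 19400, 1000, 0, 0⟩,
   ⟨46010, 2650, 21990, 1000, 0, 0⟩,
   ⟨46750, 3580, 37760, 1930, 0, 0⟩,
   ⟨46790, 2420, 22050, 1450, 0, 0⟩,
   ⟨46900, 1600, 1160, 20, 0, 0⟩,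
   ⟨46900, 1760, 5560, 20, 0, 0⟩,
   ⟨46900, 1780, 6060, 20, 0, 0⟩]

set_option maxRecDepth 100000 in
lemma xr4_3_t : xr4_3.all (rowN 4) = true := by decide +kernel

/-- rows for `kd = 4` -/
def xr4_4 : List RowN :=
  [⟨47300, 2790, 30600, 2000, 0, 0⟩,
   ⟨47300, 3000, 33333, 2000, 0, 0⟩,
   ⟨47300, 3110, 34690, 2000, 0, 0⟩,
   ⟨47570, 3000, 26420, 420, 0, 0⟩,
   ⟨47830, 2610, 29810, 2090, 0, 0⟩,
   ⟨47840, 2160, 17950, 550, 0, 0⟩,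
   ⟨47840, 2200, 18700, 550, 0, 0⟩,
   ⟨47840, 2470, 27390, 2010, 0, 0⟩,
   ⟨48510, 2890, 37590, 2660, 0, 0⟩,
   ⟨50000, 1410, 3060, 0, 0, 0⟩,
   ⟨50030, 2660, 29530, 280, 0, 0⟩,
   ⟨50630, 3210, 31730, 150, 0, 0⟩,
   ⟨50750, 3180, 31730, 140, 0, 0⟩,
   ⟨51000, 2500, 33333, 1000, 0, 0⟩,
   ⟨51010, 2350, 30930, 1000, 0, 0⟩,
   ⟨51010, 2620, 35070, 1000, 0, 0⟩,
   ⟨51080, 2820, 36610, 680, 0, 0⟩,
   ⟨51290, 3420, 42280, 650, 0, 0⟩,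
   ⟨51580, 3140, 38110, 340, 0, 0⟩,
   ⟨51660, 2300, 29570, 250, 0, 0⟩]

set_option maxRecDepth 100000 in
lemma xr4_4_t : xr4_4.all (rowN 4) = true := by decide +kernel

/-- rows for `kd = 4` -/
def xr4_5 : List RowN :=
  [⟨52890, 4200, 45580, 0, 0, 0⟩,
   ⟨52890, 4330, 46880, 0, 0, 0⟩,
   ⟨56230, 2510, 44220, 10, 0, 0⟩,
   ⟨57770, 2770, 54010, 470, 0, 0⟩,
   ⟨59720, 1480, 28470, 130, 0, 0⟩]

set_option maxRecDepth 100000 in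
lemma xr4_5_t : xr4_5.all (rowN 4) = true := by decide +kernel

end Pool.Agent.TSG
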