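import Pool.Agent.TSG.RowN

set_option autoImplicit false

/-!
# Rows of the table of the even rule, part 4 (MP_d27362_co, helper2)
-/

namespace Pool.Agent.TSG

/-- rows for `kd = 6` -/
def xr6_0 : List RowN :=
  [⟨38190, 6530, 21010, 2120, 0, 0⟩,
   ⟨38190, 6670, 22510, 2120, 0, 0⟩,
   ⟨38190, 6950, 25510, 2120, 0, 0⟩,
   ⟨38710, 5770, 11960, 1800, 0, 0⟩,
   ⟨38970, 5760, 12100, 1610, 0, 0⟩,
   ⟨38970, 5940, 14110, 1610, 0, 0⟩,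
   ⟨38970, 6070, 15620, 1610, 0, 0⟩,
   ⟨38970, 6210, 17130, 1610, 0, 0⟩,
   ⟨38970, 6350, 18640, 1610, 0, 0⟩,
   ⟨38970, 6500, 20150, 1610, 0, 0⟩,
   ⟨38970, 7110, 26180, 1610, 0, 0⟩,
   ⟨39020, 6660, 21660, 1610, 0, 0⟩,
   ⟨39020, 6810, 23170, 1610, 0, 0⟩,
   ⟨39060, 8930, 44610, 1560, 0, 0⟩,
   ⟨39280, 5530, 9570, 1440, 0, 0⟩,
   ⟨39330, 5330, 8650, 1800, 0, 0⟩,
   ⟨39360, 5750, 11960, 1420, 0, 0⟩,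
   ⟨39900, 5150, 6930, 1440, 0, 0⟩,
   ⟨39900, 5480, 9570, 1140, 0, 0⟩,
   ⟨40110, 5230, 8210, 1420, 0, 0⟩]

set_option maxRecDepth 100000 in
lemma xr6_0_t : xr6_0.all (rowN 6) = true := by decide +kernel

/-- rows for `kd = 6` -/
def xr6_1 : List RowN :=
  [⟨40580, 6020, 30070, 3150, 0, 0⟩,
   ⟨40650, 5040, 6570, 1140, 0, 0⟩,
   ⟨41240, 7390, 37880, 1560, 0, 0⟩,
   ⟨43810, 4760, 9030, 200, 0, 0⟩,
   ⟨44290, 7420, 33560, 270, 0, 0⟩,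
   ⟨45000, 4140, 3660, 200, 0, 0⟩,
   ⟨45640, 4550, 12060, 60, 0, 0⟩,
   ⟨45830, 6560, 47830, 1470, 0, 0⟩,
   ⟨45980, 5990, 30070, 290, 0, 0⟩,
   ⟨46460, 5020, 39600, 3650, 0, 0⟩,
   ⟨46900, 3960, 6060, 20, 0, 0⟩,
   ⟨48400, 5000, 33333, 1000, 0, 0⟩,
   ⟨48410, 4920, 32230, 1000, 0, 0⟩,
   ⟨48410, 5020, 33840, 1000, 0, 0⟩,
   ⟨48410, 5200, 36540, 1000, 0, 0⟩,
   ⟨48410, 5330, 38370, 1000, 0, 0⟩,
   ⟨49890, 4940, 37760, 920, 0, 0⟩,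
   ⟨50000, 3380, 3060, 0, 0, 0⟩,
   ⟨50000, 5920, 43260, 0, 0, 0⟩,
   ⟨50000, 6040, 44610, 0, 0, 0⟩]

set_option maxRecDepth 100000 in
lemma xr6_1_t : xr6_1.all (rowN 6) = true := by decide +kernel

/-- rows for `kd = 6` -/
def xr6_2 : List RowN :=
  [⟨52190, 4720, 37880, 0, 0, 0⟩,
   ⟨53840, 5240, 54670, 240, 0, 0⟩,
   ⟨54410, 4750, 47120, 10, 0, 0⟩]

set_option maxRecDepth 100000 in
lemma xr6_2_t : xr6_2.all (rowN 6) = true := by decide +kernel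

end Pool.Agent.TSG
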