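import Pool.Agent.TSG.TabX1
import Pool.Agent.TSG.TabX2
import Pool.Agent.TSG.TabX3
import Pool.Agent.TSG.TabX4

set_option autoImplicit false

/-!
# The table of the even rule with a constant, all rows (MP_d27362_co, helper2)
-/

namespace Pool.Agent.TSG

/-- the rows -/
def tabX (kd : ℕ) : List ECe :=
  match kd with
  | 0 => xr0_0.map RowN.ec ++
      (xr0_1.map RowN.ec ++
      (xr0_2.map RowN.ec))
  | 4 => xr4_0.map RowN.ec ++
      (xr4_1.map RowN.ec ++
      (xr4_2.map RowN.ec ++
      (xr4_3.map RowN.ec ++
      (xr4_4.map RowN.ec ++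
      (xr4_5.map RowN.ec)))))
  | 6 => xr6_0.map RowN.ec ++
      (xr6_1.map RowN.ec ++
      (xr6_2.map RowN.ec))
  | 8 => []
  | _ => []

/-- the rows are correct -/
theorem tabX_ok (kd : ℕ) : ∀ e ∈ tabX kd, RowOk kd e := by
  unfold tabX
  split
  · intro e he
    rcases List.mem_append.1 he with he | he
    · exact rowsN_ok xr0_0_t e he
    rcases List.mem_append.1 he with he | he
    · exact rowsN_ok xr0_1_t e he
    exact rowsN_ok xr0_2_t e he
  · intro e he
    rcases List.mem_append.1 he with he | he
    · exact rowsN_ok xr4_0_t e he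
    rcases List.mem_append.1 he with he | he
    · exact rowsN_ok xr4_1_t e he
    rcases List.mem_append.1 he with he | he
    · exact rowsN_ok xr4_2_t e he
    rcases List.mem_append.1 he with he | he
    · exact rowsN_ok xr4_3_t e he
    rcases List.mem_append.1 he with he | he
    · exact rowsN_ok xr4_4_t e he
    exact rowsN_ok xr4_5_t e he
  · intro e he
    rcases List.mem_append.1 he with he | he
    · exact rowsN_ok xr6_0_t e he
    rcases List.mem_append.1 he with he | he
    · exact rowsN_ok xr6_1_t e he
    exact rowsN_ok xr6_2_t e he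
  · intro e he
    simp at he
  · intro e he
    simp at he

end Pool.Agent.TSG
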