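import Pool.Agent.TSG.Lok3L

set_option autoImplicit false

/-!
# Lines of families from rows of cells (MP_d27362_co)
-/

namespace Pool.Agent.TSG

open Pool.Agent.TSC
open Pool.Agent.TSM (q0 th RD Reg)

/-- the data of a line of `FamC` in one cell -/
structure CF where
  /-- weights and shares -/
  x : FX Dec
  /-- the creation inequality for the part `q2` -/
  c2 : TSM.CR
  /-- the creation inequality for the part `q1` -/
  c1 : TSM.CR
  /-- numbers of the test for `v_y ≤ 2` -/
  K2 : List ℕ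
  /-- numbers of the test for `v_y ≤ 1` -/
  K1 : List ℕ

/-- the data of a line of `FamLS` in one cell -/
structure CL where
  /-- weights and shares -/
  x : FY Dec
  /-- the creation inequality for the part `q2` -/
  c2 : TSM.CR
  /-- the creation inequality for the part `q1` -/
  c1 : TSM.CR
  /-- numbers of the test for `v_y ≤ 2` -/
  K2 : List ℕ
  /-- numbers of the test for `v_y ≤ 1` -/
  K1 : List ℕ

/-- the test of a line of `FamC` for one interval of `t` -/
def rowF3 (S : FS) (lf : Kn Dec → LD Dec) (sf : ℕ → S4 (PS Dec)) (th : ℕ) (tc : TC) :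
    List (Seg (Kn Dec)) → List CF → Bool
  | [], _ => true
  | dc :: dl, e :: es =>
    (far tc dc || cellF3 th S (lf dc.x) (sf dc.x.ix) tc dc e.x e.c2 e.c1 e.K2 e.K1) &&
      rowF3 S lf sf th tc dl es
  | _ :: _, [] => false

theorem rowF3_sound {S : FS} {lf : Kn Dec → LD Dec} {sf : ℕ → S4 (PS Dec)} {th : ℕ} {tc : TC} :
    ∀ {dl : List (Seg (Kn Dec))} {es : List CF}, rowF3 S lf sf th tc dl es = true →
    ∀ dc ∈ dl, tc.a.val + dc.a.val ≤ 1 / 2 → CellF S (lf dc.x) (sf dc.x.ix) tc dc
  | [], _, _, dc, hd => by simp at hd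
  | d :: dl, [], h, dc, hd => by simp [rowF3] at h
  | d :: dl, e :: es, h, dc, hd => by
    intro hs
    simp only [rowF3, Bool.and_eq_true, Bool.or_eq_true] at h
    obtain ⟨h1, h2⟩ := h
    rcases List.mem_cons.1 hd with rfl | hd
    · rcases h1 with h1 | h1
      · exact absurd hs (far_sound h1)
      · exact cellF3_sound h1
    · exact rowF3_sound h2 dc hd hs

/-- the test of a line of `FamLS` for one interval of `t` -/
def rowL3 (S : FSL) (lf : Kn Dec → LL Dec) (sf : Kn Dec → S4 (PS Dec)) (th : ℕ) (tc : TC) :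
    List (Seg (Kn Dec)) → List CL → Bool
  | [], _ => true
  | dc :: dl, e :: es =>
    (far tc dc || cellL3 th S (lf dc.x) (sf dc.x) tc dc e.x e.c2 e.c1 e.K2 e.K1) &&
      rowL3 S lf sf th tc dl es
  | _ :: _, [] => false

theorem rowL3_sound {S : FSL} {lf : Kn Dec → LL Dec} {sf : Kn Dec → S4 (PS Dec)} {th : ℕ}
    {tc : TC} : ∀ {dl : List (Seg (Kn Dec))} {es : List CL}, rowL3 S lf sf th tc dl es = true →
    ∀ dc ∈ dl, tc.a.val + dc.a.val ≤ 1 / 2 → CellL S (lf dc.x) (sf dc.x) tc dc
  | [], _, _, dc, hd => by simp at hd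
  | d :: dl, [], h, dc, hd => by simp [rowL3] at h
  | d :: dl, e :: es, h, dc, hd => by
    intro hs
    simp only [rowL3, Bool.and_eq_true, Bool.or_eq_true] at h
    obtain ⟨h1, h2⟩ := h
    rcases List.mem_cons.1 hd with rfl | hd
    · rcases h1 with h1 | h1
      · exact absurd hs (far_sound h1)
      · exact cellL3_sound h1
    · exact rowL3_sound h2 dc hd hs

/-- a line holds on one interval of `t` -/
def RowOK (S : FS) (lf : Kn Dec → LD Dec) (sf : ℕ → S4 (PS Dec)) (dl : List (Seg (Kn Dec)))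
    (tc : TC) : Prop :=
  ∀ dc ∈ dl, tc.a.val + dc.a.val ≤ 1 / 2 → CellF S (lf dc.x) (sf dc.x.ix) tc dc

/-- a line holds on one interval of `t` -/
def RowL (S : FSL) (lf : Kn Dec → LL Dec) (sf : Kn Dec → S4 (PS Dec))
    (dl : List (Seg (Kn Dec))) (tc : TC) : Prop :=
  ∀ dc ∈ dl, tc.a.val + dc.a.val ≤ 1 / 2 → CellL S (lf dc.x) (sf dc.x) tc dc

/-- the line from its rows; use `List.forall_mem_cons` for the list of the intervals -/
theorem lineOK_of {tl : List TC} {dl : List (Seg (Kn Dec))} {S : FS} {lf : Kn Dec → LD Dec}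
    {sf : ℕ → S4 (PS Dec)} (h : ∀ tc ∈ tl, RowOK S lf sf dl tc) : LineOK tl dl S lf sf :=
  fun tc ht dc hd hs => h tc ht dc hd hs

theorem lineL_of {tl : List TC} {dl : List (Seg (Kn Dec))} {S : FSL} {lf : Kn Dec → LL Dec}
    {sf : Kn Dec → S4 (PS Dec)} (h : ∀ tc ∈ tl, RowL S lf sf dl tc) : LineL tl dl S lf sf :=
  fun tc ht dc hd hs => h tc ht dc hd hs

/-- parts of the list of the intervals of the total mass -/
theorem rowOK_append {S : FS} {lf : Kn Dec → LD Dec} {sf : ℕ → S4 (PS Dec)}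
    {dl dl' : List (Seg (Kn Dec))} {tc : TC} (h : RowOK S lf sf dl tc)
    (h' : RowOK S lf sf dl' tc) : RowOK S lf sf (dl ++ dl') tc := by
  intro dc hd hs
  rcases List.mem_append.1 hd with h1 | h1
  · exact h dc h1 hs
  · exact h' dc h1 hs

end Pool.Agent.TSG
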