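import Pool.Agent.TSG.GlP
import Pool.Agent.TSG.Row3

set_option autoImplicit false

/-!
# The certificate of the even kinds, cell by cell (MP_d27362_co)
-/

namespace Pool.Agent.TSG

open Pool.Agent.TSC
open Pool.Agent.TSM (q0 th RD Reg)

/-- a shape with its constants -/
structure ES where
  /-- the shape -/
  S : FS
  /-- the constants -/
  k : KE

/-- the numbers of the two lines of a shape in one cell -/
structure CE where
  /-- the line with the gain `y'` -/
  A : CF
  /-- the line with the gain `r` -/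
  B : CF

/-- the two lines of all shapes of a list hold in a cell, or the cell is far -/
def EF (tc : TC) (dc : Seg (Kn Dec)) (L : List ES) : Prop :=
  tc.a.val + dc.a.val ≤ 1 / 2 → ∀ E ∈ L, CellF E.S (ldA E.k) E.k.s tc dc ∧
    CellF E.S (ldB E.k) E.k.s tc dc

/-- the test of the two lines of one shape in one cell -/
def ceOk (th : ℕ) (tc : TC) (dc : Seg (Kn Dec)) (E : ES) (c : CE) : Bool :=
  cellF3 th E.S (ldA E.k) E.k.s tc dc c.A.x c.A.c2 c.A.c1 c.A.K2 c.A.K1 &&
    cellF3 th E.S (ldB E.k) E.k.s tc dc c.B.x c.B.c2 c.B.c1 c.B.K2 c.B.K1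

/-- the test of all shapes of a list in one cell -/
def efOk (th : ℕ) (tc : TC) (dc : Seg (Kn Dec)) : List ES → List CE → Bool
  | [], _ => true
  | E :: L, c :: cs => ceOk th tc dc E c && efOk th tc dc L cs
  | _ :: _, [] => false

lemma efOk_sound {th : ℕ} {tc : TC} {dc : Seg (Kn Dec)} : ∀ {L : List ES} {cs : List CE},
    efOk th tc dc L cs = true → ∀ E ∈ L, CellF E.S (ldA E.k) E.k.s tc dc ∧
      CellF E.S (ldB E.k) E.k.s tc dc
  | [], _, _, E, hE => by simp at hE
  | F :: L, [], h, E, hE => by simp [efOk] at h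
  | F :: L, c :: cs, h, E, hE => by
    simp only [efOk, ceOk, Bool.and_eq_true] at h
    rcases List.mem_cons.1 hE with rfl | hE
    · exact ⟨cellF3_sound h.1.1, cellF3_sound h.1.2⟩
    · exact efOk_sound h.2 E hE

theorem EF.mk {th : ℕ} {tc : TC} {dc : Seg (Kn Dec)} {L : List ES} {cs : List CE}
    (h : efOk th tc dc L cs = true) : EF tc dc L := fun _ => efOk_sound h

theorem EF.far {tc : TC} {dc : Seg (Kn Dec)} {L : List ES}
    (h : Pool.Agent.TSG.far tc dc = true) : EF tc dc L := fun hs => absurd hs (far_sound h)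

/-- one shape, the two lines tested separately -/
theorem EF.one {th th' : ℕ} {tc : TC} {dc : Seg (Kn Dec)} {E : ES} {A B : CF}
    (hA : cellF3 th E.S (ldA E.k) E.k.s tc dc A.x A.c2 A.c1 A.K2 A.K1 = true)
    (hB : cellF3 th' E.S (ldB E.k) E.k.s tc dc B.x B.c2 B.c1 B.K2 B.K1 = true) :
    EF tc dc [E] := by
  intro _ F hF
  rw [List.mem_singleton] at hF
  subst hF
  exact ⟨cellF3_sound hA, cellF3_sound hB⟩

theorem EF.append {tc : TC} {dc : Seg (Kn Dec)} {L L' : List ES} (h : EF tc dc L)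
    (h' : EF tc dc L') : EF tc dc (L ++ L') := by
  intro hs E hE
  rcases List.mem_append.1 hE with h1 | h1
  · exact h hs E h1
  · exact h' hs E h1

theorem EF.nil {tc : TC} {dc : Seg (Kn Dec)} : EF tc dc [] := fun _ E hE => by simp at hE

/-- the certificate of a list `sh` of sharp shapes for one interval of the total mass -/
def EvC (tl : List TC) (kd : ℕ) (sh : List FS) (dc : Seg (Kn Dec)) : Prop :=
  ∃ L : List ES, (∀ E ∈ L, EvK kd E.k dc) ∧
    (sh.all fun S0 => covT S0 (L.map ES.S)) = true ∧ ∀ tc ∈ tl, EF tc dc L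

theorem EvC.cov {tl : List TC} {kd : ℕ} {sh : List FS} {dc : Seg (Kn Dec)}
    (h : EvC tl kd sh dc) : ∀ S0 ∈ sh, CovE tl kd dc S0 := by
  obtain ⟨L, h1, h2, h3⟩ := h
  rw [List.all_eq_true] at h2
  intro S0 hS0
  refine covT_sound (h2 S0 hS0) fun S hS => ?_
  obtain ⟨E, hE, rfl⟩ := List.mem_map.1 hS
  exact ⟨E.k, h1 E hE, fun tc htc hs => (h3 tc htc hs E hE).1,
    fun tc htc hs => (h3 tc htc hs E hE).2⟩

/-- chunks of shapes -/
theorem EF.flatten {tc : TC} {dc : Seg (Kn Dec)} {Ls : List (List ES)}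
    (h : ∀ L ∈ Ls, EF tc dc L) : EF tc dc Ls.flatten := by
  intro hs E hE
  obtain ⟨L, hL, hE⟩ := List.mem_flatten.1 hE
  exact h L hL hs E hE

/-- the certificate from chunks of shapes -/
theorem EvC.of {tl : List TC} {kd : ℕ} {sh : List FS} {dc : Seg (Kn Dec)} {Ls : List (List ES)}
    (h1 : (Ls.all fun L => L.all fun E => evOk kd E.k dc) = true)
    (h2 : (sh.all fun S0 => covT S0 (Ls.flatten.map ES.S)) = true)
    (h3 : ∀ L ∈ Ls, ∀ tc ∈ tl, EF tc dc L) : EvC tl kd sh dc := by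
  refine ⟨Ls.flatten, ?_, h2, fun tc htc => EF.flatten fun L hL => h3 L hL tc htc⟩
  rw [List.all_eq_true] at h1
  intro E hE
  obtain ⟨L, hL, hE⟩ := List.mem_flatten.1 hE
  have h4 := h1 L hL
  rw [List.all_eq_true] at h4
  exact evOk_k (h4 E hE)

/-- the certificate from chunks of shapes, with a table of rows -/
theorem EvC.of2 {tl : List TC} {tab : List ECe} {kd : ℕ} {sh : List FS} {dc : Seg (Kn Dec)}
    {Ls : List (List ES)} (ht : ∀ e ∈ tab, RowOk kd e)
    (h1 : (Ls.all fun L => L.all fun E => evOk2 tab kd E.k dc) = true)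
    (h2 : (sh.all fun S0 => covT S0 (Ls.flatten.map ES.S)) = true)
    (h3 : ∀ L ∈ Ls, ∀ tc ∈ tl, EF tc dc L) : EvC tl kd sh dc := by
  refine ⟨Ls.flatten, ?_, h2, fun tc htc => EF.flatten fun L hL => h3 L hL tc htc⟩
  rw [List.all_eq_true] at h1
  intro E hE
  obtain ⟨L, hL, hE⟩ := List.mem_flatten.1 hE
  have h4 := h1 L hL
  rw [List.all_eq_true] at h4
  exact evOk2_k ht (h4 E hE)

end Pool.Agent.TSG
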