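import Pool.Agent.TSG.CertE

set_option autoImplicit false

/-!
# Packed numbers of the lines (MP_d27362_co)

The weights and shares of a line are one natural number: words of `32` bits, bit `0` of a word is
the sign, the next three bits are the number of decimals. The other numbers come from the shape.
-/

namespace Pool.Agent.TSG

open Pool.Agent.TSC

/-- word `i` -/
def wd (N i : ℕ) : ℕ := Nat.mod (Nat.shiftRight N (Nat.mul 32 i)) 4294967296

/-- a number from a word -/
def sgD (k : ℕ) : Dec := cond (Nat.beq (Nat.mod k 2) 0) ⟨Nat.div k 16, 0, Nat.mod (Nat.div k 2) 8⟩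
  ⟨0, Nat.div k 16, Nat.mod (Nat.div k 2) 8⟩

/-- number `i` -/
def wn (N i : ℕ) : Dec := sgD (wd N i)

/-- the weights and shares -/
def fxw (S : FS) (N : ℕ) : FX Dec :=
  ⟨⟨wn N 0, wn N 1, wn N 2, wn N 3, wn N 4, wn N 5, wn N 6, wn N 7, wn N 8, wn N 9, S.gm, S.vm,
    S.fv, S.f, S.fg, wn N 10, Dec.one, wn N 11, Dec.one, Dec.one, Dec.one, wn N 12⟩,
    wn N 13, wn N 14, ⟨wn N 15, wn N 16, wn N 17, Dec.zero, Dec.zero⟩,
    ⟨wn N 18, wn N 19, wn N 20, Dec.zero, Dec.zero⟩, wn N 21, wn N 22, wn N 23, wn N 24, wn N 25,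
    wn N 26, wn N 27, wn N 28, wn N 29, wn N 30, wn N 31, wn N 32, wn N 33, wn N 34, S.rg.sy,
    S.rg.su, wn N 35, ⟨wn N 36, wn N 37, wn N 38, wn N 39, wn N 40, S.kN, wn N 41, wn N 42,
    wn N 43⟩, wn N 44, wn N 45, wn N 46, wn N 47, wn N 48, wn N 49, wn N 50, wn N 51⟩

/-- the creation inequality for the part `q2` -/
def c2w (N : ℕ) : TSM.CR := ⟨wn N 56, 0, wd N 52, wd N 53, wd N 54, wd N 55⟩

/-- the base creation inequality -/
def c0w : TSM.CR := ⟨Dec.zero, 0, 0, 0, 0, 0⟩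

/-- one line -/
def cfw (S : FS) (N a b c d : ℕ) : CF := ⟨fxw S N, c2w N, c0w, [a, b], [c, d]⟩

/-- the lines of a list of shapes: ten numbers for each shape -/
def csw : List ES → List ℕ → List CE
  | E :: L, N :: a :: b :: c :: d :: N' :: a' :: b' :: c' :: d' :: r =>
    ⟨cfw E.S N a b c d, cfw E.S N' a' b' c' d'⟩ :: csw L r
  | _, _ => []

/-- a cell from packed numbers -/
theorem EF.pk {th : ℕ} {tc : TC} {dc : Seg (Kn Dec)} {L : List ES} {Ns : List ℕ}
    (h : efOk th tc dc L (csw L Ns) = true) : EF tc dc L := EF.mk h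

end Pool.Agent.TSG
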