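import Pool.Agent.TSG.Glue
import Pool.Agent.TSC.ConsZ

set_option autoImplicit false

/-!
# The test for the constants of the rules on an interval of total masses (MP_d27362_co)
-/

namespace Pool.Agent.TSG

open Pool.Agent.TSC
open Pool.Agent.TSC.Dec
open Pool.Agent.TSM (OneE LossC TwoE RD)

/-- auxiliary numbers for a pair: `κ` and the division points -/
structure AP where
  /-- `κ` -/
  ka : Dec
  /-- division points of `[0, 1]` -/
  xs : List Dec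

/-- auxiliary numbers for the rule for leaf, path and child -/
structure AZ where
  /-- `ε` -/
  eps : Dec
  /-- `β` of the first two lines -/
  be1 : Dec
  /-- the data of the first two lines -/
  d1 : LacD
  /-- `β` of the last two lines -/
  be2 : Dec
  /-- the data of the last two lines -/
  d2 : LacD
  /-- `β` of the first two lines, negative gain -/
  be3 : Dec
  /-- the data of the first two lines, negative gain -/
  d3 : LacD
  /-- `β` of the last two lines, negative gain -/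
  be4 : Dec
  /-- the data of the last two lines, negative gain -/
  d4 : LacD

/-- auxiliary numbers for the constants of an interval -/
structure Aux where
  /-- `σ0` -/
  sig : Dec
  /-- first loss condition: start -/
  x1 : Dec
  /-- first loss condition: division points -/
  xs1 : List Dec
  /-- second loss condition: start -/
  x2 : Dec
  /-- second loss condition: division points -/
  xs2 : List Dec
  /-- leaf and child -/
  lc : AP
  /-- path and child -/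
  pc : AP
  /-- two nontrivial children -/
  cc : AP
  /-- leaf, path and child -/
  z : AZ

/-- the test of the payments -/
def s4Ok (s : S4 Dec) : Bool := nn s.s0 && (nn s.s1 && (nn s.s2 && (nn s.s3 && nn s.s4)))

lemma s4Ok_sound {s : S4 Dec} (h : s4Ok s = true) (n : ℕ) : 0 ≤ (s.map val).ty n := by
  simp only [s4Ok, Bool.and_eq_true] at h
  rw [S4.map_ty]
  rcases n with _ | _ | _ | _ | n
  · exact nn_iff h.1
  · exact nn_iff h.2.1
  · exact nn_iff h.2.2.1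
  · exact nn_iff h.2.2.2.1
  · exact nn_iff h.2.2.2.2

/-- the test of the constants of a pair; `D1` is the upper end of the interval -/
def rpOk (a : AP) (rp : RP Dec) (C0 chi D1 : Dec) : Bool :=
  twoOk D1 rp.r rp.C a.ka rp.eta chi rp.psi a.xs && nn (sub C0 rp.C)

lemma rpOk_sound {a : AP} {rp : RP Dec} {C0 chi D1 : Dec} (h : rpOk a rp C0 chi D1 = true)
    {D : ℝ} (h0 : 0 ≤ D) (h1 : D ≤ D1.val) :
    (∃ κ, TwoE D rp.r.val rp.C.val κ rp.eta.val chi.val rp.psi.val) ∧ rp.C.val ≤ C0.val := by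
  simp only [rpOk, Bool.and_eq_true] at h
  refine ⟨⟨a.ka.val, twoOk_sound h.1 h0 h1⟩, ?_⟩
  have := nn_iff h.2
  rw [val_sub] at this
  linarith

/-- the test of the gain side of the rule for leaf, path and child -/
def zgOk (z : RZ Dec) (D1 : Dec) : Bool :=
  nn z.r && (nn (sub one (nsm 3 (mul z.r D1))) && (nn z.g1 &&
  (nn (sub (mul z.g1 (add (sub one (mul (pos 9 1) (mul z.r D1)))
    (mul (pos 365 3) (mul (mul z.r D1) (mul z.r D1))))) (pos 7 1)) &&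
  (nn (sub z.g2 (pos 10125 4)) && (nn (sub (nsm 13 (sub z.g2 (pos 10125 4)))
    (mul (pos 9 1) z.r)) && (nn (sub (pos 9 1) z.e1) && (nn (sub (pos 9 1) z.e2) &&
  (nn z.c4 && nn (sub one (mul z.c4 qhi))))))))))

lemma zgOk_sound {z : RZ Dec} {D1 : Dec} (h : zgOk z D1 = true) {D : ℝ} (h0 : 0 ≤ D)
    (h1 : D ≤ D1.val) : 0 ≤ z.r.val ∧ z.r.val * D ≤ 1 / 3 ∧
      7 / 10 ≤ z.g1.val * (1 - 9 / 10 * (z.r.val * D) + 73 / 200 * (z.r.val * D) ^ 2) ∧
      81 / 80 ≤ z.g2.val ∧ 9 / 10 * z.r.val ≤ (z.g2.val - 81 / 80) * 13 ∧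
      z.e1.val ≤ 9 / 10 ∧ z.e2.val ≤ 9 / 10 ∧ z.c4.val * TSM.q0 ≤ 1 := by
  simp only [zgOk, Bool.and_eq_true] at h
  obtain ⟨k1, k2, k3, k4, k5, k6, k7, k8, k9, k10⟩ := h
  have e1 := nn_iff k1
  have e2 := nn_iff k2
  have e3 := nn_iff k3
  have e4 := nn_iff k4
  have e5 := nn_iff k5
  have e6 := nn_iff k6
  have e7 := nn_iff k7
  have e8 := nn_iff k8
  have e9 := nn_iff k9
  have e10 := nn_iff k10
  simp only [val_sub, val_mul, val_add, val_nsm, val_one, val_pos, Nat.cast_ofNat] at e2 e4 e5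
  simp only [val_sub, val_mul, val_nsm, val_one, val_pos, Nat.cast_ofNat] at e6 e7 e8 e10
  have hx : z.r.val * D ≤ z.r.val * D1.val := mul_le_mul_of_nonneg_left h1 e1
  have hx0 : 0 ≤ z.r.val * D := mul_nonneg e1 h0
  obtain ⟨x, hxd⟩ : ∃ x : ℝ, x = z.r.val * D := ⟨_, rfl⟩
  obtain ⟨x1, hxd1⟩ : ∃ x1 : ℝ, x1 = z.r.val * D1.val := ⟨_, rfl⟩
  rw [← hxd] at hx hx0 ⊢
  rw [← hxd1] at hx e2 e4
  refine ⟨e1, by linarith, ?_, by linarith, by linarith, by linarith, by linarith, ?_⟩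
  · have h5 : (1 : ℝ) - 9 / 10 * x1 + 73 / 200 * x1 ^ 2 ≤ 1 - 9 / 10 * x + 73 / 200 * x ^ 2 := by
      nlinarith
    have h6 := mul_le_mul_of_nonneg_left h5 e3
    have h7 : z.g1.val * ((1 : ℝ) - 9 / 10 ^ 1 * x1 + 365 / 10 ^ 3 * (x1 * x1)) =
        z.g1.val * (1 - 9 / 10 * x1 + 73 / 200 * x1 ^ 2) := by ring
    rw [h7] at e4
    linarith
  · have h5 := mul_le_mul_of_nonneg_left q0_lt_qhi.le e9
    linarith

/-- the test of four lines of the loss side -/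
def z4Ok (D1 ε χ a k b be a' k' b' be' : Dec) (d d' : LacD) : Bool :=
  nn a && (nn a' && (zloOk D1 ε χ one a be k d && (zloOk D1 ε χ (add one χ) a' be' k' d' &&
  (nn (sub (mul (sub χ a) be) b) && nn (sub (mul (sub χ a') be') b')))))

lemma z4Ok_sound {D1 ε χ a k b be a' k' b' be' : Dec} {d d' : LacD}
    (h : z4Ok D1 ε χ a k b be a' k' b' be' d d' = true) {D : ℝ} (h0 : 0 ≤ D)
    (h1 : D ≤ D1.val) : 0 ≤ a.val ∧ a.val ≤ χ.val ∧ 0 ≤ a'.val ∧ a'.val ≤ χ.val ∧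
      0 ≤ k.val ∧ 0 ≤ k'.val ∧ TSM.ZLo D ε.val χ.val 1 a.val (be.val * D) k.val ∧
      TSM.ZLo D ε.val χ.val (1 + χ.val) a'.val (be'.val * D) k'.val ∧
      b.val ≤ (χ.val - a.val) * be.val ∧ b'.val ≤ (χ.val - a'.val) * be'.val := by
  simp only [z4Ok, Bool.and_eq_true] at h
  obtain ⟨k1, k2, k3, k4, k5, k6⟩ := h
  have e1 := nn_iff k1
  have e2 := nn_iff k2
  obtain ⟨f1, f2, f3, f4⟩ := zloOk_sound k3 h0 h1
  obtain ⟨g1, g2, g3, g4⟩ := zloOk_sound k4 h0 h1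
  have e5 := nn_iff k5
  have e6 := nn_iff k6
  simp only [val_sub, val_mul] at e5 e6
  rw [val_one] at f1
  rw [val_add, val_one] at g1
  exact ⟨e1, f2, e2, g2, f4, g4, f1, g1, by linarith, by linarith⟩

/-- the test of the loss side of the rule for leaf, path and child -/
def zlOk (x : AZ) (z : RZ Dec) (χ D1 : Dec) : Bool :=
  nn (sub x.eps (pos 25 2)) && (nn (sub (nsm 4 x.eps) (mul z.r D1)) &&
  (nn (sub z.q1 (add one x.eps)) &&
  (nn (sub (mul (nsm 4 x.eps) (sub z.q2 (add one x.eps))) one) && (nn (sub one z.a1) &&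
  (z4Ok D1 x.eps χ z.a1 z.k1 z.b1 x.be1 z.a2 z.k2 z.b2 x.be2 x.d1 x.d2 &&
  (nn (sub z.n1 (pos 14 1)) && (nn (sub z.n2 (pos 23 1)) && (nn (sub z.n3 (nat 10)) &&
  z4Ok D1 (pos 4 1) χ z.a3 z.k3 z.b3 x.be3 z.a4 z.k4 z.b4 x.be4 x.d3 x.d4))))))))

lemma zlOk_sound {x : AZ} {z : RZ Dec} {χ D1 : Dec} (h : zlOk x z χ D1 = true) (hr : 0 ≤ z.r.val)
    {D : ℝ} (h0 : 0 ≤ D) (h1 : D ≤ D1.val) :
    (∃ ε β1 β2, 1 / 4 ≤ ε ∧ z.r.val * D ≤ 4 * ε ∧ 1 + ε ≤ z.q1.val ∧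
    1 + ε + 1 / (4 * ε) ≤ z.q2.val ∧ 0 ≤ z.a1.val ∧ z.a1.val ≤ 1 ∧ z.a1.val ≤ χ.val ∧
    0 ≤ z.a2.val ∧ z.a2.val ≤ χ.val ∧ 0 ≤ z.k1.val ∧ 0 ≤ z.k2.val ∧
    TSM.ZLo D ε χ.val 1 z.a1.val (β1 * D) z.k1.val ∧
    TSM.ZLo D ε χ.val (1 + χ.val) z.a2.val (β2 * D) z.k2.val ∧
    z.b1.val ≤ (χ.val - z.a1.val) * β1 ∧ z.b2.val ≤ (χ.val - z.a2.val) * β2) ∧
    (∃ β1 β2, 7 / 5 ≤ z.n1.val ∧ 23 / 10 ≤ z.n2.val ∧ 10 ≤ z.n3.val ∧ 0 ≤ z.a3.val ∧
    z.a3.val ≤ χ.val ∧ 0 ≤ z.a4.val ∧ z.a4.val ≤ χ.val ∧ 0 ≤ z.k3.val ∧ 0 ≤ z.k4.val ∧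
    TSM.ZLo D (2 / 5) χ.val 1 z.a3.val (β1 * D) z.k3.val ∧
    TSM.ZLo D (2 / 5) χ.val (1 + χ.val) z.a4.val (β2 * D) z.k4.val ∧
    z.b3.val ≤ (χ.val - z.a3.val) * β1 ∧ z.b4.val ≤ (χ.val - z.a4.val) * β2) := by
  simp only [zlOk, Bool.and_eq_true] at h
  obtain ⟨k1, k2, k3, k4, k5, k6, k7, k8, k9, k10⟩ := h
  have e1 := nn_iff k1
  have e2 := nn_iff k2
  have e3 := nn_iff k3
  have e4 := nn_iff k4
  have e5 := nn_iff k5
  have e7 := nn_iff k7
  have e8 := nn_iff k8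
  have e9 := nn_iff k9
  simp only [val_sub, val_mul, val_add, val_nsm, val_one, val_pos, Nat.cast_ofNat] at e1 e2 e3
  simp only [val_sub, val_mul, val_add, val_nsm, val_one, val_pos, Nat.cast_ofNat] at e4 e5 e7
  simp only [val_sub, val_pos, nat_val, Nat.cast_ofNat] at e8 e9
  obtain ⟨f1, f2, f3, f4, f5, f6, f7, f8, f9, f10⟩ := z4Ok_sound k6 h0 h1
  obtain ⟨g1, g2, g3, g4, g5, g6, g7, g8, g9, g10⟩ := z4Ok_sound k10 h0 h1
  have hx : z.r.val * D ≤ z.r.val * D1.val := mul_le_mul_of_nonneg_left h1 hr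
  have he : (pos 4 1 : Dec).val = 2 / 5 := by
    rw [val_pos]
    norm_num
  rw [he] at g7 g8
  have hep : 0 < x.eps.val := by linarith
  refine ⟨⟨x.eps.val, x.be1.val, x.be2.val, by linarith, by linarith, by linarith, ?_, f1,
    by linarith, f2, f3, f4, f5, f6, f7, f8, f9, f10⟩, ⟨x.be3.val, x.be4.val, by linarith,
    by linarith, by linarith, g1, g2, g3, g4, g5, g6, g7, g8, g9, g10⟩⟩
  have h5 : 1 / (4 * x.eps.val) ≤ z.q2.val - (1 + x.eps.val) := by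
    rw [div_le_iff₀ (by linarith)]
    linarith
  linarith

/-- the test of all constants on an interval -/
def kOk (a : Aux) (s : Seg (Kn Dec)) : Bool :=
  nn s.a && (nn s.w && (nn s.x.chi &&
  (oneOk (add s.a s.w) (sub one s.x.ru.w0) s.x.ru.K s.x.ru.r s.x.pd.kap &&
  (lossOk (add s.a s.w) a.sig s.x.ru.s one s.x.ru.K1 a.x1 a.xs1 &&
  (lossOk (add s.a s.w) a.sig s.x.chi (add one s.x.chi) s.x.ru.K2 a.x2 a.xs2 &&
  (nn (sub s.x.chi s.x.ru.s) && (rpOk a.lc s.x.lc s.x.pd.C0 s.x.chi (add s.a s.w) &&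
  (rpOk a.pc s.x.pc s.x.pd.C0 s.x.chi (add s.a s.w) && (nn s.x.pd.kap &&
  (s4Ok s.x.su && (s4Ok s.x.sl && (s4Ok s.x.sp &&
  (rpOk a.cc s.x.cc s.x.pd.C0 s.x.chi (add s.a s.w) && (nn s.x.pd.cu && (nn s.x.sm &&
  (s4Ok s.x.sz && (zgOk s.x.z (add s.a s.w) &&
  zlOk a.z s.x.z s.x.chi (add s.a s.w))))))))))))))))))

theorem kOk_sound {a : Aux} {s : Seg (Kn Dec)} (h : kOk a s = true) {mu : ℝ} (h0 : 0 ≤ mu)
    (h1 : mu ≤ 1) : KOk (s.x.map val) (s.a.val + mu * s.w.val) := by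
  simp only [kOk, Bool.and_eq_true] at h
  obtain ⟨k1, k2, k3, k4, k5, k6, k7, k8, k9, k10, k11, k12, k13, k14, k15, k16, k17, k18,
    k19⟩ := h
  have e1 := nn_iff k1
  have e2 := nn_iff k2
  have hD0 : 0 ≤ s.a.val + mu * s.w.val := by
    have := mul_nonneg h0 e2
    linarith
  have hD1 : s.a.val + mu * s.w.val ≤ (add s.a s.w).val := by
    rw [val_add]
    have := mul_le_mul_of_nonneg_right h1 e2
    linarith
  have h8 := rpOk_sound k8 hD0 hD1
  have h9 := rpOk_sound k9 hD0 hD1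
  have h14 := rpOk_sound k14 hD0 hD1
  obtain ⟨g1, g2, g3, g4, g5, g6, g7, g8⟩ := zgOk_sound k18 hD0 hD1
  obtain ⟨l1, l2⟩ := zlOk_sound k19 g1 hD0 hD1
  refine ⟨⟨(add s.a s.w).val, a.sig.val, ?_, ?_, ?_⟩, ?_, h8.1, h8.2, h9.1, h9.2, h14.1, h14.2,
    nn_iff k3, nn_iff k10, nn_iff k15, s4Ok_sound k11, s4Ok_sound k12, s4Ok_sound k13, nn_iff k16,
    s4Ok_sound k17, g1, g2, g3, g4, g5, g6, g7, l1, l2, g8⟩
  · have := oneOk_sound k4 hD0 hD1
    rwa [val_sub, val_one] at this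
  · have := lossOk_sound k5
    rwa [val_one] at this
  · have := lossOk_sound k6
    rwa [val_add one, val_one] at this
  · have := nn_iff k7
    rw [val_sub] at this
    show s.x.ru.s.val ≤ s.x.chi.val
    linarith

/-- the test for all the intervals -/
def kAll : List Aux → List (Seg (Kn Dec)) → Bool
  | _, [] => true
  | [], _ :: _ => false
  | a :: al, s :: dl => kOk a s && kAll al dl

lemma kAll_mem : ∀ {al : List Aux} {dl : List (Seg (Kn Dec))}, kAll al dl = true →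
    ∀ s ∈ dl, ∃ a, kOk a s = true
  | _, [], _, s, hs => by simp at hs
  | [], _ :: _, h, s, hs => by simp [kAll] at h
  | a :: al, r :: dl, h, s, hs => by
    simp only [kAll, Bool.and_eq_true] at h
    rcases List.mem_cons.1 hs with rfl | hs
    · exact ⟨a, h.1⟩
    · exact kAll_mem h.2 s hs

/-- **the constants are admissible for every total mass** -/
theorem hk_of {tl : List (TC)} {dl : List (Seg (Kn Dec))}
    (hc : covers tl dl = true) {al : List Aux} (h : kAll al dl = true) (d : Seg (Kn Dec)) :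
    ∀ D, RD D → KOk (knAt dl d D) D := by
  intro D hD
  obtain ⟨hm, mu, m0, m1, hmu, _⟩ := covers_sound hc d hD
  obtain ⟨a, ha⟩ := kAll_mem h _ hm
  have h2 := kOk_sound ha m0 m1
  unfold knAt
  rwa [← hmu] at h2

end Pool.Agent.TSG
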