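import Pool.Agent.TSG.F3L

set_option autoImplicit false

/-!
# Three explicit children: the cells (MP_d27362_co)
-/

namespace Pool.Agent.TSG

open Finset
open Pool.Agent.TSC
open Pool.Agent.TSM (q0 th RD Reg Sn NS CT Q5 chd vU vY aU aY aX XX YY UU gY2 Chd LK2 LK LnL Caps LfL
  Vi fam gU T3 I3 lcr ldl lq2 Cre creOk_sound)
open Pool.Agent.TSR (OBr sg_true sg_false)
open Pool.Agent.TLT (sg)
open Pool.Agent.TDN (dn dn_nonneg)
open Dec (nn)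

/-! ### the bounds of the squares -/

/-- the numbers of the creation inequalities -/
structure CrN (a : ℝ) (zG : Z3) (aYn aXL aXA aXB : ℝ) : Prop where
  h0 : 0 ≤ aYn
  h1 : aYn ≤ aXL + aXA + aXB
  hG : ∀ {la ga be : ℝ}, Cre a la ga be →
    aYn ^ 2 + be * (zG.Z - zG.v) ^ 2 ≤ q0 ^ 2 * (ga * zG.v ^ 2 + la * zG.az ^ 2)
  hL : ∀ {la ga : ℝ}, Cre a la ga 0 → aXL ^ 2 ≤ q0 ^ 2 * (ga * zG.vL ^ 2 + la * zG.aL ^ 2)
  hA : ∀ {la ga : ℝ}, Cre a la ga 0 → aXA ^ 2 ≤ q0 ^ 2 * (ga * zG.vA ^ 2 + la * zG.aA ^ 2)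
  hB : ∀ {la ga : ℝ}, Cre a la ga 0 → aXB ^ 2 ≤ q0 ^ 2 * (ga * zG.vB ^ 2 + la * zG.aB ^ 2)

/-- **the bounds of the squares from the test** -/
theorem f3_rw {S : F3S} {thd t0 : Dec} {x : F3X} {F : F3 ℝ}
    (hx : F.x = (mkX3 S thd x).map Dec.val) (hok : f3Ok S thd t0 x = true) {θ a : ℝ}
    (hθ0 : 0 ≤ θ) (hθ : θ ≤ thd.val) (ht0 : t0.val ≤ a) (haq : a ≤ q0) {zU zG : Z3}
    (hU : S.kU.Ok θ zU) (hG : S.kG.Ok θ zG) {aYn aXL aXA aXB : ℝ}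
    (hc : CrN a zG aYn aXL aXA aXB) (hXB : S.kG.M3 = false → aXB = 0) :
    F.Rw zU zG aYn := by
  simp only [f3Ok, Bool.and_eq_true] at hok
  obtain ⟨k1, k2, k3, k4, k5, k6, k7, k8, k9, k10, k11, k12, k13, k14, k15, k16, k17, k18, k19,
    k20, k21, k22, k23, k24, k25, k26, k27⟩ := hok
  have hgU := sgOk_sound k22
  have hgG := sgOk_sound k23
  have c1 := creOk_sound k11 ht0 haq
  have c2 := creOk_sound k12 ht0 haq
  rw [Dec.val_zero] at c2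
  refine ⟨?_, ?_, ?_, ?_, ?_, ?_, ?_, ?_, ?_, ?_⟩
  · rw [hx]
    exact mixOk_cen k1 _ _ _ _
  · rw [hx]
    exact mixOk_cen k2 _ _ _ _
  · rw [hx]
    exact tanOk_sound k26 _
  · rw [hx]
    exact tanOk_sound k27 _
  · rw [hx]
    have h1 := rowZ_le hU hgU hθ0 hθ k3
    have h2 := R3.rnd_le (rowZ S.kU thd x.pU) zU
    simp only [Bool.false_eq_true, if_false, zero_mul, add_zero] at h1
    exact h1.trans h2
  · rw [hx]
    exact (rowR_le hU hgU hθ0 hθ k4).trans (R3.rnd_le (rowR S.kU thd x.pR) zU)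
  · rw [hx]
    have h1 := rowZ_le hG hgG hθ0 hθ k5
    have h2 := R3.rnd_le (rowZ S.kG thd x.pG) zG
    have h3 : ((mkX3 S thd x).map Dec.val).tb =
        (if x.t4 then x.pG.be.val * x.pG.s.val else 0) := by
      show (if x.t4 then Dec.mul x.pG.be x.pG.s else Dec.zero).val = _
      cases x.t4
      · simp [Dec.val_zero]
      · simp [Dec.val_mul]
    rw [h3]
    have h4 : ((mkX3 S thd x).map Dec.val).rG = ((rowZ S.kG thd x.pG).rnd).map Dec.val := rfl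
    rw [h4]
    linarith
  · rw [hx]
    exact (rowR_le hG hgG hθ0 hθ k6).trans (R3.rnd_le (rowR S.kG thd x.pQ) zG)
  · rw [hx]
    have h1 := rowY_le hG hgG hθ0 hθ k7 k8 k9 k10 (a := zG.Z) (aY := aYn) c1.lam0 c1.g0 c2.lam0
      c2.g0 hc.h0 hc.h1 hXB (hc.hL c2) (hc.hA c2) (hc.hB c2) (hc.hG c1)
    have h2 := R3.rnd_le (rowY S.kG thd x) zG
    have h3 : ((mkX3 S thd x).map Dec.val).ta = x.ze.val * x.be.val := by
      show (Dec.mul x.ze x.be).val = _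
      rw [Dec.val_mul]
    have h4 : ((mkX3 S thd x).map Dec.val).rY = ((rowY S.kG thd x).rnd).map Dec.val := rfl
    rw [h3, h4]
    linarith
  · rw [hx]
    have h1 := aU_le hU k13 k14 k15 k16
    have e1 : ((mkX3 S thd x).map Dec.val).aL = x.qf.val * S.kU.fL.val + x.qL.val := by
      show (Dec.add (Dec.mul x.qf S.kU.fL) x.qL).val = _
      rw [Dec.val_add, Dec.val_mul]
    have e2 : ((mkX3 S thd x).map Dec.val).aA = x.qf.val * S.kU.fA.val + x.qA.val := by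
      show (Dec.add (Dec.mul x.qf S.kU.fA) x.qA).val = _
      rw [Dec.val_add, Dec.val_mul]
    have e3 : ((mkX3 S thd x).map Dec.val).aB = x.qf.val * S.kU.fB.val + x.qB.val := by
      show (Dec.add (Dec.mul x.qf S.kU.fB) x.qB).val = _
      rw [Dec.val_add, Dec.val_mul]
    rw [e1, e2, e3]
    exact h1

lemma f3_ls {S : F3S} {thd t0 : Dec} {x : F3X} (hok : f3Ok S thd t0 x = true) :
    0 ≤ x.l1.val ∧ 0 ≤ x.l2.val ∧ 0 ≤ x.l3.val ∧ 0 ≤ x.l4.val ∧ x.lm.all nn = true ∧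
      S.kU.M3 = S.kG.M3 ∧ sh3Ok S x = true := by
  simp only [f3Ok, Bool.and_eq_true] at hok
  obtain ⟨k1, k2, k3, k4, k5, k6, k7, k8, k9, k10, k11, k12, k13, k14, k15, k16, k17, k18, k19,
    k20, k21, k22, k23, k24, k25, k26, k27⟩ := hok
  exact ⟨Dec.nn_iff k18, Dec.nn_iff k19, Dec.nn_iff k20, Dec.nn_iff k21, k17,
    beq_iff_eq.1 k24, k25⟩

/-- the shares -/
lemma sh3_sum {S : F3S} {x : F3X} (h : sh3Ok S x = true) {i j k : ℕ} (hi : i ∈ S.tL)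
    (hj : j ∈ S.tA) (hk : S.kU.M3 = true → k ∈ S.tB) :
    x.cL.val + x.cA.val + (if S.kU.M3 then x.cB.val else 0) = 1 ∧
      0 ≤ (x.dL.ty i).val + (x.dA.ty j).val + (if S.kU.M3 then (x.dB.ty k).val else 0) := by
  unfold sh3Ok at h
  cases hM : S.kU.M3
  · rw [hM] at h
    simp only [Bool.false_eq_true, if_false, Bool.and_eq_true, List.all_eq_true] at h ⊢
    obtain ⟨h1, h2, h3⟩ := h
    have e1 := Dec.nn_iff h1
    have e2 := Dec.nn_iff h2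
    have e3 := Dec.nn_iff (h3 i hi j hj)
    simp only [Dec.val_sub, Dec.val_add, Dec.val_one] at e1 e2 e3
    constructor <;> linarith
  · rw [hM] at h
    simp only [if_true, Bool.and_eq_true, List.all_eq_true] at h ⊢
    obtain ⟨h1, h2, h3⟩ := h
    have e1 := Dec.nn_iff h1
    have e2 := Dec.nn_iff h2
    have e3 := Dec.nn_iff (h3 i hi j hj k (hk hM))
    simp only [Dec.val_sub, Dec.val_add, Dec.val_one] at e1 e2 e3
    constructor <;> linarith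

/-! ### payments -/

/-- the test of a payment -/
def p5Ok (p : P5 Dec) : Bool :=
  nn p.s0 && (nn (Dec.add p.s0 (Dec.nsm 2 p.s1)) && (nn (Dec.add p.s0 (Dec.nsm 2 p.s3)) &&
  (nn (Dec.add p.s0 (Dec.add (Dec.nsm 2 p.s1) (Dec.nsm 2 p.s3))) && (nn p.s2 && nn p.s4))))

/-- the test of the payments -/
def t5Ok (p : T5 Dec) : Bool :=
  p5Ok p.t0 && (p5Ok p.t1 && (p5Ok p.t2 && (p5Ok p.t3 && p5Ok p.t4)))

/-- the test of the payments -/
def s3Ok (s : S3 Dec) : Bool := t5Ok s.L && (t5Ok s.A && t5Ok s.B)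

lemma p5Ok_sound {p : P5 Dec} (h : p5Ok p = true) {st : Sn} (h0 : 0 ≤ st.vU) (h1 : st.vU ≤ 2)
    (h2 : 0 ≤ st.vY) (h3 : st.vY ≤ 2) : 0 ≤ (p.map Dec.val).ev st := by
  simp only [p5Ok, Bool.and_eq_true] at h
  obtain ⟨k1, k2, k3, k4, k5, k6⟩ := h
  have e1 := Dec.nn_iff k1
  have e2 := Dec.nn_iff k2
  have e3 := Dec.nn_iff k3
  have e4 := Dec.nn_iff k4
  have e5 := mul_nonneg (Dec.nn_iff k5) (sq_nonneg st.aU)
  have e6 := mul_nonneg (Dec.nn_iff k6) (sq_nonneg st.aY)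
  simp only [Dec.val_add, Dec.val_nsm] at e2 e3 e4
  push_cast at e2 e3 e4
  have a1 := mul_nonneg e1 (mul_nonneg (sub_nonneg.2 h1) (sub_nonneg.2 h3))
  have a2 := mul_nonneg e2 (mul_nonneg h0 (sub_nonneg.2 h3))
  have a3 := mul_nonneg e3 (mul_nonneg (sub_nonneg.2 h1) h2)
  have a4 := mul_nonneg e4 (mul_nonneg h0 h2)
  unfold P5.ev P5.map
  dsimp only
  nlinarith

lemma t5Ok_sound {p : T5 Dec} (h : t5Ok p = true) (t : ℕ) {st : Sn} (h0 : 0 ≤ st.vU)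
    (h1 : st.vU ≤ 2) (h2 : 0 ≤ st.vY) (h3 : st.vY ≤ 2) :
    0 ≤ ((p.map Dec.val).ty t).ev st := by
  simp only [t5Ok, Bool.and_eq_true] at h
  obtain ⟨k1, k2, k3, k4, k5⟩ := h
  rw [T5.map_ty]
  rcases t with _ | _ | _ | _ | t
  · exact p5Ok_sound k1 h0 h1 h2 h3
  · exact p5Ok_sound k2 h0 h1 h2 h3
  · exact p5Ok_sound k3 h0 h1 h2 h3
  · exact p5Ok_sound k4 h0 h1 h2 h3
  · exact p5Ok_sound k5 h0 h1 h2 h3

/-! ### the cells -/

/-- the line in one cell -/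
def CellF3 (S : F3S) (l : LL Dec) (vs : List (LV Dec)) (s : S3 Dec) (tc : TC)
    (dc : Seg (Kn Dec)) : Prop :=
  ∃ x : F3X, f3Ok S tc.x.th tc.a x = true ∧ ∀ lam mu : ℝ, 0 ≤ lam → lam ≤ 1 → 0 ≤ mu → mu ≤ 1 →
    GOK 2 tc.x.th.val ((rF3 lam mu tc dc l vs s (mkX3 S tc.x.th x)).g2 S) ∧
    GOK 1 tc.x.th.val ((rF3 lam mu tc dc l vs s (mkX3 S tc.x.th x)).g1 S)

/-- the line in all cells -/
def LineF3 (tl : List TC) (dl : List (Seg (Kn Dec))) (S : F3S) (l : Kn Dec → LL Dec)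
    (vs : Kn Dec → List (LV Dec)) (s : Kn Dec → S3 Dec) : Prop :=
  ∀ tc ∈ tl, ∀ dc ∈ dl, tc.a.val + dc.a.val ≤ 1 / 2 →
    CellF3 S (l dc.x) (vs dc.x) (s dc.x) tc dc

variable {S : F3S} {tl : List TC} {dl : List (Seg (Kn Dec))} {d : Seg (Kn Dec)}
  {lf : Kn Dec → LL Dec} {vf : Kn Dec → List (LV Dec)} {sf : Kn Dec → S3 Dec} {D a : ℝ}

/-- the data of the line at a point -/
structure F3At (tl : List TC) (dl : List (Seg (Kn Dec))) (d : Seg (Kn Dec)) (S : F3S)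
    (lf : Kn Dec → LL Dec) (vf : Kn Dec → List (LV Dec)) (sf : Kn Dec → S3 Dec) (D a : ℝ)
    (F : F3 ℝ) (x : F3X) (thd t0 : Dec) : Prop where
  hE : F.E = enAt tl dl d D a
  hth : th a ≤ thd.val
  ht0 : t0.val ≤ a
  hl : F.l = (lf (pick dl d D).x).map Dec.val
  hv : F.vs = (vf (pick dl d D).x).map (LV.map Dec.val)
  hs : F.s = (sf (pick dl d D).x).map Dec.val
  hx : F.x = (mkX3 S thd x).map Dec.val
  hok : f3Ok S thd t0 x = true
  h2 : GOK 2 (th a) (F.g2 S)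
  h1 : GOK 1 (th a) (F.g1 S)

lemma LineF3.at (hc : covers tl dl = true) (hL : LineF3 tl dl S lf vf sf)
    (ha : Reg D a) : ∃ F x thd t0, F3At tl dl d S lf vf sf D a F x thd t0 := by
  obtain ⟨tc, htc, lam, mu, hI, h2⟩ := enAt_spec (d := d) hc ha
  obtain ⟨x, hx, h3⟩ := hL tc htc _ (covers_sound hc d ⟨ha.1, ha.2.1⟩).1 hI.hs
  obtain ⟨g2, g1⟩ := h3 lam mu hI.l0 hI.l1 hI.m0 hI.m1
  have key : ∀ W L, GOK W tc.x.th.val L → GOK W (th a) L := by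
    intro W L h g hg p hp
    exact h g hg p ⟨hp.v0, hp.v2, hp.a0, hp.hu.trans (mul_le_mul_of_nonneg_right hI.hth hp.a0),
      hp.w0, hp.w2, hp.b0, hp.hy.trans (mul_le_mul_of_nonneg_right hI.hth hp.b0)⟩
  refine ⟨rF3 lam mu tc (pick dl d D) (lf (pick dl d D).x) (vf (pick dl d D).x)
    (sf (pick dl d D).x) (mkX3 S tc.x.th x), x, tc.x.th, tc.a, h2.symm, hI.hth, ?_, rfl, rfl, rfl,
    rfl, hx, key _ _ g2, key _ _ g1⟩
  have := hI.ht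
  have := mul_nonneg hI.l0 hI.hw.le
  linarith

variable {F : F3 ℝ} {x : F3X} {thd t0 : Dec}

lemma F3At.ok (h : F3At tl dl d S lf vf sf D a F x thd t0) (hc : covers tl dl = true)
    (hs : LOK tl dl sgnL) (ha : Reg D a) : F.E.Ok realHom D a := by
  rw [h.hE]
  exact enAt_ok hc hs ha

/-- the constants of the group of constants are nonnegative -/
lemma F3At.cs (h : F3At tl dl d S lf vf sf D a F x thd t0) : ∀ k ∈ F.cs S, 0 ≤ k := by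
  intro k hk
  have h1 := h.h2 (cstG (F.cs S)) (by simp [F3.g2]) ⟨0, 0, 0, 0, 0, 0⟩
    (by constructor <;> simp) (qc k) (List.mem_map.2 ⟨k, hk, rfl⟩) qz0
    (List.mem_singleton.2 rfl)
  simpa [qc, qz0, QI.ev, rZero] using h1

/-- the signs at a point -/
lemma F3At.sig (h : F3At tl dl d S lf vf sf D a F x thd t0) (hc : covers tl dl = true)
    (hs : LOK tl dl sgnL) (ha : Reg D a) (hal : 0 ≤ F.l.al) : F.Sg S := by
  have hE := h.ok hc hs ha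
  have hcs := h.cs
  obtain ⟨l1, l2, l3, l4, _⟩ := f3_ls h.hok
  have hlU : 0 ≤ (F.pN S).lU := hE.hlU _
  have hqU : 0 ≤ (F.pN S).qU := hE.hqU _
  have hly : 0 ≤ (F.pN S).ly := hE.hly _
  have hqy : 0 ≤ (F.pN S).qy := hE.hqy _
  have hdv : 0 ≤ (F.pN S).dv := hE.hdv _
  have hl4 : 0 ≤ F.x.l4 := by rw [h.hx]; exact l4
  refine ⟨hcs _ (by simp [F3.cs]), hcs _ (by simp [F3.cs]), hcs _ (by simp [F3.cs]),
    hcs _ (by simp [F3.cs]), ?_, ?_, hlU, hqU, hly, hqy, hal, ?_, ?_, ?_, ?_⟩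
  · show 0 ≤ Ar.add (F.pN S).dv F.x.l4
    rw [rAdd]
    exact add_nonneg hdv hl4
  · exact hcs _ (by simp only [F3.cs, List.mem_cons, rMul, rSub, true_or, or_true])
  · rw [h.hx]; exact l1
  · rw [h.hx]; exact l2
  · rw [h.hx]; exact l3
  · rw [h.hx]; exact l4

lemma T5.ty_m4 {α : Type} (s : T5 α) (t : ℕ) : s.ty (m4 t) = s.ty t := by
  rcases t with _ | _ | _ | _ | t
  · rfl
  · rfl
  · rfl
  · rfl
  · have : m4 (t + 4) = 4 := by unfold m4; omega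
    rw [this]
    rfl

lemma gA_m4 (F : F3 ℝ) (S : F3S) (t : ℕ) : F.gA S (m4 t) = F.gA S t := by
  unfold F3.gA
  rw [En.ty_m4, T5.ty_m4, S4.ty_m4]

lemma gB_m4 (F : F3 ℝ) (S : F3S) (t : ℕ) : F.gB S (m4 t) = F.gB S t := by
  unfold F3.gB
  rw [En.ty_m4, T5.ty_m4, S4.ty_m4]

lemma gL3_m4 (F : F3 ℝ) (S : F3S) (v : LV ℝ) (t : ℕ) : F.gL S v (m4 t) = F.gL S v t := by
  unfold F3.gL F3.vL
  rw [En.ty_m4, T5.ty_m4, S4.ty_m4, pdQ_m4]

lemma ty_mem {l : List ℕ} {g : ℕ → GP ℝ} {t : ℕ} (hm : ∀ t, g (m4 t) = g t) (ht : m4 t ∈ l) :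
    (t = 0 → g t ∈ ty0 l g) ∧ (t = 1 ∨ t = 2 ∨ t = 3 → g t ∈ ty1 l g) ∧
      (4 ≤ t → shG (g t) ∈ ty1 l g) := by
  refine ⟨fun h => ?_, fun h => ?_, fun h => ?_⟩
  · subst h
    exact List.mem_map.2 ⟨0, List.mem_filter.2 ⟨ht, rfl⟩, rfl⟩
  · rw [m4_lt (by omega)] at ht
    unfold ty1
    refine List.mem_map.2 ⟨t, List.mem_filter.2 ⟨ht, ?_⟩, ?_⟩
    · rcases h with rfl | rfl | rfl <;> rfl
    · rcases h with rfl | rfl | rfl <;> rfl
  · rw [m4_ge h] at ht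
    unfold ty1
    refine List.mem_map.2 ⟨4, List.mem_filter.2 ⟨ht, rfl⟩, ?_⟩
    have := hm t
    rw [m4_ge h] at this
    rw [← this]
    rfl

/-- the group of a child is nonnegative at a point -/
lemma F3At.gr (h : F3At tl dl d S lf vf sf D a F x thd t0) {p : Pt} (hp : Dom (th a) p) (ty : ℕ)
    (hw : (ty = 1 ∨ ty = 2 ∨ ty = 3 → p.w ≤ 1) ∧ (4 ≤ ty → 1 ≤ p.w)) {l : List ℕ}
    {g : ℕ → GP ℝ} (hm : ∀ t, g (m4 t) = g t) (ht : m4 ty ∈ l)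
    (h0 : ∀ y ∈ ty0 l g, y ∈ F.g2 S) (h1 : ∀ y ∈ ty1 l g, y ∈ F.g1 S)
    (hl : ∀ t, ∀ B ∈ (g t).2, B.l = 0) :
    ∀ A ∈ (g ty).1, ∀ B ∈ (g ty).2, 0 ≤ A.ev p.u p.v p.a + B.ev p.y p.w p.b := by
  obtain ⟨k0, k1, k4⟩ := ty_mem hm ht
  exact gok_at h.h2 h.h1 hp ty hw (fun e => h0 _ (k0 e)) (fun e => h1 _ (k1 e))
    (fun e => h1 _ (k4 e)) (hl ty)

end Pool.Agent.TSG
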