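import Pool.Agent.TSG.F3C

set_option autoImplicit false

/-!
# Three explicit children: one line at a point (MP_d27362_co)
-/

namespace Pool.Agent.TSG

open Finset
open Pool.Agent.TSC
open Pool.Agent.TSM (q0 th RD Reg Sn NS CT Q5 chd vU vY aU aY aX XX YY UU gY2 Chd LK2 LK LnL Caps LfL
  Vi fam gU T3 I3 lcr ldl lq2 Cre)
open Pool.Agent.TSR (OBr sg_true sg_false)
open Pool.Agent.TLT (sg)
open Pool.Agent.TDN (dn dn_nonneg)

/-! ### what is known about the children -/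

/-- what is known about the values of a sum of three terms -/
structure CSv (k : CS) (tL tA tB vL vA vB aL aA aB az : ℝ) : Prop where
  hz : |tL * vL + (tA * vA + tB * vB)| ≤ k.hz.val
  gs : k.gs ≠ 0 → |tL * vL + (tA * vA + tB * vB)| = k.gs * (tL * vL + (tA * vA + tB * vB))
  zl : k.zl = true → |tL * vL + (tA * vA + tB * vB)| ≤ vL
  zd : k.zd = true → |tL * vL + (tA * vA + tB * vB)| ≤ |tA * vA + tB * vB|
  hd : |tA * vA + tB * vB| ≤ k.hd.val
  ds : k.ds ≠ 0 → |tA * vA + tB * vB| = k.ds * (tA * vA + tB * vB)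
  dl : k.dl = true → |tA * vA + tB * vB| ≤ vL
  od1 : k.od = 1 → (tA * vA + tB * vB) ^ 2 ≤ vA ^ 2 - vB ^ 2
  od2 : k.od = 2 → (tA * vA + tB * vB) ^ 2 ≤ vB ^ 2 - vA ^ 2
  fl : k.fl = true → az ^ 2 ≤ k.fL.val * aL ^ 2 + k.fA.val * aA ^ 2 + k.fB.val * aB ^ 2
  fv : 0 < k.fv.val → (tL * vL + (tA * vA + tB * vB)) ^ 2 ≤
    k.fv.val * (vL ^ 2 + vA ^ 2 + vB ^ 2)

/-- the values of a child -/
noncomputable def V4 (o : OBr) : Fin 4 → ℝ := ![vU o, aU o, vY o, aY o]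

/-- everything that is known about three children for a shape; `b` is the sign of `y_A` -/
structure TriF (S : F3S) {K : ℕ} (O : Fin K → OBr) (N : Finset (Fin K)) (tc : Fin K → ℕ)
    (σ e : Fin K → Bool) (b : Bool) (L A B : Fin K) : Prop where
  hT : T3 O L A B σ e b S.n
  hI : I3 L A B
  hO : TSM.FamO O N
  hL : S.L0 = false → L ∈ N
  hL' : S.L0 = true → L ∉ N
  hA : A ∈ N
  hB : S.kU.M3 = true → B ∈ N
  hB' : S.kU.M3 = false → B ∉ N
  hnL : sg (e L) * TSM.tau (O L) = S.nL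
  hn : S.nL + S.nR = (S.n : ℤ)
  hn1 : S.n ≤ 1
  hlo : S.yl.val ≤ vY (fam σ e O)
  hhi : vY (fam σ e O) ≤ S.yh.val
  htL : S.L0 = false → m4 (tc L) ∈ S.tL
  htL' : S.L0 = true → 0 ∈ S.tL
  htA : m4 (tc A) ∈ S.tA
  htB : S.kU.M3 = true → m4 (tc B) ∈ S.tB
  hAd : ∀ i ∈ N, Adm (tc i) (vU (O i)) (vY (O i)) (aU (O i)) (aY (O i))
  hsA : b ∈ S.sA
  hsB : S.kU.M3 = true → (!b) ∈ S.sB
  heL : S.L0 = false → e L ∈ S.eL
  heA : e A ∈ S.eA
  heB : S.kU.M3 = true → e B ∈ S.eB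
  hU : CSv S.kU 1 (sg b) (sg (!b)) (vY (O L)) (vY (O A)) (vY (O B)) (aY (O L)) (aY (O A))
    (aY (O B)) (aU (fam σ e O))
  hG : CSv S.kG (sg (e L)) (sg (e A)) (sg (e B)) (vU (O L)) (vU (O A)) (vU (O B)) (aU (O L))
    (aU (O A)) (aU (O B)) (dn q0 (gU e O))
  hcd : ∀ q ∈ S.cd, 0 ≤ (q.map Dec.val).ev (V4 (O L)) (V4 (O A)) (V4 (O B))

variable {S : F3S} {K : ℕ} {O : Fin K → OBr} {N : Finset (Fin K)} {tc : Fin K → ℕ}
  {σ e : Fin K → Bool} {b : Bool} {L A B : Fin K} {a : ℝ}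

lemma sg_sq (b : Bool) : sg b ^ 2 = 1 := by cases b <;> norm_num [sg_true, sg_false]

/-- the rest of the new `U` as a polynomial -/
noncomputable def pR3 (O : Fin K → OBr) (b : Bool) (A B : Fin K) : Polynomial ℝ :=
  sg b • YY (O A) + sg (!b) • YY (O B)

/-- the rest of `G` as a polynomial -/
noncomputable def gR3 (O : Fin K → OBr) (e : Fin K → Bool) (A B : Fin K) : Polynomial ℝ :=
  sg (e A) • UU (O A) + sg (e B) • UU (O B)

lemma dn_add3 (p q r : Polynomial ℝ) : dn q0 (p + q + r) ≤ dn q0 p + dn q0 q + dn q0 r := by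
  have h1 := TDN.dn_add_le q0 TSM.q0_pos.le (p + q) r
  have h2 := TDN.dn_add_le q0 TSM.q0_pos.le p q
  linarith

lemma TriF.M3 (h : TriF S O N tc σ e b L A B) (h0 : S.kU.M3 = false) :
    YY (O B) = 0 ∧ UU (O B) = 0 := ⟨h.hO.YY0 (h.hB' h0), h.hO.UU0 (h.hB' h0)⟩

/-- the case of the new `U` holds -/
lemma TriF.kUok (h : TriF S O N tc σ e b L A B) (ha0 : 0 ≤ a) (haq : a ≤ q0) :
    S.kU.Ok (th a) (zU3 (sg b) (sg (!b)) ((chd (tc L) (O L)).sn a) ((chd (tc A) (O A)).sn a)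
      ((chd (tc B) (O B)).sn a) (aU (fam σ e O)) (dn q0 (pR3 O b A B))) where
  tL := one_pow 2
  tA := sg_sq b
  tB := sg_sq (!b)
  vL := (h.hO.hI L).2.2.2.1
  vA := (h.hO.hI A).2.2.2.1
  vB := (h.hO.hI B).2.2.2.1
  aL := TSM.aY_nonneg _
  aA := TSM.aY_nonneg _
  aB := TSM.aY_nonneg _
  nL := TSM.Y_near (O L) ha0 haq
  nA := TSM.Y_near (O A) ha0 haq
  nB := TSM.Y_near (O B) ha0 haq
  nz := by
    have h1 := TSM.U_near (fam σ e O) ha0 haq
    rw [h.hT.U_eq, h.hT.vU_eq] at h1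
    show |1 * (YY (O L)).eval a + (sg b * (YY (O A)).eval a + sg (!b) * (YY (O B)).eval a) -
      (1 * vY (O L) + (sg b * vY (O A) + sg (!b) * vY (O B)))| ≤ _
    rw [TSM.sg_not']
    refine le_trans (le_of_eq (congrArg _ ?_)) h1
    ring
  n2 := by
    have h1 := TDN.abs_sub_le q0 TSM.q0_pos (pR3 O b A B) a ha0 haq
    unfold pR3 at h1 ⊢
    rw [Polynomial.eval_add, Polynomial.eval_add, Polynomial.eval_smul, Polynomial.eval_smul,
      Polynomial.eval_smul, Polynomial.eval_smul] at h1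
    exact h1
  az0 := TSM.aU_nonneg _
  a20 := dn_nonneg _ _
  az1 := by
    show dn q0 (UU (fam σ e O)) ≤ _
    rw [h.hT.UU_eq]
    have h1 := dn_add3 (YY (O L)) (sg b • YY (O A)) (sg (!b) • YY (O B))
    rw [TSM.dn_sg, TSM.dn_sg] at h1
    exact h1
  a21 := by
    have h1 := TDN.dn_add_le q0 TSM.q0_pos.le (sg b • YY (O A)) (sg (!b) • YY (O B))
    rw [TSM.dn_sg, TSM.dn_sg] at h1
    exact h1
  hM := fun h0 => by
    obtain ⟨h1, _⟩ := h.M3 h0
    refine ⟨?_, ?_, ?_⟩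
    · show (YY (O B)).eval a = 0
      rw [h1, Polynomial.eval_zero]
    · show (YY (O B)).eval q0 = 0
      rw [h1, Polynomial.eval_zero]
    · show dn q0 (YY (O B)) = 0
      rw [h1, TDN.dn_zero]
  hz := h.hU.hz
  gs := h.hU.gs
  zl := h.hU.zl
  zd := h.hU.zd
  hd := h.hU.hd
  ds := h.hU.ds
  dl := h.hU.dl
  od1 := h.hU.od1
  od2 := h.hU.od2
  fl := h.hU.fl
  fv := h.hU.fv

/-- the case of `G` holds -/
lemma TriF.kGok (h : TriF S O N tc σ e b L A B) (hM : S.kU.M3 = S.kG.M3) (ha0 : 0 ≤ a)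
    (haq : a ≤ q0) :
    S.kG.Ok (th a) (zG3 (sg (e L)) (sg (e A)) (sg (e B)) ((chd (tc L) (O L)).sn a)
      ((chd (tc A) (O A)).sn a) ((chd (tc B) (O B)).sn a) (dn q0 (gU e O))
      (dn q0 (gR3 O e A B))) where
  tL := sg_sq _
  tA := sg_sq _
  tB := sg_sq _
  vL := (h.hO.hI L).2.1
  vA := (h.hO.hI A).2.1
  vB := (h.hO.hI B).2.1
  aL := TSM.aU_nonneg _
  aA := TSM.aU_nonneg _
  aB := TSM.aU_nonneg _
  nL := TSM.U_near (O L) ha0 haq
  nA := TSM.U_near (O A) ha0 haq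
  nB := TSM.U_near (O B) ha0 haq
  nz := by
    have h1 := TDN.abs_sub_le q0 TSM.q0_pos (gU e O) a ha0 haq
    rw [h.hT.G_eq, h.hT.vG_eq] at h1
    show |sg (e L) * (UU (O L)).eval a + (sg (e A) * (UU (O A)).eval a +
      sg (e B) * (UU (O B)).eval a) -
      (sg (e L) * vU (O L) + (sg (e A) * vU (O A) + sg (e B) * vU (O B)))| ≤ _
    refine le_trans (le_of_eq (congrArg _ ?_)) h1
    ring
  n2 := by
    have h1 := TDN.abs_sub_le q0 TSM.q0_pos (gR3 O e A B) a ha0 haq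
    unfold gR3 at h1 ⊢
    rw [Polynomial.eval_add, Polynomial.eval_add, Polynomial.eval_smul, Polynomial.eval_smul,
      Polynomial.eval_smul, Polynomial.eval_smul] at h1
    exact h1
  az0 := dn_nonneg _ _
  a20 := dn_nonneg _ _
  az1 := by
    show dn q0 (gU e O) ≤ _
    rw [h.hT.gU_eq]
    have h1 := dn_add3 (sg (e L) • UU (O L)) (sg (e A) • UU (O A)) (sg (e B) • UU (O B))
    rw [TSM.dn_sg, TSM.dn_sg, TSM.dn_sg] at h1
    exact h1
  a21 := by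
    have h1 := TDN.dn_add_le q0 TSM.q0_pos.le (sg (e A) • UU (O A)) (sg (e B) • UU (O B))
    rw [TSM.dn_sg, TSM.dn_sg] at h1
    exact h1
  hM := fun h0 => by
    obtain ⟨_, h1⟩ := h.M3 (hM.trans h0)
    refine ⟨?_, ?_, ?_⟩
    · show (UU (O B)).eval a = 0
      rw [h1, Polynomial.eval_zero]
    · show (UU (O B)).eval q0 = 0
      rw [h1, Polynomial.eval_zero]
    · show dn q0 (UU (O B)) = 0
      rw [h1, TDN.dn_zero]
  hz := h.hG.hz
  gs := h.hG.gs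
  zl := h.hG.zl
  zd := h.hG.zd
  hd := h.hG.hd
  ds := h.hG.ds
  dl := h.hG.dl
  od1 := h.hG.od1
  od2 := h.hG.od2
  fl := h.hG.fl
  fv := h.hG.fv

lemma aX_eq (o : OBr) : aX o = dn q0 (Polynomial.X * UU o) := by
  unfold aX XX
  rw [TDN.dn_C_sub]

lemma cre_aX (o : OBr) {la ga : ℝ} (h : Cre a la ga 0) :
    aX o ^ 2 ≤ q0 ^ 2 * (ga * vU o ^ 2 + la * aU o ^ 2) := by
  have h1 := h.h (UU o)
  rw [zero_mul, add_zero, ← aX_eq] at h1
  exact h1

/-- the creation inequalities -/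
lemma TriF.crn (h : TriF S O N tc σ e b L A B) :
    CrN a (zG3 (sg (e L)) (sg (e A)) (sg (e B)) ((chd (tc L) (O L)).sn a)
      ((chd (tc A) (O A)).sn a) ((chd (tc B) (O B)).sn a) (dn q0 (gU e O))
      (dn q0 (gR3 O e A B))) (aY (fam σ e O)) (aX (O L)) (aX (O A)) (aX (O B)) where
  h0 := TSM.aY_nonneg _
  h1 := by
    have e1 : aY (fam σ e O) = dn q0 (Polynomial.X * gU e O) := by
      show dn q0 (YY (fam σ e O)) = _
      rw [h.hT.YY_eq, TDN.dn_C_sub]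
    have e2 : Polynomial.X * gU e O = sg (e L) • (Polynomial.X * UU (O L)) +
        sg (e A) • (Polynomial.X * UU (O A)) + sg (e B) • (Polynomial.X * UU (O B)) := by
      rw [h.hT.gU_eq]
      simp only [mul_add, mul_smul_comm]
    rw [e1, e2, aX_eq, aX_eq, aX_eq]
    have h1 := dn_add3 (sg (e L) • (Polynomial.X * UU (O L)))
      (sg (e A) • (Polynomial.X * UU (O A))) (sg (e B) • (Polynomial.X * UU (O B)))
    rw [TSM.dn_sg, TSM.dn_sg, TSM.dn_sg] at h1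
    exact h1
  hG := fun {la ga be} hc => by
    have e1 : aY (fam σ e O) = dn q0 (Polynomial.X * gU e O) := by
      show dn q0 (YY (fam σ e O)) = _
      rw [h.hT.YY_eq, TDN.dn_C_sub]
    have h1 := hc.h (gU e O)
    rw [← e1, h.hT.G_eq, h.hT.G_eq] at h1
    show _ + be * (sg (e L) * (UU (O L)).eval a + (sg (e A) * (UU (O A)).eval a +
      sg (e B) * (UU (O B)).eval a) -
      (sg (e L) * (UU (O L)).eval q0 + (sg (e A) * (UU (O A)).eval q0 +
        sg (e B) * (UU (O B)).eval q0))) ^ 2 ≤ q0 ^ 2 * (ga *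
      (sg (e L) * (UU (O L)).eval q0 + (sg (e A) * (UU (O A)).eval q0 +
        sg (e B) * (UU (O B)).eval q0)) ^ 2 + la * dn q0 (gU e O) ^ 2)
    rw [← add_assoc, ← add_assoc]
    exact h1
  hL := fun hc => cre_aX (O L) hc
  hA := fun hc => cre_aX (O A) hc
  hB := fun hc => cre_aX (O B) hc

/-- the linear bound of the seminorm of `x` -/
lemma aX_xk {E : En ℝ} {D : ℝ} (hE : E.Ok realHom D a) (o : OBr) :
    aX o ≤ E.xk * Real.sqrt (vU o ^ 2 + aU o ^ 2) := by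
  obtain ⟨h4, g', h5, h6⟩ := hE.hk
  have h4 : 0 ≤ E.xk := h4
  have h6 : q0 ^ 2 * g' ≤ E.xk ^ 2 := h6
  apply le_of_sq_le_sq ?_ (mul_nonneg h4 (Real.sqrt_nonneg _))
  rw [mul_pow, Real.sq_sqrt (by positivity)]
  have e1 := TSM.aX_tx h5 o
  have e2 := mul_le_mul_of_nonneg_right h6 (show 0 ≤ vU o ^ 2 + aU o ^ 2 by positivity)
  linarith

end Pool.Agent.TSG
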