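import Pool.Agent.TSG.F3D

set_option autoImplicit false

/-!
# Three explicit children: the rule from its lines (MP_d27362_co)
-/

namespace Pool.Agent.TSG

open Finset
open Pool.Agent.TSC
open Pool.Agent.TSM (q0 th RD Reg Sn NS CT Q5 chd vU vY aU aY aX XX YY UU gY2 Chd LK2 LK LnL Caps LfL
  Vi fam gU T3 I3 lcr ldl lq2 Cre)
open Pool.Agent.TSR (OBr sg_true sg_false)
open Pool.Agent.TLT (sg)
open Pool.Agent.TDN (dn dn_nonneg)
open Dec (nn)

variable {S : F3S} {tl : List TC} {dl : List (Seg (Kn Dec))} {d : Seg (Kn Dec)}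
  {lf : Kn Dec → LL Dec} {vf : Kn Dec → List (LV Dec)} {sf : Kn Dec → S3 Dec} {D a : ℝ}
  {F : F3 ℝ} {x : F3X} {thd t0 : Dec} {K : ℕ} {O : Fin K → OBr} {N : Finset (Fin K)}
  {tc : Fin K → ℕ} {σ e : Fin K → Bool} {b : Bool} {L A B : Fin K}

/-- the payment of the three children -/
noncomputable def pay3 (s : S3 ℝ) (L0 M3 : Bool) (tL tA tB : ℕ) (x p q : Sn) : ℝ :=
  (if L0 then 0 else (s.L.ty tL).ev x) + (s.A.ty tA).ev p + (if M3 then (s.B.ty tB).ev q else 0)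

lemma pay3_nonneg {s : S3 Dec} (h : s3Ok s = true) (hO : TSM.FamO O N) (L0 M3 : Bool)
    (tL tA tB : ℕ) : 0 ≤ pay3 (s.map Dec.val) L0 M3 tL tA tB ((chd (tc L) (O L)).sn a)
      ((chd (tc A) (O A)).sn a) ((chd (tc B) (O B)).sn a) := by
  simp only [s3Ok, Bool.and_eq_true] at h
  obtain ⟨h1, h2, h3⟩ := h
  have key : ∀ {p : T5 Dec} (_ : t5Ok p = true) (t : ℕ) (i : Fin K),
      0 ≤ ((p.map Dec.val).ty t).ev ((chd (tc i) (O i)).sn a) := fun h t i =>
    t5Ok_sound h t (hO.hI i).2.1 (hO.hI i).2.2.1 (hO.hI i).2.2.2.1 (hO.hI i).2.2.2.2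
  have k1 := key h1 tL L
  have k2 := key h2 tA A
  have k3 := key h3 tB B
  unfold pay3
  refine add_nonneg (add_nonneg ?_ k2) ?_
  · split_ifs
    · exact le_rfl
    · exact k1
  · split_ifs
    · exact k3
    · exact le_rfl

/-- the potential of a child -/
lemma F3At.vv (h : F3At tl dl d S lf vf sf D a F x thd t0) (t : ℕ) (o : OBr) :
    (((F.E.V.ty t).na).ns).ev ((chd t o).sn a) = VV tl dl d D a ((chd t o).sn a) := by
  have hVE : F.E.V = (enAt tl dl d D a).V := by rw [h.hE]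
  rw [hVE]
  exact vt_ev _ _

/-- the potential and the pending cost of `L` -/
lemma F3At.vvL (h : F3At tl dl d S lf vf sf D a F x thd t0) (hc : covers tl dl = true)
    (hs : LOK tl dl sgnL) (ha : Reg D a) (t : ℕ) (o : OBr) :
    (F.vL t).ns.ev ((chd t o).sn a) = VV tl dl d D a ((chd t o).sn a) -
      F.l.zL * PP' dl d D a ((chd t o).sn a) := by
  have hE := h.ok hc hs ha
  have hkE : F.E.k = knAt dl d D := by rw [h.hE]; exact enAt_k hc ha
  have h7 : ((pdQ F.E t).q5).ev ((chd t o).sn a) = PP' dl d D a ((chd t o).sn a) := by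
    have := pd_ev hE ((chd t o).sn a)
    rw [hkE] at this
    exact this
  rw [← h7, ← h.vv t o]
  unfold F3.vL NA.sub NA.add NS.ev NA.ns Q5.ev QA.q5
  simp only [rAdd, rNeg, rMul]
  ring

/-- a child with a form -/
lemma ch_le {V : NA ℝ} {c : C3 ℝ} {z W : ℝ} (hz : z ≤ -(D * (1 - D / (q0 - a))))
    (hWp : c.wp ≤ W) (hWm : W ≤ c.wm) (k ds : ℝ) {p : P5 ℝ} (st : Sn) (hp : 0 ≤ p.ev st)
    (hv : 0 ≤ st.vU) (b1 b2 : Bool)
    (h0 : 0 ≤ (c3U z V c k p b2).ev st.u st.vU st.aU + (c3Y z V c ds p b1).ev st.y st.vY st.aY) :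
    c.ev W (sg b1) (sg b2) st ≤ V.ns.ev st - (k + ds) - p.ev st * D * (1 - D / (q0 - a)) := by
  have := c3_form (V := V) hz hWp hWm k ds st hp hv b1 b2
  linarith

/-- the terms of a trivial child vanish -/
lemma c3_zero {c : C3 ℝ} {W s1 s2 : ℝ} {t : ℕ} {o : OBr} (hY : YY o = 0) (hU : UU o = 0) :
    c.ev W s1 s2 ((chd t o).sn a) = 0 := by
  have f1 : ((chd t o).sn a).u = 0 := by
    show (UU o).eval a = 0
    rw [hU, Polynomial.eval_zero]
  have f2 : ((chd t o).sn a).y = 0 := by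
    show (YY o).eval a = 0
    rw [hY, Polynomial.eval_zero]
  have f3 : ((chd t o).sn a).vU = 0 := by
    show (UU o).eval q0 = 0
    rw [hU, Polynomial.eval_zero]
  have f4 : ((chd t o).sn a).vY = 0 := by
    show (YY o).eval q0 = 0
    rw [hY, Polynomial.eval_zero]
  have f5 : ((chd t o).sn a).aU = 0 := by
    show dn q0 (UU o) = 0
    rw [hU, TDN.dn_zero]
  have f6 : ((chd t o).sn a).aY = 0 := by
    show dn q0 (YY o) = 0
    rw [hY, TDN.dn_zero]
  unfold C3.ev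
  rw [f1, f2, f3, f4, f5, f6]
  simp

/-- **one line for three explicit children** -/
theorem F3At.line (h : F3At tl dl d S lf vf sf D a F x thd t0) (hc : covers tl dl = true)
    (hs : LOK tl dl sgnL) (ha : Reg D a) (haq : a < q0) (hF : TriF S O N tc σ e b L A B)
    (hal : 0 ≤ F.l.al) (hp : s3Ok (sf (pick dl d D).x) = true) {v : LV ℝ} (hv : v ∈ F.vs)
    (ty : ℕ) :
    (F.pN S).ns.ev ((chd ty (fam σ e O)).sn a) +
      F.l.al * lcr (fun a => sg (e L) * (XX (O L)).eval a) (fun a => (YY (O L)).eval a)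
        (fun a => (gY2 σ O L).eval a) (fun a => ∑ i ∈ univ.erase L, sg (e i) * (XX (O i)).eval a) a +
      v.la * ldl (fun a => sg (e L) * (XX (O L)).eval a) (fun a => (YY (O L)).eval a) a +
      F.l.b * lq2 (fun a => (gY2 σ O L).eval a)
        (fun a => ∑ i ∈ univ.erase L, sg (e i) * (XX (O i)).eval a) a +
      (F.l.MU * (a * (gY2 σ O L).eval a ^ 2) +
        F.l.MY * (∑ i ∈ univ.erase L, sg (e i) * (XX (O i)).eval a) ^ 2) -
      (F.l.r0 + F.l.r1 * (∑ i ∈ univ.erase L, sg (e i) * (XX (O i)).eval a) +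
        F.l.r2 * (∑ i ∈ univ.erase L, sg (e i) * (XX (O i)).eval a) ^ 2) -
      (v.g0 + v.g1 * (sg (e L) * (XX (O L)).eval a) +
        v.g2 * (sg (e L) * (XX (O L)).eval a) ^ 2) - v.ke +
      pay3 F.s S.L0 S.kU.M3 (tc L) (tc A) (tc B) ((chd (tc L) (O L)).sn a)
        ((chd (tc A) (O A)).sn a) ((chd (tc B) (O B)).sn a) * D * (1 - D / (q0 - a)) ≤
    (if S.L0 then 0 else VV tl dl d D a ((chd (tc L) (O L)).sn a) -
        F.l.zL * PP' dl d D a ((chd (tc L) (O L)).sn a)) +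
      VV tl dl d D a ((chd (tc A) (O A)).sn a) +
      (if S.kU.M3 then VV tl dl d D a ((chd (tc B) (O B)).sn a) else 0) := by
  have hE := h.ok hc hs ha
  have ht : F.E.t = a := hE.ht
  have ha0 := ha.2.2.1
  have hg := h.sig hc hs ha hal
  have hO := hF.hO
  obtain ⟨_, _, _, _, hlm, hM, hsh⟩ := f3_ls h.hok
  -- the values
  have eU2 : (gY2 σ O L).eval a = sg b * (YY (O A)).eval a + sg (!b) * (YY (O B)).eval a := by
    rw [hF.hT.U2_eq, TSM.sg_not']
    ring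
  have hnr : (S.nL : ℝ) + S.nR = S.n := by exact_mod_cast hF.hn
  have ey2 : ∑ i ∈ univ.erase L, sg (e i) * (XX (O i)).eval a =
      S.nR - a * (sg (e A) * (UU (O A)).eval a + sg (e B) * (UU (O B)).eval a) := by
    rw [hF.hT.y2_eq]
    have h1 := hF.hT.hn
    have h2 := hF.hnL
    have h3 : sg (e A) * TSM.tau (O A) + sg (e B) * TSM.tau (O B) = S.nR := by linarith
    rw [h3]
  have exL : sg (e L) * (XX (O L)).eval a = S.nL - a * (sg (e L) * (UU (O L)).eval a) := by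
    rw [TSM.T3.xL_eq e L a, hF.hnL]
  -- the total inequality
  have kU := hF.kUok ha0 haq.le
  have kG := hF.kGok hM ha0 haq.le
  have crn := hF.crn (a := a)
  have hXB : S.kG.M3 = false → aX (O B) = 0 := fun h0 => by
    rw [aX_eq, (hF.M3 (hM.trans h0)).2, mul_zero, TDN.dn_zero]
  have rw3 := f3_rw h.hx h.hok (TSM.th_nonneg a) h.hth h.ht0 haq.le kU kG crn hXB
  have hax1 := aX_xk hE (O L)
  have hax2 := aX_xk hE (O A)
  have hax3 := aX_xk hE (O B)
  have hay := crn.h1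
  have hq : 0 ≤ F.x.q.ev (V4 (O L)) (V4 (O A)) (V4 (O B)) := by
    rw [h.hx]
    exact qsum_nonneg _ _ _ _ _ hlm hF.hcd
  have huh : vU (fam σ e O) ≤ F.x.uh := by
    rw [h.hx]
    have h1 := (abs_le.1 hF.hU.hz).2
    rw [TSM.sg_not'] at h1
    rw [hF.hT.vU_eq]
    show _ ≤ S.kU.hz.val
    linarith
  have hlo : F.x.yl ≤ vY (fam σ e O) := by
    rw [h.hx]
    exact hF.hlo
  have hhi : vY (fam σ e O) ≤ F.x.yh := by
    rw [h.hx]
    exact hF.hhi
  have tot := tot3 (v := v) hg ht ha0 hF.hn hF.hn1 ((chd (tc L) (O L)).sn a)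
    ((chd (tc A) (O A)).sn a) ((chd (tc B) (O B)).sn a) (w := (chd ty (fam σ e O)).sn a)
    (sg_sq (e L)) rw3 (by
      show (UU (fam σ e O)).eval a = (YY (O L)).eval a +
        (sg b * (YY (O A)).eval a + sg (!b) * (YY (O B)).eval a)
      rw [hF.hT.U_eq, TSM.sg_not']
      ring) (by
      show vU (fam σ e O) = vY (O L) + (sg b * vY (O A) + sg (!b) * vY (O B))
      rw [hF.hT.vU_eq, TSM.sg_not']
      ring) (by
      show (YY (fam σ e O)).eval a = S.n - a * (sg (e L) * (UU (O L)).eval a +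
        (sg (e A) * (UU (O A)).eval a + sg (e B) * (UU (O B)).eval a))
      rw [hF.hT.Y_eq, hF.hT.G_eq]
      ring) (by
      show vY (fam σ e O) = S.n - q0 * (sg (e L) * vU (O L) +
        (sg (e A) * vU (O A) + sg (e B) * vU (O B)))
      rw [hF.hT.vY_eq, hF.hT.vG_eq]
      ring) rfl rfl hF.hT.inv.2.1 huh hlo hhi kU.az1 (by
      show aY (fam σ e O) ≤ F.E.xk * (Real.sqrt (vU (O L) ^ 2 + aU (O L) ^ 2) +
        Real.sqrt (vU (O A) ^ 2 + aU (O A) ^ 2) + Real.sqrt (vU (O B) ^ 2 + aU (O B) ^ 2))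
      linarith) hq
  -- the children
  have hdom : ∀ i, Dom (th a) (pt ((chd (tc i) (O i)).sn a)) := fun i =>
    dom_of (TSM.chd_ok (tc i) (hO.hI i)) ha0 haq.le
  have hz : F.z ≤ -(D * (1 - D / (q0 - a))) := by
    have h1 := hE.hw haq
    have h2 : F.z = F.E.D2 * F.E.w - F.E.D := by
      unfold F3.z
      rw [rSub, rMul]
    have h3 : F.E.D = D := hE.hD
    have h4 : F.E.D2 * F.E.w ≤ D * (D / (q0 - a)) := h1
    rw [h2, h3]
    linarith
  have hT1 : F.E.Tl * F.pdp S ≤ q0 * F.pdp S := mul_le_mul_of_nonneg_right hE.hTl hg.dv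
  have hT2 : q0 * F.pdp S ≤ F.E.T * F.pdp S := mul_le_mul_of_nonneg_right hE.hT hg.dv
  have hT3 : F.E.Tl * F.x.l3 ≤ q0 * F.x.l3 := mul_le_mul_of_nonneg_right hE.hTl hg.l3
  have hT4 : q0 * F.x.l3 ≤ F.E.T * F.x.l3 := mul_le_mul_of_nonneg_right hE.hT hg.l3
  have hT5 : q0 * F.pdv S = q0 * F.pdp S - q0 * F.x.l3 := by
    unfold F3.pdv F3.pdp
    rw [rAdd, rSub, rAdd]
    ring
  have hW : ∀ (yU yR yG yQ yY : Y4 ℝ) (ar : ℝ) (q : Q6 ℝ) (y1 y2 u1 u2 yx ux : ℝ),
      (F.c0 S yU yR yG yQ yY ar q y1 y2 u1 u2 yx ux).wp ≤ F.W S yG yQ yY ∧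
        F.W S yG yQ yY ≤ (F.c0 S yU yR yG yQ yY ar q y1 y2 u1 u2 yx ux).wm := by
    intro yU yR yG yQ yY ar q y1 y2 u1 u2 yx ux
    unfold F3.W F3.c0
    simp only [rAdd, rMul, rSub]
    constructor <;> linarith
  simp only [s3Ok, Bool.and_eq_true] at hp
  obtain ⟨hp1, hp2, hp3⟩ := hp
  have hpay : ∀ {p : T5 Dec} (_ : t5Ok p = true) (t : ℕ) (i : Fin K),
      0 ≤ ((p.map Dec.val).ty t).ev ((chd (tc i) (O i)).sn a) := fun h t i =>
    t5Ok_sound h t (hO.hI i).2.1 (hO.hI i).2.2.1 (hO.hI i).2.2.2.1 (hO.hI i).2.2.2.2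
  -- `L`
  obtain ⟨tL', htL'⟩ : ∃ n, n = if S.L0 then 0 else tc L := ⟨_, rfl⟩
  obtain ⟨wL, hwL⟩ : ∃ w : ℝ, w = if S.L0 then 0 else VV tl dl d D a ((chd (tc L) (O L)).sn a) -
    F.l.zL * PP' dl d D a ((chd (tc L) (O L)).sn a) := ⟨_, rfl⟩
  obtain ⟨pL, hpL⟩ : ∃ p : ℝ, p = if S.L0 then 0 else (F.s.L.ty (tc L)).ev
    ((chd (tc L) (O L)).sn a) := ⟨_, rfl⟩
  have cL : (F.cL S v).ev (F.W S F.x.rG.L F.x.rQ.L F.x.rY.L) 1 (sg (e L))
      ((chd (tc L) (O L)).sn a) ≤ wL - (F.x.cL * F.ka S + F.kL S v + F.x.dL.ty tL') -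
        pL * D * (1 - D / (q0 - a)) := by
    cases hL0 : S.L0
    · have gL := h.gr (hdom L) (tc L) (hF.hAd L (hF.hL hL0)) (gL3_m4 F S v) (hF.htL hL0)
        (fun y hy => by
          unfold F3.g2
          refine List.mem_cons_of_mem _ (List.mem_append_right _ (List.mem_append_right _ ?_))
          rw [hL0]
          exact List.mem_flatMap.2 ⟨v, hv, hy⟩)
        (fun y hy => by
          unfold F3.g1
          refine List.mem_append_right _ (List.mem_append_right _ ?_)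
          rw [hL0]
          exact List.mem_flatMap.2 ⟨v, hv, hy⟩)
        (fun t B hB => by
          unfold F3.gL at hB
          simp only [List.mem_singleton] at hB
          rw [hB]
          exact rZero)
      have cL := ch_le (V := F.vL (tc L)) (c := F.cL S v) hz
        (hW _ _ F.x.rG.L F.x.rQ.L F.x.rY.L _ _ _ _ _ _ _ _).1
        (hW _ _ F.x.rG.L F.x.rQ.L F.x.rY.L _ _ _ _ _ _ _ _).2
        (F.x.cL * F.ka S + F.kL S v) (F.x.dL.ty (tc L)) (p := F.s.L.ty (tc L))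
        ((chd (tc L) (O L)).sn a) (by rw [h.hs]; exact hpay hp1 _ L) (hO.hI L).2.1 true (e L)
        (gL _ (by
          unfold F3.gL
          refine List.mem_map.2 ⟨e L, hF.heL hL0, ?_⟩
          simp only [rAdd, rMul]) _ (by
          unfold F3.gL
          exact List.mem_singleton.2 rfl))
      rw [h.vvL hc hs ha, sg_true] at cL
      rw [hL0] at htL' hwL hpL
      rw [htL', hwL, hpL]
      exact cL
    · have hY := hO.YY0 (hF.hL' hL0)
      have hU := hO.UU0 (hF.hL' hL0)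
      rw [c3_zero hY hU]
      rw [hL0] at htL' hwL hpL
      rw [htL', hwL, hpL]
      have hk : 0 ≤ F.k0 S v := h.cs _ (by
        unfold F3.cs
        rw [hL0]
        simp only [if_true, List.mem_cons, List.mem_map]
        exact Or.inr (Or.inr (Or.inr (Or.inr (Or.inr ⟨v, hv, rfl⟩)))))
      unfold F3.k0 at hk
      rw [rNeg, rAdd, rAdd, rMul] at hk
      simp only [if_true]
      linarith
  -- `A`
  have gA := h.gr (hdom A) (tc A) (hF.hAd A hF.hA) (gA_m4 F S) hF.htA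
    (fun y hy => by
      unfold F3.g2
      exact List.mem_cons_of_mem _ (List.mem_append_left _ hy))
    (fun y hy => by
      unfold F3.g1
      exact List.mem_append_left _ hy)
    (fun t B hB => by
      unfold F3.gA at hB
      obtain ⟨b', _, rfl⟩ := List.mem_map.1 hB
      exact rZero)
  have cA := ch_le (V := (F.E.V.ty (tc A)).na) (c := F.cA S) hz
    (hW _ _ F.x.rG.A F.x.rQ.A F.x.rY.A _ _ _ _ _ _ _ _).1
    (hW _ _ F.x.rG.A F.x.rQ.A F.x.rY.A _ _ _ _ _ _ _ _).2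
    (F.x.cA * F.ka S) (F.x.dA.ty (tc A)) (p := F.s.A.ty (tc A))
    ((chd (tc A) (O A)).sn a) (by rw [h.hs]; exact hpay hp2 _ A) (hO.hI A).2.1 b (e A)
    (gA _ (by
      unfold F3.gA
      refine List.mem_map.2 ⟨e A, hF.heA, ?_⟩
      simp only [rMul]) _ (by
      unfold F3.gA
      exact List.mem_map.2 ⟨b, hF.hsA, rfl⟩))
  rw [h.vv] at cA
  -- the shares
  have hdt : ∀ (s : S4 Dec) (t : ℕ), (s.map Dec.val).ty t = (s.ty (m4 t)).val := fun s t => by
    rw [S4.map_ty, S4.ty_m4]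
  have hmL : m4 tL' ∈ S.tL := by
    rw [htL']
    cases hL0 : S.L0
    · exact hF.htL hL0
    · exact hF.htL' hL0
  obtain ⟨sh1, sh2⟩ := sh3_sum hsh hmL hF.htA hF.htB
  have xcL : F.x.cL = x.cL.val := by rw [h.hx]; rfl
  have xcA : F.x.cA = x.cA.val := by rw [h.hx]; rfl
  have xcB : F.x.cB = x.cB.val := by rw [h.hx]; rfl
  have xdL : F.x.dL.ty tL' = (x.dL.ty (m4 tL')).val := by rw [h.hx]; exact hdt _ _
  have xdA : F.x.dA.ty (tc A) = (x.dA.ty (m4 (tc A))).val := by rw [h.hx]; exact hdt _ _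
  have xdB : F.x.dB.ty (tc B) = (x.dB.ty (m4 (tc B))).val := by rw [h.hx]; exact hdt _ _
  unfold lcr ldl lq2
  dsimp only
  rw [eU2, ey2, exL, ← hwL]
  unfold pay3
  rw [← hpL]
  cases hM3 : S.kU.M3
  · -- no third child
    obtain ⟨hY, hU⟩ := hF.M3 hM3
    rw [hM3] at sh1 sh2
    simp only [Bool.false_eq_true, if_false, add_zero] at sh1 sh2 ⊢
    rw [c3_zero hY hU] at tot
    have q1 : F.x.cL * F.ka S + F.kL S v + F.x.cA * F.ka S = F.ka S + F.kL S v := by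
      rw [xcL, xcA]
      linear_combination F.ka S * sh1
    have q2 : 0 ≤ F.x.dL.ty tL' + F.x.dA.ty (tc A) := by
      rw [xdL, xdA]
      exact sh2
    have tot2 : (F.cL S v).ev (F.W S F.x.rG.L F.x.rQ.L F.x.rY.L) 1 (sg (e L))
        ((chd (tc L) (O L)).sn a) + (F.cA S).ev (F.W S F.x.rG.A F.x.rQ.A F.x.rY.A) (sg b)
        (sg (e A)) ((chd (tc A) (O A)).sn a) + 0 + F.ka S + F.kL S v ≤
        wL + VV tl dl d D a ((chd (tc A) (O A)).sn a) - (pL + (F.s.A.ty (tc A)).ev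
          ((chd (tc A) (O A)).sn a)) * D * (1 - D / (q0 - a)) := by linarith
    have tot3' := tot.trans tot2
    clear tot tot2 cL cA gA rw3 kU kG crn
    exact (add_le_add_left tot3' _).trans (le_of_eq (by ring))
  · have hBN := hF.hB hM3
    have gB := h.gr (hdom B) (tc B) (hF.hAd B hBN) (gB_m4 F S) (hF.htB hM3)
      (fun y hy => by
        unfold F3.g2
        exact List.mem_cons_of_mem _ (List.mem_append_right _ (List.mem_append_left _ hy)))
      (fun y hy => by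
        unfold F3.g1
        exact List.mem_append_right _ (List.mem_append_left _ hy))
      (fun t B hB => by
        unfold F3.gB at hB
        obtain ⟨b', _, rfl⟩ := List.mem_map.1 hB
        exact rZero)
    have cB := ch_le (V := (F.E.V.ty (tc B)).na) (c := F.cB S) hz
      (hW _ _ F.x.rG.B F.x.rQ.B F.x.rY.B _ _ _ _ _ _ _ _).1
      (hW _ _ F.x.rG.B F.x.rQ.B F.x.rY.B _ _ _ _ _ _ _ _).2
      (F.x.cB * F.ka S) (F.x.dB.ty (tc B)) (p := F.s.B.ty (tc B))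
      ((chd (tc B) (O B)).sn a) (by rw [h.hs]; exact hpay hp3 _ B) (hO.hI B).2.1 (!b) (e B)
      (gB _ (by
        unfold F3.gB
        refine List.mem_map.2 ⟨e B, hF.heB hM3, ?_⟩
        simp only [rMul]) _ (by
        unfold F3.gB
        exact List.mem_map.2 ⟨!b, hF.hsB hM3, rfl⟩))
    rw [h.vv] at cB
    rw [hM3] at sh1 sh2
    simp only [if_true] at sh1 sh2 ⊢
    have q1 : F.x.cL * F.ka S + F.kL S v + F.x.cA * F.ka S + F.x.cB * F.ka S =
        F.ka S + F.kL S v := by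
      rw [xcL, xcA, xcB]
      linear_combination F.ka S * sh1
    have q2 : 0 ≤ F.x.dL.ty tL' + F.x.dA.ty (tc A) + F.x.dB.ty (tc B) := by
      rw [xdL, xdA, xdB]
      exact sh2
    have tot2 : (F.cL S v).ev (F.W S F.x.rG.L F.x.rQ.L F.x.rY.L) 1 (sg (e L))
        ((chd (tc L) (O L)).sn a) + (F.cA S).ev (F.W S F.x.rG.A F.x.rQ.A F.x.rY.A) (sg b)
        (sg (e A)) ((chd (tc A) (O A)).sn a) + (F.cB S).ev (F.W S F.x.rG.B F.x.rQ.B F.x.rY.B)
        (sg (!b)) (sg (e B)) ((chd (tc B) (O B)).sn a) + F.ka S + F.kL S v ≤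
        wL + VV tl dl d D a ((chd (tc A) (O A)).sn a) + VV tl dl d D a ((chd (tc B) (O B)).sn a) -
        (pL + (F.s.A.ty (tc A)).ev ((chd (tc A) (O A)).sn a) + (F.s.B.ty (tc B)).ev
          ((chd (tc B) (O B)).sn a)) * D * (1 - D / (q0 - a)) := by linarith
    have tot3' := tot.trans tot2
    clear tot tot2 cL cA gA gB cB rw3 kU kG crn
    exact (add_le_add_left tot3' _).trans (le_of_eq (by ring))

/-! ### the lines of the rule -/

/-- the numbers of a line which do not depend on the forms for `L` -/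
def l3Of (C : LC) (k : Kn Dec) (i4 : Fin 4) (δ : G3) : LL Dec :=
  lineOf C k i4 ⟨Dec.zero, Dec.zero, Dec.zero⟩ δ false

/-- the numbers of a line for one form of the gain of `L`, `ε` is for the excess of its energy -/
def vOf (C : LC) (k : Kn Dec) (i4 : Fin 4) (g : G3) (ε : Bool) : LV Dec where
  la := if ε then Dec.add (C.l7 k i4).la (C.l7 k i4).KE else (C.l7 k i4).la
  g0 := Dec.mul (C.l7 k i4).ag g.g0
  g1 := Dec.mul (C.l7 k i4).ag g.g1
  g2 := Dec.mul (C.l7 k i4).ag g.g2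
  ke := if ε then (C.l7 k i4).KE else Dec.zero

/-- the numbers for all forms for `L` -/
def vsOf (o : Bool) (C : LC) (k : Kn Dec) (i4 : Fin 4) : List (LV Dec) :=
  if o then [vOf C k i4 (gamL o C k false) false, vOf C k i4 (gamL o C k false) true]
  else [vOf C k i4 (gamL o C k false) false, vOf C k i4 (gamL o C k false) true,
    vOf C k i4 (gamL o C k true) false, vOf C k i4 (gamL o C k true) true]

lemma vsOf_mem {o i : Bool} (h : o = true → i = false) (C : LC) (k : Kn Dec) (i4 : Fin 4)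
    (ε : Bool) : vOf C k i4 (gamL o C k i) ε ∈ vsOf o C k i4 := by
  unfold vsOf
  cases o
  · cases i <;> cases ε <;> simp
  · rw [h rfl]
    cases ε <;> simp

/-- all the lines of the rule -/
def Lines3 (tl : List TC) (dl : List (Seg (Kn Dec))) (S : F3S) (oL oR : Bool) (C : ℕ → LC)
    (P : ℕ → S3 Dec) : Prop :=
  ∀ (i4 : Fin 4) (j : Bool), (oR = true → j = false) →
    LineF3 tl dl S (fun k => l3Of (C k.ix) k i4 (gamR oR (C k.ix) j))
      (fun k => vsOf oL (C k.ix) k i4) (fun k => P k.ix)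

/-- the new state of a line -/
lemma l3pN_ev (F : F3 ℝ) (S : F3S) (s : Sn) : (F.pN S).ns.ev s =
    ((F.E.V.ty S.tn).na).ns.ev s - F.l.z * ((pdQ F.E S.tn).q5).ev s := by
  unfold F3.pN NA.sub NA.add NS.ev NA.ns Q5.ev QA.q5
  simp only [rAdd, rNeg, rMul]
  ring

/-- **three explicit children: the rule from its lines** -/
theorem f3_of (hc : covers tl dl = true) (hs : LOK tl dl sgnL)
    (hK : ∀ D, RD D → KOk (knAt dl d D) D) {kd : ℕ} {oL oR : Bool} {C : ℕ → LC}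
    {P : ℕ → S3 Dec} (hk : ∀ dc ∈ dl, lcOk kd oL oR (C dc.x.ix) dc = true)
    (hp : ∀ dc ∈ dl, s3Ok (P dc.x.ix) = true) (hL : Lines3 tl dl S oL oR C P)
    (hkd : KdOk kd (K - 1)) (hF : TriF S O N tc σ e b L A B) (D : ℝ) (hD : RD D) :
    LfL (VV tl dl d) (PP' dl d) (chiF dl d) O N tc σ e L S.tn D := by
  obtain ⟨hmem, _⟩ := pick_D (d := d) hc hD
  obtain ⟨kn, hkn⟩ : ∃ kn, kn = (pick dl d D).x := ⟨_, rfl⟩
  obtain ⟨c, hcc⟩ : ∃ c, c = C kn.ix := ⟨_, rfl⟩
  have hk' := hk _ hmem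
  have hp' := hp _ hmem
  have hkw : 0 ≤ (pick dl d D).w.val ∧ capOk oL c.tL kn.ru.r = true ∧
      capOk oR c.tR c.rR = true ∧ 0 ≤ kn.chi.val := by
    have h := hk'
    simp only [lcOk, Bool.and_eq_true] at h
    obtain ⟨q1, q2, q3, q4, q5, q6, q7, q8, q9, q10, q11, q12, q13, q14, q15, q16, q17, q18,
      q19⟩ := h
    rw [hcc, hkn]
    exact ⟨Dec.nn_iff q17, q13, q14, Dec.nn_iff q18⟩
  obtain ⟨hw, hcL, hcR, hchi⟩ := hkw
  have hDle := pick_le (d := d) hc hD hw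
  obtain ⟨P1, D1, σ0, hOk, hj, hth0⟩ := lcOk_sound hk' hkd hD.1 hDle (hK D hD)
  rw [← hkn, ← hcc] at hOk
  rw [← hkn, ← hcc] at hj hth0
  have hχ : chiF dl d D = kn.chi.val := by rw [hkn]; rfl
  have hom : 0 ≤ c.om.val := hOk.h5.hω0
  have hO := hF.hO
  obtain ⟨pay, hpay⟩ : ∃ pay, pay = pay3 ((P kn.ix).map Dec.val) S.L0 S.kU.M3 (tc L) (tc A) (tc B)
      ((chd (tc L) (O L)).sn 0) ((chd (tc A) (O A)).sn 0) ((chd (tc B) (O B)).sn 0) := ⟨_, rfl⟩
  have hpay0 : 0 ≤ pay := by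
    rw [hpay, hkn]
    exact pay3_nonneg hp' hO _ _ _ _ _
  have hs0 : 0 ≤ pay * D := mul_nonneg hpay0 hD.1
  refine TSM.lfE_of3 (c.lk kn P1 D1 σ0) (by rw [hχ]; exact hOk) (capL hcL) (capR hcR) hs0
    fun a ha haq hD0 γ0 γ1 γ2 δ0 δ1 δ2 ε hG hS' hγ hδ hε hh => ?_
  refine TSM.LK.Ln_of fun i4 => ?_
  obtain ⟨i, hi, hγ0, hγ1, hγ2⟩ := hγ
  obtain ⟨j, hjj, hδ0, hδ1, hδ2⟩ := hδ
  have hG1 : hG = 1 ∧ hS' = 0 := by
    rcases hh with ⟨h1, h2⟩ | ⟨h1, h2⟩
    · exact ⟨h1, h2⟩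
    · have h3 : (c.lk kn P1 D1 σ0).sR = 0 := rfl
      rw [h3] at h1 h2
      exact ⟨by linarith, h2⟩
  obtain ⟨rfl, rfl⟩ := hG1
  obtain ⟨εb, hεb⟩ : ∃ b : Bool, ε = if b then 1 else 0 := by
    rcases hε with h | h
    · exact ⟨false, by simp [h]⟩
    · exact ⟨true, by simp [h]⟩
  obtain ⟨F, x, thd, t0, hA⟩ := (hL i4 j hjj).at (d := d) hc ha
  have hl : F.l = (l3Of c kn i4 (gamR oR c j)).map Dec.val := by
    rw [hA.hl, hcc, hkn]
  have hvs : F.vs = (vsOf oL c kn i4).map (LV.map Dec.val) := by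
    rw [hA.hv, hcc, hkn]
  have hss : F.s = (P kn.ix).map Dec.val := by
    rw [hA.hs, hkn]
  have h7 := l7_val (C := c) (k := kn) (P := P1) (D1 := D1) (σ0 := σ0) hj hth0 i4
  have hal : 0 ≤ F.l.al := by
    rw [hl]
    show 0 ≤ (c.l7 kn i4).al.val
    have h1 : (c.l7 kn i4).al.val = ((c.lk kn P1 D1 σ0).toLK.lnL kn.chi.val i4).al := by
      rw [h7]
    rw [h1]
    fin_cases i4
    · exact hom
    · exact mul_nonneg (by linarith) hom
    · exact zero_le_one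
    · show 0 ≤ 1 + kn.chi.val
      linarith
  obtain ⟨v, hv⟩ : ∃ v, v = (vOf c kn i4 (gamL oL c kn i) εb).map Dec.val := ⟨_, rfl⟩
  have hvm : v ∈ F.vs := by
    rw [hvs, hv]
    exact List.mem_map.2 ⟨_, vsOf_mem hi c kn i4 εb, rfl⟩
  have hline := hA.line hc hs ha haq hF hal hp' hvm S.tn
  rw [l3pN_ev] at hline
  have hE := hA.ok hc hs ha
  have hkE : F.E.k = knAt dl d D := by rw [hA.hE]; exact enAt_k hc ha
  have hP1 : ((pdQ F.E S.tn).q5).ev ((chd S.tn (fam σ e O)).sn a) =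
      PP' dl d D a ((chd S.tn (fam σ e O)).sn a) := by
    have := pd_ev hE ((chd S.tn (fam σ e O)).sn a)
    rw [hkE] at this
    exact this
  rw [hA.vv, hP1, hss] at hline
  have hpe : pay3 ((P kn.ix).map Dec.val) S.L0 S.kU.M3 (tc L) (tc A) (tc B)
      ((chd (tc L) (O L)).sn a) ((chd (tc A) (O A)).sn a) ((chd (tc B) (O B)).sn a) = pay := by
    rw [hpay]
    rfl
  rw [hpe] at hline
  -- the sums over the children
  have hVL : Vi (VV tl dl d) N tc O L D a - F.l.zL * Vi (PP' dl d) N tc O L D a =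
      if S.L0 then 0 else VV tl dl d D a ((chd (tc L) (O L)).sn a) -
        F.l.zL * PP' dl d D a ((chd (tc L) (O L)).sn a) := by
    cases hL0 : S.L0
    · rw [TSM.Vi_mem _ tc O (hF.hL hL0) D a, TSM.Vi_mem _ tc O (hF.hL hL0) D a]
      rfl
    · rw [TSM.Vi_not _ tc O (hF.hL' hL0) D a, TSM.Vi_not _ tc O (hF.hL' hL0) D a]
      simp
  have hVR : ∑ i ∈ univ.erase L, Vi (VV tl dl d) N tc O i D a =
      VV tl dl d D a ((chd (tc A) (O A)).sn a) +
        (if S.kU.M3 then VV tl dl d D a ((chd (tc B) (O B)).sn a) else 0) := by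
    rw [hF.hI.rest, TSM.Vi_mem _ tc O hF.hA D a]
    cases hM : S.kU.M3
    · rw [TSM.Vi_not _ tc O (hF.hB' hM) D a]
      simp
    · rw [TSM.Vi_mem _ tc O (hF.hB hM) D a]
      simp
  rw [← hVL] at hline
  rw [hVR, hχ, h7]
  have g1 : F.l.al = (c.l7 kn i4).al.val := by rw [hl]; rfl
  have g2 : F.l.b = (c.l7 kn i4).b.val := by rw [hl]; rfl
  have g3 : F.l.z = (c.l7 kn i4).z.val := by rw [hl]; rfl
  have g4 : F.l.zL = (c.l7 kn i4).zL.val := by rw [hl]; rfl
  have g5 : F.l.MU = c.MU.val := by rw [hl]; rfl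
  have g6 : F.l.MY = c.MY.val := by rw [hl]; rfl
  have g7 : F.l.r0 = δ0 := by rw [hl, hδ0]; rfl
  have g8 : F.l.r1 = δ1 := by rw [hl, hδ1]; rfl
  have g9 : F.l.r2 = δ2 := by rw [hl, hδ2]; rfl
  have v1 : v.la = (c.l7 kn i4).la.val + (c.l7 kn i4).KE.val * ε := by
    rw [hv, hεb]
    unfold vOf LV.map
    cases εb
    · simp
    · simp [Dec.val_add]
  have v2 : v.g0 = (c.l7 kn i4).ag.val * γ0 := by
    rw [hv, hγ0]
    exact Dec.val_mul _ _
  have v3 : v.g1 = (c.l7 kn i4).ag.val * γ1 := by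
    rw [hv, hγ1]
    exact Dec.val_mul _ _
  have v4 : v.g2 = (c.l7 kn i4).ag.val * γ2 := by
    rw [hv, hγ2]
    exact Dec.val_mul _ _
  have v5 : v.ke = (c.l7 kn i4).KE.val * ε := by
    rw [hv, hεb]
    unfold vOf LV.map
    cases εb
    · simp [Dec.val_zero]
    · simp
  have m1 : (c.lk kn P1 D1 σ0).MU = c.MU.val := rfl
  have m2 : (c.lk kn P1 D1 σ0).MY = c.MY.val := rfl
  rw [g1, g2, g3, g4, g5, g6, g7, g8, g9, v1, v2, v3, v4, v5] at hline
  rw [m1, m2]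
  dsimp only
  linarith

end Pool.Agent.TSG
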