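import Pool.Agent.TSG.FamH

set_option autoImplicit false

/-!
# Families with an odd number of children, a trivial child is split off (MP_d27362_co)
-/

namespace Pool.Agent.TSG

open Finset
open Pool.Agent.TSC
open Pool.Agent.TSM (q0 th RD Reg Sn NS Q5 Chd Spl FamS FamT FamK chd vU vY aU aY c1 ExpF ExpE
  ItD fam OneE LossC LeftC RestC LK2 lcr ldl lq2)
open Pool.Agent.TSR (OBr sg_true sg_false)
open Pool.Agent.TLT (sg)

/-! ### the constants -/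

/-- the cap of the gain of the stem may be smaller -/
lemma oneE_mono {D D1 χ0 K r κ r' : ℝ} (h : OneE D D1 χ0 K r κ) (hD : 0 ≤ D) (h0 : 0 ≤ r')
    (h1 : r' ≤ r) : OneE D D1 χ0 K r' κ := by
  have h2 : r' * D ≤ r * D := mul_le_mul_of_nonneg_right h1 hD
  have h3 : 0 ≤ r' * D := mul_nonneg h0 hD
  have h4 := h.hκ0
  have h5 := h.hκ1
  have h6 := h.hκ
  have h7 := h.hr
  refine ⟨h.hD, h.hχ0, h.hχ01, h.hχD, h0, h2.trans h.hr, h2.trans h.hK, h.hκ0, h.hκ1,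
    h.hκ.trans ?_⟩
  obtain ⟨p, hp⟩ : ∃ p, p = r * D := ⟨_, rfl⟩
  obtain ⟨p', hp'⟩ : ∃ p', p' = r' * D := ⟨_, rfl⟩
  rw [← hp, ← hp'] at h2
  rw [← hp'] at h3 ⊢
  rw [← hp]
  have h8 : (1 - p) * (1 + κ * p) ≤ (1 - p') * (1 + κ * p') := by
    have e1 : (1 - p') * (1 + κ * p') - (1 - p) * (1 + κ * p) =
        (p - p') * ((1 - κ) + κ * (p + p')) := by ring
    have e2 : 0 ≤ (p - p') * ((1 - κ) + κ * (p + p')) :=
      mul_nonneg (by linarith) (add_nonneg (by linarith) (mul_nonneg h4 (by linarith)))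
    linarith
  have h9 := mul_le_mul_of_nonneg_left h8 (show 0 ≤ 4 * κ by linarith)
  linarith

/-- the constants of the rule which splits off a trivial child -/
structure KL where
  /-- factor of the square -/
  cq : Dec
  /-- factor in the exponent -/
  mu : Dec
  /-- the parameter of the sup bound -/
  l : Dec
  /-- an upper bound of `1 / l` -/
  il : Dec
  /-- factor of `t U'²` -/
  MU : Dec
  /-- factor of `(y' - ξ)²` -/
  MY : Dec
  /-- `1 / (2 τ)` -/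
  it : Dec
  /-- an upper bound of `τ / 2` -/
  h : Dec
  /-- the cap of the gain of the rest -/
  rR : Dec
  /-- the cap of the gain of the trivial child -/
  rp : Dec
  /-- see `LeftC` -/
  om : Dec
  /-- see `LeftC` -/
  nu : Dec
  /-- see `LeftC` -/
  vt : Dec
  /-- see `LeftC` -/
  B1 : Dec
  /-- see `LeftC` -/
  B2 : Dec
  /-- the payments -/
  s : S4 (PS Dec)

/-- the constant part of the gain of the rest; `g` is true for the gain `y' - ξ` -/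
def gL0 (xi : ℕ) (rR : Dec) (g : Bool) : Dec :=
  if g then Dec.neg (Dec.nsm xi Dec.one) else rR

/-- the factor of `y'` in the gain of the rest -/
def gL1 (g : Bool) : Dec := if g then Dec.one else Dec.zero

/-- the four lines -/
def ldT (xi : ℕ) (k : KL) (x : Kn Dec) (i : ℕ) (g : Bool) : LD Dec :=
  match i with
  | 0 => ⟨k.MU, k.MY, k.om, Dec.add (Dec.mul k.om k.it) (Dec.nsm 2 (Dec.mul k.B1 k.cq)), Dec.zero,
      Dec.sub (Dec.mul (Dec.mul k.om k.nu) k.h)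
        (Dec.nsm xi (Dec.mul (Dec.sub x.ru.w0 k.vt) k.rp)),
      Dec.nsm xi (Dec.add (Dec.mul (Dec.mul k.om k.nu) k.h) x.ru.K),
      gL0 xi k.rR g, gL1 g, Dec.zero⟩
  | 1 => ⟨k.MU, k.MY, Dec.mul (Dec.add Dec.one x.chi) k.om,
      Dec.mul (Dec.add Dec.one x.chi)
        (Dec.add (Dec.mul k.om k.it) (Dec.nsm 2 (Dec.mul k.B1 k.cq))), x.chi,
      Dec.sub (Dec.mul (Dec.add Dec.one x.chi) (Dec.mul (Dec.mul k.om k.nu) k.h))
        (Dec.nsm xi (Dec.sub (Dec.mul (Dec.sub x.ru.w0 k.vt) k.rp)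
          (Dec.mul x.chi (Dec.mul (Dec.add x.pd.kap k.vt) k.rp)))),
      Dec.nsm xi (Dec.add (Dec.mul (Dec.add Dec.one x.chi) (Dec.mul (Dec.mul k.om k.nu) k.h))
        x.ru.K),
      gL0 xi k.rR g, gL1 g, Dec.zero⟩
  | 2 => ⟨k.MU, k.MY, Dec.one, Dec.add k.it (Dec.nsm 2 (Dec.mul k.B2 k.cq)), Dec.zero,
      Dec.sub k.h (Dec.nsm xi (Dec.mul (Dec.add Dec.one x.ru.s) k.rp)),
      Dec.nsm xi (Dec.add k.h x.ru.K1), gL0 xi k.rR g, gL1 g, Dec.zero⟩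
  | _ => ⟨k.MU, k.MY, Dec.add Dec.one x.chi,
      Dec.mul (Dec.add Dec.one x.chi) (Dec.add k.it (Dec.nsm 2 (Dec.mul k.B2 k.cq))), x.chi,
      Dec.sub (Dec.mul (Dec.add Dec.one x.chi) k.h)
        (Dec.nsm xi (Dec.mul (Dec.add Dec.one x.chi) k.rp)),
      Dec.nsm xi (Dec.add (Dec.mul (Dec.add Dec.one x.chi) k.h) x.ru.K2),
      gL0 xi k.rR g, gL1 g, Dec.zero⟩

/-- the two lines for the leaf; `b` is true for the line with the pending cost -/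
def ldF (k : KL) (x : Kn Dec) (b g : Bool) : LD Dec :=
  if b then ⟨k.MU, k.MY, Dec.add Dec.one x.chi,
      Dec.mul (Dec.add Dec.one x.chi) (Dec.add k.it (Dec.nsm 4 k.cq)), x.chi,
      Dec.mul (Dec.add Dec.one x.chi) k.h, Dec.zero, gL0 0 k.rR g, gL1 g, Dec.zero⟩
  else ⟨k.MU, k.MY, Dec.one, Dec.add k.it (Dec.nsm 4 k.cq), Dec.zero, k.h, Dec.zero,
      gL0 0 k.rR g, gL1 g, Dec.zero⟩

/-- the test of the constants for the leaf -/
def lfOk (kd : ℕ) (k : KL) (dc : Seg (Kn Dec)) : Bool :=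
  exOk kd k.cq k.mu (Dec.mul k.rR (Dec.add dc.a dc.w)) &&
  (supOk k.mu k.l k.il k.MU k.MY (Dec.add dc.a dc.w) &&
  (Dec.nn k.rR && (Dec.ps k.it && (Dec.nn (Dec.sub (Dec.nsm 4 (Dec.mul k.it k.h)) Dec.one) &&
  (Dec.nn dc.a && (Dec.nn dc.w && psOk k.s))))))

/-- the additional test of the constants for the path -/
def ltOk (k : KL) (dc : Seg (Kn Dec)) : Bool :=
  Dec.nn k.rp && (Dec.nn (Dec.sub Dec.one k.rp) && (Dec.nn (Dec.sub dc.x.ru.r k.rp) &&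
  (Dec.nn k.om && (Dec.nn k.nu &&
  (Dec.nn (Dec.sub (Dec.nsm 4 (Dec.sub k.nu Dec.one)) (Dec.mul (Dec.mul k.rp (Dec.add dc.a dc.w))
    (Dec.mul k.rp (Dec.add dc.a dc.w)))) &&
  (Dec.nn (Dec.sub (Dec.mul k.om (Dec.sub Dec.one (Dec.mul (Dec.sub Dec.one
    (Dec.mul (Dec.sub Dec.one dc.x.ru.w0) (Dec.sub Dec.one dc.x.ru.w0)))
    (Dec.mul k.rp (Dec.add dc.a dc.w))))) Dec.one) &&
  (Dec.nn (Dec.sub (Dec.nsm 4 (Dec.mul k.it k.vt)) (Dec.mul (Dec.mul k.om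
    (Dec.mul (Dec.mul (Dec.sub Dec.one dc.x.ru.w0) (Dec.sub Dec.one dc.x.ru.w0))
    (Dec.mul (Dec.sub Dec.one dc.x.ru.w0) (Dec.sub Dec.one dc.x.ru.w0))))
    (Dec.mul k.rp (Dec.add dc.a dc.w)))) &&
  (Dec.nn (Dec.sub k.B1 (Dec.nsm 2 k.om)) &&
  (Dec.nn (Dec.sub k.B1 (Dec.add (Dec.nsm 2 Dec.one) (Dec.mul k.rp (Dec.add dc.a dc.w)))) &&
  Dec.nn (Dec.sub k.B2 (Dec.add (Dec.nsm 2 Dec.one)
    (Dec.mul k.rp (Dec.add dc.a dc.w)))))))))))))

/-! ### the four lines -/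

/-- the lines from inequalities at a point -/
lemma ln_of (C : LK2) {ξ h it χ a u y V' c' B : ℝ} {U2 y2 : ℝ → ℝ} (hU : U2 a = u)
    (hy : y2 a = y - ξ) (hξ : ξ = 0 ∨ ξ = 1) (ha : 0 ≤ a) (hχ : 0 ≤ χ)
    (hit : 1 / (2 * C.τ) = it) (hh : C.τ / 2 ≤ h) (hων : 0 ≤ C.ω * C.ν)
    (hr : min ξ C.r = ξ * C.r)
    (L0 : V' + (C.ω * it + 2 * (C.B1 * C.c)) * (a ^ 2 * u ^ 2 + a * (y - ξ) ^ 2) +
      C.ω * (-(a * u) + a * ξ * (y - ξ)) +
      (C.ω * C.ν * h - ξ * ((1 - C.χ0 - C.ϑ) * C.r)) + ξ * (C.ω * C.ν * h + C.K) * a ≤ B)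
    (L1 : V' + (1 + χ) * (C.ω * it + 2 * (C.B1 * C.c)) *
        (a ^ 2 * u ^ 2 + a * (y - ξ) ^ 2) +
      (1 + χ) * C.ω * (-(a * u) + a * ξ * (y - ξ)) +
      ((1 + χ) * (C.ω * C.ν * h) - ξ * ((1 - C.χ0 - C.ϑ) * C.r - χ * ((C.κ + C.ϑ) * C.r))) +
      ξ * ((1 + χ) * (C.ω * C.ν * h) + C.K) * a - χ * c' ≤ B)
    (L2 : V' + (it + 2 * (C.B2 * C.c)) * (a ^ 2 * u ^ 2 + a * (y - ξ) ^ 2) +
      (-(a * u) + a * ξ * (y - ξ)) +
      (h - ξ * ((1 + C.s) * C.r)) + ξ * (h + C.K1) * a ≤ B)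
    (L3 : V' + (1 + χ) * (it + 2 * (C.B2 * C.c)) * (a ^ 2 * u ^ 2 + a * (y - ξ) ^ 2) +
      (1 + χ) * (-(a * u) + a * ξ * (y - ξ)) +
      ((1 + χ) * h - ξ * ((1 + χ) * C.r)) + ξ * ((1 + χ) * h + C.K2) * a - χ * c' ≤ B) :
    C.Ln χ (fun _ => ξ) (fun _ => 0) U2 y2 (fun _ => 0) (fun _ => 0) B (min ξ C.r)
      (max 0 (ldl (fun _ => ξ) (fun _ => 0) a - 1)) V' c' a := by
  have hξ2 : ξ ^ 2 = ξ := by rcases hξ with h | h <;> rw [h] <;> norm_num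
  have hξ0 : 0 ≤ ξ := by rcases hξ with h | h <;> rw [h] <;> norm_num
  have hmax : max 0 (ldl (fun _ => ξ) (fun _ => 0) a - 1) = a * ξ := by
    unfold ldl
    have : 0 ≤ a * ξ := mul_nonneg ha hξ0
    rw [hξ2, max_eq_right (by linarith)]
    ring
  have hp : 0 ≤ 1 + a * ξ := by
    have : 0 ≤ a * ξ := mul_nonneg ha hξ0
    linarith
  have m1 : C.ω * C.ν * (C.τ / 2) * (1 + a * ξ) ≤ C.ω * C.ν * h * (1 + a * ξ) :=
    mul_le_mul_of_nonneg_right (mul_le_mul_of_nonneg_left hh hων) hp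
  have m2 : C.τ / 2 * (1 + a * ξ) ≤ h * (1 + a * ξ) := mul_le_mul_of_nonneg_right hh hp
  have m3 := mul_le_mul_of_nonneg_left m1 hχ
  have m4 := mul_le_mul_of_nonneg_left m2 hχ
  rw [hmax, hr]
  unfold TSM.LK.Ln TSM.LK.Q1 TSM.LK.Q2 lcr ldl lq2
  dsimp only
  rw [hU, hy, hξ2, hit]
  refine ⟨?_, ?_, ?_, ?_⟩
  · linarith
  · linarith
  · linarith
  · linarith

/-! ### the constants as real numbers -/

variable {tl : List TC} {dl dl' : List (Seg (Kn Dec))} {d : Seg (Kn Dec)}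
  {D a : ℝ} {S : FS}

/-- the real constants of the rule -/
noncomputable def ckL (k : KL) (x : Kn Dec) (D1 σ0 P : ℝ) : LK2 where
  D1 := D1
  χ0 := 1 - x.ru.w0.val
  K := x.ru.K.val
  r := k.rp.val
  κ := x.pd.kap.val
  σ0 := σ0
  s := x.ru.s.val
  K1 := x.ru.K1.val
  K2 := x.ru.K2.val
  τ := 1 / (2 * k.it.val)
  ω := k.om.val
  ϑ := k.vt.val
  ν := k.nu.val
  B1 := k.B1.val
  B2 := k.B2.val
  P := P
  c := k.cq.val
  μ := k.mu.val
  η := 1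
  sR := 0
  N := fun ρ => Real.exp (-ρ)
  l := k.l.val
  ψ := 0
  rR := k.rR.val
  MU := k.MU.val
  MY := k.MY.val

/-- the conditions on the constants, without `LeftC` -/
lemma ckL_ok {k : KL} {dc : Seg (Kn Dec)} {kd kk : ℕ} (hK : KdOk kd kk)
    (h : lfOk kd k dc = true) (hD0 : 0 ≤ D) (hD1 : D ≤ (Dec.add dc.a dc.w).val)
    (hk : KOk (dc.x.map Dec.val) D) (hrp0 : 0 ≤ k.rp.val) (hrp : k.rp.val ≤ dc.x.ru.r.val)
    (hL : LeftC (k.rp.val * D) (1 - dc.x.ru.w0.val) (1 / (2 * k.it.val)) k.om.val k.vt.val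
      k.nu.val k.B1.val k.B2.val) :
    ∃ D1 σ0 P, (ckL k dc.x D1 σ0 P).Ok dc.x.chi.val D kk := by
  obtain ⟨D1, σ0, h1, h2, h3⟩ := hk.un
  simp only [lfOk, Bool.and_eq_true] at h
  obtain ⟨q1, q2, q3, q4, q5, q6, q7, q8⟩ := h
  obtain ⟨s1, s2, s3⟩ := supOk_sound q2 hD0 hD1
  have hE := exOk_sound q1 hK
  have e3 := Dec.nn_iff q3
  refine ⟨D1, σ0, (Dec.mul k.rR (Dec.add dc.a dc.w)).val, oneE_mono h1 hD0 hrp0 hrp, h2, h3,
    hk.hs, hL, hE.rest, hk.chi0, s1, s2, s3, ?_, zero_le_one⟩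
  show k.rR.val * D ≤ (Dec.mul k.rR (Dec.add dc.a dc.w)).val
  rw [Dec.val_mul]
  exact mul_le_mul_of_nonneg_left hD1 e3

/-- the conditions for the trivial child which is a leaf -/
lemma leftC_zero {τ : ℝ} (hτ : 0 < τ) (χ0 : ℝ) : LeftC (0 * D) χ0 τ 1 0 1 2 2 := by
  refine ⟨hτ, zero_le_one, ?_, ?_, ?_, ?_, ?_, ?_⟩ <;> norm_num

/-- the conditions for the path -/
lemma ltOk_sound {k : KL} {dc : Seg (Kn Dec)} (h : ltOk k dc = true) (hit : 0 < k.it.val)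
    (hD0 : 0 ≤ D) (hD1 : D ≤ (Dec.add dc.a dc.w).val) (h0 : 0 < 1 - dc.x.ru.w0.val)
    (h1 : 1 - dc.x.ru.w0.val ≤ 1) :
    0 ≤ k.rp.val ∧ k.rp.val ≤ 1 ∧ k.rp.val ≤ dc.x.ru.r.val ∧ 0 ≤ k.om.val ∧ 0 ≤ k.nu.val ∧
    LeftC (k.rp.val * D) (1 - dc.x.ru.w0.val) (1 / (2 * k.it.val)) k.om.val k.vt.val
      k.nu.val k.B1.val k.B2.val := by
  simp only [ltOk, Bool.and_eq_true] at h
  obtain ⟨k1, k2, k3, k4, k5, k6, k7, k8, k9, k10, k11⟩ := h
  have e1 := Dec.nn_iff k1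
  have e2 := Dec.nn_iff k2
  have e3 := Dec.nn_iff k3
  have e4 := Dec.nn_iff k4
  have e5 := Dec.nn_iff k5
  have e6 := Dec.nn_iff k6
  have e7 := Dec.nn_iff k7
  have e8 := Dec.nn_iff k8
  have e9 := Dec.nn_iff k9
  have e10 := Dec.nn_iff k10
  have e11 := Dec.nn_iff k11
  rw [Dec.val_add] at hD1
  simp only [Dec.val_sub, Dec.val_mul, Dec.val_add, Dec.val_nsm, Dec.val_one,
    Nat.cast_ofNat] at e2 e3 e6 e7 e8 e9 e10 e11
  have hP : k.rp.val * D ≤ k.rp.val * (dc.a.val + dc.w.val) :=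
    mul_le_mul_of_nonneg_left hD1 e1
  have hP0 : 0 ≤ k.rp.val * D := mul_nonneg e1 hD0
  refine ⟨e1, by linarith, by linarith, e4, e5, LeftC.mono (P := k.rp.val *
    (dc.a.val + dc.w.val)) ⟨by positivity, e4, ?_, ?_, ?_, by linarith, by linarith,
      by linarith⟩ hP0 hP h0.le h1⟩
  · nlinarith
  · nlinarith
  · have e12 : k.om.val * (1 / (2 * k.it.val)) * (1 - dc.x.ru.w0.val) ^ 4 *
        (k.rp.val * (dc.a.val + dc.w.val)) / 2 =
        k.om.val * (1 - dc.x.ru.w0.val) ^ 4 * (k.rp.val * (dc.a.val + dc.w.val)) /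
          (4 * k.it.val) := by
      field_simp
      ring
    rw [e12, div_le_iff₀ (by positivity)]
    nlinarith

/-! ### from the lines to the rule -/

variable {K : ℕ} {O : Fin K → OBr} {N : Finset (Fin K)} {σ e ρ : Fin K → Bool}
  {tc : Fin K → ℕ} {lf : Kn Dec → LD Dec} {sf : ℕ → S4 (PS Dec)} {F : FE ℝ} {x : FX Dec}

/-- one line in terms of the moments -/
lemma LAt.mom (h : LAt tl dl d S lf sf D a F x) (hc : covers tl dl = true)
    (hs : LOK tl dl sgnL) (ha : Reg D a) (haq : a < q0) (hF : FH S O N tc σ e ρ)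
    (hxi : S.xi ≤ 1) (hpay : ∀ ty, (((sf (pick dl d D).x.ix).map (PS.map Dec.val)).ty ty).Ok) :
    VV tl dl d D a ((chd S.tn (fam σ e O)).sn a) +
      F.l.MU * (a * ((chd S.tn (fam σ e O)).sn a).u ^ 2) +
      F.l.MY * (((chd S.tn (fam σ e O)).sn a).y - S.xi) ^ 2 +
      F.l.b * (a ^ 2 * ((chd S.tn (fam σ e O)).sn a).u ^ 2 +
        a * (((chd S.tn (fam σ e O)).sn a).y - S.xi) ^ 2) +
      F.l.al * (-(a * ((chd S.tn (fam σ e O)).sn a).u) +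
        a * S.xi * (((chd S.tn (fam σ e O)).sn a).y - S.xi)) +
      (F.l.k0 + F.l.k1 * a) - (F.l.g0 + F.l.g1 * ((chd S.tn (fam σ e O)).sn a).y) -
      F.l.z * PP' dl d D a ((chd S.tn (fam σ e O)).sn a) +
      (∑ i ∈ N, (((sf (pick dl d D).x.ix).map (PS.map Dec.val)).ty (tc i)).pv (O i) * D) *
        (1 - D / (q0 - a)) ≤
      ∑ i, TSM.Vi (VV tl dl d) N tc O i D a -
        F.l.sr * ∑ i, TSM.Vi (PP' dl d) N tc O i D a := by
  have h1 := h.line hc hs ha haq hF hpay S.tn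
  have hE := h.ok hc hs ha
  have h7 : F.E.k = knAt dl d D := by rw [h.hE]; exact enAt_k hc ha
  rw [pN_ev2 F S hE hxi _ rfl, h7] at h1
  have e1 : (F.E.V.ty S.tn).ev ((chd S.tn (fam σ e O)).sn a) =
      VV tl dl d D a ((chd S.tn (fam σ e O)).sn a) := by rw [h.hE]; rfl
  rw [e1] at h1
  exact h1

/-- the gain of the rest -/
lemma gL_val {xi : ℕ} {rR : Dec} {y G : ℝ} (h : G = y - xi ∨ G = rR.val) :
    ∃ g, (gL0 xi rR g).val + (gL1 g).val * y = G := by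
  rcases h with h | h
  · refine ⟨true, ?_⟩
    rw [h]
    simp only [gL0, gL1, if_true, Dec.val_neg, Dec.val_nsm, Dec.val_one]
    ring
  · refine ⟨false, ?_⟩
    rw [h]
    simp only [gL0, gL1, Bool.false_eq_true, if_false, Dec.val_zero]
    ring

/-- **the rule which splits off a trivial child**, general form -/
theorem left_at (hc : covers tl dl = true) (hs : LOK tl dl sgnL) (hK : KOk (knAt dl d D) D)
    (hD : RD D) (hm : pick dl d D ∈ dl') {kd : ℕ} (hkd : KdOk kd (K - 1)) (k : ℕ → KL)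
    (hk : ∀ dc ∈ dl', lfOk kd (k dc.x.ix) dc = true)
    (hk2 : ∀ dc ∈ dl', ltOk (k dc.x.ix) dc = true) (hxi : S.xi ≤ 1)
    (hL : ∀ i < 4, ∀ g, LineOK tl dl' S (fun x => ldT S.xi (k x.ix) x i g)
      (fun ix => (k ix).s)) (hF : FH S O N tc σ e ρ) :
    TSM.LfT (VV tl dl d) (PP' dl d) (chiF dl d) O N tc σ e S.xi S.tn D := by
  obtain ⟨kk, hkk⟩ : ∃ kk, kk = k (pick dl d D).x.ix := ⟨_, rfl⟩
  have hk1 := hk _ hm
  have hk3 := hk2 _ hm
  rw [← hkk] at hk1 hk3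
  have hk1' := hk1
  simp only [lfOk, Bool.and_eq_true] at hk1'
  obtain ⟨_, _, _, q4, q5, _, q8, q9⟩ := hk1'
  have hDle := pick_le (d := d) hc hD (Dec.nn_iff q8)
  have hit := Dec.ps_iff q4
  have e5 := Dec.nn_iff q5
  rw [Dec.val_sub, Dec.val_nsm, Dec.val_mul, Dec.val_one] at e5
  push_cast at e5
  obtain ⟨_, _, hun, _, _⟩ := hK.un
  obtain ⟨r1, r2, r3, r4, r5, r6⟩ := ltOk_sound hk3 hit hD.1 hDle hun.hχ0 hun.hχ01
  obtain ⟨D1, σ0, P, hC⟩ := ckL_ok hkd hk1 hD.1 hDle hK r1 r3 r6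
  have hpay : ∀ ty, (((k (pick dl d D).x.ix).s.map (PS.map Dec.val)).ty ty).Ok := by
    rw [← hkk]
    exact psOk_sound q9
  have hχ : chiF dl d D = (pick dl d D).x.chi.val := rfl
  have hξ : (S.xi : ℝ) = 0 ∨ (S.xi : ℝ) = 1 := by
    interval_cases S.xi <;> norm_num
  unfold TSM.LfT
  refine TSM.lfE_of2 (ckL kk (pick dl d D).x D1 σ0 P) (by rw [hχ]; exact hC)
    (s := ∑ i ∈ N, (((k (pick dl d D).x.ix).s.map (PS.map Dec.val)).ty (tc i)).pv (O i) * D)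
    (sum_nonneg fun i _ => mul_nonneg ((hpay _).pv (hF.hS.hO.hI i)) hD.1)
    fun a ha haq hD0 G hG hS' h1 h2 => ?_
  have hGS : hG = 1 ∧ hS' = 0 := by
    rcases h2 with ⟨h3, h4⟩ | ⟨h3, h4⟩
    · exact ⟨h3, h4⟩
    · refine ⟨?_, h4⟩
      rw [h3]
      show (1 : ℝ) + 0 = 1
      norm_num
  rw [hGS.1, hGS.2]
  obtain ⟨s', hs'⟩ : ∃ s', s' = (chd S.tn (fam σ e O)).sn a := ⟨_, rfl⟩
  have ey : s'.y = (TSM.YY (fam σ e O)).eval a := by rw [hs']; rfl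
  have eu : s'.u = (TSM.UU (fam σ e O)).eval a := by rw [hs']; rfl
  obtain ⟨g, hg⟩ := gL_val (xi := S.xi) (rR := kk.rR) (y := s'.y) (G := G) (by
    rw [ey]; exact h1)
  have key : ∀ i < 4, ∀ l : LD Dec, l = ldT S.xi kk (pick dl d D).x i g →
      VV tl dl d D a s' + l.MU.val * (a * s'.u ^ 2) + l.MY.val * (s'.y - S.xi) ^ 2 +
      l.b.val * (a ^ 2 * s'.u ^ 2 + a * (s'.y - S.xi) ^ 2) +
      l.al.val * (-(a * s'.u) + a * S.xi * (s'.y - S.xi)) +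
      (l.k0.val + l.k1.val * a) - (l.g0.val + l.g1.val * s'.y) -
      l.z.val * PP' dl d D a s' +
      (∑ i ∈ N, (((k (pick dl d D).x.ix).s.map (PS.map Dec.val)).ty (tc i)).pv (O i) * D) *
        (1 - D / (q0 - a)) ≤
      ∑ i, TSM.Vi (VV tl dl d) N tc O i D a -
        l.sr.val * ∑ i, TSM.Vi (PP' dl d) N tc O i D a := by
    intro i hi l hl
    obtain ⟨F, x, hLA⟩ := (hL i hi g).at (d := d) hc ha hm
    have h3 := hLA.mom hc hs ha haq hF hxi hpay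
    have h4 : F.l = l.map Dec.val := by rw [hLA.hl, hl, hkk]
    rw [h4, ← hs'] at h3
    exact h3
  have k0 := key 0 (by norm_num) _ rfl
  have k1 := key 1 (by norm_num) _ rfl
  have k2 := key 2 (by norm_num) _ rfl
  have k3 := key 3 (by norm_num) _ rfl
  simp only [ldT, Dec.val_sub, Dec.val_mul, Dec.val_add, Dec.val_nsm, Dec.val_one,
    Dec.val_zero, Nat.cast_ofNat, hg] at k0 k1 k2 k3
  refine ln_of _ (ξ := S.xi) (h := kk.h.val) (it := kk.it.val) (u := s'.u) (y := s'.y) eu.symm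
    (by rw [ey]) hξ ha.2.2.1 (by rw [hχ]; exact hK.chi0) ?_ ?_ (mul_nonneg r4 r5) ?_ ?_ ?_ ?_ ?_
  · show 1 / (2 * (1 / (2 * kk.it.val))) = kk.it.val
    field_simp
  · show 1 / (2 * kk.it.val) / 2 ≤ kk.h.val
    rw [div_div, div_le_iff₀ (by positivity)]
    linarith
  · show min (S.xi : ℝ) kk.rp.val = S.xi * kk.rp.val
    rcases hξ with h | h <;> rw [h]
    · rw [min_eq_left r1, zero_mul]
    · rw [min_eq_right r2, one_mul]
  all_goals
    simp only [hχ, ckL, ← ey, ← eu, ← hs']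
    linarith

/-- the constants for the leaf -/
def kLeaf (k : KL) : KL :=
  { k with rp := Dec.zero, om := Dec.one, nu := Dec.one, vt := Dec.zero,
           B1 := Dec.nsm 2 Dec.one, B2 := Dec.nsm 2 Dec.one }

/-- **the rule which splits off a leaf** -/
theorem leaf_at (hc : covers tl dl = true) (hs : LOK tl dl sgnL) (hK : KOk (knAt dl d D) D)
    (hD : RD D) (hm : pick dl d D ∈ dl') {kd : ℕ} (hkd : KdOk kd (K - 1)) (k : ℕ → KL)
    (hk : ∀ dc ∈ dl', lfOk kd (k dc.x.ix) dc = true) (hxi : S.xi = 0)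
    (hL : ∀ b g, LineOK tl dl' S (fun x => ldF (k x.ix) x b g)
      (fun ix => (k ix).s)) (hF : FH S O N tc σ e ρ) :
    TSM.LfT (VV tl dl d) (PP' dl d) (chiF dl d) O N tc σ e 0 S.tn D := by
  obtain ⟨kk, hkk⟩ : ∃ kk, kk = k (pick dl d D).x.ix := ⟨_, rfl⟩
  have hk1 := hk _ hm
  rw [← hkk] at hk1
  have hk1' := hk1
  simp only [lfOk, Bool.and_eq_true] at hk1'
  obtain ⟨_, _, _, q4, q5, _, q8, q9⟩ := hk1'
  have hDle := pick_le (d := d) hc hD (Dec.nn_iff q8)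
  have hit := Dec.ps_iff q4
  have e5 := Dec.nn_iff q5
  rw [Dec.val_sub, Dec.val_nsm, Dec.val_mul, Dec.val_one] at e5
  push_cast at e5
  obtain ⟨_, _, hun, _, _⟩ := hK.un
  have v2 : (Dec.nsm 2 Dec.one).val = 2 := by rw [Dec.val_nsm, Dec.val_one]; norm_num
  obtain ⟨D1, σ0, P, hC⟩ := ckL_ok (k := kLeaf kk) hkd hk1 hD.1 hDle hK
    (by show 0 ≤ Dec.zero.val; rw [Dec.val_zero])
    (by show Dec.zero.val ≤ _; rw [Dec.val_zero]; exact hun.hr0)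
    (by
      show LeftC (Dec.zero.val * D) _ (1 / (2 * kk.it.val)) Dec.one.val Dec.zero.val Dec.one.val
        (Dec.nsm 2 Dec.one).val (Dec.nsm 2 Dec.one).val
      rw [v2, Dec.val_zero, Dec.val_one]
      exact leftC_zero (by positivity) _)
  have hpay : ∀ ty, (((k (pick dl d D).x.ix).s.map (PS.map Dec.val)).ty ty).Ok := by
    rw [← hkk]
    exact psOk_sound q9
  have hχ : chiF dl d D = (pick dl d D).x.chi.val := rfl
  unfold TSM.LfT
  refine TSM.lfE_of2 (ckL (kLeaf kk) (pick dl d D).x D1 σ0 P) (by rw [hχ]; exact hC)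
    (s := ∑ i ∈ N, (((k (pick dl d D).x.ix).s.map (PS.map Dec.val)).ty (tc i)).pv (O i) * D)
    (sum_nonneg fun i _ => mul_nonneg ((hpay _).pv (hF.hS.hO.hI i)) hD.1)
    fun a ha haq hD0 G hG hS' h1 h2 => ?_
  have hGS : hG = 1 ∧ hS' = 0 := by
    rcases h2 with ⟨h3, h4⟩ | ⟨h3, h4⟩
    · exact ⟨h3, h4⟩
    · refine ⟨?_, h4⟩
      rw [h3]
      show (1 : ℝ) + 0 = 1
      norm_num
  rw [hGS.1, hGS.2]
  obtain ⟨s', hs'⟩ : ∃ s', s' = (chd S.tn (fam σ e O)).sn a := ⟨_, rfl⟩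
  have ey : s'.y = (TSM.YY (fam σ e O)).eval a := by rw [hs']; rfl
  have eu : s'.u = (TSM.UU (fam σ e O)).eval a := by rw [hs']; rfl
  obtain ⟨g, hg⟩ := gL_val (xi := 0) (rR := kk.rR) (y := s'.y) (G := G) (by
    rw [ey, Nat.cast_zero]; exact h1)
  have key : ∀ b, ∀ l : LD Dec, l = ldF kk (pick dl d D).x b g →
      VV tl dl d D a s' + l.MU.val * (a * s'.u ^ 2) + l.MY.val * (s'.y - 0) ^ 2 +
      l.b.val * (a ^ 2 * s'.u ^ 2 + a * (s'.y - 0) ^ 2) +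
      l.al.val * (-(a * s'.u) + a * 0 * (s'.y - 0)) +
      (l.k0.val + l.k1.val * a) - (l.g0.val + l.g1.val * s'.y) -
      l.z.val * PP' dl d D a s' +
      (∑ i ∈ N, (((k (pick dl d D).x.ix).s.map (PS.map Dec.val)).ty (tc i)).pv (O i) * D) *
        (1 - D / (q0 - a)) ≤
      ∑ i, TSM.Vi (VV tl dl d) N tc O i D a -
        l.sr.val * ∑ i, TSM.Vi (PP' dl d) N tc O i D a := by
    intro b l hl
    obtain ⟨F, x, hLA⟩ := (hL b g).at (d := d) hc ha hm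
    have h3 := hLA.mom hc hs ha haq hF (by rw [hxi]; exact zero_le_one) hpay
    have h4 : F.l = l.map Dec.val := by rw [hLA.hl, hl, hkk]
    rw [h4, ← hs', hxi, Nat.cast_zero] at h3
    exact h3
  have k0 := key false _ rfl
  have k1 := key true _ rfl
  have v4 : ∀ z : Dec, (Dec.nsm 4 z).val = 4 * z.val := fun z => by rw [Dec.val_nsm]; norm_num
  simp only [ldF, Bool.false_eq_true, if_false, if_true, Dec.val_mul, Dec.val_add, v4,
    Dec.val_one, Dec.val_zero, hg] at k0 k1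
  refine ln_of _ (ξ := 0) (h := kk.h.val) (it := kk.it.val) (u := s'.u) (y := s'.y) eu.symm
    (by rw [ey]) (Or.inl rfl) ha.2.2.1 (by rw [hχ]; exact hK.chi0) ?_ ?_ ?_ ?_ ?_ ?_ ?_ ?_
  · show 1 / (2 * (1 / (2 * kk.it.val))) = kk.it.val
    field_simp
  · show 1 / (2 * kk.it.val) / 2 ≤ kk.h.val
    rw [div_div, div_le_iff₀ (by positivity)]
    linarith
  · show 0 ≤ Dec.one.val * Dec.one.val
    rw [Dec.val_one]
    norm_num
  · show min (0 : ℝ) Dec.zero.val = 0 * Dec.zero.val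
    rw [Dec.val_zero]
    simp
  all_goals
    simp only [hχ, ckL, kLeaf, ← ey, ← eu, ← hs', v2, Dec.val_one, Dec.val_zero]
    linarith

end Pool.Agent.TSG
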