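import Pool.Agent.TSG.F3E
import Pool.Agent.TSG.FamO

set_option autoImplicit false

/-!
# Three explicit children, the child which is split off is a leaf (MP_d27362_co)

Two lines instead of four, without the constants of the gain of that child.
-/

namespace Pool.Agent.TSG

open Finset
open Pool.Agent.TSC
open Pool.Agent.TSM (q0 th RD Reg Sn NS CT Q5 chd vU vY aU aY aX XX YY UU gY2 Chd LK2 LK LnL
  Caps LfL Vi fam gU T3 I3 lcr ldl lq2 Cre OneE LossC LeftC)
open Pool.Agent.TSR (OBr sg_true sg_false)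
open Pool.Agent.TLT (sg)
open Pool.Agent.TDN (dn dn_nonneg)
open Dec (nn)

variable {S : F3S} {tl : List TC} {dl : List (Seg (Kn Dec))} {d : Seg (Kn Dec)}
  {lf : Kn Dec → LL Dec} {vf : Kn Dec → List (LV Dec)} {sf : Kn Dec → S3 Dec} {D a : ℝ}
  {F : F3 ℝ} {x : F3X} {thd t0 : Dec} {K : ℕ} {O : Fin K → OBr} {N : Finset (Fin K)}
  {tc : Fin K → ℕ} {σ e : Fin K → Bool} {b : Bool} {L A B : Fin K}

/-- the test of the constants when a leaf is split off -/
def lcOkF (kd : ℕ) (oR : Bool) (C : LC) (dc : Seg (Kn Dec)) : Bool :=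
  exOk kd C.c C.mu (Dec.mul C.rR (Dec.add dc.a dc.w)) &&
  (supOk C.mu C.l C.il C.MU C.MY (Dec.add dc.a dc.w) &&
  (Dec.ps C.jt && (Dec.nn (Dec.sub (Dec.nsm 4 (Dec.mul C.th C.jt)) Dec.one) &&
  (Dec.nn (Dec.sub C.B2 (Dec.nsm 2 Dec.one)) && (capOk oR C.tR C.rR &&
  (Dec.nn C.rR && (Dec.nn dc.w && Dec.nn dc.x.chi)))))))

/-- the index of the line -/
def i4F (b : Bool) : Fin 4 := if b then 3 else 2

/-- the numbers of a line for the leaf -/
def vF (C : LC) (k : Kn Dec) (i4 : Fin 4) : LV Dec :=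
  ⟨(C.l7 k i4).la, Dec.zero, Dec.zero, Dec.zero, Dec.zero⟩

/-- the two lines of the rule when a leaf is split off -/
def Lines3F (tl : List TC) (dl : List (Seg (Kn Dec))) (S : F3S) (oR : Bool) (C : ℕ → LC)
    (P : ℕ → S3 Dec) : Prop :=
  ∀ b j : Bool, (oR = true → j = false) →
    LineF3 tl dl S (fun k => l3Of (C k.ix) k (i4F b) (gamR oR (C k.ix) j))
      (fun k => [vF (C k.ix) k (i4F b)]) (fun k => P k.ix)

/-- the constants of the rule for a leaf -/
noncomputable def LC.lkF (C : LC) (k : Kn Dec) (P D1 σ0 : ℝ) : LK2 :=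
  { C.lk k P D1 σ0 with r := 0, τ := 1 / (2 * C.jt.val), ω := 1, ϑ := 0, ν := 1,
                        B1 := C.B2.val }

/-- the real conditions on the constants -/
lemma lcOkF_sound {kd : ℕ} {oR : Bool} {C : LC} {dc : Seg (Kn Dec)}
    (h : lcOkF kd oR C dc = true) {k : ℕ} (hkd : KdOk kd k) {D : ℝ} (h0 : 0 ≤ D)
    (h1 : D ≤ (Dec.add dc.a dc.w).val) (hK : KOk (dc.x.map Dec.val) D) :
    ∃ P D1 σ0 : ℝ, (C.lkF dc.x P D1 σ0).Ok dc.x.chi.val D k ∧
      1 ≤ 4 * (C.th.val * C.jt.val) ∧ 0 < C.jt.val := by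
  simp only [lcOkF, Bool.and_eq_true] at h
  obtain ⟨q1, q2, q3, q4, q5, q6, q7, q8, q9⟩ := h
  obtain ⟨s1, s2, s3⟩ := supOk_sound q2 h0 h1
  have e3 := Dec.ps_iff q3
  have e4 := Dec.nn_iff q4
  have e5 := Dec.nn_iff q5
  have e7 := Dec.nn_iff q7
  have e9 := Dec.nn_iff q9
  simp only [Dec.val_sub, Dec.val_nsm, Dec.val_mul, Dec.val_one] at e4 e5
  push_cast at e4 e5
  obtain ⟨D1, σ0, hO, hL1, hL2⟩ := hK.un
  have hO' : OneE D D1 (1 - dc.x.ru.w0.val) dc.x.ru.K.val dc.x.ru.r.val dc.x.pd.kap.val := hO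
  have hr0 := hO'.hr0
  have hLC : LeftC (0 * D) (1 - dc.x.ru.w0.val) (1 / (2 * C.jt.val)) 1 0 1
      C.B2.val C.B2.val := by
    have hz := leftC_zero (D := D) (τ := 1 / (2 * C.jt.val)) (by positivity)
      (1 - dc.x.ru.w0.val)
    refine ⟨hz.hτ, hz.hω0, hz.hν, hz.hω, hz.hϑ, ?_, ?_, ?_⟩
    · have := hz.hB1
      linarith
    · have := hz.hB1'
      linarith
    · have := hz.hB2
      linarith
  have hEx := (exOk_sound q1 hkd).rest
  refine ⟨(Dec.mul C.rR (Dec.add dc.a dc.w)).val, D1, σ0, ?_, by linarith, e3⟩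
  refine ⟨oneE_mono hO' h0 le_rfl hr0, hL1, hL2, hK.hs, hLC, hEx, e9, s1, s2, s3, ?_, zero_le_one⟩
  show C.rR.val * D ≤ (Dec.mul C.rR (Dec.add dc.a dc.w)).val
  rw [Dec.val_mul]
  exact mul_le_mul_of_nonneg_left h1 e7

/-- **three explicit children, a leaf is split off: the rule from its two lines** -/
theorem f3_ofF (hc : covers tl dl = true) (hs : LOK tl dl sgnL)
    (hK : ∀ D, RD D → KOk (knAt dl d D) D) {kd : ℕ} {oR : Bool} {C : ℕ → LC}
    {P : ℕ → S3 Dec} (hk : ∀ dc ∈ dl, lcOkF kd oR (C dc.x.ix) dc = true)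
    (hp : ∀ dc ∈ dl, s3Ok (P dc.x.ix) = true) (hL : Lines3F tl dl S oR C P)
    (hkd : KdOk kd (K - 1)) (hS : S.L0 = true) (hX : XX (O L) = 0)
    (hF : TriF S O N tc σ e b L A B) (D : ℝ) (hD : RD D) :
    LfL (VV tl dl d) (PP' dl d) (chiF dl d) O N tc σ e L S.tn D := by
  obtain ⟨hmem, _⟩ := pick_D (d := d) hc hD
  obtain ⟨kn, hkn⟩ : ∃ kn, kn = (pick dl d D).x := ⟨_, rfl⟩
  obtain ⟨c, hcc⟩ : ∃ c, c = C kn.ix := ⟨_, rfl⟩
  have hk' := hk _ hmem
  have hp' := hp _ hmem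
  have hkw : 0 ≤ (pick dl d D).w.val ∧ capOk oR c.tR c.rR = true ∧ 0 ≤ kn.chi.val := by
    have h := hk'
    simp only [lcOkF, Bool.and_eq_true] at h
    obtain ⟨q1, q2, q3, q4, q5, q6, q7, q8, q9⟩ := h
    rw [hcc, hkn]
    exact ⟨Dec.nn_iff q8, q6, Dec.nn_iff q9⟩
  obtain ⟨hw, hcR, hchi⟩ := hkw
  have hDle := pick_le (d := d) hc hD hw
  obtain ⟨P1, D1, σ0, hOk, hj, hj0⟩ := lcOkF_sound hk' hkd hD.1 hDle (hK D hD)
  rw [← hkn, ← hcc] at hOk
  rw [← hkn, ← hcc] at hj hj0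
  have hχ : chiF dl d D = kn.chi.val := by rw [hkn]; rfl
  have hO := hF.hO
  have hLN := hF.hL' hS
  have hYL : YY (O L) = 0 := hO.YY0 hLN
  obtain ⟨pay, hpay⟩ : ∃ pay, pay = pay3 ((P kn.ix).map Dec.val) S.L0 S.kU.M3 (tc L) (tc A) (tc B)
      ((chd (tc L) (O L)).sn 0) ((chd (tc A) (O A)).sn 0) ((chd (tc B) (O B)).sn 0) := ⟨_, rfl⟩
  have hpay0 : 0 ≤ pay := by
    rw [hpay, hkn]
    exact pay3_nonneg hp' hO _ _ _ _ _
  have hs0 : 0 ≤ pay * D := mul_nonneg hpay0 hD.1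
  have hcap0 : Caps (fun c0 c1 c2 => (c0 = 0 ∧ c1 = 1 ∧ c2 = 0) ∨ (c0 = 0 ∧ c1 = 0 ∧ c2 = 0))
      (c.lkF kn P1 D1 σ0).r := TSM.caps_zero
  refine TSM.lfE_of3 (c.lkF kn P1 D1 σ0) (by rw [hχ]; exact hOk) hcap0 (capR hcR) hs0
    fun a ha haq hD0 γ0 γ1 γ2 δ0 δ1 δ2 ε hG hS' hγ hδ hε hh => ?_
  obtain ⟨j, hjj, hδ0, hδ1, hδ2⟩ := hδ
  have hG1 : hG = 1 ∧ hS' = 0 := by
    rcases hh with ⟨h1, h2⟩ | ⟨h1, h2⟩
    · exact ⟨h1, h2⟩
    · have h3 : (c.lkF kn P1 D1 σ0).sR = 0 := rfl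
      rw [h3] at h1 h2
      exact ⟨by linarith, h2⟩
  obtain ⟨rfl, rfl⟩ := hG1
  have exL : (fun a => sg (e L) * (XX (O L)).eval a) = fun _ => (0 : ℝ) := by
    funext a
    rw [hX, Polynomial.eval_zero, mul_zero]
  have eyL : (fun a => (YY (O L)).eval a) = fun _ => (0 : ℝ) := by
    funext a
    rw [hYL, Polynomial.eval_zero]
  have hll : ldl (fun _ => (0 : ℝ)) (fun _ => (0 : ℝ)) a = 1 := by
    unfold ldl
    norm_num
  have hVL : ∀ W : ℝ → ℝ → Sn → ℝ, Vi W N tc O L D a = 0 := fun W =>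
    TSM.Vi_not W tc O hLN D a
  have hVR : ∑ i ∈ univ.erase L, Vi (VV tl dl d) N tc O i D a =
      VV tl dl d D a ((chd (tc A) (O A)).sn a) +
        (if S.kU.M3 then VV tl dl d D a ((chd (tc B) (O B)).sn a) else 0) := by
    rw [hF.hI.rest, TSM.Vi_mem _ tc O hF.hA D a]
    cases hM : S.kU.M3
    · rw [TSM.Vi_not _ tc O (hF.hB' hM) D a]
      simp
    · rw [TSM.Vi_mem _ tc O (hF.hB hM) D a]
      simp
  -- the two lines
  have key : ∀ b : Bool,
      VV tl dl d D a ((chd S.tn (fam σ e O)).sn a) + pay * D * (1 - D / (q0 - a)) +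
        ((if b then 1 + kn.chi.val else 1) *
          (lcr (fun _ => (0 : ℝ)) (fun _ => (0 : ℝ)) (fun a => (gY2 σ O L).eval a)
            (fun a => ∑ i ∈ univ.erase L, sg (e i) * (XX (O i)).eval a) a + c.th.val +
          (c.jt.val + 2 * (c.B2.val * c.c.val)) * lq2 (fun a => (gY2 σ O L).eval a)
            (fun a => ∑ i ∈ univ.erase L, sg (e i) * (XX (O i)).eval a) a)) ≤
      VV tl dl d D a ((chd (tc A) (O A)).sn a) +
        (if S.kU.M3 then VV tl dl d D a ((chd (tc B) (O B)).sn a) else 0) +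
        (δ0 + δ1 * (∑ i ∈ univ.erase L, sg (e i) * (XX (O i)).eval a) +
          δ2 * (∑ i ∈ univ.erase L, sg (e i) * (XX (O i)).eval a) ^ 2) -
        (c.MU.val * (a * (gY2 σ O L).eval a ^ 2) +
          c.MY.val * (∑ i ∈ univ.erase L, sg (e i) * (XX (O i)).eval a) ^ 2) +
        (if b then kn.chi.val else 0) * PP' dl d D a ((chd S.tn (fam σ e O)).sn a) := by
    intro b
    obtain ⟨F, x, thd, t0, hA⟩ := (hL b j hjj).at (d := d) hc ha
    have hl : F.l = (l3Of c kn (i4F b) (gamR oR c j)).map Dec.val := by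
      rw [hA.hl, hcc, hkn]
    have hvs : F.vs = [(vF c kn (i4F b)).map Dec.val] := by
      rw [hA.hv, hcc, hkn]
      rfl
    have hss : F.s = (P kn.ix).map Dec.val := by
      rw [hA.hs, hkn]
    have hal : 0 ≤ F.l.al := by
      rw [hl]
      cases b
      · show 0 ≤ Dec.one.val
        rw [Dec.val_one]
        exact zero_le_one
      · show 0 ≤ (Dec.add Dec.one kn.chi).val
        rw [Dec.val_add, Dec.val_one]
        linarith
    have hvm : (vF c kn (i4F b)).map Dec.val ∈ F.vs := by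
      rw [hvs]
      exact List.mem_singleton.2 rfl
    have hline := hA.line hc hs ha haq hF hal hp' hvm S.tn
    rw [l3pN_ev] at hline
    have hE := hA.ok hc hs ha
    have hkE : F.E.k = knAt dl d D := by rw [hA.hE]; exact enAt_k hc ha
    have hP1 : ((pdQ F.E S.tn).q5).ev ((chd S.tn (fam σ e O)).sn a) =
        PP' dl d D a ((chd S.tn (fam σ e O)).sn a) := by
      have := pd_ev hE ((chd S.tn (fam σ e O)).sn a)
      rw [hkE] at this
      exact this
    rw [hA.vv, hP1, hss] at hline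
    have hpe : pay3 ((P kn.ix).map Dec.val) S.L0 S.kU.M3 (tc L) (tc A) (tc B)
        ((chd (tc L) (O L)).sn a) ((chd (tc A) (O A)).sn a) ((chd (tc B) (O B)).sn a) = pay := by
      rw [hpay]
      rfl
    rw [hpe] at hline
    have eL0 : sg (e L) * (XX (O L)).eval a = 0 := congrFun exL a
    rw [exL, eyL, hll, hS, eL0, hl] at hline
    simp only [if_true] at hline
    cases b
    · simp only [Bool.false_eq_true, if_false]
      have g1 : ((l3Of c kn (i4F false) (gamR oR c j)).map Dec.val).al = 1 := Dec.val_one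
      have g2 : ((l3Of c kn (i4F false) (gamR oR c j)).map Dec.val).b =
          c.jt.val + 2 * (c.B2.val * c.c.val) := by
        show (Dec.add c.jt (Dec.nsm 2 (Dec.mul c.B2 c.c))).val = _
        rw [Dec.val_add, Dec.val_nsm, Dec.val_mul]
        norm_num
      have g3 : ((l3Of c kn (i4F false) (gamR oR c j)).map Dec.val).z = 0 := Dec.val_zero
      have g5 : ((l3Of c kn (i4F false) (gamR oR c j)).map Dec.val).MU = c.MU.val := rfl
      have g6 : ((l3Of c kn (i4F false) (gamR oR c j)).map Dec.val).MY = c.MY.val := rfl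
      have g7 : ((l3Of c kn (i4F false) (gamR oR c j)).map Dec.val).r0 = δ0 := by rw [hδ0]; rfl
      have g8 : ((l3Of c kn (i4F false) (gamR oR c j)).map Dec.val).r1 = δ1 := by rw [hδ1]; rfl
      have g9 : ((l3Of c kn (i4F false) (gamR oR c j)).map Dec.val).r2 = δ2 := by rw [hδ2]; rfl
      have v1 : ((vF c kn (i4F false)).map Dec.val).la = c.th.val := rfl
      have v2 : ((vF c kn (i4F false)).map Dec.val).g0 = 0 := Dec.val_zero
      have v5 : ((vF c kn (i4F false)).map Dec.val).ke = 0 := Dec.val_zero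
      rw [g1, g2, g3, g5, g6, g7, g8, g9, v1, v2, v5] at hline
      linarith
    · simp only [if_true]
      have g1 : ((l3Of c kn (i4F true) (gamR oR c j)).map Dec.val).al = 1 + kn.chi.val := by
        show (Dec.add Dec.one kn.chi).val = _
        rw [Dec.val_add, Dec.val_one]
      have g2 : ((l3Of c kn (i4F true) (gamR oR c j)).map Dec.val).b =
          (1 + kn.chi.val) * (c.jt.val + 2 * (c.B2.val * c.c.val)) := by
        show (Dec.mul (Dec.add Dec.one kn.chi)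
          (Dec.add c.jt (Dec.nsm 2 (Dec.mul c.B2 c.c)))).val = _
        rw [Dec.val_mul, Dec.val_add, Dec.val_one, Dec.val_add, Dec.val_nsm, Dec.val_mul]
        norm_num
      have g3 : ((l3Of c kn (i4F true) (gamR oR c j)).map Dec.val).z = kn.chi.val := rfl
      have g5 : ((l3Of c kn (i4F true) (gamR oR c j)).map Dec.val).MU = c.MU.val := rfl
      have g6 : ((l3Of c kn (i4F true) (gamR oR c j)).map Dec.val).MY = c.MY.val := rfl
      have g7 : ((l3Of c kn (i4F true) (gamR oR c j)).map Dec.val).r0 = δ0 := by rw [hδ0]; rfl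
      have g8 : ((l3Of c kn (i4F true) (gamR oR c j)).map Dec.val).r1 = δ1 := by rw [hδ1]; rfl
      have g9 : ((l3Of c kn (i4F true) (gamR oR c j)).map Dec.val).r2 = δ2 := by rw [hδ2]; rfl
      have v1 : ((vF c kn (i4F true)).map Dec.val).la = (1 + kn.chi.val) * c.th.val := by
        show (Dec.mul (Dec.add Dec.one kn.chi) c.th).val = _
        rw [Dec.val_mul, Dec.val_add, Dec.val_one]
      have v2 : ((vF c kn (i4F true)).map Dec.val).g0 = 0 := Dec.val_zero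
      have v5 : ((vF c kn (i4F true)).map Dec.val).ke = 0 := Dec.val_zero
      rw [g1, g2, g3, g5, g6, g7, g8, g9, v1, v2, v5] at hline
      linarith
  have k0 := key false
  have k1 := key true
  simp only [Bool.false_eq_true, if_false, if_true] at k0 k1
  have hτ1 : 1 / (2 * (1 / (2 * c.jt.val))) = c.jt.val := by
    field_simp
  have hτ2 : 1 / (2 * c.jt.val) / 2 ≤ c.th.val := by
    rw [div_div, div_le_iff₀ (by positivity)]
    linarith
  rw [exL, eyL, hVR, hχ]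
  have m1 : (c.lkF kn P1 D1 σ0).MU = c.MU.val := rfl
  have m2 : (c.lkF kn P1 D1 σ0).MY = c.MY.val := rfl
  rw [m1, m2]
  have eL0 : sg (e L) * (XX (O L)).eval a = 0 := congrFun exL a
  have hg0 : γ0 + γ1 * 0 + γ2 * 0 ^ 2 = 0 := by
    rcases hγ with ⟨h1, _, _⟩ | ⟨h1, _, _⟩ <;> rw [h1] <;> norm_num
  rw [eL0, hg0, hll]
  have hz : ε * ((1 : ℝ) - 1) = 0 := by ring
  rw [hz]
  have hτ3 := mul_le_mul_of_nonneg_left hτ2 (show 0 ≤ 1 + kn.chi.val by linarith)
  unfold LK.Ln LK.Q1 LK.Q2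
  simp only [hVL, LC.lkF, LC.lk, hll, hτ1]
  refine ⟨?_, ?_, ?_, ?_⟩ <;> linarith

end Pool.Agent.TSG
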