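import Pool.Agent.TSG.F3R

set_option autoImplicit false

/-!
# The groups of one line for three explicit children (MP_d27362_co)

`F3S` is the shape of a line, `F3X` are the numbers of a cell, `X3` the numbers which are computed
from them, `F3` is everything at a point of a cell.
-/

namespace Pool.Agent.TSG

open Pool.Agent.TSC
open Pool.Agent.TSM (CR creOk dle)

/-! ### data -/

/-- the coefficients of one child in a linear condition on the values -/
structure Q6 (α : Type) where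
  /-- factor of `v_U` -/
  v1 : α
  /-- factor of `v_U²` -/
  v2 : α
  /-- factor of `a_U²` -/
  a2 : α
  /-- factor of `v_y` -/
  w1 : α
  /-- factor of `v_y²` -/
  w2 : α
  /-- factor of `a_y²` -/
  b2 : α

/-- a linear condition on the values -/
structure Q3 (α : Type) where
  /-- constant -/
  c : α
  /-- child -/
  L : Q6 α
  /-- child -/
  A : Q6 α
  /-- child -/
  B : Q6 α

/-- the payment of a child -/
structure P5 (α : Type) where
  /-- constant -/
  s0 : α
  /-- factor of `v_U` -/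
  s1 : α
  /-- factor of `a_U²` -/
  s2 : α
  /-- factor of `v_y` -/
  s3 : α
  /-- factor of `a_y²` -/
  s4 : α

/-- the payments of a child for its types -/
structure T5 (α : Type) where
  /-- type 0 -/
  t0 : P5 α
  /-- type 1 -/
  t1 : P5 α
  /-- type 2 -/
  t2 : P5 α
  /-- type 3 -/
  t3 : P5 α
  /-- other types -/
  t4 : P5 α

/-- the payment of a type -/
def T5.ty {α : Type} (d : T5 α) : ℕ → P5 α
  | 0 => d.t0
  | 1 => d.t1
  | 2 => d.t2
  | 3 => d.t3
  | _ + 4 => d.t4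

/-- the payments of the three children -/
structure S3 (α : Type) where
  /-- child -/
  L : T5 α
  /-- child -/
  A : T5 α
  /-- child -/
  B : T5 α

/-- the coefficients of the terms of one child -/
structure C3 (α : Type) where
  /-- coefficient of `± y` -/
  y1 : α
  /-- coefficient of `y²` -/
  y2 : α
  /-- coefficient of `± v_y` -/
  cv : α
  /-- coefficient of `v_y` -/
  w1 : α
  /-- coefficient of `v_y²` -/
  w2 : α
  /-- coefficient of `a_y` -/
  b1 : α
  /-- coefficient of `a_y²` -/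
  b2 : α
  /-- coefficient of `± u` -/
  u1 : α
  /-- coefficient of `u²` -/
  u2 : α
  /-- coefficient of `v_U` -/
  v1 : α
  /-- coefficient of `v_U²` -/
  v2 : α
  /-- coefficient of `a_U²` -/
  a2 : α
  /-- coefficient of the root -/
  l : α
  /-- lower bound for the factor of `v_U`, sign `+` -/
  wp : α
  /-- upper bound for the factor of `v_U`, sign `-` -/
  wm : α

/-- the numbers of a line which differ for the forms of the gain and of the energy of `L` -/
structure LV (α : Type) where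
  /-- factor of the second moment of `L` -/
  la : α
  /-- gain of `L`: constant -/
  g0 : α
  /-- gain of `L`: factor of `x` -/
  g1 : α
  /-- gain of `L`: factor of `x²` -/
  g2 : α
  /-- factor of the excess of the energy -/
  ke : α

/-- the numbers of one line in one cell -/
structure X3 (α : Type) where
  /-- the part of the mixed term of `y` which is bounded by `U'²` -/
  f1 : α
  /-- the rest of the mixed term of `y`: factor of `y_L²` -/
  k1 : α
  /-- the rest of the mixed term of `y`: factor of `U2²` -/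
  j1 : α
  /-- the part of the mixed term of `U` which is bounded by `G²` -/
  f2 : α
  /-- the rest of the mixed term of `U`: factor of `u_L²` -/
  k2 : α
  /-- the rest of the mixed term of `U`: factor of the square of the rest of `G` -/
  j2 : α
  /-- `U'²` -/
  rU : R3 α
  /-- `U2²` -/
  rR : R3 α
  /-- `G²` -/
  rG : R3 α
  /-- the square of the rest of `G` -/
  rQ : R3 α
  /-- `a_y'²` -/
  rY : R3 α
  /-- `a_U'²` -/
  aL : α
  /-- `a_U'²` -/
  aA : α
  /-- `a_U'²` -/
  aB : α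
  /-- the deviation of `G`: what is won -/
  ta : α
  /-- the deviation of `G`: what is paid -/
  tb : α
  /-- the conditions with their multipliers -/
  q : Q3 α
  /-- multiplier of the upper bound of `v_U'` -/
  l1 : α
  /-- multiplier of `0 ≤ v_U'` -/
  l2 : α
  /-- multiplier of the upper bound of `v_y'` -/
  l3 : α
  /-- multiplier of the lower bound of `v_y'` -/
  l4 : α
  /-- upper bound of `v_U'` -/
  uh : α
  /-- upper bound of `v_y'` -/
  yh : α
  /-- lower bound of `v_y'` -/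
  yl : α
  /-- share of the constant -/
  cL : α
  /-- share of the constant -/
  cA : α
  /-- share of the constant -/
  cB : α
  /-- shares of the types -/
  dL : S4 α
  /-- shares of the types -/
  dA : S4 α
  /-- shares of the types -/
  dB : S4 α
  /-- the mixed term of `y`: linear part of `y_L` -/
  e1L : α
  /-- the mixed term of `y`: linear part of `U2` -/
  e1R : α
  /-- the mixed term of `y`: constant -/
  e1c : α
  /-- the mixed term of `U`: linear part of `u_L` -/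
  e2L : α
  /-- the mixed term of `U`: linear part of the rest of `G` -/
  e2R : α
  /-- the mixed term of `U`: constant -/
  e2c : α
  /-- tangent of `U2²`: factor of the square -/
  mR : α
  /-- tangent of `U2²`: half of the linear part -/
  tR : α
  /-- tangent of `U2²`: constant -/
  cR : α
  /-- tangent of the square of the rest of `G`: factor of the square -/
  mQ : α
  /-- tangent of the square of the rest of `G`: half of the linear part -/
  tQ : α
  /-- tangent of the square of the rest of `G`: constant -/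
  cQ : α

/-- everything at a point of a cell for one line -/
structure F3 (α : Type) where
  /-- the data of the cell -/
  E : En α
  /-- the line -/
  l : LL α
  /-- the forms for the gain and the energy of `L` -/
  vs : List (LV α)
  /-- the payments -/
  s : S3 α
  /-- the numbers -/
  x : X3 α

/-- the shape of a line -/
structure F3S where
  /-- the new type -/
  tn : ℕ
  /-- the label of `y'` -/
  n : ℕ
  /-- the label of `L` -/
  nL : ℤ
  /-- the label of the rest -/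
  nR : ℤ
  /-- the types of `L` -/
  tL : List ℕ
  /-- the types of `A` -/
  tA : List ℕ
  /-- the types of `B` -/
  tB : List ℕ
  /-- the signs of `y_A` -/
  sA : List Bool
  /-- the signs of `y_B` -/
  sB : List Bool
  /-- the signs of `u_L` -/
  eL : List Bool
  /-- the signs of `u_A` -/
  eA : List Bool
  /-- the signs of `u_B` -/
  eB : List Bool
  /-- the case for `U'` -/
  kU : CS
  /-- the case for `G` -/
  kG : CS
  /-- the conditions -/
  cd : List (Q3 Dec)
  /-- the child `L` is trivial -/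
  L0 : Bool
  /-- lower bound of `v_y'` -/
  yl : Dec
  /-- upper bound of `v_y'` -/
  yh : Dec

/-! ### maps -/

section maps

variable {α β : Type} (f : α → β)

/-- apply a function to the coefficients -/
def Q6.map (x : Q6 α) : Q6 β := ⟨f x.v1, f x.v2, f x.a2, f x.w1, f x.w2, f x.b2⟩

/-- apply a function to the coefficients -/
def Q3.map (x : Q3 α) : Q3 β := ⟨f x.c, x.L.map f, x.A.map f, x.B.map f⟩

/-- apply a function to the coefficients -/
def P5.map (x : P5 α) : P5 β := ⟨f x.s0, f x.s1, f x.s2, f x.s3, f x.s4⟩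

/-- apply a function to the coefficients -/
def T5.map (x : T5 α) : T5 β := ⟨x.t0.map f, x.t1.map f, x.t2.map f, x.t3.map f, x.t4.map f⟩

/-- apply a function to the coefficients -/
def S3.map (x : S3 α) : S3 β := ⟨x.L.map f, x.A.map f, x.B.map f⟩

/-- apply a function to the coefficients -/
def C3.map (x : C3 α) : C3 β :=
  ⟨f x.y1, f x.y2, f x.cv, f x.w1, f x.w2, f x.b1, f x.b2, f x.u1, f x.u2, f x.v1, f x.v2,
    f x.a2, f x.l, f x.wp, f x.wm⟩

/-- apply a function to the coefficients -/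
def LV.map (x : LV α) : LV β := ⟨f x.la, f x.g0, f x.g1, f x.g2, f x.ke⟩

/-- apply a function to the coefficients -/
def X3.map (x : X3 α) : X3 β :=
  ⟨f x.f1, f x.k1, f x.j1, f x.f2, f x.k2, f x.j2, x.rU.map f, x.rR.map f, x.rG.map f,
    x.rQ.map f, x.rY.map f, f x.aL, f x.aA, f x.aB, f x.ta, f x.tb, x.q.map f, f x.l1, f x.l2,
    f x.l3, f x.l4, f x.uh, f x.yh, f x.yl, f x.cL, f x.cA, f x.cB, x.dL.map f, x.dA.map f,
    x.dB.map f, f x.e1L, f x.e1R, f x.e1c, f x.e2L, f x.e2R, f x.e2c, f x.mR, f x.tR, f x.cR,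
    f x.mQ, f x.tQ, f x.cQ⟩

/-- apply a function to the coefficients -/
def F3.map (F : F3 α) : F3 β :=
  ⟨F.E.map f, F.l.map f, F.vs.map (LV.map f), F.s.map f, F.x.map f⟩

lemma T5.map_ty (d : T5 α) (n : ℕ) : (d.map f).ty n = (d.ty n).map f := by
  rcases n with _ | _ | _ | _ | n <;> rfl

end maps

/-! ### the groups -/

section gen

variable {α : Type} [Ar α]

/-- `D² w - D` -/
def F3.z (F : F3 α) : α := Ar.sub (Ar.mul F.E.D2 F.E.w) F.E.D

/-- the form of the `U` part of one child with the coefficients `v`; `k` is the share, `s` the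
payment with its factor `z`, `c` are the terms, `b` is the sign of `u` -/
def c3U (z : α) (v : NA α) (c : C3 α) (k : α) (s : P5 α) (b : Bool) : QI α where
  c := Ar.add (Ar.sub v.c k) (Ar.mul s.s0 z)
  cu := if b then Ar.sub v.al c.u1 else Ar.add v.al c.u1
  cuu := Ar.sub v.be c.u2
  cv := Ar.add (Ar.sub (if b then Ar.add v.cv c.wp else Ar.sub v.cv c.wm) c.v1) (Ar.mul s.s1 z)
  cvv := Ar.neg c.v2
  ca := v.lU
  caa := Ar.add (Ar.sub v.qU c.a2) (Ar.mul s.s2 z)
  l := c.l

/-- the form of the `y` part of one child with the coefficients `v`; `ds` is the share of the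
type, `b` is the sign of `y` -/
def c3Y (z : α) (v : NA α) (c : C3 α) (ds : α) (s : P5 α) (b : Bool) : QI α where
  c := Ar.neg ds
  cu := if b then Ar.sub v.ga c.y1 else Ar.add v.ga c.y1
  cuu := Ar.sub v.de c.y2
  cv := Ar.add (Ar.sub (if b then Ar.sub v.dv c.cv else Ar.add v.dv c.cv) c.w1) (Ar.mul s.s3 z)
  cvv := Ar.neg c.w2
  ca := Ar.sub v.ly c.b1
  caa := Ar.add (Ar.sub v.qy c.b2) (Ar.mul s.s4 z)
  l := Ar.zero

/-- the new state: potential and pending cost -/
def F3.pN (F : F3 α) (S : F3S) : NA α := ((F.E.V.ty S.tn).na).sub F.l.z (pdQ F.E S.tn)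

/-- the factor of `v_U'` -/
def F3.pcv (F : F3 α) (S : F3S) : α := Ar.add (F.pN S).cv (Ar.sub F.x.l2 F.x.l1)

/-- the factor of `v_y'` -/
def F3.pdv (F : F3 α) (S : F3S) : α := Ar.add (F.pN S).dv (Ar.sub F.x.l4 F.x.l3)

/-- the positive part of the factor of `v_y'` -/
def F3.pdp (F : F3 α) (S : F3S) : α := Ar.add (F.pN S).dv F.x.l4

/-- the factor of `U'²` -/
def F3.dU (F : F3 α) (S : F3S) : α :=
  Ar.add (F.pN S).be (Ar.mul (Ar.mul F.E.t F.E.t) (Ar.mul F.l.al F.x.f1))

/-- the factor of `U2²` -/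
def F3.dR (F : F3 α) : α :=
  Ar.add (Ar.mul F.E.t (Ar.add F.l.MU (Ar.mul F.E.t (Ar.add F.l.b (Ar.mul F.l.al
    (Ar.sub F.x.j1 F.x.f1)))))) F.x.mR

/-- the factor of `G²` -/
def F3.dG (F : F3 α) (S : F3S) : α :=
  Ar.mul (Ar.mul F.E.t F.E.t) (Ar.add (F.pN S).de (Ar.mul F.E.t (Ar.mul F.l.al F.x.f2)))

/-- the factor of the square of the rest of `G` -/
def F3.dQ (F : F3 α) : α :=
  Ar.add (Ar.mul (Ar.mul F.E.t F.E.t) (Ar.add (Ar.sub F.l.MY F.l.r2)
    (Ar.mul F.E.t (Ar.add F.l.b (Ar.mul F.l.al (Ar.sub F.x.j2 F.x.f2)))))) F.x.mQ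

/-- the terms of a child; `y1`, `y2`, `u1`, `u2`, `yx`, `ux` are the terms of the line -/
def F3.c0 (F : F3 α) (S : F3S) (yU yR yG yQ yY : Y4 α) (ar : α) (q : Q6 α)
    (y1 y2 u1 u2 yx ux : α) : C3 α where
  y1 := Ar.add (Ar.sub (F.pN S).al y1)
    (Ar.add (Ar.add (Ar.mul (F.dU S) yU.x1) (Ar.mul F.dR yR.x1)) yx)
  y2 := Ar.add (Ar.add (Ar.mul (F.dU S) yU.x2) (Ar.mul F.dR yR.x2)) y2
  cv := Ar.add (F.pcv S) (Ar.add (Ar.mul (F.dU S) yU.ws) (Ar.mul F.dR yR.ws))
  w1 := q.w1
  w2 := Ar.add (Ar.add (Ar.mul (F.dU S) yU.w2) (Ar.mul F.dR yR.w2)) q.w2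
  b1 := (F.pN S).lU
  b2 := Ar.add (Ar.add (Ar.mul (F.dU S) yU.b2) (Ar.mul F.dR yR.b2))
    (Ar.add (Ar.mul (F.pN S).qU ar) q.b2)
  u1 := Ar.add (Ar.sub (Ar.mul F.E.t u1)
      (Ar.mul F.E.t (Ar.add (F.pN S).ga (Ar.nsm (2 * S.n) (F.pN S).de))))
    (Ar.add (Ar.add (Ar.add (Ar.mul (F.dG S) yG.x1) (Ar.mul F.dQ yQ.x1))
      (Ar.mul (F.pN S).qy yY.x1)) ux)
  u2 := Ar.add (Ar.add (Ar.add (Ar.mul (F.dG S) yG.x2) (Ar.mul F.dQ yQ.x2))
    (Ar.mul (F.pN S).qy yY.x2)) u2
  v1 := q.v1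
  v2 := Ar.add (Ar.add (Ar.add (Ar.mul (F.dG S) yG.w2) (Ar.mul F.dQ yQ.w2))
    (Ar.mul (F.pN S).qy yY.w2)) q.v2
  a2 := Ar.add (Ar.add (Ar.add (Ar.mul (F.dG S) yG.b2) (Ar.mul F.dQ yQ.b2))
    (Ar.mul (F.pN S).qy yY.b2)) q.a2
  l := Ar.mul (F.pN S).ly F.E.xk
  wp := Ar.sub (Ar.sub (Ar.mul F.E.Tl (F.pdp S)) (Ar.mul F.E.T F.x.l3))
    (Ar.add (Ar.add (Ar.mul (F.dG S) yG.ws) (Ar.mul F.dQ yQ.ws)) (Ar.mul (F.pN S).qy yY.ws))
  wm := Ar.sub (Ar.sub (Ar.mul F.E.T (F.pdp S)) (Ar.mul F.E.Tl F.x.l3))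
    (Ar.add (Ar.add (Ar.mul (F.dG S) yG.ws) (Ar.mul F.dQ yQ.ws)) (Ar.mul (F.pN S).qy yY.ws))

/-- the factor of `± u` of a child of the rest, without `t` -/
def F3.uR (F : F3 α) (S : F3S) : α :=
  Ar.add (Ar.sub F.l.r1 (zsm S.nL (Ar.mul F.l.al F.E.t)))
    (Ar.nsm 2 (zsm S.nR (Ar.sub F.l.r2 (Ar.add F.l.MY (Ar.mul F.l.b F.E.t)))))

/-- the factor of the mixed term of `y` -/
def F3.am (F : F3 α) : α := Ar.mul (Ar.mul F.E.t F.E.t) F.l.al

/-- the factor of the mixed term of `U` -/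
def F3.an (F : F3 α) : α := Ar.mul F.E.t F.am

/-- linear part of the rest of `U'` -/
def F3.yx (F : F3 α) : α := Ar.sub (Ar.mul F.am F.x.e1R) (Ar.nsm 2 F.x.tR)

/-- linear part of the rest of `G` -/
def F3.ux (F : F3 α) : α := Ar.sub (Ar.mul F.an F.x.e2R) (Ar.nsm 2 F.x.tQ)

/-- the terms of `A` -/
def F3.cA (F : F3 α) (S : F3S) : C3 α :=
  F.c0 S F.x.rU.A F.x.rR.A F.x.rG.A F.x.rQ.A F.x.rY.A F.x.aA F.x.q.A (Ar.mul F.l.al F.E.t)
    Ar.zero (F.uR S) Ar.zero F.yx F.ux

/-- the terms of `B` -/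
def F3.cB (F : F3 α) (S : F3S) : C3 α :=
  F.c0 S F.x.rU.B F.x.rR.B F.x.rG.B F.x.rQ.B F.x.rY.B F.x.aB F.x.q.B (Ar.mul F.l.al F.E.t)
    Ar.zero (F.uR S) Ar.zero F.yx F.ux

/-- the terms of `L` -/
def F3.cL (F : F3 α) (S : F3S) (v : LV α) : C3 α :=
  F.c0 S F.x.rU.L F.x.rR.L F.x.rG.L F.x.rQ.L F.x.rY.L F.x.aL F.x.q.L
    (Ar.nsm 2 (Ar.mul v.la F.E.t))
    (Ar.mul (Ar.mul F.E.t F.E.t) (Ar.add v.la (Ar.mul F.l.al (Ar.sub F.x.k1 F.x.f1))))
    (Ar.sub (Ar.add v.g1 (Ar.nsm 2 (zsm S.nL (Ar.sub v.g2 (Ar.mul v.la F.E.t)))))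
      (zsm S.nR (Ar.mul F.l.al F.E.t)))
    (Ar.mul (Ar.mul F.E.t F.E.t) (Ar.sub
      (Ar.mul F.E.t (Ar.add v.la (Ar.mul F.l.al (Ar.sub F.x.k2 F.x.f2)))) v.g2))
    (Ar.mul F.am F.x.e1L) (Ar.mul F.an F.x.e2L)

/-- the constants of the mixed terms and of the tangents -/
def F3.kx (F : F3 α) : α :=
  Ar.add (Ar.add (Ar.mul F.am F.x.e1c) (Ar.mul F.an F.x.e2c)) (Ar.add F.x.cR F.x.cQ)

/-- the constant of the line without the terms of `L` -/
def F3.ka (F : F3 α) (S : F3S) : α :=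
  Ar.add F.kx (Ar.add (Ar.add (Ar.sub (Ar.add (F.pN S).c (Ar.add (Ar.mul F.x.l1 F.x.uh)
      (Ar.mul F.x.l3 F.x.yh))) (Ar.mul F.x.l4 F.x.yl))
    (Ar.nsm S.n (Ar.add (Ar.add (F.pN S).ga (F.pN S).de) (F.pdv S))))
  (Ar.add (Ar.sub (Ar.add (zsm (S.nL * S.nR) (Ar.mul F.l.al F.E.t))
      (zsm (S.nR * S.nR) (Ar.add F.l.MY (Ar.mul F.l.b F.E.t))))
    (Ar.add (Ar.add (zsm S.nR F.l.r1) (zsm (S.nR * S.nR) F.l.r2)) F.l.r0))
  (Ar.add (Ar.add (Ar.add (Ar.mul (F.dU S) F.x.rU.c) (Ar.mul F.dR F.x.rR.c))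
      (Ar.add (Ar.mul (F.dG S) F.x.rG.c) (Ar.mul F.dQ F.x.rQ.c)))
    (Ar.add (Ar.mul (F.pN S).qy F.x.rY.c) F.x.q.c))))

/-- the constant of the terms of `L` -/
def F3.kL (F : F3 α) (S : F3S) (v : LV α) : α :=
  Ar.sub (Ar.sub (Ar.add v.la (zsm (S.nL * S.nL) (Ar.mul v.la F.E.t)))
    (Ar.add (zsm S.nL v.g1) (zsm (S.nL * S.nL) v.g2))) (Ar.add v.g0 v.ke)

/-- the coefficients of `L` of the type `t` -/
def F3.vL (F : F3 α) (t : ℕ) : NA α := ((F.E.V.ty t).na).sub F.l.zL (pdQ F.E t)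

/-- the group of `A` -/
def F3.gA (F : F3 α) (S : F3S) (t : ℕ) : GP α :=
  (S.eA.map (c3U F.z ((F.E.V.ty t).na) (F.cA S) (Ar.mul F.x.cA (F.ka S)) (F.s.A.ty t)),
    S.sA.map (c3Y F.z ((F.E.V.ty t).na) (F.cA S) (F.x.dA.ty t) (F.s.A.ty t)))

/-- the group of `B` -/
def F3.gB (F : F3 α) (S : F3S) (t : ℕ) : GP α :=
  (S.eB.map (c3U F.z ((F.E.V.ty t).na) (F.cB S) (Ar.mul F.x.cB (F.ka S)) (F.s.B.ty t)),
    S.sB.map (c3Y F.z ((F.E.V.ty t).na) (F.cB S) (F.x.dB.ty t) (F.s.B.ty t)))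

/-- the group of `L` -/
def F3.gL (F : F3 α) (S : F3S) (v : LV α) (t : ℕ) : GP α :=
  (S.eL.map (c3U F.z (F.vL t) (F.cL S v) (Ar.add (Ar.mul F.x.cL (F.ka S)) (F.kL S v))
      (F.s.L.ty t)),
    [c3Y F.z (F.vL t) (F.cL S v) (F.x.dL.ty t) (F.s.L.ty t) true])

/-- the constant of a trivial child `L` -/
def F3.k0 (F : F3 α) (S : F3S) (v : LV α) : α :=
  Ar.neg (Ar.add (Ar.add (Ar.mul F.x.cL (F.ka S)) (F.kL S v)) (F.x.dL.ty 0))

/-- constants which have to be nonnegative -/
def F3.cs (F : F3 α) (S : F3S) : List α :=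
  F.dU S :: F.dR :: F.dG S :: F.dQ :: Ar.sub (Ar.mul F.x.ta (F.pN S).qy)
    (Ar.mul F.x.tb (F.dG S)) :: (if S.L0 then F.vs.map (F.k0 S) else [])

/-- the groups of the type 0 -/
def ty0 (l : List ℕ) (g : ℕ → GP α) : List (GP α) := (l.filter fun t => Nat.beq t 0).map g

/-- the groups of the other types -/
def ty1 (l : List ℕ) (g : ℕ → GP α) : List (GP α) :=
  (l.filter fun t => !(Nat.beq t 0)).map fun t => if Nat.beq t 4 then shG (g t) else g t

/-- the groups with `v_y ≤ 2` -/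
def F3.g2 (F : F3 α) (S : F3S) : List (GP α) :=
  cstG (F.cs S) :: (ty0 S.tA (F.gA S) ++ (ty0 S.tB (F.gB S) ++
    if S.L0 then [] else F.vs.flatMap fun v => ty0 S.tL (F.gL S v)))

/-- the groups with `v_y ≤ 1` -/
def F3.g1 (F : F3 α) (S : F3S) : List (GP α) :=
  ty1 S.tA (F.gA S) ++ (ty1 S.tB (F.gB S) ++
    if S.L0 then [] else F.vs.flatMap fun v => ty1 S.tL (F.gL S v))

end gen

/-! ### naturality -/

section nat

variable {α β : Type} [Ar α] [Ar β] {f : α → β} (hf : ArHom f)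

include hf

lemma map_3z (F : F3 α) : f F.z = (F.map f).z := by
  simp only [F3.z, hf.sub, hf.mul]
  rfl

lemma map_c3U (z : α) (v : NA α) (c : C3 α) (k : α) (s : P5 α) (b : Bool) :
    (c3U z v c k s b).map f = c3U (f z) (v.map f) (c.map f) (f k) (s.map f) b := by
  simp only [c3U, QI.map, hf.add, hf.sub, hf.mul, hf.neg, apply_ite f, NA.map, C3.map, P5.map]

lemma map_c3Y (z : α) (v : NA α) (c : C3 α) (ds : α) (s : P5 α) (b : Bool) :
    (c3Y z v c ds s b).map f = c3Y (f z) (v.map f) (c.map f) (f ds) (s.map f) b := by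
  simp only [c3Y, QI.map, hf.add, hf.sub, hf.mul, hf.neg, hf.zero, apply_ite f, NA.map, C3.map,
    P5.map]

lemma map_3pN (F : F3 α) (S : F3S) : (F.pN S).map f = (F.map f).pN S := by
  simp only [F3.pN, map_nasub hf, map_vtna, map_pdQ hf]
  rw [← VD.map_ty]
  rfl

lemma map_pcv (F : F3 α) (S : F3S) : f (F.pcv S) = (F.map f).pcv S := by
  have h := map_3pN hf F S
  simp only [F3.pcv, hf.add, hf.sub, ← h]
  rfl

lemma map_pdv (F : F3 α) (S : F3S) : f (F.pdv S) = (F.map f).pdv S := by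
  have h := map_3pN hf F S
  simp only [F3.pdv, hf.add, hf.sub, ← h]
  rfl

lemma map_pdp (F : F3 α) (S : F3S) : f (F.pdp S) = (F.map f).pdp S := by
  have h := map_3pN hf F S
  simp only [F3.pdp, hf.add, ← h]
  rfl

lemma map_dU (F : F3 α) (S : F3S) : f (F.dU S) = (F.map f).dU S := by
  have h := map_3pN hf F S
  simp only [F3.dU, hf.add, hf.mul, ← h]
  rfl

lemma map_dR (F : F3 α) : f F.dR = (F.map f).dR := by
  simp only [F3.dR, hf.add, hf.mul, hf.sub]
  rfl

lemma map_dG (F : F3 α) (S : F3S) : f (F.dG S) = (F.map f).dG S := by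
  have h := map_3pN hf F S
  simp only [F3.dG, hf.add, hf.mul, ← h]
  rfl

lemma map_dQ (F : F3 α) : f F.dQ = (F.map f).dQ := by
  simp only [F3.dQ, hf.add, hf.mul, hf.sub]
  rfl

lemma map_3c0 (F : F3 α) (S : F3S) (yU yR yG yQ yY : Y4 α) (ar : α) (q : Q6 α)
    (y1 y2 u1 u2 yx ux : α) : (F.c0 S yU yR yG yQ yY ar q y1 y2 u1 u2 yx ux).map f =
      (F.map f).c0 S (yU.map f) (yR.map f) (yG.map f) (yQ.map f) (yY.map f) (f ar) (q.map f)
        (f y1) (f y2) (f u1) (f u2) (f yx) (f ux) := by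
  have h := map_3pN hf F S
  simp only [F3.c0, C3.map, hf.add, hf.mul, hf.sub, hf.nsm, map_dU hf, map_dR hf, map_dG hf,
    map_dQ hf, map_pcv hf, map_pdp hf, ← h]
  rfl

lemma map_uR (F : F3 α) (S : F3S) : f (F.uR S) = (F.map f).uR S := by
  simp only [F3.uR, hf.add, hf.mul, hf.sub, hf.nsm, map_zsm hf]
  rfl

lemma map_3am (F : F3 α) : f F.am = (F.map f).am := by
  simp only [F3.am, hf.mul]
  rfl

lemma map_3an (F : F3 α) : f F.an = (F.map f).an := by
  simp only [F3.an, hf.mul, map_3am hf]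
  rfl

lemma map_3yx (F : F3 α) : f F.yx = (F.map f).yx := by
  simp only [F3.yx, hf.mul, hf.sub, hf.nsm, map_3am hf]
  rfl

lemma map_3ux (F : F3 α) : f F.ux = (F.map f).ux := by
  simp only [F3.ux, hf.mul, hf.sub, hf.nsm, map_3an hf]
  rfl

lemma map_3kx (F : F3 α) : f F.kx = (F.map f).kx := by
  simp only [F3.kx, hf.mul, hf.add, map_3am hf, map_3an hf]
  rfl

lemma map_3cA (F : F3 α) (S : F3S) : (F.cA S).map f = (F.map f).cA S := by
  simp only [F3.cA, map_3c0 hf, hf.mul, hf.zero, map_uR hf, map_3yx hf, map_3ux hf]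
  rfl

lemma map_3cB (F : F3 α) (S : F3S) : (F.cB S).map f = (F.map f).cB S := by
  simp only [F3.cB, map_3c0 hf, hf.mul, hf.zero, map_uR hf, map_3yx hf, map_3ux hf]
  rfl

lemma map_3cL (F : F3 α) (S : F3S) (v : LV α) :
    (F.cL S v).map f = (F.map f).cL S (v.map f) := by
  simp only [F3.cL, map_3c0 hf, hf.mul, hf.add, hf.sub, hf.nsm, map_zsm hf, map_3am hf,
    map_3an hf]
  rfl

lemma map_3ka (F : F3 α) (S : F3S) : f (F.ka S) = (F.map f).ka S := by
  have h := map_3pN hf F S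
  simp only [F3.ka, hf.add, hf.mul, hf.sub, hf.nsm, map_zsm hf, map_dU hf, map_dR hf, map_dG hf,
    map_dQ hf, map_pdv hf, map_3kx hf, ← h]
  rfl

lemma map_3kL (F : F3 α) (S : F3S) (v : LV α) : f (F.kL S v) = (F.map f).kL S (v.map f) := by
  simp only [F3.kL, hf.add, hf.mul, hf.sub, map_zsm hf]
  rfl

lemma map_3vL (F : F3 α) (t : ℕ) : (F.vL t).map f = (F.map f).vL t := by
  simp only [F3.vL, map_nasub hf, map_vtna, map_pdQ hf]
  rw [← VD.map_ty]
  rfl

lemma gmap_3gA (F : F3 α) (S : F3S) (t : ℕ) : gmap f (F.gA S t) = (F.map f).gA S t := by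
  have h : (F.map f).E.V.ty t = (F.E.V.ty t).map f := VD.map_ty f F.E.V t
  simp only [gmap, F3.gA, List.map_map]
  congr 1
  · apply List.map_congr_left
    intro b _
    simp only [Function.comp, map_c3U hf, map_3z hf, map_3cA hf, hf.mul, map_3ka hf, map_vtna, h]
    simp only [F3.map, S3.map, T5.map_ty, X3.map]
  · apply List.map_congr_left
    intro b _
    simp only [Function.comp, map_c3Y hf, map_3z hf, map_3cA hf, map_vtna, h]
    simp only [F3.map, S3.map, T5.map_ty, X3.map, S4.map_ty]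

lemma gmap_3gB (F : F3 α) (S : F3S) (t : ℕ) : gmap f (F.gB S t) = (F.map f).gB S t := by
  have h : (F.map f).E.V.ty t = (F.E.V.ty t).map f := VD.map_ty f F.E.V t
  simp only [gmap, F3.gB, List.map_map]
  congr 1
  · apply List.map_congr_left
    intro b _
    simp only [Function.comp, map_c3U hf, map_3z hf, map_3cB hf, hf.mul, map_3ka hf, map_vtna, h]
    simp only [F3.map, S3.map, T5.map_ty, X3.map]
  · apply List.map_congr_left
    intro b _
    simp only [Function.comp, map_c3Y hf, map_3z hf, map_3cB hf, map_vtna, h]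
    simp only [F3.map, S3.map, T5.map_ty, X3.map, S4.map_ty]

lemma gmap_3gL (F : F3 α) (S : F3S) (v : LV α) (t : ℕ) :
    gmap f (F.gL S v t) = (F.map f).gL S (v.map f) t := by
  simp only [gmap, F3.gL, List.map_map, List.map_cons, List.map_nil]
  congr 1
  · apply List.map_congr_left
    intro b _
    simp only [Function.comp, map_c3U hf, map_3z hf, map_3cL hf, hf.mul, hf.add, map_3ka hf,
      map_3kL hf, map_3vL hf]
    simp only [F3.map, S3.map, T5.map_ty, X3.map]
  · simp only [map_c3Y hf, map_3z hf, map_3cL hf, map_3vL hf]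
    simp only [F3.map, S3.map, T5.map_ty, X3.map, S4.map_ty]

lemma map_3k0 (F : F3 α) (S : F3S) (v : LV α) : f (F.k0 S v) = (F.map f).k0 S (v.map f) := by
  simp only [F3.k0, hf.neg, hf.add, hf.mul, map_3ka hf, map_3kL hf]
  simp only [F3.map, X3.map, S4.map_ty]

lemma map_3cs (F : F3 α) (S : F3S) : (F.cs S).map f = (F.map f).cs S := by
  have h := map_3pN hf F S
  have hv : (if S.L0 then F.vs.map (F.k0 S) else []).map f =
      if S.L0 then (F.map f).vs.map ((F.map f).k0 S) else [] := by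
    cases S.L0
    · rfl
    · show (F.vs.map (F.k0 S)).map f = (F.vs.map (LV.map f)).map ((F.map f).k0 S)
      rw [List.map_map, List.map_map]
      apply List.map_congr_left
      intro v _
      exact map_3k0 hf F S v
  simp only [F3.cs, List.map_cons, hv, hf.sub, hf.mul, map_dU hf, map_dR hf, map_dG hf,
    map_dQ hf, ← h]
  rfl

omit hf in
lemma map_ty0 {g : ℕ → GP α} {h : ℕ → GP β} (e : ∀ t, gmap f (g t) = h t) (l : List ℕ) :
    (ty0 l g).map (gmap f) = ty0 l h := by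
  unfold ty0
  rw [List.map_map]
  apply List.map_congr_left
  intro t _
  exact e t

lemma map_ty1 {g : ℕ → GP α} {h : ℕ → GP β} (e : ∀ t, gmap f (g t) = h t) (l : List ℕ) :
    (ty1 l g).map (gmap f) = ty1 l h := by
  unfold ty1
  rw [List.map_map]
  apply List.map_congr_left
  intro t _
  simp only [Function.comp, apply_ite (gmap f), gmap_shG hf, e]

lemma map_3g2 (F : F3 α) (S : F3S) : (F.g2 S).map (gmap f) = (F.map f).g2 S := by
  simp only [F3.g2, List.map_cons, List.map_append, gmap_cstG hf, map_3cs hf,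
    map_ty0 (gmap_3gA hf F S), map_ty0 (gmap_3gB hf F S)]
  congr 3
  cases S.L0
  · simp only [Bool.false_eq_true, if_false, List.map_flatMap]
    show _ = (F.vs.map (LV.map f)).flatMap _
    rw [List.flatMap_map]
    congr 1
    funext v
    exact map_ty0 (gmap_3gL hf F S v) S.tL
  · rfl

lemma map_3g1 (F : F3 α) (S : F3S) : (F.g1 S).map (gmap f) = (F.map f).g1 S := by
  simp only [F3.g1, List.map_append, map_ty1 hf (gmap_3gA hf F S),
    map_ty1 hf (gmap_3gB hf F S)]
  congr 2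
  cases S.L0
  · simp only [Bool.false_eq_true, if_false, List.map_flatMap]
    show _ = (F.vs.map (LV.map f)).flatMap _
    rw [List.flatMap_map]
    congr 1
    funext v
    exact map_ty1 hf (gmap_3gL hf F S v) S.tL
  · rfl

end nat

/-! ### the point of a cell -/

section mk

variable {α : Type} [Ar α]

/-- the data of a point, `c` embeds the decimal numbers -/
def mkF3 (c : Dec → α) (lam mu : α) (tc : TC) (dc : Seg (Kn Dec)) (l : LL Dec)
    (vs : List (LV Dec)) (s : S3 Dec) (x : X3 Dec) : F3 α :=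
  ⟨mkEn c lam mu tc dc, l.map c, vs.map (LV.map c), s.map c, x.map c⟩

variable {β : Type} [Ar β] {f : α → β}

lemma map_mkF3 (hf : ArHom f) (c : Dec → α) (lam mu : α) (tc : TC) (dc : Seg (Kn Dec))
    (l : LL Dec) (vs : List (LV Dec)) (s : S3 Dec) (x : X3 Dec) :
    (mkF3 c lam mu tc dc l vs s x).map f =
      mkF3 (fun y => f (c y)) (f lam) (f mu) tc dc l vs s x := by
  unfold mkF3 F3.map
  simp only [map_mkEn hf, List.map_map]
  rfl

end mk

/-- the real data of a point -/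
noncomputable def rF3 (lam mu : ℝ) (tc : TC) (dc : Seg (Kn Dec)) (l : LL Dec)
    (vs : List (LV Dec)) (s : S3 Dec) (x : X3 Dec) : F3 ℝ :=
  mkF3 Dec.val lam mu tc dc l vs s x

end Pool.Agent.TSG
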