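import Pool.Agent.TSG.F3T
import Pool.Agent.TSM.Tri3

set_option autoImplicit false

/-!
# Three explicit children: soundness (MP_d27362_co)
-/

namespace Pool.Agent.TSG

open Finset
open Pool.Agent.TSC
open Pool.Agent.TSM (q0 th RD Reg Sn NS CT Q5 chd vU vY aU aY aX XX YY UU gY2 Chd LK2 LK LnL Caps LfL
  Vi fam gU T3 I3 lcr ldl lq2 Cre CreL)
open Pool.Agent.TSR (OBr sg_true sg_false)
open Pool.Agent.TLT (sg)
open Pool.Agent.TDN (dn dn_nonneg)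

/-! ### the forms of one child -/

/-- the value of the terms -/
noncomputable def C3.ev (c : C3 ℝ) (W s e : ℝ) (st : Sn) : ℝ :=
  s * (c.y1 * st.y) + c.y2 * st.y ^ 2 + s * (c.cv * st.vY) + c.w1 * st.vY + c.w2 * st.vY ^ 2 +
    c.b1 * st.aY + c.b2 * st.aY ^ 2 + e * (c.u1 * st.u) + c.u2 * st.u ^ 2 + c.v1 * st.vU -
    e * (W * st.vU) + c.v2 * st.vU ^ 2 + c.a2 * st.aU ^ 2 +
    c.l * Real.sqrt (st.vU ^ 2 + st.aU ^ 2)

/-- the payment -/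
def P5.ev (p : P5 ℝ) (st : Sn) : ℝ :=
  p.s0 + p.s1 * st.vU + p.s2 * st.aU ^ 2 + p.s3 * st.vY + p.s4 * st.aY ^ 2

/-- the forms of a child are below the value; `V` are the coefficients of the child -/
theorem c3_form {V : NA ℝ} {c : C3 ℝ} {z D a W : ℝ} (hz : z ≤ -(D * (1 - D / (q0 - a))))
    (hWp : c.wp ≤ W) (hWm : W ≤ c.wm) (k ds : ℝ) {p : P5 ℝ} (st : Sn) (hp : 0 ≤ p.ev st)
    (hv : 0 ≤ st.vU) (b1 b2 : Bool) :
    (c3U z V c k p b2).ev st.u st.vU st.aU + (c3Y z V c ds p b1).ev st.y st.vY st.aY ≤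
      V.ns.ev st - (k + ds) - p.ev st * D * (1 - D / (q0 - a)) - c.ev W (sg b1) (sg b2) st := by
  have hpay := mul_le_mul_of_nonneg_left hz hp
  have hq1 := mul_le_mul_of_nonneg_right hWp hv
  have hq2 := mul_le_mul_of_nonneg_right hWm hv
  have e0 : (c3U z V c k p b2).ev st.u st.vU st.aU =
      V.c - k + p.s0 * z + V.al * st.u - sg b2 * (c.u1 * st.u) +
        (V.be - c.u2) * st.u ^ 2 + V.cv * st.vU +
        (if b2 then c.wp * st.vU else -(c.wm * st.vU)) - c.v1 * st.vU + p.s1 * z * st.vU -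
        c.v2 * st.vU ^ 2 + V.lU * st.aU + (V.qU - c.a2) * st.aU ^ 2 + p.s2 * z * st.aU ^ 2 -
        c.l * Real.sqrt (st.vU ^ 2 + st.aU ^ 2) := by
    unfold c3U QI.ev
    simp only [rAdd, rMul, rSub, rNeg]
    rcases b2 with _ | _ <;>
      simp only [Bool.false_eq_true, if_true, if_false, sg_true, sg_false] <;> ring
  have e1 : (c3Y z V c ds p b1).ev st.y st.vY st.aY =
      -ds + V.ga * st.y - sg b1 * (c.y1 * st.y) + (V.de - c.y2) * st.y ^ 2 + V.dv * st.vY -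
        sg b1 * (c.cv * st.vY) - c.w1 * st.vY + p.s3 * z * st.vY - c.w2 * st.vY ^ 2 +
        (V.ly - c.b1) * st.aY + (V.qy - c.b2) * st.aY ^ 2 + p.s4 * z * st.aY ^ 2 := by
    unfold c3Y QI.ev
    simp only [rAdd, rSub, rNeg, rZero, rMul]
    rcases b1 with _ | _ <;>
      simp only [Bool.false_eq_true, if_true, if_false, sg_true, sg_false] <;> ring
  have e2 : p.ev st * z = p.s0 * z + p.s1 * z * st.vU + p.s2 * z * st.aU ^ 2 +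
      p.s3 * z * st.vY + p.s4 * z * st.aY ^ 2 := by
    unfold P5.ev
    ring
  rw [e0, e1]
  unfold C3.ev NS.ev NA.ns
  dsimp only
  rcases b2 with _ | _ <;>
    simp only [Bool.false_eq_true, if_true, if_false, sg_true, sg_false] <;>
    linarith

/-! ### the sum over the children -/

variable {S : F3S} {F : F3 ℝ} {v : LV ℝ} {D a : ℝ}

/-- the factor of `± v_U` of a child -/
noncomputable def F3.W (F : F3 ℝ) (S : F3S) (yG yQ yY : Y4 ℝ) : ℝ :=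
  q0 * F.pdv S - (F.dG S * yG.ws + F.dQ * yQ.ws + (F.pN S).qy * yY.ws)

set_option maxRecDepth 4000 in
/-- the terms of all children together -/
theorem sum_ev (ht : F.E.t = a) (sA sB eL eA eB : ℝ) (x p q : Sn) (az a2 bz b2 : ℝ) :
    (F.cL S v).ev (F.W S F.x.rG.L F.x.rQ.L F.x.rY.L) 1 eL x +
      (F.cA S).ev (F.W S F.x.rG.A F.x.rQ.A F.x.rY.A) sA eA p +
      (F.cB S).ev (F.W S F.x.rG.B F.x.rQ.B F.x.rY.B) sB eB q + F.ka S + F.kL S v =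
    ((F.pN S).c + F.x.l1 * F.x.uh + F.x.l3 * F.x.yh - F.x.l4 * F.x.yl +
      S.n * ((F.pN S).ga + (F.pN S).de + F.pdv S)) +
    (F.l.al * (a * (S.nL * S.nR)) + (S.nR : ℝ) ^ 2 * (F.l.MY + F.l.b * a) -
      (S.nR * F.l.r1 + (S.nR : ℝ) ^ 2 * F.l.r2 + F.l.r0) + v.la + (S.nL : ℝ) ^ 2 * (v.la * a) -
      (S.nL * v.g1 + (S.nL : ℝ) ^ 2 * v.g2) - v.g0 - v.ke) +
    ((F.pN S).al * (x.y + (sA * p.y + sB * q.y)) - F.l.al * a * (sA * p.y + sB * q.y) -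
      2 * (v.la * a) * x.y + a ^ 2 * (v.la + F.l.al * (F.x.k1 - F.x.f1)) * x.y ^ 2) +
    (F.dU S * F.x.rU.ev ⟨1, sA, sB, x.y, p.y, q.y, x.vY, p.vY, q.vY, x.aY, p.aY, q.aY, az, a2⟩ +
      F.dR * F.x.rR.ev ⟨1, sA, sB, x.y, p.y, q.y, x.vY, p.vY, q.vY, x.aY, p.aY, q.aY, az, a2⟩) +
    (F.pcv S * (x.vY + (sA * p.vY + sB * q.vY)) + (F.pN S).lU * (x.aY + p.aY + q.aY) +
      (F.pN S).qU * (F.x.aL * x.aY ^ 2 + F.x.aA * p.aY ^ 2 + F.x.aB * q.aY ^ 2)) +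
    F.x.q.ev ![x.vU, x.aU, x.vY, x.aY] ![p.vU, p.aU, p.vY, p.aY] ![q.vU, q.aU, q.vY, q.aY] +
    (-(a * ((F.pN S).ga + 2 * S.n * (F.pN S).de)) * (eL * x.u + (eA * p.u + eB * q.u)) +
      a * (F.l.r1 - S.nL * (F.l.al * a) + 2 * (S.nR * (F.l.r2 - (F.l.MY + F.l.b * a)))) *
        (eA * p.u + eB * q.u) +
      a * (v.g1 + 2 * (S.nL * (v.g2 - v.la * a)) - S.nR * (F.l.al * a)) * (eL * x.u) +
      a ^ 2 * (a * (v.la + F.l.al * (F.x.k2 - F.x.f2)) - v.g2) * x.u ^ 2) +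
    (F.dG S * F.x.rG.ev ⟨eL, eA, eB, x.u, p.u, q.u, x.vU, p.vU, q.vU, x.aU, p.aU, q.aU, bz, b2⟩ +
      F.dQ * F.x.rQ.ev ⟨eL, eA, eB, x.u, p.u, q.u, x.vU, p.vU, q.vU, x.aU, p.aU, q.aU, bz, b2⟩ +
      (F.pN S).qy *
        F.x.rY.ev ⟨eL, eA, eB, x.u, p.u, q.u, x.vU, p.vU, q.vU, x.aU, p.aU, q.aU, bz, b2⟩) -
    F.pdv S * (q0 * (eL * x.vU + (eA * p.vU + eB * q.vU))) +
    (F.pN S).ly * F.E.xk * (Real.sqrt (x.vU ^ 2 + x.aU ^ 2) + Real.sqrt (p.vU ^ 2 + p.aU ^ 2) +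
      Real.sqrt (q.vU ^ 2 + q.aU ^ 2)) +
    (F.l.al * a ^ 2 * (F.x.e1L * x.y + F.x.e1R * (sA * p.y + sB * q.y) + F.x.e1c) +
      F.l.al * a ^ 3 * (F.x.e2L * (eL * x.u) + F.x.e2R * (eA * p.u + eB * q.u) + F.x.e2c) -
      2 * F.x.tR * (sA * p.y + sB * q.y) + F.x.cR - 2 * F.x.tQ * (eA * p.u + eB * q.u) +
      F.x.cQ) := by
  unfold C3.ev F3.cL F3.cA F3.cB F3.c0 F3.W F3.ka F3.kL F3.uR F3.kx F3.yx F3.ux F3.an F3.am
    R3.ev Y4.ev Q3.ev Q6.ev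
  simp only [rAdd, rMul, rSub, rNsm, rZsm, rZero, ht, Matrix.cons_val_zero, Matrix.cons_val_one,
    Matrix.cons_val]
  push_cast
  ring

/-- the splitting of the mixed terms -/
lemma core_id {t n nL nR al la b MU MY r1 r2 g1 g2 f1 k1 j1 f2 k2 j2 pc pal pbe pga pde
    yL U2 x G2 : ℝ} (hn : nL + nR = n) (hn2 : n ^ 2 = n) :
    pc + pal * (yL + U2) + pbe * (yL + U2) ^ 2 + pga * (n - t * (x + G2)) +
        pde * (n - t * (x + G2)) ^ 2 +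
      al * (-(t * (1 - t * yL) * U2) + t * ((nL - t * x) * (nR - t * G2))) +
      la * ((1 - t * yL) ^ 2 + t * (nL - t * x) ^ 2) +
      b * (t ^ 2 * U2 ^ 2 + t * (nR - t * G2) ^ 2) +
      (MU * (t * U2 ^ 2) + MY * (nR - t * G2) ^ 2) -
      (r1 * (nR - t * G2) + r2 * (nR - t * G2) ^ 2) -
      (g1 * (nL - t * x) + g2 * (nL - t * x) ^ 2) +
      al * t ^ 2 * (k1 * yL ^ 2 + j1 * U2 ^ 2 - (1 - 2 * f1) * (yL * U2)) +
      al * t ^ 3 * (k2 * x ^ 2 + j2 * G2 ^ 2 - (1 - 2 * f2) * (x * G2)) =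
    pc + n * (pga + pde) + al * (t * (nL * nR)) + nR ^ 2 * (MY + b * t) -
      (nR * r1 + nR ^ 2 * r2) + la + nL ^ 2 * (la * t) - (nL * g1 + nL ^ 2 * g2) +
      (pal * (yL + U2) - al * t * U2 - 2 * (la * t) * yL +
        t ^ 2 * (la + al * (k1 - f1)) * yL ^ 2) +
      (pbe + t * t * (al * f1)) * (yL + U2) ^ 2 +
      t * (MU + t * (b + al * (j1 - f1))) * U2 ^ 2 +
      (-(t * (pga + 2 * n * pde)) * (x + G2) +
        t * (r1 - nL * (al * t) + 2 * (nR * (r2 - (MY + b * t)))) * G2 +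
        t * (g1 + 2 * (nL * (g2 - la * t)) - nR * (al * t)) * x +
        t ^ 2 * (t * (la + al * (k2 - f2)) - g2) * x ^ 2) +
      t * t * (pde + t * (al * f2)) * (x + G2) ^ 2 +
      t * t * (MY - r2 + t * (b + al * (j2 - f2))) * G2 ^ 2 := by
  subst hn
  linear_combination pde * hn2

/-! ### the total inequality at a point -/

/-- the numbers of the three children for the new `U` -/
def zU3 (sA sB : ℝ) (x p q : Sn) (az a2 : ℝ) : Z3 :=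
  ⟨1, sA, sB, x.y, p.y, q.y, x.vY, p.vY, q.vY, x.aY, p.aY, q.aY, az, a2⟩

/-- the numbers of the three children for `G` -/
def zG3 (eL eA eB : ℝ) (x p q : Sn) (bz b2 : ℝ) : Z3 :=
  ⟨eL, eA, eB, x.u, p.u, q.u, x.vU, p.vU, q.vU, x.aU, p.aU, q.aU, bz, b2⟩

/-- signs of the numbers of a line at a point -/
structure F3.Sg (F : F3 ℝ) (S : F3S) : Prop where
  dU : 0 ≤ F.dU S
  dR : 0 ≤ F.dR
  dG : 0 ≤ F.dG S
  dQ : 0 ≤ F.dQ
  dv : 0 ≤ F.pdp S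
  tt : 0 ≤ F.x.ta * (F.pN S).qy - F.x.tb * F.dG S
  lU : 0 ≤ (F.pN S).lU
  qU : 0 ≤ (F.pN S).qU
  ly : 0 ≤ (F.pN S).ly
  qy : 0 ≤ (F.pN S).qy
  al : 0 ≤ F.l.al
  l1 : 0 ≤ F.x.l1
  l2 : 0 ≤ F.x.l2
  l3 : 0 ≤ F.x.l3
  l4 : 0 ≤ F.x.l4

/-- the bounds of the squares -/
structure F3.Rw (F : F3 ℝ) (zU zG : Z3) (aY : ℝ) : Prop where
  m1 : (1 - 2 * F.x.f1) * (zU.xL * zU.R) ≤ F.x.k1 * zU.xL ^ 2 + F.x.j1 * zU.R ^ 2 +
    F.x.e1L * zU.xL + F.x.e1R * zU.R + F.x.e1c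
  m2 : (1 - 2 * F.x.f2) * ((zG.tL * zG.xL) * zG.R) ≤
    F.x.k2 * (zG.tL * zG.xL) ^ 2 + F.x.j2 * zG.R ^ 2 +
    F.x.e2L * (zG.tL * zG.xL) + F.x.e2R * zG.R + F.x.e2c
  nR : 0 ≤ F.x.mR * zU.R ^ 2 - 2 * F.x.tR * zU.R + F.x.cR
  nQ : 0 ≤ F.x.mQ * zG.R ^ 2 - 2 * F.x.tQ * zG.R + F.x.cQ
  rU : zU.Z ^ 2 ≤ F.x.rU.ev zU
  rR : zU.R ^ 2 ≤ F.x.rR.ev zU
  rG : zG.Z ^ 2 ≤ F.x.rG.ev zG + F.x.tb * (zG.Z - zG.v) ^ 2
  rQ : zG.R ^ 2 ≤ F.x.rQ.ev zG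
  rY : aY ^ 2 + F.x.ta * (zG.Z - zG.v) ^ 2 ≤ F.x.rY.ev zG
  az : zU.az ^ 2 ≤ F.x.aL * zU.aL ^ 2 + F.x.aA * zU.aA ^ 2 + F.x.aB * zU.aB ^ 2

/-- **the total inequality at a point** -/
theorem tot3 (hg : F.Sg S) (ht : F.E.t = a) (ha : 0 ≤ a) (hn : S.nL + S.nR = (S.n : ℤ))
    (hn1 : S.n ≤ 1) {sA sB eL eA eB : ℝ} (x p q : Sn) {az a2 bz b2 aYn : ℝ} {w : Sn}
    (heL : eL ^ 2 = 1)
    (hr : F.Rw (zU3 sA sB x p q az a2) (zG3 eL eA eB x p q bz b2) aYn)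
    (h1 : w.u = x.y + (sA * p.y + sB * q.y)) (h2 : w.vU = x.vY + (sA * p.vY + sB * q.vY))
    (h3 : w.y = S.n - a * (eL * x.u + (eA * p.u + eB * q.u)))
    (h4 : w.vY = S.n - q0 * (eL * x.vU + (eA * p.vU + eB * q.vU)))
    (h5 : w.aU = az) (h6 : w.aY = aYn) (hw0 : 0 ≤ w.vU) (hw2 : w.vU ≤ F.x.uh)
    (hlo : F.x.yl ≤ w.vY) (hhi : w.vY ≤ F.x.yh)
    (haz : az ≤ x.aY + p.aY + q.aY)
    (hay : aYn ≤ F.E.xk * (Real.sqrt (x.vU ^ 2 + x.aU ^ 2) + Real.sqrt (p.vU ^ 2 + p.aU ^ 2) +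
      Real.sqrt (q.vU ^ 2 + q.aU ^ 2)))
    (hq : 0 ≤ F.x.q.ev ![x.vU, x.aU, x.vY, x.aY] ![p.vU, p.aU, p.vY, p.aY]
      ![q.vU, q.aU, q.vY, q.aY]) :
    (F.pN S).ns.ev w + F.l.al * (-(a * (1 - a * x.y) * (sA * p.y + sB * q.y)) +
        a * ((S.nL - a * (eL * x.u)) * (S.nR - a * (eA * p.u + eB * q.u)))) +
      v.la * ((1 - a * x.y) ^ 2 + a * (S.nL - a * (eL * x.u)) ^ 2) +
      F.l.b * (a ^ 2 * (sA * p.y + sB * q.y) ^ 2 +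
        a * (S.nR - a * (eA * p.u + eB * q.u)) ^ 2) +
      (F.l.MU * (a * (sA * p.y + sB * q.y) ^ 2) +
        F.l.MY * (S.nR - a * (eA * p.u + eB * q.u)) ^ 2) -
      (F.l.r0 + F.l.r1 * (S.nR - a * (eA * p.u + eB * q.u)) +
        F.l.r2 * (S.nR - a * (eA * p.u + eB * q.u)) ^ 2) -
      (v.g0 + v.g1 * (S.nL - a * (eL * x.u)) + v.g2 * (S.nL - a * (eL * x.u)) ^ 2) - v.ke ≤
    (F.cL S v).ev (F.W S F.x.rG.L F.x.rQ.L F.x.rY.L) 1 eL x +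
      (F.cA S).ev (F.W S F.x.rG.A F.x.rQ.A F.x.rY.A) sA eA p +
      (F.cB S).ev (F.W S F.x.rG.B F.x.rQ.B F.x.rY.B) sB eB q + F.ka S + F.kL S v := by
  rw [sum_ev (v := v) ht sA sB eL eA eB x p q az a2 bz b2]
  have hnr : (S.nL : ℝ) + S.nR = S.n := by exact_mod_cast hn
  have hn2 : (S.n : ℝ) ^ 2 = S.n := by
    rcases Nat.le_one_iff_eq_zero_or_eq_one.1 hn1 with h | h <;> rw [h] <;> norm_num
  have core := core_id (t := a) (al := F.l.al) (la := v.la) (b := F.l.b) (MU := F.l.MU)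
    (MY := F.l.MY) (r1 := F.l.r1) (r2 := F.l.r2) (g1 := v.g1) (g2 := v.g2) (f1 := F.x.f1)
    (k1 := F.x.k1) (j1 := F.x.j1) (f2 := F.x.f2) (k2 := F.x.k2) (j2 := F.x.j2)
    (pc := (F.pN S).c) (pal := (F.pN S).al) (pbe := (F.pN S).be) (pga := (F.pN S).ga)
    (pde := (F.pN S).de) (yL := x.y) (U2 := sA * p.y + sB * q.y) (x := eL * x.u)
    (G2 := eA * p.u + eB * q.u) hnr hn2
  obtain ⟨m1, m2, nR, nQ, rU, rR, rG, rQ, rY, rz⟩ := hr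
  have e1 : (zU3 sA sB x p q az a2).R = sA * p.y + sB * q.y := rfl
  have e2 : (zG3 eL eA eB x p q bz b2).R = eA * p.u + eB * q.u := rfl
  have e3 : (zU3 sA sB x p q az a2).Z = x.y + (sA * p.y + sB * q.y) := by
    show 1 * x.y + (sA * p.y + sB * q.y) = _
    rw [one_mul]
  have e4 : (zG3 eL eA eB x p q bz b2).Z = eL * x.u + (eA * p.u + eB * q.u) := rfl
  rw [e1] at m1 rR nR
  rw [e2] at m2 rQ nQ
  rw [e3] at rU
  rw [e4] at rG rY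
  have e5 : (zU3 sA sB x p q az a2).xL = x.y := rfl
  have e6 : (zG3 eL eA eB x p q bz b2).tL * (zG3 eL eA eB x p q bz b2).xL = eL * x.u := rfl
  rw [e5] at m1
  rw [e6] at m2
  have e7 : (zU3 sA sB x p q az a2).az = az := rfl
  have e8 : (zU3 sA sB x p q az a2).aL = x.aY := rfl
  have e9 : (zU3 sA sB x p q az a2).aA = p.aY := rfl
  have e10 : (zU3 sA sB x p q az a2).aB = q.aY := rfl
  rw [e7, e8, e9, e10] at rz
  have e11 : zU3 sA sB x p q az a2 =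
    ⟨1, sA, sB, x.y, p.y, q.y, x.vY, p.vY, q.vY, x.aY, p.aY, q.aY, az, a2⟩ := rfl
  have e12 : zG3 eL eA eB x p q bz b2 =
    ⟨eL, eA, eB, x.u, p.u, q.u, x.vU, p.vU, q.vU, x.aU, p.aU, q.aU, bz, b2⟩ := rfl
  rw [← e11, ← e12]
  have hA : 0 ≤ F.l.al * a ^ 2 := mul_nonneg hg.al (sq_nonneg a)
  have hB : 0 ≤ F.l.al * a ^ 3 := mul_nonneg hg.al (pow_nonneg ha 3)
  have b1 := mul_nonneg hA (sub_nonneg.2 m1)
  have b2' := mul_nonneg hB (sub_nonneg.2 m2)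
  have b3 := mul_le_mul_of_nonneg_left rU hg.dU
  have b4 := mul_le_mul_of_nonneg_left rR hg.dR
  have b5 := mul_le_mul_of_nonneg_left rG hg.dG
  have b6 := mul_le_mul_of_nonneg_left rQ hg.dQ
  have b7 := mul_le_mul_of_nonneg_left rY hg.qy
  have b8 := mul_nonneg hg.tt (sq_nonneg (eL * x.u + (eA * p.u + eB * q.u) -
    (zG3 eL eA eB x p q bz b2).v))
  have b9 := mul_le_mul_of_nonneg_left rz hg.qU
  have b10 := mul_le_mul_of_nonneg_left haz hg.lU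
  have b11 := mul_le_mul_of_nonneg_left hay hg.ly
  have b12 := mul_nonneg hg.l1 (sub_nonneg.2 hw2)
  have b13 := mul_nonneg hg.l2 hw0
  have b14 := mul_nonneg hg.l3 (sub_nonneg.2 hhi)
  have b15 := mul_nonneg hg.l4 (sub_nonneg.2 hlo)
  have ev : (F.pN S).ns.ev w = (F.pN S).c + (F.pN S).al * (x.y + (sA * p.y + sB * q.y)) +
      (F.pN S).be * (x.y + (sA * p.y + sB * q.y)) ^ 2 +
      (F.pN S).ga * (S.n - a * (eL * x.u + (eA * p.u + eB * q.u))) +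
      (F.pN S).de * (S.n - a * (eL * x.u + (eA * p.u + eB * q.u))) ^ 2 +
      (F.pN S).cv * w.vU + (F.pN S).dv * w.vY + (F.pN S).lU * az + (F.pN S).qU * az ^ 2 +
      (F.pN S).ly * aYn + (F.pN S).qy * aYn ^ 2 := by
    unfold NS.ev NA.ns
    dsimp only
    rw [h1, h3, h5, h6]
    ring
  have eU : F.dU S = (F.pN S).be + a * a * (F.l.al * F.x.f1) := by
    unfold F3.dU
    simp only [rAdd, rMul, ht]
  have eR : F.dR - F.x.mR = a * (F.l.MU + a * (F.l.b + F.l.al * (F.x.j1 - F.x.f1))) := by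
    unfold F3.dR
    simp only [rAdd, rMul, rSub, ht]
    ring
  have eG : F.dG S = a * a * ((F.pN S).de + a * (F.l.al * F.x.f2)) := by
    unfold F3.dG
    simp only [rAdd, rMul, ht]
  have eQ : F.dQ - F.x.mQ =
      a * a * (F.l.MY - F.l.r2 + a * (F.l.b + F.l.al * (F.x.j2 - F.x.f2))) := by
    unfold F3.dQ
    simp only [rAdd, rMul, rSub, ht]
    ring
  have ec : F.pcv S = (F.pN S).cv + (F.x.l2 - F.x.l1) := by
    unfold F3.pcv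
    simp only [rAdd, rSub]
  have ed : F.pdv S = (F.pN S).dv + (F.x.l4 - F.x.l3) := by
    unfold F3.pdv
    simp only [rAdd, rSub]
  rw [← eU, ← eR, ← eG, ← eQ] at core
  have pv : F.pcv S * w.vU = (F.pN S).cv * w.vU + F.x.l2 * w.vU - F.x.l1 * w.vU := by
    rw [ec]
    ring
  have pw : F.pdv S * w.vY = (F.pN S).dv * w.vY + F.x.l4 * w.vY - F.x.l3 * w.vY := by
    rw [ed]
    ring
  have pw2 : F.pdv S * w.vY = F.pdv S * S.n -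
      F.pdv S * (q0 * (eL * x.vU + (eA * p.vU + eB * q.vU))) := by
    rw [h4]
    ring
  have hx2 : a ^ 2 * (a * (v.la + F.l.al * (F.x.k2 - F.x.f2)) - v.g2) * (eL * x.u) ^ 2 =
      a ^ 2 * (a * (v.la + F.l.al * (F.x.k2 - F.x.f2)) - v.g2) * x.u ^ 2 := by
    rw [mul_pow, heL, one_mul]
  rw [hx2] at core
  rw [← h2, ev]
  linarith

end Pool.Agent.TSG
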