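import Pool.Agent.TSG.FamLL
import Pool.Agent.TSM.Cre

set_option autoImplicit false

/-!
# Bounds of the square of a sum of three terms (MP_d27362_co)

`Z = tL xL + tA xA + tB xB` with signs `tL`, `tA`, `tB`, the value is `tL vL + tA vA + tB vB` and the
deviation is measured by seminorms.
-/

namespace Pool.Agent.TSG

open Pool.Agent.TSC

/-! ### real inequalities -/

/-- the inequality of Cauchy for three terms -/
lemma cau3 {a b c k x y z : ℝ} (ha : 0 < a) (hb : 0 < b) (hc : 0 < c)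
    (h : k * (a * b + b * c + c * a) ≤ a * b * c) :
    k * (x + y + z) ^ 2 ≤ a * x ^ 2 + b * y ^ 2 + c * z ^ 2 := by
  have h1 : a * b * c * (x + y + z) ^ 2 ≤
      (a * b + b * c + c * a) * (a * x ^ 2 + b * y ^ 2 + c * z ^ 2) := by
    have e : (a * b + b * c + c * a) * (a * x ^ 2 + b * y ^ 2 + c * z ^ 2) -
        a * b * c * (x + y + z) ^ 2 =
        c * (a * x - b * y) ^ 2 + a * (b * y - c * z) ^ 2 + b * (a * x - c * z) ^ 2 := by ring
    have : 0 ≤ c * (a * x - b * y) ^ 2 + a * (b * y - c * z) ^ 2 + b * (a * x - c * z) ^ 2 := by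
      positivity
    linarith
  have hQ : 0 ≤ a * x ^ 2 + b * y ^ 2 + c * z ^ 2 := by positivity
  have habc : 0 < a * b * c := by positivity
  have hs : 0 < a * b + b * c + c * a := by positivity
  rcases le_or_gt k 0 with hk | hk
  · have := mul_nonneg (neg_nonneg.2 hk) (sq_nonneg (x + y + z))
    linarith
  · have h2 := mul_le_mul_of_nonneg_left h1 hk.le
    have h3 := mul_le_mul_of_nonneg_right h hQ
    have h4 : a * b * c * (k * (x + y + z) ^ 2) ≤
        a * b * c * (a * x ^ 2 + b * y ^ 2 + c * z ^ 2) := by linarith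
    exact le_of_mul_le_mul_left h4 habc

/-- the inequality of Cauchy for two terms -/
lemma cau2 {a b k x y : ℝ} (ha : 0 < a) (hb : 0 < b) (h : k * (a + b) ≤ a * b) :
    k * (x + y) ^ 2 ≤ a * x ^ 2 + b * y ^ 2 := by
  have h1 : a * b * (x + y) ^ 2 ≤ (a + b) * (a * x ^ 2 + b * y ^ 2) := by
    have e : (a + b) * (a * x ^ 2 + b * y ^ 2) - a * b * (x + y) ^ 2 = (a * x - b * y) ^ 2 := by
      ring
    have := sq_nonneg (a * x - b * y)
    linarith
  have hQ : 0 ≤ a * x ^ 2 + b * y ^ 2 := by positivity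
  have hab : 0 < a * b := by positivity
  rcases le_or_gt k 0 with hk | hk
  · have := mul_nonneg (neg_nonneg.2 hk) (sq_nonneg (x + y))
    linarith
  · have h2 := mul_le_mul_of_nonneg_left h1 hk.le
    have h3 := mul_le_mul_of_nonneg_right h hQ
    have h4 : a * b * (k * (x + y) ^ 2) ≤ a * b * (a * x ^ 2 + b * y ^ 2) := by linarith
    exact le_of_mul_le_mul_left h4 hab

/-! ### the case -/

/-- what is known about the sum of three terms -/
structure CS where
  /-- the third child exists -/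
  M3 : Bool
  /-- the sign of the value, `0` if it is not known -/
  gs : ℤ
  /-- upper bound of the modulus of the value -/
  hz : Dec
  /-- the modulus of the value is at most the value of `L` -/
  zl : Bool
  /-- the modulus of the value is at most that of the rest -/
  zd : Bool
  /-- the sign of the value of the rest, `0` if it is not known -/
  ds : ℤ
  /-- upper bound of the modulus of the value of the rest -/
  hd : Dec
  /-- the modulus of the value of the rest is at most the value of `L` -/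
  dl : Bool
  /-- the signs of the rest are opposite: `1` if `A` is larger, `2` if `B` is larger -/
  od : ℕ
  /-- there is a bound of the seminorm with the weights `fL`, `fA`, `fB` -/
  fl : Bool
  /-- see `fl` -/
  fL : Dec
  /-- see `fl` -/
  fA : Dec
  /-- see `fl` -/
  fB : Dec
  /-- the square of the value is at most `fv` times the sum of the squares of the values; `0` if
  this is not known -/
  fv : Dec

/-- the numbers of a sum of three terms -/
structure Z3 where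
  /-- sign -/
  tL : ℝ
  /-- sign -/
  tA : ℝ
  /-- sign -/
  tB : ℝ
  /-- term -/
  xL : ℝ
  /-- term -/
  xA : ℝ
  /-- term -/
  xB : ℝ
  /-- value -/
  vL : ℝ
  /-- value -/
  vA : ℝ
  /-- value -/
  vB : ℝ
  /-- seminorm -/
  aL : ℝ
  /-- seminorm -/
  aA : ℝ
  /-- seminorm -/
  aB : ℝ
  /-- seminorm of the sum -/
  az : ℝ
  /-- seminorm of the rest -/
  a2 : ℝ

/-- the sum -/
def Z3.Z (z : Z3) : ℝ := z.tL * z.xL + (z.tA * z.xA + z.tB * z.xB)

/-- the rest -/
def Z3.R (z : Z3) : ℝ := z.tA * z.xA + z.tB * z.xB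

/-- the value -/
def Z3.v (z : Z3) : ℝ := z.tL * z.vL + (z.tA * z.vA + z.tB * z.vB)

/-- the value of the rest -/
def Z3.w (z : Z3) : ℝ := z.tA * z.vA + z.tB * z.vB

/-- the case holds -/
structure CS.Ok (k : CS) (θ : ℝ) (z : Z3) : Prop where
  tL : z.tL ^ 2 = 1
  tA : z.tA ^ 2 = 1
  tB : z.tB ^ 2 = 1
  vL : 0 ≤ z.vL
  vA : 0 ≤ z.vA
  vB : 0 ≤ z.vB
  aL : 0 ≤ z.aL
  aA : 0 ≤ z.aA
  aB : 0 ≤ z.aB
  nL : |z.xL - z.vL| ≤ θ * z.aL
  nA : |z.xA - z.vA| ≤ θ * z.aA
  nB : |z.xB - z.vB| ≤ θ * z.aB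
  nz : |z.Z - z.v| ≤ θ * z.az
  n2 : |z.R - z.w| ≤ θ * z.a2
  az0 : 0 ≤ z.az
  a20 : 0 ≤ z.a2
  az1 : z.az ≤ z.aL + z.aA + z.aB
  a21 : z.a2 ≤ z.aA + z.aB
  hM : k.M3 = false → z.xB = 0 ∧ z.vB = 0 ∧ z.aB = 0
  hz : |z.v| ≤ k.hz.val
  gs : k.gs ≠ 0 → |z.v| = k.gs * z.v
  zl : k.zl = true → |z.v| ≤ z.vL
  zd : k.zd = true → |z.v| ≤ |z.w|
  hd : |z.w| ≤ k.hd.val
  ds : k.ds ≠ 0 → |z.w| = k.ds * z.w
  dl : k.dl = true → |z.w| ≤ z.vL
  od1 : k.od = 1 → z.w ^ 2 ≤ z.vA ^ 2 - z.vB ^ 2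
  od2 : k.od = 2 → z.w ^ 2 ≤ z.vB ^ 2 - z.vA ^ 2
  fl : k.fl = true →
    z.az ^ 2 ≤ k.fL.val * z.aL ^ 2 + k.fA.val * z.aA ^ 2 + k.fB.val * z.aB ^ 2
  fv : 0 < k.fv.val → z.v ^ 2 ≤ k.fv.val * (z.vL ^ 2 + z.vA ^ 2 + z.vB ^ 2)

/-- the numbers of a bound of a value and a seminorm -/
structure PV where
  /-- linear bound of the square of the value -/
  o1 : Dec
  /-- bound by the value of `L` -/
  o2 : Dec
  /-- constant bound -/
  o3 : Dec
  /-- bound by the value of `L` and of the rest -/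
  o4 : Dec
  /-- weight of the value of `L` -/
  kL : Dec
  /-- weight of the value of the rest -/
  kP : Dec
  /-- bound by the sum of the squares -/
  o5 : Dec
  /-- bound by the value of the rest -/
  o6 : Dec
  /-- difference of the squares -/
  r1 : Dec
  /-- linear bound of the square of the value of the rest -/
  r2 : Dec
  /-- bound by the value of `L` -/
  r3 : Dec
  /-- constant bound -/
  r4 : Dec
  /-- weight -/
  cA : Dec
  /-- weight -/
  cB : Dec
  /-- bound by these weights -/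
  r5 : Dec
  /-- seminorm, known weights -/
  f1 : Dec
  /-- seminorm, weight -/
  bL : Dec
  /-- seminorm, weight -/
  bA : Dec
  /-- seminorm, weight -/
  bB : Dec
  /-- term and value of `A` -/
  nA : Dec
  /-- see `nA` -/
  pA : Dec
  /-- see `nA` -/
  qA : Dec
  /-- term and value of `B` -/
  nB : Dec
  /-- see `nB` -/
  pB : Dec
  /-- see `nB` -/
  qB : Dec

/-- the numbers of a bound of a square -/
structure PR where
  /-- weight -/
  xL : Dec
  /-- weight -/
  xA : Dec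
  /-- weight -/
  xB : Dec
  /-- the part which is bounded by value and seminorm -/
  be : Dec
  /-- factor of the value -/
  r : Dec
  /-- factor of the deviation -/
  s : Dec
  /-- value and seminorm -/
  v : PV
  /-- center of the signed term -/
  cL : Dec
  /-- center of the signed term -/
  cA : Dec
  /-- center of the signed term -/
  cB : Dec

/-- the coefficients of one child in a bound of a square -/
structure Y4 (α : Type) where
  /-- square of the term -/
  x2 : α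
  /-- signed term -/
  x1 : α
  /-- signed value -/
  ws : α
  /-- square of the value -/
  w2 : α
  /-- square of the seminorm -/
  b2 : α

/-- a bound of a square -/
structure R3 (α : Type) where
  /-- constant -/
  c : α
  /-- child -/
  L : Y4 α
  /-- child -/
  A : Y4 α
  /-- child -/
  B : Y4 α

/-- apply a function to the coefficients -/
def Y4.map {α β : Type} (f : α → β) (x : Y4 α) : Y4 β :=
  ⟨f x.x2, f x.x1, f x.ws, f x.w2, f x.b2⟩

/-- apply a function to the coefficients -/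
def R3.map {α β : Type} (f : α → β) (x : R3 α) : R3 β := ⟨f x.c, x.L.map f, x.A.map f, x.B.map f⟩

/-- the value of the coefficients -/
def Y4.ev (y : Y4 ℝ) (t x v a : ℝ) : ℝ :=
  y.x2 * x ^ 2 + y.x1 * (t * x) + y.ws * (t * v) + y.w2 * v ^ 2 + y.b2 * a ^ 2

/-- the value of the bound -/
def R3.ev (r : R3 ℝ) (z : Z3) : ℝ :=
  r.c + r.L.ev z.tL z.xL z.vL z.aL + r.A.ev z.tA z.xA z.vA z.aA + r.B.ev z.tB z.xB z.vB z.aB

open Dec (nn ps sub add mul nsm one zero neg)

/-- the signed multiple -/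
def zs (k : ℤ) (x : Dec) : Dec := if k = 1 then x else if k = -1 then neg x else zero

/-- the coefficient of the square of the value of the rest is distributed -/
def wOk (k : CS) (p : PV) (q : Dec) : Bool :=
  nn p.r1 && (nn p.r2 && (nn p.r3 && (nn p.r4 && (nn p.r5 &&
  (nn (sub (add (add (add p.r1 p.r2) (add p.r3 p.r4)) p.r5) q) &&
  ((!(ps p.r1) || (Nat.beq k.od 1 || Nat.beq k.od 2)) && ((!(ps p.r2) || !(k.ds == 0)) &&
  ((!(ps p.r3) || k.dl) && (nn p.cA && (nn p.cB && (!(ps p.r5) ||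
    (ps p.cA && (ps p.cB && nn (sub (mul p.cA p.cB) (mul p.r5 (add p.cA p.cB))))))))))))))))

/-- the test of the near inequalities -/
def nOk (p : PV) : Bool :=
  nn p.nA && (ps (sub p.pA one) && (nn (sub (mul (sub p.pA one) (sub p.qA one)) one) &&
  (nn p.nB && (ps (sub p.pB one) && nn (sub (mul (sub p.pB one) (sub p.qB one)) one)))))

/-- the sign of the difference of the squares -/
def odz (k : CS) (x : Dec) : Dec :=
  if k.od = 1 then x else if k.od = 2 then neg x else zero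

/-- the test of weights for three or two terms; `q` is the part -/
def c3Ok (M3 : Bool) (q a b c : Dec) : Bool :=
  nn a && (nn b && (nn c && (!(ps q) || (ps a && (ps b &&
    (if M3 then ps c && nn (sub (mul (mul a b) c) (mul q (add (add (mul a b) (mul b c)) (mul c a))))
      else nn (sub (mul a b) (mul q (add a b)))))))))

/-- the test of weights for two terms or one term; `q` is the part -/
def c2Ok (M3 : Bool) (q b c : Dec) : Bool :=
  nn b && (nn c && (!(ps q) || (ps b &&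
    (if M3 then ps c && nn (sub (mul b c) (mul q (add b c))) else nn (sub b q)))))

/-- the bound of value and seminorm of the sum -/
def vaR (k : CS) (th : Dec) (p : PV) : R3 Dec where
  c := add (mul p.o3 (mul k.hz k.hz)) (mul p.r4 (mul k.hd k.hd))
  L := ⟨zero, zero, zs k.gs (mul p.o1 k.hz), add (add p.o2 p.kL) (add (mul p.o5 k.fv) p.r3),
    add (mul p.f1 k.fL) p.bL⟩
  A := ⟨neg p.nA, zero, add (zs k.gs (mul p.o1 k.hz)) (zs k.ds (mul p.r2 k.hd)),
    add (add (mul p.o5 k.fv) (odz k p.r1)) (add p.cA (mul p.nA p.pA)),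
    add (add (mul p.f1 k.fA) p.bA) (mul p.nA (mul p.qA (mul th th)))⟩
  B := ⟨neg p.nB, zero, add (zs k.gs (mul p.o1 k.hz)) (zs k.ds (mul p.r2 k.hd)),
    add (sub (mul p.o5 k.fv) (odz k p.r1)) (add p.cB (mul p.nB p.pB)),
    add (add (mul p.f1 k.fB) p.bB) (mul p.nB (mul p.qB (mul th th)))⟩

/-- the test of the numbers; `qv`, `qa` are the factors of the squares -/
def vaOk (k : CS) (p : PV) (qv qa : Dec) : Bool :=
  nn p.o1 && (nn p.o2 && (nn p.o3 && (nn p.o4 && (nn p.o5 && (nn p.o6 && (nn p.kL && (nn p.kP &&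
  (nn (sub (add (add (add p.o1 p.o2) (add p.o3 p.o4)) (add p.o5 p.o6)) qv) &&
  ((!(ps p.o1) || !(k.gs == 0)) && ((!(ps p.o2) || k.zl) && ((!(ps p.o6) || k.zd) &&
  ((!(ps p.o5) || ps k.fv) &&
  ((!(ps p.o4) || (ps p.kL && (ps p.kP && nn (sub (mul p.kL p.kP) (mul p.o4 (add p.kL p.kP)))))) &&
  (wOk k p (add p.kP p.o6) && (nn p.f1 && ((!(ps p.f1) || k.fl) &&
  (c3Ok k.M3 (sub qa p.f1) p.bL p.bA p.bB && nOk p)))))))))))))))))

/-- the bound of value and seminorm of the rest -/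
def vwR (k : CS) (th : Dec) (p : PV) : R3 Dec where
  c := mul p.r4 (mul k.hd k.hd)
  L := ⟨zero, zero, zero, p.r3, zero⟩
  A := ⟨neg p.nA, zero, zs k.ds (mul p.r2 k.hd), add (odz k p.r1) (add p.cA (mul p.nA p.pA)),
    add p.bA (mul p.nA (mul p.qA (mul th th)))⟩
  B := ⟨neg p.nB, zero, zs k.ds (mul p.r2 k.hd), add (neg (odz k p.r1)) (add p.cB (mul p.nB p.pB)),
    add p.bB (mul p.nB (mul p.qB (mul th th)))⟩

/-- the test of the numbers for the rest -/
def vwOk (k : CS) (p : PV) (qv qa : Dec) : Bool :=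
  wOk k p qv && (c2Ok k.M3 qa p.bA p.bB && nOk p)

/-- add multiples of the squares of the terms -/
def R3.ax (r : R3 Dec) (xL xA xB : Dec) : R3 Dec :=
  ⟨r.c, { r.L with x2 := add r.L.x2 xL }, { r.A with x2 := add r.A.x2 xA },
    { r.B with x2 := add r.B.x2 xB }⟩

/-- the linear part for a center -/
def cLin (g C w c : Dec) : Dec := nsm 2 (sub (mul g C) (mul w c))

/-- add the parts for the centers `cL`, `cA`, `cB`; `gL` is `g` or zero -/
def R3.cn (r : R3 Dec) (gL g xL xA xB cL cA cB : Dec) : R3 Dec :=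
  ⟨add r.c (sub (add (mul xL (mul cL cL)) (add (mul xA (mul cA cA)) (mul xB (mul cB cB))))
      (mul g (mul (add cL (add cA cB)) (add cL (add cA cB))))),
    { r.L with x1 := cLin gL (add cL (add cA cB)) xL cL },
    { r.A with x1 := cLin g (add cL (add cA cB)) xA cA },
    { r.B with x1 := cLin g (add cL (add cA cB)) xB cB }⟩

/-- the center of the third child -/
def PR.eB (k : CS) (p : PR) : Dec := if k.M3 then p.cB else zero

/-- the bound of the square of the sum -/
def rowZ (k : CS) (th : Dec) (p : PR) : R3 Dec :=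
  ((vaR k th p.v).ax p.xL p.xA p.xB).cn (sub one p.be) (sub one p.be) p.xL p.xA p.xB p.cL p.cA
    (p.eB k)

/-- the test of the numbers for the square of the sum; `t4`: the deviation is paid elsewhere -/
def zOk (t4 : Bool) (k : CS) (th : Dec) (p : PR) : Bool :=
  nn p.be && (nn (sub one p.be) && (c3Ok k.M3 (sub one p.be) p.xL p.xA p.xB &&
  (ps (sub p.r one) && (nn (sub (mul (sub p.r one) (sub p.s one)) one) &&
  vaOk k p.v (mul p.be p.r) (if t4 then zero else mul p.be (mul p.s (mul th th)))))))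

/-- the bound of the square of the rest -/
def rowR (k : CS) (th : Dec) (p : PR) : R3 Dec :=
  ((vwR k th p.v).ax zero p.xA p.xB).cn zero (sub one p.be) zero p.xA p.xB zero p.cA (p.eB k)

/-- the test of the numbers for the square of the rest -/
def rOk (k : CS) (th : Dec) (p : PR) : Bool :=
  nn p.be && (nn (sub one p.be) && (c2Ok k.M3 (sub one p.be) p.xA p.xB &&
  (ps (sub p.r one) && (nn (sub (mul (sub p.r one) (sub p.s one)) one) &&
  vwOk k p.v (mul p.be p.r) (mul p.be (mul p.s (mul th th)))))))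

lemma nps {x : Dec} (h : ps x = false) : x.val ≤ 0 := by
  unfold ps at h
  have h1 : x.p ≤ x.n := by
    by_contra h2
    push Not at h2
    have h3 : Nat.ble (Nat.succ x.n) x.p = true := by
      rw [Nat.ble_eq]
      exact h2
    rw [h] at h3
    exact Bool.false_ne_true h3
  unfold Dec.val
  have h2 : (x.p : ℝ) ≤ x.n := by exact_mod_cast h1
  exact div_nonpos_of_nonpos_of_nonneg (by linarith) (by positivity)

lemma zor {x : Dec} {c : Bool} (h : (!(ps x) || c) = true) : x.val ≤ 0 ∨ c = true := by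
  rcases hx : ps x with _ | _
  · exact Or.inl (nps hx)
  · rw [hx] at h
    simp only [Bool.not_true, Bool.false_or] at h
    exact Or.inr h

lemma zs_val (k : ℤ) (x : Dec) (h : k = 1 ∨ k = -1 ∨ k = 0) : (zs k x).val = k * x.val := by
  unfold zs
  rcases h with rfl | rfl | rfl
  · simp
  · norm_num [Dec.val_neg]
  · norm_num [Dec.val_zero]

variable {k : CS} {θ : ℝ} {z : Z3}

/-- weights for three or two terms -/
lemma c3_le {M3 : Bool} {q a b c : Dec} (h : c3Ok M3 q a b c = true) (x y w : ℝ)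
    (hM : M3 = false → w = 0) :
    q.val * (x + y + w) ^ 2 ≤ a.val * x ^ 2 + b.val * y ^ 2 + c.val * w ^ 2 ∧
      0 ≤ a.val ∧ 0 ≤ b.val ∧ 0 ≤ c.val := by
  simp only [c3Ok, Bool.and_eq_true] at h
  obtain ⟨h1, h2, h3, h4⟩ := h
  have e1 := Dec.nn_iff h1
  have e2 := Dec.nn_iff h2
  have e3 := Dec.nn_iff h3
  refine ⟨?_, e1, e2, e3⟩
  rcases zor h4 with h5 | h5
  · have h6 := mul_nonneg (neg_nonneg.2 h5) (sq_nonneg (x + y + w))
    have h7 := mul_nonneg e1 (sq_nonneg x)
    have h8 := mul_nonneg e2 (sq_nonneg y)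
    have h9 := mul_nonneg e3 (sq_nonneg w)
    linarith
  · cases M3
    · simp only [Bool.and_eq_true, Bool.false_eq_true, if_false] at h5
      obtain ⟨g1, g2, g3⟩ := h5
      have g3 := Dec.nn_iff g3
      simp only [Dec.val_sub, Dec.val_mul, Dec.val_add] at g3
      have := cau2 (x := x) (y := y) (Dec.ps_iff g1) (Dec.ps_iff g2)
        (show q.val * (a.val + b.val) ≤ a.val * b.val by linarith)
      rw [hM rfl]
      have e : q.val * (x + y + 0) ^ 2 = q.val * (x + y) ^ 2 := by ring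
      rw [e]
      linarith
    · simp only [Bool.and_eq_true, if_true] at h5
      obtain ⟨g1, g2, g3, g4⟩ := h5
      have g4 := Dec.nn_iff g4
      simp only [Dec.val_sub, Dec.val_mul, Dec.val_add] at g4
      exact cau3 (Dec.ps_iff g1) (Dec.ps_iff g2) (Dec.ps_iff g3) (by linarith)

/-- weights for two terms or one term -/
lemma c2_le {M3 : Bool} {q b c : Dec} (h : c2Ok M3 q b c = true) (y w : ℝ)
    (hM : M3 = false → w = 0) :
    q.val * (y + w) ^ 2 ≤ b.val * y ^ 2 + c.val * w ^ 2 ∧ 0 ≤ b.val ∧ 0 ≤ c.val := by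
  simp only [c2Ok, Bool.and_eq_true] at h
  obtain ⟨h2, h3, h4⟩ := h
  have e2 := Dec.nn_iff h2
  have e3 := Dec.nn_iff h3
  refine ⟨?_, e2, e3⟩
  rcases zor h4 with h5 | h5
  · have h6 := mul_nonneg (neg_nonneg.2 h5) (sq_nonneg (y + w))
    have h8 := mul_nonneg e2 (sq_nonneg y)
    have h9 := mul_nonneg e3 (sq_nonneg w)
    linarith
  · cases M3
    · simp only [Bool.and_eq_true, Bool.false_eq_true, if_false] at h5
      obtain ⟨g2, g3⟩ := h5
      have g3 := Dec.nn_iff g3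
      simp only [Dec.val_sub] at g3
      rw [hM rfl]
      have := mul_le_mul_of_nonneg_right (show q.val ≤ b.val by linarith) (sq_nonneg y)
      have e : q.val * (y + 0) ^ 2 = q.val * y ^ 2 := by ring
      rw [e]
      linarith
    · simp only [Bool.and_eq_true, if_true] at h5
      obtain ⟨g2, g3, g4⟩ := h5
      have g4 := Dec.nn_iff g4
      simp only [Dec.val_sub, Dec.val_mul, Dec.val_add] at g4
      exact cau2 (Dec.ps_iff g2) (Dec.ps_iff g3) (by linarith)

/-- the sign with its value -/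
lemma odz_val (k : CS) (x : Dec) : (odz k x).val = (if k.od = 1 then 1 else if k.od = 2 then -1
    else 0) * x.val := by
  unfold odz
  split_ifs
  · ring
  · rw [Dec.val_neg]
    ring
  · rw [Dec.val_zero]
    ring

/-- the square of the value of the rest -/
lemma w_le (hk : k.Ok θ z) {p : PV} {q : Dec}
    (h : wOk k p q = true) :
    q.val * z.w ^ 2 ≤ p.r4.val * (k.hd.val * k.hd.val) + p.r3.val * z.vL ^ 2 +
      (k.ds * (p.r2.val * k.hd.val)) * z.w + (odz k p.r1).val * (z.vA ^ 2 - z.vB ^ 2) +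
      p.cA.val * z.vA ^ 2 + p.cB.val * z.vB ^ 2 := by
  simp only [wOk, Bool.and_eq_true] at h
  obtain ⟨h1, h2, h3, h4, h5, h6, h7, h8, h9, hA, hB, h10⟩ := h
  have e1 := Dec.nn_iff h1
  have e2 := Dec.nn_iff h2
  have e3 := Dec.nn_iff h3
  have e4 := Dec.nn_iff h4
  have e5 := Dec.nn_iff h5
  have e6 := Dec.nn_iff h6
  have eA := Dec.nn_iff hA
  have eB := Dec.nn_iff hB
  simp only [Dec.val_sub, Dec.val_add] at e6
  have hw := hk.hd
  have habs := abs_nonneg z.w
  have hsq : z.w ^ 2 = |z.w| ^ 2 := (sq_abs _).symm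
  have hhd : 0 ≤ k.hd.val := habs.trans hw
  -- the five bounds
  have b1 : p.r1.val * z.w ^ 2 ≤ (odz k p.r1).val * (z.vA ^ 2 - z.vB ^ 2) := by
    rcases zor h7 with h | h
    · have h0 : p.r1.val = 0 := le_antisymm h e1
      rw [odz_val, h0]
      simp
    · simp only [Bool.or_eq_true] at h
      rw [odz_val]
      rcases h with h | h
      · have h := Nat.eq_of_beq_eq_true h
        have := mul_le_mul_of_nonneg_left (hk.od1 h) e1
        rw [if_pos h]
        linarith
      · have h := Nat.eq_of_beq_eq_true h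
        have := mul_le_mul_of_nonneg_left (hk.od2 h) e1
        rw [if_neg (by omega), if_pos h]
        linarith
  have b2 : p.r2.val * z.w ^ 2 ≤ (k.ds * (p.r2.val * k.hd.val)) * z.w := by
    rcases zor h8 with h | h
    · have h0 : p.r2.val = 0 := le_antisymm h e2
      rw [h0]
      simp
    · have h0 : k.ds ≠ 0 := by
        intro h0
        rw [h0] at h
        simp at h
      have h3 := hk.ds h0
      have h4 : z.w ^ 2 ≤ k.hd.val * (k.ds * z.w) := by
        rw [hsq, ← h3, sq]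
        exact mul_le_mul_of_nonneg_right hw habs
      have := mul_le_mul_of_nonneg_left h4 e2
      linarith
  have b3 : p.r3.val * z.w ^ 2 ≤ p.r3.val * z.vL ^ 2 := by
    rcases zor h9 with h | h
    · have h0 : p.r3.val = 0 := le_antisymm h e3
      rw [h0]
      simp
    · refine mul_le_mul_of_nonneg_left ?_ e3
      rw [hsq]
      exact pow_le_pow_left₀ habs (hk.dl h) 2
  have b4 : p.r4.val * z.w ^ 2 ≤ p.r4.val * (k.hd.val * k.hd.val) := by
    refine mul_le_mul_of_nonneg_left ?_ e4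
    rw [hsq, sq]
    exact mul_le_mul hw hw habs hhd
  have b5 : p.r5.val * z.w ^ 2 ≤ p.cA.val * z.vA ^ 2 + p.cB.val * z.vB ^ 2 := by
    rcases zor h10 with h | h
    · have h0 : p.r5.val = 0 := le_antisymm h e5
      rw [h0]
      have := mul_nonneg eA (sq_nonneg z.vA)
      have := mul_nonneg eB (sq_nonneg z.vB)
      linarith
    · simp only [Bool.and_eq_true] at h
      obtain ⟨g2, g3, g4⟩ := h
      have g4 := Dec.nn_iff g4
      simp only [Dec.val_sub, Dec.val_mul, Dec.val_add] at g4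
      have := cau2 (x := z.tA * z.vA) (y := z.tB * z.vB) (Dec.ps_iff g2) (Dec.ps_iff g3)
        (show p.r5.val * (p.cA.val + p.cB.val) ≤ p.cA.val * p.cB.val by linarith)
      rw [mul_pow, mul_pow, hk.tA, hk.tB, one_mul, one_mul] at this
      exact this
  have b0 := mul_le_mul_of_nonneg_right (show q.val ≤ p.r1.val + p.r2.val + (p.r3.val + p.r4.val) +
    p.r5.val by linarith) (sq_nonneg z.w)
  linarith

/-- a near inequality -/
lemma near_le {x v a : ℝ} (h : |x - v| ≤ θ * a) (hθ0 : 0 ≤ θ) {th : Dec}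
    (hθ : θ ≤ th.val) {r s : ℝ} (hr : 1 < r) (hs : 1 ≤ (r - 1) * (s - 1)) :
    x ^ 2 ≤ r * v ^ 2 + s * ((th.val * th.val) * a ^ 2) := by
  have h1 := TSM.near_sq h hr hs
  have h2 := pos_of_rs hr hs
  have h3 : θ ^ 2 ≤ th.val * th.val := by nlinarith
  have h4 := mul_le_mul_of_nonneg_left (mul_le_mul_of_nonneg_right h3 (sq_nonneg a)) h2
  linarith

/-- the near inequalities of `A` and `B` -/
lemma n_le (hk : k.Ok θ z) (hθ0 : 0 ≤ θ) {th : Dec} (hθ : θ ≤ th.val) {p : PV}
    (h : nOk p = true) :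
    p.nA.val * z.xA ^ 2 ≤ p.nA.val * p.pA.val * z.vA ^ 2 +
      p.nA.val * (p.qA.val * (th.val * th.val)) * z.aA ^ 2 ∧
    p.nB.val * z.xB ^ 2 ≤ p.nB.val * p.pB.val * z.vB ^ 2 +
      p.nB.val * (p.qB.val * (th.val * th.val)) * z.aB ^ 2 := by
  simp only [nOk, Bool.and_eq_true] at h
  obtain ⟨h1, h2, h3, h4, h5, h6⟩ := h
  have e1 := Dec.nn_iff h1
  have e2 := Dec.ps_iff h2
  have e3 := Dec.nn_iff h3
  have e4 := Dec.nn_iff h4
  have e5 := Dec.ps_iff h5
  have e6 := Dec.nn_iff h6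
  simp only [Dec.val_sub, Dec.val_mul, Dec.val_one] at e2 e3 e5 e6
  have g1 := mul_le_mul_of_nonneg_left (near_le hk.nA hθ0 hθ (r := p.pA.val)
    (s := p.qA.val) (by linarith) (by linarith)) e1
  have g2 := mul_le_mul_of_nonneg_left (near_le hk.nB hθ0 hθ (r := p.pB.val)
    (s := p.qB.val) (by linarith) (by linarith)) e4
  constructor <;> linarith

/-- the signs of a case -/
def CS.Sg (k : CS) : Prop := (k.gs = 1 ∨ k.gs = -1 ∨ k.gs = 0) ∧ (k.ds = 1 ∨ k.ds = -1 ∨ k.ds = 0)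

/-- value and seminorm of the rest -/
theorem vw_le (hk : k.Ok θ z) (hg : k.Sg) (hθ0 : 0 ≤ θ) {th : Dec} (hθ : θ ≤ th.val) {p : PV}
    {qv qa : Dec} (h : vwOk k p qv qa = true) (hqa : 0 ≤ qa.val) :
    qv.val * z.w ^ 2 + qa.val * z.a2 ^ 2 ≤ ((vwR k th p).map Dec.val).ev z := by
  simp only [vwOk, Bool.and_eq_true] at h
  obtain ⟨h6, h7, h8⟩ := h
  obtain ⟨c2, _, _⟩ := c2_le h7 z.aA z.aB (fun h0 => (hk.hM h0).2.2)
  have cw := w_le hk h6
  obtain ⟨n1, n2⟩ := n_le hk hθ0 hθ h8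
  have ha : z.a2 ^ 2 ≤ (z.aA + z.aB) ^ 2 := pow_le_pow_left₀ hk.a20 hk.a21 2
  have m2 := mul_le_mul_of_nonneg_left ha hqa
  have ew : (k.ds : ℝ) * (p.r2.val * k.hd.val) * z.w =
      k.ds * (p.r2.val * k.hd.val) * (z.tA * z.vA) +
        k.ds * (p.r2.val * k.hd.val) * (z.tB * z.vB) := by
    unfold Z3.w
    ring
  unfold R3.ev Y4.ev R3.map Y4.map vwR
  dsimp only
  simp only [Dec.val_mul, Dec.val_add, Dec.val_neg, Dec.val_zero, zs_val _ _ hg.2]
  linarith

lemma R3.ax_ev (r : R3 Dec) (xL xA xB : Dec) (z : Z3) : ((r.ax xL xA xB).map Dec.val).ev z =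
    (r.map Dec.val).ev z + xL.val * z.xL ^ 2 + xA.val * z.xA ^ 2 + xB.val * z.xB ^ 2 := by
  unfold R3.ev Y4.ev R3.map Y4.map R3.ax
  dsimp only
  simp only [Dec.val_add]
  ring

lemma R3.cn_ev (r : R3 Dec) (gL g xL xA xB cL cA cB : Dec) (z : Z3)
    (h : r.L.x1 = zero ∧ r.A.x1 = zero ∧ r.B.x1 = zero) :
    ((r.cn gL g xL xA xB cL cA cB).map Dec.val).ev z =
    (r.map Dec.val).ev z +
      (xL.val * cL.val ^ 2 + xA.val * cA.val ^ 2 + xB.val * cB.val ^ 2 -
        g.val * (cL.val + cA.val + cB.val) ^ 2) +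
      2 * (gL.val * (cL.val + cA.val + cB.val) - xL.val * cL.val) * (z.tL * z.xL) +
      2 * (g.val * (cL.val + cA.val + cB.val) - xA.val * cA.val) * (z.tA * z.xA) +
      2 * (g.val * (cL.val + cA.val + cB.val) - xB.val * cB.val) * (z.tB * z.xB) := by
  unfold R3.ev Y4.ev R3.map Y4.map R3.cn cLin
  dsimp only
  rw [h.1, h.2.1, h.2.2]
  simp only [Dec.val_add, Dec.val_mul, Dec.val_sub, Dec.val_nsm, Dec.val_zero]
  push_cast
  ring

lemma PR.eB_val {p : PR} (h : k.M3 = false) : (p.eB k).val = 0 := by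
  unfold PR.eB
  rw [h]
  exact Dec.val_zero

/-- **the bound of the square of the rest** -/
theorem rowR_le (hk : k.Ok θ z) (hg : k.Sg) (hθ0 : 0 ≤ θ) {th : Dec} (hθ : θ ≤ th.val) {p : PR}
    (h : rOk k th p = true) : z.R ^ 2 ≤ ((rowR k th p).map Dec.val).ev z := by
  simp only [rOk, Bool.and_eq_true] at h
  obtain ⟨h1, h2, h3, h4, h5, h6⟩ := h
  have e1 := Dec.nn_iff h1
  have e2 := Dec.nn_iff h2
  have e4 := Dec.ps_iff h4
  have e5 := Dec.nn_iff h5
  simp only [Dec.val_sub, Dec.val_mul, Dec.val_one] at e2 e4 e5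
  obtain ⟨c1, _, _⟩ := c2_le h3 (z.tA * z.xA - p.cA.val) (z.tB * z.xB - (p.eB k).val)
    (fun h0 => by rw [(hk.hM h0).1, mul_zero, PR.eB_val h0, sub_zero])
  have nr := near_le hk.n2 hθ0 hθ (r := p.r.val) (s := p.s.val) (by linarith) (by linarith)
  have hs0 := pos_of_rs (r := p.r.val) (s := p.s.val) (by linarith) (by linarith)
  have hq : 0 ≤ p.be.val * (p.s.val * (th.val * th.val)) :=
    mul_nonneg e1 (mul_nonneg hs0 (mul_self_nonneg _))
  have va := vw_le hk hg hθ0 hθ h6 (by simp only [Dec.val_mul]; exact hq)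
  have e0 : z.R ^ 2 = (1 - p.be.val) * (z.tA * z.xA + z.tB * z.xB) ^ 2 + p.be.val * z.R ^ 2 := by
    unfold Z3.R
    ring
  have m1 := mul_le_mul_of_nonneg_left nr e1
  simp only [Dec.val_sub, Dec.val_mul, Dec.val_one] at c1 va
  have c1' : (1 - p.be.val) * (z.tA * z.xA + z.tB * z.xB) ^ 2 ≤
      p.xA.val * z.xA ^ 2 + p.xB.val * z.xB ^ 2 +
      (p.xA.val * p.cA.val ^ 2 + p.xB.val * (p.eB k).val ^ 2 -
        (1 - p.be.val) * (p.cA.val + (p.eB k).val) ^ 2) +
      2 * ((1 - p.be.val) * (p.cA.val + (p.eB k).val) - p.xA.val * p.cA.val) * (z.tA * z.xA) +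
      2 * ((1 - p.be.val) * (p.cA.val + (p.eB k).val) - p.xB.val * (p.eB k).val) *
        (z.tB * z.xB) := by
    have eA : (z.tA * z.xA - p.cA.val) ^ 2 = z.tA ^ 2 * z.xA ^ 2 - 2 * p.cA.val * (z.tA * z.xA) +
      p.cA.val ^ 2 := by ring
    have eB : (z.tB * z.xB - (p.eB k).val) ^ 2 = z.tB ^ 2 * z.xB ^ 2 -
      2 * (p.eB k).val * (z.tB * z.xB) + (p.eB k).val ^ 2 := by ring
    rw [eA, eB, hk.tA, hk.tB] at c1
    linarith
  unfold rowR
  rw [R3.cn_ev _ _ _ _ _ _ _ _ _ _ ⟨rfl, rfl, rfl⟩, R3.ax_ev, e0, Dec.val_zero]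
  simp only [Dec.val_sub, Dec.val_one]
  linarith

/-- value and seminorm of the sum -/
theorem va_le (hk : k.Ok θ z) (hg : k.Sg) (hθ0 : 0 ≤ θ) {th : Dec} (hθ : θ ≤ th.val) {p : PV}
    {qv qa : Dec} (h : vaOk k p qv qa = true) :
    qv.val * z.v ^ 2 + qa.val * z.az ^ 2 ≤ ((vaR k th p).map Dec.val).ev z := by
  simp only [vaOk, Bool.and_eq_true] at h
  obtain ⟨i1, i2, i3, i4, i5, i6, iL, iP, j0, j1, j2, j6, j5, j4, h6, f1, f2, h7, h8⟩ := h
  have u1 := Dec.nn_iff i1
  have u2 := Dec.nn_iff i2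
  have u3 := Dec.nn_iff i3
  have u4 := Dec.nn_iff i4
  have u5 := Dec.nn_iff i5
  have u6 := Dec.nn_iff i6
  have uL := Dec.nn_iff iL
  have uP := Dec.nn_iff iP
  have u0 := Dec.nn_iff j0
  have uf := Dec.nn_iff f1
  simp only [Dec.val_sub, Dec.val_add] at u0
  obtain ⟨c2, _, _, _⟩ := c3_le h7 z.aL z.aA z.aB (fun h0 => (hk.hM h0).2.2)
  have cw := w_le hk h6
  obtain ⟨n1, n2⟩ := n_le hk hθ0 hθ h8
  -- the seminorm
  have ha : z.az ^ 2 ≤ (z.aL + z.aA + z.aB) ^ 2 := pow_le_pow_left₀ hk.az0 hk.az1 2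
  have hf : p.f1.val * z.az ^ 2 ≤ p.f1.val * k.fL.val * z.aL ^ 2 +
      p.f1.val * k.fA.val * z.aA ^ 2 + p.f1.val * k.fB.val * z.aB ^ 2 := by
    rcases zor f2 with h | h
    · have h0 : p.f1.val = 0 := le_antisymm h uf
      rw [h0]
      simp
    · have := mul_le_mul_of_nonneg_left (hk.fl h) uf
      linarith
  have hrest : (qa.val - p.f1.val) * z.az ^ 2 ≤
      p.bL.val * z.aL ^ 2 + p.bA.val * z.aA ^ 2 + p.bB.val * z.aB ^ 2 := by
    simp only [Dec.val_sub] at c2
    rcases le_or_gt (qa.val - p.f1.val) 0 with h | h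
    · have := mul_nonneg (neg_nonneg.2 h) (sq_nonneg z.az)
      have g1 : 0 ≤ p.bL.val * z.aL ^ 2 := mul_nonneg (by assumption) (sq_nonneg _)
      have g2 : 0 ≤ p.bA.val * z.aA ^ 2 := mul_nonneg (by assumption) (sq_nonneg _)
      have g3 : 0 ≤ p.bB.val * z.aB ^ 2 := mul_nonneg (by assumption) (sq_nonneg _)
      linarith
    · exact (mul_le_mul_of_nonneg_left ha h.le).trans c2
  -- the value
  have habs := abs_nonneg z.v
  have hsq : z.v ^ 2 = |z.v| ^ 2 := (sq_abs _).symm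
  have hhz : 0 ≤ k.hz.val := habs.trans hk.hz
  have b1 : p.o1.val * z.v ^ 2 ≤ (k.gs * (p.o1.val * k.hz.val)) * z.v := by
    rcases zor j1 with h | h
    · have h0 : p.o1.val = 0 := le_antisymm h u1
      rw [h0]
      simp
    · have h0 : k.gs ≠ 0 := by
        intro h0
        rw [h0] at h
        simp at h
      have h3 := hk.gs h0
      have h4 : z.v ^ 2 ≤ k.hz.val * (k.gs * z.v) := by
        rw [hsq, ← h3, sq]
        exact mul_le_mul_of_nonneg_right hk.hz habs
      have := mul_le_mul_of_nonneg_left h4 u1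
      linarith
  have b2 : p.o2.val * z.v ^ 2 ≤ p.o2.val * z.vL ^ 2 := by
    rcases zor j2 with h | h
    · have h0 : p.o2.val = 0 := le_antisymm h u2
      rw [h0]
      simp
    · refine mul_le_mul_of_nonneg_left ?_ u2
      rw [hsq]
      exact pow_le_pow_left₀ habs (hk.zl h) 2
  have b3 : p.o3.val * z.v ^ 2 ≤ p.o3.val * (k.hz.val * k.hz.val) := by
    refine mul_le_mul_of_nonneg_left ?_ u3
    rw [hsq, sq]
    exact mul_le_mul hk.hz hk.hz habs hhz
  have b4 : p.o4.val * z.v ^ 2 ≤ p.kL.val * z.vL ^ 2 + p.kP.val * z.w ^ 2 := by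
    rcases zor j4 with h | h
    · have h0 : p.o4.val = 0 := le_antisymm h u4
      rw [h0]
      have := mul_nonneg uL (sq_nonneg z.vL)
      have := mul_nonneg uP (sq_nonneg z.w)
      linarith
    · simp only [Bool.and_eq_true] at h
      obtain ⟨g2, g3, g4⟩ := h
      have g4 := Dec.nn_iff g4
      simp only [Dec.val_sub, Dec.val_mul, Dec.val_add] at g4
      have := cau2 (x := z.tL * z.vL) (y := z.w) (Dec.ps_iff g2) (Dec.ps_iff g3)
        (show p.o4.val * (p.kL.val + p.kP.val) ≤ p.kL.val * p.kP.val by linarith)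
      rw [mul_pow, hk.tL, one_mul] at this
      exact this
  have b5 : p.o5.val * z.v ^ 2 ≤ p.o5.val * k.fv.val * (z.vL ^ 2 + z.vA ^ 2 + z.vB ^ 2) := by
    rcases zor j5 with h | h
    · have h0 : p.o5.val = 0 := le_antisymm h u5
      rw [h0]
      simp
    · have := mul_le_mul_of_nonneg_left (hk.fv (Dec.ps_iff h)) u5
      linarith
  have b6 : p.o6.val * z.v ^ 2 ≤ p.o6.val * z.w ^ 2 := by
    rcases zor j6 with h | h
    · have h0 : p.o6.val = 0 := le_antisymm h u6
      rw [h0]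
      simp
    · refine mul_le_mul_of_nonneg_left ?_ u6
      rw [hsq, ← sq_abs z.w]
      exact pow_le_pow_left₀ habs (hk.zd h) 2
  have b0 := mul_le_mul_of_nonneg_right (show qv.val ≤ p.o1.val + p.o2.val +
    (p.o3.val + p.o4.val) + (p.o5.val + p.o6.val) by linarith) (sq_nonneg z.v)
  simp only [Dec.val_add] at cw
  have ew : (k.ds : ℝ) * (p.r2.val * k.hd.val) * z.w =
      k.ds * (p.r2.val * k.hd.val) * (z.tA * z.vA) +
        k.ds * (p.r2.val * k.hd.val) * (z.tB * z.vB) := by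
    unfold Z3.w
    ring
  have ev : (k.gs : ℝ) * (p.o1.val * k.hz.val) * z.v =
      k.gs * (p.o1.val * k.hz.val) * (z.tL * z.vL) +
        k.gs * (p.o1.val * k.hz.val) * (z.tA * z.vA) +
        k.gs * (p.o1.val * k.hz.val) * (z.tB * z.vB) := by
    unfold Z3.v
    ring
  have T2 : qa.val * z.az ^ 2 ≤
      (p.f1.val * k.fL.val + p.bL.val) * z.aL ^ 2 + (p.f1.val * k.fA.val + p.bA.val) * z.aA ^ 2 +
      (p.f1.val * k.fB.val + p.bB.val) * z.aB ^ 2 := by linarith
  have T3 : qv.val * z.v ^ 2 ≤ p.o1.val * z.v ^ 2 + p.o2.val * z.v ^ 2 +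
      p.o3.val * z.v ^ 2 + p.o4.val * z.v ^ 2 + p.o5.val * z.v ^ 2 + p.o6.val * z.v ^ 2 := by
    linarith
  clear c2 hf hrest b0 ha hsq
  unfold R3.ev Y4.ev R3.map Y4.map vaR
  dsimp only
  simp only [Dec.val_sub, Dec.val_mul, Dec.val_add, Dec.val_neg, Dec.val_zero, zs_val _ _ hg.2,
    zs_val _ _ hg.1]
  linarith

/-- **the bound of the square of the sum** -/
theorem rowZ_le (hk : k.Ok θ z) (hg : k.Sg) (hθ0 : 0 ≤ θ) {th : Dec} (hθ : θ ≤ th.val) {p : PR}
    {t4 : Bool} (h : zOk t4 k th p = true) : z.Z ^ 2 ≤ ((rowZ k th p).map Dec.val).ev z +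
      (if t4 then p.be.val * p.s.val else 0) * (z.Z - z.v) ^ 2 := by
  simp only [zOk, Bool.and_eq_true] at h
  obtain ⟨h1, h2, h3, h4, h5, h6⟩ := h
  have e1 := Dec.nn_iff h1
  have e2 := Dec.nn_iff h2
  have e4 := Dec.ps_iff h4
  have e5 := Dec.nn_iff h5
  simp only [Dec.val_sub, Dec.val_mul, Dec.val_one] at e2 e4 e5
  obtain ⟨c1, _, _, _⟩ := c3_le h3 (z.tL * z.xL - p.cL.val) (z.tA * z.xA - p.cA.val)
    (z.tB * z.xB - (p.eB k).val)
    (fun h0 => by rw [(hk.hM h0).1, mul_zero, PR.eB_val h0, sub_zero])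
  have va := va_le hk hg hθ0 hθ h6
  have e0 : z.Z ^ 2 = (1 - p.be.val) * (z.tL * z.xL + z.tA * z.xA + z.tB * z.xB) ^ 2 +
      p.be.val * z.Z ^ 2 := by
    unfold Z3.Z
    ring
  simp only [Dec.val_sub, Dec.val_mul, Dec.val_one] at c1
  have c1' : (1 - p.be.val) * (z.tL * z.xL + z.tA * z.xA + z.tB * z.xB) ^ 2 ≤
      p.xL.val * z.xL ^ 2 + p.xA.val * z.xA ^ 2 + p.xB.val * z.xB ^ 2 +
      (p.xL.val * p.cL.val ^ 2 + p.xA.val * p.cA.val ^ 2 + p.xB.val * (p.eB k).val ^ 2 -
        (1 - p.be.val) * (p.cL.val + p.cA.val + (p.eB k).val) ^ 2) +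
      2 * ((1 - p.be.val) * (p.cL.val + p.cA.val + (p.eB k).val) - p.xL.val * p.cL.val) *
        (z.tL * z.xL) +
      2 * ((1 - p.be.val) * (p.cL.val + p.cA.val + (p.eB k).val) - p.xA.val * p.cA.val) *
        (z.tA * z.xA) +
      2 * ((1 - p.be.val) * (p.cL.val + p.cA.val + (p.eB k).val) - p.xB.val * (p.eB k).val) *
        (z.tB * z.xB) := by
    have eL : (z.tL * z.xL - p.cL.val) ^ 2 = z.tL ^ 2 * z.xL ^ 2 - 2 * p.cL.val * (z.tL * z.xL) +
      p.cL.val ^ 2 := by ring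
    have eA : (z.tA * z.xA - p.cA.val) ^ 2 = z.tA ^ 2 * z.xA ^ 2 - 2 * p.cA.val * (z.tA * z.xA) +
      p.cA.val ^ 2 := by ring
    have eB : (z.tB * z.xB - (p.eB k).val) ^ 2 = z.tB ^ 2 * z.xB ^ 2 -
      2 * (p.eB k).val * (z.tB * z.xB) + (p.eB k).val ^ 2 := by ring
    rw [eL, eA, eB, hk.tL, hk.tA, hk.tB] at c1
    linarith
  unfold rowZ
  rw [R3.cn_ev _ _ _ _ _ _ _ _ _ _ ⟨rfl, rfl, rfl⟩, R3.ax_ev]
  simp only [Dec.val_sub, Dec.val_one]
  have nr0 : z.Z ^ 2 ≤ p.r.val * z.v ^ 2 + p.s.val * (z.Z - z.v) ^ 2 := by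
    have h1 : 0 ≤ (p.r.val - 1) * (p.r.val * z.v ^ 2 + p.s.val * (z.Z - z.v) ^ 2 - z.Z ^ 2) := by
      have e : (p.r.val - 1) * (p.r.val * z.v ^ 2 + p.s.val * (z.Z - z.v) ^ 2 - z.Z ^ 2) =
          ((p.r.val - 1) * z.v - (z.Z - z.v)) ^ 2 +
          ((p.r.val - 1) * (p.s.val - 1) - 1) * (z.Z - z.v) ^ 2 := by ring
      rw [e]
      exact add_nonneg (sq_nonneg _) (mul_nonneg (by linarith) (sq_nonneg _))
    have := nonneg_of_mul_nonneg_right h1 (by linarith)
    linarith
  have m1 := mul_le_mul_of_nonneg_left nr0 e1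
  rw [e0]
  clear c1
  cases t4
  · have nr := near_le hk.nz hθ0 hθ (r := p.r.val) (s := p.s.val) (by linarith) (by linarith)
    have m1 := mul_le_mul_of_nonneg_left nr e1
    simp only [Bool.false_eq_true, if_false, Dec.val_mul] at va ⊢
    linarith
  · simp only [if_true, Dec.val_mul, Dec.val_zero] at va ⊢
    linarith

end Pool.Agent.TSG
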