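import Pool.Agent.TSG.F3G

set_option autoImplicit false

/-!
# Three explicit children: the numbers of a cell and their test (MP_d27362_co)
-/

namespace Pool.Agent.TSG

open Pool.Agent.TSC
open Pool.Agent.TSM (q0 CR creOk creOk_sound Cre)

open Dec (nn ps sub add mul nsm one zero neg)

/-! ### rounding -/

/-- a number with 6 decimals which is not smaller -/
def rup (x : Dec) : Dec :=
  if Nat.ble x.e 6 then x
  else if Nat.ble x.n x.p then
    ⟨Nat.div (Nat.add (Nat.sub x.p x.n) (Nat.sub (Nat.pow 10 (Nat.sub x.e 6)) 1))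
      (Nat.pow 10 (Nat.sub x.e 6)), 0, 6⟩
  else ⟨0, Nat.div (Nat.sub x.n x.p) (Nat.pow 10 (Nat.sub x.e 6)), 6⟩

lemma rup_le (x : Dec) : x.val ≤ (rup x).val := by
  unfold rup
  rcases h1 : Nat.ble x.e 6 with _ | _
  · simp only [Bool.false_eq_true, if_false]
    have he : 6 < x.e := by
      by_contra h
      have h2 : Nat.ble x.e 6 = true := by
        rw [Nat.ble_eq]
        omega
      rw [h1] at h2
      exact Bool.false_ne_true h2
    obtain ⟨K, hK⟩ : ∃ K, K = 10 ^ (x.e - 6) := ⟨_, rfl⟩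
    have hK0 : 0 < K := by rw [hK]; positivity
    have e1 : (10 : ℝ) ^ x.e = 10 ^ 6 * (K : ℝ) := by
      rw [hK]
      push_cast
      rw [← pow_add]
      congr 1
      omega
    have hKr : (0 : ℝ) < K := by exact_mod_cast hK0
    rcases h3 : Nat.ble x.n x.p with _ | _
    · simp only [Bool.false_eq_true, if_false]
      have hn : x.p ≤ x.n := by
        by_contra h
        have h2 : Nat.ble x.n x.p = true := by
          rw [Nat.ble_eq]
          omega
        rw [h3] at h2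
        exact Bool.false_ne_true h2
      have h4 : (x.n - x.p) / K * K ≤ x.n - x.p := Nat.div_mul_le_self _ _
      have h5 : (((x.n - x.p) / K : ℕ) : ℝ) * K ≤ (x.n : ℝ) - x.p := by
        have : ((((x.n - x.p) / K * K : ℕ)) : ℝ) ≤ ((x.n - x.p : ℕ) : ℝ) := by exact_mod_cast h4
        rw [Nat.cast_sub hn] at this
        push_cast at this
        exact this
      show ((x.p : ℝ) - x.n) / 10 ^ x.e ≤
        (((0 : ℕ) : ℝ) - (((x.n - x.p) / 10 ^ (x.e - 6) : ℕ) : ℝ)) / 10 ^ 6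
      rw [← hK, e1, div_le_div_iff₀ (by positivity) (by positivity)]
      push_cast at h5 ⊢
      nlinarith
    · simp only [if_true]
      have hn : x.n ≤ x.p := by
        rw [Nat.ble_eq] at h3
        exact h3
      obtain ⟨m, hm⟩ : ∃ m, m = x.p - x.n := ⟨_, rfl⟩
      have h4 : m ≤ (m + (K - 1)) / K * K := by
        have h5 := Nat.div_add_mod (m + (K - 1)) K
        have h6 := Nat.mod_lt (m + (K - 1)) hK0
        rw [Nat.mul_comm] at h5
        omega
      have h5 : (x.p : ℝ) - x.n ≤ (((m + (K - 1)) / K : ℕ) : ℝ) * K := by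
        have : ((m : ℕ) : ℝ) ≤ (((m + (K - 1)) / K * K : ℕ) : ℝ) := by exact_mod_cast h4
        rw [hm, Nat.cast_sub hn, ← hm] at this
        push_cast at this
        exact this
      show ((x.p : ℝ) - x.n) / 10 ^ x.e ≤
        ((((x.p - x.n + (10 ^ (x.e - 6) - 1)) / 10 ^ (x.e - 6) : ℕ) : ℝ) - ((0 : ℕ) : ℝ)) / 10 ^ 6
      rw [← hK, ← hm, e1, div_le_div_iff₀ (by positivity) (by positivity)]
      push_cast at h5 ⊢
      nlinarith
  · simp

/-- rounding of the numbers of one child -/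
def Y4.rnd (y : Y4 Dec) : Y4 Dec := ⟨rup y.x2, y.x1, y.ws, rup y.w2, rup y.b2⟩

/-- rounding of a row -/
def R3.rnd (r : R3 Dec) : R3 Dec := ⟨rup r.c, r.L.rnd, r.A.rnd, r.B.rnd⟩

lemma Y4.rnd_le (y : Y4 Dec) (t x v a : ℝ) :
    (y.map Dec.val).ev t x v a ≤ (y.rnd.map Dec.val).ev t x v a := by
  have h1 := mul_le_mul_of_nonneg_right (rup_le y.x2) (sq_nonneg x)
  have h2 := mul_le_mul_of_nonneg_right (rup_le y.w2) (sq_nonneg v)
  have h3 := mul_le_mul_of_nonneg_right (rup_le y.b2) (sq_nonneg a)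
  unfold Y4.ev Y4.map Y4.rnd
  dsimp only
  linarith

lemma R3.rnd_le (r : R3 Dec) (z : Z3) :
    (r.map Dec.val).ev z ≤ (r.rnd.map Dec.val).ev z := by
  have h0 := rup_le r.c
  have h1 := Y4.rnd_le r.L z.tL z.xL z.vL z.aL
  have h2 := Y4.rnd_le r.A z.tA z.xA z.vA z.aA
  have h3 := Y4.rnd_le r.B z.tB z.xB z.vB z.aB
  show r.c.val + _ + _ + _ ≤ (rup r.c).val + _ + _ + _
  exact add_le_add (add_le_add (add_le_add h0 h1) h2) h3

/-! ### the numbers -/

/-- the numbers of one line in one cell -/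
structure F3X where
  /-- see `X3` -/
  f1 : Dec
  /-- see `X3` -/
  k1 : Dec
  /-- see `X3` -/
  j1 : Dec
  /-- see `X3` -/
  f2 : Dec
  /-- see `X3` -/
  k2 : Dec
  /-- see `X3` -/
  j2 : Dec
  /-- `U'²` -/
  pU : PR
  /-- `U2²` -/
  pR : PR
  /-- `G²` -/
  pG : PR
  /-- the square of the rest of `G` -/
  pQ : PR
  /-- the deviation of `G` is paid by `a_y'²` -/
  t4 : Bool
  /-- the part of `a_y'²` which is bounded by the state of `G` -/
  ze : Dec
  /-- weight for the other part -/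
  yL : Dec
  /-- weight for the other part -/
  yA : Dec
  /-- weight for the other part -/
  yB : Dec
  /-- creation: factor of the seminorm of `G` -/
  la : Dec
  /-- creation: factor of the value of `G` -/
  ga : Dec
  /-- creation: factor of the deviation -/
  be : Dec
  /-- creation for the children: factor of the seminorm -/
  lb : Dec
  /-- creation for the children: factor of the value -/
  gb : Dec
  /-- see `creOk` -/
  c1 : CR
  /-- see `creOk` -/
  c2 : CR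
  /-- value and seminorm of `G` for `a_y'²` -/
  vY : PV
  /-- the part of `a_U'²` with the known weights -/
  qf : Dec
  /-- weight for the other part -/
  qL : Dec
  /-- weight for the other part -/
  qA : Dec
  /-- weight for the other part -/
  qB : Dec
  /-- the multipliers of the conditions -/
  lm : List Dec
  /-- see `X3` -/
  l1 : Dec
  /-- see `X3` -/
  l2 : Dec
  /-- see `X3` -/
  l3 : Dec
  /-- see `X3` -/
  l4 : Dec
  /-- see `X3` -/
  cL : Dec
  /-- see `X3` -/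
  cA : Dec
  /-- see `X3` -/
  cB : Dec
  /-- see `X3` -/
  dL : S4 Dec
  /-- see `X3` -/
  dA : S4 Dec
  /-- see `X3` -/
  dB : S4 Dec
  /-- the mixed term of `y`: center of `y_L` -/
  a1 : Dec
  /-- the mixed term of `y`: center of `U2` -/
  b1 : Dec
  /-- the mixed term of `U`: center of the signed `u_L` -/
  a2 : Dec
  /-- the mixed term of `U`: center of the rest of `G` -/
  b2 : Dec
  /-- see `X3` -/
  mR : Dec
  /-- see `X3` -/
  tR : Dec
  /-- see `X3` -/
  cR : Dec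
  /-- see `X3` -/
  mQ : Dec
  /-- see `X3` -/
  tQ : Dec
  /-- see `X3` -/
  cQ : Dec

/-- `qhi²` -/
def T2 : Dec := mul qhi qhi

/-- the row of `a_y'²` -/
def rowY (k : CS) (th : Dec) (x : F3X) : R3 Dec :=
  let r := vaR k th x.vY
  ⟨r.c, { r.L with w2 := add r.L.w2 (mul x.yL (mul T2 x.gb)),
                   b2 := add r.L.b2 (mul x.yL (mul T2 x.lb)) },
    { r.A with w2 := add r.A.w2 (mul x.yA (mul T2 x.gb)),
               b2 := add r.A.b2 (mul x.yA (mul T2 x.lb)) },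
    { r.B with w2 := add r.B.w2 (mul x.yB (mul T2 x.gb)),
               b2 := add r.B.b2 (mul x.yB (mul T2 x.lb)) }⟩

/-- zero -/
def q60 : Q6 Dec := ⟨zero, zero, zero, zero, zero, zero⟩

/-- `p + s q` -/
def Q6.ax (p : Q6 Dec) (s : Dec) (q : Q6 Dec) : Q6 Dec :=
  ⟨add p.v1 (mul s q.v1), add p.v2 (mul s q.v2), add p.a2 (mul s q.a2), add p.w1 (mul s q.w1),
    add p.w2 (mul s q.w2), add p.b2 (mul s q.b2)⟩

/-- the conditions with their multipliers -/
def qsum : List Dec → List (Q3 Dec) → Q3 Dec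
  | s :: l, q :: m => let r := qsum l m
    ⟨add r.c (mul s q.c), r.L.ax s q.L, r.A.ax s q.A, r.B.ax s q.B⟩
  | _, _ => ⟨zero, q60, q60, q60⟩

/-- linear part of the splitting of a mixed term; `k` belongs to the term with the center `a` -/
def mLin (f k a b : Dec) : Dec := sub (mul (sub one (nsm 2 f)) b) (nsm 2 (mul k a))

/-- constant of the splitting of a mixed term -/
def mCst (f k j a b : Dec) : Dec :=
  sub (add (mul k (mul a a)) (mul j (mul b b))) (mul (sub one (nsm 2 f)) (mul a b))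

/-- the numbers which are computed -/
def mkX3 (S : F3S) (th : Dec) (x : F3X) : X3 Dec where
  f1 := x.f1
  k1 := x.k1
  j1 := x.j1
  f2 := x.f2
  k2 := x.k2
  j2 := x.j2
  rU := (rowZ S.kU th x.pU).rnd
  rR := (rowR S.kU th x.pR).rnd
  rG := (rowZ S.kG th x.pG).rnd
  rQ := (rowR S.kG th x.pQ).rnd
  rY := (rowY S.kG th x).rnd
  aL := add (mul x.qf S.kU.fL) x.qL
  aA := add (mul x.qf S.kU.fA) x.qA
  aB := add (mul x.qf S.kU.fB) x.qB
  ta := mul x.ze x.be
  tb := if x.t4 then mul x.pG.be x.pG.s else zero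
  q := qsum x.lm S.cd
  l1 := x.l1
  l2 := x.l2
  l3 := x.l3
  l4 := x.l4
  uh := S.kU.hz
  yh := S.yh
  yl := S.yl
  cL := x.cL
  cA := x.cA
  cB := x.cB
  dL := x.dL
  dA := x.dA
  dB := x.dB
  e1L := mLin x.f1 x.k1 x.a1 x.b1
  e1R := mLin x.f1 x.j1 x.b1 x.a1
  e1c := mCst x.f1 x.k1 x.j1 x.a1 x.b1
  e2L := mLin x.f2 x.k2 x.a2 x.b2
  e2R := mLin x.f2 x.j2 x.b2 x.a2
  e2c := mCst x.f2 x.k2 x.j2 x.a2 x.b2
  mR := x.mR
  tR := x.tR
  cR := x.cR
  mQ := x.mQ
  tQ := x.tQ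
  cQ := x.cQ

/-! ### the test -/

/-- the test of a tangent -/
def tanOk (m t c : Dec) : Bool := nn m && (nn c && nn (sub (mul m c) (mul t t)))

/-- the test of the splitting of a mixed term -/
def mixOk (f k j : Dec) : Bool :=
  nn k && (nn j && nn (sub (nsm 4 (mul k j)) (mul (sub one (nsm 2 f)) (sub one (nsm 2 f)))))

/-- the signs of a case -/
def sgOk (k : CS) : Bool :=
  (k.gs == 1 || (k.gs == -1 || k.gs == 0)) && (k.ds == 1 || (k.ds == -1 || k.ds == 0))

/-- the test of the shares -/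
def sh3Ok (S : F3S) (x : F3X) : Bool :=
  if S.kU.M3 then
    nn (sub (add x.cL (add x.cA x.cB)) one) && (nn (sub one (add x.cL (add x.cA x.cB))) &&
    S.tL.all fun i => S.tA.all fun j => S.tB.all fun k =>
      nn (add (x.dL.ty i) (add (x.dA.ty j) (x.dB.ty k))))
  else
    nn (sub (add x.cL x.cA) one) && (nn (sub one (add x.cL x.cA)) &&
    S.tL.all fun i => S.tA.all fun j => nn (add (x.dL.ty i) (x.dA.ty j)))

/-- the test of the numbers of a cell which starts at `t0`, with the width `th` -/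
def f3Ok (S : F3S) (th t0 : Dec) (x : F3X) : Bool :=
  mixOk x.f1 x.k1 x.j1 && (mixOk x.f2 x.k2 x.j2 &&
  (zOk false S.kU th x.pU && (rOk S.kU th x.pR && (zOk x.t4 S.kG th x.pG &&
  (rOk S.kG th x.pQ && (nn x.ze && (nn (sub one x.ze) &&
  (c3Ok S.kG.M3 (sub one x.ze) x.yL x.yA x.yB &&
  (vaOk S.kG x.vY (mul x.ze (mul T2 x.ga)) (mul x.ze (mul T2 x.la)) &&
  (creOk x.c1 t0 x.la x.ga x.be && (creOk x.c2 t0 x.lb x.gb zero &&
  (nn x.qf && (nn (sub one x.qf) && ((!(ps x.qf) || S.kU.fl) &&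
  (c3Ok S.kU.M3 (sub one x.qf) x.qL x.qA x.qB && (x.lm.all nn &&
  (nn x.l1 && (nn x.l2 && (nn x.l3 && (nn x.l4 && (sgOk S.kU && (sgOk S.kG &&
  ((S.kU.M3 == S.kG.M3) && (sh3Ok S x && (tanOk x.mR x.tR x.cR &&
  tanOk x.mQ x.tQ x.cQ)))))))))))))))))))))))))

lemma sgOk_sound {k : CS} (h : sgOk k = true) : k.Sg := by
  simp only [sgOk, Bool.and_eq_true, Bool.or_eq_true, beq_iff_eq] at h
  exact h

lemma mixOk_sound {f k j : Dec} (h : mixOk f k j = true) (x y : ℝ) :
    (1 - 2 * f.val) * (x * y) ≤ k.val * x ^ 2 + j.val * y ^ 2 := by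
  simp only [mixOk, Bool.and_eq_true] at h
  obtain ⟨h1, h2, h3⟩ := h
  have e1 := Dec.nn_iff h1
  have e2 := Dec.nn_iff h2
  have e3 := Dec.nn_iff h3
  simp only [Dec.val_sub, Dec.val_mul, Dec.val_nsm, Dec.val_one] at e3
  push_cast at e3
  have h4 : ((1 - 2 * f.val) * (x * y)) ^ 2 ≤ (k.val * x ^ 2 + j.val * y ^ 2) ^ 2 := by
    have h5 : (1 - 2 * f.val) ^ 2 * (x * y) ^ 2 ≤ 4 * (k.val * j.val) * (x * y) ^ 2 :=
      mul_le_mul_of_nonneg_right (by nlinarith) (sq_nonneg _)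
    nlinarith [sq_nonneg (k.val * x ^ 2 - j.val * y ^ 2)]
  exact le_trans (le_abs_self _) (abs_le_of_sq_le_sq h4 (by positivity)) |>.trans le_rfl

/-- the splitting of a mixed term with centers -/
lemma mixOk_cen {f k j : Dec} (h : mixOk f k j = true) (a b : Dec) (x y : ℝ) :
    (1 - 2 * f.val) * (x * y) ≤ k.val * x ^ 2 + j.val * y ^ 2 +
      (mLin f k a b).val * x + (mLin f j b a).val * y + (mCst f k j a b).val := by
  have h1 := mixOk_sound h (x - a.val) (y - b.val)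
  unfold mLin mCst
  simp only [Dec.val_add, Dec.val_mul, Dec.val_sub, Dec.val_nsm, Dec.val_one]
  push_cast
  have e : (1 - 2 * f.val) * ((x - a.val) * (y - b.val)) =
    (1 - 2 * f.val) * (x * y) - (1 - 2 * f.val) * b.val * x - (1 - 2 * f.val) * a.val * y +
      (1 - 2 * f.val) * (a.val * b.val) := by ring
  have e1 : k.val * (x - a.val) ^ 2 = k.val * x ^ 2 - 2 * (k.val * a.val) * x +
    k.val * (a.val * a.val) := by ring
  have e2 : j.val * (y - b.val) ^ 2 = j.val * y ^ 2 - 2 * (j.val * b.val) * y +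
    j.val * (b.val * b.val) := by ring
  rw [e, e1, e2] at h1
  linarith

/-- a tangent -/
lemma tanOk_sound {m t c : Dec} (h : tanOk m t c = true) (x : ℝ) :
    0 ≤ m.val * x ^ 2 - 2 * t.val * x + c.val := by
  simp only [tanOk, Bool.and_eq_true] at h
  obtain ⟨h1, h2, h3⟩ := h
  have e1 := Dec.nn_iff h1
  have e2 := Dec.nn_iff h2
  have e3 := Dec.nn_iff h3
  simp only [Dec.val_sub, Dec.val_mul] at e3
  rcases e1.lt_or_eq with hm | hm
  · have h4 : 0 ≤ m.val * (m.val * x ^ 2 - 2 * t.val * x + c.val) := by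
      have e : m.val * (m.val * x ^ 2 - 2 * t.val * x + c.val) =
        (m.val * x - t.val) ^ 2 + (m.val * c.val - t.val * t.val) := by ring
      rw [e]
      exact add_nonneg (sq_nonneg _) e3
    exact nonneg_of_mul_nonneg_right h4 hm
  · rw [← hm] at e3 ⊢
    have ht : t.val = 0 := by
      have : t.val * t.val ≤ 0 := by linarith
      exact mul_self_eq_zero.1 (le_antisymm this (mul_self_nonneg _))
    rw [ht]
    linarith

/-! ### the row of `a_y'²` -/

variable {θ : ℝ} {z : Z3}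

lemma T2_ge {x : Dec} (h : 0 ≤ x.val) : q0 ^ 2 * x.val ≤ (mul T2 x).val := by
  have e1 : (mul T2 x).val = qhi.val * qhi.val * x.val := by
    rw [T2, Dec.val_mul, Dec.val_mul]
  rw [e1, ← pow_two]
  exact mul_le_mul_of_nonneg_right qhi_sq h

/-- **the bound of `a_y'²`** -/
theorem rowY_le {S : F3S} (hk : S.kG.Ok θ z) (hg : S.kG.Sg) (hθ0 : 0 ≤ θ) {th : Dec}
    (hθ : θ ≤ th.val) {x : F3X} (h0 : nn x.ze = true) (h1 : nn (sub one x.ze) = true)
    (hc : c3Ok S.kG.M3 (sub one x.ze) x.yL x.yA x.yB = true)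
    (hv : vaOk S.kG x.vY (mul x.ze (mul T2 x.ga)) (mul x.ze (mul T2 x.la)) = true)
    {a aL aA aB aY : ℝ} (hla : 0 ≤ x.la.val) (hga : 0 ≤ x.ga.val) (hlb : 0 ≤ x.lb.val)
    (hgb : 0 ≤ x.gb.val) (hY0 : 0 ≤ aY) (hY1 : aY ≤ aL + aA + aB)
    (hB : S.kG.M3 = false → aB = 0)
    (hL2 : aL ^ 2 ≤ q0 ^ 2 * (x.gb.val * z.vL ^ 2 + x.lb.val * z.aL ^ 2))
    (hA2 : aA ^ 2 ≤ q0 ^ 2 * (x.gb.val * z.vA ^ 2 + x.lb.val * z.aA ^ 2))
    (hB2 : aB ^ 2 ≤ q0 ^ 2 * (x.gb.val * z.vB ^ 2 + x.lb.val * z.aB ^ 2))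
    (hG : aY ^ 2 + x.be.val * (a - z.v) ^ 2 ≤
      q0 ^ 2 * (x.ga.val * z.v ^ 2 + x.la.val * z.az ^ 2)) :
    aY ^ 2 + x.ze.val * x.be.val * (a - z.v) ^ 2 ≤ ((rowY S.kG th x).map Dec.val).ev z := by
  have e0 := Dec.nn_iff h0
  have e1 := Dec.nn_iff h1
  rw [Dec.val_sub, Dec.val_one] at e1
  obtain ⟨c1, yL, yA, yB⟩ := c3_le hc aL aA aB hB
  have va := va_le hk hg hθ0 hθ hv
  rw [Dec.val_sub, Dec.val_one] at c1
  have g1 := T2_ge hga
  have g2 := T2_ge hla
  have g3 := T2_ge hgb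
  have g4 := T2_ge hlb
  -- the part of the state of `G`
  have p1 : x.ze.val * (aY ^ 2 + x.be.val * (a - z.v) ^ 2) ≤
      (mul x.ze (mul T2 x.ga)).val * z.v ^ 2 + (mul x.ze (mul T2 x.la)).val * z.az ^ 2 := by
    rw [Dec.val_mul x.ze (mul T2 x.ga), Dec.val_mul x.ze (mul T2 x.la)]
    have m1 := mul_le_mul_of_nonneg_right g1 (sq_nonneg z.v)
    have m2 := mul_le_mul_of_nonneg_right g2 (sq_nonneg z.az)
    have m3 := mul_le_mul_of_nonneg_left hG e0
    have m4 := mul_le_mul_of_nonneg_left (add_le_add m1 m2) e0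
    linarith
  -- the part of the children
  have p2 : (1 - x.ze.val) * aY ^ 2 ≤ x.yL.val * aL ^ 2 + x.yA.val * aA ^ 2 +
      x.yB.val * aB ^ 2 :=
    (mul_le_mul_of_nonneg_left (pow_le_pow_left₀ hY0 hY1 2) e1).trans c1
  have key : ∀ {y w v s : ℝ}, 0 ≤ y → w ^ 2 ≤ q0 ^ 2 * (x.gb.val * v ^ 2 + x.lb.val * s ^ 2) →
      y * w ^ 2 ≤ y * (mul T2 x.gb).val * v ^ 2 + y * (mul T2 x.lb).val * s ^ 2 := by
    intro y w v s hy hw
    have m1 := mul_le_mul_of_nonneg_right g3 (sq_nonneg v)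
    have m2 := mul_le_mul_of_nonneg_right g4 (sq_nonneg s)
    have m3 : w ^ 2 ≤ (mul T2 x.gb).val * v ^ 2 + (mul T2 x.lb).val * s ^ 2 := by linarith
    have := mul_le_mul_of_nonneg_left m3 hy
    linarith
  have k1 := key yL hL2
  have k2 := key yA hA2
  have k3 := key yB hB2
  have e2 : ((rowY S.kG th x).map Dec.val).ev z = ((vaR S.kG th x.vY).map Dec.val).ev z +
      (x.yL.val * (mul T2 x.gb).val * z.vL ^ 2 + x.yL.val * (mul T2 x.lb).val * z.aL ^ 2) +
      (x.yA.val * (mul T2 x.gb).val * z.vA ^ 2 + x.yA.val * (mul T2 x.lb).val * z.aA ^ 2) +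
      (x.yB.val * (mul T2 x.gb).val * z.vB ^ 2 + x.yB.val * (mul T2 x.lb).val * z.aB ^ 2) := by
    unfold R3.ev Y4.ev R3.map Y4.map rowY
    dsimp only
    simp only [Dec.val_add, Dec.val_mul]
    ring
  rw [e2]
  linarith

/-! ### the conditions -/

/-- the value of the coefficients -/
def Q6.ev (q : Q6 ℝ) (vU aU vY aY : ℝ) : ℝ :=
  q.v1 * vU + q.v2 * vU ^ 2 + q.a2 * aU ^ 2 + q.w1 * vY + q.w2 * vY ^ 2 + q.b2 * aY ^ 2

/-- the value of a condition -/
def Q3.ev (q : Q3 ℝ) (a b c : Fin 4 → ℝ) : ℝ :=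
  q.c + q.L.ev (a 0) (a 1) (a 2) (a 3) + q.A.ev (b 0) (b 1) (b 2) (b 3) +
    q.B.ev (c 0) (c 1) (c 2) (c 3)

lemma Q6.ax_ev (p q : Q6 Dec) (s : Dec) (a b c d : ℝ) : ((p.ax s q).map Dec.val).ev a b c d =
    (p.map Dec.val).ev a b c d + s.val * (q.map Dec.val).ev a b c d := by
  unfold Q6.ev Q6.map Q6.ax
  dsimp only
  simp only [Dec.val_add, Dec.val_mul]
  ring

lemma q60_ev (a b c d : ℝ) : (q60.map Dec.val).ev a b c d = 0 := by
  unfold Q6.ev Q6.map q60
  dsimp only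
  simp only [Dec.val_zero]
  ring

lemma qsum_nonneg (a b c : Fin 4 → ℝ) : ∀ (l : List Dec) (m : List (Q3 Dec)),
    l.all nn = true → (∀ q ∈ m, 0 ≤ (q.map Dec.val).ev a b c) →
    0 ≤ ((qsum l m).map Dec.val).ev a b c
  | [], m, _, _ => by
    cases m <;>
    · unfold qsum Q3.ev Q3.map
      dsimp only
      simp only [q60_ev, Dec.val_zero]
      norm_num
  | s :: l, [], _, _ => by
    unfold qsum Q3.ev Q3.map
    dsimp only
    simp only [q60_ev, Dec.val_zero]
    norm_num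
  | s :: l, q :: m, hl, hm => by
    simp only [List.all_cons, Bool.and_eq_true] at hl
    have h1 := qsum_nonneg a b c l m hl.2 (fun q hq => hm q (List.mem_cons_of_mem _ hq))
    have h2 := hm q (List.mem_cons_self ..)
    have h3 := Dec.nn_iff hl.1
    have h4 := mul_nonneg h3 h2
    unfold Q3.ev Q3.map at h1 h2 h4 ⊢
    unfold qsum
    dsimp only at h1 h4 ⊢
    simp only [Q6.ax_ev, Dec.val_add, Dec.val_mul]
    linarith

/-- the weights of `a_U'²` -/
lemma aU_le {S : F3S} (hk : S.kU.Ok θ z) {x : F3X} (h1 : nn x.qf = true)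
    (h2 : nn (sub one x.qf) = true) (h3 : (!(ps x.qf) || S.kU.fl) = true)
    (h4 : c3Ok S.kU.M3 (sub one x.qf) x.qL x.qA x.qB = true) :
    z.az ^ 2 ≤ (x.qf.val * S.kU.fL.val + x.qL.val) * z.aL ^ 2 +
      (x.qf.val * S.kU.fA.val + x.qA.val) * z.aA ^ 2 +
      (x.qf.val * S.kU.fB.val + x.qB.val) * z.aB ^ 2 := by
  have e1 := Dec.nn_iff h1
  have e2 := Dec.nn_iff h2
  rw [Dec.val_sub, Dec.val_one] at e2
  obtain ⟨c2, _, _, _⟩ := c3_le h4 z.aL z.aA z.aB (fun h0 => (hk.hM h0).2.2)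
  rw [Dec.val_sub, Dec.val_one] at c2
  have ha : z.az ^ 2 ≤ (z.aL + z.aA + z.aB) ^ 2 := pow_le_pow_left₀ hk.az0 hk.az1 2
  have g1 := (mul_le_mul_of_nonneg_left ha e2).trans c2
  have g2 : x.qf.val * z.az ^ 2 ≤ x.qf.val * S.kU.fL.val * z.aL ^ 2 +
      x.qf.val * S.kU.fA.val * z.aA ^ 2 + x.qf.val * S.kU.fB.val * z.aB ^ 2 := by
    rcases zor h3 with h | h
    · have h0 : x.qf.val = 0 := le_antisymm h e1
      rw [h0]
      simp
    · have := mul_le_mul_of_nonneg_left (hk.fl h) e1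
      linarith
  linarith

end Pool.Agent.TSG
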