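import Pool.Agent.TSG.FamE

set_option autoImplicit false

/-!
# The lines of a family from the groups of all cells (MP_d27362_co)
-/

namespace Pool.Agent.TSG

open Finset
open Pool.Agent.TSC
open Pool.Agent.TSM (q0 th RD Reg Sn NS Q5 Chd Spl FamS FamT chd vU vY aU aY)
open Pool.Agent.TSR (OBr)
open Pool.Agent.TLT (sg)

/-! ### the tests of the weights and shares -/

/-- the test of the weights -/
def sxOk (x : SX Dec) : Bool :=
  Dec.nn x.fU && (Dec.nn (Dec.sub Dec.one x.fU) && (Dec.ps (Dec.sub x.rU Dec.one) &&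
  (Dec.nn (Dec.sub (Dec.mul (Dec.sub x.rU Dec.one) (Dec.sub x.sU Dec.one)) Dec.one) &&
  (Dec.nn x.zU && (Dec.nn (Dec.sub Dec.one x.zU) &&
  (Dec.nn x.fG && (Dec.nn (Dec.sub Dec.one x.fG) && (Dec.ps (Dec.sub x.rG Dec.one) &&
  (Dec.nn (Dec.sub (Dec.mul (Dec.sub x.rG Dec.one) (Dec.sub x.sG Dec.one)) Dec.one) &&
  (Dec.nn x.zG && (Dec.nn (Dec.sub (Dec.sub Dec.one x.zG) x.yG) &&
  (Dec.nn x.fq && (Dec.nn (Dec.sub Dec.one x.fq) && (Dec.nn x.yG &&
  (Dec.nn x.fe && (Dec.nn x.fv && (Dec.nn x.kW && (Dec.nn (Dec.sub Dec.one x.kW) &&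
  Dec.nn (Dec.sub x.fg (Dec.nsm 2 Dec.one))))))))))))))))))))

lemma sxOk_sound {x : SX Dec} (h : sxOk x = true) : (x.map Dec.val).Ok := by
  simp only [sxOk, Bool.and_eq_true] at h
  obtain ⟨k1, k2, k3, k4, k5, k6, k7, k8, k9, k10, k11, k12, k13, k14, k15, k16, k17, k18,
    k19, k20⟩ := h
  have e1 := Dec.nn_iff k1
  have e2 := Dec.nn_iff k2
  have e3 := Dec.ps_iff k3
  have e4 := Dec.nn_iff k4
  have e5 := Dec.nn_iff k5
  have e6 := Dec.nn_iff k6
  have e7 := Dec.nn_iff k7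
  have e8 := Dec.nn_iff k8
  have e9 := Dec.ps_iff k9
  have e10 := Dec.nn_iff k10
  have e11 := Dec.nn_iff k11
  have e12 := Dec.nn_iff k12
  have e13 := Dec.nn_iff k13
  have e14 := Dec.nn_iff k14
  have e15 := Dec.nn_iff k15
  have e16 := Dec.nn_iff k16
  have e17 := Dec.nn_iff k17
  have e18 := Dec.nn_iff k18
  have e19 := Dec.nn_iff k19
  have e20 := Dec.nn_iff k20
  rw [Dec.val_sub, Dec.val_nsm, Dec.val_one] at e20
  push_cast at e20
  simp only [Dec.val_sub, Dec.val_mul, Dec.val_one] at e2 e3 e4 e6 e8 e9 e10 e12 e14 e19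
  constructor <;> simp only [SX.map] <;> linarith

/-- the test of the creation inequalities for `t ≥ t0` -/
def crOk (t0 : Dec) (x : SX Dec) (c2 c1 : TSM.CR) : Bool :=
  TSM.creOk c2 t0 x.la x.ga x.be && (TSM.creOk c1 t0 x.lb x.gb Dec.zero &&
    TSM.dle TSM.creK x.kl)

lemma creL_mono {k k' : ℝ} (h : TSM.CreL k) (h1 : k ≤ k') : TSM.CreL k' where
  kl0 := h.kl0.trans h1
  h := fun p => (h.h p).trans (mul_le_mul_of_nonneg_right
    (mul_le_mul_of_nonneg_left h1 TSM.q0_pos.le) (Real.sqrt_nonneg _))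

lemma crOk_sound {t0 : Dec} {x : SX Dec} {c2 c1 : TSM.CR} (h : crOk t0 x c2 c1 = true) {a : ℝ}
    (h0 : t0.val ≤ a) (h1 : a ≤ q0) : (x.map Dec.val).Cr a := by
  simp only [crOk, Bool.and_eq_true] at h
  obtain ⟨k1, k2, k3⟩ := h
  refine ⟨TSM.creOk_sound k1 h0 h1, ?_, creL_mono TSM.creK_ok (TSM.dle_iff k3)⟩
  have h2 := TSM.creOk_sound k2 h0 h1
  rw [Dec.val_zero] at h2
  exact h2

/-- the bounds of the shape -/
def bdOk (S : FS) (x : SX Dec) : Bool :=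
  Dec.nn (Dec.sub x.fe S.f) && (Dec.nn (Dec.sub x.vm S.vm) && (Dec.nn (Dec.sub x.fv S.fv) &&
    (Dec.nn (Dec.sub x.gm S.gm) && (Dec.nn (Dec.sub x.fg S.fg) &&
    (!S.z || Dec.nn (Dec.neg x.zU))))))

/-- the numbers are equal -/
def eqD (x y : Dec) : Bool := Dec.nn (Dec.sub x y) && Dec.nn (Dec.sub y x)

lemma eqD_iff {x y : Dec} (h : eqD x y = true) : x.val = y.val := by
  unfold eqD at h
  rw [Bool.and_eq_true] at h
  have h1 := Dec.nn_iff h.1
  have h2 := Dec.nn_iff h.2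
  rw [Dec.val_sub] at h1 h2
  linarith

/-- the test of a lower bound `b` of the new `v_y` -/
def loOk (tn n gs : ℕ) (vm gm b : Dec) : Bool :=
  Dec.nn (Dec.sub (Dec.nsm (lo tn) Dec.one) b) ||
    (if gs = 1 then Dec.nn (Dec.sub (Dec.nsm n Dec.one) b)
    else Dec.nn (Dec.sub (Dec.sub (Dec.nsm n Dec.one) (Dec.mul qhi gm)) b) &&
      (Nat.ble 2 gs || (Dec.nn gm && Dec.nn (Dec.sub (Dec.mul gm gm) vm))))

/-- the test of an upper bound `b` of the new `v_y` -/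
def hiOk (tn n gs : ℕ) (vm gm b : Dec) : Bool :=
  Dec.nn (Dec.sub b (Dec.nsm (hi tn) Dec.one)) ||
    (if 2 ≤ gs then Dec.nn (Dec.sub b (Dec.nsm n Dec.one))
    else Dec.nn (Dec.sub b (Dec.add (Dec.nsm n Dec.one) (Dec.mul qhi gm))) &&
      (Nat.beq gs 1 || (Dec.nn gm && Dec.nn (Dec.sub (Dec.mul gm gm) vm))))

lemma abs_gm {vm gm : Dec} {g : ℝ} (h : (Dec.nn gm && Dec.nn (Dec.sub (Dec.mul gm gm) vm)) = true)
    (hg : g ^ 2 ≤ vm.val) : -gm.val ≤ g ∧ g ≤ gm.val := by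
  rw [Bool.and_eq_true] at h
  have h1 := Dec.nn_iff h.1
  have h2 := Dec.nn_iff h.2
  rw [Dec.val_sub, Dec.val_mul] at h2
  exact abs_le.1 (abs_le_of_sq_le_sq' (by nlinarith) h1 |> abs_le.2)

lemma loOk_sound {tn n gs : ℕ} {vm gm b : Dec} (h : loOk tn n gs vm gm b = true) {y g : ℝ}
    (hy : y = n - q0 * g) (hg : GSg gs gm.val g) (hv : g ^ 2 ≤ vm.val) (hl : (lo tn : ℝ) ≤ y) :
    b.val ≤ y := by
  have hq := TSM.q0_pos
  have hq2 := q0_lt_qhi
  unfold loOk at h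
  rw [Bool.or_eq_true] at h
  rcases h with h | h
  · have h1 := Dec.nn_iff h
    rw [Dec.val_sub, Dec.val_nsm, Dec.val_one] at h1
    linarith
  · have key : ∀ G : ℝ, 0 ≤ G → g ≤ G → (n : ℝ) - qhi.val * G ≤ y := by
      intro G h0 h1
      rw [hy]
      have h2 := mul_le_mul_of_nonneg_left h1 hq.le
      have h3 := mul_le_mul_of_nonneg_right hq2.le h0
      linarith
    split_ifs at h with h1
    · have h2 := Dec.nn_iff h
      rw [Dec.val_sub, Dec.val_nsm, Dec.val_one] at h2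
      rcases hg with h3 | ⟨_, h4, _⟩ | ⟨h3, _, _⟩
      · omega
      · rw [hy]
        have := mul_nonneg hq.le (neg_nonneg.2 h4)
        linarith
      · omega
    · rw [Bool.and_eq_true, Bool.or_eq_true] at h
      obtain ⟨h2, h3⟩ := h
      have h2 := Dec.nn_iff h2
      rw [Dec.val_sub, Dec.val_sub, Dec.val_nsm, Dec.val_one, Dec.val_mul] at h2
      have h5 : 0 ≤ gm.val ∧ g ≤ gm.val := by
        rcases h3 with h3 | h3
        · have h3 := Nat.le_of_ble_eq_true h3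
          rcases hg with h4 | ⟨h4, _, _⟩ | ⟨_, h4, h5⟩
          · omega
          · omega
          · exact ⟨h4.trans h5, h5⟩
        · have h4 := h3
          rw [Bool.and_eq_true] at h4
          exact ⟨Dec.nn_iff h4.1, (abs_gm h3 hv).2⟩
      have := key _ h5.1 h5.2
      linarith

lemma hiOk_sound {tn n gs : ℕ} {vm gm b : Dec} (h : hiOk tn n gs vm gm b = true) {y g : ℝ}
    (hy : y = n - q0 * g) (hg : GSg gs gm.val g) (hv : g ^ 2 ≤ vm.val) (hl : y ≤ (hi tn : ℝ)) :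
    y ≤ b.val := by
  have hq := TSM.q0_pos
  have hq2 := q0_lt_qhi
  unfold hiOk at h
  rw [Bool.or_eq_true] at h
  rcases h with h | h
  · have h1 := Dec.nn_iff h
    rw [Dec.val_sub, Dec.val_nsm, Dec.val_one] at h1
    linarith
  · have key : ∀ G : ℝ, 0 ≤ G → -G ≤ g → y ≤ (n : ℝ) + qhi.val * G := by
      intro G h0 h1
      rw [hy]
      have h2 := mul_le_mul_of_nonneg_left h1 hq.le
      have h3 := mul_le_mul_of_nonneg_right hq2.le h0
      linarith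
    split_ifs at h with h1
    · have h2 := Dec.nn_iff h
      rw [Dec.val_sub, Dec.val_nsm, Dec.val_one] at h2
      rcases hg with h3 | ⟨h3, _, _⟩ | ⟨_, h4, _⟩
      · omega
      · omega
      · rw [hy]
        have := mul_nonneg hq.le h4
        linarith
    · rw [Bool.and_eq_true, Bool.or_eq_true] at h
      obtain ⟨h2, h3⟩ := h
      have h2 := Dec.nn_iff h2
      rw [Dec.val_sub, Dec.val_add, Dec.val_nsm, Dec.val_one, Dec.val_mul] at h2
      have h5 : 0 ≤ gm.val ∧ -gm.val ≤ g := by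
        rcases h3 with h3 | h3
        · have h3 := Nat.eq_of_beq_eq_true h3
          rcases hg with h4 | ⟨_, h4, h5⟩ | ⟨h4, _, _⟩
          · omega
          · exact ⟨by linarith, h5⟩
          · omega
        · have h4 := h3
          rw [Bool.and_eq_true] at h4
          exact ⟨Dec.nn_iff h4.1, (abs_gm h3 hv).1⟩
      have := key _ h5.1 h5.2
      linarith

/-- the class and the parity -/
def parOk (pa c : ℕ) : Bool := Nat.beq pa 2 || Nat.beq (c % 2) pa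

/-- the possible numbers of children with `τ = 1` -/
def FS.cok (S : FS) (c : ℕ) : Bool := parOk S.pa c && (Nat.beq S.cl 0 || S.cl.testBit c)

/-- the types of the children -/
def tyL (n3 : Bool) : List ℕ := if n3 then [0, 1, 2] else [0, 1, 2, 3, 4]

/-- the test of the shares of two children -/
def pairOk (n3 : Bool) (ok : ℕ → Bool) (dp dm : S4 Dec) : Bool :=
  (tyL n3).all fun i => (tyL n3).all fun j =>
    !(ok (nz i + nz j)) || Dec.nn (Dec.add (dp.ty i) (dm.ty j))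

/-- the test of the shares of three children -/
def tripOk (n3 : Bool) (ok : ℕ → Bool) (dp dm : S4 Dec) : Bool :=
  (tyL n3).all fun i => (tyL n3).all fun j => (tyL n3).all fun k =>
    !(ok (nz i + nz j + nz k)) ||
      Dec.nn (Dec.add (Dec.add (dp.ty i) (dp.ty j)) (dm.ty k))

/-- the share of the class of a type -/
def zty (z0 z1 : Dec) (t : ℕ) : Dec := if t = 0 then z0 else z1

/-- the test of the shares of many children -/
def manyOk (n3 : Bool) (ep z0 z1 : Dec) (dp dm : S4 Dec) : Bool :=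
  (tyL n3).all fun i =>
    Dec.nn (Dec.sub (Dec.sub (dp.ty i) ep) (zty z0 z1 i)) &&
    Dec.nn (Dec.sub (Dec.add (dm.ty i) ep) (zty z0 z1 i))

/-- the test of the shares of the classes for `M` children; `eo` is the number between the
shares if `M` is odd -/
def clsOk (M : ℕ) (ok : ℕ → Bool) (eo z0 z1 : Dec) : Bool :=
  (List.range (M + 1)).all fun c =>
    !(ok c) || Dec.nn (Dec.add eo (Dec.add (Dec.nsm c z1) (Dec.nsm (M - c) z0)))

/-- a type with a number at most `4` -/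
def m4 (t : ℕ) : ℕ := min t 4

lemma m4_mem (t : ℕ) : m4 t ∈ [0, 1, 2, 3, 4] := by
  have : m4 t ≤ 4 := min_le_right _ _
  interval_cases m4 t <;> simp

lemma nz_m4 (t : ℕ) : nz (m4 t) = nz t := by
  rcases t with _ | t
  · rfl
  · unfold nz m4
    rw [if_neg (by omega), if_neg (by omega)]

lemma S4.ty_m4 {α : Type} (d : S4 α) (t : ℕ) : d.ty (m4 t) = d.ty t := by
  rcases t with _ | _ | _ | _ | t
  · rfl
  · rfl
  · rfl
  · rfl
  · have : m4 (t + 4) = 4 := by unfold m4; omega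
    rw [this]
    rfl

lemma m4_tyL {n3 : Bool} {t : ℕ} (h : n3 = true → t ≤ 2) : m4 t ∈ tyL n3 := by
  cases n3
  · exact m4_mem t
  · have h1 := h rfl
    interval_cases t <;> simp [tyL, m4]

lemma pairOk_sound {n3 : Bool} {ok : ℕ → Bool} {dp dm : S4 Dec}
    (h : pairOk n3 ok dp dm = true) (i j : ℕ) (hi : n3 = true → i ≤ 2) (hj : n3 = true → j ≤ 2)
    (hp : ok (nz i + nz j) = true) : 0 ≤ (dp.map Dec.val).ty i + (dm.map Dec.val).ty j := by
  unfold pairOk at h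
  rw [List.all_eq_true] at h
  have h1 := h _ (m4_tyL hi)
  rw [List.all_eq_true] at h1
  have h2 := h1 _ (m4_tyL hj)
  rw [nz_m4, nz_m4, S4.ty_m4, S4.ty_m4, hp, Bool.not_true, Bool.false_or] at h2
  have h3 := Dec.nn_iff h2
  rw [Dec.val_add] at h3
  rw [S4.map_ty, S4.map_ty]
  exact h3

lemma tripOk_sound {n3 : Bool} {ok : ℕ → Bool} {dp dm : S4 Dec}
    (h : tripOk n3 ok dp dm = true) (i j k : ℕ) (hi : n3 = true → i ≤ 2)
    (hj : n3 = true → j ≤ 2) (hk : n3 = true → k ≤ 2)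
    (hp : ok (nz i + nz j + nz k) = true) :
    0 ≤ (dp.map Dec.val).ty i + (dp.map Dec.val).ty j + (dm.map Dec.val).ty k := by
  unfold tripOk at h
  rw [List.all_eq_true] at h
  have h1 := h _ (m4_tyL hi)
  rw [List.all_eq_true] at h1
  have h2 := h1 _ (m4_tyL hj)
  rw [List.all_eq_true] at h2
  have h2 := h2 _ (m4_tyL hk)
  rw [nz_m4, nz_m4, nz_m4, S4.ty_m4, S4.ty_m4, S4.ty_m4, hp, Bool.not_true,
    Bool.false_or] at h2
  have h3 := Dec.nn_iff h2
  rw [Dec.val_add, Dec.val_add] at h3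
  rw [S4.map_ty, S4.map_ty, S4.map_ty]
  exact h3

lemma zty_m4 (z0 z1 : Dec) (t : ℕ) : zty z0 z1 (m4 t) = zty z0 z1 t := by
  rcases t with _ | t
  · rfl
  · unfold zty m4
    rw [if_neg (by omega), if_neg (by omega)]

lemma manyOk_sound {n3 : Bool} {ep z0 z1 : Dec} {dp dm : S4 Dec}
    (h : manyOk n3 ep z0 z1 dp dm = true) : ∀ t, (n3 = true → t ≤ 2) →
      ep.val + (if t = 0 then z0.val else z1.val) ≤ (dp.map Dec.val).ty t ∧
      -ep.val + (if t = 0 then z0.val else z1.val) ≤ (dm.map Dec.val).ty t := by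
  unfold manyOk at h
  rw [List.all_eq_true] at h
  intro t ht
  have h1 := h _ (m4_tyL ht)
  rw [Bool.and_eq_true, S4.ty_m4, S4.ty_m4, zty_m4] at h1
  have h2 := Dec.nn_iff h1.1
  have h3 := Dec.nn_iff h1.2
  have e1 : (zty z0 z1 t).val = if t = 0 then z0.val else z1.val := by
    unfold zty
    split_ifs <;> rfl
  rw [Dec.val_sub, Dec.val_sub, e1] at h2
  rw [Dec.val_sub, Dec.val_add, e1] at h3
  rw [S4.map_ty, S4.map_ty]
  exact ⟨by linarith, by linarith⟩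

lemma clsOk_sound {M : ℕ} {ok : ℕ → Bool} {eo z0 z1 : Dec} (h : clsOk M ok eo z0 z1 = true)
    {c : ℕ} (hc : c ≤ M) (hp : ok c = true) :
    0 ≤ eo.val + ((c : ℝ) * z1.val + ((M : ℝ) - c) * z0.val) := by
  unfold clsOk at h
  rw [List.all_eq_true] at h
  have h1 := h c (List.mem_range.mpr (by omega))
  rw [hp, Bool.not_true, Bool.false_or] at h1
  have h2 := Dec.nn_iff h1
  rw [Dec.val_add, Dec.val_add, Dec.val_nsm, Dec.val_nsm, Nat.cast_sub hc] at h2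
  exact h2

/-- the test of the shares for at least `q` children -/
def many0 (q : ℕ) (n3 : Bool) (x : FX Dec) : Bool :=
  Dec.nn (Dec.neg x.x.fU) && (Dec.nn (Dec.neg x.x.fG) && (Dec.nn (Dec.neg x.x.fq) &&
    (Dec.nn (Dec.sub (Dec.nsm q x.cm) Dec.one) && (Dec.nn x.z0 && (Dec.nn x.z1 &&
      (Dec.nn (Dec.add (Dec.nsm q x.z0) x.ep) && (Dec.nn (Dec.add (Dec.nsm q x.z1) x.ep) &&
        manyOk n3 x.ep x.z0 x.z1 x.dp x.dm)))))))

/-- the test of the number of the children: `0` for at least four, `100 + q` for at least `q` -/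
def cmOk (S : FS) (x : FX Dec) : Bool :=
  if 100 ≤ S.M then Nat.ble 104 S.M && many0 (S.M - 100) S.n3 x
  else match S.M with
  | 0 => many0 4 S.n3 x
  | 2 => Dec.nn (Dec.sub (Dec.nsm 2 x.cm) Dec.one) && (Dec.nn (Dec.sub Dec.one
      (Dec.nsm 2 x.cm)) && pairOk S.n3 S.cok x.dp x.dm)
  | 3 => Dec.nn (Dec.sub (Dec.nsm 3 x.cm) Dec.one) && tripOk S.n3 S.cok x.dp x.dm
  | 1 => false
  | k + 4 => Dec.nn (Dec.sub (Dec.nsm (k + 4) x.cm) Dec.one) &&
      (clsOk (k + 4) S.cok (if (k + 4) % 2 = 1 then x.ep else Dec.zero) x.z0 x.z1 && manyOk S.n3 x.ep x.z0 x.z1 x.dp x.dm)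

/-- the test of the multipliers of the sums of the signs -/
def esOk (x : FX Dec) : Bool :=
  Dec.nn x.p0 && (Dec.nn x.q0 && (Dec.nn x.p1 && (Dec.nn x.q1 && (Dec.nn x.pN && Dec.nn x.qN))))

/-- the test of the multipliers for the new state -/
def mxOk (x : FX Dec) : Bool :=
  Dec.nn x.eU && (Dec.nn (Dec.sub Dec.one x.eU) && (Dec.ps (Dec.sub x.rA Dec.one) &&
  (Dec.nn (Dec.sub (Dec.mul (Dec.sub x.rA Dec.one) (Dec.sub x.sA Dec.one)) Dec.one) &&
  (Dec.nn x.eY && (Dec.nn (Dec.sub Dec.one x.eY) && (Dec.ps (Dec.sub x.rB Dec.one) &&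
  (Dec.nn (Dec.sub (Dec.mul (Dec.sub x.rB Dec.one) (Dec.sub x.sB Dec.one)) Dec.one) &&
  (Dec.nn x.l1 && (Dec.nn x.l2 && (Dec.nn x.l3 && (Dec.nn x.l4 && (Dec.nn x.lr &&
  Dec.nn x.lu))))))))))))

/-- the conditions on the multipliers for the new state -/
structure FX.MOk (x : FX ℝ) : Prop where
  eU0 : 0 ≤ x.eU
  eU1 : x.eU ≤ 1
  rA : 1 < x.rA
  sA : 1 ≤ (x.rA - 1) * (x.sA - 1)
  eY0 : 0 ≤ x.eY
  eY1 : x.eY ≤ 1
  rB : 1 < x.rB
  sB : 1 ≤ (x.rB - 1) * (x.sB - 1)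
  l1 : 0 ≤ x.l1
  l2 : 0 ≤ x.l2
  l3 : 0 ≤ x.l3
  l4 : 0 ≤ x.l4
  lr : 0 ≤ x.lr
  lu : 0 ≤ x.lu

lemma mxOk_sound {x : FX Dec} (h : mxOk x = true) : (x.map Dec.val).MOk := by
  simp only [mxOk, Bool.and_eq_true] at h
  obtain ⟨k1, k2, k3, k4, k5, k6, k7, k8, k9, k10, k11, k12, k13, k14⟩ := h
  have e1 := Dec.nn_iff k1
  have e2 := Dec.nn_iff k2
  have e3 := Dec.ps_iff k3
  have e4 := Dec.nn_iff k4
  have e5 := Dec.nn_iff k5
  have e6 := Dec.nn_iff k6
  have e7 := Dec.ps_iff k7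
  have e8 := Dec.nn_iff k8
  simp only [Dec.val_sub, Dec.val_mul, Dec.val_one] at e2 e3 e4 e6 e7 e8
  exact ⟨e1, by show x.eU.val ≤ 1; linarith, by show 1 < x.rA.val; linarith,
    by show 1 ≤ (x.rA.val - 1) * (x.sA.val - 1); linarith, e5,
    by show x.eY.val ≤ 1; linarith, by show 1 < x.rB.val; linarith,
    by show 1 ≤ (x.rB.val - 1) * (x.sB.val - 1); linarith, Dec.nn_iff k9, Dec.nn_iff k10,
    Dec.nn_iff k11, Dec.nn_iff k12, Dec.nn_iff k13, Dec.nn_iff k14⟩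

/-- the test of the bounds of the new `v_y` and of the numbers of the region -/
def rgOk (S : FS) (x : FX Dec) : Bool :=
  loOk S.tn S.n S.gs x.x.vm x.x.gm x.lo && (hiOk S.tn S.n S.gs x.x.vm x.x.gm x.hi &&
    (eqD x.sy S.rg.sy && eqD x.su S.rg.su))

/-- the test of the weights of the full norm rule -/
def ny2Ok (kN : Dec) (x : SX Dec) (y : NX Dec) : Bool :=
  Dec.nn y.n3 && (Dec.nn y.n4 && (Dec.nn y.n5 && (Dec.nn y.n7 && (Dec.nn y.nE &&
    (Dec.nn y.kN && (eqD y.kN kN && (Dec.nn (Dec.neg x.zG) &&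
    Dec.nn (Dec.sub (Dec.sub Dec.one x.yG) (Dec.sub
      (Dec.add (Dec.add y.n3 (Dec.add y.n4 y.n5)) y.n7) y.nE)))))))))

/-- the test of the weights for the second role -/
def nyOk (nr : ℕ) (kN : Dec) (x : SX Dec) (y : NX Dec) : Bool :=
  match nr with
  | 0 => true
  | 1 => Dec.nn y.u0 && (Dec.nn y.u1 && Dec.nn y.lN)
  | _ => Dec.nn y.u0 && (Dec.nn y.lN && ny2Ok kN x y)

lemma ny2Ok_sound {kN : Dec} {x : SX Dec} {y : NX Dec} (hx : (x.map Dec.val).Ok)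
    (h : ny2Ok kN x y = true) : (y.map Dec.val).Ok (x.map Dec.val) ∧ y.kN.val = kN.val := by
  simp only [ny2Ok, Bool.and_eq_true] at h
  obtain ⟨k1, k2, k3, k4, k5, k6, k9, k10, k11⟩ := h
  have e10 := Dec.nn_iff k10
  have e11 := Dec.nn_iff k11
  simp only [Dec.val_sub, Dec.val_add, Dec.val_one, Dec.val_neg] at e10 e11
  have e12 : 0 ≤ x.zG.val := hx.zG0
  refine ⟨⟨Dec.nn_iff k1, Dec.nn_iff k2, Dec.nn_iff k3, Dec.nn_iff k4, Dec.nn_iff k5,
    Dec.nn_iff k6, ?_, ?_⟩, eqD_iff k9⟩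
  · show x.zG.val = 0
    linarith
  · show x.yG.val ≤ 1 - (y.n3.val + (y.n4.val + y.n5.val) + y.n7.val - y.nE.val)
    linarith

/-- the test of the weights and shares -/
def fxOk (S : FS) (x : FX Dec) : Bool :=
  sxOk x.x && (bdOk S x.x && (mxOk x && (Dec.nn x.ks && (cmOk S x && (rgOk S x &&
    (nyOk S.nr S.kN x.x x.nx && esOk x))))))

/-! ### the cells -/

/-- the line in one cell -/
def CellF (S : FS) (l : LD Dec) (s : S4 (PS Dec)) (tc : TC) (dc : Seg (Kn Dec)) : Prop :=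
  ∃ (x : FX Dec) (c2 c1 : TSM.CR), (fxOk S x && crOk tc.a x.x c2 c1) = true ∧
    ∀ lam mu : ℝ, 0 ≤ lam → lam ≤ 1 → 0 ≤ mu → mu ≤ 1 →
    GOK 2 tc.x.th.val ((rFE lam mu tc dc l s x).g2 S) ∧
    GOK 1 tc.x.th.val ((rFE lam mu tc dc l s x).g1 S)

/-- the line in all cells; `dl` are the intervals of total masses where the line is used -/
def LineOK (tl : List TC) (dl : List (Seg (Kn Dec))) (S : FS) (l : Kn Dec → LD Dec)
    (s : ℕ → S4 (PS Dec)) : Prop :=
  ∀ tc ∈ tl, ∀ dc ∈ dl, tc.a.val + dc.a.val ≤ 1 / 2 → CellF S (l dc.x) (s dc.x.ix) tc dc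

/-- the group of a type is nonnegative at a point -/
lemma gr_at {F : FE ℝ} {S : FS} {θ : ℝ} (h2 : GOK 2 θ (F.g2 S)) (h1 : GOK 1 θ (F.g1 S)) {p : Pt}
    (hp : Dom θ p) (ty : ℕ) (h3 : S.n3 = true → ty ≤ 2) (hw : (ty = 1 ∨ ty = 2 ∨ ty = 3 → p.w ≤ 1) ∧ (4 ≤ ty → 1 ≤ p.w)) :
    ∀ A ∈ (F.gr S ty).1, ∀ B ∈ (F.gr S ty).2,
      0 ≤ A.ev p.u p.v p.a + B.ev p.y p.w p.b := by
  have hd : ∀ W, p.w ≤ W → DomY 2 W θ p := fun W hW =>
    ⟨hp.v0, hp.v2, hp.a0, hp.hu, hp.w0, hW, hp.b0, hp.hy⟩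
  have hg1 : F.gr S 1 ∈ F.g1 S ∧ F.gr S 2 ∈ F.g1 S := by
    unfold FE.g1
    split_ifs <;> simp
  have hg3 : 3 ≤ ty → F.gr S 3 ∈ F.g1 S ∧ shG (F.gr S 4) ∈ F.g1 S := by
    intro h
    have h4 : S.n3 = false := by
      cases h5 : S.n3
      · rfl
      · have := h3 h5
        omega
    unfold FE.g1
    rw [h4]
    simp
  rcases ty with _ | _ | _ | _ | n
  · exact h2 _ (by simp [FE.g2]) p (hd 2 hp.w2)
  · exact h1 _ hg1.1 p (hd 1 (hw.1 (by simp)))
  · exact h1 _ hg1.2 p (hd 1 (hw.1 (by simp)))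
  · exact h1 _ (hg3 (by omega)).1 p (hd 1 (hw.1 (by simp)))
  · have e0 : F.gr S (n + 4) = F.gr S 4 := rfl
    rw [e0]
    intro A hA B hB
    have h5 := hw.2 (by omega)
    have h6 := h1 (shG (F.gr S 4)) (hg3 (by omega)).2 ⟨p.u, p.v, p.a, p.y - 1, p.w - 1, p.b⟩
      ⟨hp.v0, hp.v2, hp.a0, hp.hu, by simpa using h5, by
        have := hp.w2
        show p.w - 1 ≤ 1
        linarith, hp.b0, by
        have := hp.hy
        show |p.y - 1 - (p.w - 1)| ≤ _
        rwa [show p.y - 1 - (p.w - 1) = p.y - p.w by ring]⟩ A hA (shF B)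
        (List.mem_map.2 ⟨B, hB, rfl⟩)
    have hl : B.l = 0 := by
      have hB' : B ∈ (famG F.px (F.vR S 4) (F.pM S) F.x.x S.M S.n S.gs S.td
          (Ar.mul F.x.cm (F.ka S)) (F.x.dp.ty 4) (F.x.dm.ty 4) (F.s.ty 4).c F.x.l3).2 := by
        exact hB
      simp only [famG] at hB'
      split_ifs at hB'
      · simp only [List.mem_cons, List.not_mem_nil, or_false] at hB'
        rcases hB' with rfl | rfl | rfl | rfl <;> rfl
      · simp only [List.mem_cons, List.not_mem_nil, or_false] at hB'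
        rcases hB' with rfl | rfl <;> rfl
    have e1 : (shF B).ev (p.y - 1) (p.w - 1) p.b = B.ev p.y p.w p.b := by
      unfold QI.ev shF
      simp only [rAdd, rNsm, hl, Nat.cast_ofNat]
      ring
    rw [e1] at h6
    exact h6

variable {tl : List TC} {dl dl' : List (Seg (Kn Dec))} {d : Seg (Kn Dec)} {S : FS}
  {lf : Kn Dec → LD Dec} {sf : ℕ → S4 (PS Dec)}

/-- the data of the line at a point -/
structure LAt (tl : List TC) (dl : List (Seg (Kn Dec))) (d : Seg (Kn Dec)) (S : FS)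
    (lf : Kn Dec → LD Dec) (sf : ℕ → S4 (PS Dec)) (D a : ℝ) (F : FE ℝ) (x : FX Dec) : Prop where
  hE : F.E = enAt tl dl d D a
  hth : th a ≤ F.th
  hl : F.l = (lf (pick dl d D).x).map Dec.val
  hs : F.s = (sf (pick dl d D).x.ix).map (PS.map Dec.val)
  hx : F.x = x.map Dec.val
  hok : fxOk S x = true
  hcr : a ≤ q0 → F.x.x.Cr a
  h2 : GOK 2 (th a) (F.g2 S)
  h1 : GOK 1 (th a) (F.g1 S)

lemma LineOK.at (hc : covers tl dl = true) (hL : LineOK tl dl' S lf sf) {D a : ℝ}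
    (ha : Reg D a) (hm : pick dl d D ∈ dl') : ∃ F x, LAt tl dl d S lf sf D a F x := by
  obtain ⟨tc, htc, lam, mu, hI, h2⟩ := enAt_spec (d := d) hc ha
  obtain ⟨x, c2, c1, hx, h3⟩ := hL tc htc _ hm hI.hs
  rw [Bool.and_eq_true] at hx
  have hta : tc.a.val ≤ a := by
    have h4 := mul_nonneg hI.l0 hI.hw.le
    have h5 := hI.ht
    linarith
  obtain ⟨g2, g1⟩ := h3 lam mu hI.l0 hI.l1 hI.m0 hI.m1
  have key : ∀ W L, GOK W tc.x.th.val L → GOK W (th a) L := by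
    intro W L h g hg p hp
    exact h g hg p ⟨hp.v0, hp.v2, hp.a0, hp.hu.trans (mul_le_mul_of_nonneg_right hI.hth hp.a0),
      hp.w0, hp.w2, hp.b0, hp.hy.trans (mul_le_mul_of_nonneg_right hI.hth hp.b0)⟩
  exact ⟨rFE lam mu tc (pick dl d D) (lf (pick dl d D).x) (sf (pick dl d D).x.ix) x, x,
    h2.symm, hI.hth, rfl, rfl, rfl, hx.1, fun h => crOk_sound hx.2 hta h, key _ _ g2,
    key _ _ g1⟩

end Pool.Agent.TSG
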