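import Pool.Agent.TSG.Glue
import Pool.Agent.TSC.Pack2

set_option autoImplicit false

/-!
# From the boolean test to the lists of inequalities (MP_d27362_co)
-/

namespace Pool.Agent.TSG

open Pool.Agent.TSC
open Pool.Agent.TSM (q0 th RD Reg)
open Polynomial

/-- a list of inequalities, natural in the coefficients -/
structure NL where
  /-- the list -/
  L : (α : Type) → [Ar α] → En α → List (QP α)
  /-- naturality -/
  nat : ∀ {α β : Type} [Ar α] [Ar β] {f : α → β}, ArHom f → ∀ E : En α,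
    (L α E).map (pmap f) = L β (E.map f)

/-- the data at `lam = l`, `mu = m` -/
def pEn (l m : ℕ) (tc : TC) (dc : Seg (Kn Dec)) : En Dec :=
  mkEn (fun x => x) ⟨l, 0, 0⟩ ⟨m, 0, 0⟩ tc dc

/-- the generic data -/
noncomputable def sEn (tc : TC) (dc : Seg (Kn Dec)) : En (DS N2) :=
  mkEn DS.const (DS.of (C X)) (DS.of X) tc dc

lemma sEn_dec (l m : ℕ) (tc : TC) (dc : Seg (Kn Dec)) :
    (sEn tc dc).map (DS.dec (e2 l m)) = pEn l m tc dc := by
  unfold sEn pEn
  rw [map_mkEn (DS.dec_hom _), DS.dec_of, DS.dec_of, e2_X, e2_CX]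
  simp only [DS.dec_const]

lemma sEn_val (x z : ℝ) (tc : TC) (dc : Seg (Kn Dec)) :
    (sEn tc dc).map (DS.val (r2 x z)) = rEn x z tc dc := by
  unfold sEn rEn
  rw [map_mkEn (DS.val_hom _), DS.val_of, DS.val_of, r2_X, r2_CX]
  simp only [DS.val_const]

/-- a point of the state space of width `θ`, with bounds for `v` and `w` -/
structure DomY (WU WY θ : ℝ) (p : Pt) : Prop where
  v0 : 0 ≤ p.v
  v2 : p.v ≤ WU
  a0 : 0 ≤ p.a
  hu : |p.u - p.v| ≤ θ * p.a
  w0 : 0 ≤ p.w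
  w2 : p.w ≤ WY
  b0 : 0 ≤ p.b
  hy : |p.y - p.w| ≤ θ * p.b

lemma Dom.domY {θ : ℝ} {p : Pt} (h : Dom θ p) : DomY 2 2 θ p :=
  ⟨h.v0, h.v2, h.a0, h.hu, h.w0, h.w2, h.b0, h.hy⟩

/-- the inequalities of the list hold in one cell -/
def CellOK (WU WY : ℝ) (tc : TC) (dc : Seg (Kn Dec))
    (L : En ℝ → List (QP ℝ)) : Prop :=
  ∀ lam mu : ℝ, 0 ≤ lam → lam ≤ 1 → 0 ≤ mu → mu ≤ 1 → ∀ q ∈ L (rEn lam mu tc dc), ∀ p,
    DomY WU WY tc.x.th.val p → 0 ≤ hv realHom q p

/-- the base `B`, a power of 10 -/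
def bB : ℕ := 1000000000000000000000000000000000000000000000000000000000000

/-- `B^4` -/
def bM : ℕ := 1000000000000000000000000000000000000000000000000000000000000000000000000000000000000000000000000000000000000000000000000000000000000000000000000000000000000000000000000000000000000000000000000000000000000000000000000000000000000000000000000

lemma bM_eq : bM = bB ^ 4 := by decide +kernel

/-- the test of one list in one cell; `th` is the width with 4 decimals, `K` the packed numbers -/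
def cellOk (G : NL) (nd WU WY th : ℕ) (tc : TC) (dc : Seg (Kn Dec))
    (K : ℕ) : Bool :=
  Dec.nn (Dec.sub ⟨th, 0, 4⟩ tc.x.th) &&
    chkL2 nd WU WY bB bM 44 40 1000000000000000000000000000000000000000 th
      (G.L Dec (pEn bB bM tc dc)) (G.L Dec (pEn bB 1 tc dc)) (G.L Dec (pEn 1 1 tc dc)) K

lemma hv_real (q : QP ℝ) (p : Pt) : hv realHom q p = pev q p.u p.v p.a p.y p.w p.b := rfl

theorem cellOk_sound {G : NL} {nd WU WY th : ℕ} {tc : TC}
    {dc : Seg (Kn Dec)} {K : ℕ} (hWU : 1 ≤ WU) (hWY : 1 ≤ WY)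
    (h : cellOk G nd WU WY th tc dc K = true) : CellOK WU WY tc dc (G.L ℝ) := by
  intro lam mu l0 l1 m0 m1 q hq p hp
  unfold cellOk at h
  rw [Bool.and_eq_true] at h
  obtain ⟨h1, h2⟩ := h
  have h1 := Dec.nn_iff h1
  rw [Dec.val_sub] at h1
  have e1 : Dec.val ⟨th, 0, 4⟩ = (th : ℝ) / 10000 := by
    unfold Dec.val
    norm_num
  rw [e1] at h1
  rw [← sEn_val, ← G.nat (DS.val_hom _)] at hq
  obtain ⟨q', hq', rfl⟩ := List.mem_map.1 hq
  rw [← sEn_dec, ← sEn_dec, ← sEn_dec, ← G.nat (DS.dec_hom _), ← G.nat (DS.dec_hom _),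
    ← G.nat (DS.dec_hom _)] at h2
  have := chkL2_sound bM_eq hWU hWY h2 q' hq' lam mu l0 l1 m0 m1 p.u p.v p.a p.y p.w p.b
    ⟨hp.v0, hp.v2, hp.a0, hp.hu.trans (mul_le_mul_of_nonneg_right (by linarith) hp.a0),
      hp.w0, hp.w2, hp.b0, hp.hy.trans (mul_le_mul_of_nonneg_right (by linarith) hp.b0)⟩
  exact this

/-- the cells do not meet the region -/
def far (tc : TC) (dc : Seg (Kn Dec)) : Bool :=
  Dec.ps (Dec.sub (Dec.add tc.a dc.a) ⟨5, 0, 1⟩)

lemma far_sound {tc : TC} {dc : Seg (Kn Dec)} (h : far tc dc = true) :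
    ¬ tc.a.val + dc.a.val ≤ 1 / 2 := by
  have h := Dec.ps_iff h
  rw [Dec.val_sub, Dec.val_add] at h
  have e1 : Dec.val ⟨5, 0, 1⟩ = 1 / 2 := by
    unfold Dec.val
    norm_num
  rw [e1] at h
  linarith

/-- the test of one list for one interval of `t` -/
def rowOk (G : NL) (nd WU WY th : ℕ) (tc : TC) :
    List (Seg (Kn Dec)) → List ℕ → Bool
  | [], _ => true
  | dc :: dl, K :: Ks => (far tc dc || cellOk G nd WU WY th tc dc K) &&
      rowOk G nd WU WY th tc dl Ks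
  | _ :: _, [] => false

theorem rowOk_sound {G : NL} {nd WU WY th : ℕ} {tc : TC}
    (hWU : 1 ≤ WU) (hWY : 1 ≤ WY) : ∀ {dl : List (Seg (Kn Dec))} {Ks : List ℕ},
    rowOk G nd WU WY th tc dl Ks = true → ∀ dc ∈ dl, tc.a.val + dc.a.val ≤ 1 / 2 →
    CellOK WU WY tc dc (G.L ℝ)
  | [], _, _, dc, hd => by simp at hd
  | d :: dl, [], h, dc, hd => by simp [rowOk] at h
  | d :: dl, K :: Ks, h, dc, hd => by
    intro hs
    simp only [rowOk, Bool.and_eq_true, Bool.or_eq_true] at h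
    obtain ⟨h1, h2⟩ := h
    rcases List.mem_cons.1 hd with rfl | hd
    · rcases h1 with h1 | h1
      · exact absurd hs (far_sound h1)
      · exact cellOk_sound hWU hWY h1
    · exact rowOk_sound hWU hWY h2 dc hd hs

/-- all cells -/
theorem lok_of {tl : List (TC)} {dl : List (Seg (Kn Dec))}
    {L : En ℝ → List (QP ℝ)}
    (h : ∀ tc ∈ tl, ∀ dc ∈ dl, tc.a.val + dc.a.val ≤ 1 / 2 → CellOK 2 2 tc dc L) :
    LOK tl dl L :=
  fun tc ht dc hd hs lam mu l0 l1 m0 m1 q hq p hp =>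
    h tc ht dc hd hs lam mu l0 l1 m0 m1 q hq p hp.domY

/-- all cells, for `v_y ≤ 1` -/
theorem lokw_of {tl : List (TC)} {dl : List (Seg (Kn Dec))}
    {L : En ℝ → List (QP ℝ)}
    (h : ∀ tc ∈ tl, ∀ dc ∈ dl, tc.a.val + dc.a.val ≤ 1 / 2 → CellOK 2 1 tc dc L) :
    LOKw tl dl L :=
  fun tc ht dc hd hs lam mu l0 l1 m0 m1 q hq p hp hw =>
    h tc ht dc hd hs lam mu l0 l1 m0 m1 q hq p
      ⟨hp.v0, hp.v2, hp.a0, hp.hu, hp.w0, hw, hp.b0, hp.hy⟩

end Pool.Agent.TSG
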