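import Pool.Agent.TSG.FamNN
import Pool.Agent.TSG.Lok

set_option autoImplicit false

/-!
# The groups of one line of a rule for a family of children (MP_d27362_co)

`FE` is everything at a point of a cell for one line. `FS` is the shape of the line. `CellF` is the
statement which is checked cell by cell.
-/

namespace Pool.Agent.TSG

open Pool.Agent.TSC
open Pool.Agent.TSM (q0 th RD Reg Sn NS Q5)

/-- weights, slack and shares of one line in one cell -/
structure FX (α : Type) where
  /-- the weights of the splitting -/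
  x : SX α
  /-- is added to the constant -/
  ks : α
  /-- the share of one child of the constant -/
  cm : α
  /-- the shares of the role `+` for the types of the child -/
  dp : S4 α
  /-- the shares of the role `-` for the types of the child -/
  dm : S4 α
  /-- a number between the shares, for many children -/
  ep : α
  /-- the part of `U'²` which is bounded linearly by `v_U'` -/
  eU : α
  /-- factor of the value, for `eU` -/
  rA : α
  /-- factor of the deviation, for `eU` -/
  sA : α
  /-- the part of `y'²` which is bounded linearly by `v_y'` -/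
  eY : α
  /-- factor of the value, for `eY` -/
  rB : α
  /-- factor of the deviation, for `eY` -/
  sB : α
  /-- multiplier of `v_U' ≤ 2` -/
  l1 : α
  /-- multiplier of `0 ≤ v_U'` -/
  l2 : α
  /-- multiplier of the upper bound of `v_y'` -/
  l3 : α
  /-- multiplier of the lower bound of `v_y'` -/
  l4 : α
  /-- multiplier of the region of the sum of the `v_y` of the children -/
  lr : α
  /-- lower bound of the new `v_y` -/
  lo : α
  /-- upper bound of the new `v_y` -/
  hi : α
  /-- the number of the region of the sum of the `v_y` of the children -/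
  sy : α
  /-- the number of the region of the sum of the `v_U` of the children -/
  su : α
  /-- multiplier of the region of the sum of the `v_U` of the children -/
  lu : α
  /-- the weights for the full norm rule -/
  nx : NX α
  /-- multiplier of the lower bound of the sum of the signs of the class `τ = 0` -/
  p0 : α
  /-- multiplier of the upper bound of the sum of the signs of the class `τ = 0` -/
  q0 : α
  /-- multiplier of the lower bound of the sum of the signs of the class `τ = 1` -/
  p1 : α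
  /-- multiplier of the upper bound of the sum of the signs of the class `τ = 1` -/
  q1 : α
  /-- multiplier of the lower bound of the sum of all signs -/
  pN : α
  /-- multiplier of the upper bound of the sum of all signs -/
  qN : α
  /-- the share of one child with `τ = 0` -/
  z0 : α
  /-- the share of one child with `τ = 1` -/
  z1 : α

/-- the coefficients of one line -/
structure LD (α : Type) where
  /-- factor of `t (U')²` -/
  MU : α
  /-- factor of `(y' - ξ)²` -/
  MY : α
  /-- factor of the mixed moment -/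
  al : α
  /-- factor of `t² U'² + t (y' - ξ)²` -/
  b : α
  /-- factor of the pending cost of the new vertex -/
  z : α
  /-- constant -/
  k0 : α
  /-- constant, factor of `t` -/
  k1 : α
  /-- gain: constant -/
  g0 : α
  /-- gain: factor of `y'` -/
  g1 : α
  /-- factor of the pending costs of the children -/
  sr : α

/-- a pending cost as a polynomial in `u`, `y` -/
structure QA (α : Type) where
  /-- constant -/
  c : α
  /-- coefficient of `u` -/
  al : α
  /-- coefficient of `u²` -/
  be : α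
  /-- coefficient of `y` -/
  ga : α
  /-- coefficient of `y²` -/
  de : α

/-- the payment of a child: a constant and factors of `v_U`, `a_U²`, `v_y`, `a_y²` -/
structure PS (α : Type) where
  /-- constant -/
  c : α
  /-- factor of `v_U` -/
  vU : α
  /-- factor of `a_U²` -/
  aU : α
  /-- factor of `v_y` -/
  vY : α
  /-- factor of `a_y²` -/
  aY : α

/-- apply a function to the coefficients -/
def PS.map {α β : Type} (f : α → β) (k : PS α) : PS β := ⟨f k.c, f k.vU, f k.aU, f k.vY, f k.aY⟩

/-- everything at a point of a cell for one line -/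
structure FE (α : Type) where
  /-- the data of the cell -/
  E : En α
  /-- upper bound of the width -/
  th : α
  /-- the line -/
  l : LD α
  /-- the payments -/
  s : S4 (PS α)
  /-- the weights and shares -/
  x : FX α

/-- a region: `rg = 0` for all, `rg = 1` for `Σ v_y ≤ sy`, `rg = 2` for `sy ≤ Σ v_y`, the same
with `ru`, `su` for the sum of the `v_U` -/
structure Rg where
  /-- the kind for `v_y` -/
  rg : ℕ
  /-- the kind for `v_U` -/
  ru : ℕ
  /-- the number for `v_y` -/
  sy : Dec
  /-- the number for `v_U` -/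
  su : Dec

/-- no region -/
def rg0 : Rg := ⟨0, 0, Dec.zero, Dec.zero⟩

/-- the shape of a line: the new type, the label of `y'`, the number of children (`0` for at least
four), the gain `ξ ∈ {0, 1}` of the trivial child, the parity of the number of children with
`τ = 1` (`2` for any), the region, the sign of the value of `G` (`0` for any, `1` for `≤ 0`, `2`
for `≥ 0`), whether the role is the sign `σ` (`0` for no), bounds, whether nothing is known
about the value of `U'`, what is known about the second role (`0` for nothing, `1` for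
`2 ≤ Σ r v_U`, `2` for the full norm rule), and which signs and second roles are excluded (bits
`4 class + 2 role + sign`) -/
structure FS where
  /-- the new type -/
  tn : ℕ
  /-- the label of `y'` -/
  n : ℕ
  /-- the number of children or `0` -/
  M : ℕ
  /-- the gain of the trivial child -/
  xi : ℕ
  /-- the parity -/
  pa : ℕ
  /-- the region -/
  rg : Rg
  /-- the sign of the value of `G` -/
  gs : ℕ
  /-- roles and signs -/
  td : ℕ
  /-- the factor of the edge signs: `a_U'² ≤ f Σ a_y²` -/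
  f : Dec
  /-- bound of the square of the value of `G` -/
  vm : Dec
  /-- the square of the value of `G` is at most `fv Σ v_U²` -/
  fv : Dec
  /-- bound of the absolute value of the value of `G` (if `gs ≠ 0`) -/
  gm : Dec
  /-- the factor of the edge signs: `a_G² ≤ fg Σ a_U²` -/
  fg : Dec
  /-- nothing is known about the value of `U'` besides its bounds -/
  z : Bool := false
  /-- what is known about the second role -/
  nr : ℕ := 0
  /-- the factor of the width in the norm -/
  kN : Dec := Dec.zero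
  /-- the excluded signs and second roles -/
  msk : ℕ := 0
  /-- the possible numbers of children with `τ = 1` (a set of bits), `0` if nothing is known -/
  cl : ℕ := 0
  /-- which sums of signs are known: of the class `τ = 0` (bit `0`), of the class `τ = 1`
  (bit `1`), of all children (bit `2`) -/
  ek : ℕ := 0
  /-- lower bound of the sum of the signs of the class `τ = 0` -/
  e0l : ℤ := 0
  /-- upper bound of the sum of the signs of the class `τ = 0` -/
  e0h : ℤ := 0
  /-- lower bound of the sum of the signs of the class `τ = 1` -/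
  e1l : ℤ := 0
  /-- upper bound of the sum of the signs of the class `τ = 1` -/
  e1h : ℤ := 0
  /-- lower bound of the sum of all signs -/
  eNl : ℤ := 0
  /-- upper bound of the sum of all signs -/
  eNh : ℤ := 0
  /-- only children of the types `0`, `1`, `2` -/
  n3 : Bool := false

/-- apply a function to the coefficients -/
def FX.map {α β : Type} (f : α → β) (x : FX α) : FX β :=
  ⟨x.x.map f, f x.ks, f x.cm, x.dp.map f, x.dm.map f, f x.ep, f x.eU, f x.rA, f x.sA, f x.eY,
    f x.rB, f x.sB, f x.l1, f x.l2, f x.l3, f x.l4, f x.lr, f x.lo, f x.hi, f x.sy, f x.su,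
    f x.lu, x.nx.map f, f x.p0, f x.q0, f x.p1, f x.q1, f x.pN, f x.qN, f x.z0, f x.z1⟩

/-- apply a function to the coefficients -/
def LD.map {α β : Type} (f : α → β) (l : LD α) : LD β :=
  ⟨f l.MU, f l.MY, f l.al, f l.b, f l.z, f l.k0, f l.k1, f l.g0, f l.g1, f l.sr⟩

/-- apply a function to the coefficients -/
def QA.map {α β : Type} (f : α → β) (q : QA α) : QA β := ⟨f q.c, f q.al, f q.be, f q.ga, f q.de⟩

/-- apply a function to the coefficients -/
def FE.map {α β : Type} (f : α → β) (F : FE α) : FE β :=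
  ⟨F.E.map f, f F.th, F.l.map f, F.s.map (PS.map f), F.x.map f⟩

/-- the real coefficients -/
def QA.q5 (q : QA ℝ) : Q5 := ⟨q.c, q.al, q.be, q.ga, q.de⟩

section gen

variable {α : Type} [Ar α]

/-- the coefficients of a type -/
def VT.na (τ : VT α) : NA α :=
  ⟨τ.c, τ.al, τ.be, τ.ga, τ.de, τ.lU, τ.qU, τ.ly, τ.qy, τ.cv, τ.dv⟩

/-- a pending cost of the general form -/
def pqA (t : α) (p : PQ α) : QA α :=
  ⟨p.p0, Ar.mul t p.p4, Ar.mul t (Ar.add p.p5 (Ar.mul p.p6 t)), p.p1, Ar.add p.p2 (Ar.mul p.p3 t)⟩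

/-- the pending cost of a type -/
def pdQ (E : En α) : ℕ → QA α
  | 0 => ⟨Ar.zero, Ar.zero, Ar.mul E.k.pd.C0 (Ar.mul E.t E.t), Ar.zero, Ar.mul E.k.pd.C0 E.t⟩
  | 1 => ⟨kq E, Ar.zero, Ar.mul E.k.pd.cu E.t, Ar.nsm 2 (kq E), kq E⟩
  | 2 => ⟨Ar.zero, Ar.zero, Ar.mul E.t (zc E), Ar.zero, zc E⟩
  | 3 => pqA E.t E.k.pd.p3
  | _ + 4 => pqA E.t E.k.pd.p4

/-- subtract a multiple of a pending cost -/
def NA.sub (v : NA α) (s : α) (q : QA α) : NA α :=
  v.add (Ar.neg (Ar.mul s q.c)) (Ar.neg (Ar.mul s q.al)) (Ar.neg (Ar.mul s q.be))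
    (Ar.neg (Ar.mul s q.ga)) (Ar.neg (Ar.mul s q.de))

/-- the coefficients of the new state for one line -/
def NA.lf (p : NA α) (q : QA α) (L : LD α) (xi : ℕ) (t : α) : NA α :=
  p.add
    (Ar.sub (Ar.add (Ar.nsm xi (Ar.add L.MY (Ar.mul (Ar.sub L.b L.al) t)))
      (Ar.add L.k0 (Ar.mul L.k1 t))) (Ar.add L.g0 (Ar.mul L.z q.c)))
    (Ar.neg (Ar.add (Ar.mul L.al t) (Ar.mul L.z q.al)))
    (Ar.sub (Ar.add (Ar.mul L.MU t) (Ar.mul L.b (Ar.mul t t))) (Ar.mul L.z q.be))
    (Ar.sub (Ar.nsm xi (Ar.sub (Ar.mul (Ar.sub L.al (Ar.nsm 2 L.b)) t) (Ar.nsm 2 L.MY)))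
      (Ar.add L.g1 (Ar.mul L.z q.ga)))
    (Ar.sub (Ar.add L.MY (Ar.mul L.b t)) (Ar.mul L.z q.de))

/-- the numbers of the point -/
def FE.px (F : FE α) : PX α := ⟨F.E.t, F.E.D, F.E.D2, F.E.w, F.E.T, F.E.Tl, F.th⟩

/-- the new state: potential and costs -/
def FE.pN (F : FE α) (S : FS) : NA α :=
  ((F.E.V.ty S.tn).na).lf (pdQ F.E S.tn) F.l S.xi F.E.t

/-- the lower bound of `v_y` of a type -/
def lo : ℕ → ℕ
  | _ + 4 => 1
  | _ => 0

/-- the upper bound of `v_y` of a type -/
def hi : ℕ → ℕ
  | 0 => 2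
  | _ + 4 => 2
  | _ => 1

/-- the new state with the bounds for `v_U'`, `v_y'` -/
def FE.pM (F : FE α) (S : FS) : NA α where
  c := Ar.sub (Ar.add (F.pN S).c (Ar.add (Ar.nsm 2 F.x.l1) (Ar.mul F.x.hi F.x.l3)))
    (Ar.add (Ar.mul F.x.lo F.x.l4)
      (Ar.mul (Ar.mul F.x.lo F.x.hi) (Ar.mul F.x.rB (Ar.mul F.x.eY (F.pN S).de))))
  al := (F.pN S).al
  be := Ar.mul (Ar.sub Ar.one F.x.eU) (F.pN S).be
  ga := (F.pN S).ga
  de := Ar.mul (Ar.sub Ar.one F.x.eY) (F.pN S).de
  lU := (F.pN S).lU
  qU := Ar.add (F.pN S).qU (Ar.mul F.x.sA (Ar.mul (Ar.mul F.th F.th)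
    (Ar.mul F.x.eU (F.pN S).be)))
  ly := (F.pN S).ly
  qy := Ar.add (F.pN S).qy (Ar.mul F.x.sB (Ar.mul (Ar.mul F.th F.th)
    (Ar.mul F.x.eY (F.pN S).de)))
  cv := Ar.add (Ar.add (F.pN S).cv (Ar.sub F.x.l2 F.x.l1))
    (Ar.nsm 2 (Ar.mul F.x.rA (Ar.mul F.x.eU (F.pN S).be)))
  dv := Ar.add (Ar.add (F.pN S).dv (Ar.sub F.x.l4 F.x.l3))
    (Ar.mul (Ar.add F.x.lo F.x.hi) (Ar.mul F.x.rB (Ar.mul F.x.eY (F.pN S).de)))

/-- the multiplier of the region with its sign -/
def FE.lm (F : FE α) (S : FS) : α :=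
  match S.rg.rg with
  | 0 => Ar.zero
  | 1 => F.x.lr
  | _ => Ar.neg F.x.lr

/-- the multiplier of the region of the `v_U` with its sign -/
def FE.ln (F : FE α) (S : FS) : α :=
  match S.rg.ru with
  | 0 => Ar.zero
  | 1 => F.x.lu
  | _ => Ar.neg F.x.lu

/-- the coefficients of a child of type `ty` -/
def FE.vC (F : FE α) (ty : ℕ) : NA α := ((F.E.V.ty ty).na).sub F.l.sr (pdQ F.E ty)

/-- the lower bound of the factor of the payment -/
def En.zp (E : En α) : α := Ar.sub (Ar.mul E.D2 E.w) E.D

/-- add multiples of the values `v_y`, `v_U` and the variable part of the payment -/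
def NA.pay (v : NA α) (l l' : α) (s : PS α) (z : α) : NA α :=
  ⟨v.c, v.al, v.be, v.ga, v.de, v.lU, Ar.add v.qU (Ar.mul s.aU z), v.ly,
    Ar.add v.qy (Ar.mul s.aY z), Ar.add (Ar.add v.cv l') (Ar.mul s.vU z),
    Ar.add (Ar.add v.dv l) (Ar.mul s.vY z)⟩

/-- the coefficients of a child of type `ty` with the multiplier of the region and the variable
part of the payment -/
def FE.vR (F : FE α) (S : FS) (ty : ℕ) : NA α :=
  (F.vC ty).pay (F.lm S) (F.ln S) (F.s.ty ty) F.E.zp

/-- an integral multiple -/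
def izm (z : ℤ) (x : α) : α :=
  match z with
  | Int.ofNat n => Ar.nsm n x
  | Int.negSucc n => Ar.neg (Ar.nsm (n + 1) x)

/-- the share of the sign of a child -/
def FE.es (F : FE α) (S : FS) (ty : ℕ) : α :=
  Ar.add (match ty with
    | 0 => if S.ek.testBit 0 then Ar.sub F.x.p0 F.x.q0 else Ar.zero
    | _ => if S.ek.testBit 1 then Ar.sub F.x.p1 F.x.q1 else Ar.zero)
    (if S.ek.testBit 2 then Ar.sub F.x.pN F.x.qN else Ar.zero)

/-- the lower bound of the sum of the shares of the signs -/
def FE.eL (F : FE α) (S : FS) : α :=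
  Ar.add (if S.ek.testBit 0 then Ar.sub (izm S.e0l F.x.p0) (izm S.e0h F.x.q0) else Ar.zero)
    (Ar.add (if S.ek.testBit 1 then Ar.sub (izm S.e1l F.x.p1) (izm S.e1h F.x.q1) else Ar.zero)
      (if S.ek.testBit 2 then Ar.sub (izm S.eNl F.x.pN) (izm S.eNh F.x.qN) else Ar.zero))

/-- the constant without the additional constant, the regions and the shares of the signs -/
def FE.kq (F : FE α) (S : FS) : α :=
  match S.nr with
  | 0 => kapA F.px (F.pM S) F.x.x S.n S.gs
  | 1 => Ar.sub (kapA F.px (F.pM S) F.x.x S.n S.gs) (Ar.nsm 2 F.x.nx.lN)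
  | _ => Ar.sub (kapN F.px (F.pM S) F.x.x F.x.nx S.n S.gs) (Ar.nsm 2 F.x.nx.lN)

/-- the constant without the additional constant and the regions -/
def FE.kp (F : FE α) (S : FS) : α := Ar.sub (F.kq S) (F.eL S)

/-- the constant of the line -/
def FE.ka (F : FE α) (S : FS) : α :=
  Ar.add (F.kp S)
    (Ar.add F.x.ks (Ar.add (Ar.mul F.x.sy (F.lm S)) (Ar.mul F.x.su (F.ln S))))

/-- the share of the second role -/
def FE.uu (F : FE α) : ℕ → α
  | 0 => F.x.nx.u0
  | _ => F.x.nx.u1

/-- the share of one child of the constant, with the share of its sign -/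
def FE.kk (F : FE α) (S : FS) (ty : ℕ) (b : Bool) : α :=
  if b then Ar.add (Ar.mul F.x.cm (F.ka S)) (F.es S ty)
  else Ar.sub (Ar.mul F.x.cm (F.ka S)) (F.es S ty)

/-- a sign and a second role are excluded for a type -/
def FS.ex (S : FS) (ty : ℕ) (b r : Bool) : Bool :=
  Nat.testBit S.msk ((match ty with | 0 => 0 | _ => 4) + 2 * r.toNat + b.toNat)

/-- the form of the `U` part of a child with the sign `b` and the second role `r` -/
def FE.fU (F : FE α) (S : FS) (ty : ℕ) (b r : Bool) : QI α :=
  match S.nr with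
  | 0 => famU F.px (F.vR S ty) (F.pM S) (ctA F.px (F.pM S) F.x.x S.M S.n)
      (F.kk S ty b) (F.s.ty ty).c (yyG F.px (F.pM S) F.x.x S.gs) F.x.l3 b
  | 1 => roleU (famU F.px (F.vR S ty) (F.pM S) (ctA F.px (F.pM S) F.x.x S.M S.n)
      (F.kk S ty b) (F.s.ty ty).c (yyG F.px (F.pM S) F.x.x S.gs) F.x.l3 b)
      (F.uu ty) F.x.nx.lN Ar.zero r
  | _ => roleU (famU F.px (F.vR S ty) (F.pM S) (ctN F.px (F.pM S) F.x.x F.x.nx S.M S.n)
      (F.kk S ty b) (F.s.ty ty).c (yyG F.px (F.pM S) F.x.x S.gs) F.x.l3 b)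
      (F.uu ty) (wN1 F.px (F.pM S) F.x.x F.x.nx) (Ar.mul F.x.nx.n4 (zzG F.px (F.pM S) F.x.x)) r

/-- the forms of the `U` part of a child of type `ty` -/
def FE.gU (F : FE α) (S : FS) (ty : ℕ) : List (QI α) :=
  (if S.ex ty true true then [] else [F.fU S ty true true]) ++
    ((if S.ex ty false true then [] else [F.fU S ty false true]) ++
    ((if S.nr = 0 ∨ S.ex ty true false = true then [] else [F.fU S ty true false]) ++
    (if S.nr = 0 ∨ S.ex ty false false = true then [] else [F.fU S ty false false])))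

/-- the group of a child of type `ty` -/
def FE.gr (F : FE α) (S : FS) (ty : ℕ) : GP α :=
  (F.gU S ty, (famG F.px (F.vR S ty) (F.pM S) F.x.x S.M S.n S.gs S.td (Ar.mul F.x.cm (F.ka S))
    (F.x.dp.ty ty) (F.x.dm.ty ty) (F.s.ty ty).c F.x.l3).2)

/-- minus the rest of the width of `G` for the full norm rule -/
def FE.rr (F : FE α) (S : FS) : α :=
  if 2 ≤ S.nr then Ar.neg (rN F.px (F.pM S) F.x.x F.x.nx) else Ar.zero

/-- constants which have to be nonnegative -/
def FE.cs (F : FE α) (S : FS) : List α :=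
  [if S.M = 2 then Ar.zero else F.ka S, (F.pN S).be, (F.pN S).de,
    Ar.add (F.pM S).dv F.x.l3, wwG F.px (F.pM S) F.x.x, F.rr S]

/-- the groups with `v_y ≤ 2` -/
def FE.g2 (F : FE α) (S : FS) : List (GP α) := [cstG (F.cs S), F.gr S 0]

/-- the groups with `v_y ≤ 1` -/
def FE.g1 (F : FE α) (S : FS) : List (GP α) :=
  if S.n3 then [F.gr S 1, F.gr S 2] else [F.gr S 1, F.gr S 2, F.gr S 3, shG (F.gr S 4)]

end gen

/-! ### naturality -/

section nat

variable {α β : Type} [Ar α] [Ar β] {f : α → β} (hf : ArHom f)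

omit [Ar α] [Ar β] in
lemma map_vtna (τ : VT α) : (τ.na).map f = (τ.map f).na := rfl

omit [Ar α] [Ar β] in
lemma map_px (F : FE α) : F.px.map f = (F.map f).px := rfl

include hf

lemma map_pdQ (E : En α) (ty : ℕ) : (pdQ E ty).map f = pdQ (E.map f) ty := by
  rcases ty with _ | _ | _ | _ | n <;>
    simp only [pdQ, QA.map, hf.zero, hf.mul, hf.nsm, hf.add, kq, zc, pqA] <;> rfl

lemma map_nasub (v : NA α) (s : α) (q : QA α) :
    (v.sub s q).map f = (v.map f).sub (f s) (q.map f) := by
  simp only [NA.sub, map_naAdd hf, hf.neg, hf.mul]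
  rfl

lemma map_lf (p : NA α) (q : QA α) (L : LD α) (xi : ℕ) (t : α) :
    (p.lf q L xi t).map f = (p.map f).lf (q.map f) (L.map f) xi (f t) := by
  simp only [NA.lf, map_naAdd hf, hf.neg, hf.mul, hf.add, hf.sub, hf.nsm]
  rfl

lemma map_pN (F : FE α) (S : FS) : (F.pN S).map f = (F.map f).pN S := by
  simp only [FE.pN, map_lf hf, map_vtna, map_pdQ hf]
  rw [← VD.map_ty]
  rfl

lemma map_pM (F : FE α) (S : FS) : (F.pM S).map f = (F.map f).pM S := by
  have h1 := map_pN hf F S
  unfold FE.pM
  rw [← h1]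
  simp only [NA.map, hf.add, hf.sub, hf.mul, hf.nsm, hf.one]
  rfl

lemma map_fvC (F : FE α) (ty : ℕ) : (F.vC ty).map f = (F.map f).vC ty := by
  simp only [FE.vC, map_nasub hf, map_vtna, map_pdQ hf]
  rw [← VD.map_ty]
  rfl

lemma map_lm (F : FE α) (S : FS) : f (F.lm S) = (F.map f).lm S := by
  unfold FE.lm
  rcases S.rg.rg with _ | _ | n
  · exact hf.zero
  · rfl
  · exact hf.neg _

lemma map_ln (F : FE α) (S : FS) : f (F.ln S) = (F.map f).ln S := by
  unfold FE.ln
  rcases S.rg.ru with _ | _ | n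
  · exact hf.zero
  · rfl
  · exact hf.neg _

lemma map_zp (E : En α) : f E.zp = (E.map f).zp := by
  simp only [En.zp, hf.sub, hf.mul]
  rfl

lemma map_pay (v : NA α) (l l' : α) (s : PS α) (z : α) :
    (v.pay l l' s z).map f = (v.map f).pay (f l) (f l') (s.map f) (f z) := by
  simp only [NA.pay, NA.map, PS.map, hf.add, hf.mul]

lemma map_fvR (F : FE α) (S : FS) (ty : ℕ) : (F.vR S ty).map f = (F.map f).vR S ty := by
  unfold FE.vR
  rw [map_pay hf, map_fvC hf, map_lm hf, map_ln hf, map_zp hf, ← S4.map_ty (PS.map f)]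
  rfl

lemma map_izm (z : ℤ) (x : α) : f (izm z x) = izm z (f x) := by
  rcases z with n | n
  · exact hf.nsm n x
  · show f (Ar.neg (Ar.nsm (n + 1) x)) = Ar.neg (Ar.nsm (n + 1) (f x))
    rw [hf.neg, hf.nsm]

lemma map_es (F : FE α) (S : FS) (ty : ℕ) : f (F.es S ty) = (F.map f).es S ty := by
  unfold FE.es
  rcases ty with _ | _ <;> simp only [hf.add, apply_ite f, hf.sub, hf.zero] <;> rfl

lemma map_eL (F : FE α) (S : FS) : f (F.eL S) = (F.map f).eL S := by
  unfold FE.eL
  simp only [hf.add, apply_ite f, hf.sub, hf.zero, map_izm hf]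
  rfl

lemma map_fkq (F : FE α) (S : FS) : f (F.kq S) = (F.map f).kq S := by
  unfold FE.kq
  rcases S.nr with _ | _ | _
  · show f (kapA _ _ _ _ _) = _
    rw [map_kapA hf, map_pM hf]
    rfl
  · show f (Ar.sub _ _) = _
    rw [hf.sub, hf.nsm, map_kapA hf, map_pM hf]
    rfl
  · show f (Ar.sub _ _) = _
    rw [hf.sub, hf.nsm, map_kapN hf, map_pM hf]
    rfl

lemma map_kp (F : FE α) (S : FS) : f (F.kp S) = (F.map f).kp S := by
  unfold FE.kp
  rw [hf.sub, map_fkq hf, map_eL hf]

lemma map_ka (F : FE α) (S : FS) : f (F.ka S) = (F.map f).ka S := by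
  simp only [FE.ka, hf.add, map_kp hf, hf.mul, map_lm hf, map_ln hf]
  rfl

lemma map_kk (F : FE α) (S : FS) (ty : ℕ) (b : Bool) : f (F.kk S ty b) = (F.map f).kk S ty b := by
  unfold FE.kk
  cases b
  · show f (Ar.sub _ _) = _
    rw [hf.sub, hf.mul, map_ka hf, map_es hf]
    rfl
  · show f (Ar.add _ _) = _
    rw [hf.add, hf.mul, map_ka hf, map_es hf]
    rfl

lemma map_rr (F : FE α) (S : FS) : f (F.rr S) = (F.map f).rr S := by
  unfold FE.rr
  split_ifs with h
  · rw [hf.neg, map_rN hf, map_pM hf]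
    rfl
  · exact hf.zero

lemma map_fU (F : FE α) (S : FS) (ty : ℕ) (b r : Bool) :
    (F.fU S ty b r).map f = (F.map f).fU S ty b r := by
  have h1 : f (F.uu ty) = (F.map f).uu ty := by rcases ty with _ | _ <;> rfl
  have h4 : f (F.s.ty ty).c = ((F.map f).s.ty ty).c := by
    rcases ty with _ | _ | _ | _ | _ <;> rfl
  unfold FE.fU
  rcases S.nr with _ | _ | _
  · show QI.map f (famU _ _ _ _ _ _ _ _ _) = _
    rw [map_famU hf, map_fvR hf, map_ctA hf, map_yyG hf, map_kk hf, map_pM hf, h4]
    rfl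
  · show QI.map f (roleU _ _ _ _ _) = _
    rw [map_roleU hf, map_famU hf, map_fvR hf, map_ctA hf, map_yyG hf, map_kk hf,
      map_pM hf, h4, h1, hf.zero]
    rfl
  · show QI.map f (roleU _ _ _ _ _) = _
    rw [map_roleU hf, map_famU hf, map_fvR hf, map_ctN hf, map_yyG hf, map_kk hf,
      map_pM hf, h4, h1, map_wN1 hf, hf.mul, map_zzG hf, map_pM hf]
    rfl

lemma map_gU (F : FE α) (S : FS) (ty : ℕ) : (F.gU S ty).map (QI.map f) = (F.map f).gU S ty := by
  simp only [FE.gU, List.map_append, apply_ite (List.map (QI.map f)), List.map_cons,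
    List.map_nil, map_fU hf]

lemma gmap_gr (F : FE α) (S : FS) (ty : ℕ) : gmap f (F.gr S ty) = (F.map f).gr S ty := by
  have h2 : f (F.x.dp.ty ty) = (F.map f).x.dp.ty ty := by
    rcases ty with _ | _ | _ | _ | _ <;> rfl
  have h3 : f (F.x.dm.ty ty) = (F.map f).x.dm.ty ty := by
    rcases ty with _ | _ | _ | _ | _ <;> rfl
  have h4 : f (F.s.ty ty).c = ((F.map f).s.ty ty).c := by
    rcases ty with _ | _ | _ | _ | _ <;> rfl
  have h5 := gmap_famG hf F.px (F.vR S ty) (F.pM S) F.x.x S.M S.n S.gs S.td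
    (Ar.mul F.x.cm (F.ka S)) (F.x.dp.ty ty) (F.x.dm.ty ty) (F.s.ty ty).c F.x.l3
  rw [map_fvR hf, map_pM hf, hf.mul, map_ka hf, h2, h3, h4] at h5
  have h6 := congrArg Prod.snd h5
  unfold FE.gr gmap
  simp only [map_gU hf]
  exact congrArg (Prod.mk _) h6

lemma map_cs (F : FE α) (S : FS) : (F.cs S).map f = (F.map f).cs S := by
  have h1 := map_pN hf F S
  have h2 := map_pM hf F S
  simp only [FE.cs, List.map_cons, List.map_nil, apply_ite f, hf.zero, hf.add, map_ka hf,
    map_wwG hf, map_rr hf, ← h1, ← h2]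
  rfl

lemma map_g2 (F : FE α) (S : FS) : (F.g2 S).map (gmap f) = (F.map f).g2 S := by
  simp only [FE.g2, List.map_cons, List.map_nil, gmap_cstG hf, map_cs hf, gmap_gr hf]

lemma map_g1 (F : FE α) (S : FS) : (F.g1 S).map (gmap f) = (F.map f).g1 S := by
  unfold FE.g1
  split_ifs
  · simp only [List.map_cons, List.map_nil, gmap_gr hf]
  · simp only [List.map_cons, List.map_nil, gmap_shG hf, gmap_gr hf]

end nat

/-! ### the point of a cell -/

section mk

variable {α : Type} [Ar α]

/-- the data of a point, `c` embeds the decimal numbers -/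
def mkFE (c : Dec → α) (lam mu : α) (tc : TC) (dc : Seg (Kn Dec)) (l : LD Dec)
    (s : S4 (PS Dec)) (x : FX Dec) : FE α :=
  ⟨mkEn c lam mu tc dc, c tc.x.th, l.map c, s.map (PS.map c), x.map c⟩

variable {β : Type} [Ar β] {f : α → β}

lemma map_mkFE (hf : ArHom f) (c : Dec → α) (lam mu : α) (tc : TC) (dc : Seg (Kn Dec))
    (l : LD Dec) (s : S4 (PS Dec)) (x : FX Dec) : (mkFE c lam mu tc dc l s x).map f =
      mkFE (fun y => f (c y)) (f lam) (f mu) tc dc l s x := by
  unfold mkFE FE.map
  simp only [map_mkEn hf]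
  rfl

end mk

/-- the real data of a point -/
noncomputable def rFE (lam mu : ℝ) (tc : TC) (dc : Seg (Kn Dec)) (l : LD Dec)
    (s : S4 (PS Dec)) (x : FX Dec) : FE ℝ := mkFE Dec.val lam mu tc dc l s x

/-- the groups of a list are nonnegative on the domain -/
def GOK (W θ : ℝ) (L : List (GP ℝ)) : Prop :=
  ∀ g ∈ L, ∀ p : Pt, DomY 2 W θ p → ∀ F ∈ g.1, ∀ G ∈ g.2,
    0 ≤ F.ev p.u p.v p.a + G.ev p.y p.w p.b

end Pool.Agent.TSG
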