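import Pool.Agent.TSC.Chk
import Pool.Agent.TSM.EvenL

set_option autoImplicit false

/-!
# The groups of forms of one child for families of children (MP_d27362_co)

A line of a rule is given by the coefficients `NA` of the new state (potential and costs). The
constants `SX` are the weights of the splitting of the new state into terms of the children. A
group is a list of forms of the `U` part and a list of forms of the `y` part; all the sums of two
of them have to be nonnegative.
-/

namespace Pool.Agent.TSG

open Pool.Agent.TSC (Ar Hom ArHom QI pmap pev realHom)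
open Pool.Agent.TSM (Sn NS CT Spl Wt)

/-- the coefficients of a state: potential and costs -/
structure NA (α : Type) where
  /-- constant -/
  c : α
  /-- coefficient of `u` -/
  al : α
  /-- coefficient of `u²` -/
  be : α
  /-- coefficient of `y` -/
  ga : α
  /-- coefficient of `y²` -/
  de : α
  /-- coefficient of `a_U` -/
  lU : α
  /-- coefficient of `a_U²` -/
  qU : α
  /-- coefficient of `a_y` -/
  ly : α
  /-- coefficient of `a_y²` -/
  qy : α
  /-- coefficient of `v_U` -/
  cv : α
  /-- coefficient of `v_y` -/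
  dv : α

/-- the weights of the splitting -/
structure SX (α : Type) where
  /-- the part of `B` which is bounded by the number of the children, for `U'` -/
  fU : α
  /-- factor of the value -/
  rU : α
  /-- factor of the deviation -/
  sU : α
  /-- the part of the value which is bounded by the children -/
  zU : α
  /-- the same for `G` -/
  fG : α
  /-- the same for `G` -/
  rG : α
  /-- the same for `G` -/
  sG : α
  /-- the same for `G` -/
  zG : α
  /-- the part of `a_y²` which is bounded by the number of the children -/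
  fq : α
  /-- the part of the value of `G` which is bounded linearly -/
  yG : α
  /-- upper bound of the absolute value of the value of `G` -/
  gm : α
  /-- upper bound of the square of the value of `G` -/
  vm : α
  /-- factor of the sum of the squares of the `v_U` of the children -/
  fv : α
  /-- factor of the sum of the `a_y²` of the children -/
  fe : α
  /-- factor of the sum of the `a_U²` of the children -/
  fg : α
  /-- factor of the width of `G`, for the part `q2` -/
  la : α
  /-- factor of the value of `G`, for the part `q2` -/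
  ga : α
  /-- factor of the deviation of `G`, for the part `q2` -/
  be : α
  /-- factor of the width of `G`, for the part `q1` -/
  lb : α
  /-- factor of the value of `G`, for the part `q1` -/
  gb : α
  /-- factor of the root -/
  kl : α
  /-- the part of the deviation of `G` which is bounded by the width -/
  kW : α

/-- the numbers of a point -/
structure PX (α : Type) where
  /-- the point -/
  t : α
  /-- the total mass -/
  D : α
  /-- a lower bound of `D²` -/
  D2 : α
  /-- lower bound of `1 / (q0 - t)` -/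
  w : α
  /-- upper bound of `q0` -/
  T : α
  /-- lower bound of `q0` -/
  T0 : α
  /-- upper bound of the width -/
  th : α

/-- the coefficients of the terms of one child -/
structure CA (α : Type) where
  /-- coefficient of `± y` -/
  y1 : α
  /-- coefficient of `y²` -/
  y2 : α
  /-- coefficient of `v_y²` -/
  w2 : α
  /-- coefficient of `a_y` -/
  b1 : α
  /-- coefficient of `a_y²` -/
  b2 : α
  /-- coefficient of `± u` -/
  u1 : α
  /-- coefficient of `u²` -/
  u2 : α
  /-- coefficient of `v_U²` -/
  v2 : α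
  /-- coefficient of `a_U²` -/
  a2 : α
  /-- coefficient of the root -/
  l : α

/-- apply a function to the coefficients -/
def NA.map {α β : Type} (f : α → β) (p : NA α) : NA β :=
  ⟨f p.c, f p.al, f p.be, f p.ga, f p.de, f p.lU, f p.qU, f p.ly, f p.qy, f p.cv, f p.dv⟩

/-- apply a function to the coefficients -/
def SX.map {α β : Type} (f : α → β) (x : SX α) : SX β :=
  ⟨f x.fU, f x.rU, f x.sU, f x.zU, f x.fG, f x.rG, f x.sG, f x.zG, f x.fq, f x.yG, f x.gm,
    f x.vm, f x.fv, f x.fe, f x.fg, f x.la, f x.ga, f x.be, f x.lb, f x.gb, f x.kl, f x.kW⟩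

/-- apply a function to the coefficients -/
def PX.map {α β : Type} (f : α → β) (P : PX α) : PX β :=
  ⟨f P.t, f P.D, f P.D2, f P.w, f P.T, f P.T0, f P.th⟩

/-- apply a function to the coefficients -/
def CA.map {α β : Type} (f : α → β) (k : CA α) : CA β :=
  ⟨f k.y1, f k.y2, f k.w2, f k.b1, f k.b2, f k.u1, f k.u2, f k.v2, f k.a2, f k.l⟩

/-- the real coefficients -/
def NA.ns (p : NA ℝ) : NS :=
  ⟨p.c, p.al, p.be, p.ga, p.de, p.lU, p.qU, p.ly, p.qy, p.cv, p.dv⟩

/-- a group of forms: the forms of the `U` part and the forms of the `y` part -/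
abbrev GP (α : Type) := List (QI α) × List (QI α)

/-- apply a function to the coefficients -/
def gmap {α β : Type} (f : α → β) (g : GP α) : GP β := (g.1.map (QI.map f), g.2.map (QI.map f))

section gen

variable {α : Type} [Ar α]

/-- the form zero -/
def qz0 : QI α := ⟨Ar.zero, Ar.zero, Ar.zero, Ar.zero, Ar.zero, Ar.zero, Ar.zero, Ar.zero⟩

/-- a constant -/
def qc (k : α) : QI α := ⟨k, Ar.zero, Ar.zero, Ar.zero, Ar.zero, Ar.zero, Ar.zero, Ar.zero⟩

/-- the form at the arguments `1 + u`, `1 + v` (for forms without the norm term) -/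
def shF (q : QI α) : QI α :=
  ⟨Ar.add q.c (Ar.add (Ar.add q.cu q.cuu) (Ar.add q.cv q.cvv)),
    Ar.add q.cu (Ar.nsm 2 q.cuu), q.cuu, Ar.add q.cv (Ar.nsm 2 q.cvv), q.cvv, q.ca, q.caa, q.l⟩

/-- the group with the `y` part at the arguments `1 + y`, `1 + w` -/
def shG (g : GP α) : GP α := (g.1, g.2.map shF)

/-- add costs -/
def NA.add (p : NA α) (c al be ga de : α) : NA α :=
  ⟨Ar.add p.c c, Ar.add p.al al, Ar.add p.be be, Ar.add p.ga ga, Ar.add p.de de, p.lU, p.qU, p.ly,
    p.qy, p.cv, p.dv⟩

/-- the costs of an even number of children, gain `y'` -/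
def NA.evA (p : NA α) (MU MY Cs t : α) : NA α :=
  p.add Ar.zero Ar.zero (Ar.add (Ar.mul MU t) (Ar.mul Cs (Ar.mul t t))) (Ar.neg Ar.one)
    (Ar.add MY (Ar.mul Cs t))

/-- the costs of an even number of children, gain `r` -/
def NA.evB (p : NA α) (MU MY Cs r t : α) : NA α :=
  p.add (Ar.neg r) Ar.zero (Ar.add (Ar.mul MU t) (Ar.mul Cs (Ar.mul t t))) Ar.zero
    (Ar.add MY (Ar.mul Cs t))

/-- the part of `U'²` which is bounded by the state of `U'` -/
def bU (p : NA α) (x : SX α) : α := Ar.mul (Ar.sub Ar.one x.fU) p.be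

/-- the part of `G²` which is bounded by the state of `G` -/
def bG (P : PX α) (p : NA α) (x : SX α) : α :=
  Ar.mul (Ar.sub Ar.one x.fG) (Ar.mul (Ar.mul P.t P.t) p.de)

/-- the part of `q_y T²` which is bounded by the state of `G` -/
def qG (P : PX α) (p : NA α) (x : SX α) : α :=
  Ar.mul (Ar.mul (Ar.sub Ar.one x.fq) p.qy) (Ar.mul P.T P.T)

/-- the coefficient of the value of `G` -/
def zzG (P : PX α) (p : NA α) (x : SX α) : α :=
  Ar.add (Ar.mul x.rG (bG P p x)) (Ar.mul x.ga (qG P p x))

/-- the condition on the part of the deviation which is bounded by the width -/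
def wwG (P : PX α) (p : NA α) (x : SX α) : α :=
  Ar.sub (Ar.mul x.be (Ar.mul (Ar.sub Ar.one x.fq) p.qy))
    (Ar.mul (Ar.sub Ar.one x.kW) (Ar.mul x.sG (bG P p x)))

/-- the coefficients of the terms of one child; `M` bounds the number of the children, `n` is the
label of the new `y` -/
def ctA (P : PX α) (p : NA α) (x : SX α) (M n : ℕ) : CA α where
  y1 := p.al
  y2 := Ar.nsm M (Ar.mul x.fU p.be)
  w2 := Ar.mul x.zU (Ar.mul x.rU (bU p x))
  b1 := p.lU
  b2 := Ar.mul x.fe (Ar.add (Ar.mul x.sU (Ar.mul (Ar.mul P.th P.th) (bU p x))) p.qU)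
  u1 := Ar.neg (Ar.mul P.t (Ar.add p.ga (Ar.nsm (2 * n) p.de)))
  u2 := Ar.nsm M (Ar.mul x.fG (Ar.mul (Ar.mul P.t P.t) p.de))
  v2 := Ar.add (Ar.mul x.fv (Ar.mul x.zG (zzG P p x)))
    (Ar.nsm M (Ar.mul x.gb (Ar.mul (Ar.mul x.fq p.qy) (Ar.mul P.T P.T))))
  a2 := Ar.add (Ar.mul x.fg (Ar.add (Ar.mul x.kW (Ar.mul x.sG (Ar.mul (Ar.mul P.th P.th)
    (bG P p x)))) (Ar.mul x.la (qG P p x))))
    (Ar.nsm M (Ar.mul x.lb (Ar.mul (Ar.mul x.fq p.qy) (Ar.mul P.T P.T))))
  l := Ar.mul x.kl (Ar.mul p.ly P.T)

/-- the part of the square of the value of `G` which is bounded linearly; `gs` is `0` for none,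
`1` if the value is not positive, `2` if it is not negative -/
def yzG (P : PX α) (p : NA α) (x : SX α) (gs : ℕ) : α :=
  if gs = 0 then Ar.zero else Ar.mul x.yG (zzG P p x)

/-- the coefficient of minus the value of `G` -/
def yyG (P : PX α) (p : NA α) (x : SX α) (gs : ℕ) : α :=
  if gs = 1 then Ar.mul x.gm (yzG P p x gs) else Ar.neg (Ar.mul x.gm (yzG P p x gs))

/-- the constant of a line -/
def kapA (P : PX α) (p : NA α) (x : SX α) (n gs : ℕ) : α :=
  Ar.add (Ar.add p.c (Ar.nsm 4 (Ar.mul (Ar.sub Ar.one x.zU) (Ar.mul x.rU (bU p x)))))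
    (Ar.add (Ar.mul x.vm (Ar.sub (Ar.mul (Ar.sub Ar.one x.zG) (zzG P p x)) (yzG P p x gs)))
      (Ar.add (Ar.add (Ar.nsm n p.ga) (Ar.nsm n p.de)) (Ar.nsm n p.dv)))

/-- lower bound of the coefficient of `v_y'` times `q0`; the coefficient is the difference of two
nonnegative numbers, the second one is `m` -/
def dLo (P : PX α) (p : NA α) (m : α) : α := Ar.sub (Ar.mul P.T0 (Ar.add p.dv m)) (Ar.mul P.T m)

/-- upper bound of the coefficient of `v_y'` times `q0` -/
def dHi (P : PX α) (p : NA α) (m : α) : α := Ar.sub (Ar.mul P.T (Ar.add p.dv m)) (Ar.mul P.T0 m)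

/-- the form of the `U` part of one child with the coefficients `v`; `k` is the share of the
constant, `s` the payment, `c` are the terms, `m` is as in `dLo`, `b` is the sign of `u` -/
def famU (P : PX α) (v p : NA α) (c : CA α) (k s yy m : α) (b : Bool) : QI α where
  c := Ar.add (Ar.sub v.c k) (Ar.sub (Ar.mul s (Ar.mul P.D2 P.w)) (Ar.mul s P.D))
  cu := if b then Ar.sub v.al c.u1 else Ar.add v.al c.u1
  cuu := Ar.sub v.be c.u2
  cv := if b then Ar.add v.cv (Ar.add (dLo P p m) yy) else Ar.sub v.cv (Ar.add (dHi P p m) yy)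
  cvv := Ar.neg c.v2
  ca := v.lU
  caa := Ar.sub v.qU c.a2
  l := c.l

/-- the form of the `y` part of one child with the coefficients `v`; `z` is the credit, `ds` the
share of the role, `c` are the terms, `b1` is the sign of `y`, `b3` the role -/
def famY (P : PX α) (v p : NA α) (x : SX α) (c : CA α) (z ds : α) (b1 b3 : Bool) : QI α where
  c := Ar.neg ds
  cu := if b1 then Ar.sub v.ga p.al else Ar.add v.ga p.al
  cuu := if b3 then Ar.sub v.de c.y2 else Ar.add (Ar.sub v.de c.y2) z
  cv := if b1 then Ar.sub v.dv p.cv else Ar.add v.dv p.cv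
  cvv := if b3 then Ar.neg c.w2 else Ar.zero
  ca := Ar.sub v.ly p.lU
  caa := if b3 then Ar.sub v.qy c.b2
    else Ar.sub (Ar.sub v.qy c.b2) (Ar.mul x.sU (Ar.mul (Ar.mul P.th P.th) z))
  l := Ar.zero

/-- the group of one child with the coefficients `v`; `k` is the share of the constant, `dp`, `dm`
are the shares of the roles, `s` is the payment, `m` is as in `dLo`; `td = 0` if the roles are free,
otherwise the role is the sign of `y` -/
def famG (P : PX α) (v p : NA α) (x : SX α) (M n gs td : ℕ) (k dp dm s m : α) : GP α :=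
  ([famU P v p (ctA P p x M n) k s (yyG P p x gs) m true,
      famU P v p (ctA P p x M n) k s (yyG P p x gs) m false],
    if td = 0 then
      [famY P v p x (ctA P p x M n) (Ar.mul x.zU (bU p x)) dp true true,
        famY P v p x (ctA P p x M n) (Ar.mul x.zU (bU p x)) dp false true,
        famY P v p x (ctA P p x M n) (Ar.mul x.zU (bU p x)) dm true false,
        famY P v p x (ctA P p x M n) (Ar.mul x.zU (bU p x)) dm false false]
    else
      [famY P v p x (ctA P p x M n) (Ar.mul x.zU (bU p x)) dp true true,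
        famY P v p x (ctA P p x M n) (Ar.mul x.zU (bU p x)) dm false false])

/-- constants which have to be nonnegative -/
def cstG (L : List α) : GP α := (L.map qc, [qz0])

end gen

/-! ### naturality -/

section nat

variable {α β : Type} [Ar α] [Ar β] {f : α → β} (hf : ArHom f)

include hf

lemma gmap_cstG (L : List α) : gmap f (cstG L) = cstG (L.map f) := by
  simp only [gmap, cstG, List.map_map, List.map_cons, List.map_nil, qz0, QI.map, hf.zero]
  congr 1
  apply List.map_congr_left
  intro x _
  simp only [Function.comp, qc, QI.map, hf.zero]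

lemma map_shF (q : QI α) : (shF q).map f = shF (q.map f) := by
  simp only [shF, QI.map, hf.add, hf.nsm]

lemma gmap_shG (g : GP α) : gmap f (shG g) = shG (gmap f g) := by
  simp only [gmap, shG, List.map_map]
  congr 1
  apply List.map_congr_left
  intro x _
  exact map_shF hf x

lemma map_bU (p : NA α) (x : SX α) : f (bU p x) = bU (p.map f) (x.map f) := by
  simp only [bU, NA.map, SX.map, hf.mul, hf.sub, hf.one]

lemma map_bG (P : PX α) (p : NA α) (x : SX α) :
    f (bG P p x) = bG (P.map f) (p.map f) (x.map f) := by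
  simp only [bG, NA.map, SX.map, PX.map, hf.mul, hf.sub, hf.one]

lemma map_qG (P : PX α) (p : NA α) (x : SX α) :
    f (qG P p x) = qG (P.map f) (p.map f) (x.map f) := by
  simp only [qG, NA.map, SX.map, PX.map, hf.mul, hf.sub, hf.one]

lemma map_zzG (P : PX α) (p : NA α) (x : SX α) :
    f (zzG P p x) = zzG (P.map f) (p.map f) (x.map f) := by
  simp only [zzG, hf.mul, hf.add, map_bG hf, map_qG hf]
  rfl

lemma map_wwG (P : PX α) (p : NA α) (x : SX α) :
    f (wwG P p x) = wwG (P.map f) (p.map f) (x.map f) := by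
  simp only [wwG, hf.mul, hf.sub, hf.one, map_bG hf]
  rfl

lemma map_yzG (P : PX α) (p : NA α) (x : SX α) (gs : ℕ) :
    f (yzG P p x gs) = yzG (P.map f) (p.map f) (x.map f) gs := by
  simp only [yzG, apply_ite f, hf.zero, hf.mul, map_zzG hf]
  rfl

lemma map_yyG (P : PX α) (p : NA α) (x : SX α) (gs : ℕ) :
    f (yyG P p x gs) = yyG (P.map f) (p.map f) (x.map f) gs := by
  simp only [yyG, apply_ite f, hf.neg, hf.mul, map_yzG hf]
  rfl

lemma map_kapA (P : PX α) (p : NA α) (x : SX α) (n gs : ℕ) :
    f (kapA P p x n gs) = kapA (P.map f) (p.map f) (x.map f) n gs := by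
  simp only [kapA, hf.mul, hf.add, hf.sub, hf.one, hf.nsm, map_bU hf, map_zzG hf, map_yzG hf]
  rfl

lemma map_ctA (P : PX α) (p : NA α) (x : SX α) (M n : ℕ) :
    (ctA P p x M n).map f = ctA (P.map f) (p.map f) (x.map f) M n := by
  simp only [ctA, CA.map, hf.mul, hf.add, hf.neg, hf.nsm, map_bU hf, map_bG hf, map_qG hf,
    map_zzG hf]
  rfl

lemma map_naAdd (p : NA α) (c al be ga de : α) :
    (p.add c al be ga de).map f = (p.map f).add (f c) (f al) (f be) (f ga) (f de) := by
  simp only [NA.add, NA.map, hf.add]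

lemma map_evA (p : NA α) (MU MY Cs t : α) :
    (p.evA MU MY Cs t).map f = (p.map f).evA (f MU) (f MY) (f Cs) (f t) := by
  simp only [NA.evA, map_naAdd hf, hf.add, hf.mul, hf.zero, hf.neg, hf.one]

lemma map_evB (p : NA α) (MU MY Cs r t : α) :
    (p.evB MU MY Cs r t).map f = (p.map f).evB (f MU) (f MY) (f Cs) (f r) (f t) := by
  simp only [NA.evB, map_naAdd hf, hf.add, hf.mul, hf.zero, hf.neg]

lemma map_dLo (P : PX α) (p : NA α) (m : α) : f (dLo P p m) = dLo (P.map f) (p.map f) (f m) := by
  simp only [dLo, hf.add, hf.sub, hf.mul, PX.map, NA.map]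

lemma map_dHi (P : PX α) (p : NA α) (m : α) : f (dHi P p m) = dHi (P.map f) (p.map f) (f m) := by
  simp only [dHi, hf.add, hf.sub, hf.mul, PX.map, NA.map]

lemma map_famU (P : PX α) (v p : NA α) (c : CA α) (k s yy m : α) (b : Bool) :
    (famU P v p c k s yy m b).map f =
      famU (P.map f) (v.map f) (p.map f) (c.map f) (f k) (f s) (f yy) (f m) b := by
  simp only [famU, dLo, dHi, QI.map, hf.add, hf.sub, hf.mul, hf.neg, apply_ite f, PX.map, NA.map,
    CA.map]

lemma map_famY (P : PX α) (v p : NA α) (x : SX α) (c : CA α) (z ds : α) (b1 b3 : Bool) :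
    (famY P v p x c z ds b1 b3).map f =
      famY (P.map f) (v.map f) (p.map f) (x.map f) (c.map f) (f z) (f ds) b1 b3 := by
  simp only [famY, QI.map, hf.add, hf.sub, hf.mul, hf.neg, hf.zero, apply_ite f, PX.map, NA.map,
    CA.map, SX.map]

lemma gmap_famG (P : PX α) (v p : NA α) (x : SX α) (M n gs td : ℕ) (kk dp dm s m : α) :
    gmap f (famG P v p x M n gs td kk dp dm s m) =
      famG (P.map f) (v.map f) (p.map f) (x.map f) M n gs td (f kk) (f dp) (f dm) (f s)
        (f m) := by
  have hz : f (Ar.mul x.zU (bU p x)) = Ar.mul (x.map f).zU (bU (p.map f) (x.map f)) := by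
    rw [hf.mul, map_bU hf]
    rfl
  by_cases h : td = 0
  · simp only [gmap, famG, if_pos h, List.map_cons, List.map_nil, map_famU hf, map_famY hf,
      map_ctA hf, hz, map_yyG hf]
  · simp only [gmap, famG, if_neg h, List.map_cons, List.map_nil, map_famU hf, map_famY hf,
      map_ctA hf, hz, map_yyG hf]

end nat

end Pool.Agent.TSG
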