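import Pool.Agent.TSG.FamG

set_option autoImplicit false

/-!
# The full norm rule: the groups (MP_d27362_co)

The value and the width of `G` are bounded together:
`G(q0)² + kN dn(G)² ≤ Σ (1 or r_i) v_U² + 2 kN Σ a_U²` with a second role `r`.
-/

namespace Pool.Agent.TSG

open Pool.Agent.TSC (Ar Hom ArHom QI)

/-- the weights for the full norm rule; `n3`, ..., `nE` are multiples of the coefficient of the
value of `G` -/
structure NX (α : Type) where
  /-- the part which is bounded by `Σ v_U²` -/
  n3 : α
  /-- the part which is bounded by `Σ r v_U²` -/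
  n4 : α
  /-- the part which is bounded by `2 Σ r v_U` -/
  n5 : α
  /-- the part which is bounded by `4 Σ r v_U`, only the value -/
  n7 : α
  /-- the excess of the parts -/
  nE : α
  /-- the factor of the width in the norm -/
  kN : α
  /-- the share of the role for the type `0` -/
  u0 : α
  /-- the share of the role for the other types -/
  u1 : α
  /-- multiplier of `2 ≤ Σ r v_U` -/
  lN : α

/-- apply a function to the coefficients -/
def NX.map {α β : Type} (f : α → β) (y : NX α) : NX β :=
  ⟨f y.n3, f y.n4, f y.n5, f y.n7, f y.nE, f y.kN, f y.u0, f y.u1, f y.lN⟩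

section gen

variable {α : Type} [Ar α]

/-- the coefficient of the norm of `G` -/
def wN (P : PX α) (p : NA α) (x : SX α) (y : NX α) : α :=
  Ar.mul (Ar.add y.n3 (Ar.add y.n4 y.n5)) (zzG P p x)

/-- the coefficient of the square of the width of `G` which is not bounded by the norm; it has to
be at most zero -/
def rN (P : PX α) (p : NA α) (x : SX α) (y : NX α) : α :=
  Ar.sub (Ar.add (Ar.mul x.kW (Ar.mul x.sG (Ar.mul (Ar.mul P.th P.th) (bG P p x))))
    (Ar.mul x.la (qG P p x))) (Ar.mul y.kN (wN P p x y))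

/-- the coefficients of the terms of one child with the full norm rule -/
def ctN (P : PX α) (p : NA α) (x : SX α) (y : NX α) (M n : ℕ) : CA α :=
  { ctA P p x M n with
    v2 := Ar.add (ctA P p x M n).v2 (Ar.mul y.n3 (zzG P p x))
    a2 := Ar.add (Ar.nsm 2 (Ar.mul y.kN (wN P p x y)))
      (Ar.nsm M (Ar.mul x.lb (Ar.mul (Ar.mul x.fq p.qy) (Ar.mul P.T P.T)))) }

/-- the constant of a line with the full norm rule -/
def kapN (P : PX α) (p : NA α) (x : SX α) (y : NX α) (n gs : ℕ) : α :=
  Ar.sub (kapA P p x n gs) (Ar.mul x.vm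
    (Ar.mul (Ar.sub (Ar.add (Ar.add y.n3 (Ar.add y.n4 y.n5)) y.n7) y.nE) (zzG P p x)))

/-- the coefficient of `r v_U` -/
def wN1 (P : PX α) (p : NA α) (x : SX α) (y : NX α) : α :=
  Ar.add (Ar.mul (Ar.add (Ar.nsm 2 y.n5) (Ar.nsm 4 y.n7)) (zzG P p x)) y.lN

/-- the form of the `U` part of one child with the second role `r`; `u` is the share, `w1` is the
coefficient of `r v_U`, `w4` is the coefficient of `r v_U²`; for `r = false` the square is replaced
by the tangent `2 v_U - 1` -/
def roleU (q : QI α) (u w1 w4 : α) (r : Bool) : QI α :=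
  { q with
    c := if r then Ar.sub q.c u else Ar.sub (Ar.add q.c u) w4
    cv := if r then Ar.sub q.cv w1 else Ar.add (Ar.add q.cv w1) (Ar.nsm 2 w4)
    cvv := if r then Ar.sub q.cvv w4 else q.cvv }

end gen

section nat

variable {α β : Type} [Ar α] [Ar β] {f : α → β} (hf : ArHom f)
include hf

lemma map_wN (P : PX α) (p : NA α) (x : SX α) (y : NX α) :
    f (wN P p x y) = wN (P.map f) (p.map f) (x.map f) (y.map f) := by
  simp only [wN, hf.add, hf.mul, map_zzG hf, NX.map]

lemma map_rN (P : PX α) (p : NA α) (x : SX α) (y : NX α) :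
    f (rN P p x y) = rN (P.map f) (p.map f) (x.map f) (y.map f) := by
  simp only [rN, hf.add, hf.sub, hf.mul, map_wN hf, bG, qG, hf.one, PX.map, NA.map, SX.map,
    NX.map]

lemma map_ctN (P : PX α) (p : NA α) (x : SX α) (y : NX α) (M n : ℕ) :
    (ctN P p x y M n).map f = ctN (P.map f) (p.map f) (x.map f) (y.map f) M n := by
  have h := map_ctA hf P p x M n
  unfold ctN
  rw [← h]
  simp only [CA.map, hf.add, hf.mul, hf.nsm, map_wN hf, map_zzG hf]
  rfl

lemma map_kapN (P : PX α) (p : NA α) (x : SX α) (y : NX α) (n gs : ℕ) :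
    f (kapN P p x y n gs) = kapN (P.map f) (p.map f) (x.map f) (y.map f) n gs := by
  simp only [kapN, hf.add, hf.sub, hf.mul, map_kapA hf, map_zzG hf]
  rfl

lemma map_wN1 (P : PX α) (p : NA α) (x : SX α) (y : NX α) :
    f (wN1 P p x y) = wN1 (P.map f) (p.map f) (x.map f) (y.map f) := by
  simp only [wN1, hf.add, hf.mul, hf.nsm, map_zzG hf]
  rfl

lemma map_roleU (q : QI α) (u w1 w4 : α) (r : Bool) :
    (roleU q u w1 w4 r).map f = roleU (q.map f) (f u) (f w1) (f w4) r := by
  simp only [roleU, QI.map, apply_ite f, hf.add, hf.sub, hf.nsm]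

end nat

end Pool.Agent.TSG
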