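import Pool.Agent.TSG.FamX
import Pool.Agent.TSM.EvenDC
import Pool.Agent.TSM.EvenDC2
import Pool.Agent.TSM.EvenDE
import Pool.Agent.TSM.EvenDE2
import Pool.Agent.TSM.EvenDF
import Pool.Agent.TSM.EvenDF2
import Pool.Agent.TSM.EvenDG
import Pool.Agent.TSM.EvenDH

set_option autoImplicit false

/-!
# The table of the even rule with a constant (MP_d27362_co, helper2)
-/

namespace Pool.Agent.TSG

open Pool.Agent.TSC
open Pool.Agent.TSM (ExpFd)

/-- one row of the table of the even rule with a constant -/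
structure ECe where
  /-- factor of the square -/
  c : Dec
  /-- factor in the exponent -/
  mu : Dec
  /-- bound of `ρ` -/
  P : Dec
  /-- the constant in the exponent -/
  de : Dec

lemma ee_ok {K : ℕ} {c mu P de : Dec} {c' mu' P' de' : ℝ} (h : ExpFd K c' mu' P' de')
    (h1 : c' ≤ c.val) (h2 : mu' ≤ mu.val) (h3 : P.val ≤ P')
    (h4 : de' ≤ de.val) : ExpFd K c.val mu.val P.val de.val := h.mono h1 h2 h3 h4

/-- the rows for `4` children -/
def tabE4 : List ECe :=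
  [⟨Dec.pos 438 3, Dec.pos 2 2, Dec.zero, Dec.pos 2 3⟩,
    ⟨Dec.pos 422 3, Dec.pos 2 2, Dec.zero, Dec.pos 5 3⟩,
    ⟨Dec.pos 403 3, Dec.pos 25 3, Dec.zero, Dec.pos 1 2⟩,
    ⟨Dec.pos 385 3, Dec.pos 3 2, Dec.zero, Dec.pos 2 2⟩,
    ⟨Dec.pos 36 2, Dec.pos 3 2, Dec.zero, Dec.pos 5 2⟩,
    ⟨Dec.pos 34 2, Dec.pos 4 2, Dec.zero, Dec.pos 1 1⟩,
    ⟨Dec.pos 463 3, Dec.pos 2 2, Dec.pos 1 1, Dec.pos 2 3⟩,
    ⟨Dec.pos 46 2, Dec.pos 2 2, Dec.pos 1 1, Dec.pos 5 3⟩,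
    ⟨Dec.pos 423 3, Dec.pos 25 3, Dec.pos 1 1, Dec.pos 1 2⟩,
    ⟨Dec.pos 388 3, Dec.pos 3 2, Dec.pos 1 1, Dec.pos 2 2⟩,
    ⟨Dec.pos 36 2, Dec.pos 3 2, Dec.pos 1 1, Dec.pos 5 2⟩,
    ⟨Dec.pos 34 2, Dec.pos 4 2, Dec.pos 1 1, Dec.pos 1 1⟩,
    ⟨Dec.pos 501 3, Dec.pos 2 2, Dec.pos 2 1, Dec.pos 2 3⟩,
    ⟨Dec.pos 498 3, Dec.pos 2 2, Dec.pos 2 1, Dec.pos 5 3⟩,
    ⟨Dec.pos 46 2, Dec.pos 25 3, Dec.pos 2 1, Dec.pos 1 2⟩,
    ⟨Dec.pos 425 3, Dec.pos 3 2, Dec.pos 2 1, Dec.pos 2 2⟩,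
    ⟨Dec.pos 391 3, Dec.pos 3 2, Dec.pos 2 1, Dec.pos 5 2⟩,
    ⟨Dec.pos 34 2, Dec.pos 4 2, Dec.pos 2 1, Dec.pos 1 1⟩,
    ⟨Dec.pos 554 3, Dec.pos 2 2, Dec.pos 3333333333333333 16, Dec.pos 2 3⟩,
    ⟨Dec.pos 551 3, Dec.pos 2 2, Dec.pos 3333333333333333 16, Dec.pos 5 3⟩,
    ⟨Dec.pos 51 2, Dec.pos 25 3, Dec.pos 3333333333333333 16, Dec.pos 1 2⟩,
    ⟨Dec.pos 473 3, Dec.pos 3 2, Dec.pos 3333333333333333 16, Dec.pos 2 2⟩,
    ⟨Dec.pos 437 3, Dec.pos 3 2, Dec.pos 3333333333333333 16, Dec.pos 5 2⟩,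
    ⟨Dec.pos 34 2, Dec.pos 4 2, Dec.pos 3333333333333333 16, Dec.pos 1 1⟩,
    ⟨Dec.pos 692 3, Dec.pos 2 2, Dec.pos 6666666666666666 16, Dec.pos 2 3⟩,
    ⟨Dec.pos 688 3, Dec.pos 2 2, Dec.pos 6666666666666666 16, Dec.pos 5 3⟩,
    ⟨Dec.pos 634 3, Dec.pos 25 3, Dec.pos 6666666666666666 16, Dec.pos 1 2⟩,
    ⟨Dec.pos 589 3, Dec.pos 3 2, Dec.pos 6666666666666666 16, Dec.pos 2 2⟩,
    ⟨Dec.pos 553 3, Dec.pos 3 2, Dec.pos 6666666666666666 16, Dec.pos 5 2⟩,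
    ⟨Dec.pos 438 3, Dec.pos 4 2, Dec.pos 6666666666666666 16, Dec.pos 1 1⟩]

lemma tabE4_ok : ∀ e ∈ tabE4, ExpFd 4 e.c.val e.mu.val e.P.val e.de.val := by
  intro e he
  simp only [tabE4, List.mem_cons, List.not_mem_nil, or_false] at he
  rcases he with rfl | rfl | rfl | rfl | rfl | rfl | rfl | rfl | rfl | rfl | rfl | rfl | rfl |
    rfl | rfl | rfl | rfl | rfl | rfl | rfl | rfl | rfl | rfl | rfl | rfl | rfl | rfl | rfl |
    rfl | rfl
  · exact ee_ok TSM.expFd_four_e00 (by rw [Dec.val_pos]; norm_num)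
      (by rw [Dec.val_pos]; norm_num) (by rw [Dec.val_zero])
      (by rw [Dec.val_pos]; norm_num)
  · exact ee_ok TSM.expFd_four_e01 (by rw [Dec.val_pos]; norm_num)
      (by rw [Dec.val_pos]; norm_num) (by rw [Dec.val_zero])
      (by rw [Dec.val_pos]; norm_num)
  · exact ee_ok TSM.expFd_four_e02 (by rw [Dec.val_pos]; norm_num)
      (by rw [Dec.val_pos]; norm_num) (by rw [Dec.val_zero])
      (by rw [Dec.val_pos]; norm_num)
  · exact ee_ok TSM.expFd_four_e03 (by rw [Dec.val_pos]; norm_num)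
      (by rw [Dec.val_pos]; norm_num) (by rw [Dec.val_zero])
      (by rw [Dec.val_pos]; norm_num)
  · exact ee_ok TSM.expFd_four_e04 (by rw [Dec.val_pos]; norm_num)
      (by rw [Dec.val_pos]; norm_num) (by rw [Dec.val_zero])
      (by rw [Dec.val_pos]; norm_num)
  · exact ee_ok TSM.expFd_four_e05 (by rw [Dec.val_pos]; norm_num)
      (by rw [Dec.val_pos]; norm_num) (by rw [Dec.val_zero])
      (by rw [Dec.val_pos]; norm_num)
  · exact ee_ok TSM.expFd_four_e10 (by rw [Dec.val_pos]; norm_num)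
      (by rw [Dec.val_pos]; norm_num) (by rw [Dec.val_pos]; norm_num)
      (by rw [Dec.val_pos]; norm_num)
  · exact ee_ok TSM.expFd_four_e11 (by rw [Dec.val_pos]; norm_num)
      (by rw [Dec.val_pos]; norm_num) (by rw [Dec.val_pos]; norm_num)
      (by rw [Dec.val_pos]; norm_num)
  · exact ee_ok TSM.expFd_four_e12 (by rw [Dec.val_pos]; norm_num)
      (by rw [Dec.val_pos]; norm_num) (by rw [Dec.val_pos]; norm_num)
      (by rw [Dec.val_pos]; norm_num)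
  · exact ee_ok TSM.expFd_four_e13 (by rw [Dec.val_pos]; norm_num)
      (by rw [Dec.val_pos]; norm_num) (by rw [Dec.val_pos]; norm_num)
      (by rw [Dec.val_pos]; norm_num)
  · exact ee_ok TSM.expFd_four_e14 (by rw [Dec.val_pos]; norm_num)
      (by rw [Dec.val_pos]; norm_num) (by rw [Dec.val_pos]; norm_num)
      (by rw [Dec.val_pos]; norm_num)
  · exact ee_ok TSM.expFd_four_e15 (by rw [Dec.val_pos]; norm_num)
      (by rw [Dec.val_pos]; norm_num) (by rw [Dec.val_pos]; norm_num)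
      (by rw [Dec.val_pos]; norm_num)
  · exact ee_ok TSM.expFd_four_e20 (by rw [Dec.val_pos]; norm_num)
      (by rw [Dec.val_pos]; norm_num) (by rw [Dec.val_pos]; norm_num)
      (by rw [Dec.val_pos]; norm_num)
  · exact ee_ok TSM.expFd_four_e21 (by rw [Dec.val_pos]; norm_num)
      (by rw [Dec.val_pos]; norm_num) (by rw [Dec.val_pos]; norm_num)
      (by rw [Dec.val_pos]; norm_num)
  · exact ee_ok TSM.expFd_four_e22 (by rw [Dec.val_pos]; norm_num)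
      (by rw [Dec.val_pos]; norm_num) (by rw [Dec.val_pos]; norm_num)
      (by rw [Dec.val_pos]; norm_num)
  · exact ee_ok TSM.expFd_four_e23 (by rw [Dec.val_pos]; norm_num)
      (by rw [Dec.val_pos]; norm_num) (by rw [Dec.val_pos]; norm_num)
      (by rw [Dec.val_pos]; norm_num)
  · exact ee_ok TSM.expFd_four_e24 (by rw [Dec.val_pos]; norm_num)
      (by rw [Dec.val_pos]; norm_num) (by rw [Dec.val_pos]; norm_num)
      (by rw [Dec.val_pos]; norm_num)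
  · exact ee_ok TSM.expFd_four_e25 (by rw [Dec.val_pos]; norm_num)
      (by rw [Dec.val_pos]; norm_num) (by rw [Dec.val_pos]; norm_num)
      (by rw [Dec.val_pos]; norm_num)
  · exact ee_ok TSM.expFd_four_e30 (by rw [Dec.val_pos]; norm_num)
      (by rw [Dec.val_pos]; norm_num) (by rw [Dec.val_pos]; norm_num)
      (by rw [Dec.val_pos]; norm_num)
  · exact ee_ok TSM.expFd_four_e31 (by rw [Dec.val_pos]; norm_num)
      (by rw [Dec.val_pos]; norm_num) (by rw [Dec.val_pos]; norm_num)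
      (by rw [Dec.val_pos]; norm_num)
  · exact ee_ok TSM.expFd_four_e32 (by rw [Dec.val_pos]; norm_num)
      (by rw [Dec.val_pos]; norm_num) (by rw [Dec.val_pos]; norm_num)
      (by rw [Dec.val_pos]; norm_num)
  · exact ee_ok TSM.expFd_four_e33 (by rw [Dec.val_pos]; norm_num)
      (by rw [Dec.val_pos]; norm_num) (by rw [Dec.val_pos]; norm_num)
      (by rw [Dec.val_pos]; norm_num)
  · exact ee_ok TSM.expFd_four_e34 (by rw [Dec.val_pos]; norm_num)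
      (by rw [Dec.val_pos]; norm_num) (by rw [Dec.val_pos]; norm_num)
      (by rw [Dec.val_pos]; norm_num)
  · exact ee_ok TSM.expFd_four_e35 (by rw [Dec.val_pos]; norm_num)
      (by rw [Dec.val_pos]; norm_num) (by rw [Dec.val_pos]; norm_num)
      (by rw [Dec.val_pos]; norm_num)
  · exact ee_ok TSM.expFd_four_e40 (by rw [Dec.val_pos]; norm_num)
      (by rw [Dec.val_pos]; norm_num) (by rw [Dec.val_pos]; norm_num)
      (by rw [Dec.val_pos]; norm_num)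
  · exact ee_ok TSM.expFd_four_e41 (by rw [Dec.val_pos]; norm_num)
      (by rw [Dec.val_pos]; norm_num) (by rw [Dec.val_pos]; norm_num)
      (by rw [Dec.val_pos]; norm_num)
  · exact ee_ok TSM.expFd_four_e42 (by rw [Dec.val_pos]; norm_num)
      (by rw [Dec.val_pos]; norm_num) (by rw [Dec.val_pos]; norm_num)
      (by rw [Dec.val_pos]; norm_num)
  · exact ee_ok TSM.expFd_four_e43 (by rw [Dec.val_pos]; norm_num)
      (by rw [Dec.val_pos]; norm_num) (by rw [Dec.val_pos]; norm_num)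
      (by rw [Dec.val_pos]; norm_num)
  · exact ee_ok TSM.expFd_four_e44 (by rw [Dec.val_pos]; norm_num)
      (by rw [Dec.val_pos]; norm_num) (by rw [Dec.val_pos]; norm_num)
      (by rw [Dec.val_pos]; norm_num)
  · exact ee_ok TSM.expFd_four_e45 (by rw [Dec.val_pos]; norm_num)
      (by rw [Dec.val_pos]; norm_num) (by rw [Dec.val_pos]; norm_num)
      (by rw [Dec.val_pos]; norm_num)

/-- the rows for `6` children -/
def tabE6 : List ECe :=
  [⟨Dec.pos 447 3, Dec.pos 4 2, Dec.zero, Dec.pos 2 3⟩,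
    ⟨Dec.pos 42 2, Dec.pos 45 3, Dec.zero, Dec.pos 5 3⟩,
    ⟨Dec.pos 403 3, Dec.pos 5 2, Dec.zero, Dec.pos 1 2⟩,
    ⟨Dec.pos 385 3, Dec.pos 5 2, Dec.zero, Dec.pos 2 2⟩,
    ⟨Dec.pos 36 2, Dec.pos 6 2, Dec.zero, Dec.pos 5 2⟩,
    ⟨Dec.pos 34 2, Dec.pos 6 2, Dec.zero, Dec.pos 1 1⟩,
    ⟨Dec.pos 476 3, Dec.pos 4 2, Dec.pos 1 1, Dec.pos 2 3⟩,
    ⟨Dec.pos 447 3, Dec.pos 45 3, Dec.pos 1 1, Dec.pos 5 3⟩,
    ⟨Dec.pos 42 2, Dec.pos 5 2, Dec.pos 1 1, Dec.pos 1 2⟩,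
    ⟨Dec.pos 407 3, Dec.pos 5 2, Dec.pos 1 1, Dec.pos 2 2⟩,
    ⟨Dec.pos 36 2, Dec.pos 6 2, Dec.pos 1 1, Dec.pos 5 2⟩,
    ⟨Dec.pos 34 2, Dec.pos 6 2, Dec.pos 1 1, Dec.pos 1 1⟩,
    ⟨Dec.pos 506 3, Dec.pos 4 2, Dec.pos 2 1, Dec.pos 2 3⟩,
    ⟨Dec.pos 476 3, Dec.pos 45 3, Dec.pos 2 1, Dec.pos 5 3⟩,
    ⟨Dec.pos 448 3, Dec.pos 5 2, Dec.pos 2 1, Dec.pos 1 2⟩,
    ⟨Dec.pos 434 3, Dec.pos 5 2, Dec.pos 2 1, Dec.pos 2 2⟩,
    ⟨Dec.pos 36 2, Dec.pos 6 2, Dec.pos 2 1, Dec.pos 5 2⟩,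
    ⟨Dec.pos 34 2, Dec.pos 6 2, Dec.pos 2 1, Dec.pos 1 1⟩,
    ⟨Dec.pos 545 3, Dec.pos 4 2, Dec.pos 3333333333333333 16, Dec.pos 2 3⟩,
    ⟨Dec.pos 513 3, Dec.pos 45 3, Dec.pos 3333333333333333 16, Dec.pos 5 3⟩,
    ⟨Dec.pos 484 3, Dec.pos 5 2, Dec.pos 3333333333333333 16, Dec.pos 1 2⟩,
    ⟨Dec.pos 47 2, Dec.pos 5 2, Dec.pos 3333333333333333 16, Dec.pos 2 2⟩,
    ⟨Dec.pos 39 2, Dec.pos 6 2, Dec.pos 3333333333333333 16, Dec.pos 5 2⟩,
    ⟨Dec.pos 34 2, Dec.pos 6 2, Dec.pos 3333333333333333 16, Dec.pos 1 1⟩,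
    ⟨Dec.pos 641 3, Dec.pos 4 2, Dec.pos 6666666666666666 16, Dec.pos 2 3⟩,
    ⟨Dec.pos 601 3, Dec.pos 45 3, Dec.pos 6666666666666666 16, Dec.pos 5 3⟩,
    ⟨Dec.pos 566 3, Dec.pos 5 2, Dec.pos 6666666666666666 16, Dec.pos 1 2⟩,
    ⟨Dec.pos 553 3, Dec.pos 5 2, Dec.pos 6666666666666666 16, Dec.pos 2 2⟩,
    ⟨Dec.pos 466 3, Dec.pos 6 2, Dec.pos 6666666666666666 16, Dec.pos 5 2⟩,
    ⟨Dec.pos 407 3, Dec.pos 6 2, Dec.pos 6666666666666666 16, Dec.pos 1 1⟩]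

lemma tabE6_ok : ∀ e ∈ tabE6, ExpFd 6 e.c.val e.mu.val e.P.val e.de.val := by
  intro e he
  simp only [tabE6, List.mem_cons, List.not_mem_nil, or_false] at he
  rcases he with rfl | rfl | rfl | rfl | rfl | rfl | rfl | rfl | rfl | rfl | rfl | rfl | rfl |
    rfl | rfl | rfl | rfl | rfl | rfl | rfl | rfl | rfl | rfl | rfl | rfl | rfl | rfl | rfl |
    rfl | rfl
  · exact ee_ok TSM.expFd_six_e00 (by rw [Dec.val_pos]; norm_num)
      (by rw [Dec.val_pos]; norm_num) (by rw [Dec.val_zero])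
      (by rw [Dec.val_pos]; norm_num)
  · exact ee_ok TSM.expFd_six_e01 (by rw [Dec.val_pos]; norm_num)
      (by rw [Dec.val_pos]; norm_num) (by rw [Dec.val_zero])
      (by rw [Dec.val_pos]; norm_num)
  · exact ee_ok TSM.expFd_six_e02 (by rw [Dec.val_pos]; norm_num)
      (by rw [Dec.val_pos]; norm_num) (by rw [Dec.val_zero])
      (by rw [Dec.val_pos]; norm_num)
  · exact ee_ok TSM.expFd_six_e03 (by rw [Dec.val_pos]; norm_num)
      (by rw [Dec.val_pos]; norm_num) (by rw [Dec.val_zero])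
      (by rw [Dec.val_pos]; norm_num)
  · exact ee_ok TSM.expFd_six_e04 (by rw [Dec.val_pos]; norm_num)
      (by rw [Dec.val_pos]; norm_num) (by rw [Dec.val_zero])
      (by rw [Dec.val_pos]; norm_num)
  · exact ee_ok TSM.expFd_six_e05 (by rw [Dec.val_pos]; norm_num)
      (by rw [Dec.val_pos]; norm_num) (by rw [Dec.val_zero])
      (by rw [Dec.val_pos]; norm_num)
  · exact ee_ok TSM.expFd_six_e10 (by rw [Dec.val_pos]; norm_num)
      (by rw [Dec.val_pos]; norm_num) (by rw [Dec.val_pos]; norm_num)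
      (by rw [Dec.val_pos]; norm_num)
  · exact ee_ok TSM.expFd_six_e11 (by rw [Dec.val_pos]; norm_num)
      (by rw [Dec.val_pos]; norm_num) (by rw [Dec.val_pos]; norm_num)
      (by rw [Dec.val_pos]; norm_num)
  · exact ee_ok TSM.expFd_six_e12 (by rw [Dec.val_pos]; norm_num)
      (by rw [Dec.val_pos]; norm_num) (by rw [Dec.val_pos]; norm_num)
      (by rw [Dec.val_pos]; norm_num)
  · exact ee_ok TSM.expFd_six_e13 (by rw [Dec.val_pos]; norm_num)
      (by rw [Dec.val_pos]; norm_num) (by rw [Dec.val_pos]; norm_num)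
      (by rw [Dec.val_pos]; norm_num)
  · exact ee_ok TSM.expFd_six_e14 (by rw [Dec.val_pos]; norm_num)
      (by rw [Dec.val_pos]; norm_num) (by rw [Dec.val_pos]; norm_num)
      (by rw [Dec.val_pos]; norm_num)
  · exact ee_ok TSM.expFd_six_e15 (by rw [Dec.val_pos]; norm_num)
      (by rw [Dec.val_pos]; norm_num) (by rw [Dec.val_pos]; norm_num)
      (by rw [Dec.val_pos]; norm_num)
  · exact ee_ok TSM.expFd_six_e20 (by rw [Dec.val_pos]; norm_num)
      (by rw [Dec.val_pos]; norm_num) (by rw [Dec.val_pos]; norm_num)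
      (by rw [Dec.val_pos]; norm_num)
  · exact ee_ok TSM.expFd_six_e21 (by rw [Dec.val_pos]; norm_num)
      (by rw [Dec.val_pos]; norm_num) (by rw [Dec.val_pos]; norm_num)
      (by rw [Dec.val_pos]; norm_num)
  · exact ee_ok TSM.expFd_six_e22 (by rw [Dec.val_pos]; norm_num)
      (by rw [Dec.val_pos]; norm_num) (by rw [Dec.val_pos]; norm_num)
      (by rw [Dec.val_pos]; norm_num)
  · exact ee_ok TSM.expFd_six_e23 (by rw [Dec.val_pos]; norm_num)
      (by rw [Dec.val_pos]; norm_num) (by rw [Dec.val_pos]; norm_num)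
      (by rw [Dec.val_pos]; norm_num)
  · exact ee_ok TSM.expFd_six_e24 (by rw [Dec.val_pos]; norm_num)
      (by rw [Dec.val_pos]; norm_num) (by rw [Dec.val_pos]; norm_num)
      (by rw [Dec.val_pos]; norm_num)
  · exact ee_ok TSM.expFd_six_e25 (by rw [Dec.val_pos]; norm_num)
      (by rw [Dec.val_pos]; norm_num) (by rw [Dec.val_pos]; norm_num)
      (by rw [Dec.val_pos]; norm_num)
  · exact ee_ok TSM.expFd_six_e30 (by rw [Dec.val_pos]; norm_num)
      (by rw [Dec.val_pos]; norm_num) (by rw [Dec.val_pos]; norm_num)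
      (by rw [Dec.val_pos]; norm_num)
  · exact ee_ok TSM.expFd_six_e31 (by rw [Dec.val_pos]; norm_num)
      (by rw [Dec.val_pos]; norm_num) (by rw [Dec.val_pos]; norm_num)
      (by rw [Dec.val_pos]; norm_num)
  · exact ee_ok TSM.expFd_six_e32 (by rw [Dec.val_pos]; norm_num)
      (by rw [Dec.val_pos]; norm_num) (by rw [Dec.val_pos]; norm_num)
      (by rw [Dec.val_pos]; norm_num)
  · exact ee_ok TSM.expFd_six_e33 (by rw [Dec.val_pos]; norm_num)
      (by rw [Dec.val_pos]; norm_num) (by rw [Dec.val_pos]; norm_num)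
      (by rw [Dec.val_pos]; norm_num)
  · exact ee_ok TSM.expFd_six_e34 (by rw [Dec.val_pos]; norm_num)
      (by rw [Dec.val_pos]; norm_num) (by rw [Dec.val_pos]; norm_num)
      (by rw [Dec.val_pos]; norm_num)
  · exact ee_ok TSM.expFd_six_e35 (by rw [Dec.val_pos]; norm_num)
      (by rw [Dec.val_pos]; norm_num) (by rw [Dec.val_pos]; norm_num)
      (by rw [Dec.val_pos]; norm_num)
  · exact ee_ok TSM.expFd_six_e40 (by rw [Dec.val_pos]; norm_num)
      (by rw [Dec.val_pos]; norm_num) (by rw [Dec.val_pos]; norm_num)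
      (by rw [Dec.val_pos]; norm_num)
  · exact ee_ok TSM.expFd_six_e41 (by rw [Dec.val_pos]; norm_num)
      (by rw [Dec.val_pos]; norm_num) (by rw [Dec.val_pos]; norm_num)
      (by rw [Dec.val_pos]; norm_num)
  · exact ee_ok TSM.expFd_six_e42 (by rw [Dec.val_pos]; norm_num)
      (by rw [Dec.val_pos]; norm_num) (by rw [Dec.val_pos]; norm_num)
      (by rw [Dec.val_pos]; norm_num)
  · exact ee_ok TSM.expFd_six_e43 (by rw [Dec.val_pos]; norm_num)
      (by rw [Dec.val_pos]; norm_num) (by rw [Dec.val_pos]; norm_num)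
      (by rw [Dec.val_pos]; norm_num)
  · exact ee_ok TSM.expFd_six_e44 (by rw [Dec.val_pos]; norm_num)
      (by rw [Dec.val_pos]; norm_num) (by rw [Dec.val_pos]; norm_num)
      (by rw [Dec.val_pos]; norm_num)
  · exact ee_ok TSM.expFd_six_e45 (by rw [Dec.val_pos]; norm_num)
      (by rw [Dec.val_pos]; norm_num) (by rw [Dec.val_pos]; norm_num)
      (by rw [Dec.val_pos]; norm_num)

/-- the rows for `8` children -/
def tabE8 : List ECe :=
  [⟨Dec.pos 47 2, Dec.pos 5 2, Dec.zero, Dec.pos 2 3⟩,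
    ⟨Dec.pos 441 3, Dec.pos 55 3, Dec.zero, Dec.pos 5 3⟩,
    ⟨Dec.pos 412 3, Dec.pos 6 2, Dec.zero, Dec.pos 1 2⟩,
    ⟨Dec.pos 4 1, Dec.pos 6 2, Dec.zero, Dec.pos 2 2⟩,
    ⟨Dec.pos 36 2, Dec.pos 7 2, Dec.zero, Dec.pos 5 2⟩,
    ⟨Dec.pos 34 2, Dec.pos 7 2, Dec.zero, Dec.pos 1 1⟩,
    ⟨Dec.pos 495 3, Dec.pos 5 2, Dec.pos 1 1, Dec.pos 2 3⟩,
    ⟨Dec.pos 464 3, Dec.pos 55 3, Dec.pos 1 1, Dec.pos 5 3⟩,
    ⟨Dec.pos 435 3, Dec.pos 6 2, Dec.pos 1 1, Dec.pos 1 2⟩,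
    ⟨Dec.pos 423 3, Dec.pos 6 2, Dec.pos 1 1, Dec.pos 2 2⟩,
    ⟨Dec.pos 36 2, Dec.pos 7 2, Dec.pos 1 1, Dec.pos 5 2⟩,
    ⟨Dec.pos 34 2, Dec.pos 7 2, Dec.pos 1 1, Dec.pos 1 1⟩,
    ⟨Dec.pos 519 3, Dec.pos 5 2, Dec.pos 2 1, Dec.pos 2 3⟩,
    ⟨Dec.pos 487 3, Dec.pos 55 3, Dec.pos 2 1, Dec.pos 5 3⟩,
    ⟨Dec.pos 458 3, Dec.pos 6 2, Dec.pos 2 1, Dec.pos 1 2⟩,
    ⟨Dec.pos 445 3, Dec.pos 6 2, Dec.pos 2 1, Dec.pos 2 2⟩,
    ⟨Dec.pos 366 3, Dec.pos 7 2, Dec.pos 2 1, Dec.pos 5 2⟩,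
    ⟨Dec.pos 34 2, Dec.pos 7 2, Dec.pos 2 1, Dec.pos 1 1⟩,
    ⟨Dec.pos 55 2, Dec.pos 5 2, Dec.pos 3333333333333333 16, Dec.pos 2 3⟩,
    ⟨Dec.pos 517 3, Dec.pos 55 3, Dec.pos 3333333333333333 16, Dec.pos 5 3⟩,
    ⟨Dec.pos 486 3, Dec.pos 6 2, Dec.pos 3333333333333333 16, Dec.pos 1 2⟩,
    ⟨Dec.pos 473 3, Dec.pos 6 2, Dec.pos 3333333333333333 16, Dec.pos 2 2⟩,
    ⟨Dec.pos 392 3, Dec.pos 7 2, Dec.pos 3333333333333333 16, Dec.pos 5 2⟩,
    ⟨Dec.pos 34 2, Dec.pos 7 2, Dec.pos 3333333333333333 16, Dec.pos 1 1⟩,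
    ⟨Dec.pos 627 3, Dec.pos 5 2, Dec.pos 6666666666666666 16, Dec.pos 2 3⟩,
    ⟨Dec.pos 588 3, Dec.pos 55 3, Dec.pos 6666666666666666 16, Dec.pos 5 3⟩,
    ⟨Dec.pos 552 3, Dec.pos 6 2, Dec.pos 6666666666666666 16, Dec.pos 1 2⟩,
    ⟨Dec.pos 54 2, Dec.pos 6 2, Dec.pos 6666666666666666 16, Dec.pos 2 2⟩,
    ⟨Dec.pos 453 3, Dec.pos 7 2, Dec.pos 6666666666666666 16, Dec.pos 5 2⟩,
    ⟨Dec.pos 395 3, Dec.pos 7 2, Dec.pos 6666666666666666 16, Dec.pos 1 1⟩]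

lemma tabE8_ok : ∀ e ∈ tabE8, ExpFd 8 e.c.val e.mu.val e.P.val e.de.val := by
  intro e he
  simp only [tabE8, List.mem_cons, List.not_mem_nil, or_false] at he
  rcases he with rfl | rfl | rfl | rfl | rfl | rfl | rfl | rfl | rfl | rfl | rfl | rfl | rfl |
    rfl | rfl | rfl | rfl | rfl | rfl | rfl | rfl | rfl | rfl | rfl | rfl | rfl | rfl | rfl |
    rfl | rfl
  · exact ee_ok TSM.expFd_eight_e00 (by rw [Dec.val_pos]; norm_num)
      (by rw [Dec.val_pos]; norm_num) (by rw [Dec.val_zero])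
      (by rw [Dec.val_pos]; norm_num)
  · exact ee_ok TSM.expFd_eight_e01 (by rw [Dec.val_pos]; norm_num)
      (by rw [Dec.val_pos]; norm_num) (by rw [Dec.val_zero])
      (by rw [Dec.val_pos]; norm_num)
  · exact ee_ok TSM.expFd_eight_e02 (by rw [Dec.val_pos]; norm_num)
      (by rw [Dec.val_pos]; norm_num) (by rw [Dec.val_zero])
      (by rw [Dec.val_pos]; norm_num)
  · exact ee_ok TSM.expFd_eight_e03 (by rw [Dec.val_pos]; norm_num)
      (by rw [Dec.val_pos]; norm_num) (by rw [Dec.val_zero])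
      (by rw [Dec.val_pos]; norm_num)
  · exact ee_ok TSM.expFd_eight_e04 (by rw [Dec.val_pos]; norm_num)
      (by rw [Dec.val_pos]; norm_num) (by rw [Dec.val_zero])
      (by rw [Dec.val_pos]; norm_num)
  · exact ee_ok TSM.expFd_eight_e05 (by rw [Dec.val_pos]; norm_num)
      (by rw [Dec.val_pos]; norm_num) (by rw [Dec.val_zero])
      (by rw [Dec.val_pos]; norm_num)
  · exact ee_ok TSM.expFd_eight_e10 (by rw [Dec.val_pos]; norm_num)
      (by rw [Dec.val_pos]; norm_num) (by rw [Dec.val_pos]; norm_num)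
      (by rw [Dec.val_pos]; norm_num)
  · exact ee_ok TSM.expFd_eight_e11 (by rw [Dec.val_pos]; norm_num)
      (by rw [Dec.val_pos]; norm_num) (by rw [Dec.val_pos]; norm_num)
      (by rw [Dec.val_pos]; norm_num)
  · exact ee_ok TSM.expFd_eight_e12 (by rw [Dec.val_pos]; norm_num)
      (by rw [Dec.val_pos]; norm_num) (by rw [Dec.val_pos]; norm_num)
      (by rw [Dec.val_pos]; norm_num)
  · exact ee_ok TSM.expFd_eight_e13 (by rw [Dec.val_pos]; norm_num)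
      (by rw [Dec.val_pos]; norm_num) (by rw [Dec.val_pos]; norm_num)
      (by rw [Dec.val_pos]; norm_num)
  · exact ee_ok TSM.expFd_eight_e14 (by rw [Dec.val_pos]; norm_num)
      (by rw [Dec.val_pos]; norm_num) (by rw [Dec.val_pos]; norm_num)
      (by rw [Dec.val_pos]; norm_num)
  · exact ee_ok TSM.expFd_eight_e15 (by rw [Dec.val_pos]; norm_num)
      (by rw [Dec.val_pos]; norm_num) (by rw [Dec.val_pos]; norm_num)
      (by rw [Dec.val_pos]; norm_num)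
  · exact ee_ok TSM.expFd_eight_e20 (by rw [Dec.val_pos]; norm_num)
      (by rw [Dec.val_pos]; norm_num) (by rw [Dec.val_pos]; norm_num)
      (by rw [Dec.val_pos]; norm_num)
  · exact ee_ok TSM.expFd_eight_e21 (by rw [Dec.val_pos]; norm_num)
      (by rw [Dec.val_pos]; norm_num) (by rw [Dec.val_pos]; norm_num)
      (by rw [Dec.val_pos]; norm_num)
  · exact ee_ok TSM.expFd_eight_e22 (by rw [Dec.val_pos]; norm_num)
      (by rw [Dec.val_pos]; norm_num) (by rw [Dec.val_pos]; norm_num)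
      (by rw [Dec.val_pos]; norm_num)
  · exact ee_ok TSM.expFd_eight_e23 (by rw [Dec.val_pos]; norm_num)
      (by rw [Dec.val_pos]; norm_num) (by rw [Dec.val_pos]; norm_num)
      (by rw [Dec.val_pos]; norm_num)
  · exact ee_ok TSM.expFd_eight_e24 (by rw [Dec.val_pos]; norm_num)
      (by rw [Dec.val_pos]; norm_num) (by rw [Dec.val_pos]; norm_num)
      (by rw [Dec.val_pos]; norm_num)
  · exact ee_ok TSM.expFd_eight_e25 (by rw [Dec.val_pos]; norm_num)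
      (by rw [Dec.val_pos]; norm_num) (by rw [Dec.val_pos]; norm_num)
      (by rw [Dec.val_pos]; norm_num)
  · exact ee_ok TSM.expFd_eight_e30 (by rw [Dec.val_pos]; norm_num)
      (by rw [Dec.val_pos]; norm_num) (by rw [Dec.val_pos]; norm_num)
      (by rw [Dec.val_pos]; norm_num)
  · exact ee_ok TSM.expFd_eight_e31 (by rw [Dec.val_pos]; norm_num)
      (by rw [Dec.val_pos]; norm_num) (by rw [Dec.val_pos]; norm_num)
      (by rw [Dec.val_pos]; norm_num)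
  · exact ee_ok TSM.expFd_eight_e32 (by rw [Dec.val_pos]; norm_num)
      (by rw [Dec.val_pos]; norm_num) (by rw [Dec.val_pos]; norm_num)
      (by rw [Dec.val_pos]; norm_num)
  · exact ee_ok TSM.expFd_eight_e33 (by rw [Dec.val_pos]; norm_num)
      (by rw [Dec.val_pos]; norm_num) (by rw [Dec.val_pos]; norm_num)
      (by rw [Dec.val_pos]; norm_num)
  · exact ee_ok TSM.expFd_eight_e34 (by rw [Dec.val_pos]; norm_num)
      (by rw [Dec.val_pos]; norm_num) (by rw [Dec.val_pos]; norm_num)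
      (by rw [Dec.val_pos]; norm_num)
  · exact ee_ok TSM.expFd_eight_e35 (by rw [Dec.val_pos]; norm_num)
      (by rw [Dec.val_pos]; norm_num) (by rw [Dec.val_pos]; norm_num)
      (by rw [Dec.val_pos]; norm_num)
  · exact ee_ok TSM.expFd_eight_e40 (by rw [Dec.val_pos]; norm_num)
      (by rw [Dec.val_pos]; norm_num) (by rw [Dec.val_pos]; norm_num)
      (by rw [Dec.val_pos]; norm_num)
  · exact ee_ok TSM.expFd_eight_e41 (by rw [Dec.val_pos]; norm_num)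
      (by rw [Dec.val_pos]; norm_num) (by rw [Dec.val_pos]; norm_num)
      (by rw [Dec.val_pos]; norm_num)
  · exact ee_ok TSM.expFd_eight_e42 (by rw [Dec.val_pos]; norm_num)
      (by rw [Dec.val_pos]; norm_num) (by rw [Dec.val_pos]; norm_num)
      (by rw [Dec.val_pos]; norm_num)
  · exact ee_ok TSM.expFd_eight_e43 (by rw [Dec.val_pos]; norm_num)
      (by rw [Dec.val_pos]; norm_num) (by rw [Dec.val_pos]; norm_num)
      (by rw [Dec.val_pos]; norm_num)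
  · exact ee_ok TSM.expFd_eight_e44 (by rw [Dec.val_pos]; norm_num)
      (by rw [Dec.val_pos]; norm_num) (by rw [Dec.val_pos]; norm_num)
      (by rw [Dec.val_pos]; norm_num)
  · exact ee_ok TSM.expFd_eight_e45 (by rw [Dec.val_pos]; norm_num)
      (by rw [Dec.val_pos]; norm_num) (by rw [Dec.val_pos]; norm_num)
      (by rw [Dec.val_pos]; norm_num)

/-- the rows for any number of children -/
def tabE0 : List ECe :=
  [⟨Dec.pos 487 3, Dec.pos 1 1, Dec.zero, Dec.pos 2 3⟩,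
    ⟨Dec.pos 463 3, Dec.pos 105 3, Dec.zero, Dec.pos 2 3⟩,
    ⟨Dec.pos 459 3, Dec.pos 105 3, Dec.zero, Dec.pos 5 3⟩,
    ⟨Dec.pos 431 3, Dec.pos 11 2, Dec.zero, Dec.pos 1 2⟩,
    ⟨Dec.pos 418 3, Dec.pos 11 2, Dec.zero, Dec.pos 2 2⟩,
    ⟨Dec.pos 385 3, Dec.pos 12 2, Dec.zero, Dec.pos 2 2⟩,
    ⟨Dec.pos 36 2, Dec.pos 12 2, Dec.zero, Dec.pos 5 2⟩,
    ⟨Dec.pos 542 3, Dec.pos 9 2, Dec.zero, Dec.pos 1 2⟩,
    ⟨Dec.pos 477 3, Dec.pos 1 1, Dec.zero, Dec.pos 1 2⟩,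
    ⟨Dec.pos 44 2, Dec.pos 105 3, Dec.zero, Dec.pos 2 2⟩,
    ⟨Dec.pos 406 3, Dec.pos 11 2, Dec.zero, Dec.pos 3 2⟩,
    ⟨Dec.pos 398 3, Dec.pos 115 3, Dec.zero, Dec.pos 2 2⟩,
    ⟨Dec.pos 385 3, Dec.pos 115 3, Dec.zero, Dec.pos 3 2⟩,
    ⟨Dec.pos 374 3, Dec.pos 12 2, Dec.zero, Dec.pos 3 2⟩,
    ⟨Dec.pos 382 3, Dec.pos 11 2, Dec.zero, Dec.pos 5 2⟩,
    ⟨Dec.pos 361 3, Dec.pos 115 3, Dec.zero, Dec.pos 5 2⟩]

lemma tabE0_ok {K : ℕ} (hK : 0 < K) (Q : ℝ) :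
    ∀ e ∈ tabE0, ExpFd K e.c.val e.mu.val Q e.de.val := by
  intro e he
  simp only [tabE0, List.mem_cons, List.not_mem_nil, or_false] at he
  rcases he with rfl | rfl | rfl | rfl | rfl | rfl | rfl | rfl | rfl | rfl | rfl | rfl | rfl |
    rfl | rfl | rfl
  · exact (TSM.expEd_a.toF hK Q).mono (by rw [Dec.val_pos]; norm_num)
      (by rw [Dec.val_pos]; norm_num) le_rfl (by rw [Dec.val_pos]; norm_num)
  · exact (TSM.expEd_b.toF hK Q).mono (by rw [Dec.val_pos]; norm_num)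
      (by rw [Dec.val_pos]; norm_num) le_rfl (by rw [Dec.val_pos]; norm_num)
  · exact (TSM.expEd_c.toF hK Q).mono (by rw [Dec.val_pos]; norm_num)
      (by rw [Dec.val_pos]; norm_num) le_rfl (by rw [Dec.val_pos]; norm_num)
  · exact (TSM.expEd_d.toF hK Q).mono (by rw [Dec.val_pos]; norm_num)
      (by rw [Dec.val_pos]; norm_num) le_rfl (by rw [Dec.val_pos]; norm_num)
  · exact (TSM.expEd_e.toF hK Q).mono (by rw [Dec.val_pos]; norm_num)
      (by rw [Dec.val_pos]; norm_num) le_rfl (by rw [Dec.val_pos]; norm_num)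
  · exact (TSM.expEd_f.toF hK Q).mono (by rw [Dec.val_pos]; norm_num)
      (by rw [Dec.val_pos]; norm_num) le_rfl (by rw [Dec.val_pos]; norm_num)
  · exact (TSM.expEd_g.toF hK Q).mono (by rw [Dec.val_pos]; norm_num)
      (by rw [Dec.val_pos]; norm_num) le_rfl (by rw [Dec.val_pos]; norm_num)
  · exact (TSM.expEd_h.toF hK Q).mono (by rw [Dec.val_pos]; norm_num)
      (by rw [Dec.val_pos]; norm_num) le_rfl (by rw [Dec.val_pos]; norm_num)
  · exact (TSM.expEd_i.toF hK Q).mono (by rw [Dec.val_pos]; norm_num)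
      (by rw [Dec.val_pos]; norm_num) le_rfl (by rw [Dec.val_pos]; norm_num)
  · exact (TSM.expEd_j.toF hK Q).mono (by rw [Dec.val_pos]; norm_num)
      (by rw [Dec.val_pos]; norm_num) le_rfl (by rw [Dec.val_pos]; norm_num)
  · exact (TSM.expEd_k.toF hK Q).mono (by rw [Dec.val_pos]; norm_num)
      (by rw [Dec.val_pos]; norm_num) le_rfl (by rw [Dec.val_pos]; norm_num)
  · exact (TSM.expEd_l.toF hK Q).mono (by rw [Dec.val_pos]; norm_num)
      (by rw [Dec.val_pos]; norm_num) le_rfl (by rw [Dec.val_pos]; norm_num)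
  · exact (TSM.expEd_m.toF hK Q).mono (by rw [Dec.val_pos]; norm_num)
      (by rw [Dec.val_pos]; norm_num) le_rfl (by rw [Dec.val_pos]; norm_num)
  · exact (TSM.expEd_n.toF hK Q).mono (by rw [Dec.val_pos]; norm_num)
      (by rw [Dec.val_pos]; norm_num) le_rfl (by rw [Dec.val_pos]; norm_num)
  · exact (TSM.expEd_o.toF hK Q).mono (by rw [Dec.val_pos]; norm_num)
      (by rw [Dec.val_pos]; norm_num) le_rfl (by rw [Dec.val_pos]; norm_num)
  · exact (TSM.expEd_p.toF hK Q).mono (by rw [Dec.val_pos]; norm_num)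
      (by rw [Dec.val_pos]; norm_num) le_rfl (by rw [Dec.val_pos]; norm_num)

/-- the table -/
def tabEd : ℕ → List ECe
  | 0 => tabE0
  | 4 => tabE4
  | 6 => tabE6
  | 8 => tabE8
  | _ => []

lemma tabEd_ok {K : ℕ} (hK : 0 < K) :
    ∀ e ∈ tabEd K, ExpFd K e.c.val e.mu.val e.P.val e.de.val := by
  intro e he
  rcases K with _ | _ | _ | _ | _ | _ | _ | _ | _ | n
  · exact absurd hK (by norm_num)
  · simp [tabEd] at he
  · simp [tabEd] at he
  · simp [tabEd] at he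
  · exact tabE4_ok e he
  · simp [tabEd] at he
  · exact tabE6_ok e he
  · simp [tabEd] at he
  · exact tabE8_ok e he
  · simp [tabEd] at he

/-- the test of the constants of the even rule: `rD` bounds the gain, `de` is the constant; the
rows of `tabE` have `de = 0` -/
def exdOk (kd : ℕ) (c mu de rD : Dec) : Bool :=
  Dec.nn de && (exOk kd c mu rD || (tabEd kd).any fun e => Dec.nn (Dec.sub c e.c) &&
    (Dec.nn (Dec.sub mu e.mu) && (Dec.nn (Dec.sub de e.de) &&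
    (Nat.beq kd 0 || Dec.nn (Dec.sub e.P rD)))))

/-- the real constants -/
lemma exdOk_sound {kd K : ℕ} {c mu de rD : Dec} (h : exdOk kd c mu de rD = true)
    (hK : KdOk kd K) : ExpFd K c.val mu.val rD.val de.val := by
  unfold exdOk at h
  rw [Bool.and_eq_true, Bool.or_eq_true] at h
  obtain ⟨h0, h⟩ := h
  have ed := Dec.nn_iff h0
  rcases h with h | h
  · exact (exOk_sound h hK).toD.mono le_rfl le_rfl le_rfl ed
  · rw [List.any_eq_true] at h
    obtain ⟨e, he, h3⟩ := h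
    simp only [Bool.and_eq_true, Bool.or_eq_true] at h3
    obtain ⟨k1, k2, k4, k3⟩ := h3
    have e1 := Dec.nn_iff k1
    have e2 := Dec.nn_iff k2
    have e4 := Dec.nn_iff k4
    rw [Dec.val_sub] at e1 e2 e4
    rcases kd with _ | kd
    · exact (tabE0_ok hK.2 rD.val e he).mono (by linarith) (by linarith) le_rfl (by linarith)
    · rcases k3 with k3 | k3
      · simp at k3
      · have e3 := Dec.nn_iff k3
        rw [Dec.val_sub] at e3
        rcases hK.1 with h2 | h2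
        · omega
        · rw [← h2]
          exact (tabEd_ok (Nat.succ_pos _) e he).mono (by linarith) (by linarith)
            (by linarith) (by linarith)

/-- the constant `de` is paid by `dl` on every cell -/
def dlOk (de dl : Dec) (a : Dec) : Bool := Dec.nn dl && Dec.nn (Dec.sub (Dec.mul dl a) de)

lemma dlOk_sound {de dl a : Dec} {D : ℝ} (h : dlOk de dl a = true) (hD : a.val ≤ D) :
    0 ≤ dl.val ∧ de.val ≤ dl.val * D := by
  unfold dlOk at h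
  rw [Bool.and_eq_true] at h
  obtain ⟨h1, h2⟩ := h
  have e1 := Dec.nn_iff h1
  have e2 := Dec.nn_iff h2
  rw [Dec.val_sub, Dec.val_mul] at e2
  exact ⟨e1, by nlinarith [mul_le_mul_of_nonneg_left hD e1]⟩

end Pool.Agent.TSG
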