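import Pool.Agent.TSG.FamT
import Pool.Agent.TSG.TabEd
import Pool.Agent.TSG.Const

set_option autoImplicit false

/-!
# Families with an even number of children: from the lines to `EvenH` (MP_d27362_co)
-/

namespace Pool.Agent.TSG

open Finset
open Pool.Agent.TSC
open Pool.Agent.TSM (q0 th RD Reg Sn NS Q5 Chd Spl FamS FamT FamK chd vU vY aU aY c1 ExpF ExpFd ExpE
  EvenH ItD fam)
open Pool.Agent.TSR (OBr sg_true sg_false)
open Pool.Agent.TLT (sg)

/-! ### an even number of children -/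

/-- the constants of the rule for an even number of children, for one interval of total masses -/
structure KE where
  /-- factor of the square -/
  cq : Dec
  /-- factor in the exponent -/
  mu : Dec
  /-- the parameter of the sup bound -/
  l : Dec
  /-- an upper bound of `1 / l` -/
  il : Dec
  /-- factor of `t U'²` -/
  MU : Dec
  /-- factor of `y'²` -/
  MY : Dec
  /-- factor of the second moment -/
  Cs : Dec
  /-- the cap of the gain -/
  r : Dec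
  /-- the payments -/
  s : S4 (PS Dec)
  /-- the constant in the exponent -/
  de : Dec
  /-- the cost of the constant in a line, `de ≤ dl D` -/
  dl : Dec

/-- the line with the gain `y'` -/
def ldA (k : KE) : LD Dec :=
  ⟨k.MU, k.MY, Dec.zero, k.Cs, Dec.zero, Dec.zero, Dec.zero, Dec.neg k.dl, Dec.one, Dec.zero⟩

/-- the line with the gain `r` -/
def ldB (k : KE) : LD Dec :=
  ⟨k.MU, k.MY, Dec.zero, k.Cs, Dec.zero, Dec.zero, Dec.zero, Dec.sub k.r k.dl, Dec.zero,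
    Dec.zero⟩

/-- the test of the state costs: `μ (1 + l) ≤ MU` and `μ ((1 + l) + (1 + 1 / l) D1) ≤ MY` -/
def supOk (mu l il MU MY D1 : Dec) : Bool :=
  Dec.ps l && (Dec.nn (Dec.sub (Dec.mul il l) Dec.one) &&
  (Dec.nn (Dec.sub MU (Dec.mul mu (Dec.add Dec.one l))) &&
  (Dec.nn mu && Dec.nn (Dec.sub MY (Dec.mul mu (Dec.add (Dec.add Dec.one l)
    (Dec.mul (Dec.add Dec.one il) D1)))))))

lemma supOk_sound {mu l il MU MY D1 : Dec} (h : supOk mu l il MU MY D1 = true) {D : ℝ}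
    (h0 : 0 ≤ D) (h1 : D ≤ D1.val) : 0 < l.val ∧ mu.val * (1 + l.val) ≤ MU.val ∧
      mu.val * ((1 + l.val) + (1 + 1 / l.val) * D) ≤ MY.val := by
  simp only [supOk, Bool.and_eq_true] at h
  obtain ⟨k1, k2, k3, k4, k5⟩ := h
  have e1 := Dec.ps_iff k1
  have e2 := Dec.nn_iff k2
  have e3 := Dec.nn_iff k3
  have e4 := Dec.nn_iff k4
  have e5 := Dec.nn_iff k5
  simp only [Dec.val_sub, Dec.val_mul, Dec.val_one, Dec.val_add] at e2 e3 e5
  refine ⟨e1, by linarith, ?_⟩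
  have h2 : 1 / l.val ≤ il.val := by
    rw [div_le_iff₀ e1]
    linarith
  have h3 : 0 ≤ 1 / l.val := by positivity
  have h4 : (1 + 1 / l.val) * D ≤ (1 + il.val) * D1.val :=
    mul_le_mul (by linarith) h1 h0 (by linarith)
  have h5 := mul_le_mul_of_nonneg_left h4 e4
  nlinarith

/-- the test of the constants without the table -/
def evOkR (k : KE) (dc : Seg (Kn Dec)) : Bool :=
  dlOk k.de k.dl dc.a &&
  (supOk k.mu k.l k.il k.MU k.MY (Dec.add dc.a dc.w) &&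
  (Dec.nn (Dec.sub k.Cs (Dec.nsm 2 k.cq)) &&
  (Dec.nn (Dec.sub k.Cs (Dec.add (Dec.nsm 2 k.cq) (Dec.mul dc.x.chi
    (Dec.sub (Dec.nsm 2 k.cq) dc.x.pd.C0)))) &&
  (Dec.nn k.r && (Dec.nn dc.a && (Dec.nn dc.w && psOk k.s))))))

/-- the test of the constants; `kd` is the number of all children or `0` -/
def evOk (kd : ℕ) (k : KE) (dc : Seg (Kn Dec)) : Bool :=
  exdOk kd k.cq k.mu k.de (Dec.mul k.r (Dec.add dc.a dc.w)) && evOkR k dc

/-- the constants, whatever the table -/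
structure EvK (kd : ℕ) (k : KE) (dc : Seg (Kn Dec)) : Prop where
  hx : ∀ K, KdOk kd K → ExpFd K k.cq.val k.mu.val (Dec.mul k.r (Dec.add dc.a dc.w)).val k.de.val
  hr : evOkR k dc = true

lemma evOk_k {kd : ℕ} {k : KE} {dc : Seg (Kn Dec)} (h : evOk kd k dc = true) : EvK kd k dc := by
  unfold evOk at h
  rw [Bool.and_eq_true] at h
  exact ⟨fun K hK => exdOk_sound h.1 hK, h.2⟩

/-- a row of a table is correct; for `kd = 0` it holds for every bound of the gain -/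
def RowOk (kd : ℕ) (e : ECe) : Prop :=
  ∀ K, KdOk kd K → ∀ Q : ℝ, (kd = 0 ∨ Q ≤ e.P.val) → ExpFd K e.c.val e.mu.val Q e.de.val

/-- the test of the constants with any table -/
def exdOk2 (tab : List ECe) (kd : ℕ) (c mu de rD : Dec) : Bool :=
  Dec.nn de && (exOk kd c mu rD || tab.any fun e => Dec.nn (Dec.sub c e.c) &&
    (Dec.nn (Dec.sub mu e.mu) && (Dec.nn (Dec.sub de e.de) &&
    (Nat.beq kd 0 || Dec.nn (Dec.sub e.P rD)))))

lemma exdOk2_sound {tab : List ECe} {kd K : ℕ} {c mu de rD : Dec}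
    (ht : ∀ e ∈ tab, RowOk kd e) (h : exdOk2 tab kd c mu de rD = true) (hK : KdOk kd K) :
    ExpFd K c.val mu.val rD.val de.val := by
  unfold exdOk2 at h
  rw [Bool.and_eq_true, Bool.or_eq_true] at h
  obtain ⟨h0, h⟩ := h
  have ed := Dec.nn_iff h0
  rcases h with h | h
  · exact (exOk_sound h hK).toD.mono le_rfl le_rfl le_rfl ed
  · rw [List.any_eq_true] at h
    obtain ⟨e, he, h3⟩ := h
    simp only [Bool.and_eq_true, Bool.or_eq_true] at h3
    obtain ⟨k1, k2, k4, k3⟩ := h3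
    have e1 := Dec.nn_iff k1
    have e2 := Dec.nn_iff k2
    have e4 := Dec.nn_iff k4
    rw [Dec.val_sub] at e1 e2 e4
    have h4 : kd = 0 ∨ rD.val ≤ e.P.val := by
      rcases k3 with k3 | k3
      · exact Or.inl (Nat.eq_of_beq_eq_true k3)
      · have e3 := Dec.nn_iff k3
        rw [Dec.val_sub] at e3
        exact Or.inr (by linarith)
    exact (ht e he K hK rD.val h4).mono (by linarith) (by linarith) le_rfl (by linarith)

/-- the test of the constants with any table; `kd` is the number of all children or `0` -/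
def evOk2 (tab : List ECe) (kd : ℕ) (k : KE) (dc : Seg (Kn Dec)) : Bool :=
  exdOk2 tab kd k.cq k.mu k.de (Dec.mul k.r (Dec.add dc.a dc.w)) && evOkR k dc

lemma evOk2_k {tab : List ECe} {kd : ℕ} (ht : ∀ e ∈ tab, RowOk kd e) {k : KE}
    {dc : Seg (Kn Dec)} (h : evOk2 tab kd k dc = true) : EvK kd k dc := by
  unfold evOk2 at h
  rw [Bool.and_eq_true] at h
  exact ⟨fun K hK => exdOk2_sound ht h.1 hK, h.2⟩

variable {tl : List TC} {dl : List (Seg (Kn Dec))} {d : Seg (Kn Dec)}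
  {D a : ℝ} {F : FE ℝ} {x : FX Dec} {S : FS} {lf : Kn Dec → LD Dec} {sf : ℕ → S4 (PS Dec)}

/-- the coefficients of the new state -/
lemma pN_ns (F : FE ℝ) (S : FS) (h : F.E.t = a) : (F.pN S).ns =
    (((F.E.V.ty S.tn).na).ns).add
      (S.xi * (F.l.MY + (F.l.b - F.l.al) * a) + (F.l.k0 + F.l.k1 * a) -
        (F.l.g0 + F.l.z * (pdQ F.E S.tn).c))
      (-(F.l.al * a + F.l.z * (pdQ F.E S.tn).al))
      (F.l.MU * a + F.l.b * a ^ 2 - F.l.z * (pdQ F.E S.tn).be)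
      (S.xi * ((F.l.al - 2 * F.l.b) * a - 2 * F.l.MY) - (F.l.g1 + F.l.z * (pdQ F.E S.tn).ga))
      (F.l.MY + F.l.b * a - F.l.z * (pdQ F.E S.tn).de) := by
  unfold FE.pN NA.lf NA.add NS.add NA.ns
  simp only [rAdd, rMul, rSub, rNeg, rNsm, h]
  push_cast
  congr 1
  ring

/-- the value of the new state -/
lemma pN_ev (F : FE ℝ) (S : FS) (h : F.E.t = a) (s : Sn) : (F.pN S).ns.ev s =
    (F.E.V.ty S.tn).ev s +
      (S.xi * (F.l.MY + (F.l.b - F.l.al) * a) + (F.l.k0 + F.l.k1 * a) -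
        (F.l.g0 + F.l.z * (pdQ F.E S.tn).c)) +
      (-(F.l.al * a + F.l.z * (pdQ F.E S.tn).al)) * s.u +
      (F.l.MU * a + F.l.b * a ^ 2 - F.l.z * (pdQ F.E S.tn).be) * s.u ^ 2 +
      (S.xi * ((F.l.al - 2 * F.l.b) * a - 2 * F.l.MY) -
        (F.l.g1 + F.l.z * (pdQ F.E S.tn).ga)) * s.y +
      (F.l.MY + F.l.b * a - F.l.z * (pdQ F.E S.tn).de) * s.y ^ 2 := by
  rw [pN_ns F S h, NS.add_ev, vt_ev]
  ring

/-- the value of the new state in terms of the moments of the rest -/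
lemma pN_ev2 (F : FE ℝ) (S : FS) (hE : F.E.Ok realHom D a) (hxi : S.xi ≤ 1) (s : Sn)
    (hs : s.ty = S.tn) : (F.pN S).ns.ev s =
    (F.E.V.ty S.tn).ev s + F.l.MU * (a * s.u ^ 2) + F.l.MY * (s.y - S.xi) ^ 2 +
      F.l.b * (a ^ 2 * s.u ^ 2 + a * (s.y - S.xi) ^ 2) +
      F.l.al * (-(a * s.u) + a * S.xi * (s.y - S.xi)) + (F.l.k0 + F.l.k1 * a) -
      (F.l.g0 + F.l.g1 * s.y) - F.l.z * F.E.k.pd.ev D a s := by
  have h1 : F.E.t = a := hE.ht
  rw [pN_ev F S h1, ← pd_ev hE s, hs]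
  unfold Q5.ev QA.q5
  have h2 : (S.xi : ℝ) ^ 2 = S.xi := by
    interval_cases S.xi <;> norm_num
  linear_combination (-F.l.MY - F.l.b * a + F.l.al * a) * h2

/-- the total mass of an interval -/
lemma pick_D (hc : covers tl dl = true) (hD : RD D) : pick dl d D ∈ dl ∧
    ∃ mu : ℝ, 0 ≤ mu ∧ mu ≤ 1 ∧
      D = (pick dl d D).a.val + mu * (pick dl d D).w.val := by
  obtain ⟨hm, mu, m0, m1, hmu, _⟩ := covers_sound hc d hD
  exact ⟨hm, mu, m0, m1, hmu⟩

lemma pick_geE (hc : covers tl dl = true) (hD : RD D) (hw : 0 ≤ (pick dl d D).w.val) :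
    (pick dl d D).a.val ≤ D := by
  obtain ⟨_, mu, m0, m1, h⟩ := pick_D (d := d) hc hD
  have := mul_nonneg m0 hw
  linarith

lemma pick_le (hc : covers tl dl = true) (hD : RD D) (hw : 0 ≤ (pick dl d D).w.val) :
    D ≤ (Dec.add (pick dl d D).a (pick dl d D).w).val := by
  obtain ⟨_, mu, m0, m1, h⟩ := pick_D (d := d) hc hD
  rw [Dec.val_add]
  have := mul_le_mul_of_nonneg_right m1 hw
  linarith

/-- the number of the children and the shape -/
def ShM (M m : ℕ) : Prop := (M = 0 ∧ 4 ≤ m) ∨ (m = M ∧ M ≠ 0) ∨ (100 ≤ M ∧ M ≤ m + 100)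

/-- the shape of a line for an even number of children -/
def fsV (n M pa : ℕ) (rg : Rg) (gs td : ℕ) (vm fv gm fg : Dec) (z : Bool := false)
    (nr : ℕ := 0) (kN : Dec := Dec.zero) (msk : ℕ := 0) : FS where
  tn := 0
  n := n
  M := M
  xi := 0
  pa := pa
  rg := rg
  gs := gs
  td := td
  f := Dec.nsm 2 Dec.one
  vm := vm
  fv := fv
  gm := gm
  fg := fg
  z := z
  nr := nr
  kN := kN
  msk := msk

/-- the shape of a line for an even number of children with the label `n`, general labels -/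
def fsE (n M pa : ℕ) (rg : Rg) : FS :=
  fsV n M pa rg (1 - n) 0 (Dec.nsm (16 - 12 * n) Dec.one) (Dec.nsm (4 - 3 * n) Dec.one)
    (Dec.pos 4936 3) (Dec.nsm 2 Dec.one)

/-- the value of `G` of a family -/
lemma gs_of {K : ℕ} {O : Fin K → OBr} {N : Finset (Fin K)} {σ e ρ : Fin K → Bool} {n : ℕ}
    {m f vm fv fg : ℝ} {z : Bool} (hS : FamS O N σ e ρ m f n vm fv fg z) (hI : TSM.Inv (fam σ e O))
    (hn : n ≤ 1) : GSg (1 - n) (Dec.pos 4936 3).val ((TSM.gU e O).eval q0) := by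
  interval_cases n
  · have eY : vY (fam σ e O) = -(q0 * (TSM.gU e O).eval q0) := by
      unfold vY
      rw [hS.hY, Polynomial.eval_sub, Polynomial.eval_C, Polynomial.eval_mul, Polynomial.eval_X]
      push_cast
      ring
    obtain ⟨_, _, _, h3, h4⟩ := hI
    rw [eY] at h3 h4
    have hq := TSM.q0_pos
    have hq2 := TSM.q0_ge
    refine Or.inr (Or.inl ⟨rfl, ?_, ?_⟩)
    · by_contra h
      push Not at h
      have := mul_pos hq h
      linarith
    · rw [Dec.val_pos]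
      by_contra h
      push Not at h
      have h5 := mul_lt_mul_of_pos_left h hq
      nlinarith
  · exact Or.inl rfl

variable {K : ℕ} {O : Fin K → OBr} {N : Finset (Fin K)} {tc : Fin K → ℕ} {σ e ρ : Fin K → Bool}
  {dl' : List (Seg (Kn Dec))}

/-- **one family with an even number of children**, any shape, at one total mass -/
theorem evF_at (hc : covers tl dl = true) (hs : LOK tl dl sgnL) (hK : KOk (knAt dl d D) D)
    (hD : RD D) (hmem : pick dl d D ∈ dl') (htn : S.tn = 0) (hxi : S.xi = 0) {kd : ℕ}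
    (hkd : KdOk kd K) (k : ℕ → KE) (hk : ∀ dc ∈ dl', EvK kd (k dc.x.ix) dc)
    (hA : LineOK tl dl' S (fun x => ldA (k x.ix)) (fun ix => (k ix).s))
    (hB : LineOK tl dl' S (fun x => ldB (k x.ix)) (fun ix => (k ix).s))
    (hF : FH S O N tc σ e ρ) :
    TSM.EvF2 (chiF dl d) D K (fun a => (TSM.UU (fam σ e O)).eval a)
        (fun a => (TSM.YY (fam σ e O)).eval a) (fun a => ∑ i, TSM.Vi (VV tl dl d) N tc O i D a)
        (fun a => VV tl dl d D a ((chd 0 (fam σ e O)).sn a))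
        (fun a => PP' dl d D a ((chd 0 (fam σ e O)).sn a)) := by
  have hk' := hk _ hmem
  obtain ⟨kk, hkk⟩ : ∃ kk, kk = k (pick dl d D).x.ix := ⟨_, rfl⟩
  rw [← hkk] at hk'
  have hEx := hk'.hx K hkd
  have hk' := hk'.hr
  simp only [evOkR, Bool.and_eq_true] at hk'
  obtain ⟨qd, q2, q3, q4, q5, q7, q8, q9⟩ := hk'
  have hDle := pick_le (d := d) hc hD (Dec.nn_iff q8)
  obtain ⟨s1, s2, s3⟩ := supOk_sound q2 hD.1 hDle
  have e3 := Dec.nn_iff q3
  have e4 := Dec.nn_iff q4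
  have e5 := Dec.nn_iff q5
  simp only [Dec.val_sub, Dec.val_mul, Dec.val_add, Dec.val_nsm, Nat.cast_ofNat] at e3 e4
  have hχ0 : 0 ≤ chiF dl d D := hK.chi0
  obtain ⟨hdl0, hdeD⟩ := dlOk_sound qd (pick_geE (d := d) hc hD (Dec.nn_iff q8))
  have hQ2 : kk.r.val * D ≤ (Dec.mul kk.r (Dec.add (pick dl d D).a (pick dl d D).w)).val := by
    rw [Dec.val_mul]
    exact mul_le_mul_of_nonneg_left hDle e5
  have hpay : ∀ ty, (((k (pick dl d D).x.ix).s.map (PS.map Dec.val)).ty ty).Ok := by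
    rw [← hkk]
    exact psOk_sound q9
  refine TSM.evF_ofD (C0 := (knAt dl d D).pd.C0) kk.cq.val kk.mu.val _ kk.l.val kk.r.val
    kk.de.val kk.dl.val kk.MU.val kk.MY.val kk.Cs.val hEx hQ2 hdeD s1 s2 s3 (by linarith) ?_ hχ0
    (fun a ha => le_rfl)
    (s := ∑ i ∈ N, (((k (pick dl d D).x.ix).s.map (PS.map Dec.val)).ty (tc i)).pv (O i) * D)
    (sum_nonneg fun i _ => mul_nonneg ((hpay _).pv (hF.hS.hO.hI i)) hD.1) (fun a ha haq hD0 => ?_)
    (fun a ha haq hD0 => ?_)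
  · have h6 : (knAt dl d D).pd.C0 = (pick dl d D).x.pd.C0.val := rfl
    have h7 : chiF dl d D = (pick dl d D).x.chi.val := rfl
    rw [h6, h7]
    linarith
  · obtain ⟨F, x, hL⟩ := hA.at (d := d) hc ha hmem
    have h1 := hL.line hc hs ha haq hF hpay 0
    have hl : F.l = (ldA kk).map Dec.val := by rw [hL.hl, hkk]
    have ht : F.E.t = a := (hL.ok hc hs ha).ht
    rw [pN_ev F _ ht, hL.hE, hl, htn, hxi] at h1
    simp only [ldA, LD.map, Dec.val_zero, Dec.val_one, Dec.val_neg, Nat.cast_zero] at h1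
    show ((enAt tl dl d D a).V.ty 0).ev ((chd 0 (fam σ e O)).sn a) -
      ((chd 0 (fam σ e O)).sn a).y + kk.dl.val + (kk.MU.val * (a * ((chd 0 (fam σ e O)).sn a).u ^ 2) +
        kk.MY.val * ((chd 0 (fam σ e O)).sn a).y ^ 2) +
      kk.Cs.val * (a ^ 2 * ((chd 0 (fam σ e O)).sn a).u ^ 2 +
        a * ((chd 0 (fam σ e O)).sn a).y ^ 2) + _ ≤ _
    linarith
  · obtain ⟨F, x, hL⟩ := hB.at (d := d) hc ha hmem
    have h1 := hL.line hc hs ha haq hF hpay 0
    have hl : F.l = (ldB kk).map Dec.val := by rw [hL.hl, hkk]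
    have ht : F.E.t = a := (hL.ok hc hs ha).ht
    rw [pN_ev F _ ht, hL.hE, hl, htn, hxi] at h1
    simp only [ldB, LD.map, Dec.val_zero, Dec.val_sub, Nat.cast_zero] at h1
    show ((enAt tl dl d D a).V.ty 0).ev ((chd 0 (fam σ e O)).sn a) -
      kk.r.val + kk.dl.val + (kk.MU.val * (a * ((chd 0 (fam σ e O)).sn a).u ^ 2) +
        kk.MY.val * ((chd 0 (fam σ e O)).sn a).y ^ 2) +
      kk.Cs.val * (a ^ 2 * ((chd 0 (fam σ e O)).sn a).u ^ 2 +
        a * ((chd 0 (fam σ e O)).sn a).y ^ 2) + _ ≤ _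
    linarith

/-- the test of the number of children with `τ = 1`, if only the parity is known -/
lemma cok_of {S : FS} {n c : ℕ} {tw : Bool} (hn : n = (tw.toNat + c) % 2)
    (hpa : S.pa = 2 ∨ S.pa = (n + tw.toNat) % 2) (hcl : S.cl = 0 ∨ S.cl.testBit c = true) :
    S.cok c = true := by
  have h1 : parOk S.pa c = true := by
    unfold parOk
    rcases hpa with h2 | h2
    · rw [h2]
      rfl
    · have h3 : c % 2 = S.pa := by
        rw [h2, hn]
        omega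
      rw [h3]
      simp
  unfold FS.cok
  rw [h1, Bool.true_and]
  rcases hcl with h | h
  · rw [h]
    rfl
  · rw [h, Bool.or_true]

/-- the hypothesis of the lines for the type `0`, any shape -/
theorem fhE_of {Y : TSM.Sys} {V P : ℝ → ℝ → Sn → ℝ} {Ad : ℕ → ℝ → ℝ → ℝ → ℝ → Prop}
    (hAd : ∀ ty vU vY aU aY, Ad ty vU vY aU aY → Adm ty vU vY aU aY) {S : FS} {n m : ℕ}
    {f' vm' fv' fg' : ℝ} {lf tw : Bool}
    (hI : ItD lf tw m O N) (hT : FamT Y Ad V P O N tc) (hn : n = (tw.toNat + c1 O N) % 2)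
    (hρ0 : Even m → ∑ i ∈ N, sg (ρ i) = 0) (hρ1 : Odd m → ∑ i ∈ N, sg (ρ i) = 1)
    (hInv : TSM.Inv (fam σ e O)) (hS : FamS O N σ e ρ N.card f' n vm' fv' fg' S.z)
    (htn : S.tn = 0) (hSn : S.n = n) (h1 : f' ≤ S.f.val)
    (h2 : vm' ≤ S.vm.val) (h3 : if 2 ≤ S.nr then fv' ≤ N.card else fv' ≤ S.fv.val)
    (h4 : if 2 ≤ S.nr then fg' ≤ N.card else fg' ≤ S.fg.val)
    (hR : RoleH S O N tc e) (hM : ShM S.M m) (hn3 : S.n3 = true → ∀ i ∈ N, tc i ≤ 2)
    (hE : ESum S N tc e) (hpa : S.pa = 2 ∨ S.pa = (n + tw.toNat) % 2)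
    (hcl : S.cl = 0 ∨ S.cl.testBit (c1 O N) = true)
    (hrg : S.rg.At O N) (htd : S.td ≠ 0 → ∀ i ∈ N, ρ i = σ i)
    (hgs : GSg S.gs S.gm.val ((TSM.gU e O).eval q0)) : FH S O N tc σ e ρ := by
  have hn1 : n ≤ 1 := by omega
  have hcard := hI.hN
  have hSN : ShN S N := by
    rcases hM with ⟨h1, h2⟩ | ⟨h1, h2⟩ | ⟨h1, h2⟩
    · exact Or.inl ⟨h1, by rw [hcard]; exact h2⟩
    · exact Or.inr (Or.inl ⟨by rw [hcard]; exact h1, h2⟩)
    · exact Or.inr (Or.inr ⟨h1, by rw [hcard]; exact h2⟩)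
  have hlo : ((lo S.tn : ℕ) : ℝ) ≤ vY (fam σ e O) := by
    rw [htn]
    show ((0 : ℕ) : ℝ) ≤ _
    rw [Nat.cast_zero]
    exact hInv.2.2.2.1
  have hhi : vY (fam σ e O) ≤ ((hi S.tn : ℕ) : ℝ) := by
    rw [htn]
    show _ ≤ ((2 : ℕ) : ℝ)
    rw [Nat.cast_ofNat]
    exact hInv.2.2.2.2
  rw [← hcard] at hρ0 hρ1
  have h3' : fv' ≤ (if 2 ≤ S.nr then (N.card : ℝ) else S.fv.val) := by
    split_ifs at h3 ⊢ <;> exact h3
  have h4' : fg' ≤ (if 2 ≤ S.nr then (N.card : ℝ) else S.fg.val) := by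
    split_ifs at h4 ⊢ <;> exact h4
  rw [← hSn] at hS
  exact ⟨famS_mono hS h1 h2 h3' h4', hR, by rw [hSn]; exact hn1, hSN, hρ0, hρ1, hT.ht,
    fun i hi => hAd _ _ _ _ _ (hT.hA i hi), hn3, hE, cok_of hn hpa hcl, hrg, hgs, htd, hlo, hhi⟩

/-- the hypothesis of the lines for the type `0` -/
theorem fhV_of {Y : TSM.Sys} {V P : ℝ → ℝ → Sn → ℝ} {n M m pa gs td : ℕ} {rg : Rg}
    {vm fv gm fg kN : Dec} {nr msk : ℕ} {f' vm' fv' fg' : ℝ} {lf tw z : Bool}
    (hI : ItD lf tw m O N) (hT : FamT Y Adm V P O N tc) (hn : n = (tw.toNat + c1 O N) % 2)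
    (hρ0 : Even m → ∑ i ∈ N, sg (ρ i) = 0) (hρ1 : Odd m → ∑ i ∈ N, sg (ρ i) = 1)
    (hInv : TSM.Inv (fam σ e O)) (hS : FamS O N σ e ρ N.card f' n vm' fv' fg' z) (h1 : f' ≤ 2)
    (h2 : vm' ≤ vm.val) (h3 : if 2 ≤ nr then fv' ≤ N.card else fv' ≤ fv.val)
    (h4 : if 2 ≤ nr then fg' ≤ N.card else fg' ≤ fg.val)
    (hR : RoleH (fsV n M pa rg gs td vm fv gm fg z nr kN msk) O N tc e) (hM : ShM M m)
    (hpa : pa = 2 ∨ pa = (n + tw.toNat) % 2)
    (hrg : rg.At O N) (htd : td ≠ 0 → ∀ i ∈ N, ρ i = σ i)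
    (hgs : GSg gs gm.val ((TSM.gU e O).eval q0)) :
    FH (fsV n M pa rg gs td vm fv gm fg z nr kN msk) O N tc σ e ρ := by
  have e2 : (Dec.nsm 2 Dec.one).val = 2 := by rw [Dec.val_nsm, Dec.val_one]; norm_num
  exact fhE_of (fun _ _ _ _ _ h => h) hI hT hn hρ0 hρ1 hInv hS rfl rfl
    (by rw [← e2] at h1; exact h1) h2 h3 h4 hR hM (fun h => absurd h Bool.false_ne_true)
    (esum0 N tc e rfl) hpa (Or.inl rfl) hrg htd hgs

/-- **one family with an even number of children** with the label `n` -/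
theorem even_at {Y : TSM.Sys} (hc : covers tl dl = true) (hs : LOK tl dl sgnL)
    (hK : ∀ D, RD D → KOk (knAt dl d D) D) {lf tw : Bool} {m M n : ℕ} {rg : Rg} (hM : ShM M m)
    (kd : ℕ) (hkd : KdOk kd (lf.toNat + tw.toNat + m)) (k : ℕ → KE)
    (pa : ℕ) (hpa : pa = 2 ∨ pa = (n + tw.toNat) % 2)
    (hk : ∀ dc ∈ dl, evOk kd (k dc.x.ix) dc = true)
    (hA : LineOK tl dl (fsE n M pa rg) (fun x => ldA (k x.ix)) (fun ix => (k ix).s))
    (hB : LineOK tl dl (fsE n M pa rg) (fun x => ldB (k x.ix)) (fun ix => (k ix).s))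
    (hF : FamK Y Adm (VV tl dl d) (PP' dl d) lf tw m O N tc σ e ρ n)
    (hrg : rg.At O N) (D : ℝ) (hD : RD D) :
    TSM.EvF2 (chiF dl d) D K (fun a => (TSM.UU (fam σ e O)).eval a)
        (fun a => (TSM.YY (fam σ e O)).eval a) (fun a => ∑ i, TSM.Vi (VV tl dl d) N tc O i D a)
        (fun a => VV tl dl d D a ((chd 0 (fam σ e O)).sn a))
        (fun a => PP' dl d D a ((chd 0 (fam σ e O)).sn a)) := by
  have hI := hF.hI
  have hn1 : n ≤ 1 := by
    have := hF.hn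
    omega
  obtain ⟨hmem, _⟩ := pick_D (d := d) hc hD
  have hS := hF.hS N.card (by rw [hI.hN])
  have e16 : ((16 - 12 * n : ℕ) : ℝ) = 16 - 12 * n := by interval_cases n <;> norm_num
  have e4 : ((4 - 3 * n : ℕ) : ℝ) = 4 - 3 * n := by interval_cases n <;> norm_num
  have hFH : FH (fsE n M pa rg) O N tc σ e ρ :=
    fhV_of hI hF.hT hF.hn hF.hρ0 hF.hρ1 hF.hInv hS le_rfl
      (by rw [Dec.val_nsm, Dec.val_one, e16, mul_one])
      (by rw [if_neg (by norm_num), Dec.val_nsm, Dec.val_one, e4, mul_one])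
      (by rw [if_neg (by norm_num), Dec.val_nsm, Dec.val_one, mul_one]; norm_num)
      (roleH0 O N tc e rfl rfl) hM hpa hrg (fun h => absurd rfl h)
      (gs_of hS hF.hInv hn1)
  exact evF_at hc hs (hK D hD) hD hmem rfl rfl (by rw [hI.hK]; exact hkd) k
    (fun dc h => evOk_k (hk dc h)) hA hB hFH

/-- **an even number of children** -/
theorem evenH_of {Y : TSM.Sys} (hc : covers tl dl = true) (hs : LOK tl dl sgnL)
    (hK : ∀ D, RD D → KOk (knAt dl d D) D) {lf tw : Bool} {m M : ℕ} (hM : ShM M m)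
    (kd : ℕ) (hkd : KdOk kd (lf.toNat + tw.toNat + m)) (k : ℕ → ℕ → KE)
    (pa : ℕ → ℕ) (hpa : ∀ n, n ≤ 1 → pa n = 2 ∨ pa n = (n + tw.toNat) % 2)
    (hk : ∀ n, n ≤ 1 → ∀ dc ∈ dl, evOk kd (k n dc.x.ix) dc = true)
    (hA : ∀ n, n ≤ 1 → LineOK tl dl (fsE n M (pa n) rg0) (fun x => ldA (k n x.ix))
      (fun ix => (k n ix).s))
    (hB : ∀ n, n ≤ 1 → LineOK tl dl (fsE n M (pa n) rg0) (fun x => ldB (k n x.ix))
      (fun ix => (k n ix).s)) :
    EvenH Y Adm (VV tl dl d) (PP' dl d) (chiF dl d) lf tw m := by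
  intro K O N tc σ e ρ n hF
  have hn1 : n ≤ 1 := by
    have := hF.hn
    omega
  exact even_at hc hs hK hM kd hkd (k n) (pa n) (hpa n hn1) (hk n hn1) (hA n hn1) (hB n hn1) hF
    (rg0_at O N)

end Pool.Agent.TSG
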