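import Pool.Agent.TSG.FamT
import Pool.Agent.TSM.FamL3

set_option autoImplicit false

/-!
# The groups of one line when a nontrivial child is split off (MP_d27362_co)

`LL` are the coefficients of a line, `FY` the weights and shares, `FL` is everything at a point of a
cell for one line, `FSL` the shape of a line.
-/

namespace Pool.Agent.TSG

open Finset
open Pool.Agent.TSC
open Pool.Agent.TSM (q0 th RD Reg Sn NS CT Spl Wt Q5)

/-- the coefficients of the terms of one child, with all the numbers of the forms -/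
structure CB (α : Type) where
  /-- coefficient of `± y` -/
  y1 : α
  /-- coefficient of `y²` -/
  y2 : α
  /-- coefficient of `v_y²` -/
  w2 : α
  /-- coefficient of `a_y` -/
  b1 : α
  /-- coefficient of `a_y²` -/
  b2 : α
  /-- factor of `y²` for the role `-` -/
  z : α
  /-- factor of `a_y²` for the role `-` -/
  zs : α
  /-- coefficient of `± u` -/
  u1 : α
  /-- coefficient of `u²` -/
  u2 : α
  /-- coefficient of `v_U²` -/
  v2 : α
  /-- coefficient of `a_U²` -/
  a2 : α
  /-- coefficient of the root -/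
  l : α
  /-- coefficient of `± v_y` -/
  cv : α
  /-- lower bound for the factor of `v_U`, sign `+` -/
  wp : α
  /-- upper bound for the factor of `v_U`, sign `-` -/
  wm : α

/-- the coefficients of one line -/
structure LL (α : Type) where
  /-- factor of the mixed moment -/
  al : α
  /-- factor of the second moment of the child which is split off -/
  la : α
  /-- factor of the second moment of the rest -/
  b : α
  /-- factor of the pending cost of the new vertex -/
  z : α
  /-- factor of the pending cost of the child which is split off -/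
  zL : α
  /-- factor of `a U2²` -/
  MU : α
  /-- factor of `y2²` -/
  MY : α
  /-- gain of the child which is split off: constant -/
  g0 : α
  /-- gain of the child which is split off: factor of `x` -/
  g1 : α
  /-- gain of the child which is split off: factor of `x²` -/
  g2 : α
  /-- gain of the rest: constant -/
  r0 : α
  /-- gain of the rest: factor of `y2` -/
  r1 : α
  /-- gain of the rest: factor of `y2²` -/
  r2 : α
  /-- factor of the excess of the energy -/
  ke : α

/-- the multipliers for the new state -/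
structure MX (α : Type) where
  /-- the part of `U'²` which is bounded linearly by `v_U'` -/
  eU : α
  /-- factor of the value, for `eU` -/
  rA : α
  /-- factor of the deviation, for `eU` -/
  sA : α
  /-- the part of `y'²` which is bounded linearly by `v_y'` -/
  eY : α
  /-- factor of the value, for `eY` -/
  rB : α
  /-- factor of the deviation, for `eY` -/
  sB : α
  /-- multiplier of `v_U' ≤ 2` -/
  l1 : α
  /-- multiplier of `0 ≤ v_U'` -/
  l2 : α
  /-- multiplier of the upper bound of `v_y'` -/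
  l3 : α
  /-- multiplier of the lower bound of `v_y'` -/
  l4 : α
  /-- lower bound of the new `v_y` -/
  lo : α
  /-- upper bound of the new `v_y` -/
  hi : α

/-- weights, slack and shares of one line in one cell -/
structure FY (α : Type) where
  /-- the weights of the splitting of the new state -/
  x : SX α
  /-- the part of the cost of `U2` which is bounded by the number of the children -/
  fB : α
  /-- factor of the value -/
  rB : α
  /-- factor of the deviation -/
  sB : α
  /-- the part of the value which is bounded by the children -/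
  zB : α
  /-- half of the parameter of the mixed term of `y` -/
  k1 : α
  /-- upper bound for the half of its reciprocal -/
  j1 : α
  /-- half of the parameter of the mixed term of `U` -/
  k2 : α
  /-- upper bound for the half of its reciprocal -/
  j2 : α
  /-- is added to the constant -/
  ks : α
  /-- the share of the constant of the child which is split off -/
  cL : α
  /-- the share of the constant of another child -/
  cR : α
  /-- the share of the child which is split off -/
  dL : α
  /-- the shares of the role `+` for the types of the child -/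
  dp : S4 α
  /-- the shares of the role `-` for the types of the child -/
  dm : S4 α
  /-- a number between the shares, for many children -/
  ep : α
  /-- the multipliers for the new state -/
  m : MX α
  /-- multiplier of the region of the sum of the `v_y` of the children -/
  lr : α
  /-- the number of the region of the sum of the `v_y` of the children -/
  sy : α
  /-- the number of the region of the sum of the `v_U` of the children -/
  su : α
  /-- multiplier of the region of the sum of the `v_U` of the children -/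
  lu : α

/-- everything at a point of a cell for one line -/
structure FL (α : Type) where
  /-- the data of the cell -/
  E : En α
  /-- upper bound of the width -/
  th : α
  /-- the line -/
  l : LL α
  /-- the payments -/
  s : S4 (PS α)
  /-- the weights and shares -/
  x : FY α

/-- the shape of a line: the new type, the label of `y'`, the number of nontrivial children, the
factor of the edge signs of the rest, the type of the child which is split off, the labels, the
weights of the values, the bound for the value of the rest (`0`: by the child which is split off),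
the classes of the others, the parity of the number of children with `τ = 1` (`2` for any), the
region, the sign of the value of `G` (`0` for any, `1` for `≤ 0`, `2` for `≥ 0`), and bounds as
in `FS` -/
structure FSL where
  /-- the new type -/
  tn : ℕ
  /-- the label of `y'` -/
  n : ℕ
  /-- the number of nontrivial children -/
  M : ℕ
  /-- the factor of the edge signs of the rest -/
  f2 : ℕ
  /-- the type of the child which is split off -/
  tL : ℕ
  /-- the label of the child which is split off -/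
  nL : ℤ
  /-- the label of the rest -/
  nR : ℤ
  /-- weight of the child which is split off -/
  kL : ℕ
  /-- weight of the others -/
  kR : ℕ
  /-- bound for the value of the rest -/
  vR : ℕ
  /-- there are others with `τ = 0` -/
  r0 : Bool
  /-- there are others of the types `1`, `2`, `3` -/
  r1 : Bool
  /-- there are others of the type `4` -/
  r4 : Bool
  /-- the parity -/
  pa : ℕ
  /-- the region -/
  rg : Rg
  /-- the sign of the value of `G` -/
  gs : ℕ
  /-- the factor of the edge signs: `a_U'² ≤ f Σ a_y²` -/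
  f : Dec
  /-- bound of the square of the value of `G` -/
  vm : Dec
  /-- the square of the value of `G` is at most `fv Σ v_U²` -/
  fv : Dec
  /-- bound of the absolute value of the value of `G` (if `gs ≠ 0`) -/
  gm : Dec
  /-- the factor of the edge signs: `a_G² ≤ fg Σ a_U²` -/
  fg : Dec

/-- apply a function to the coefficients -/
def CB.map {α β : Type} (f : α → β) (k : CB α) : CB β :=
  ⟨f k.y1, f k.y2, f k.w2, f k.b1, f k.b2, f k.z, f k.zs, f k.u1, f k.u2, f k.v2, f k.a2, f k.l,
    f k.cv, f k.wp, f k.wm⟩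

/-- apply a function to the coefficients -/
def LL.map {α β : Type} (f : α → β) (l : LL α) : LL β :=
  ⟨f l.al, f l.la, f l.b, f l.z, f l.zL, f l.MU, f l.MY, f l.g0, f l.g1, f l.g2, f l.r0, f l.r1,
    f l.r2, f l.ke⟩

/-- apply a function to the coefficients -/
def MX.map {α β : Type} (f : α → β) (x : MX α) : MX β :=
  ⟨f x.eU, f x.rA, f x.sA, f x.eY, f x.rB, f x.sB, f x.l1, f x.l2, f x.l3, f x.l4, f x.lo,
    f x.hi⟩

/-- apply a function to the coefficients -/
def FY.map {α β : Type} (f : α → β) (x : FY α) : FY β :=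
  ⟨x.x.map f, f x.fB, f x.rB, f x.sB, f x.zB, f x.k1, f x.j1, f x.k2, f x.j2, f x.ks, f x.cL,
    f x.cR, f x.dL, x.dp.map f, x.dm.map f, f x.ep, x.m.map f, f x.lr, f x.sy, f x.su, f x.lu⟩

/-- apply a function to the coefficients -/
def FL.map {α β : Type} (f : α → β) (F : FL α) : FL β :=
  ⟨F.E.map f, f F.th, F.l.map f, F.s.map (PS.map f), F.x.map f⟩

section gen

variable {α : Type} [Ar α]

/-- an integer multiple -/
def zsm : ℤ → α → α
  | Int.ofNat k, x => Ar.nsm k x
  | Int.negSucc k, x => Ar.neg (Ar.nsm (k + 1) x)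

/-- the form of the `U` part of one child with the coefficients `v`; `k` is the share, `s` the
payment, `c` are the terms, `b` is the sign of `u` -/
def cbU (P : PX α) (v : NA α) (c : CB α) (k s : α) (b : Bool) : QI α where
  c := Ar.add (Ar.sub v.c k) (Ar.sub (Ar.mul s (Ar.mul P.D2 P.w)) (Ar.mul s P.D))
  cu := if b then Ar.sub v.al c.u1 else Ar.add v.al c.u1
  cuu := Ar.sub v.be c.u2
  cv := if b then Ar.add v.cv c.wp else Ar.sub v.cv c.wm
  cvv := Ar.neg c.v2
  ca := v.lU
  caa := Ar.sub v.qU c.a2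
  l := c.l

/-- the form of the `y` part of one child with the coefficients `v`; `ds` is the share of the
role, `c` are the terms, `b1` is the sign of `y`, `b3` the role -/
def cbY (v : NA α) (c : CB α) (ds : α) (b1 b3 : Bool) : QI α where
  c := Ar.neg ds
  cu := if b1 then Ar.sub v.ga c.y1 else Ar.add v.ga c.y1
  cuu := if b3 then Ar.sub v.de c.y2 else Ar.add (Ar.sub v.de c.y2) c.z
  cv := if b1 then Ar.sub v.dv c.cv else Ar.add v.dv c.cv
  cvv := if b3 then Ar.neg c.w2 else Ar.zero
  ca := Ar.sub v.ly c.b1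
  caa := if b3 then Ar.sub v.qy c.b2 else Ar.sub (Ar.sub v.qy c.b2) c.zs
  l := Ar.zero

/-- the numbers of the point -/
def FL.px (F : FL α) : PX α := ⟨F.E.t, F.E.D, F.E.D2, F.E.w, F.E.T, F.E.Tl, F.th⟩

/-- the new state: potential and pending cost -/
def FL.pN (F : FL α) (S : FSL) : NA α := ((F.E.V.ty S.tn).na).sub F.l.z (pdQ F.E S.tn)

/-- the new state with the bounds for `v_U'`, `v_y'` -/
def FL.pM (F : FL α) (S : FSL) : NA α where
  c := Ar.sub (Ar.add (F.pN S).c (Ar.add (Ar.nsm 2 F.x.m.l1) (Ar.mul F.x.m.hi F.x.m.l3)))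
    (Ar.add (Ar.mul F.x.m.lo F.x.m.l4)
      (Ar.mul (Ar.mul F.x.m.lo F.x.m.hi) (Ar.mul F.x.m.rB (Ar.mul F.x.m.eY (F.pN S).de))))
  al := (F.pN S).al
  be := Ar.mul (Ar.sub Ar.one F.x.m.eU) (F.pN S).be
  ga := (F.pN S).ga
  de := Ar.mul (Ar.sub Ar.one F.x.m.eY) (F.pN S).de
  lU := (F.pN S).lU
  qU := Ar.add (F.pN S).qU (Ar.mul F.x.m.sA (Ar.mul (Ar.mul F.th F.th)
    (Ar.mul F.x.m.eU (F.pN S).be)))
  ly := (F.pN S).ly
  qy := Ar.add (F.pN S).qy (Ar.mul F.x.m.sB (Ar.mul (Ar.mul F.th F.th)
    (Ar.mul F.x.m.eY (F.pN S).de)))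
  cv := Ar.add (Ar.add (F.pN S).cv (Ar.sub F.x.m.l2 F.x.m.l1))
    (Ar.nsm 2 (Ar.mul F.x.m.rA (Ar.mul F.x.m.eU (F.pN S).be)))
  dv := Ar.add (Ar.add (F.pN S).dv (Ar.sub F.x.m.l4 F.x.m.l3))
    (Ar.mul (Ar.add F.x.m.lo F.x.m.hi) (Ar.mul F.x.m.rB (Ar.mul F.x.m.eY (F.pN S).de)))

/-- the multiplier of the region with its sign -/
def FL.lm (F : FL α) (S : FSL) : α :=
  match S.rg.rg with
  | 0 => Ar.zero
  | 1 => F.x.lr
  | _ => Ar.neg F.x.lr

/-- the multiplier of the region of the `v_U` with its sign -/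
def FL.ln (F : FL α) (S : FSL) : α :=
  match S.rg.ru with
  | 0 => Ar.zero
  | 1 => F.x.lu
  | _ => Ar.neg F.x.lu

/-- the factor of `U2²` -/
def FL.BU (F : FL α) : α :=
  Ar.mul F.E.t (Ar.add F.l.MU (Ar.mul F.E.t (Ar.add F.l.b (Ar.mul F.l.al F.x.j1))))

/-- the part of it which is bounded by the state -/
def FL.bB (F : FL α) : α := Ar.mul (Ar.sub Ar.one F.x.fB) F.BU

/-- the factor of the square of the rest of `G` -/
def FL.BG (F : FL α) : α :=
  Ar.mul (Ar.mul F.E.t F.E.t) (Ar.add (Ar.sub F.l.MY F.l.r2)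
    (Ar.mul F.E.t (Ar.add F.l.b (Ar.mul F.l.al F.x.j2))))

/-- the terms of the new state -/
def FL.c0 (F : FL α) (S : FSL) : CA α := ctA F.px (F.pM S) F.x.x S.M S.n

/-- the lower bound of the factor of `v_U` of a child -/
def FL.wp (F : FL α) (S : FSL) : α :=
  Ar.add (dLo F.px (F.pM S) F.x.m.l3) (yyG F.px (F.pM S) F.x.x S.gs)

/-- the upper bound of the factor of `v_U` of a child -/
def FL.wm (F : FL α) (S : FSL) : α :=
  Ar.add (dHi F.px (F.pM S) F.x.m.l3) (yyG F.px (F.pM S) F.x.x S.gs)

/-- the terms of a child of the rest -/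
def FL.cR (F : FL α) (S : FSL) : CB α where
  y1 := Ar.sub (F.pM S).al (Ar.mul F.l.al F.E.t)
  y2 := Ar.add (F.c0 S).y2 (Ar.nsm (S.M - 1) (Ar.mul F.x.fB F.BU))
  w2 := Ar.add (Ar.nsm S.kR (F.c0 S).w2) (Ar.mul F.x.zB (Ar.mul F.x.rB F.bB))
  b1 := (F.pM S).lU
  b2 := Ar.add (F.c0 S).b2 (Ar.nsm S.f2 (Ar.mul F.x.sB (Ar.mul (Ar.mul F.th F.th) F.bB)))
  z := Ar.add (Ar.nsm S.kR (Ar.mul F.x.x.zU (bU (F.pM S) F.x.x))) (Ar.mul F.x.zB F.bB)
  zs := Ar.mul (Ar.mul F.th F.th) (Ar.add
    (Ar.nsm S.kR (Ar.mul F.x.x.sU (Ar.mul F.x.x.zU (bU (F.pM S) F.x.x))))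
    (Ar.mul F.x.sB (Ar.mul F.x.zB F.bB)))
  u1 := Ar.add (F.c0 S).u1 (Ar.mul F.E.t (Ar.add (Ar.sub F.l.r1
    (zsm S.nL (Ar.mul F.l.al F.E.t))) (Ar.nsm 2 (zsm S.nR (Ar.sub F.l.r2
    (Ar.add F.l.MY (Ar.mul F.l.b F.E.t)))))))
  u2 := Ar.add (F.c0 S).u2 (Ar.nsm (S.M - 1) F.BG)
  v2 := (F.c0 S).v2
  a2 := (F.c0 S).a2
  l := (F.c0 S).l
  cv := (F.pM S).cv
  wp := F.wp S
  wm := F.wm S

/-- the constant of the splitting of the cost of `U2` -/
def FL.Z1 (F : FL α) : α := Ar.mul (Ar.sub Ar.one F.x.zB) (Ar.mul F.x.rB F.bB)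

/-- the terms of the child which is split off -/
def FL.cL (F : FL α) (S : FSL) : CB α where
  y1 := Ar.sub (F.pM S).al (Ar.nsm 2 (Ar.mul F.l.la F.E.t))
  y2 := Ar.add (F.c0 S).y2 (Ar.mul (Ar.mul F.E.t F.E.t) (Ar.add F.l.la (Ar.mul F.l.al F.x.k1)))
  w2 := Ar.add (Ar.nsm S.kL (F.c0 S).w2) (if S.vR = 0 then F.Z1 else Ar.zero)
  b1 := (F.pM S).lU
  b2 := (F.c0 S).b2
  z := Ar.zero
  zs := Ar.zero
  u1 := Ar.add (F.c0 S).u1 (Ar.mul F.E.t (Ar.sub (Ar.add F.l.g1
    (Ar.nsm 2 (zsm S.nL (Ar.sub F.l.g2 (Ar.mul F.l.la F.E.t)))))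
    (zsm S.nR (Ar.mul F.l.al F.E.t))))
  u2 := Ar.add (F.c0 S).u2 (Ar.mul (Ar.mul F.E.t F.E.t) (Ar.sub
    (Ar.mul F.E.t (Ar.add F.l.la (Ar.mul F.l.al F.x.k2))) F.l.g2))
  v2 := (F.c0 S).v2
  a2 := (F.c0 S).a2
  l := (F.c0 S).l
  cv := (F.pM S).cv
  wp := F.wp S
  wm := F.wm S

/-- the constant of the line -/
def FL.ka (F : FL α) (S : FSL) : α :=
  Ar.add (Ar.add (Ar.add (kapA F.px (F.pM S) F.x.x S.n S.gs) (Ar.nsm S.vR F.Z1))
      (Ar.add (zsm (S.nL * S.nR) (Ar.mul F.l.al F.E.t)) (Ar.add F.l.la
        (Ar.add (zsm (S.nL * S.nL) (Ar.mul F.l.la F.E.t))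
          (zsm (S.nR * S.nR) (Ar.add F.l.MY (Ar.mul F.l.b F.E.t)))))))
    (Ar.sub (Ar.add F.x.ks (Ar.add (Ar.mul F.x.sy (F.lm S)) (Ar.mul F.x.su (F.ln S))))
      (Ar.add (Ar.add (Ar.add (zsm S.nR F.l.r1) (zsm (S.nR * S.nR) F.l.r2))
        (Ar.add (zsm S.nL F.l.g1) (zsm (S.nL * S.nL) F.l.g2)))
        (Ar.add (Ar.add F.l.g0 F.l.r0) F.l.ke)))

/-- the coefficients of the child which is split off -/
def FL.vL (F : FL α) (S : FSL) : NA α :=
  (((F.E.V.ty S.tL).na).sub F.l.zL (pdQ F.E S.tL)).pay (F.lm S) (F.ln S) (F.s.ty S.tL) F.E.zp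

/-- the coefficients of another child of the type `ty` -/
def FL.vR (F : FL α) (S : FSL) (ty : ℕ) : NA α :=
  ((F.E.V.ty ty).na).pay (F.lm S) (F.ln S) (F.s.ty ty) F.E.zp

/-- the group of a child of type `ty` of the rest -/
def FL.gR (F : FL α) (S : FSL) (ty : ℕ) : GP α :=
  ([cbU F.px (F.vR S ty) (F.cR S) (Ar.mul F.x.cR (F.ka S)) (F.s.ty ty).c true,
    cbU F.px (F.vR S ty) (F.cR S) (Ar.mul F.x.cR (F.ka S)) (F.s.ty ty).c false],
    cbY (F.vR S ty) (F.cR S) (F.x.dp.ty ty) true true ::
    cbY (F.vR S ty) (F.cR S) (F.x.dp.ty ty) false true ::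
    (if S.M = 2 then [] else
      [cbY (F.vR S ty) (F.cR S) (F.x.dm.ty ty) true false,
        cbY (F.vR S ty) (F.cR S) (F.x.dm.ty ty) false false]))

/-- the group of the child which is split off -/
def FL.gL (F : FL α) (S : FSL) : GP α :=
  ((if S.nL = -1 then [] else
      [cbU F.px (F.vL S) (F.cL S) (Ar.mul F.x.cL (F.ka S)) (F.s.ty S.tL).c true]) ++
    (if S.nL = 1 then [] else
      [cbU F.px (F.vL S) (F.cL S) (Ar.mul F.x.cL (F.ka S)) (F.s.ty S.tL).c false]),
    [cbY (F.vL S) (F.cL S) F.x.dL true true])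

/-- constants which have to be nonnegative -/
def FL.cs (F : FL α) (S : FSL) : List α :=
  [(F.pN S).be, (F.pN S).de, Ar.add (F.pM S).dv F.x.m.l3, wwG F.px (F.pM S) F.x.x]

/-- the groups with `v_y ≤ 2` -/
def FL.g2 (F : FL α) (S : FSL) : List (GP α) :=
  cstG (F.cs S) :: ((if S.r0 then [F.gR S 0] else []) ++ (if S.tL = 0 then [F.gL S] else []))

/-- the groups with `v_y ≤ 1` -/
def FL.g1 (F : FL α) (S : FSL) : List (GP α) :=
  (if S.r1 then [F.gR S 1, F.gR S 2, F.gR S 3] else []) ++
    ((if S.r4 then [shG (F.gR S 4)] else []) ++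
    (if S.tL = 0 then [] else if S.tL = 4 then [shG (F.gL S)] else [F.gL S]))

end gen

/-! ### naturality -/

section nat

variable {α β : Type} [Ar α] [Ar β] {f : α → β} (hf : ArHom f)

omit [Ar α] [Ar β] in
lemma map_lpx (F : FL α) : F.px.map f = (F.map f).px := rfl

include hf

lemma map_zsm (z : ℤ) (x : α) : f (zsm z x) = zsm z (f x) := by
  rcases z with k | k <;> simp only [zsm, hf.nsm, hf.neg]

lemma map_lpN (F : FL α) (S : FSL) : (F.pN S).map f = (F.map f).pN S := by
  simp only [FL.pN, map_nasub hf, map_vtna, map_pdQ hf]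
  rw [← VD.map_ty]
  rfl

lemma map_lpM (F : FL α) (S : FSL) : (F.pM S).map f = (F.map f).pM S := by
  have h1 := map_lpN hf F S
  simp only [FL.pM, NA.map, hf.add, hf.sub, hf.mul, hf.nsm, hf.one, ← h1]
  rfl

lemma map_llm (F : FL α) (S : FSL) : f (F.lm S) = (F.map f).lm S := by
  unfold FL.lm
  rcases S.rg.rg with _ | _ | _
  · exact hf.zero
  · rfl
  · show f (Ar.neg F.x.lr) = _
    rw [hf.neg]
    rfl

lemma map_lln (F : FL α) (S : FSL) : f (F.ln S) = (F.map f).ln S := by
  unfold FL.ln
  rcases S.rg.ru with _ | _ | _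
  · exact hf.zero
  · rfl
  · show f (Ar.neg F.x.lu) = _
    rw [hf.neg]
    rfl

lemma map_BU (F : FL α) : f F.BU = (F.map f).BU := by
  simp only [FL.BU, hf.mul, hf.add]
  rfl

lemma map_bB (F : FL α) : f F.bB = (F.map f).bB := by
  simp only [FL.bB, hf.mul, hf.sub, hf.one, map_BU hf]
  rfl

lemma map_BG (F : FL α) : f F.BG = (F.map f).BG := by
  simp only [FL.BG, hf.mul, hf.add, hf.sub]
  rfl

lemma map_c0 (F : FL α) (S : FSL) : (F.c0 S).map f = (F.map f).c0 S := by
  simp only [FL.c0, map_ctA hf, map_lpM hf, map_lpx]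
  rfl

lemma map_lwp (F : FL α) (S : FSL) : f (F.wp S) = (F.map f).wp S := by
  have h1 := map_lpM hf F S
  simp only [FL.wp, hf.add, map_dLo hf, map_yyG hf, map_lpx, ← h1]
  rfl

lemma map_lwm (F : FL α) (S : FSL) : f (F.wm S) = (F.map f).wm S := by
  have h1 := map_lpM hf F S
  simp only [FL.wm, hf.add, map_dHi hf, map_yyG hf, map_lpx, ← h1]
  rfl

lemma map_Z1 (F : FL α) : f F.Z1 = (F.map f).Z1 := by
  simp only [FL.Z1, hf.mul, hf.sub, hf.one, map_bB hf]
  rfl

lemma map_cR (F : FL α) (S : FSL) : (F.cR S).map f = (F.map f).cR S := by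
  have h1 := map_lpM hf F S
  have h2 := map_c0 hf F S
  have h3 := map_BU hf F
  have h4 := map_bB hf F
  have h5 := map_BG hf F
  have h6 : f (bU (F.pM S) F.x.x) = bU ((F.map f).pM S) (F.map f).x.x := by
    rw [map_bU hf, h1]
    rfl
  simp only [FL.cR, CB.map, hf.sub, hf.mul, hf.add, hf.nsm, map_zsm hf, h3, h4, h5, h6,
    map_lwp hf, map_lwm hf, ← h1, ← h2]
  rfl

lemma map_cL (F : FL α) (S : FSL) : (F.cL S).map f = (F.map f).cL S := by
  have h1 := map_lpM hf F S
  have h2 := map_c0 hf F S
  have h3 := map_Z1 hf F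
  simp only [FL.cL, CB.map, hf.sub, hf.mul, hf.add, hf.nsm, hf.zero, map_zsm hf, apply_ite f, h3,
    map_lwp hf, map_lwm hf, ← h1, ← h2]
  rfl

lemma map_lka (F : FL α) (S : FSL) : f (F.ka S) = (F.map f).ka S := by
  simp only [FL.ka, hf.add, hf.sub, hf.nsm, hf.mul, map_zsm hf, map_kapA hf, map_lpM hf,
    map_Z1 hf, map_lpx, map_llm hf, map_lln hf]
  rfl

lemma map_vL (F : FL α) (S : FSL) : (F.vL S).map f = (F.map f).vL S := by
  simp only [FL.vL, map_pay hf, map_nasub hf, map_vtna, map_pdQ hf, map_llm hf, map_lln hf,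
    map_zp hf]
  rw [← VD.map_ty, ← S4.map_ty (PS.map f)]
  rfl

lemma map_vR (F : FL α) (S : FSL) (ty : ℕ) : (F.vR S ty).map f = (F.map f).vR S ty := by
  simp only [FL.vR, map_pay hf, map_vtna, map_llm hf, map_lln hf, map_zp hf]
  rw [← VD.map_ty, ← S4.map_ty (PS.map f)]
  rfl

lemma map_cbU (P : PX α) (v : NA α) (c : CB α) (k s : α) (b : Bool) :
    (cbU P v c k s b).map f = cbU (P.map f) (v.map f) (c.map f) (f k) (f s) b := by
  simp only [cbU, QI.map, hf.add, hf.sub, hf.mul, hf.neg, apply_ite f, PX.map, NA.map, CB.map]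

lemma map_cbY (v : NA α) (c : CB α) (ds : α) (b1 b3 : Bool) :
    (cbY v c ds b1 b3).map f = cbY (v.map f) (c.map f) (f ds) b1 b3 := by
  simp only [cbY, QI.map, hf.add, hf.sub, hf.neg, hf.zero, apply_ite f, NA.map, CB.map]

lemma gmap_gR (F : FL α) (S : FSL) (ty : ℕ) : gmap f (F.gR S ty) = (F.map f).gR S ty := by
  simp only [gmap, FL.gR, List.map_cons, List.map_nil, map_cbU hf, map_cbY hf, map_vR hf,
    map_cR hf, hf.mul, map_lka hf, apply_ite (List.map (QI.map f)), map_lpx]
  simp only [FL.map, FY.map, S4.map_ty]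
  rfl

lemma gmap_gL (F : FL α) (S : FSL) : gmap f (F.gL S) = (F.map f).gL S := by
  simp only [gmap, FL.gL, List.map_cons, List.map_nil, List.map_append, map_cbU hf, map_cbY hf,
    map_vL hf, map_cL hf, hf.mul, map_lka hf, apply_ite (List.map (QI.map f)), map_lpx]
  simp only [FL.map, FY.map, S4.map_ty]
  rfl

lemma map_lcs (F : FL α) (S : FSL) : (F.cs S).map f = (F.map f).cs S := by
  have h1 := map_lpN hf F S
  have h2 := map_lpM hf F S
  simp only [FL.cs, List.map_cons, List.map_nil, hf.add, map_wwG hf, ← h1, ← h2]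
  rfl

lemma map_lg2 (F : FL α) (S : FSL) : (F.g2 S).map (gmap f) = (F.map f).g2 S := by
  simp only [FL.g2, List.map_cons, List.map_nil, List.map_append, gmap_cstG hf, map_lcs hf,
    gmap_gR hf, gmap_gL hf, apply_ite (List.map (gmap f))]

lemma map_lg1 (F : FL α) (S : FSL) : (F.g1 S).map (gmap f) = (F.map f).g1 S := by
  simp only [FL.g1, List.map_cons, List.map_nil, List.map_append, gmap_shG hf,
    gmap_gR hf, gmap_gL hf, apply_ite (List.map (gmap f))]

end nat

/-! ### the point of a cell -/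

section mk

variable {α : Type} [Ar α]

/-- the data of a point, `c` embeds the decimal numbers -/
def mkFL (c : Dec → α) (lam mu : α) (tc : TC) (dc : Seg (Kn Dec)) (l : LL Dec)
    (s : S4 (PS Dec)) (x : FY Dec) : FL α :=
  ⟨mkEn c lam mu tc dc, c tc.x.th, l.map c, s.map (PS.map c), x.map c⟩

variable {β : Type} [Ar β] {f : α → β}

lemma map_mkFL (hf : ArHom f) (c : Dec → α) (lam mu : α) (tc : TC) (dc : Seg (Kn Dec))
    (l : LL Dec) (s : S4 (PS Dec)) (x : FY Dec) : (mkFL c lam mu tc dc l s x).map f =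
      mkFL (fun y => f (c y)) (f lam) (f mu) tc dc l s x := by
  unfold mkFL FL.map
  simp only [map_mkEn hf]
  rfl

end mk

/-- the real data of a point -/
noncomputable def rFL (lam mu : ℝ) (tc : TC) (dc : Seg (Kn Dec)) (l : LL Dec)
    (s : S4 (PS Dec)) (x : FY Dec) : FL ℝ := mkFL Dec.val lam mu tc dc l s x

end Pool.Agent.TSG
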