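import Pool.Agent.TSM.ExpFC
import Pool.Agent.TSM.Exp2
import Pool.Agent.TSM.ExpEC
import Pool.Agent.TSM.ExpFD
import Pool.Agent.TSM.EvenL
import Pool.Agent.TSC.Dec

set_option autoImplicit false

/-!
# The table of the constants of the exponential rules (MP_d27362_co)
-/

namespace Pool.Agent.TSG

open Pool.Agent.TSC
open Pool.Agent.TSC.Dec
open Pool.Agent.TSM (ExpF ExpE)

/-- the constants of the exponential rule may be enlarged -/
lemma expF_mono {K : ℕ} {c μ P c' μ' P' : ℝ} (h : ExpF K c μ P) (hc : c ≤ c') (hμ : μ ≤ μ')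
    (hP : P' ≤ P) : ExpF K c' μ' P' := by
  refine ⟨h.cq0.trans hc, h.mu0.trans hμ, fun u => ?_, fun ρ u w hρ hu h0 => ?_⟩
  · have h1 := h.quad u
    have h2 := mul_le_mul_of_nonneg_right hc (sq_nonneg u)
    linarith
  · have h1 := h.hexp ρ u w (hρ.trans hP) hu h0
    have h2 := mul_le_mul_of_nonneg_right hc (sq_nonneg u)
    have h3 := mul_le_mul_of_nonneg_right hμ (sq_nonneg w)
    refine h1.trans (mul_le_mul_of_nonneg_left ?_ (Real.exp_pos _).le)
    exact mul_le_mul (Real.exp_le_exp.2 h3) (by linarith) (h.quad u) (Real.exp_pos _).le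

/-- one row of the table -/
structure EC where
  /-- factor of the square -/
  c : Dec
  /-- factor in the exponent -/
  mu : Dec
  /-- bound of `ρ` -/
  P : Dec

/-- the real numbers of a row -/
def EC.Ok (e : EC) (K : ℕ) : Prop := ExpF K e.c.val e.mu.val e.P.val

/-- the table; the number of the children is `kd`, for `0` it is arbitrary -/
def tabE : ℕ → List EC
  | 0 => [⟨pos 72 2, pos 748 4, zero⟩, ⟨pos 5 1, pos 979 4, zero⟩, ⟨pos 6 1, pos 844 4, zero⟩,
      ⟨pos 55 2, pos 903 4, zero⟩, ⟨pos 57 2, pos 878 4, zero⟩, ⟨pos 65 2, pos 799 4, zero⟩,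
      ⟨pos 7 1, pos 761 4, zero⟩]
  | 2 => [⟨pos 57 2, zero, pos 3333333333333333 16⟩, ⟨pos 61 2, zero, pos 5 1⟩,
      ⟨pos 655 3, zero, pos 6666666666666666 16⟩, ⟨pos 5 1, zero, zero⟩]
  | 4 => [⟨pos 7 1, pos 2 2, pos 6666666666666666 16⟩,
      ⟨pos 6 1, pos 34 3, pos 6666666666666666 16⟩,
      ⟨pos 57 2, pos 1865 5, pos 3333333333333333 16⟩,
      ⟨pos 6 1, pos 161 4, pos 3333333333333333 16⟩,
      ⟨pos 65 2, pos 1315 5, pos 3333333333333333 16⟩,
      ⟨pos 65 2, pos 247 4, pos 6666666666666666 16⟩,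
      ⟨pos 72 2, pos 182 4, pos 6666666666666666 16⟩,
      ⟨pos 5 1, pos 133 4, zero⟩,
      ⟨pos 6 1, pos 3395 5, pos 6666666666666666 16⟩,
      ⟨pos 55 2, pos 513 4, pos 6666666666666666 16⟩,
      ⟨pos 55 2, pos 2085 5, pos 3333333333333333 16⟩]
  | 6 => [⟨pos 57 2, pos 3705 5, pos 3333333333333333 16⟩,
      ⟨pos 6 1, pos 3365 5, pos 3333333333333333 16⟩,
      ⟨pos 65 2, pos 293 4, pos 3333333333333333 16⟩,
      ⟨pos 65 2, pos 3955 5, pos 6666666666666666 16⟩,
      ⟨pos 7 1, pos 3455 5, pos 6666666666666666 16⟩,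
      ⟨pos 5 1, pos 329 4, zero⟩,
      ⟨pos 55 2, pos 578 4, pos 6666666666666666 16⟩,
      ⟨pos 6 1, pos 4665 5, pos 6666666666666666 16⟩,
      ⟨pos 55 2, pos 3985 5, pos 3333333333333333 16⟩]
  | 8 => [⟨pos 57 2, pos 4795 5, pos 3333333333333333 16⟩,
      ⟨pos 65 2, pos 396 4, pos 3333333333333333 16⟩,
      ⟨pos 7 1, pos 4325 5, pos 6666666666666666 16⟩,
      ⟨pos 55 2, pos 638 4, pos 6666666666666666 16⟩,
      ⟨pos 6 1, pos 5455 5, pos 6666666666666666 16⟩,
      ⟨pos 65 2, pos 4805 5, pos 6666666666666666 16⟩,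
      ⟨pos 55 2, pos 508 4, pos 3333333333333333 16⟩]
  | _ => []

/-- rewrite the values of a row -/
lemma ec_ok {K : ℕ} {c mu P : Dec} {c' mu' P' : ℝ} (h : ExpF K c' mu' P') (h1 : c' ≤ c.val)
    (h2 : mu' ≤ mu.val) (h3 : P.val ≤ P') : (⟨c, mu, P⟩ : EC).Ok K := expF_mono h h1 h2 h3

lemma tabE_any {K : ℕ} (hK : 0 < K) (Q : ℝ) :
    ∀ e ∈ tabE 0, ExpF K e.c.val e.mu.val Q := by
  intro e he
  simp only [tabE, List.mem_cons, List.not_mem_nil, or_false] at he
  rcases he with rfl | rfl | rfl | rfl | rfl | rfl | rfl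
  · refine expF_mono (TSM.expE_i.toF hK Q) ?_ ?_ le_rfl <;> rw [val_pos] <;> norm_num
  · refine expF_mono (TSM.expE_d.toF hK Q) ?_ ?_ le_rfl <;> rw [val_pos] <;> norm_num
  · refine expF_mono (TSM.expE_c.toF hK Q) ?_ ?_ le_rfl <;> rw [val_pos] <;> norm_num
  · refine expF_mono (TSM.expE_e.toF hK Q) ?_ ?_ le_rfl <;> rw [val_pos] <;> norm_num
  · refine expF_mono (TSM.expE_f.toF hK Q) ?_ ?_ le_rfl <;> rw [val_pos] <;> norm_num
  · refine expF_mono (TSM.expE_g.toF hK Q) ?_ ?_ le_rfl <;> rw [val_pos] <;> norm_num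
  · refine expF_mono (TSM.expE_h.toF hK Q) ?_ ?_ le_rfl <;> rw [val_pos] <;> norm_num

lemma tabE_two : ∀ e ∈ tabE 2, e.Ok 2 := by
  intro e he
  simp only [tabE, List.mem_cons, List.not_mem_nil, or_false] at he
  rcases he with rfl | rfl | rfl | rfl
  · refine ec_ok TSM.expF_two_a ?_ (by rw [val_zero]) ?_ <;> rw [val_pos] <;> norm_num
  · refine ec_ok TSM.expF_two_b ?_ (by rw [val_zero]) ?_ <;> rw [val_pos] <;> norm_num
  · refine ec_ok TSM.expF_two_c ?_ (by rw [val_zero]) ?_ <;> rw [val_pos] <;> norm_num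
  · refine ec_ok TSM.expF_two_d ?_ (by rw [val_zero]) (by rw [val_zero]) <;> rw [val_pos] <;>
      norm_num

lemma tabE_four : ∀ e ∈ tabE 4, e.Ok 4 := by
  intro e he
  simp only [tabE, List.mem_cons, List.not_mem_nil, or_false] at he
  rcases he with rfl | rfl | rfl | rfl | rfl | rfl | rfl | rfl | rfl | rfl | rfl
  · refine ec_ok TSM.expF_four_a ?_ ?_ ?_ <;> rw [val_pos] <;> norm_num
  · refine ec_ok TSM.expF_four_b ?_ ?_ ?_ <;> rw [val_pos] <;> norm_num
  · refine ec_ok TSM.expF_four_e ?_ ?_ ?_ <;> rw [val_pos] <;> norm_num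
  · refine ec_ok TSM.expF_four_f ?_ ?_ ?_ <;> rw [val_pos] <;> norm_num
  · refine ec_ok TSM.expF_four_g ?_ ?_ ?_ <;> rw [val_pos] <;> norm_num
  · refine ec_ok TSM.expF_four_h ?_ ?_ ?_ <;> rw [val_pos] <;> norm_num
  · refine ec_ok TSM.expF_four_i ?_ ?_ ?_ <;> rw [val_pos] <;> norm_num
  · refine ec_ok TSM.expF_four_j ?_ ?_ (by rw [val_zero]) <;> rw [val_pos] <;> norm_num
  · refine ec_ok TSM.expF_four_k ?_ ?_ ?_ <;> rw [val_pos] <;> norm_num
  · refine ec_ok TSM.expF_four_l ?_ ?_ ?_ <;> rw [val_pos] <;> norm_num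
  · refine ec_ok TSM.expF_four_m ?_ ?_ ?_ <;> rw [val_pos] <;> norm_num

lemma tabE_six : ∀ e ∈ tabE 6, e.Ok 6 := by
  intro e he
  simp only [tabE, List.mem_cons, List.not_mem_nil, or_false] at he
  rcases he with rfl | rfl | rfl | rfl | rfl | rfl | rfl | rfl | rfl
  · refine ec_ok TSM.expF_six_a ?_ ?_ ?_ <;> rw [val_pos] <;> norm_num
  · refine ec_ok TSM.expF_six_b ?_ ?_ ?_ <;> rw [val_pos] <;> norm_num
  · refine ec_ok TSM.expF_six_c ?_ ?_ ?_ <;> rw [val_pos] <;> norm_num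
  · refine ec_ok TSM.expF_six_d ?_ ?_ ?_ <;> rw [val_pos] <;> norm_num
  · refine ec_ok TSM.expF_six_e ?_ ?_ ?_ <;> rw [val_pos] <;> norm_num
  · refine ec_ok TSM.expF_six_f ?_ ?_ (by rw [val_zero]) <;> rw [val_pos] <;> norm_num
  · refine ec_ok TSM.expF_six_g ?_ ?_ ?_ <;> rw [val_pos] <;> norm_num
  · refine ec_ok TSM.expF_six_h ?_ ?_ ?_ <;> rw [val_pos] <;> norm_num
  · refine ec_ok TSM.expF_six_i ?_ ?_ ?_ <;> rw [val_pos] <;> norm_num

lemma tabE_eight : ∀ e ∈ tabE 8, e.Ok 8 := by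
  intro e he
  simp only [tabE, List.mem_cons, List.not_mem_nil, or_false] at he
  rcases he with rfl | rfl | rfl | rfl | rfl | rfl | rfl
  · refine ec_ok TSM.expF_eight_a ?_ ?_ ?_ <;> rw [val_pos] <;> norm_num
  · refine ec_ok TSM.expF_eight_b ?_ ?_ ?_ <;> rw [val_pos] <;> norm_num
  · refine ec_ok TSM.expF_eight_c ?_ ?_ ?_ <;> rw [val_pos] <;> norm_num
  · refine ec_ok TSM.expF_eight_d ?_ ?_ ?_ <;> rw [val_pos] <;> norm_num
  · refine ec_ok TSM.expF_eight_e ?_ ?_ ?_ <;> rw [val_pos] <;> norm_num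
  · refine ec_ok TSM.expF_eight_f ?_ ?_ ?_ <;> rw [val_pos] <;> norm_num
  · refine ec_ok TSM.expF_eight_g ?_ ?_ ?_ <;> rw [val_pos] <;> norm_num

/-- the test of the constants of the exponential rule: `rD` bounds the gain -/
def exOk (kd : ℕ) (c mu rD : Dec) : Bool :=
  (tabE kd).any fun e => nn (sub c e.c) && (nn (sub mu e.mu) &&
    (Nat.beq kd 0 || nn (sub e.P rD)))

/-- the number of children and the row of the table -/
def KdOk (kd K : ℕ) : Prop := (kd = 0 ∨ kd = K) ∧ 0 < K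

/-- the real constants -/
lemma exOk_sound {kd K : ℕ} {c mu rD : Dec} (h : exOk kd c mu rD = true) (hK : KdOk kd K) :
    ExpF K c.val mu.val rD.val := by
  unfold exOk at h
  rw [List.any_eq_true] at h
  obtain ⟨e, he, h1⟩ := h
  simp only [Bool.and_eq_true, Bool.or_eq_true] at h1
  obtain ⟨k1, k2, k3⟩ := h1
  have e1 := nn_iff k1
  have e2 := nn_iff k2
  rw [val_sub] at e1 e2
  rcases kd with _ | _ | _ | _ | _ | _ | _ | _ | _ | n
  · exact expF_mono (tabE_any hK.2 rD.val e he) (by linarith) (by linarith) le_rfl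
  · simp [tabE] at he
  · rcases k3 with k3 | k3
    · simp at k3
    · have e3 := nn_iff k3
      rw [val_sub] at e3
      rcases hK.1 with h2 | h2
      · omega
      · rw [← h2]
        exact expF_mono (tabE_two e he) (by linarith) (by linarith) (by linarith)
  · simp [tabE] at he
  · rcases k3 with k3 | k3
    · simp at k3
    · have e3 := nn_iff k3
      rw [val_sub] at e3
      rcases hK.1 with h2 | h2
      · omega
      · rw [← h2]
        exact expF_mono (tabE_four e he) (by linarith) (by linarith) (by linarith)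
  · simp [tabE] at he
  · rcases k3 with k3 | k3
    · simp at k3
    · have e3 := nn_iff k3
      rw [val_sub] at e3
      rcases hK.1 with h2 | h2
      · omega
      · rw [← h2]
        exact expF_mono (tabE_six e he) (by linarith) (by linarith) (by linarith)
  · simp [tabE] at he
  · rcases k3 with k3 | k3
    · simp at k3
    · have e3 := nn_iff k3
      rw [val_sub] at e3
      rcases hK.1 with h2 | h2
      · omega
      · rw [← h2]
        exact expF_mono (tabE_eight e he) (by linarith) (by linarith) (by linarith)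
  · simp [tabE] at he

end Pool.Agent.TSG
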