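import Pool.Agent.TSG.FamLS
import Pool.Agent.TSG.FamX
import Pool.Agent.TSG.FamH
import Pool.Agent.TSM.FamLM

set_option autoImplicit false

/-!
# The rule which splits off a nontrivial child, from its lines (MP_d27362_co)
-/

namespace Pool.Agent.TSG

open Finset
open Pool.Agent.TSC
open Pool.Agent.TSM (q0 th RD Reg Sn NS CT Spl Wt Q5 FamL chd vU vY aU aY XX YY UU gY2 Chd LK2 LK
  LnL Caps LfL Vi fam gU ExpF)
open Pool.Agent.TSR (OBr sg_true sg_false)
open Pool.Agent.TLT (sg)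

/-- the constants of the rule which splits off a nontrivial child, for one interval of total
masses; the other constants are those of the stem -/
structure LC where
  /-- half of the parameter `τ` -/
  th : Dec
  /-- half of its reciprocal -/
  jt : Dec
  /-- see `LeftC` -/
  om : Dec
  /-- see `LeftC` -/
  vt : Dec
  /-- see `LeftC` -/
  nu : Dec
  /-- see `LeftC` -/
  B1 : Dec
  /-- see `LeftC` -/
  B2 : Dec
  /-- factor of the square -/
  c : Dec
  /-- factor in the exponent -/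
  mu : Dec
  /-- the parameter of the sup bound -/
  l : Dec
  /-- an upper bound of `1 / l` -/
  il : Dec
  /-- factor of `a U2²` -/
  MU : Dec
  /-- factor of `y2²` -/
  MY : Dec
  /-- the cap of the gain of the rest -/
  rR : Dec
  /-- the gain of the child which is split off as one form -/
  tL : Dec
  /-- the gain of the rest as one form -/
  tR : Dec
  /-- the payments -/
  s : S4 (PS Dec)

/-- the constants of the rule -/
noncomputable def LC.lk (C : LC) (k : Kn Dec) (P D1 σ0 : ℝ) : LK2 where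
  D1 := D1
  χ0 := 1 - k.ru.w0.val
  K := k.ru.K.val
  r := k.ru.r.val
  κ := k.pd.kap.val
  σ0 := σ0
  s := k.ru.s.val
  K1 := k.ru.K1.val
  K2 := k.ru.K2.val
  τ := 2 * C.th.val
  ω := C.om.val
  ϑ := C.vt.val
  ν := C.nu.val
  B1 := C.B1.val
  B2 := C.B2.val
  P := P
  c := C.c.val
  μ := C.mu.val
  η := 1
  sR := 0
  l := C.l.val
  ψ := 0
  rR := C.rR.val
  N := fun ρ => Real.exp (-ρ)
  MU := C.MU.val
  MY := C.MY.val

/-- the coefficients of one of the four lines -/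
structure L7 where
  /-- factor of the mixed moment -/
  al : Dec
  /-- factor of the second moment of `L` -/
  la : Dec
  /-- factor of the second moment of the rest -/
  b : Dec
  /-- factor of the pending cost of the new vertex -/
  z : Dec
  /-- factor of the gain of `L` -/
  ag : Dec
  /-- factor of the excess of the energy of `L` -/
  KE : Dec
  /-- factor of the pending cost of `L` -/
  zL : Dec

/-- the four lines -/
def LC.l7 (C : LC) (k : Kn Dec) : Fin 4 → L7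
  | 0 => ⟨C.om, Dec.mul C.om (Dec.mul C.nu C.th),
      Dec.add (Dec.mul C.om C.jt) (Dec.nsm 2 (Dec.mul C.B1 C.c)), Dec.zero,
      Dec.sub k.ru.w0 C.vt, k.ru.K, Dec.zero⟩
  | 1 => ⟨Dec.mul (Dec.add Dec.one k.chi) C.om,
      Dec.mul (Dec.add Dec.one k.chi) (Dec.mul C.om (Dec.mul C.nu C.th)),
      Dec.mul (Dec.add Dec.one k.chi)
        (Dec.add (Dec.mul C.om C.jt) (Dec.nsm 2 (Dec.mul C.B1 C.c))), k.chi,
      Dec.sub (Dec.sub k.ru.w0 C.vt) (Dec.mul k.chi (Dec.add k.pd.kap C.vt)), k.ru.K, Dec.zero⟩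
  | 2 => ⟨Dec.one, C.th, Dec.add C.jt (Dec.nsm 2 (Dec.mul C.B2 C.c)), Dec.zero,
      Dec.add Dec.one k.ru.s, k.ru.K1, k.ru.s⟩
  | 3 => ⟨Dec.add Dec.one k.chi, Dec.mul (Dec.add Dec.one k.chi) C.th,
      Dec.mul (Dec.add Dec.one k.chi) (Dec.add C.jt (Dec.nsm 2 (Dec.mul C.B2 C.c))), k.chi,
      Dec.add Dec.one k.chi, k.ru.K2, k.chi⟩

/-- a form of a gain -/
structure G3 where
  /-- constant -/
  g0 : Dec
  /-- factor of the gain -/
  g1 : Dec
  /-- factor of its square -/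
  g2 : Dec

/-- the forms of the gain of the child which is split off; `o` is for one form -/
def gamL (o : Bool) (C : LC) (k : Kn Dec) (i : Bool) : G3 :=
  if o then ⟨Dec.zero, Dec.one, Dec.neg C.tL⟩
  else if i then ⟨k.ru.r, Dec.zero, Dec.zero⟩ else ⟨Dec.zero, Dec.one, Dec.zero⟩

/-- the forms of the gain of the rest; `o` is for one form -/
def gamR (o : Bool) (C : LC) (i : Bool) : G3 :=
  if o then ⟨Dec.zero, Dec.one, Dec.neg C.tR⟩
  else if i then ⟨C.rR, Dec.zero, Dec.zero⟩ else ⟨Dec.zero, Dec.one, Dec.zero⟩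

/-- one line; `g`, `δ` are the forms of the gains, `ε` is the factor of the excess of the energy -/
def lineOf (C : LC) (k : Kn Dec) (i4 : Fin 4) (g δ : G3) (ε : Bool) : LL Dec where
  al := (C.l7 k i4).al
  la := if ε then Dec.add (C.l7 k i4).la (C.l7 k i4).KE else (C.l7 k i4).la
  b := (C.l7 k i4).b
  z := (C.l7 k i4).z
  zL := (C.l7 k i4).zL
  MU := C.MU
  MY := C.MY
  g0 := Dec.mul (C.l7 k i4).ag g.g0
  g1 := Dec.mul (C.l7 k i4).ag g.g1
  g2 := Dec.mul (C.l7 k i4).ag g.g2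
  r0 := δ.g0
  r1 := δ.g1
  r2 := δ.g2
  ke := if ε then (C.l7 k i4).KE else Dec.zero

/-- the test of one form of a gain -/
def capOk (o : Bool) (t r : Dec) : Bool :=
  !o || (Dec.nn t && Dec.nn (Dec.sub (Dec.nsm 4 (Dec.mul t r)) Dec.one))

/-- the test of the constants; `kd` is the number of all children except one or `0` -/
def lcOk (kd : ℕ) (oL oR : Bool) (C : LC) (dc : Seg (Kn Dec)) : Bool :=
  exOk kd C.c C.mu (Dec.mul C.rR (Dec.add dc.a dc.w)) &&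
  (supOk C.mu C.l C.il C.MU C.MY (Dec.add dc.a dc.w) &&
  (Dec.ps C.th && (Dec.nn (Dec.sub (Dec.nsm 4 (Dec.mul C.th C.jt)) Dec.one) &&
  (Dec.nn (Dec.sub Dec.one (Dec.nsm 4 (Dec.mul C.th C.jt))) && (Dec.nn C.om &&
  (Dec.nn (Dec.sub (Dec.nsm 4 (Dec.sub C.nu Dec.one))
    (Dec.mul (Dec.mul dc.x.ru.r (Dec.add dc.a dc.w)) (Dec.mul dc.x.ru.r (Dec.add dc.a dc.w)))) &&
  (Dec.nn (Dec.sub (Dec.mul C.om (Dec.sub Dec.one (Dec.mul
    (Dec.mul dc.x.ru.w0 (Dec.sub (Dec.nsm 2 Dec.one) dc.x.ru.w0))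
    (Dec.mul dc.x.ru.r (Dec.add dc.a dc.w))))) Dec.one) &&
  (Dec.nn (Dec.sub C.vt (Dec.mul (Dec.mul C.om C.th) (Dec.mul
    (Dec.mul (Dec.mul (Dec.sub Dec.one dc.x.ru.w0) (Dec.sub Dec.one dc.x.ru.w0))
      (Dec.mul (Dec.sub Dec.one dc.x.ru.w0) (Dec.sub Dec.one dc.x.ru.w0)))
    (Dec.mul dc.x.ru.r (Dec.add dc.a dc.w))))) &&
  (Dec.nn (Dec.sub C.B1 (Dec.nsm 2 C.om)) &&
  (Dec.nn (Dec.sub C.B1 (Dec.add (Dec.nsm 2 Dec.one) (Dec.mul dc.x.ru.r (Dec.add dc.a dc.w)))) &&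
  (Dec.nn (Dec.sub C.B2 (Dec.add (Dec.nsm 2 Dec.one) (Dec.mul dc.x.ru.r (Dec.add dc.a dc.w)))) &&
  (capOk oL C.tL dc.x.ru.r && (capOk oR C.tR C.rR &&
  (Dec.nn C.rR && (Dec.nn dc.a && (Dec.nn dc.w && (Dec.nn dc.x.chi && psOk C.s)))))))))))))))))

/-- all the lines of the rule -/
def LinesL (tl : List TC) (dl : List (Seg (Kn Dec))) (S : FSL) (oL oR : Bool) (C : ℕ → LC) :
    Prop :=
  ∀ (i4 : Fin 4) (i j ε : Bool), (oL = true → i = false) → (oR = true → j = false) →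
    LineL tl dl S (fun k => lineOf (C k.ix) k i4 (gamL oL (C k.ix) k i) (gamR oR (C k.ix) j) ε)
      (fun k => (C k.ix).s)

/-- the four lines in real numbers -/
lemma l7_val {C : LC} {k : Kn Dec} {P D1 σ0 : ℝ} (hj : 4 * (C.th.val * C.jt.val) = 1)
    (h0 : 0 < C.th.val) (i4 : Fin 4) :
    (C.lk k P D1 σ0).toLK.lnL k.chi.val i4 =
      ⟨(C.l7 k i4).al.val, (C.l7 k i4).la.val, (C.l7 k i4).b.val, (C.l7 k i4).z.val,
        (C.l7 k i4).ag.val, (C.l7 k i4).KE.val, (C.l7 k i4).zL.val⟩ := by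
  have e1 : 1 / (2 * (2 * C.th.val)) = C.jt.val := by
    rw [div_eq_iff (by positivity)]
    linarith
  fin_cases i4
  · simp only [LK.lnL, LC.l7, LC.lk, e1, Dec.val_mul, Dec.val_add, Dec.val_sub, Dec.val_nsm,
      Dec.val_zero]
    push_cast
    congr 1 <;> ring
  · simp only [LK.lnL, LC.l7, LC.lk, e1, Dec.val_mul, Dec.val_add, Dec.val_sub, Dec.val_nsm,
      Dec.val_zero, Dec.val_one]
    push_cast
    congr 1 <;> ring
  · simp only [LK.lnL, LC.l7, LC.lk, e1, Dec.val_mul, Dec.val_add, Dec.val_nsm, Dec.val_zero,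
      Dec.val_one]
    push_cast
    congr 1
    ring
  · simp only [LK.lnL, LC.l7, LC.lk, e1, Dec.val_mul, Dec.val_add, Dec.val_nsm, Dec.val_one]
    push_cast
    congr 1
    ring

variable {tl : List TC} {dl : List (Seg (Kn Dec))} {d : Seg (Kn Dec)}

lemma capOk_sound {o : Bool} {t r : Dec} (h : capOk o t r = true) (ho : o = true) :
    0 ≤ t.val ∧ 1 ≤ 4 * t.val * r.val := by
  subst ho
  simp only [capOk, Bool.not_true, Bool.false_or, Bool.and_eq_true] at h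
  have h2 := Dec.nn_iff h.2
  simp only [Dec.val_sub, Dec.val_nsm, Dec.val_mul, Dec.val_one] at h2
  push_cast at h2
  exact ⟨Dec.nn_iff h.1, by linarith⟩

/-- the real conditions on the constants -/
lemma lcOk_sound {kd : ℕ} {oL oR : Bool} {C : LC} {dc : Seg (Kn Dec)}
    (h : lcOk kd oL oR C dc = true) {k : ℕ} (hkd : KdOk kd k) {D : ℝ} (h0 : 0 ≤ D)
    (h1 : D ≤ (Dec.add dc.a dc.w).val) (hK : KOk (dc.x.map Dec.val) D) :
    ∃ P D1 σ0 : ℝ, (C.lk dc.x P D1 σ0).Ok dc.x.chi.val D k ∧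
      4 * (C.th.val * C.jt.val) = 1 ∧ 0 < C.th.val := by
  simp only [lcOk, Bool.and_eq_true] at h
  obtain ⟨q1, q2, q3, q4, q5, q6, q7, q8, q9, q10, q11, q12, q13, q14, q15, q16, q17, q18, q19⟩ :=
    h
  obtain ⟨s1, s2, s3⟩ := supOk_sound q2 h0 h1
  have e3 := Dec.ps_iff q3
  have e4 := Dec.nn_iff q4
  have e5 := Dec.nn_iff q5
  have e6 := Dec.nn_iff q6
  have e7 := Dec.nn_iff q7
  have e8 := Dec.nn_iff q8
  have e9 := Dec.nn_iff q9
  have e10 := Dec.nn_iff q10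
  have e11 := Dec.nn_iff q11
  have e12 := Dec.nn_iff q12
  have e15 := Dec.nn_iff q15
  have e18 := Dec.nn_iff q18
  simp only [Dec.val_sub, Dec.val_nsm, Dec.val_mul, Dec.val_one] at e4 e5 e7 e8 e9 e10 e11 e12
  rw [Dec.val_add] at e11 e12
  simp only [Dec.val_nsm, Dec.val_mul, Dec.val_one] at e11 e12
  push_cast at e4 e5 e7 e8 e9 e10 e11 e12
  obtain ⟨D1, σ0, hO, hL1, hL2⟩ := hK.un
  have hO' : TSM.OneE D D1 (1 - dc.x.ru.w0.val) dc.x.ru.K.val dc.x.ru.r.val dc.x.pd.kap.val := hO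
  obtain ⟨E, hE⟩ : ∃ E, E = (Dec.add dc.a dc.w).val := ⟨_, rfl⟩
  rw [← hE] at h1 e7 e8 e9 e11 e12
  have hr0 := hO'.hr0
  have hrD : dc.x.ru.r.val * D ≤ dc.x.ru.r.val * E := mul_le_mul_of_nonneg_left h1 hr0
  have hLC : TSM.LeftC (dc.x.ru.r.val * E) (1 - dc.x.ru.w0.val) (2 * C.th.val) C.om.val
      C.vt.val C.nu.val C.B1.val C.B2.val := by
    refine ⟨by linarith, e6, ?_, ?_, ?_, by linarith, by linarith, by linarith⟩
    · nlinarith
    · nlinarith
    · nlinarith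
  have hEx := (exOk_sound q1 hkd).rest
  refine ⟨(Dec.mul C.rR (Dec.add dc.a dc.w)).val, D1, σ0, ?_, by linarith, e3⟩
  refine ⟨hO', hL1, hL2, hK.hs, hLC.mono (mul_nonneg hr0 h0) hrD hO'.hχ0.le hO'.hχ01, hEx, e18,
    s1, s2, s3, ?_, zero_le_one⟩
  show C.rR.val * D ≤ (Dec.mul C.rR (Dec.add dc.a dc.w)).val
  rw [Dec.val_mul, ← hE]
  exact mul_le_mul_of_nonneg_left h1 e15

/-! ### the forms of the gains -/

/-- a form of the gain of the child which is split off in real numbers -/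
def FrmL (o : Bool) (C : LC) (k : Kn Dec) (c0 c1 c2 : ℝ) : Prop :=
  ∃ i : Bool, (o = true → i = false) ∧ c0 = (gamL o C k i).g0.val ∧
    c1 = (gamL o C k i).g1.val ∧ c2 = (gamL o C k i).g2.val

/-- a form of the gain of the rest in real numbers -/
def FrmR (o : Bool) (C : LC) (c0 c1 c2 : ℝ) : Prop :=
  ∃ i : Bool, (o = true → i = false) ∧ c0 = (gamR o C i).g0.val ∧
    c1 = (gamR o C i).g1.val ∧ c2 = (gamR o C i).g2.val

lemma capL {o : Bool} {C : LC} {k : Kn Dec} (h : capOk o C.tL k.ru.r = true) :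
    Caps (FrmL o C k) k.ru.r.val := by
  intro x
  cases o
  · obtain ⟨c0, c1, c2, h1, h2, h3⟩ := TSM.caps_two k.ru.r.val x
    refine ⟨c0, c1, c2, ?_, h2, h3⟩
    rcases h1 with ⟨rfl, rfl, rfl⟩ | ⟨rfl, rfl, rfl⟩
    · refine ⟨false, by simp, ?_⟩
      simp [gamL, Dec.val_zero, Dec.val_one]
    · refine ⟨true, by simp, ?_⟩
      simp [gamL, Dec.val_zero]
  · obtain ⟨k1, k2⟩ := capOk_sound h rfl
    obtain ⟨c0, c1, c2, ⟨rfl, rfl, rfl⟩, h2, h3⟩ := TSM.caps_one k1 k2 x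
    refine ⟨_, _, _, ⟨false, by simp, rfl, rfl, rfl⟩, ?_, ?_⟩
    · simpa [gamL, Dec.val_zero, Dec.val_one, Dec.val_neg] using h2
    · simpa [gamL, Dec.val_zero, Dec.val_one, Dec.val_neg] using h3

lemma capR {o : Bool} {C : LC} (h : capOk o C.tR C.rR = true) :
    Caps (FrmR o C) C.rR.val := by
  intro x
  cases o
  · obtain ⟨c0, c1, c2, h1, h2, h3⟩ := TSM.caps_two C.rR.val x
    refine ⟨c0, c1, c2, ?_, h2, h3⟩
    rcases h1 with ⟨rfl, rfl, rfl⟩ | ⟨rfl, rfl, rfl⟩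
    · refine ⟨false, by simp, ?_⟩
      simp [gamR, Dec.val_zero, Dec.val_one]
    · refine ⟨true, by simp, ?_⟩
      simp [gamR, Dec.val_zero]
  · obtain ⟨k1, k2⟩ := capOk_sound h rfl
    obtain ⟨c0, c1, c2, ⟨rfl, rfl, rfl⟩, h2, h3⟩ := TSM.caps_one k1 k2 x
    refine ⟨_, _, _, ⟨false, by simp, rfl, rfl, rfl⟩, ?_, ?_⟩
    · simpa [gamR, Dec.val_zero, Dec.val_one, Dec.val_neg] using h2
    · simpa [gamR, Dec.val_zero, Dec.val_one, Dec.val_neg] using h3

/-- the second coefficient of a form of the gain of the rest is not positive -/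
lemma gamR_g2 {o : Bool} {C : LC} (h : capOk o C.tR C.rR = true) (i : Bool) :
    (gamR o C i).g2.val ≤ 0 := by
  cases o
  · cases i <;> simp [gamR, Dec.val_zero]
  · have := (capOk_sound h rfl).1
    simp only [gamR, if_true, Dec.val_neg]
    linarith

/-- the new state of a line -/
lemma lpN_ev (F : FL ℝ) (S : FSL) (s : Sn) : (F.pN S).ns.ev s =
    ((((F.E.V.ty S.tn).na).ns).lfL (pdQ F.E S.tn).q5 F.l.z).ev s := by
  rw [NS.lfL_ev]
  unfold FL.pN NA.sub NA.add NS.ev NA.ns Q5.ev QA.q5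
  simp only [rAdd, rNeg, rMul]
  ring

/-! ### the rule -/

variable {S : FSL} {K : ℕ} {O : Fin K → OBr} {N : Finset (Fin K)} {σ e ρ : Fin K → Bool}
  {L : Fin K} {tc : Fin K → ℕ}

/-- everything that is known about a family with `L` split off for a shape -/
structure FamSh (S : FSL) {K : ℕ} (O : Fin K → OBr) (N : Finset (Fin K)) (tc : Fin K → ℕ)
    (σ e ρ : Fin K → Bool) (L : Fin K) : Prop where
  hS : ∃ v2m, FamL O N σ e ρ L S.M S.f.val S.f2 S.n S.nL S.nR S.vm.val S.fv.val v2m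
    S.kL S.kR ∧ v2m = if S.vR = 0 then vY (O L) ^ 2 else (S.vR : ℝ)
  hfg : S.fg.val = 2
  hgs : GSg S.gs S.gm.val ((gU e O).eval q0)
  hn : S.n ≤ 1
  hM : 2 ≤ S.M
  hcard : N.card = S.M
  hρ0 : Even (N.erase L).card → ∑ i ∈ N.erase L, sg (ρ i) = 0
  hρ1 : Odd (N.erase L).card → ∑ i ∈ N.erase L, sg (ρ i) = 1
  ht : ∀ i ∈ N, tc i = 0 ↔ TSM.tau (O i) = 0
  hA : ∀ i ∈ N, Adm (tc i) (vU (O i)) (vY (O i)) (aU (O i)) (aY (O i))
  hpa : parOk S.pa (TSM.c1 O N) = true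
  hrg : S.rg.At O N
  hlo : (lo S.tn : ℝ) ≤ vY (fam σ e O)
  hhi : vY (fam σ e O) ≤ hi S.tn
  htL : m4 (tc L) = S.tL
  htR : ∀ i ∈ N, i ≠ L → m4 (tc i) ∈ S.tys

/-- **the rule which splits off a nontrivial child, from its lines** -/
theorem lfl_of (hc : covers tl dl = true) (hs : LOK tl dl sgnL)
    (hK : ∀ D, RD D → KOk (knAt dl d D) D) {kd : ℕ} {oL oR : Bool} {C : ℕ → LC}
    (hk : ∀ dc ∈ dl, lcOk kd oL oR (C dc.x.ix) dc = true) (hL : LinesL tl dl S oL oR C)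
    (hkd : KdOk kd (K - 1)) (hF : FamSh S O N tc σ e ρ L) (D : ℝ) (hD : RD D) :
    LfL (VV tl dl d) (PP' dl d) (chiF dl d) O N tc σ e L S.tn D := by
  obtain ⟨hmem, _⟩ := pick_D (d := d) hc hD
  obtain ⟨v2m, hS, hv2⟩ := hF.hS
  obtain ⟨kn, hkn⟩ : ∃ kn, kn = (pick dl d D).x := ⟨_, rfl⟩
  obtain ⟨c, hcc⟩ : ∃ c, c = C kn.ix := ⟨_, rfl⟩
  have hk' := hk _ hmem
  have hkw : 0 ≤ (pick dl d D).w.val ∧ psOk c.s = true ∧ capOk oL c.tL kn.ru.r = true ∧
      capOk oR c.tR c.rR = true ∧ 0 ≤ kn.chi.val := by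
    have h := hk'
    simp only [lcOk, Bool.and_eq_true] at h
    obtain ⟨q1, q2, q3, q4, q5, q6, q7, q8, q9, q10, q11, q12, q13, q14, q15, q16, q17, q18,
      q19⟩ := h
    rw [hcc, hkn]
    exact ⟨Dec.nn_iff q17, q19, q13, q14, Dec.nn_iff q18⟩
  obtain ⟨hw, hs4, hcL, hcR, hchi⟩ := hkw
  have hDle := pick_le (d := d) hc hD hw
  obtain ⟨P, D1, σ0, hOk, hj, hth0⟩ := lcOk_sound hk' hkd hD.1 hDle (hK D hD)
  rw [← hkn, ← hcc] at hOk
  rw [← hkn, ← hcc] at hj hth0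
  have hχ : chiF dl d D = kn.chi.val := by rw [hkn]; rfl
  have hpay : ∀ ty, (((c.s).map (PS.map Dec.val)).ty ty).Ok := psOk_sound hs4
  have hsg := hOk.h6
  have hB1 : 0 ≤ c.B1.val := by
    have h1 := hOk.h5.hB1
    have h2 := hOk.h5.hω0
    have h3 : 2 * c.om.val ≤ c.B1.val := h1
    have h4 : 0 ≤ c.om.val := h2
    linarith
  have hB2 : 0 ≤ c.B2.val := by
    have h1 : 2 + kn.ru.r.val * D ≤ c.B2.val := hOk.h5.hB2
    have h2 : 0 ≤ kn.ru.r.val := hOk.h1.hr0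
    have := mul_nonneg h2 hD.1
    linarith
  have hc4 : 0 ≤ c.c.val := by
    have : 1 / 4 ≤ c.c.val := hOk.h6.hc
    linarith
  have hjt : 0 ≤ c.jt.val := by
    by_contra h
    push Not at h
    have := mul_neg_of_pos_of_neg hth0 h
    linarith
  have hom : 0 ≤ c.om.val := hOk.h5.hω0
  have hmu : 0 ≤ c.mu.val := hOk.h6.hμ
  have hMU : 0 ≤ c.MU.val := by
    have h1 : c.mu.val * (1 + c.l.val) ≤ c.MU.val := hOk.h9U
    have h2 : 0 < c.l.val := hOk.h8
    have := mul_nonneg hmu (show 0 ≤ 1 + c.l.val by linarith)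
    linarith
  have hMY : 0 ≤ c.MY.val := by
    have h1 : c.mu.val * ((1 + c.l.val) + (1 + 1 / c.l.val) * D) ≤ c.MY.val := hOk.h9Y
    have h2 : 0 < c.l.val := hOk.h8
    have h3 : 0 ≤ 1 / c.l.val := by positivity
    have h4 := mul_nonneg (show 0 ≤ 1 + 1 / c.l.val by linarith) hD.1
    have := mul_nonneg hmu (show 0 ≤ (1 + c.l.val) + (1 + 1 / c.l.val) * D by linarith)
    linarith
  refine TSM.lfE_linesM hS (ty := S.tn) (fun a => ((enAt tl dl d D a).V.ty S.tn).na.ns)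
    (fun a ha u y vU vY aU aY => ?_) (fun a => (pdQ (enAt tl dl d D a) S.tn).q5)
    (fun a ha u y vU vY aU aY => ?_) (c.lk kn P D1 σ0) (by rw [hχ]; exact hOk)
    (capL hcL) (capR hcR) (fun i => (((c.s).map (PS.map Dec.val)).ty (tc i)).pv (O i) * D)
    (fun i _ => mul_nonneg ((hpay _).pv (hS.hW.hO.hI i)) hD.1) ?_
  · rw [vt_ev]
    rfl
  · have h1 := pd_ev (enAt_ok (d := d) hc hs ha) (⟨S.tn, u, y, vU, vY, aU, aY⟩ : Sn)
    rw [enAt_k hc ha] at h1
    exact h1.symm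
  · intro a ha haq hD0 i4 γ0 γ1 γ2 δ0 δ1 δ2 ε hG hS' hγ hδ hε hh
    obtain ⟨i, hi, hγ0, hγ1, hγ2⟩ := hγ
    obtain ⟨j, hjj, hδ0, hδ1, hδ2⟩ := hδ
    have hG1 : hG = 1 ∧ hS' = 0 := by
      rcases hh with ⟨h1, h2⟩ | ⟨h1, h2⟩
      · exact ⟨h1, h2⟩
      · have h3 : (c.lk kn P D1 σ0).sR = 0 := rfl
        rw [h3] at h1 h2
        exact ⟨by linarith, h2⟩
    obtain ⟨rfl, rfl⟩ := hG1
    obtain ⟨εb, hεb⟩ : ∃ b : Bool, ε = if b then 1 else 0 := by
      rcases hε with h | h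
      · exact ⟨false, by simp [h]⟩
      · exact ⟨true, by simp [h]⟩
    obtain ⟨F, x, hA⟩ := (hL i4 i j εb hi hjj).at (d := d) hc ha
    have hl : F.l = (lineOf c kn i4 (gamL oL c kn i) (gamR oR c j) εb).map Dec.val := by
      rw [hA.hl, hcc, hkn]
    have h7 := l7_val (C := c) (k := kn) (P := P) (D1 := D1) (σ0 := σ0) hj hth0 i4
    have hsg4 : 0 ≤ (c.l7 kn i4).al.val ∧ 0 ≤ (c.l7 kn i4).b.val := by
      have h1 : (c.l7 kn i4).al.val = ((c.lk kn P D1 σ0).toLK.lnL kn.chi.val i4).al := by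
        rw [h7]
      have h2 : (c.l7 kn i4).b.val = ((c.lk kn P D1 σ0).toLK.lnL kn.chi.val i4).b := by
        rw [h7]
      rw [h1, h2]
      have h3 : 0 ≤ 1 / (2 * (2 * c.th.val)) := by positivity
      have h4 := mul_nonneg hB1 hc4
      have h5 := mul_nonneg hB2 hc4
      have h6 := mul_nonneg hom h3
      fin_cases i4
      · exact ⟨hom, by
          show 0 ≤ c.om.val * (1 / (2 * (2 * c.th.val))) + 2 * (c.B1.val * c.c.val)
          linarith⟩
      · refine ⟨mul_nonneg (by linarith) hom, mul_nonneg (by linarith) ?_⟩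
        show 0 ≤ c.om.val * (1 / (2 * (2 * c.th.val))) + 2 * (c.B1.val * c.c.val)
        linarith
      · refine ⟨zero_le_one, ?_⟩
        show 0 ≤ 1 / (2 * (2 * c.th.val)) + 2 * (c.B2.val * c.c.val)
        linarith
      · refine ⟨by show 0 ≤ 1 + kn.chi.val; linarith, mul_nonneg (by linarith) ?_⟩
        show 0 ≤ 1 / (2 * (2 * c.th.val)) + 2 * (c.B2.val * c.c.val)
        linarith
    have hSg : F.l.Sg := by
      rw [hl]
      exact ⟨hsg4.1, hsg4.2, hMU, hMY, gamR_g2 hcR j⟩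
    have hpay' : ∀ ty, ((((C (pick dl d D).x.ix).s).map (PS.map Dec.val)).ty ty).Ok := by
      rw [← hkn, ← hcc]
      exact hpay
    obtain ⟨p, vm, κ, ct, kU, x1, v1, a1, sh, g1, g2, g3, g4, g5, g6, g7, g8⟩ :=
      hA.line hc hs ha haq hS hF.hgs hv2 hF.hn hF.hM hF.hcard hF.hρ0 hF.hρ1 hF.ht hF.hA hF.hpa
        hF.hrg hF.hlo hF.hhi hF.htL hF.htR hpay' hSg S.tn
    rw [hF.hfg] at g5
    have hxok : F.x.Ok S.M := by rw [hA.hx]; exact fyOk_sound hA.hok
    have hE := hA.ok hc hs ha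
    rw [lpN_ev, hA.hE] at g1
    have hz : F.l.z = ((c.lk kn P D1 σ0).toLK.lnL kn.chi.val i4).z := by
      rw [h7, hl]
      rfl
    have hzL : F.l.zL = ((c.lk kn P D1 σ0).toLK.lnL kn.chi.val i4).zL := by
      rw [h7, hl]
      rfl
    have hld : F.ld = ((c.lk kn P D1 σ0).toLK.lnL kn.chi.val i4).ld c.MU.val c.MY.val γ1 γ2
        δ1 δ2 ε 1 (2 * F.x.k1) (2 * F.x.k2) := by
      unfold FL.ld LnL.ld
      rw [h7, hl, hγ1, hγ2, hδ1, hδ2, hεb]
      unfold lineOf LL.map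
      dsimp only
      congr 1
      · cases εb
        · simp
        · simp [Dec.val_add]
      · rw [one_mul]
      · rw [one_mul]
      · rw [Dec.val_mul]
      · rw [Dec.val_mul]
    have hg0 : F.l.g0 = ((c.lk kn P D1 σ0).toLK.lnL kn.chi.val i4).ag * γ0 := by
      rw [h7, hl, hγ0]
      exact Dec.val_mul _ _
    have hr0 : F.l.r0 = 1 * δ0 := by
      rw [hl, hδ0, one_mul]
      rfl
    have hke : F.l.ke = ((c.lk kn P D1 σ0).toLK.lnL kn.chi.val i4).KE * ε := by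
      rw [h7, hl, hεb]
      unfold lineOf LL.map
      cases εb
      · simp [Dec.val_zero]
      · simp
    rw [hz] at g1
    rw [hzL] at g7
    rw [hg0, hr0, hke] at g8
    rw [← hkn, ← hcc] at g6 g7
    rw [hχ]
    refine ⟨p, vm, κ, ct, F.ld, kU, x1, v1, a1, 2 * F.x.k1, 2 * F.x.k2, sh, g1, g2, hld, hSg.al,
      by linarith [hxok.k1], by linarith [hxok.k2], g3, g4, g5, fun i hi hiL => ?_, g7, g8⟩
    have := g6 i hi hiL
    rw [zero_mul, sub_zero]
    exact this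

end Pool.Agent.TSG
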