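import Pool.Agent.TSG.FamLG
import Pool.Agent.TSM.FamL4

set_option autoImplicit false

/-!
# The groups of one line when a nontrivial child is split off: soundness (MP_d27362_co)
-/

namespace Pool.Agent.TSG

open Finset
open Pool.Agent.TSC
open Pool.Agent.TSM (q0 th RD Reg Sn NS CT Spl Wt Q5 FamL chd vU vY aU aY XX YY UU gY2 Chd LK2 Caps
  LfL Vi)
open Pool.Agent.TSR (OBr sg_true sg_false)
open Pool.Agent.TLT (sg)

lemma rZsm (z : ℤ) (x : ℝ) : zsm z x = z * x := by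
  rcases z with k | k
  · rw [zsm, rNsm]
    simp
  · rw [zsm, rNeg, rNsm, Int.cast_negSucc]
    push_cast
    ring

/-- the coefficients as in the total inequality; `W` is the factor of `v_U` -/
noncomputable def CB.ct (k : CB ℝ) (W : ℝ) : CT :=
  ⟨k.y1, k.y2, k.w2, k.b1, k.b2, k.u1, k.u2, k.v2, k.a2, k.l, k.cv, -W⟩

/-- the forms of a child are below the value; `V` are the coefficients of the child -/
theorem cb_le {P : PX ℝ} {V : NA ℝ} {c : CB ℝ} {D a W : ℝ} (hP : P.Ok D a) (ha : a < q0)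
    (hWp : c.wp ≤ W) (hWm : W ≤ c.wm) (k ds s : ℝ) (hs : 0 ≤ s) (st : Sn) (hv : 0 ≤ st.vU)
    (b1 b2 b3 : Bool)
    (hz : b3 = false → c.z * st.y ^ 2 - c.zs * st.aY ^ 2 ≤ c.w2 * st.vY ^ 2) :
    (cbU P V c k s b2).ev st.u st.vU st.aU + (cbY V c ds b1 b3).ev st.y st.vY st.aY ≤
      V.ns.ev st - (k + ds) - s * D * (1 - D / (q0 - a)) -
        (c.ct W).ev (sg b1) (sg b2) (sg b3) st := by
  have hpay : s * (P.D2 * P.w) - s * D ≤ -(s * D * (1 - D / (q0 - a))) := by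
    have h3 := mul_le_mul_of_nonneg_left (hP.hw ha) hs
    linarith
  have hq1 := mul_le_mul_of_nonneg_right hWp hv
  have hq2 := mul_le_mul_of_nonneg_right hWm hv
  have e0 : (cbU P V c k s b2).ev st.u st.vU st.aU =
      V.c - k + (s * (P.D2 * P.w) - s * D) + V.al * st.u - sg b2 * c.u1 * st.u +
        (V.be - c.u2) * st.u ^ 2 + V.cv * st.vU +
        (if b2 then c.wp * st.vU else -(c.wm * st.vU)) -
        c.v2 * st.vU ^ 2 + V.lU * st.aU + (V.qU - c.a2) * st.aU ^ 2 -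
        c.l * Real.sqrt (st.vU ^ 2 + st.aU ^ 2) := by
    unfold cbU QI.ev
    simp only [rAdd, rMul, rSub, rNeg, hP.hD]
    rcases b2 with _ | _ <;>
      simp only [Bool.false_eq_true, if_true, if_false, sg_true, sg_false] <;> ring
  have e1 : (cbY V c ds b1 b3).ev st.y st.vY st.aY =
      -ds + V.ga * st.y - sg b1 * c.y1 * st.y + (V.de - c.y2) * st.y ^ 2 + V.dv * st.vY -
        sg b1 * c.cv * st.vY - (if b3 then c.w2 * st.vY ^ 2 else
          -(c.z * st.y ^ 2 - c.zs * st.aY ^ 2)) +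
        (V.ly - c.b1) * st.aY + (V.qy - c.b2) * st.aY ^ 2 := by
    unfold cbY QI.ev
    simp only [rAdd, rSub, rNeg, rZero]
    rcases b1 with _ | _ <;> rcases b3 with _ | _ <;>
      simp only [Bool.false_eq_true, if_true, if_false, sg_true, sg_false] <;> ring
  have e2 : (c.ct W).ev (sg b1) (sg b2) (sg b3) st = sg b1 * c.y1 * st.y +
      c.y2 * st.y ^ 2 +
      sg b3 * (c.w2 * st.vY ^ 2) + c.b1 * st.aY + c.b2 * st.aY ^ 2 + sg b2 * c.u1 * st.u +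
      c.u2 * st.u ^ 2 + c.v2 * st.vU ^ 2 + c.a2 * st.aU ^ 2 +
      c.l * Real.sqrt (st.vU ^ 2 + st.aU ^ 2) + sg b1 * c.cv * st.vY -
      sg b2 * (W * st.vU) := by
    unfold CT.ev CB.ct
    dsimp only
    ring
  rw [e0, e1, e2]
  unfold NS.ev NA.ns
  dsimp only
  rcases b3 with _ | _ <;> rcases b2 with _ | _ <;>
    simp only [Bool.false_eq_true, if_true, if_false, sg_true, sg_false]
  · have := hz rfl
    linarith
  · have := hz rfl
    linarith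
  · linarith
  · linarith

/-! ### the tests of the weights and shares -/

/-- the types of the others -/
def FSL.tys (S : FSL) : List ℕ :=
  (if S.r0 then [0] else []) ++ ((if S.r1 then [1, 2, 3] else []) ++ (if S.r4 then [4] else []))

/-- the test of the shares -/
def shlOk (S : FSL) (x : FY Dec) : Bool :=
  match S.M with
  | 2 => S.tys.all fun i => Dec.nn (Dec.add x.dL (x.dp.ty i))
  | 3 => S.tys.all fun i => S.tys.all fun j => !(parOk S.pa (nz S.tL + nz i + nz j)) ||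
      Dec.nn (Dec.add x.dL (Dec.add (x.dp.ty i) (x.dm.ty j)))
  | _ => Dec.nn x.dL && (Dec.nn x.ep && S.tys.all fun i =>
      Dec.nn (Dec.sub (x.dp.ty i) x.ep) && Dec.nn (Dec.add (x.dm.ty i) x.ep))

/-- the test of the multipliers for the new state -/
def mlOk (x : MX Dec) : Bool :=
  Dec.nn x.eU && (Dec.nn (Dec.sub Dec.one x.eU) && (Dec.ps (Dec.sub x.rA Dec.one) &&
  (Dec.nn (Dec.sub (Dec.mul (Dec.sub x.rA Dec.one) (Dec.sub x.sA Dec.one)) Dec.one) &&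
  (Dec.nn x.eY && (Dec.nn (Dec.sub Dec.one x.eY) && (Dec.ps (Dec.sub x.rB Dec.one) &&
  (Dec.nn (Dec.sub (Dec.mul (Dec.sub x.rB Dec.one) (Dec.sub x.sB Dec.one)) Dec.one) &&
  (Dec.nn x.l1 && (Dec.nn x.l2 && (Dec.nn x.l3 && Dec.nn x.l4))))))))))

/-- the conditions on the multipliers for the new state -/
structure MX.Ok (x : MX ℝ) : Prop where
  eU0 : 0 ≤ x.eU
  eU1 : x.eU ≤ 1
  rA : 1 < x.rA
  sA : 1 ≤ (x.rA - 1) * (x.sA - 1)
  eY0 : 0 ≤ x.eY
  eY1 : x.eY ≤ 1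
  rB : 1 < x.rB
  sB : 1 ≤ (x.rB - 1) * (x.sB - 1)
  l1 : 0 ≤ x.l1
  l2 : 0 ≤ x.l2
  l3 : 0 ≤ x.l3
  l4 : 0 ≤ x.l4

lemma mlOk_sound {x : MX Dec} (h : mlOk x = true) : (x.map Dec.val).Ok := by
  simp only [mlOk, Bool.and_eq_true] at h
  obtain ⟨k1, k2, k3, k4, k5, k6, k7, k8, k9, k10, k11, k12⟩ := h
  have e1 := Dec.nn_iff k1
  have e2 := Dec.nn_iff k2
  have e3 := Dec.ps_iff k3
  have e4 := Dec.nn_iff k4
  have e5 := Dec.nn_iff k5
  have e6 := Dec.nn_iff k6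
  have e7 := Dec.ps_iff k7
  have e8 := Dec.nn_iff k8
  simp only [Dec.val_sub, Dec.val_mul, Dec.val_one] at e2 e3 e4 e6 e7 e8
  exact ⟨e1, by show x.eU.val ≤ 1; linarith, by show 1 < x.rA.val; linarith,
    by show 1 ≤ (x.rA.val - 1) * (x.sA.val - 1); linarith, e5,
    by show x.eY.val ≤ 1; linarith, by show 1 < x.rB.val; linarith,
    by show 1 ≤ (x.rB.val - 1) * (x.sB.val - 1); linarith, Dec.nn_iff k9, Dec.nn_iff k10,
    Dec.nn_iff k11, Dec.nn_iff k12⟩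

/-- the bounds of the shape; the factors have to be the same -/
def bdL (S : FSL) (x : SX Dec) : Bool :=
  Dec.nn (Dec.sub x.fe S.f) && (Dec.nn (Dec.sub S.f x.fe) && (Dec.nn (Dec.sub x.fv S.fv) &&
    (Dec.nn (Dec.sub S.fv x.fv) && (Dec.nn (Dec.sub x.vm S.vm) && (Dec.nn (Dec.sub x.gm S.gm) &&
    eqD x.fg S.fg)))))

/-- the test of the bounds of the new `v_y` and of the numbers of the region -/
def rlOk (S : FSL) (x : FY Dec) : Bool :=
  loOk S.tn S.n S.gs x.x.vm x.x.gm x.m.lo && (hiOk S.tn S.n S.gs x.x.vm x.x.gm x.m.hi &&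
    (eqD x.sy S.rg.sy && (eqD x.su S.rg.su && Dec.nn x.lu)))

/-- the test of the weights and shares -/
def fyOk (S : FSL) (x : FY Dec) : Bool :=
  (sxOk x.x && (bdL S x.x && rlOk S x)) &&
  (Dec.nn x.fB && (Dec.nn (Dec.sub Dec.one x.fB) && (Dec.ps (Dec.sub x.rB Dec.one) &&
  (Dec.nn (Dec.sub (Dec.mul (Dec.sub x.rB Dec.one) (Dec.sub x.sB Dec.one)) Dec.one) &&
  (Dec.nn x.zB && (Dec.nn (Dec.sub Dec.one x.zB) && (Dec.ps x.k1 && (Dec.ps x.k2 &&
  (Dec.nn (Dec.sub (Dec.nsm 4 (Dec.mul x.k1 x.j1)) Dec.one) &&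
  (Dec.nn (Dec.sub (Dec.nsm 4 (Dec.mul x.k2 x.j2)) Dec.one) && (Dec.nn x.ks &&
  (Dec.nn (Dec.sub (Dec.add x.cL (Dec.nsm (S.M - 1) x.cR)) Dec.one) &&
  (Dec.nn (Dec.sub Dec.one (Dec.add x.cL (Dec.nsm (S.M - 1) x.cR))) &&
  (mlOk x.m && (Dec.nn x.lr && shlOk S x)))))))))))))))

/-- the weights are right -/
structure FY.Ok (x : FY ℝ) (M : ℕ) : Prop where
  hx : x.x.Ok
  fB0 : 0 ≤ x.fB
  fB1 : x.fB ≤ 1
  rB : 1 < x.rB
  sB : 1 ≤ (x.rB - 1) * (x.sB - 1)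
  zB0 : 0 ≤ x.zB
  zB1 : x.zB ≤ 1
  k1 : 0 < x.k1
  k2 : 0 < x.k2
  j1 : 1 ≤ 4 * (x.k1 * x.j1)
  j2 : 1 ≤ 4 * (x.k2 * x.j2)
  ks : 0 ≤ x.ks
  hc : x.cL + ((M - 1 : ℕ) : ℝ) * x.cR = 1
  hm : x.m.Ok
  lr : 0 ≤ x.lr
  lu : 0 ≤ x.lu

lemma lu_of {S : FSL} {x : FY Dec} (h : rlOk S x = true) : 0 ≤ x.lu.val := by
  simp only [rlOk, Bool.and_eq_true] at h
  exact Dec.nn_iff h.2.2.2.2

lemma fyOk_sound {S : FSL} {x : FY Dec} (h : fyOk S x = true) : (x.map Dec.val).Ok S.M := by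
  simp only [fyOk, Bool.and_eq_true] at h
  obtain ⟨k0, k1, k2, k3, k4, k5, k6, k7, k8, k9, k10, k11, k12, k13, k14, k15, _⟩ := h
  have e1 := Dec.nn_iff k1
  have e2 := Dec.nn_iff k2
  have e3 := Dec.ps_iff k3
  have e4 := Dec.nn_iff k4
  have e5 := Dec.nn_iff k5
  have e6 := Dec.nn_iff k6
  have e7 := Dec.ps_iff k7
  have e8 := Dec.ps_iff k8
  have e9 := Dec.nn_iff k9
  have e10 := Dec.nn_iff k10
  have e11 := Dec.nn_iff k11
  have e12 := Dec.nn_iff k12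
  have e13 := Dec.nn_iff k13
  simp only [Dec.val_sub, Dec.val_mul, Dec.val_one, Dec.val_nsm] at e2 e3 e4 e6 e9 e10
  simp only [Dec.val_sub, Dec.val_one, Dec.val_nsm, Dec.val_add] at e12 e13
  push_cast at e9 e10
  refine ⟨sxOk_sound k0.1, ?_, ?_, ?_, ?_, ?_, ?_, ?_, ?_, ?_, ?_, ?_,
    ?_, mlOk_sound k14,
    Dec.nn_iff k15, lu_of k0.2.2⟩ <;> simp only [FY.map] <;> linarith

lemma bdL_sound {S : FSL} {x : FY Dec} (h : fyOk S x = true) : x.x.fe.val = S.f.val ∧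
    x.x.fv.val = S.fv.val ∧ S.vm.val ≤ x.x.vm.val ∧ S.gm.val ≤ x.x.gm.val ∧
    x.x.fg.val = S.fg.val := by
  simp only [fyOk, bdL, Bool.and_eq_true] at h
  obtain ⟨⟨_, ⟨k1, k2, k3, k4, k5, k6, k7⟩, _⟩, _⟩ := h
  have e1 := Dec.nn_iff k1
  have e2 := Dec.nn_iff k2
  have e3 := Dec.nn_iff k3
  have e4 := Dec.nn_iff k4
  have e5 := Dec.nn_iff k5
  have e6 := Dec.nn_iff k6
  rw [Dec.val_sub] at e1 e2 e3 e4 e5 e6
  exact ⟨by linarith, by linarith, by linarith, by linarith, eqD_iff k7⟩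

/-! ### the real inequalities -/

/-- the data of the line as in the total inequality -/
noncomputable def FL.ld (F : FL ℝ) : TSM.LD :=
  ⟨F.l.al, F.l.la, F.l.b, F.l.MU, F.l.MY, F.l.r1, F.l.r2, F.l.g1, F.l.g2, 2 * F.x.k1, 2 * F.x.k2⟩

/-- signs of the coefficients of a line -/
structure LL.Sg (l : LL ℝ) : Prop where
  al : 0 ≤ l.al
  b : 0 ≤ l.b
  MU : 0 ≤ l.MU
  MY : 0 ≤ l.MY
  r2 : l.r2 ≤ 0

variable {S : FSL} {F : FL ℝ} {D a : ℝ}

lemma half_le {k j : ℝ} (hk : 0 < k) (hj : 1 ≤ 4 * (k * j)) {A : ℝ} (hA : 0 ≤ A) :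
    A / (2 * (2 * k)) ≤ A * j := by
  have h1 : 1 / (2 * (2 * k)) ≤ j := by
    rw [div_le_iff₀ (by positivity)]
    linarith
  have h2 := mul_le_mul_of_nonneg_left h1 hA
  calc A / (2 * (2 * k)) = A * (1 / (2 * (2 * k))) := by ring
    _ ≤ _ := h2

lemma BU_le (hl : F.l.Sg) (hx : F.x.Ok S.M) (ht : F.E.t = a) (ha : 0 ≤ a) :
    F.ld.BU a ≤ F.BU ∧ 0 ≤ F.BU := by
  have h1 := hl.al
  have h2 := hl.b
  have h3 := hl.MU
  have hA : 0 ≤ F.l.al * a ^ 2 := by positivity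
  have h4 := half_le hx.k1 hx.j1 hA
  have hj : 0 ≤ F.x.j1 := by
    by_contra hc
    push Not at hc
    have := hx.j1
    have := mul_pos_of_neg_of_neg (neg_neg_of_pos hx.k1) hc
    nlinarith
  have e : F.BU = F.l.MU * a + F.l.b * a ^ 2 + F.l.al * a ^ 2 * F.x.j1 := by
    unfold FL.BU
    simp only [rMul, rAdd, ht]
    ring
  rw [e]
  refine ⟨?_, by positivity⟩
  show F.l.MU * a + F.l.b * a ^ 2 + F.l.al * a ^ 2 / (2 * (2 * F.x.k1)) ≤ _
  linarith

lemma BG_le (hl : F.l.Sg) (hx : F.x.Ok S.M) (ht : F.E.t = a) (ha : 0 ≤ a) :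
    F.ld.BG a ≤ F.BG ∧ 0 ≤ F.ld.BG a := by
  have h1 := hl.al
  have h2 := hl.b
  have h3 := hl.MY
  have h3' : 0 ≤ -F.l.r2 := by linarith [hl.r2]
  have hA : 0 ≤ F.l.al * a ^ 3 := by positivity
  have h4 := half_le hx.k2 hx.j2 hA
  have hk := hx.k2
  have e : F.BG = F.l.MY * a ^ 2 + F.l.b * a ^ 3 + F.l.al * a ^ 3 * F.x.j2 -
      F.l.r2 * a ^ 2 := by
    unfold FL.BG
    simp only [rMul, rAdd, rSub, ht]
    ring
  have e2 : F.ld.BG a = F.l.MY * a ^ 2 + F.l.b * a ^ 3 + F.l.al * a ^ 3 / (2 * (2 * F.x.k2)) +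
      (-F.l.r2) * a ^ 2 := by
    show F.l.MY * a ^ 2 + F.l.b * a ^ 3 + F.l.al * a ^ 3 / (2 * (2 * F.x.k2)) -
      F.l.r2 * a ^ 2 = _
    ring
  rw [e, e2]
  refine ⟨by linarith, by positivity⟩

/-- the splitting of the cost of the value of the rest -/
lemma wt_of (hl : F.l.Sg) (hx : F.x.Ok S.M) (ht : F.E.t = a) (ha : 0 ≤ a)
    (hth : th a ≤ F.th) (hM : 1 ≤ S.M) (v2m : ℝ) :
    Wt (F.ld.BU a) 0 0 (S.M - 1) S.f2 (th a) v2m 1 (v2m * F.Z1)
      (((S.M - 1 : ℕ) : ℝ) * (F.x.fB * F.BU)) (F.x.zB * (F.x.rB * F.bB))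
      (S.f2 * (F.x.sB * ((F.th * F.th) * F.bB))) := by
  obtain ⟨h1, h2⟩ := BU_le hl hx ht ha
  have hb : F.bB = (1 - F.x.fB) * F.BU := rfl
  have hB0 : 0 ≤ F.bB := by
    rw [hb]
    exact mul_nonneg (by linarith [hx.fB1]) h2
  have hr : 0 ≤ F.x.rB := by linarith [hx.rB]
  have hs := pos_of_rs hx.rB hx.sB
  have hth0 := th_nonneg a
  have hth2 : th a ^ 2 ≤ F.th * F.th := by nlinarith
  have hZ : F.Z1 = (1 - F.x.zB) * (F.x.rB * F.bB) := rfl
  have hc : ((S.M - 1 : ℕ) : ℝ) = (S.M : ℝ) - 1 := by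
    rw [Nat.cast_sub hM, Nat.cast_one]
  refine ⟨⟨F.x.fB * F.BU, F.bB, F.x.rB, F.x.sB, F.Z1, F.x.zB * (F.x.rB * F.bB),
    mul_nonneg hx.fB0 h2, hB0, ?_, mul_nonneg hx.zB0 (mul_nonneg hr hB0), ?_, hx.rB, hx.sB, ?_,
    ?_, le_rfl, ?_, ?_⟩, le_rfl, le_rfl⟩
  · rw [hZ]
    exact mul_nonneg (by linarith [hx.zB1]) (mul_nonneg hr hB0)
  · rw [hb]
    linarith
  · rw [hZ]
    linarith
  · rw [hc]
  · rw [one_mul]
  · have h3 := mul_le_mul_of_nonneg_left (mul_le_mul_of_nonneg_right hth2 hB0) hs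
    refine mul_le_mul_of_nonneg_left ?_ (Nat.cast_nonneg _)
    linarith

/-- the terms of a child of the rest -/
lemma cR_le (hl : F.l.Sg) (hx : F.x.Ok S.M) (ht : F.E.t = a) (ha : 0 ≤ a) (hM : 1 ≤ S.M)
    (W s1 s2 s3 : ℝ) (st : Sn) :
    (F.ld.cR ((F.c0 S).ct (F.pM S).cv (F.pM S).dv) S.M S.nL S.nR S.kR
      (((S.M - 1 : ℕ) : ℝ) * (F.x.fB * F.BU)) (F.x.zB * (F.x.rB * F.bB))
      (S.f2 * (F.x.sB * ((F.th * F.th) * F.bB))) a).ev s1 s2 s3 st -
        s2 * ((W - q0 * (F.pM S).dv) * st.vU) ≤ ((F.cR S).ct W).ev s1 s2 s3 st := by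
  obtain ⟨h1, _⟩ := BG_le (S := S) hl hx ht ha
  have hc : ((S.M - 1 : ℕ) : ℝ) = (S.M : ℝ) - 1 := by
    rw [Nat.cast_sub hM, Nat.cast_one]
  have hc0 : 0 ≤ (S.M : ℝ) - 1 := by
    rw [← hc]
    exact Nat.cast_nonneg _
  have h2 := mul_le_mul_of_nonneg_right (mul_le_mul_of_nonneg_left h1 hc0) (sq_nonneg st.u)
  have hy1 : (F.c0 S).y1 = (F.pM S).al := rfl
  have hb1 : (F.c0 S).b1 = (F.pM S).lU := rfl
  unfold TSM.LD.cR CT.ev CB.ct CA.ct FL.cR
  dsimp only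
  simp only [rAdd, rMul, rSub, rNsm, rZsm, ht, hy1, hb1, hc]
  have e1 : F.ld.al = F.l.al := rfl
  have e2 : F.ld.b = F.l.b := rfl
  have e3 : F.ld.MY = F.l.MY := rfl
  have e4 : F.ld.r1 = F.l.r1 := rfl
  have e5 : F.ld.r2 = F.l.r2 := rfl
  rw [e1, e2, e3, e4, e5]
  push_cast
  linarith

/-- the terms of the child which is split off -/
lemma cL_eq (ht : F.E.t = a) (W s1 s2 s3 : ℝ) (st : Sn) :
    ((F.cL S).ct W).ev s1 s2 s3 st =
      (F.ld.cL ((F.c0 S).ct (F.pM S).cv (F.pM S).dv) S.nL S.nR S.kL a).ev s1 s2 s3 st +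
      (if S.vR = 0 then F.Z1 else 0) * (s3 * st.vY ^ 2) -
        s2 * ((W - q0 * (F.pM S).dv) * st.vU) := by
  have hy1 : (F.c0 S).y1 = (F.pM S).al := rfl
  have hb1 : (F.c0 S).b1 = (F.pM S).lU := rfl
  unfold TSM.LD.cL CT.ev CB.ct CA.ct FL.cL
  dsimp only
  simp only [rAdd, rMul, rSub, rNsm, rZsm, rZero, ht, hy1, hb1]
  have e1 : F.ld.al = F.l.al := rfl
  have e2 : F.ld.la = F.l.la := rfl
  have e3 : F.ld.k1 = 2 * F.x.k1 := rfl
  have e4 : F.ld.k2 = 2 * F.x.k2 := rfl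
  have e5 : F.ld.g1 = F.l.g1 := rfl
  have e6 : F.ld.g2 = F.l.g2 := rfl
  rw [e1, e2, e3, e4, e5, e6]
  push_cast
  ring

/-- the near inequality for the role `-` -/
lemma cR_near (hP : F.px.Ok D a) (hl : F.l.Sg) (hx : F.x.Ok S.M) (hp : (F.pM S).Ok)
    (ht : F.E.t = a) (ha : 0 ≤ a) {st : Sn} (hy : |st.y - st.vY| ≤ th a * st.aY) :
    (F.cR S).z * st.y ^ 2 - (F.cR S).zs * st.aY ^ 2 ≤ (F.cR S).w2 * st.vY ^ 2 := by
  obtain ⟨_, h2⟩ := BU_le (S := S) hl hx ht ha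
  have hth0 := th_nonneg a
  have hth : th a ^ 2 ≤ F.th * F.th := by
    have h1 : th a ≤ F.th := hP.hth
    nlinarith
  have hb : F.bB = (1 - F.x.fB) * F.BU := rfl
  have hB0 : 0 ≤ F.bB := by
    rw [hb]
    exact mul_nonneg (by linarith [hx.fB1]) h2
  have hU0 : 0 ≤ bU (F.pM S) F.x.x := by
    show 0 ≤ (1 - F.x.x.fU) * (F.pM S).be
    exact mul_nonneg (by linarith [hx.hx.fU1]) hp.be
  have key : ∀ r s : ℝ, 1 < r → 1 ≤ (r - 1) * (s - 1) →
      st.y ^ 2 ≤ r * st.vY ^ 2 + s * ((F.th * F.th) * st.aY ^ 2) := by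
    intro r s hr hrs
    have h3 := TSM.near_sq hy hr hrs
    have h4 := pos_of_rs hr hrs
    have h5 := mul_le_mul_of_nonneg_left (mul_le_mul_of_nonneg_right hth (sq_nonneg st.aY)) h4
    linarith
  have k1 := mul_le_mul_of_nonneg_left (key _ _ hx.hx.rU hx.hx.sU)
    (mul_nonneg (Nat.cast_nonneg (α := ℝ) S.kR) (mul_nonneg hx.hx.zU0 hU0))
  have k2 := mul_le_mul_of_nonneg_left (key _ _ hx.rB hx.sB) (mul_nonneg hx.zB0 hB0)
  have e1 : (F.cR S).z = S.kR * (F.x.x.zU * bU (F.pM S) F.x.x) + F.x.zB * F.bB := rfl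
  have e2 : (F.cR S).zs = (F.th * F.th) * (S.kR * (F.x.x.sU * (F.x.x.zU * bU (F.pM S) F.x.x)) +
      F.x.sB * (F.x.zB * F.bB)) := rfl
  have e3 : (F.cR S).w2 = S.kR * (F.x.x.zU * (F.x.x.rU * bU (F.pM S) F.x.x)) +
      F.x.zB * (F.x.rB * F.bB) := rfl
  rw [e1, e2, e3]
  nlinarith

/-! ### the cells -/

/-- the line in one cell -/
def CellL (S : FSL) (l : LL Dec) (s : S4 (PS Dec)) (tc : TC) (dc : Seg (Kn Dec)) : Prop :=
  ∃ (x : FY Dec) (c2 c1 : TSM.CR), (fyOk S x && crOk tc.a x.x c2 c1) = true ∧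
    ∀ lam mu : ℝ, 0 ≤ lam → lam ≤ 1 → 0 ≤ mu → mu ≤ 1 →
    GOK 2 tc.x.th.val ((rFL lam mu tc dc l s x).g2 S) ∧
    GOK 1 tc.x.th.val ((rFL lam mu tc dc l s x).g1 S)

/-- the line in all cells -/
def LineL (tl : List TC) (dl : List (Seg (Kn Dec))) (S : FSL) (l : Kn Dec → LL Dec)
    (s : Kn Dec → S4 (PS Dec)) : Prop :=
  ∀ tc ∈ tl, ∀ dc ∈ dl, tc.a.val + dc.a.val ≤ 1 / 2 → CellL S (l dc.x) (s dc.x) tc dc

/-- a group of a type is nonnegative at a point -/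
lemma gok_at {θ : ℝ} {L2 L1 : List (GP ℝ)} (h2 : GOK 2 θ L2) (h1 : GOK 1 θ L1) {p : Pt}
    (hp : Dom θ p) (ty : ℕ) (hw : (ty = 1 ∨ ty = 2 ∨ ty = 3 → p.w ≤ 1) ∧ (4 ≤ ty → 1 ≤ p.w))
    {g : GP ℝ} (hg0 : ty = 0 → g ∈ L2) (hg1 : ty = 1 ∨ ty = 2 ∨ ty = 3 → g ∈ L1)
    (hg4 : 4 ≤ ty → shG g ∈ L1) (hl : ∀ B ∈ g.2, B.l = 0) :
    ∀ A ∈ g.1, ∀ B ∈ g.2, 0 ≤ A.ev p.u p.v p.a + B.ev p.y p.w p.b := by
  have hd : ∀ W, p.w ≤ W → DomY 2 W θ p := fun W hW =>
    ⟨hp.v0, hp.v2, hp.a0, hp.hu, hp.w0, hW, hp.b0, hp.hy⟩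
  rcases Nat.lt_or_ge ty 4 with h | h
  · rcases Nat.eq_zero_or_pos ty with h0 | h0
    · exact h2 _ (hg0 h0) p (hd 2 hp.w2)
    · exact h1 _ (hg1 (by omega)) p (hd 1 (hw.1 (by omega)))
  · intro A hA B hB
    have h5 := hw.2 h
    have h6 := h1 (shG g) (hg4 h) ⟨p.u, p.v, p.a, p.y - 1, p.w - 1, p.b⟩
      ⟨hp.v0, hp.v2, hp.a0, hp.hu, by simpa using h5, by
        have := hp.w2
        show p.w - 1 ≤ 1
        linarith, hp.b0, by
        have := hp.hy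
        show |p.y - 1 - (p.w - 1)| ≤ _
        rwa [show p.y - 1 - (p.w - 1) = p.y - p.w by ring]⟩ A hA (shF B)
        (List.mem_map.2 ⟨B, hB, rfl⟩)
    have e1 : (shF B).ev (p.y - 1) (p.w - 1) p.b = B.ev p.y p.w p.b := by
      unfold QI.ev shF
      simp only [rAdd, rNsm, hl B hB, Nat.cast_ofNat]
      ring
    rw [e1] at h6
    exact h6

variable {tl : List TC} {dl : List (Seg (Kn Dec))} {d : Seg (Kn Dec)}
  {lf : Kn Dec → LL Dec} {sf : Kn Dec → S4 (PS Dec)}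

/-- the data of the line at a point -/
structure LAtL (tl : List TC) (dl : List (Seg (Kn Dec))) (d : Seg (Kn Dec)) (S : FSL)
    (lf : Kn Dec → LL Dec) (sf : Kn Dec → S4 (PS Dec)) (D a : ℝ) (F : FL ℝ) (x : FY Dec) :
    Prop where
  hE : F.E = enAt tl dl d D a
  hth : th a ≤ F.th
  hl : F.l = (lf (pick dl d D).x).map Dec.val
  hs : F.s = (sf (pick dl d D).x).map (PS.map Dec.val)
  hx : F.x = x.map Dec.val
  hok : fyOk S x = true
  hcr : a ≤ q0 → F.x.x.Cr a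
  h2 : GOK 2 (th a) (F.g2 S)
  h1 : GOK 1 (th a) (F.g1 S)

lemma LineL.at (hc : covers tl dl = true) (hL : LineL tl dl S lf sf) {D a : ℝ}
    (ha : Reg D a) : ∃ F x, LAtL tl dl d S lf sf D a F x := by
  obtain ⟨tc, htc, lam, mu, hI, h2⟩ := enAt_spec (d := d) hc ha
  obtain ⟨x, c2, c1, hx, h3⟩ := hL tc htc _ (covers_sound hc d ⟨ha.1, ha.2.1⟩).1 hI.hs
  rw [Bool.and_eq_true] at hx
  have hta : tc.a.val ≤ a := by
    have h4 := mul_nonneg hI.l0 hI.hw.le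
    have h5 := hI.ht
    linarith
  obtain ⟨g2, g1⟩ := h3 lam mu hI.l0 hI.l1 hI.m0 hI.m1
  have key : ∀ W L, GOK W tc.x.th.val L → GOK W (th a) L := by
    intro W L h g hg p hp
    exact h g hg p ⟨hp.v0, hp.v2, hp.a0, hp.hu.trans (mul_le_mul_of_nonneg_right hI.hth hp.a0),
      hp.w0, hp.w2, hp.b0, hp.hy.trans (mul_le_mul_of_nonneg_right hI.hth hp.b0)⟩
  exact ⟨rFL lam mu tc (pick dl d D) (lf (pick dl d D).x) (sf (pick dl d D).x) x, x,
    h2.symm, hI.hth, rfl, rfl, rfl, hx.1, fun h => crOk_sound hx.2 hta h, key _ _ g2,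
    key _ _ g1⟩

variable {F : FL ℝ} {x : FY Dec}

lemma LAtL.ok (h : LAtL tl dl d S lf sf D a F x) (hc : covers tl dl = true)
    (hs : LOK tl dl sgnL) (ha : Reg D a) : F.E.Ok realHom D a := by
  rw [h.hE]
  exact enAt_ok hc hs ha

lemma LAtL.px (h : LAtL tl dl d S lf sf D a F x) (hc : covers tl dl = true)
    (hs : LOK tl dl sgnL) (ha : Reg D a) : F.px.Ok D a := by
  have hE := h.ok hc hs ha
  exact ⟨hE.ht, hE.hD, hE.hT, hE.hTl, h.hth, hE.hw⟩

/-- the constants of the group of constants are nonnegative -/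
lemma LAtL.cs (h : LAtL tl dl d S lf sf D a F x) : ∀ k ∈ F.cs S, 0 ≤ k := by
  intro k hk
  have h1 := h.h2 (cstG (F.cs S)) (by simp [FL.g2]) ⟨0, 0, 0, 0, 0, 0⟩
    (by constructor <;> simp) (qc k) (List.mem_map.2 ⟨k, hk, rfl⟩) qz0
    (List.mem_singleton.2 rfl)
  simpa [qc, qz0, QI.ev, rZero] using h1

lemma LAtL.rl (h : LAtL tl dl d S lf sf D a F x) : rlOk S x = true := by
  have h1 := h.hok
  unfold fyOk at h1
  simp only [Bool.and_eq_true] at h1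
  exact h1.1.2.2

/-- the bounds of the new `v_y` -/
lemma LAtL.lohi (h : LAtL tl dl d S lf sf D a F x) {y g : ℝ} (hy : y = S.n - q0 * g)
    (hg : GSg S.gs S.gm.val g) (hv : g ^ 2 ≤ S.vm.val) (hl : (lo S.tn : ℝ) ≤ y)
    (hh : y ≤ (hi S.tn : ℝ)) : F.x.m.lo ≤ y ∧ y ≤ F.x.m.hi := by
  obtain ⟨_, _, b2, b4, _⟩ := bdL_sound h.hok
  rw [h.hx]
  have hr := h.rl
  unfold rlOk at hr
  rw [Bool.and_eq_true, Bool.and_eq_true] at hr
  have hg' : GSg S.gs x.x.gm.val g := by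
    rcases hg with h1 | ⟨h1, h2, h3⟩ | ⟨h1, h2, h3⟩
    · exact Or.inl h1
    · exact Or.inr (Or.inl ⟨h1, h2, by linarith⟩)
    · exact Or.inr (Or.inr ⟨h1, h2, by linarith⟩)
  exact ⟨loOk_sound hr.1 hy hg' (hv.trans b2) hl, hiOk_sound hr.2.1 hy hg' (hv.trans b2) hh⟩

/-- the numbers of the regions -/
lemma LAtL.sn (h : LAtL tl dl d S lf sf D a F x) : F.x.sy = S.rg.sy.val ∧
    F.x.su = S.rg.su.val := by
  have hr := h.rl
  unfold rlOk at hr
  simp only [Bool.and_eq_true] at hr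
  rw [h.hx]
  exact ⟨eqD_iff hr.2.2.1, eqD_iff hr.2.2.2.1⟩

lemma LAtL.pn (h : LAtL tl dl d S lf sf D a F x) : 0 ≤ (F.pN S).be ∧ 0 ≤ (F.pN S).de :=
  ⟨h.cs _ (by simp [FL.cs]), h.cs _ (by simp [FL.cs])⟩

lemma LAtL.pok (h : LAtL tl dl d S lf sf D a F x) (hc : covers tl dl = true)
    (hs : LOK tl dl sgnL) (ha : Reg D a) : (F.pM S).Ok := by
  have hE := h.ok hc hs ha
  have hm : F.x.m.Ok := by rw [h.hx]; exact (fyOk_sound h.hok).hm
  obtain ⟨h1, h2⟩ := h.pn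
  have hA := pos_of_rs hm.rA hm.sA
  have hB := pos_of_rs hm.rB hm.sB
  have e1 := hm.eU0
  have e2 := hm.eY0
  have hq1 : 0 ≤ (F.pN S).qU := hE.hqU _
  have hq2 : 0 ≤ (F.pN S).qy := hE.hqy _
  refine ⟨?_, ?_, hE.hlU _, ?_, hE.hly _, ?_⟩
  · show 0 ≤ (1 - F.x.m.eU) * (F.pN S).be
    exact mul_nonneg (by linarith [hm.eU1]) h1
  · show 0 ≤ (1 - F.x.m.eY) * (F.pN S).de
    exact mul_nonneg (by linarith [hm.eY1]) h2
  · show 0 ≤ (F.pN S).qU + F.x.m.sA * (F.th * F.th * (F.x.m.eU * (F.pN S).be))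
    have : 0 ≤ F.th * F.th := mul_self_nonneg _
    positivity
  · show 0 ≤ (F.pN S).qy + F.x.m.sB * (F.th * F.th * (F.x.m.eY * (F.pN S).de))
    have : 0 ≤ F.th * F.th := mul_self_nonneg _
    positivity

/-- the new state with the bounds is above the new state -/
lemma LAtL.pM_le (h : LAtL tl dl d S lf sf D a F x) {s : Sn} (hu : |s.u - s.vU| ≤ th a * s.aU)
    (hy : |s.y - s.vY| ≤ th a * s.aY) (h0 : 0 ≤ s.vU) (h2 : s.vU ≤ 2)
    (hl : F.x.m.lo ≤ s.vY) (hh : s.vY ≤ F.x.m.hi) :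
    (F.pN S).ns.ev s ≤ (F.pM S).ns.ev s := by
  have hm : F.x.m.Ok := by rw [h.hx]; exact (fyOk_sound h.hok).hm
  obtain ⟨hb, hd⟩ := h.pn
  have hA := pos_of_rs hm.rA hm.sA
  have hB := pos_of_rs hm.rB hm.sB
  have ht : th a ^ 2 ≤ F.th * F.th := by
    have h1 := h.hth
    have h2 := th_nonneg a
    nlinarith
  have b1 : s.u ^ 2 ≤ F.x.m.rA * (2 * s.vU) + F.x.m.sA * ((F.th * F.th) * s.aU ^ 2) := by
    have h1 := TSM.near_sq hu hm.rA hm.sA
    have h3 := mul_le_mul_of_nonneg_left (mul_le_mul_of_nonneg_right ht (sq_nonneg s.aU)) hA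
    have h4 : s.vU ^ 2 ≤ 2 * s.vU := by nlinarith
    have h5 := mul_le_mul_of_nonneg_left h4 (show 0 ≤ F.x.m.rA by linarith [hm.rA])
    linarith
  have b2 : s.y ^ 2 ≤ F.x.m.rB * ((F.x.m.lo + F.x.m.hi) * s.vY - F.x.m.lo * F.x.m.hi) +
      F.x.m.sB * ((F.th * F.th) * s.aY ^ 2) := by
    have h1 := TSM.near_sq hy hm.rB hm.sB
    have h3 := mul_le_mul_of_nonneg_left (mul_le_mul_of_nonneg_right ht (sq_nonneg s.aY)) hB
    have h4 : s.vY ^ 2 ≤ (F.x.m.lo + F.x.m.hi) * s.vY - F.x.m.lo * F.x.m.hi := by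
      nlinarith [mul_nonneg (sub_nonneg.2 hl) (sub_nonneg.2 hh)]
    have h5 := mul_le_mul_of_nonneg_left h4 (show 0 ≤ F.x.m.rB by linarith [hm.rB])
    linarith
  have c1 := mul_le_mul_of_nonneg_left b1 (mul_nonneg hm.eU0 hb)
  have c2 := mul_le_mul_of_nonneg_left b2 (mul_nonneg hm.eY0 hd)
  have c3 := mul_nonneg hm.l1 (sub_nonneg.2 h2)
  have c4 := mul_nonneg hm.l2 h0
  have c5 := mul_nonneg hm.l3 (sub_nonneg.2 hh)
  have c6 := mul_nonneg hm.l4 (sub_nonneg.2 hl)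
  have e1 : (F.pM S).ns.ev s = (F.pN S).ns.ev s + F.x.m.l1 * (2 - s.vU) +
      F.x.m.l2 * (s.vU - 0) +
      F.x.m.l3 * (F.x.m.hi - s.vY) + F.x.m.l4 * (s.vY - F.x.m.lo) +
      (F.x.m.eU * (F.pN S).be * (F.x.m.rA * (2 * s.vU) +
        F.x.m.sA * ((F.th * F.th) * s.aU ^ 2)) - F.x.m.eU * (F.pN S).be * s.u ^ 2) +
      (F.x.m.eY * (F.pN S).de * (F.x.m.rB * ((F.x.m.lo + F.x.m.hi) * s.vY -
        F.x.m.lo * F.x.m.hi) + F.x.m.sB * ((F.th * F.th) * s.aY ^ 2)) -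
        F.x.m.eY * (F.pN S).de * s.y ^ 2) := by
    unfold NS.ev NA.ns FL.pM
    simp only [rAdd, rMul, rSub, rNsm, rOne]
    push_cast
    ring
  rw [e1]
  linarith

lemma gR_l (F : FL ℝ) (S : FSL) (ty : ℕ) : ∀ B ∈ (F.gR S ty).2, B.l = 0 := by
  intro B hB
  unfold FL.gR at hB
  by_cases h : S.M = 2
  · simp only [h, if_true, List.mem_cons, List.not_mem_nil, or_false] at hB
    rcases hB with rfl | rfl <;> rfl
  · simp only [h, if_false, List.mem_cons, List.not_mem_nil, or_false] at hB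
    rcases hB with rfl | rfl | rfl | rfl <;> rfl

lemma gL_l (F : FL ℝ) (S : FSL) : ∀ B ∈ (F.gL S).2, B.l = 0 := by
  intro B hB
  simp only [FL.gL, List.mem_cons, List.not_mem_nil, or_false] at hB
  rcases hB with rfl
  rfl

lemma En.ty_m4 (E : En ℝ) (t : ℕ) : E.V.ty (m4 t) = E.V.ty t := by
  rcases t with _ | _ | _ | _ | t
  · rfl
  · rfl
  · rfl
  · rfl
  · have : m4 (t + 4) = 4 := by unfold m4; omega
    rw [this]
    rfl

lemma pdQ_m4 (E : En ℝ) (t : ℕ) : pdQ E (m4 t) = pdQ E t := by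
  rcases t with _ | _ | _ | _ | t
  · rfl
  · rfl
  · rfl
  · rfl
  · have : m4 (t + 4) = 4 := by unfold m4; omega
    rw [this]
    rfl

lemma gR_m4 (F : FL ℝ) (S : FSL) (t : ℕ) : F.gR S (m4 t) = F.gR S t := by
  unfold FL.gR FL.vR
  rw [En.ty_m4, S4.ty_m4, S4.ty_m4, S4.ty_m4]

lemma m4_lt {t : ℕ} (h : t < 4) : m4 t = t := by unfold m4; omega

lemma m4_ge {t : ℕ} (h : 4 ≤ t) : m4 t = 4 := by unfold m4; omega

/-- the group of a child of the rest is nonnegative at a point -/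
lemma LAtL.gr (h : LAtL tl dl d S lf sf D a F x) {p : Pt} (hp : Dom (th a) p) (ty : ℕ)
    (hw : (ty = 1 ∨ ty = 2 ∨ ty = 3 → p.w ≤ 1) ∧ (4 ≤ ty → 1 ≤ p.w)) (ht : m4 ty ∈ S.tys) :
    ∀ A ∈ (F.gR S ty).1, ∀ B ∈ (F.gR S ty).2, 0 ≤ A.ev p.u p.v p.a + B.ev p.y p.w p.b := by
  have key : ∀ t ∈ S.tys, (t = 0 → F.gR S t ∈ F.g2 S) ∧
      (t = 1 ∨ t = 2 ∨ t = 3 → F.gR S t ∈ F.g1 S) ∧ (4 ≤ t → shG (F.gR S t) ∈ F.g1 S) := by
    intro t ht
    unfold FSL.tys at ht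
    simp only [List.mem_append] at ht
    rcases ht with ht | ht | ht
    · by_cases h0 : S.r0 = true
      · simp only [h0, if_true, List.mem_singleton] at ht
        subst ht
        refine ⟨fun _ => by simp [FL.g2, h0], fun h => by omega, fun h => by omega⟩
      · simp [h0] at ht
    · by_cases h0 : S.r1 = true
      · simp only [h0, if_true, List.mem_cons, List.not_mem_nil, or_false] at ht
        refine ⟨fun h => by omega, fun _ => ?_, fun h => by omega⟩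
        rcases ht with rfl | rfl | rfl <;> simp [FL.g1, h0]
      · simp [h0] at ht
    · by_cases h0 : S.r4 = true
      · simp only [h0, if_true, List.mem_singleton] at ht
        subst ht
        refine ⟨fun h => by omega, fun h => by omega, fun _ => by simp [FL.g1, h0]⟩
      · simp [h0] at ht
  obtain ⟨k0, k1, k4⟩ := key _ ht
  rw [gR_m4] at k0 k1 k4
  refine gok_at h.h2 h.h1 hp ty hw (fun h0 => k0 (by rw [h0]; rfl)) (fun h1 => k1 ?_)
    (fun h4 => k4 (by rw [m4_ge h4])) (gR_l F S ty)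
  rw [m4_lt (by omega)]
  exact h1

/-- the group of the child which is split off is nonnegative at a point -/
lemma LAtL.gl (h : LAtL tl dl d S lf sf D a F x) {p : Pt} (hp : Dom (th a) p) (ty : ℕ)
    (hw : (ty = 1 ∨ ty = 2 ∨ ty = 3 → p.w ≤ 1) ∧ (4 ≤ ty → 1 ≤ p.w)) (ht : m4 ty = S.tL) :
    ∀ A ∈ (F.gL S).1, ∀ B ∈ (F.gL S).2, 0 ≤ A.ev p.u p.v p.a + B.ev p.y p.w p.b := by
  refine gok_at h.h2 h.h1 hp ty hw (fun h0 => ?_) (fun h1 => ?_) (fun h4 => ?_) (gL_l F S)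
  · have : S.tL = 0 := by rw [← ht, h0]; rfl
    simp [FL.g2, this]
  · have h5 : S.tL = ty := by rw [← ht, m4_lt (by omega)]
    simp [FL.g1, show ¬ S.tL = 0 by omega, show ¬ S.tL = 4 by omega]
  · have h5 : S.tL = 4 := by rw [← ht, m4_ge h4]
    simp [FL.g1, h5]

variable {K : ℕ} {O : Fin K → OBr} {N : Finset (Fin K)} {σ e ρ : Fin K → Bool} {L : Fin K}
  {tc : Fin K → ℕ}

/-- the sum of the shares of the roles -/
lemma shl_sum {x : FY Dec} (h : fyOk S x = true) (hL : L ∈ N) (hcard : N.card = S.M)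
    (hM : 2 ≤ S.M)
    (hρ0 : Even (N.erase L).card → ∑ i ∈ N.erase L, sg (ρ i) = 0)
    (hρ1 : Odd (N.erase L).card → ∑ i ∈ N.erase L, sg (ρ i) = 1)
    (hO : TSM.FamO O N) (ht : ∀ i ∈ N, tc i = 0 ↔ TSM.tau (O i) = 0)
    (hpa : parOk S.pa (TSM.c1 O N) = true) (htL : m4 (tc L) = S.tL)
    (htR : ∀ i ∈ N, i ≠ L → m4 (tc i) ∈ S.tys) :
    0 ≤ x.dL.val + ∑ i ∈ N.erase L, rsh (ρ i) ((x.dp.map Dec.val).ty (tc i))
      ((x.dm.map Dec.val).ty (tc i)) := by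
  simp only [fyOk, Bool.and_eq_true] at h
  obtain ⟨_, _, _, _, _, _, _, _, _, _, _, _, _, _, _, _, h⟩ := h
  have hc1 : (N.erase L).card + 1 = S.M := by rw [card_erase_add_one hL, hcard]
  have hmem : ∀ i ∈ N.erase L, m4 (tc i) ∈ S.tys := fun i hi =>
    htR i (mem_of_mem_erase hi) (ne_of_mem_erase hi)
  have hdp : ∀ t, (x.dp.map Dec.val).ty t = (x.dp.ty (m4 t)).val := fun t => by
    rw [S4.map_ty, S4.ty_m4]
  have hdm : ∀ t, (x.dm.map Dec.val).ty t = (x.dm.ty (m4 t)).val := fun t => by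
    rw [S4.map_ty, S4.ty_m4]
  unfold shlOk at h
  by_cases h2 : S.M = 2
  · rw [h2] at h
    simp only [List.all_eq_true] at h
    obtain ⟨i, hi⟩ := card_eq_one.mp (show (N.erase L).card = 1 by omega)
    have h3 := hρ1 (by rw [hi]; simp)
    rw [hi, sum_singleton] at h3 ⊢
    have h4 : ρ i = true := by
      cases hr : ρ i
      · rw [hr, sg_false] at h3
        norm_num at h3
      · rfl
    have h5 := Dec.nn_iff (h _ (hmem i (by rw [hi]; simp)))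
    rw [Dec.val_add] at h5
    rw [h4, hdp]
    exact h5
  · by_cases h3 : S.M = 3
    · rw [h3] at h
      simp only [List.all_eq_true] at h
      obtain ⟨i, j, hij, hi⟩ := card_eq_two.mp (show (N.erase L).card = 2 by omega)
      have h4 := hρ0 (by rw [hi, card_pair hij]; exact ⟨1, rfl⟩)
      have hmi : m4 (tc i) ∈ S.tys := hmem i (by rw [hi]; simp)
      have hmj : m4 (tc j) ∈ S.tys := hmem j (by rw [hi]; simp)
      have hsum := sum_nz hO tc ht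
      rw [← add_sum_erase N _ hL, hi, sum_pair hij] at hsum
      rw [← hsum] at hpa
      have hnL : nz S.tL = nz (tc L) := by rw [← htL, nz_m4]
      rw [hi, sum_pair hij] at h4 ⊢
      cases r1 : ρ i <;> cases r2 : ρ j <;> rw [r1, r2] at h4 <;>
        simp only [sg_true, sg_false] at h4 <;> try norm_num at h4
      · have h6 := h _ hmj _ hmi
        rw [nz_m4, nz_m4, hnL] at h6
        rw [show nz (tc L) + nz (tc j) + nz (tc i) = nz (tc L) + (nz (tc i) + nz (tc j)) by ring,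
          hpa, Bool.not_true, Bool.false_or] at h6
        have h7 := Dec.nn_iff h6
        rw [Dec.val_add, Dec.val_add] at h7
        simp only [rsh, Bool.false_eq_true, if_true, if_false, hdp, hdm]
        linarith
      · have h6 := h _ hmi _ hmj
        rw [nz_m4, nz_m4, hnL] at h6
        rw [show nz (tc L) + nz (tc i) + nz (tc j) = nz (tc L) + (nz (tc i) + nz (tc j)) by ring,
          hpa, Bool.not_true, Bool.false_or] at h6
        have h7 := Dec.nn_iff h6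
        rw [Dec.val_add, Dec.val_add] at h7
        simp only [rsh, Bool.false_eq_true, if_true, if_false, hdp, hdm]
        linarith
    · have h' : (Dec.nn x.dL && (Dec.nn x.ep && S.tys.all fun i =>
          Dec.nn (Dec.sub (x.dp.ty i) x.ep) && Dec.nn (Dec.add (x.dm.ty i) x.ep))) = true := by
        rcases hMM : S.M with _ | _ | _ | _ | n
        · omega
        · omega
        · exact absurd hMM h2
        · exact absurd hMM h3
        · rw [hMM] at h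
          exact h
      simp only [Bool.and_eq_true, List.all_eq_true] at h'
      obtain ⟨g1, g2, g3⟩ := h'
      have g1 := Dec.nn_iff g1
      have g2 := Dec.nn_iff g2
      have hs0 : 0 ≤ ∑ i ∈ N.erase L, sg (ρ i) := by
        rcases Nat.even_or_odd (N.erase L).card with hE | hE
        · rw [hρ0 hE]
        · rw [hρ1 hE]
          norm_num
      have h5 : ∑ i ∈ N.erase L, x.ep.val * sg (ρ i) ≤
          ∑ i ∈ N.erase L, rsh (ρ i) ((x.dp.map Dec.val).ty (tc i))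
            ((x.dm.map Dec.val).ty (tc i)) := by
        refine sum_le_sum fun i hi => ?_
        have h6 := g3 _ (hmem i hi)
        have h7 := Dec.nn_iff h6.1
        have h8 := Dec.nn_iff h6.2
        rw [Dec.val_sub] at h7
        rw [Dec.val_add] at h8
        rw [hdp, hdm]
        cases ρ i
        · simp only [rsh, Bool.false_eq_true, if_false, sg_false]
          linarith
        · simp only [rsh, if_true, sg_true]
          linarith
      rw [← mul_sum] at h5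
      have := mul_nonneg g2 hs0
      linarith

/-- **one line of a family, a nontrivial child is split off** -/
theorem LAtL.line (h : LAtL tl dl d S lf sf D a F x) (hc : covers tl dl = true)
    (hs : LOK tl dl sgnL) (ha : Reg D a) (haq : a < q0) {v2m : ℝ}
    (hS : FamL O N σ e ρ L S.M S.f.val S.f2 S.n S.nL S.nR S.vm.val S.fv.val v2m S.kL S.kR)
    (hgs : GSg S.gs S.gm.val ((TSM.gU e O).eval q0))
    (hv2 : v2m = if S.vR = 0 then vY (O L) ^ 2 else (S.vR : ℝ))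
    (hn : S.n ≤ 1) (hM : 2 ≤ S.M) (hcard : N.card = S.M)
    (hρ0 : Even (N.erase L).card → ∑ i ∈ N.erase L, sg (ρ i) = 0)
    (hρ1 : Odd (N.erase L).card → ∑ i ∈ N.erase L, sg (ρ i) = 1)
    (ht : ∀ i ∈ N, tc i = 0 ↔ TSM.tau (O i) = 0)
    (hA : ∀ i ∈ N, Adm (tc i) (vU (O i)) (vY (O i)) (aU (O i)) (aY (O i)))
    (hpa : parOk S.pa (TSM.c1 O N) = true) (hrg : S.rg.At O N)
    (hlo : (lo S.tn : ℝ) ≤ vY (TSM.fam σ e O)) (hhi : vY (TSM.fam σ e O) ≤ hi S.tn)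
    (htL : m4 (tc L) = S.tL) (htR : ∀ i ∈ N, i ≠ L → m4 (tc i) ∈ S.tys)
    (hpay : ∀ ty, (((sf (pick dl d D).x).map (PS.map Dec.val)).ty ty).Ok) (hl : F.l.Sg) (ty : ℕ) :
    ∃ (p : NS) (vm κ : ℝ) (c : CT) (kU x1 v1 a1 : ℝ) (sh : Fin K → ℝ),
      (F.pN S).ns.ev ((chd ty (TSM.fam σ e O)).sn a) ≤ p.ev ((chd ty (TSM.fam σ e O)).sn a) ∧
      (TSM.gU e O).eval q0 ^ 2 ≤ vm ∧
      0 ≤ F.ld.BG a ∧ Wt (F.ld.BU a) 0 0 (S.M - 1) S.f2 (th a) v2m 1 kU x1 v1 a1 ∧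
      Spl p a S.M S.f.val S.n vm S.fv.val κ c S.fg.val ∧
      (∀ i ∈ N, i ≠ L → sh i + (((sf (pick dl d D).x).map (PS.map Dec.val)).ty (tc i)).pv (O i) *
          D * (1 - D / (q0 - a)) +
        (F.ld.cR c S.M S.nL S.nR S.kR x1 v1 a1 a).ev (sg (σ i)) (sg (e i)) (sg (ρ i))
          ((chd (tc i) (O i)).sn a) ≤ VV tl dl d D a ((chd (tc i) (O i)).sn a)) ∧
      sh L + (((sf (pick dl d D).x).map (PS.map Dec.val)).ty (tc L)).pv (O L) * D *
          (1 - D / (q0 - a)) +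
        (F.ld.cL c S.nL S.nR S.kL a).ev 1 (sg (e L)) 1 ((chd (tc L) (O L)).sn a) ≤
          VV tl dl d D a ((chd (tc L) (O L)).sn a) -
            F.l.zL * PP' dl d D a ((chd (tc L) (O L)).sn a) ∧
      F.ld.k0 κ kU S.nL S.nR a - F.l.g0 - F.l.r0 - F.l.ke ≤ ∑ i ∈ N, sh i := by
  have hE := h.ok hc hs ha
  have hP := h.px hc hs ha
  have hp := h.pok hc hs ha
  have ht' : F.E.t = a := hE.ht
  have ha0 := ha.2.2.1
  have hx : F.x.Ok S.M := by rw [h.hx]; exact fyOk_sound h.hok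
  have hO := hS.hW.hO
  have hLN := hS.hL
  have hM1 : 1 ≤ S.M := by omega
  have hcs := h.cs
  have hq := TSM.q0_pos
  obtain ⟨g, hg⟩ : ∃ g, g = (TSM.gU e O).eval q0 := ⟨_, rfl⟩
  have eY : vY (TSM.fam σ e O) = S.n - q0 * g := by
    rw [hg]
    unfold vY
    rw [hS.hW.hY, Polynomial.eval_sub, Polynomial.eval_C, Polynomial.eval_mul,
      Polynomial.eval_X]
  have hy0 : 0 ≤ vY (TSM.fam σ e O) := (Nat.cast_nonneg _).trans hlo
  have hy2 : vY (TSM.fam σ e O) ≤ 2 := by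
    have h1 : ((hi S.tn : ℕ) : ℝ) ≤ 2 := by
      have : hi S.tn ≤ 2 := by
        rcases S.tn with _ | _ | _ | _ | n <;> simp [hi]
      exact_mod_cast this
    linarith
  have hlh := h.lohi eY (by rw [hg]; exact hgs) (by rw [hg]; exact hS.hW.hG2) hlo hhi
  have hnew := h.pM_le (s := (chd ty (TSM.fam σ e O)).sn a)
    (TSM.U_near (TSM.fam σ e O) ha0 haq.le) (TSM.Y_near (TSM.fam σ e O) ha0 haq.le)
    hS.hW.hU0 hS.hW.hU2 hlh.1 hlh.2
  have hww : 0 ≤ wwG F.px (F.pM S) F.x.x := hcs _ (by simp [FL.cs])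
  set p := F.pM S with hpd
  obtain ⟨hb1, hb2, hb3, hb4, hb5⟩ := bdL_sound h.hok
  have hfe : F.x.x.fe = S.f.val := by rw [h.hx]; exact hb1
  have hfv : F.x.x.fv = S.fv.val := by rw [h.hx]; exact hb2
  have hfg : F.x.x.fg = S.fg.val := by rw [h.hx]; exact hb5
  have hvmx : S.vm.val ≤ F.x.x.vm := by rw [h.hx]; exact hb3
  have hgmx : S.gm.val ≤ F.x.x.gm := by rw [h.hx]; exact hb4
  have hgs' : GSg S.gs F.x.x.gm g := by
    rw [← hg] at hgs
    rcases hgs with h1 | ⟨h1, h2, h3⟩ | ⟨h1, h2, h3⟩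
    · exact Or.inl h1
    · exact Or.inr (Or.inl ⟨h1, h2, by linarith⟩)
    · exact Or.inr (Or.inr ⟨h1, h2, by linarith⟩)
  obtain ⟨vm, hvm, hkap⟩ := kap_mix (P := F.px) (p := p) (n := S.n) hx.hx hgs'
    (by rw [hg]; exact hS.hW.hG2.trans hvmx)
  obtain ⟨c, hcd⟩ : ∃ c, c = (F.c0 S).ct p.cv p.dv := ⟨_, rfl⟩
  obtain ⟨yg, hyg⟩ : ∃ yg, yg = yyG F.px p F.x.x S.gs := ⟨_, rfl⟩
  have hspl := spl_of hP hp hx.hx (h.hcr haq.le) hww
    (Nat.cast_nonneg (α := ℝ) S.M)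
    (⟨rfl, rfl, rfl⟩ : F.x.x.Num S.M S.M) hn (vm := vm)
  rw [hkap, ← hyg, hfe, hfv, hfg] at hspl
  have hwt := wt_of hl hx ht' ha0 h.hth hM1 v2m
  obtain ⟨_, hbg⟩ := BG_le (S := S) hl hx ht' ha0
  -- bounds for the factor of `v_U`
  have hdd : dLo F.px p F.x.m.l3 ≤ q0 * p.dv ∧ q0 * p.dv ≤ dHi F.px p F.x.m.l3 :=
    dLo_le hP hx.hm.l3 (hcs (Ar.add (F.pM S).dv F.x.m.l3) (by simp [FL.cs]))
  have hW1 : F.wp S ≤ q0 * p.dv + yg := add_le_add hdd.1 (le_of_eq hyg.symm)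
  have hW2 : q0 * p.dv + yg ≤ F.wm S := add_le_add hdd.2 (le_of_eq hyg)
  have hdom : ∀ i ∈ N, Dom (th a) (pt ((chd (tc i) (O i)).sn a)) := fun i _ =>
    dom_of (TSM.chd_ok (tc i) (hO.hI i)) ha0 haq.le
  have hkE : F.E.k = knAt dl d D := by rw [h.hE]; exact enAt_k hc ha
  have hVE : F.E.V = (enAt tl dl d D a).V := by rw [h.hE]
  have hVV : ∀ i, (((F.E.V.ty (tc i)).na).ns).ev ((chd (tc i) (O i)).sn a) =
      VV tl dl d D a ((chd (tc i) (O i)).sn a) := by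
    intro i
    rw [vt_ev, hVE]
    rfl
  obtain ⟨ex, hex⟩ : ∃ ex : Fin K → ℝ, ∀ i, ex i = (F.s.ty (tc i)).vU * vU (O i) +
      (F.s.ty (tc i)).aU * aU (O i) ^ 2 + (F.s.ty (tc i)).vY * vY (O i) +
      (F.s.ty (tc i)).aY * aY (O i) ^ 2 := ⟨_, fun _ => rfl⟩
  have hz : F.E.zp ≤ -(D * (1 - D / (q0 - a))) := by
    have h1 := hP.hw haq
    have h2 : F.E.D = D := hP.hD
    show F.E.D2 * F.E.w - F.E.D ≤ _
    rw [h2]
    have h3 : F.E.D2 * F.E.w ≤ D * (D / (q0 - a)) := h1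
    linarith
  have hex0 : ∀ i, F.E.zp * ex i ≤ -(ex i * D * (1 - D / (q0 - a))) := by
    intro i
    have h1 : 0 ≤ ex i := by
      rw [hex, h.hs]
      exact (hpay _).ext (hO.hI i)
    have h2 := mul_le_mul_of_nonneg_right hz h1
    linarith
  have hpv : ∀ i, (((sf (pick dl d D).x).map (PS.map Dec.val)).ty (tc i)).pv (O i) =
      (F.s.ty (tc i)).c + ex i := by
    intro i
    rw [hex, ← h.hs]
    rfl
  refine ⟨p.ns, vm, kapA F.px p F.x.x S.n S.gs - yg * g, c, v2m * F.Z1,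
    ((S.M - 1 : ℕ) : ℝ) * (F.x.fB * F.BU), F.x.zB * (F.x.rB * F.bB),
    S.f2 * (F.x.sB * ((F.th * F.th) * F.bB)),
    fun i => (if i = L then F.x.cL * F.ka S + F.x.dL +
      (if S.vR = 0 then F.Z1 else 0) * vY (O L) ^ 2
      else F.x.cR * F.ka S + rsh (ρ i) (F.x.dp.ty (tc i)) (F.x.dm.ty (tc i))) -
      yg * (sg (e i) * vU (O i)) - F.lm S * vY (O i) - F.ln S * vU (O i),
    hnew, by rw [← hg]; exact hvm, hbg, hwt, ?_, fun i hi hiL => ?_, ?_, ?_⟩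
  · rw [hcd]
    exact hspl
  · -- a child of the rest
    beta_reduce
    rw [if_neg hiL]
    have hI := hO.hI i
    have hg := h.gr (hdom i hi) (tc i) (hA i hi) (htR i hi hiL)
    have hnear := TSM.Y_near (O i) ha0 haq.le
    have hcb := cb_le (V := F.vR S (tc i)) (c := F.cR S) hP haq (W := q0 * p.dv + yg)
      hW1 hW2 (F.x.cR * F.ka S) (rsh (ρ i) (F.x.dp.ty (tc i)) (F.x.dm.ty (tc i)))
      (F.s.ty (tc i)).c (by rw [h.hs]; exact (hpay _).c) ((chd (tc i) (O i)).sn a) hI.2.1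
      (σ i) (e i)
      (ρ i) (fun _ => cR_near hP hl hx hp ht' ha0 hnear)
    have hle := cR_le (S := S) hl hx ht' ha0 hM1 (q0 * p.dv + yg) (sg (σ i)) (sg (e i))
      (sg (ρ i)) ((chd (tc i) (O i)).sn a)
    have h0 : 0 ≤ (cbU F.px (F.vR S (tc i)) (F.cR S) (F.x.cR * F.ka S) (F.s.ty (tc i)).c
          (e i)).ev ((chd (tc i) (O i)).sn a).u ((chd (tc i) (O i)).sn a).vU
          ((chd (tc i) (O i)).sn a).aU +
        (cbY (F.vR S (tc i)) (F.cR S) (rsh (ρ i) (F.x.dp.ty (tc i)) (F.x.dm.ty (tc i)))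
          (σ i) (ρ i)).ev ((chd (tc i) (O i)).sn a).y
          ((chd (tc i) (O i)).sn a).vY ((chd (tc i) (O i)).sn a).aY := by
      refine hg _ ?_ _ ?_
      · cases e i <;> simp [FL.gR, rMul]
      · by_cases hM2 : S.M = 2
        · have h1 : ρ i = true := by
            have h2 : (N.erase L).card = 1 := by
              have := card_erase_add_one hLN
              omega
            obtain ⟨j, hj⟩ := card_eq_one.mp h2
            have h3 := hρ1 (by rw [h2]; exact odd_one)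
            have h4 : i = j := by
              have : i ∈ N.erase L := mem_erase.mpr ⟨hiL, hi⟩
              rw [hj, mem_singleton] at this
              exact this
            rw [hj, sum_singleton, ← h4] at h3
            cases hr : ρ i
            · rw [hr, sg_false] at h3
              norm_num at h3
            · rfl
          rw [h1]
          cases σ i <;> simp [FL.gR, rsh]
        · cases σ i <;> cases ρ i <;> simp [FL.gR, rsh, hM2]
    have hvR : (F.vR S (tc i)).ns.ev ((chd (tc i) (O i)).sn a) =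
        VV tl dl d D a ((chd (tc i) (O i)).sn a) + F.lm S * vY (O i) + F.ln S * vU (O i) +
          F.E.zp * ex i := by
      unfold FL.vR
      rw [pay_ev, hVV, hex]
    have hxi := hex0 i
    have hvUi : ((chd (tc i) (O i)).sn a).vU = vU (O i) := rfl
    rw [hvR] at hcb
    rw [hvUi] at hle
    rw [hcd, hpv]
    linarith
  · -- the child which is split off
    beta_reduce
    rw [if_pos rfl]
    have hI := hO.hI L
    have hg := h.gl (hdom L hLN) (tc L) (hA L hLN) htL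
    have hcb := cb_le (V := F.vL S) (c := F.cL S) hP haq (W := q0 * p.dv + yg)
      hW1 hW2 (F.x.cL * F.ka S) F.x.dL (F.s.ty S.tL).c (by rw [h.hs]; exact (hpay _).c)
      ((chd (tc L) (O L)).sn a) hI.2.1 true (e L) true (fun h => by simp at h)
    have heq := cL_eq (F := F) (S := S) ht' (q0 * p.dv + yg) 1 (sg (e L)) 1
      ((chd (tc L) (O L)).sn a)
    have h0 : 0 ≤ (cbU F.px (F.vL S) (F.cL S) (F.x.cL * F.ka S) (F.s.ty S.tL).c
          (e L)).ev ((chd (tc L) (O L)).sn a).u ((chd (tc L) (O L)).sn a).vU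
          ((chd (tc L) (O L)).sn a).aU +
        (cbY (F.vL S) (F.cL S) F.x.dL true true).ev ((chd (tc L) (O L)).sn a).y
          ((chd (tc L) (O L)).sn a).vY ((chd (tc L) (O L)).sn a).aY := by
      refine hg _ ?_ _ (by simp [FL.gL])
      have hlab := hS.hlab
      cases he : e L
      · rw [he, sg_false] at hlab
        have h1 : S.nL ≠ 1 := by
          intro h1
          rw [h1] at hlab
          rcases hI.1 with h2 | h2 <;> rw [h2] at hlab <;> norm_num at hlab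
        simp [FL.gL, h1, rMul]
      · rw [he, sg_true] at hlab
        have h1 : S.nL ≠ -1 := by
          intro h1
          rw [h1] at hlab
          rcases hI.1 with h2 | h2 <;> rw [h2] at hlab <;> norm_num at hlab
        simp [FL.gL, h1, rMul]
    have hsL : F.s.ty S.tL = F.s.ty (tc L) := by rw [← htL, S4.ty_m4]
    have hvL : (F.vL S).ns.ev ((chd (tc L) (O L)).sn a) =
        VV tl dl d D a ((chd (tc L) (O L)).sn a) -
          F.l.zL * PP' dl d D a ((chd (tc L) (O L)).sn a) + F.lm S * vY (O L) +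
          F.ln S * vU (O L) + F.E.zp * ex L := by
      have h6 : (F.vL S) = (((F.E.V.ty (tc L)).na).sub F.l.zL (pdQ F.E (tc L))).pay (F.lm S)
          (F.ln S) (F.s.ty (tc L)) F.E.zp := by
        unfold FL.vL
        rw [← htL, En.ty_m4, pdQ_m4, S4.ty_m4]
      have h7 : ((pdQ F.E (tc L)).q5).ev ((chd (tc L) (O L)).sn a) =
          PP' dl d D a ((chd (tc L) (O L)).sn a) := by
        have := pd_ev hE ((chd (tc L) (O L)).sn a)
        rw [hkE] at this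
        exact this
      rw [h6, pay_ev, ← h7, ← hVV L, ← hex]
      congr 3
      unfold NA.sub NA.add NS.ev NA.ns Q5.ev QA.q5
      simp only [rAdd, rNeg, rMul]
      ring
    have hvYL : ((chd (tc L) (O L)).sn a).vY = vY (O L) := rfl
    have hvUL : ((chd (tc L) (O L)).sn a).vU = vU (O L) := rfl
    rw [hvL, sg_true, heq] at hcb
    rw [hvYL, hvUL] at hcb h0
    have hxi := hex0 L
    rw [hsL] at hcb h0
    rw [hcd, hpv]
    linarith
  · -- the constants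
    have hsh := shl_sum (x := x) (ρ := ρ) (tc := tc) h.hok hLN hcard hM hρ0 hρ1 hO ht hpa htL htR
    have hsG : ∑ i ∈ N, sg (e i) * vU (O i) = g := by
      rw [hg, TSM.FamS.G_eq, ← sum_subset (subset_univ N)]
      · rfl
      · intro i _ hi
        rw [hO.UU0 hi, Polynomial.eval_zero, mul_zero]
    rw [sum_sub_distrib, sum_sub_distrib, sum_sub_distrib, ← mul_sum, ← mul_sum, ← mul_sum, hsG,
      ← add_sum_erase N (fun i => if i = L then F.x.cL * F.ka S + F.x.dL +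
        (if S.vR = 0 then F.Z1 else 0) * vY (O L) ^ 2
        else F.x.cR * F.ka S + rsh (ρ i) (F.x.dp.ty (tc i)) (F.x.dm.ty (tc i))) hLN, if_pos rfl]
    have e1 : ∑ i ∈ N.erase L, (if i = L then F.x.cL * F.ka S + F.x.dL +
        (if S.vR = 0 then F.Z1 else 0) * vY (O L) ^ 2
        else F.x.cR * F.ka S + rsh (ρ i) (F.x.dp.ty (tc i)) (F.x.dm.ty (tc i))) =
        ((S.M - 1 : ℕ) : ℝ) * (F.x.cR * F.ka S) +
          ∑ i ∈ N.erase L, rsh (ρ i) (F.x.dp.ty (tc i)) (F.x.dm.ty (tc i)) := by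
      have e2 : ∀ i ∈ N.erase L, (if i = L then F.x.cL * F.ka S + F.x.dL +
          (if S.vR = 0 then F.Z1 else 0) * vY (O L) ^ 2
          else F.x.cR * F.ka S + rsh (ρ i) (F.x.dp.ty (tc i)) (F.x.dm.ty (tc i))) =
          F.x.cR * F.ka S + rsh (ρ i) (F.x.dp.ty (tc i)) (F.x.dm.ty (tc i)) :=
        fun i hi => if_neg (ne_of_mem_erase hi)
      rw [sum_congr rfl e2, sum_add_distrib, sum_const, nsmul_eq_mul]
      congr 2
      rw [card_erase_of_mem hLN, hcard]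
    rw [e1]
    obtain ⟨n1, n2⟩ := h.sn
    have hlr : F.lm S * ∑ i ∈ N, vY (O i) ≤ F.x.sy * F.lm S := by
      have hm := hx.lr
      rw [n1]
      rcases hrg.1 with h1 | ⟨h1, h2⟩ | ⟨h1, h2⟩
      · have : F.lm S = 0 := by unfold FL.lm; rw [h1]; rfl
        rw [this]
        norm_num
      · have : F.lm S = F.x.lr := by unfold FL.lm; rw [h1]; rfl
        rw [this]
        nlinarith
      · have : F.lm S = -F.x.lr := by
          unfold FL.lm
          obtain ⟨r, hr⟩ : ∃ r, S.rg.rg = r + 2 := ⟨S.rg.rg - 2, by omega⟩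
          rw [hr]
          rfl
        rw [this]
        nlinarith
    have hlu : F.ln S * ∑ i ∈ N, vU (O i) ≤ F.x.su * F.ln S := by
      have hm := hx.lu
      rw [n2]
      rcases hrg.2 with h1 | ⟨h1, h2⟩ | ⟨h1, h2⟩
      · have : F.ln S = 0 := by unfold FL.ln; rw [h1]; rfl
        rw [this]
        norm_num
      · have : F.ln S = F.x.lu := by unfold FL.ln; rw [h1]; rfl
        rw [this]
        nlinarith
      · have : F.ln S = -F.x.lu := by
          unfold FL.ln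
          obtain ⟨r, hr⟩ : ∃ r, S.rg.ru = r + 2 := ⟨S.rg.ru - 2, by omega⟩
          rw [hr]
          rfl
        rw [this]
        nlinarith
    have hdL : F.x.dL = x.dL.val := by rw [h.hx]; rfl
    have hdp : F.x.dp = x.dp.map Dec.val := by rw [h.hx]; rfl
    have hdm : F.x.dm = x.dm.map Dec.val := by rw [h.hx]; rfl
    rw [← hdL, ← hdp, ← hdm] at hsh
    have h1 : F.x.cL * F.ka S + ((S.M - 1 : ℕ) : ℝ) * (F.x.cR * F.ka S) = F.ka S := by
      have h2 : (F.x.cL + ((S.M - 1 : ℕ) : ℝ) * F.x.cR) * F.ka S = 1 * F.ka S := by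
        rw [hx.hc]
      linarith
    have hks := hx.ks
    have hvv : v2m * F.Z1 = (if S.vR = 0 then F.Z1 else 0) * vY (O L) ^ 2 + S.vR * F.Z1 := by
      rw [hv2]
      by_cases h0 : S.vR = 0
      · rw [if_pos h0, if_pos h0, h0]
        push_cast
        ring
      · rw [if_neg h0, if_neg h0]
        ring
    have hkk : F.ka S = kapA F.px p F.x.x S.n S.gs + S.vR * F.Z1 + (F.l.al * (a * (S.nL * S.nR)) +
        F.l.la * (1 + a * (S.nL : ℝ) ^ 2) + (S.nR : ℝ) ^ 2 * (F.l.MY + F.l.b * a)) +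
        (F.x.ks + (F.x.sy * F.lm S + F.x.su * F.ln S)) -
        (S.nR * F.l.r1 + (S.nR : ℝ) ^ 2 * F.l.r2 + (S.nL * F.l.g1 + (S.nL : ℝ) ^ 2 * F.l.g2)) -
        (F.l.g0 + F.l.r0 + F.l.ke) := by
      unfold FL.ka
      simp only [rAdd, rMul, rSub, rNsm, rZsm, ht', ← hpd]
      push_cast
      ring
    have e3 : F.ld.k0 (kapA F.px p F.x.x S.n S.gs - yg * g) (v2m * F.Z1) S.nL S.nR a =
        kapA F.px p F.x.x S.n S.gs - yg * g + v2m * F.Z1 +
        F.l.al * (a * (S.nL * S.nR)) + F.l.la * (1 + a * (S.nL : ℝ) ^ 2) +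
        F.l.b * (a * (S.nR : ℝ) ^ 2) + F.l.MY * (S.nR : ℝ) ^ 2 -
        (F.l.r1 * S.nR + F.l.r2 * (S.nR : ℝ) ^ 2) -
        (F.l.g1 * S.nL + F.l.g2 * (S.nL : ℝ) ^ 2) := rfl
    rw [e3, hvv]
    linarith

end Pool.Agent.TSG
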