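import Pool.Agent.TSG.FamR
import Pool.Agent.TSM.Kinds

set_option autoImplicit false

/-!
# The lines of a family from the groups of the children (MP_d27362_co)
-/

namespace Pool.Agent.TSG

open Finset
open Pool.Agent.TSC (Ar Hom ArHom QI pmap pev realHom)
open Pool.Agent.TSM (Sn NS CT Spl Wt FamS FamT chd vU vY aU aY q0 Reg RD Inv ItD c1 FamK)
open Pool.Agent.TSR (OBr sg_true sg_false)
open Pool.Agent.TLT (sg)

/-- all the sums of a group are nonnegative at a state -/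
def GNn (g : GP ℝ) (s : Sn) : Prop :=
  ∀ F ∈ g.1, ∀ G ∈ g.2, 0 ≤ F.ev s.u s.vU s.aU + G.ev s.y s.vY s.aY

/-- the share of the role -/
def rsh (b : Bool) (x y : ℝ) : ℝ := if b then x else y

variable {K : ℕ} {O : Fin K → OBr} {N : Finset (Fin K)} {σ e ρ : Fin K → Bool}
  {m D a : ℝ} {M n : ℕ}

/-- the sign of the value of `G` -/
def GSg (gs : ℕ) (gm g : ℝ) : Prop :=
  gs = 0 ∨ (gs = 1 ∧ g ≤ 0 ∧ -gm ≤ g) ∨ (2 ≤ gs ∧ 0 ≤ g ∧ g ≤ gm)

/-- the constant of a line for the mixed bound of the value of `G` -/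
lemma kap_mix {P : PX ℝ} {p : NA ℝ} {x : SX ℝ} (hx : x.Ok) {gs : ℕ} {g : ℝ}
    (hg : GSg gs x.gm g) (h3 : g ^ 2 ≤ x.vm) :
    ∃ vm, g ^ 2 ≤ vm ∧ kapR P p x n vm = kapA P p x n gs - yyG P p x gs * g := by
  obtain ⟨θ, hθ0, hθ1, hθ⟩ : ∃ θ : ℝ, 0 ≤ θ ∧ θ ≤ 1 ∧ (1 - x.zG) * θ = x.yG := by
    rcases eq_or_ne (1 - x.zG) 0 with h | h
    · refine ⟨0, le_rfl, zero_le_one, ?_⟩
      have h1 := hx.yG0
      have h2 := hx.zG1
      rw [mul_zero]
      linarith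
    · have h1 := hx.yG0
      have h2 := hx.zG1
      have h3 : 0 < 1 - x.zG := lt_of_le_of_ne (by linarith) (Ne.symm h)
      refine ⟨x.yG / (1 - x.zG), by positivity, (div_le_one h3).2 (by linarith), ?_⟩
      field_simp
  rcases hg with rfl | ⟨rfl, g1, g2⟩ | ⟨h2, g1, g2⟩
  · refine ⟨x.vm, h3, ?_⟩
    simp only [kapR, kapA, yyG, yzG, rAdd, rMul, rSub, rOne, rNsm, rZero, rNeg, if_true]
    rw [if_neg (by norm_num)]
    push_cast
    ring
  · refine ⟨x.vm * (1 - θ) + θ * (-(x.gm * g)), ?_, ?_⟩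
    · have h4 : g ^ 2 ≤ -(x.gm * g) := by nlinarith
      nlinarith [mul_nonneg (sub_nonneg.2 hθ1) (sub_nonneg.2 h3),
        mul_nonneg hθ0 (sub_nonneg.2 h4)]
    · simp only [kapR, kapA, yyG, yzG, rAdd, rMul, rSub, rOne, rNsm, if_true]
      rw [if_neg (by norm_num), ← hθ]
      push_cast
      ring
  · refine ⟨x.vm * (1 - θ) + θ * (x.gm * g), ?_, ?_⟩
    · have h4 : g ^ 2 ≤ x.gm * g := by nlinarith
      nlinarith [mul_nonneg (sub_nonneg.2 hθ1) (sub_nonneg.2 h3),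
        mul_nonneg hθ0 (sub_nonneg.2 h4)]
    · simp only [kapR, kapA, yyG, yzG, rAdd, rMul, rSub, rOne, rNsm, rNeg]
      rw [if_neg (by omega), if_neg (by omega), ← hθ]
      push_cast
      ring

/-- **one line of a family**, the total inequality; `A` is an additional constant -/
theorem famLine' {x : SX ℝ} {z : Bool} (hS : FamS O N σ e ρ m x.fe n x.vm x.fv x.fg z)
    (hz : z = true → x.zU = 0) {P : PX ℝ} {p : NA ℝ}
    (hP : P.Ok D a) (hp : p.Ok) (hx : x.Ok) (hcr : x.Cr a) (hw : 0 ≤ wwG P p x) (hm : 0 ≤ m)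
    (hM : x.Num m M) (hn : n ≤ 1) (ha : Reg D a) (haq : a < q0) {gs : ℕ}
    (hgs : GSg gs x.gm ((TSM.gU e O).eval q0)) {mm : ℝ} (hmm : 0 ≤ mm) (hdm : 0 ≤ p.dv + mm)
    (tc : Fin K → ℕ)
    (Vc : Fin K → NA ℝ) (kk dp dm s : Fin K → ℝ) (hs : ∀ i ∈ N, 0 ≤ s i)
    (hG : ∀ i ∈ N, 0 ≤ (famU P (Vc i) p (ctA P p x M n) (kk i) (s i) (yyG P p x gs) mm (e i)).ev
          ((chd (tc i) (O i)).sn a).u ((chd (tc i) (O i)).sn a).vU
          ((chd (tc i) (O i)).sn a).aU +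
        (famY P (Vc i) p x (ctA P p x M n) (Ar.mul x.zU (bU p x))
          (rsh (ρ i) (dp i) (dm i)) (σ i) (ρ i)).ev ((chd (tc i) (O i)).sn a).y
          ((chd (tc i) (O i)).sn a).vY ((chd (tc i) (O i)).sn a).aY) (A : ℝ)
    (hκ : kapA P p x n gs + A ≤ ∑ i ∈ N, kk i) (hd : 0 ≤ ∑ i ∈ N, rsh (ρ i) (dp i) (dm i))
    (ty : ℕ) :
    p.ns.ev ((chd ty (TSM.fam σ e O)).sn a) + A +
      (∑ i ∈ N, s i * D) * (1 - D / (q0 - a)) ≤
        ∑ i ∈ N, (Vc i).ns.ev ((chd (tc i) (O i)).sn a) := by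
  obtain ⟨g, hg⟩ : ∃ g, g = (TSM.gU e O).eval q0 := ⟨_, rfl⟩
  have hg3 : g ^ 2 ≤ x.vm := by rw [hg]; exact hS.hG2
  rw [← hg] at hgs
  obtain ⟨vm, hvm, hkap⟩ := kap_mix (P := P) (p := p) (n := n) hx hgs hg3
  have hS' : FamS O N σ e ρ m x.fe n vm x.fv x.fg z :=
    ⟨hS.hO, hS.hm, hS.hU0, hS.hU2, hS.hU3, hS.hUa, hS.hY, by rw [← hg]; exact hvm, hS.hG3,
      hS.hGa⟩
  have hsp := spl_of (n := n) hP hp hx hcr hw hm hM hn (vm := vm)
  have e1 := hS'.total ha.2.2.1 haq.le hsp ty tc (fun h => by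
    show Ar.mul x.zU (Ar.mul x.rU (bU p x)) = (0 : ℝ)
    rw [hz h, rMul, zero_mul])
  rw [hkap] at e1
  have e2 : ∑ i, ((ctA P p x M n).ct p.cv p.dv).ev (sg (σ i)) (sg (e i)) (sg (ρ i))
        ((chd (tc i) (O i)).sn a) =
      ∑ i ∈ N, ((ctA P p x M n).ct p.cv p.dv).ev (sg (σ i)) (sg (e i)) (sg (ρ i))
        ((chd (tc i) (O i)).sn a) := by
    rw [← sum_subset (subset_univ N)]
    intro i _ hi
    exact hS.hO.ct0 hi _ _ _ _ _ _
  have e3 : ∑ i ∈ N, (kk i + rsh (ρ i) (dp i) (dm i) + s i * D * (1 - D / (q0 - a)) +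
      ((ctA P p x M n).ct p.cv p.dv).ev (sg (σ i)) (sg (e i)) (sg (ρ i))
        ((chd (tc i) (O i)).sn a) - yyG P p x gs * (sg (e i) * vU (O i))) ≤
      ∑ i ∈ N, (Vc i).ns.ev ((chd (tc i) (O i)).sn a) := by
    refine sum_le_sum fun i hi => ?_
    have hI := hS.hO.hI i
    have h1 := famG_le hP hp hx haq (V := Vc i) M n (kk i) (rsh (ρ i) (dp i) (dm i)) (s i)
      (yyG P p x gs) hmm hdm (hs i hi) ((chd (tc i) (O i)).sn a) hI.2.1
      (TSM.Y_near (O i) ha.2.2.1 haq.le) (σ i) (e i) (ρ i)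
    have h2 := hG i hi
    have h3 : ((chd (tc i) (O i)).sn a).vU = vU (O i) := rfl
    rw [h3] at h1 h2
    linarith
  have e4 : ∑ i ∈ N, yyG P p x gs * (sg (e i) * vU (O i)) = yyG P p x gs * g := by
    rw [← mul_sum, hg, FamS.G_eq, ← sum_subset (subset_univ N)]
    · rfl
    · intro i _ hi
      rw [hS.hO.UU0 hi, Polynomial.eval_zero, mul_zero]
  rw [sum_sub_distrib, e4, sum_add_distrib, sum_add_distrib, sum_add_distrib,
    ← sum_mul] at e3
  rw [e2] at e1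
  linarith

/-! ### the sums of the shares of the roles -/

/-- the class of a type -/
def nz (t : ℕ) : ℕ := if t = 0 then 0 else 1

/-- the sum of the classes is the number of the children with `τ = 1` -/
lemma sum_nz (hO : TSM.FamO O N) (tc : Fin K → ℕ) (ht : ∀ i ∈ N, tc i = 0 ↔ TSM.tau (O i) = 0) :
    ∑ i ∈ N, nz (tc i) = c1 O N := by
  unfold c1
  rw [card_filter]
  refine sum_congr rfl fun i hi => ?_
  unfold nz
  have h1 := ht i hi
  rcases (hO.hI i).1 with h | h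
  · rw [if_pos (h1.2 h), if_neg (by rw [h]; norm_num)]
  · rw [if_neg (fun h2 => by rw [h1.1 h2] at h; norm_num at h), if_pos h]

/-- two children -/
lemma rsum2 {tc : Fin K → ℕ} (hN : N.card = 2) (hρ : ∑ i ∈ N, sg (ρ i) = 0) (dp dm : ℕ → ℝ)
    {c : ℕ} (hc : ∑ i ∈ N, nz (tc i) = c)
    (h : ∀ i ∈ N, ∀ j ∈ N, nz (tc i) + nz (tc j) = c → 0 ≤ dp (tc i) + dm (tc j)) :
    0 ≤ ∑ i ∈ N, rsh (ρ i) (dp (tc i)) (dm (tc i)) := by
  obtain ⟨i, j, hij, rfl⟩ := card_eq_two.mp hN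
  have mi : i ∈ ({i, j} : Finset (Fin K)) := by simp
  have mj : j ∈ ({i, j} : Finset (Fin K)) := by simp
  rw [sum_pair hij] at hρ hc ⊢
  cases h1 : ρ i <;> cases h2 : ρ j <;> rw [h1, h2] at hρ <;>
    simp only [sg_true, sg_false] at hρ <;> try norm_num at hρ
  · have := h j mj i mi (by omega)
    simp only [rsh, Bool.false_eq_true, if_true, if_false]
    linarith
  · have := h i mi j mj hc
    simp only [rsh, Bool.false_eq_true, if_true, if_false]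
    linarith

/-- three children -/
lemma rsum3 {tc : Fin K → ℕ} (hN : N.card = 3) (hρ : ∑ i ∈ N, sg (ρ i) = 1) (dp dm : ℕ → ℝ)
    {c : ℕ} (hc : ∑ i ∈ N, nz (tc i) = c)
    (h : ∀ i ∈ N, ∀ j ∈ N, ∀ k ∈ N, nz (tc i) + nz (tc j) + nz (tc k) = c →
      0 ≤ dp (tc i) + dp (tc j) + dm (tc k)) :
    0 ≤ ∑ i ∈ N, rsh (ρ i) (dp (tc i)) (dm (tc i)) := by
  obtain ⟨i, j, k, hij, hik, hjk, rfl⟩ := card_eq_three.mp hN
  have mi : i ∈ ({i, j, k} : Finset (Fin K)) := by simp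
  have mj : j ∈ ({i, j, k} : Finset (Fin K)) := by simp
  have mk : k ∈ ({i, j, k} : Finset (Fin K)) := by simp
  have e3 : ∀ g : Fin K → ℝ, ∑ l ∈ ({i, j, k} : Finset (Fin K)), g l = g i + g j + g k := by
    intro g
    rw [sum_insert (by simp [hij, hik]), sum_pair hjk]
    ring
  have e4 : ∀ g : Fin K → ℕ, ∑ l ∈ ({i, j, k} : Finset (Fin K)), g l = g i + g j + g k := by
    intro g
    rw [sum_insert (by simp [hij, hik]), sum_pair hjk]
    ring
  rw [e3] at hρ ⊢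
  rw [e4] at hc
  cases h1 : ρ i <;> cases h2 : ρ j <;> cases h3 : ρ k <;> rw [h1, h2, h3] at hρ <;>
    simp only [sg_true, sg_false] at hρ <;> try norm_num at hρ
  · have := h j mj k mk i mi (by omega)
    simp only [rsh, Bool.false_eq_true, if_true, if_false]
    linarith
  · have := h i mi k mk j mj (by omega)
    simp only [rsh, Bool.false_eq_true, if_true, if_false]
    linarith
  · have := h i mi j mj k mk hc
    simp only [rsh, Bool.false_eq_true, if_true, if_false]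
    linarith

/-- any number of children, `z` are the shares of the classes -/
lemma rsumM {tc : Fin K → ℕ} (dp dm : ℕ → ℝ) {ε z0 z1 : ℝ}
    (hz : 0 ≤ ε * ∑ i ∈ N, sg (ρ i) + (((∑ i ∈ N, nz (tc i) : ℕ) : ℝ) * z1 +
      ((N.card : ℝ) - ((∑ i ∈ N, nz (tc i) : ℕ) : ℝ)) * z0))
    (h : ∀ i ∈ N, ε + (if tc i = 0 then z0 else z1) ≤ dp (tc i) ∧
      -ε + (if tc i = 0 then z0 else z1) ≤ dm (tc i)) :
    0 ≤ ∑ i ∈ N, rsh (ρ i) (dp (tc i)) (dm (tc i)) := by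
  have h1 : ∑ i ∈ N, (ε * sg (ρ i) + (if tc i = 0 then z0 else z1)) ≤
      ∑ i ∈ N, rsh (ρ i) (dp (tc i)) (dm (tc i)) := by
    refine sum_le_sum fun i hi => ?_
    have := h i hi
    cases ρ i
    · simp only [rsh, Bool.false_eq_true, if_false, sg_false]
      linarith
    · simp only [rsh, if_true, sg_true]
      linarith
  have h2 : ∑ i ∈ N, (if tc i = 0 then z0 else z1) = ((∑ i ∈ N, nz (tc i) : ℕ) : ℝ) * z1 +
      ((N.card : ℝ) - ((∑ i ∈ N, nz (tc i) : ℕ) : ℝ)) * z0 := by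
    have e1 : ∀ i ∈ N, (if tc i = 0 then z0 else z1) = (nz (tc i) : ℝ) * z1 +
        (1 - (nz (tc i) : ℝ)) * z0 := by
      intro i _
      unfold nz
      split_ifs <;> push_cast <;> ring
    rw [sum_congr rfl e1, sum_add_distrib, ← sum_mul, ← sum_mul, sum_sub_distrib, sum_const,
      nsmul_eq_mul, mul_one]
    push_cast
    rfl
  rw [sum_add_distrib, ← mul_sum, h2] at h1
  linarith

end Pool.Agent.TSG
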