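import Pool.Agent.TSG.FamN
import Pool.Agent.TSG.FamGN
import Pool.Agent.TSM.NormW

set_option autoImplicit false

/-!
# The lines of a family with a second role and with the full norm rule (MP_d27362_co)
-/

namespace Pool.Agent.TSG

open Finset
open Pool.Agent.TSC (Ar Hom ArHom QI pmap pev realHom)
open Pool.Agent.TSM (Sn NS CT Spl SplN Wt WtN FamS FamT chd vU vY aU aY q0 Reg RD Inv ItD c1 FamK
  NR)
open Pool.Agent.TSR (OBr sg_true sg_false)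
open Pool.Agent.TLT (sg)

/-- conditions on the weights of the full norm rule -/
structure NX.Ok (x : SX ℝ) (y : NX ℝ) : Prop where
  n3 : 0 ≤ y.n3
  n4 : 0 ≤ y.n4
  n5 : 0 ≤ y.n5
  n7 : 0 ≤ y.n7
  nE : 0 ≤ y.nE
  kN : 0 ≤ y.kN
  zG : x.zG = 0
  z1 : x.yG ≤ 1 - (y.n3 + (y.n4 + y.n5) + y.n7 - y.nE)

/-- the value with the second role -/
lemma roleU_le (q : QI ℝ) (u w1 : ℝ) {w4 : ℝ} (h4 : 0 ≤ w4) (r : Bool) (x v a : ℝ) :
    (roleU q u w1 w4 r).ev x v a ≤ q.ev x v a - sg r * (u + w1 * v + w4 * v ^ 2) := by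
  unfold roleU QI.ev
  cases r
  · simp only [Bool.false_eq_true, if_false, rAdd, rSub, rNsm, sg_false]
    push_cast
    nlinarith [mul_nonneg h4 (sq_nonneg (v - 1))]
  · refine le_of_eq ?_
    simp only [if_true, rSub, sg_true]
    ring

/-- the weight of the value of `G` is not negative -/
lemma zzG_nonneg {P : PX ℝ} {p : NA ℝ} {x : SX ℝ} {D a : ℝ} (hP : P.Ok D a) (hp : p.Ok)
    (hx : x.Ok) (hcr : x.Cr a) : 0 ≤ zzG P p x := by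
  have hsG := pos_of_rs hx.rG hx.sG
  have hrG : 0 ≤ x.rG := by linarith [hx.rG]
  have hde : 0 ≤ a ^ 2 * p.de := mul_nonneg (sq_nonneg _) hp.de
  have hG0 : 0 ≤ (1 - x.fG) * (a ^ 2 * p.de) := mul_nonneg (by linarith [hx.fG1]) hde
  have hQ2 : 0 ≤ (1 - x.fq) * p.qy := mul_nonneg (by linarith [hx.fq1]) hp.qy
  have hga := hcr.h2.g0
  have ezz : zzG P p x = x.rG * ((1 - x.fG) * (a ^ 2 * p.de)) +
      x.ga * ((1 - x.fq) * p.qy * P.T ^ 2) := by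
    simp only [zzG, bG, qG, rAdd, rMul, rSub, rOne, hP.ht]
    ring
  rw [ezz]
  positivity

/-- the constant of a line, `vm` is the bound of the square of the value of `G` -/
noncomputable def kapRN (P : PX ℝ) (p : NA ℝ) (x : SX ℝ) (y : NX ℝ) (n : ℕ) (vm : ℝ) : ℝ :=
  p.c + 4 * ((1 - x.zU) * (x.rU * bU p x)) +
    vm * ((1 - (y.n3 + (y.n4 + y.n5) + y.n7 - y.nE)) * zzG P p x) +
    (n * p.ga + n * p.de + n * p.dv)

/-- **the splitting of the new state** with the full norm -/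
theorem splN_of {P : PX ℝ} {p : NA ℝ} {x : SX ℝ} {y : NX ℝ} {D a m : ℝ} {M n : ℕ}
    (hP : P.Ok D a) (hp : p.Ok) (hx : x.Ok) (hy : y.Ok x) (hcr : x.Cr a) (hw : 0 ≤ wwG P p x)
    (hr : 0 ≤ -rN P p x y) (hm : 0 ≤ m) (hM : x.Num m M)
    (hn : n ≤ 1) {vm fv fg : ℝ} : SplN p.ns a m x.fe n vm fv (kapRN P p x y n vm)
      ((ctN P p x y M n).ct p.cv p.dv) fg y.kN (y.n4 * zzG P p x)
      ((2 * y.n5 + 4 * y.n7) * zzG P p x) := by
  have hq := TSM.q0_pos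
  have hT0 : 0 ≤ P.T := hq.le.trans hP.hT
  have hTT : 0 ≤ P.T * P.T := mul_nonneg hT0 hT0
  have hth0 := th_nonneg a
  have hth2 : TSM.th a ^ 2 ≤ P.th * P.th := by
    have h1 := hP.hth
    nlinarith
  have hsU := pos_of_rs hx.rU hx.sU
  have hsG := pos_of_rs hx.rG hx.sG
  have hrU : 0 ≤ x.rU := by linarith [hx.rU]
  have hrG : 0 ≤ x.rG := by linarith [hx.rG]
  have hf : 0 ≤ x.fe := hx.fe0
  have hU0 : 0 ≤ (1 - x.fU) * p.be := mul_nonneg (by linarith [hx.fU1]) hp.be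
  have hde : 0 ≤ a ^ 2 * p.de := mul_nonneg (sq_nonneg _) hp.de
  have hG0 : 0 ≤ (1 - x.fG) * (a ^ 2 * p.de) := mul_nonneg (by linarith [hx.fG1]) hde
  have hQ2 : 0 ≤ (1 - x.fq) * p.qy := mul_nonneg (by linarith [hx.fq1]) hp.qy
  have hQ1 : 0 ≤ x.fq * p.qy := mul_nonneg hx.fq0 hp.qy
  have hga := hcr.h2.g0
  have hlam := hcr.h2.lam0
  have hkW := hx.kW0
  have ezz : zzG P p x = x.rG * ((1 - x.fG) * (a ^ 2 * p.de)) +
      x.ga * ((1 - x.fq) * p.qy * P.T ^ 2) := by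
    simp only [zzG, bG, qG, rAdd, rMul, rSub, rOne, hP.ht]
    ring
  have hzz : 0 ≤ zzG P p x := by
    rw [ezz]
    positivity
  obtain ⟨zz, hz⟩ : ∃ zz, zz = zzG P p x := ⟨_, rfl⟩
  rw [← hz] at ezz hzz ⊢
  have hmU : m * (x.fU * p.be) = M * (x.fU * p.be) := by
    rw [← mul_assoc, hM.hU, mul_assoc]
  have hmG : m * (x.fG * (a ^ 2 * p.de)) = M * (x.fG * (a ^ 2 * p.de)) := by
    rw [← mul_assoc, hM.hG, mul_assoc]
  have hmq : m * (x.fq * p.qy) = M * (x.fq * p.qy) := by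
    rw [← mul_assoc, hM.hq, mul_assoc]
  have hn' : (n : ℝ) ^ 2 = n ∧ ((2 * n : ℕ) : ℝ) = 2 * n := by
    interval_cases n <;> norm_num
  obtain ⟨en, e2⟩ := hn'
  obtain ⟨Z, hZ⟩ : ∃ Z, Z = 1 - (y.n3 + (y.n4 + y.n5) + y.n7 - y.nE) := ⟨_, rfl⟩
  have hZ0 : 0 ≤ Z := by
    rw [hZ]
    linarith [hy.z1, hx.yG0]
  have hr' : x.kW * (x.sG * (P.th * P.th * ((1 - x.fG) * (a ^ 2 * p.de)))) +
      x.la * ((1 - x.fq) * p.qy * P.T ^ 2) ≤ y.kN * ((y.n3 + (y.n4 + y.n5)) * zz) := by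
    have h1 : rN P p x y = x.kW * (x.sG * (P.th * P.th * ((1 - x.fG) * (a ^ 2 * p.de)))) +
      x.la * ((1 - x.fq) * p.qy * P.T ^ 2) - y.kN * ((y.n3 + (y.n4 + y.n5)) * zz) := by
      rw [hz]
      simp only [rN, wN, bG, qG, rAdd, rMul, rSub, rOne, hP.ht]
      ring
    linarith
  refine ⟨⟨P.T, x.fq * p.qy, (1 - x.fq) * p.qy, x.la, x.ga, x.be, x.lb, x.gb, x.kl,
    y.n3 * zz, y.n5 * zz, y.n7 * zz,
    4 * ((1 - x.zU) * (x.rU * ((1 - x.fU) * p.be))), vm * (Z * zz),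
    M * (x.fU * p.be), x.zU * (x.rU * ((1 - x.fU) * p.be)),
    x.fe * (x.sU * (P.th * P.th * ((1 - x.fU) * p.be)) + p.qU),
    M * (x.fG * (a ^ 2 * p.de)), y.n3 * zz, 2 * y.kN * ((y.n3 + (y.n4 + y.n5)) * zz),
    hP.hT, hQ1, ?_, hcr.h2, hcr.h1, hcr.hl, ⟨⟨x.fU * p.be, (1 - x.fU) * p.be, x.rU, x.sU,
      (1 - x.zU) * (x.rU * ((1 - x.fU) * p.be)), x.zU * (x.rU * ((1 - x.fU) * p.be)),
      mul_nonneg hx.fU0 hp.be, hU0,
      mul_nonneg (by linarith [hx.zU1]) (mul_nonneg hrU hU0),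
      mul_nonneg hx.zU0 (mul_nonneg hrU hU0), ?_, hx.rU, hx.sU, ?_, hmU.le, le_rfl, ?_, ?_⟩,
      le_rfl, hp.qU⟩,
    ⟨⟨x.fG * (a ^ 2 * p.de), (1 - x.fG) * (a ^ 2 * p.de), x.rG, x.sG, Z * zz, 0,
      x.kW * (x.sG * ((1 - x.fG) * (a ^ 2 * p.de))), 0,
      mul_nonneg hx.fG0 hde, hG0, mul_nonneg hZ0 hzz, le_rfl,
      mul_nonneg hkW (mul_nonneg hsG hG0), le_rfl, ?_, hx.rG, hx.sG, ?_, hmG.le,
      le_rfl, ?_, ?_, ?_, ?_⟩, hQ2, mul_nonneg hy.n3 hzz, mul_nonneg hy.n4 hzz,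
      mul_nonneg hy.n5 hzz, mul_nonneg hy.n7 hzz⟩,
    ?_, ?_, ?_⟩, hp.lU, hp.ly, hm⟩
  · show p.qy = _
    ring
  · show p.be ≤ _
    linarith
  · linarith
  · rw [one_mul]
  · have h1 := mul_le_mul_of_nonneg_left (mul_le_mul_of_nonneg_right hth2 hU0) hsU
    show x.fe * (x.sU * TSM.th a ^ 2 * ((1 - x.fU) * p.be) + p.qU) ≤ _
    refine mul_le_mul_of_nonneg_left ?_ hf
    linarith
  · show a ^ 2 * p.de ≤ _
    linarith
  · rw [← ezz]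
    have h1 : Z * zz + 0 + (y.n3 * zz + y.n4 * zz + y.n5 * zz + y.n7 * zz) =
        (1 + y.nE) * zz := by
      rw [hZ]
      ring
    rw [h1]
    have := mul_nonneg hy.nE hzz
    linarith
  · linarith
  · have h1 : 0 ≤ x.be * ((1 - x.fq) * p.qy) -
        (1 - x.kW) * (x.sG * ((1 - x.fG) * (P.t * P.t * p.de))) := hw
    rw [hP.ht] at h1
    linarith
  · have h1 := mul_le_mul_of_nonneg_right hth2 (mul_nonneg hkW (mul_nonneg hsG hG0))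
    have h2 : TSM.th a ^ 2 * (x.kW * (x.sG * ((1 - x.fG) * (a ^ 2 * p.de)))) +
        x.la * ((1 - x.fq) * p.qy * P.T ^ 2) ≤ y.kN * ((y.n3 + (y.n4 + y.n5)) * zz) := by
      linarith
    linarith
  · linarith
  · ring
  · show kapRN P p x y n vm = p.c + _ + _ + p.ga * n + p.de * n ^ 2 + p.dv * n
    rw [en]
    simp only [kapRN, ← hz, ← hZ, bU, rMul, rSub, rOne]
    ring
  · have e5 : (M : ℝ) * (x.gb * (x.fq * p.qy * (P.T * P.T))) =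
        m * (x.fq * p.qy) * P.T ^ 2 * x.gb := by
      linear_combination (-(x.gb * P.T ^ 2)) * hmq
    have e6 : (M : ℝ) * (x.lb * (x.fq * p.qy * (P.T * P.T))) =
        m * (x.fq * p.qy) * P.T ^ 2 * x.lb := by
      linear_combination (-(x.lb * P.T ^ 2)) * hmq
    simp only [CA.ct, ctN, ctA, wN, ← hz, bU, rAdd, rMul, rSub, rOne, rNsm, rNeg, hP.ht, e2,
      NA.ns, e5, e6, hy.zG]
    congr 1
    all_goals push_cast
    all_goals ring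

/-- the constant of a line for the mixed bound of the value of `G` -/
lemma kap_mixN {P : PX ℝ} {p : NA ℝ} {x : SX ℝ} {y : NX ℝ} (hx : x.Ok) (hy : y.Ok x) {n gs : ℕ}
    {g : ℝ} (hg : GSg gs x.gm g) (h3 : g ^ 2 ≤ x.vm) :
    ∃ vm, g ^ 2 ≤ vm ∧ kapRN P p x y n vm = kapN P p x y n gs - yyG P p x gs * g := by
  obtain ⟨Z, hZ⟩ : ∃ Z, Z = 1 - (y.n3 + (y.n4 + y.n5) + y.n7 - y.nE) := ⟨_, rfl⟩
  have hz1 : x.yG ≤ Z := by rw [hZ]; exact hy.z1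
  obtain ⟨θ, hθ0, hθ1, hθ⟩ : ∃ θ : ℝ, 0 ≤ θ ∧ θ ≤ 1 ∧ Z * θ = x.yG := by
    rcases eq_or_ne Z 0 with h | h
    · refine ⟨0, le_rfl, zero_le_one, ?_⟩
      have h1 := hx.yG0
      rw [mul_zero]
      linarith
    · have h1 := hx.yG0
      have h3 : 0 < Z := lt_of_le_of_ne (by linarith) (Ne.symm h)
      refine ⟨x.yG / Z, by positivity, (div_le_one h3).2 (by linarith), ?_⟩
      field_simp
  have hk : ∀ vm, kapRN P p x y n vm = p.c + 4 * ((1 - x.zU) * (x.rU * bU p x)) +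
      vm * (Z * zzG P p x) + (n * p.ga + n * p.de + n * p.dv) := by
    intro vm
    rw [hZ]
    rfl
  have hkN : kapN P p x y n gs = p.c + 4 * ((1 - x.zU) * (x.rU * bU p x)) +
      x.vm * (Z * zzG P p x - yzG P p x gs) + (n * p.ga + n * p.de + n * p.dv) := by
    rw [hZ]
    simp only [kapN, kapA, rAdd, rMul, rSub, rOne, rNsm, hy.zG]
    push_cast
    ring
  rcases hg with rfl | ⟨rfl, g1, g2⟩ | ⟨h2, g1, g2⟩
  · refine ⟨x.vm, h3, ?_⟩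
    rw [hk, hkN]
    simp only [yyG, yzG, rMul, rZero, rNeg, if_true]
    rw [if_neg (by norm_num)]
    ring
  · refine ⟨x.vm * (1 - θ) + θ * (-(x.gm * g)), ?_, ?_⟩
    · have h4 : g ^ 2 ≤ -(x.gm * g) := by nlinarith
      nlinarith [mul_nonneg (sub_nonneg.2 hθ1) (sub_nonneg.2 h3),
        mul_nonneg hθ0 (sub_nonneg.2 h4)]
    · rw [hk, hkN]
      simp only [yyG, yzG, rMul, if_true]
      rw [if_neg (by norm_num), ← hθ]
      ring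
  · refine ⟨x.vm * (1 - θ) + θ * (x.gm * g), ?_, ?_⟩
    · have h4 : g ^ 2 ≤ x.gm * g := by nlinarith
      nlinarith [mul_nonneg (sub_nonneg.2 hθ1) (sub_nonneg.2 h3),
        mul_nonneg hθ0 (sub_nonneg.2 h4)]
    · rw [hk, hkN]
      simp only [yyG, yzG, rMul, rNeg]
      rw [if_neg (by omega), if_neg (by omega), ← hθ]
      ring

variable {K : ℕ} {O : Fin K → OBr} {N : Finset (Fin K)} {σ e ρ r : Fin K → Bool}
  {m D a : ℝ} {M n : ℕ}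

/-- **one line of a family with a second role** from a total inequality; `E` is the value of the
new state, `κ` its constant -/
theorem famRole {x : SX ℝ} (hO : TSM.FamO O N) {P : PX ℝ} {p : NA ℝ}
    (hP : P.Ok D a) (hp : p.Ok) (hx : x.Ok) {Kc : CA ℝ} (hy1 : Kc.y1 = p.al)
    (hb1 : Kc.b1 = p.lU) (hw2 : Kc.w2 = x.zU * (x.rU * ((1 - x.fU) * p.be)))
    (ha : Reg D a) (haq : a < q0) {mm : ℝ} (hmm : 0 ≤ mm) (hdm : 0 ≤ p.dv + mm)
    (tc : Fin K → ℕ) {E κ yy w1 w4 lN : ℝ}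
    (hT : E ≤ κ - yy * (TSM.gU e O).eval q0 +
      ∑ i, ((Kc.ct p.cv p.dv).ev (sg (σ i)) (sg (e i)) (sg (ρ i)) ((chd (tc i) (O i)).sn a) +
        sg (r i) * (w4 * vU (O i) ^ 2 + w1 * vU (O i))))
    (hlN : 0 ≤ lN) (hw4 : 0 ≤ w4) (hr : 2 ≤ ∑ i ∈ N, sg (r i) * vU (O i))
    (Vc : Fin K → NA ℝ) (kk dp dm s u : Fin K → ℝ) (hs : ∀ i ∈ N, 0 ≤ s i)
    (hG : ∀ i ∈ N, 0 ≤ (roleU (famU P (Vc i) p Kc (kk i) (s i) yy mm (e i)) (u i) (w1 + lN) w4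
          (r i)).ev
          ((chd (tc i) (O i)).sn a).u ((chd (tc i) (O i)).sn a).vU
          ((chd (tc i) (O i)).sn a).aU +
        (famY P (Vc i) p x Kc (Ar.mul x.zU (bU p x))
          (rsh (ρ i) (dp i) (dm i)) (σ i) (ρ i)).ev ((chd (tc i) (O i)).sn a).y
          ((chd (tc i) (O i)).sn a).vY ((chd (tc i) (O i)).sn a).aY) (A : ℝ)
    (hκ : κ - 2 * lN + A ≤ ∑ i ∈ N, kk i) (hd : 0 ≤ ∑ i ∈ N, rsh (ρ i) (dp i) (dm i))
    (hu : 0 ≤ ∑ i ∈ N, sg (r i) * u i) :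
    E + A + (∑ i ∈ N, s i * D) * (1 - D / (q0 - a)) ≤
        ∑ i ∈ N, (Vc i).ns.ev ((chd (tc i) (O i)).sn a) := by
  obtain ⟨g, hg⟩ : ∃ g, g = (TSM.gU e O).eval q0 := ⟨_, rfl⟩
  rw [← hg] at hT
  have e2 : ∑ i, ((Kc.ct p.cv p.dv).ev (sg (σ i)) (sg (e i)) (sg (ρ i))
        ((chd (tc i) (O i)).sn a) + sg (r i) * (w4 * vU (O i) ^ 2 + w1 * vU (O i))) =
      ∑ i ∈ N, ((Kc.ct p.cv p.dv).ev (sg (σ i)) (sg (e i)) (sg (ρ i))
        ((chd (tc i) (O i)).sn a) + sg (r i) * (w4 * vU (O i) ^ 2 + w1 * vU (O i))) := by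
    rw [← sum_subset (subset_univ N)]
    intro i _ hi
    have h1 : vU (O i) = 0 := by
      unfold vU
      rw [hO.UU0 hi, Polynomial.eval_zero]
    rw [hO.ct0 hi _ _ _ _ _ _, h1]
    ring
  have e3 : ∑ i ∈ N, (kk i + rsh (ρ i) (dp i) (dm i) + s i * D * (1 - D / (q0 - a)) +
      ((Kc.ct p.cv p.dv).ev (sg (σ i)) (sg (e i)) (sg (ρ i))
        ((chd (tc i) (O i)).sn a) + sg (r i) * (w4 * vU (O i) ^ 2 + w1 * vU (O i))) +
      sg (r i) * u i + lN * (sg (r i) * vU (O i)) - yy * (sg (e i) * vU (O i))) ≤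
      ∑ i ∈ N, (Vc i).ns.ev ((chd (tc i) (O i)).sn a) := by
    refine sum_le_sum fun i hi => ?_
    have hI := hO.hI i
    have h1 := famK_le hP hp hx haq (V := Vc i) hy1 hb1 hw2 (kk i) (rsh (ρ i) (dp i) (dm i)) (s i)
      yy hmm hdm (hs i hi) ((chd (tc i) (O i)).sn a) hI.2.1
      (TSM.Y_near (O i) ha.2.2.1 haq.le) (σ i) (e i) (ρ i)
    have h2 := (hG i hi).trans (add_le_add (roleU_le _ _ _ hw4 _ _ _ _) le_rfl)
    have h3 : ((chd (tc i) (O i)).sn a).vU = vU (O i) := rfl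
    rw [h3] at h1 h2
    linarith
  have e4 : ∑ i ∈ N, yy * (sg (e i) * vU (O i)) = yy * g := by
    rw [← mul_sum, hg, FamS.G_eq, ← sum_subset (subset_univ N)]
    · rfl
    · intro i _ hi
      rw [hO.UU0 hi, Polynomial.eval_zero, mul_zero]
  rw [sum_sub_distrib, e4, sum_add_distrib, sum_add_distrib, sum_add_distrib, sum_add_distrib,
    sum_add_distrib, ← sum_mul, ← mul_sum] at e3
  rw [e2] at hT
  have h5 := mul_le_mul_of_nonneg_left hr hlN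
  linarith

/-- **one line of a family with the fact `2 ≤ Σ r v_U`** -/
theorem famLine1 {x : SX ℝ} {z : Bool} (hS : FamS O N σ e ρ m x.fe n x.vm x.fv x.fg z)
    (hz : z = true → x.zU = 0) {P : PX ℝ} {p : NA ℝ}
    (hP : P.Ok D a) (hp : p.Ok) (hx : x.Ok) (hcr : x.Cr a) (hw : 0 ≤ wwG P p x) (hm : 0 ≤ m)
    (hM : x.Num m M) (hn : n ≤ 1) (ha : Reg D a) (haq : a < q0) {gs : ℕ}
    (hgs : GSg gs x.gm ((TSM.gU e O).eval q0)) {mm : ℝ} (hmm : 0 ≤ mm) (hdm : 0 ≤ p.dv + mm)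
    (tc : Fin K → ℕ) {lN : ℝ} (hlN : 0 ≤ lN) (hr : 2 ≤ ∑ i ∈ N, sg (r i) * vU (O i))
    (Vc : Fin K → NA ℝ) (kk dp dm s u : Fin K → ℝ) (hs : ∀ i ∈ N, 0 ≤ s i)
    (hG : ∀ i ∈ N, 0 ≤ (roleU (famU P (Vc i) p (ctA P p x M n) (kk i) (s i) (yyG P p x gs) mm (e i))
          (u i) lN Ar.zero (r i)).ev
          ((chd (tc i) (O i)).sn a).u ((chd (tc i) (O i)).sn a).vU
          ((chd (tc i) (O i)).sn a).aU +
        (famY P (Vc i) p x (ctA P p x M n) (Ar.mul x.zU (bU p x))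
          (rsh (ρ i) (dp i) (dm i)) (σ i) (ρ i)).ev ((chd (tc i) (O i)).sn a).y
          ((chd (tc i) (O i)).sn a).vY ((chd (tc i) (O i)).sn a).aY) (A : ℝ)
    (hκ : kapA P p x n gs - 2 * lN + A ≤ ∑ i ∈ N, kk i)
    (hd : 0 ≤ ∑ i ∈ N, rsh (ρ i) (dp i) (dm i)) (hu : 0 ≤ ∑ i ∈ N, sg (r i) * u i) (ty : ℕ) :
    p.ns.ev ((chd ty (TSM.fam σ e O)).sn a) + A +
      (∑ i ∈ N, s i * D) * (1 - D / (q0 - a)) ≤
        ∑ i ∈ N, (Vc i).ns.ev ((chd (tc i) (O i)).sn a) := by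
  obtain ⟨g, hg⟩ : ∃ g, g = (TSM.gU e O).eval q0 := ⟨_, rfl⟩
  have hg3 : g ^ 2 ≤ x.vm := by rw [hg]; exact hS.hG2
  have hgs' := hgs
  rw [← hg] at hgs'
  obtain ⟨vm, hvm, hkap⟩ := kap_mix (P := P) (p := p) (n := n) hx hgs' hg3
  have hS' : FamS O N σ e ρ m x.fe n vm x.fv x.fg z :=
    ⟨hS.hO, hS.hm, hS.hU0, hS.hU2, hS.hU3, hS.hUa, hS.hY, by rw [← hg]; exact hvm, hS.hG3,
      hS.hGa⟩
  have hsp := spl_of (n := n) hP hp hx hcr hw hm hM hn (vm := vm)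
  have e1 := hS'.total ha.2.2.1 haq.le hsp ty tc (fun h => by
    show Ar.mul x.zU (Ar.mul x.rU (bU p x)) = (0 : ℝ)
    rw [hz h, rMul, zero_mul])
  rw [hkap, hg] at e1
  refine famRole (σ := σ) (e := e) (κ := kapA P p x n gs) (yy := yyG P p x gs) (w1 := 0)
    (w4 := 0) (Kc := ctA P p x M n) hS.hO hP hp hx rfl rfl rfl
    ha haq hmm hdm tc ?_ hlN le_rfl hr Vc kk dp dm s u hs ?_ A hκ hd hu
  · refine e1.trans (le_of_eq ?_)
    congr 1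
    refine sum_congr rfl fun i _ => ?_
    ring
  · intro i hi
    have := hG i hi
    rw [zero_add]
    exact this

/-- **one line of a family with the full norm rule** -/
theorem famLine2 {x : SX ℝ} {y : NX ℝ} {z : Bool} {fv fg : ℝ}
    (hS : FamS O N σ e ρ m x.fe n x.vm fv fg z)
    (hz : z = true → x.zU = 0) {P : PX ℝ} {p : NA ℝ}
    (hP : P.Ok D a) (hp : p.Ok) (hx : x.Ok) (hy : y.Ok x) (hcr : x.Cr a) (hw : 0 ≤ wwG P p x)
    (hrn : 0 ≤ -rN P p x y) (hm : 0 ≤ m)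
    (hM : x.Num m M) (hn : n ≤ 1) (ha : Reg D a) (haq : a < q0) {gs : ℕ}
    (hgs : GSg gs x.gm ((TSM.gU e O).eval q0)) {mm : ℝ} (hmm : 0 ≤ mm) (hdm : 0 ≤ p.dv + mm)
    (tc : Fin K → ℕ) (hlN : 0 ≤ y.lN) (hr : NR O e r y.kN)
    (Vc : Fin K → NA ℝ) (kk dp dm s u : Fin K → ℝ) (hs : ∀ i ∈ N, 0 ≤ s i)
    (hG : ∀ i ∈ N, 0 ≤ (roleU (famU P (Vc i) p (ctN P p x y M n) (kk i) (s i) (yyG P p x gs) mm
          (e i)) (u i) (wN1 P p x y) (Ar.mul y.n4 (zzG P p x)) (r i)).ev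
          ((chd (tc i) (O i)).sn a).u ((chd (tc i) (O i)).sn a).vU
          ((chd (tc i) (O i)).sn a).aU +
        (famY P (Vc i) p x (ctA P p x M n) (Ar.mul x.zU (bU p x))
          (rsh (ρ i) (dp i) (dm i)) (σ i) (ρ i)).ev ((chd (tc i) (O i)).sn a).y
          ((chd (tc i) (O i)).sn a).vY ((chd (tc i) (O i)).sn a).aY) (A : ℝ)
    (hκ : kapN P p x y n gs - 2 * y.lN + A ≤ ∑ i ∈ N, kk i)
    (hd : 0 ≤ ∑ i ∈ N, rsh (ρ i) (dp i) (dm i)) (hu : 0 ≤ ∑ i ∈ N, sg (r i) * u i) (ty : ℕ) :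
    p.ns.ev ((chd ty (TSM.fam σ e O)).sn a) + A +
      (∑ i ∈ N, s i * D) * (1 - D / (q0 - a)) ≤
        ∑ i ∈ N, (Vc i).ns.ev ((chd (tc i) (O i)).sn a) := by
  obtain ⟨g, hg⟩ : ∃ g, g = (TSM.gU e O).eval q0 := ⟨_, rfl⟩
  have hg3 : g ^ 2 ≤ x.vm := by rw [hg]; exact hS.hG2
  have hgs' := hgs
  rw [← hg] at hgs'
  obtain ⟨vm, hvm, hkap⟩ := kap_mixN (P := P) (p := p) (n := n) hx hy hgs' hg3
  have hS' : FamS O N σ e ρ m x.fe n vm fv fg z :=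
    ⟨hS.hO, hS.hm, hS.hU0, hS.hU2, hS.hU3, hS.hUa, hS.hY, by rw [← hg]; exact hvm, hS.hG3,
      hS.hGa⟩
  have hsp := splN_of (n := n) hP hp hx hy hcr hw hrn hm hM hn (vm := vm) (fv := fv) (fg := fg)
  have e1 := hS'.totalN hr ha.2.2.1 haq.le hsp ty tc (fun h => by
    show Ar.mul x.zU (Ar.mul x.rU (bU p x)) = (0 : ℝ)
    rw [hz h, rMul, zero_mul])
  rw [hkap, hg] at e1
  have hr6 : 2 ≤ ∑ i ∈ N, sg (r i) * vU (O i) := by
    refine hr.h6.trans (le_of_eq ?_)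
    rw [← sum_subset (subset_univ N)]
    intro i _ hi
    unfold vU
    rw [hS.hO.UU0 hi, Polynomial.eval_zero, mul_zero]
  exact famRole (σ := σ) (e := e) (κ := kapN P p x y n gs) (yy := yyG P p x gs)
    (w1 := (2 * y.n5 + 4 * y.n7) * zzG P p x) (w4 := y.n4 * zzG P p x)
    (Kc := ctN P p x y M n) hS.hO hP hp hx rfl rfl rfl
    ha haq hmm hdm tc e1 hlN (mul_nonneg hy.n4 (zzG_nonneg hP hp hx hcr)) hr6 Vc kk dp dm s u hs
    (fun i hi => by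
      have := hG i hi
      have e : (2 * y.n5 + 4 * y.n7) * zzG P p x + y.lN = wN1 P p x y := by
        simp only [wN1, rAdd, rMul, rNsm]
        push_cast
        ring
      rw [e]
      exact this) A hκ hd hu

end Pool.Agent.TSG
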