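import Pool.Agent.TSG.FamX
import Pool.Agent.TSM.OddDE
import Pool.Agent.TSM.OddDF

set_option autoImplicit false

/-!
# The table of the odd rule with a constant (MP_d27362_co, helper2)
-/

namespace Pool.Agent.TSG

open Pool.Agent.TSC
open Pool.Agent.TSM (ExpOd)

/-- one row of the table of the odd rule with a constant -/
structure ECd where
  /-- factor of the square -/
  c : Dec
  /-- factor in the exponent -/
  mu : Dec
  /-- bound of `ρ` -/
  P : Dec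
  /-- the constant in the exponent -/
  de : Dec

lemma ed_ok {K : ℕ} {c mu P de : Dec} {c' mu' P' de' : ℝ} (h : ExpOd K c' mu' P' de')
    (h1 : c' ≤ c.val) (h2 : mu' ≤ mu.val) (h30 : 0 ≤ P.val) (h3 : P.val ≤ P')
    (h4 : de' ≤ de.val) : ExpOd K c.val mu.val P.val de.val := h.mono h1 h2 h30 h3 h4

/-- the rows for `3` children -/
def tabD3 : List ECd :=
  [⟨Dec.pos 501 3, Dec.pos 4 3, Dec.zero, Dec.zero⟩,
    ⟨Dec.pos 456 3, Dec.pos 4 3, Dec.zero, Dec.pos 1 2⟩,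
    ⟨Dec.pos 501 3, Dec.pos 7 3, Dec.zero, Dec.zero⟩,
    ⟨Dec.pos 42 2, Dec.pos 7 3, Dec.zero, Dec.pos 5 3⟩,
    ⟨Dec.pos 404 3, Dec.pos 7 3, Dec.zero, Dec.pos 1 2⟩,
    ⟨Dec.pos 385 3, Dec.pos 1 2, Dec.zero, Dec.pos 2 2⟩,
    ⟨Dec.pos 36 2, Dec.pos 1 2, Dec.zero, Dec.pos 5 2⟩,
    ⟨Dec.pos 34 2, Dec.pos 15 3, Dec.zero, Dec.pos 1 1⟩,
    ⟨Dec.pos 519 3, Dec.pos 4 3, Dec.pos 1 1, Dec.zero⟩,
    ⟨Dec.pos 501 3, Dec.pos 4 3, Dec.pos 1 1, Dec.pos 1 2⟩,
    ⟨Dec.pos 519 3, Dec.pos 7 3, Dec.pos 1 1, Dec.zero⟩,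
    ⟨Dec.pos 442 3, Dec.pos 7 3, Dec.pos 1 1, Dec.pos 5 3⟩,
    ⟨Dec.pos 439 3, Dec.pos 7 3, Dec.pos 1 1, Dec.pos 1 2⟩,
    ⟨Dec.pos 402 3, Dec.pos 1 2, Dec.pos 1 1, Dec.pos 2 2⟩,
    ⟨Dec.pos 379 3, Dec.pos 1 2, Dec.pos 1 1, Dec.pos 5 2⟩,
    ⟨Dec.pos 34 2, Dec.pos 15 3, Dec.pos 1 1, Dec.pos 1 1⟩,
    ⟨Dec.pos 555 3, Dec.pos 4 3, Dec.pos 2 1, Dec.zero⟩,
    ⟨Dec.pos 548 3, Dec.pos 4 3, Dec.pos 2 1, Dec.pos 1 2⟩,
    ⟨Dec.pos 539 3, Dec.pos 7 3, Dec.pos 2 1, Dec.zero⟩,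
    ⟨Dec.pos 486 3, Dec.pos 7 3, Dec.pos 2 1, Dec.pos 5 3⟩,
    ⟨Dec.pos 482 3, Dec.pos 7 3, Dec.pos 2 1, Dec.pos 1 2⟩,
    ⟨Dec.pos 444 3, Dec.pos 1 2, Dec.pos 2 1, Dec.pos 2 2⟩,
    ⟨Dec.pos 419 3, Dec.pos 1 2, Dec.pos 2 1, Dec.pos 5 2⟩,
    ⟨Dec.pos 344 3, Dec.pos 15 3, Dec.pos 2 1, Dec.pos 1 1⟩,
    ⟨Dec.pos 625 3, Dec.pos 4 3, Dec.pos 3333333333333333 16, Dec.zero⟩,
    ⟨Dec.pos 617 3, Dec.pos 4 3, Dec.pos 3333333333333333 16, Dec.pos 1 2⟩,
    ⟨Dec.pos 569 3, Dec.pos 7 3, Dec.pos 3333333333333333 16, Dec.zero⟩,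
    ⟨Dec.pos 547 3, Dec.pos 7 3, Dec.pos 3333333333333333 16, Dec.pos 5 3⟩,
    ⟨Dec.pos 543 3, Dec.pos 7 3, Dec.pos 3333333333333333 16, Dec.pos 1 2⟩,
    ⟨Dec.pos 503 3, Dec.pos 1 2, Dec.pos 3333333333333333 16, Dec.pos 2 2⟩,
    ⟨Dec.pos 475 3, Dec.pos 1 2, Dec.pos 3333333333333333 16, Dec.pos 5 2⟩,
    ⟨Dec.pos 396 3, Dec.pos 15 3, Dec.pos 3333333333333333 16, Dec.pos 1 1⟩,
    ⟨Dec.pos 828 3, Dec.pos 4 3, Dec.pos 6666666666666666 16, Dec.zero⟩,
    ⟨Dec.pos 818 3, Dec.pos 4 3, Dec.pos 6666666666666666 16, Dec.pos 1 2⟩,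
    ⟨Dec.pos 724 3, Dec.pos 7 3, Dec.pos 6666666666666666 16, Dec.zero⟩,
    ⟨Dec.pos 719 3, Dec.pos 7 3, Dec.pos 6666666666666666 16, Dec.pos 5 3⟩,
    ⟨Dec.pos 714 3, Dec.pos 7 3, Dec.pos 6666666666666666 16, Dec.pos 1 2⟩,
    ⟨Dec.pos 658 3, Dec.pos 1 2, Dec.pos 6666666666666666 16, Dec.pos 2 2⟩,
    ⟨Dec.pos 628 3, Dec.pos 1 2, Dec.pos 6666666666666666 16, Dec.pos 5 2⟩,
    ⟨Dec.pos 533 3, Dec.pos 15 3, Dec.pos 6666666666666666 16, Dec.pos 1 1⟩]

lemma tabD3_ok : ∀ e ∈ tabD3, ExpOd 3 e.c.val e.mu.val e.P.val e.de.val := by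
  intro e he
  simp only [tabD3, List.mem_cons, List.not_mem_nil, or_false] at he
  rcases he with rfl | rfl | rfl | rfl | rfl | rfl | rfl | rfl | rfl | rfl | rfl | rfl | rfl |
    rfl | rfl | rfl | rfl | rfl | rfl | rfl | rfl | rfl | rfl | rfl | rfl | rfl | rfl | rfl |
    rfl | rfl | rfl | rfl | rfl | rfl | rfl | rfl | rfl | rfl | rfl | rfl
  · exact ed_ok TSM.expOd_three_d00 (by rw [Dec.val_pos]; norm_num) (by rw [Dec.val_pos]; norm_num)
      (by rw [Dec.val_zero]) (by rw [Dec.val_zero])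
      (by rw [Dec.val_zero])
  · exact ed_ok TSM.expOd_three_d01 (by rw [Dec.val_pos]; norm_num) (by rw [Dec.val_pos]; norm_num)
      (by rw [Dec.val_zero]) (by rw [Dec.val_zero])
      (by rw [Dec.val_pos]; norm_num)
  · exact ed_ok TSM.expOd_three_d02 (by rw [Dec.val_pos]; norm_num) (by rw [Dec.val_pos]; norm_num)
      (by rw [Dec.val_zero]) (by rw [Dec.val_zero])
      (by rw [Dec.val_zero])
  · exact ed_ok TSM.expOd_three_d03 (by rw [Dec.val_pos]; norm_num) (by rw [Dec.val_pos]; norm_num)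
      (by rw [Dec.val_zero]) (by rw [Dec.val_zero])
      (by rw [Dec.val_pos]; norm_num)
  · exact ed_ok TSM.expOd_three_d04 (by rw [Dec.val_pos]; norm_num) (by rw [Dec.val_pos]; norm_num)
      (by rw [Dec.val_zero]) (by rw [Dec.val_zero])
      (by rw [Dec.val_pos]; norm_num)
  · exact ed_ok TSM.expOd_three_d05 (by rw [Dec.val_pos]; norm_num) (by rw [Dec.val_pos]; norm_num)
      (by rw [Dec.val_zero]) (by rw [Dec.val_zero])
      (by rw [Dec.val_pos]; norm_num)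
  · exact ed_ok TSM.expOd_three_d06 (by rw [Dec.val_pos]; norm_num) (by rw [Dec.val_pos]; norm_num)
      (by rw [Dec.val_zero]) (by rw [Dec.val_zero])
      (by rw [Dec.val_pos]; norm_num)
  · exact ed_ok TSM.expOd_three_d07 (by rw [Dec.val_pos]; norm_num) (by rw [Dec.val_pos]; norm_num)
      (by rw [Dec.val_zero]) (by rw [Dec.val_zero])
      (by rw [Dec.val_pos]; norm_num)
  · exact ed_ok TSM.expOd_three_d10 (by rw [Dec.val_pos]; norm_num) (by rw [Dec.val_pos]; norm_num)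
      (by rw [Dec.val_pos]; norm_num) (by rw [Dec.val_pos]; norm_num)
      (by rw [Dec.val_zero])
  · exact ed_ok TSM.expOd_three_d11 (by rw [Dec.val_pos]; norm_num) (by rw [Dec.val_pos]; norm_num)
      (by rw [Dec.val_pos]; norm_num) (by rw [Dec.val_pos]; norm_num)
      (by rw [Dec.val_pos]; norm_num)
  · exact ed_ok TSM.expOd_three_d12 (by rw [Dec.val_pos]; norm_num) (by rw [Dec.val_pos]; norm_num)
      (by rw [Dec.val_pos]; norm_num) (by rw [Dec.val_pos]; norm_num)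
      (by rw [Dec.val_zero])
  · exact ed_ok TSM.expOd_three_d13 (by rw [Dec.val_pos]; norm_num) (by rw [Dec.val_pos]; norm_num)
      (by rw [Dec.val_pos]; norm_num) (by rw [Dec.val_pos]; norm_num)
      (by rw [Dec.val_pos]; norm_num)
  · exact ed_ok TSM.expOd_three_d14 (by rw [Dec.val_pos]; norm_num) (by rw [Dec.val_pos]; norm_num)
      (by rw [Dec.val_pos]; norm_num) (by rw [Dec.val_pos]; norm_num)
      (by rw [Dec.val_pos]; norm_num)
  · exact ed_ok TSM.expOd_three_d15 (by rw [Dec.val_pos]; norm_num) (by rw [Dec.val_pos]; norm_num)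
      (by rw [Dec.val_pos]; norm_num) (by rw [Dec.val_pos]; norm_num)
      (by rw [Dec.val_pos]; norm_num)
  · exact ed_ok TSM.expOd_three_d16 (by rw [Dec.val_pos]; norm_num) (by rw [Dec.val_pos]; norm_num)
      (by rw [Dec.val_pos]; norm_num) (by rw [Dec.val_pos]; norm_num)
      (by rw [Dec.val_pos]; norm_num)
  · exact ed_ok TSM.expOd_three_d17 (by rw [Dec.val_pos]; norm_num) (by rw [Dec.val_pos]; norm_num)
      (by rw [Dec.val_pos]; norm_num) (by rw [Dec.val_pos]; norm_num)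
      (by rw [Dec.val_pos]; norm_num)
  · exact ed_ok TSM.expOd_three_d20 (by rw [Dec.val_pos]; norm_num) (by rw [Dec.val_pos]; norm_num)
      (by rw [Dec.val_pos]; norm_num) (by rw [Dec.val_pos]; norm_num)
      (by rw [Dec.val_zero])
  · exact ed_ok TSM.expOd_three_d21 (by rw [Dec.val_pos]; norm_num) (by rw [Dec.val_pos]; norm_num)
      (by rw [Dec.val_pos]; norm_num) (by rw [Dec.val_pos]; norm_num)
      (by rw [Dec.val_pos]; norm_num)
  · exact ed_ok TSM.expOd_three_d22 (by rw [Dec.val_pos]; norm_num) (by rw [Dec.val_pos]; norm_num)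
      (by rw [Dec.val_pos]; norm_num) (by rw [Dec.val_pos]; norm_num)
      (by rw [Dec.val_zero])
  · exact ed_ok TSM.expOd_three_d23 (by rw [Dec.val_pos]; norm_num) (by rw [Dec.val_pos]; norm_num)
      (by rw [Dec.val_pos]; norm_num) (by rw [Dec.val_pos]; norm_num)
      (by rw [Dec.val_pos]; norm_num)
  · exact ed_ok TSM.expOd_three_d24 (by rw [Dec.val_pos]; norm_num) (by rw [Dec.val_pos]; norm_num)
      (by rw [Dec.val_pos]; norm_num) (by rw [Dec.val_pos]; norm_num)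
      (by rw [Dec.val_pos]; norm_num)
  · exact ed_ok TSM.expOd_three_d25 (by rw [Dec.val_pos]; norm_num) (by rw [Dec.val_pos]; norm_num)
      (by rw [Dec.val_pos]; norm_num) (by rw [Dec.val_pos]; norm_num)
      (by rw [Dec.val_pos]; norm_num)
  · exact ed_ok TSM.expOd_three_d26 (by rw [Dec.val_pos]; norm_num) (by rw [Dec.val_pos]; norm_num)
      (by rw [Dec.val_pos]; norm_num) (by rw [Dec.val_pos]; norm_num)
      (by rw [Dec.val_pos]; norm_num)
  · exact ed_ok TSM.expOd_three_d27 (by rw [Dec.val_pos]; norm_num) (by rw [Dec.val_pos]; norm_num)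
      (by rw [Dec.val_pos]; norm_num) (by rw [Dec.val_pos]; norm_num)
      (by rw [Dec.val_pos]; norm_num)
  · exact ed_ok TSM.expOd_three_d30 (by rw [Dec.val_pos]; norm_num) (by rw [Dec.val_pos]; norm_num)
      (by rw [Dec.val_pos]; norm_num) (by rw [Dec.val_pos]; norm_num)
      (by rw [Dec.val_zero])
  · exact ed_ok TSM.expOd_three_d31 (by rw [Dec.val_pos]; norm_num) (by rw [Dec.val_pos]; norm_num)
      (by rw [Dec.val_pos]; norm_num) (by rw [Dec.val_pos]; norm_num)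
      (by rw [Dec.val_pos]; norm_num)
  · exact ed_ok TSM.expOd_three_d32 (by rw [Dec.val_pos]; norm_num) (by rw [Dec.val_pos]; norm_num)
      (by rw [Dec.val_pos]; norm_num) (by rw [Dec.val_pos]; norm_num)
      (by rw [Dec.val_zero])
  · exact ed_ok TSM.expOd_three_d33 (by rw [Dec.val_pos]; norm_num) (by rw [Dec.val_pos]; norm_num)
      (by rw [Dec.val_pos]; norm_num) (by rw [Dec.val_pos]; norm_num)
      (by rw [Dec.val_pos]; norm_num)
  · exact ed_ok TSM.expOd_three_d34 (by rw [Dec.val_pos]; norm_num) (by rw [Dec.val_pos]; norm_num)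
      (by rw [Dec.val_pos]; norm_num) (by rw [Dec.val_pos]; norm_num)
      (by rw [Dec.val_pos]; norm_num)
  · exact ed_ok TSM.expOd_three_d35 (by rw [Dec.val_pos]; norm_num) (by rw [Dec.val_pos]; norm_num)
      (by rw [Dec.val_pos]; norm_num) (by rw [Dec.val_pos]; norm_num)
      (by rw [Dec.val_pos]; norm_num)
  · exact ed_ok TSM.expOd_three_d36 (by rw [Dec.val_pos]; norm_num) (by rw [Dec.val_pos]; norm_num)
      (by rw [Dec.val_pos]; norm_num) (by rw [Dec.val_pos]; norm_num)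
      (by rw [Dec.val_pos]; norm_num)
  · exact ed_ok TSM.expOd_three_d37 (by rw [Dec.val_pos]; norm_num) (by rw [Dec.val_pos]; norm_num)
      (by rw [Dec.val_pos]; norm_num) (by rw [Dec.val_pos]; norm_num)
      (by rw [Dec.val_pos]; norm_num)
  · exact ed_ok TSM.expOd_three_d40 (by rw [Dec.val_pos]; norm_num) (by rw [Dec.val_pos]; norm_num)
      (by rw [Dec.val_pos]; norm_num) (by rw [Dec.val_pos]; norm_num)
      (by rw [Dec.val_zero])
  · exact ed_ok TSM.expOd_three_d41 (by rw [Dec.val_pos]; norm_num) (by rw [Dec.val_pos]; norm_num)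
      (by rw [Dec.val_pos]; norm_num) (by rw [Dec.val_pos]; norm_num)
      (by rw [Dec.val_pos]; norm_num)
  · exact ed_ok TSM.expOd_three_d42 (by rw [Dec.val_pos]; norm_num) (by rw [Dec.val_pos]; norm_num)
      (by rw [Dec.val_pos]; norm_num) (by rw [Dec.val_pos]; norm_num)
      (by rw [Dec.val_zero])
  · exact ed_ok TSM.expOd_three_d43 (by rw [Dec.val_pos]; norm_num) (by rw [Dec.val_pos]; norm_num)
      (by rw [Dec.val_pos]; norm_num) (by rw [Dec.val_pos]; norm_num)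
      (by rw [Dec.val_pos]; norm_num)
  · exact ed_ok TSM.expOd_three_d44 (by rw [Dec.val_pos]; norm_num) (by rw [Dec.val_pos]; norm_num)
      (by rw [Dec.val_pos]; norm_num) (by rw [Dec.val_pos]; norm_num)
      (by rw [Dec.val_pos]; norm_num)
  · exact ed_ok TSM.expOd_three_d45 (by rw [Dec.val_pos]; norm_num) (by rw [Dec.val_pos]; norm_num)
      (by rw [Dec.val_pos]; norm_num) (by rw [Dec.val_pos]; norm_num)
      (by rw [Dec.val_pos]; norm_num)
  · exact ed_ok TSM.expOd_three_d46 (by rw [Dec.val_pos]; norm_num) (by rw [Dec.val_pos]; norm_num)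
      (by rw [Dec.val_pos]; norm_num) (by rw [Dec.val_pos]; norm_num)
      (by rw [Dec.val_pos]; norm_num)
  · exact ed_ok TSM.expOd_three_d47 (by rw [Dec.val_pos]; norm_num) (by rw [Dec.val_pos]; norm_num)
      (by rw [Dec.val_pos]; norm_num) (by rw [Dec.val_pos]; norm_num)
      (by rw [Dec.val_pos]; norm_num)

/-- the rows for `5` children -/
def tabD5 : List ECd :=
  [⟨Dec.pos 564 3, Dec.pos 2 2, Dec.zero, Dec.zero⟩,
    ⟨Dec.pos 501 3, Dec.pos 3 2, Dec.zero, Dec.zero⟩,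
    ⟨Dec.pos 469 3, Dec.pos 3 2, Dec.zero, Dec.pos 1 2⟩,
    ⟨Dec.pos 416 3, Dec.pos 4 2, Dec.zero, Dec.pos 3 2⟩,
    ⟨Dec.pos 34 2, Dec.pos 4 2, Dec.zero, Dec.pos 1 1⟩,
    ⟨Dec.pos 645 3, Dec.pos 2 2, Dec.pos 2 1, Dec.zero⟩,
    ⟨Dec.pos 567 3, Dec.pos 3 2, Dec.pos 2 1, Dec.zero⟩,
    ⟨Dec.pos 541 3, Dec.pos 3 2, Dec.pos 2 1, Dec.pos 1 2⟩,
    ⟨Dec.pos 491 3, Dec.pos 4 2, Dec.pos 2 1, Dec.pos 3 2⟩,
    ⟨Dec.pos 394 3, Dec.pos 4 2, Dec.pos 2 1, Dec.pos 1 1⟩,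
    ⟨Dec.pos 702 3, Dec.pos 2 2, Dec.pos 3333333333333333 16, Dec.zero⟩,
    ⟨Dec.pos 611 3, Dec.pos 3 2, Dec.pos 3333333333333333 16, Dec.zero⟩,
    ⟨Dec.pos 585 3, Dec.pos 3 2, Dec.pos 3333333333333333 16, Dec.pos 1 2⟩,
    ⟨Dec.pos 534 3, Dec.pos 4 2, Dec.pos 3333333333333333 16, Dec.pos 3 2⟩,
    ⟨Dec.pos 434 3, Dec.pos 4 2, Dec.pos 3333333333333333 16, Dec.pos 1 1⟩,
    ⟨Dec.pos 857 3, Dec.pos 2 2, Dec.pos 6666666666666666 16, Dec.zero⟩,
    ⟨Dec.pos 713 3, Dec.pos 3 2, Dec.pos 6666666666666666 16, Dec.zero⟩,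
    ⟨Dec.pos 701 3, Dec.pos 3 2, Dec.pos 6666666666666666 16, Dec.pos 1 2⟩,
    ⟨Dec.pos 619 3, Dec.pos 4 2, Dec.pos 6666666666666666 16, Dec.pos 3 2⟩,
    ⟨Dec.pos 531 3, Dec.pos 4 2, Dec.pos 6666666666666666 16, Dec.pos 1 1⟩]

lemma tabD5_ok : ∀ e ∈ tabD5, ExpOd 5 e.c.val e.mu.val e.P.val e.de.val := by
  intro e he
  simp only [tabD5, List.mem_cons, List.not_mem_nil, or_false] at he
  rcases he with rfl | rfl | rfl | rfl | rfl | rfl | rfl | rfl | rfl | rfl | rfl | rfl | rfl |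
    rfl | rfl | rfl | rfl | rfl | rfl | rfl
  · exact ed_ok TSM.expOd_five_d00 (by rw [Dec.val_pos]; norm_num) (by rw [Dec.val_pos]; norm_num)
      (by rw [Dec.val_zero]) (by rw [Dec.val_zero])
      (by rw [Dec.val_zero])
  · exact ed_ok TSM.expOd_five_d01 (by rw [Dec.val_pos]; norm_num) (by rw [Dec.val_pos]; norm_num)
      (by rw [Dec.val_zero]) (by rw [Dec.val_zero])
      (by rw [Dec.val_zero])
  · exact ed_ok TSM.expOd_five_d02 (by rw [Dec.val_pos]; norm_num) (by rw [Dec.val_pos]; norm_num)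
      (by rw [Dec.val_zero]) (by rw [Dec.val_zero])
      (by rw [Dec.val_pos]; norm_num)
  · exact ed_ok TSM.expOd_five_d03 (by rw [Dec.val_pos]; norm_num) (by rw [Dec.val_pos]; norm_num)
      (by rw [Dec.val_zero]) (by rw [Dec.val_zero])
      (by rw [Dec.val_pos]; norm_num)
  · exact ed_ok TSM.expOd_five_d04 (by rw [Dec.val_pos]; norm_num) (by rw [Dec.val_pos]; norm_num)
      (by rw [Dec.val_zero]) (by rw [Dec.val_zero])
      (by rw [Dec.val_pos]; norm_num)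
  · exact ed_ok TSM.expOd_five_d10 (by rw [Dec.val_pos]; norm_num) (by rw [Dec.val_pos]; norm_num)
      (by rw [Dec.val_pos]; norm_num) (by rw [Dec.val_pos]; norm_num)
      (by rw [Dec.val_zero])
  · exact ed_ok TSM.expOd_five_d11 (by rw [Dec.val_pos]; norm_num) (by rw [Dec.val_pos]; norm_num)
      (by rw [Dec.val_pos]; norm_num) (by rw [Dec.val_pos]; norm_num)
      (by rw [Dec.val_zero])
  · exact ed_ok TSM.expOd_five_d12 (by rw [Dec.val_pos]; norm_num) (by rw [Dec.val_pos]; norm_num)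
      (by rw [Dec.val_pos]; norm_num) (by rw [Dec.val_pos]; norm_num)
      (by rw [Dec.val_pos]; norm_num)
  · exact ed_ok TSM.expOd_five_d13 (by rw [Dec.val_pos]; norm_num) (by rw [Dec.val_pos]; norm_num)
      (by rw [Dec.val_pos]; norm_num) (by rw [Dec.val_pos]; norm_num)
      (by rw [Dec.val_pos]; norm_num)
  · exact ed_ok TSM.expOd_five_d14 (by rw [Dec.val_pos]; norm_num) (by rw [Dec.val_pos]; norm_num)
      (by rw [Dec.val_pos]; norm_num) (by rw [Dec.val_pos]; norm_num)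
      (by rw [Dec.val_pos]; norm_num)
  · exact ed_ok TSM.expOd_five_d20 (by rw [Dec.val_pos]; norm_num) (by rw [Dec.val_pos]; norm_num)
      (by rw [Dec.val_pos]; norm_num) (by rw [Dec.val_pos]; norm_num)
      (by rw [Dec.val_zero])
  · exact ed_ok TSM.expOd_five_d21 (by rw [Dec.val_pos]; norm_num) (by rw [Dec.val_pos]; norm_num)
      (by rw [Dec.val_pos]; norm_num) (by rw [Dec.val_pos]; norm_num)
      (by rw [Dec.val_zero])
  · exact ed_ok TSM.expOd_five_d22 (by rw [Dec.val_pos]; norm_num) (by rw [Dec.val_pos]; norm_num)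
      (by rw [Dec.val_pos]; norm_num) (by rw [Dec.val_pos]; norm_num)
      (by rw [Dec.val_pos]; norm_num)
  · exact ed_ok TSM.expOd_five_d23 (by rw [Dec.val_pos]; norm_num) (by rw [Dec.val_pos]; norm_num)
      (by rw [Dec.val_pos]; norm_num) (by rw [Dec.val_pos]; norm_num)
      (by rw [Dec.val_pos]; norm_num)
  · exact ed_ok TSM.expOd_five_d24 (by rw [Dec.val_pos]; norm_num) (by rw [Dec.val_pos]; norm_num)
      (by rw [Dec.val_pos]; norm_num) (by rw [Dec.val_pos]; norm_num)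
      (by rw [Dec.val_pos]; norm_num)
  · exact ed_ok TSM.expOd_five_d30 (by rw [Dec.val_pos]; norm_num) (by rw [Dec.val_pos]; norm_num)
      (by rw [Dec.val_pos]; norm_num) (by rw [Dec.val_pos]; norm_num)
      (by rw [Dec.val_zero])
  · exact ed_ok TSM.expOd_five_d31 (by rw [Dec.val_pos]; norm_num) (by rw [Dec.val_pos]; norm_num)
      (by rw [Dec.val_pos]; norm_num) (by rw [Dec.val_pos]; norm_num)
      (by rw [Dec.val_zero])
  · exact ed_ok TSM.expOd_five_d32 (by rw [Dec.val_pos]; norm_num) (by rw [Dec.val_pos]; norm_num)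
      (by rw [Dec.val_pos]; norm_num) (by rw [Dec.val_pos]; norm_num)
      (by rw [Dec.val_pos]; norm_num)
  · exact ed_ok TSM.expOd_five_d33 (by rw [Dec.val_pos]; norm_num) (by rw [Dec.val_pos]; norm_num)
      (by rw [Dec.val_pos]; norm_num) (by rw [Dec.val_pos]; norm_num)
      (by rw [Dec.val_pos]; norm_num)
  · exact ed_ok TSM.expOd_five_d34 (by rw [Dec.val_pos]; norm_num) (by rw [Dec.val_pos]; norm_num)
      (by rw [Dec.val_pos]; norm_num) (by rw [Dec.val_pos]; norm_num)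
      (by rw [Dec.val_pos]; norm_num)

/-- the rows for `7` children -/
def tabD7 : List ECd :=
  [⟨Dec.pos 548 3, Dec.pos 4 2, Dec.zero, Dec.zero⟩,
    ⟨Dec.pos 548 3, Dec.pos 5 2, Dec.zero, Dec.zero⟩,
    ⟨Dec.pos 497 3, Dec.pos 5 2, Dec.zero, Dec.pos 2 2⟩,
    ⟨Dec.pos 386 3, Dec.pos 5 2, Dec.zero, Dec.pos 1 1⟩,
    ⟨Dec.pos 64 2, Dec.pos 4 2, Dec.pos 3333333333333333 16, Dec.zero⟩,
    ⟨Dec.pos 639 3, Dec.pos 5 2, Dec.pos 3333333333333333 16, Dec.zero⟩,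
    ⟨Dec.pos 587 3, Dec.pos 5 2, Dec.pos 3333333333333333 16, Dec.pos 2 2⟩,
    ⟨Dec.pos 468 3, Dec.pos 5 2, Dec.pos 3333333333333333 16, Dec.pos 1 1⟩,
    ⟨Dec.pos 734 3, Dec.pos 4 2, Dec.pos 6666666666666666 16, Dec.zero⟩,
    ⟨Dec.pos 699 3, Dec.pos 5 2, Dec.pos 6666666666666666 16, Dec.zero⟩,
    ⟨Dec.pos 645 3, Dec.pos 5 2, Dec.pos 6666666666666666 16, Dec.pos 2 2⟩,
    ⟨Dec.pos 547 3, Dec.pos 5 2, Dec.pos 6666666666666666 16, Dec.pos 1 1⟩]

lemma tabD7_ok : ∀ e ∈ tabD7, ExpOd 7 e.c.val e.mu.val e.P.val e.de.val := by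
  intro e he
  simp only [tabD7, List.mem_cons, List.not_mem_nil, or_false] at he
  rcases he with rfl | rfl | rfl | rfl | rfl | rfl | rfl | rfl | rfl | rfl | rfl | rfl
  · exact ed_ok TSM.expOd_seven_d00 (by rw [Dec.val_pos]; norm_num) (by rw [Dec.val_pos]; norm_num)
      (by rw [Dec.val_zero]) (by rw [Dec.val_zero])
      (by rw [Dec.val_zero])
  · exact ed_ok TSM.expOd_seven_d01 (by rw [Dec.val_pos]; norm_num) (by rw [Dec.val_pos]; norm_num)
      (by rw [Dec.val_zero]) (by rw [Dec.val_zero])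
      (by rw [Dec.val_zero])
  · exact ed_ok TSM.expOd_seven_d02 (by rw [Dec.val_pos]; norm_num) (by rw [Dec.val_pos]; norm_num)
      (by rw [Dec.val_zero]) (by rw [Dec.val_zero])
      (by rw [Dec.val_pos]; norm_num)
  · exact ed_ok TSM.expOd_seven_d03 (by rw [Dec.val_pos]; norm_num) (by rw [Dec.val_pos]; norm_num)
      (by rw [Dec.val_zero]) (by rw [Dec.val_zero])
      (by rw [Dec.val_pos]; norm_num)
  · exact ed_ok TSM.expOd_seven_d10 (by rw [Dec.val_pos]; norm_num) (by rw [Dec.val_pos]; norm_num)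
      (by rw [Dec.val_pos]; norm_num) (by rw [Dec.val_pos]; norm_num)
      (by rw [Dec.val_zero])
  · exact ed_ok TSM.expOd_seven_d11 (by rw [Dec.val_pos]; norm_num) (by rw [Dec.val_pos]; norm_num)
      (by rw [Dec.val_pos]; norm_num) (by rw [Dec.val_pos]; norm_num)
      (by rw [Dec.val_zero])
  · exact ed_ok TSM.expOd_seven_d12 (by rw [Dec.val_pos]; norm_num) (by rw [Dec.val_pos]; norm_num)
      (by rw [Dec.val_pos]; norm_num) (by rw [Dec.val_pos]; norm_num)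
      (by rw [Dec.val_pos]; norm_num)
  · exact ed_ok TSM.expOd_seven_d13 (by rw [Dec.val_pos]; norm_num) (by rw [Dec.val_pos]; norm_num)
      (by rw [Dec.val_pos]; norm_num) (by rw [Dec.val_pos]; norm_num)
      (by rw [Dec.val_pos]; norm_num)
  · exact ed_ok TSM.expOd_seven_d20 (by rw [Dec.val_pos]; norm_num) (by rw [Dec.val_pos]; norm_num)
      (by rw [Dec.val_pos]; norm_num) (by rw [Dec.val_pos]; norm_num)
      (by rw [Dec.val_zero])
  · exact ed_ok TSM.expOd_seven_d21 (by rw [Dec.val_pos]; norm_num) (by rw [Dec.val_pos]; norm_num)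
      (by rw [Dec.val_pos]; norm_num) (by rw [Dec.val_pos]; norm_num)
      (by rw [Dec.val_zero])
  · exact ed_ok TSM.expOd_seven_d22 (by rw [Dec.val_pos]; norm_num) (by rw [Dec.val_pos]; norm_num)
      (by rw [Dec.val_pos]; norm_num) (by rw [Dec.val_pos]; norm_num)
      (by rw [Dec.val_pos]; norm_num)
  · exact ed_ok TSM.expOd_seven_d23 (by rw [Dec.val_pos]; norm_num) (by rw [Dec.val_pos]; norm_num)
      (by rw [Dec.val_pos]; norm_num) (by rw [Dec.val_pos]; norm_num)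
      (by rw [Dec.val_pos]; norm_num)

/-- the table -/
def tabD : ℕ → List ECd
  | 3 => tabD3
  | 5 => tabD5
  | 7 => tabD7
  | _ => []

lemma tabD_ok (kd : ℕ) : ∀ e ∈ tabD kd, ExpOd kd e.c.val e.mu.val e.P.val e.de.val := by
  intro e he
  unfold tabD at he
  split at he
  · exact tabD3_ok e he
  · exact tabD5_ok e he
  · exact tabD7_ok e he
  · simp at he

end Pool.Agent.TSG
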