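import Pool.Agent.TSG.FamO
import Pool.Agent.TSG.TabD
import Pool.Agent.TSM.OddFC
import Pool.Agent.TSM.Fam6

set_option autoImplicit false

/-!
# Families with an odd number of children, the symmetric rule (MP_d27362_co)
-/

namespace Pool.Agent.TSG

open Finset
open Pool.Agent.TSC
open Pool.Agent.TSM (q0 th RD Reg Sn NS Q5 Chd Spl FamS FamT FamK chd vU vY aU aY c1 ExpO ExpOE
  ExpOd ItD fam ILe)
open Pool.Agent.TSR (OBr sg_true sg_false)
open Pool.Agent.TLT (sg)

/-! ### the table of the constants -/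

/-- the constants may be enlarged -/
lemma expO_mono {K : ℕ} {c μ P c' μ' P' : ℝ} (h : ExpO K c μ P) (hc : c ≤ c') (hμ : μ ≤ μ')
    (hP0 : 0 ≤ P') (hP : P' ≤ P) : ExpO K c' μ' P' := by
  refine ⟨h.cq0.trans hc, h.mu0.trans hμ, hP0, fun u => ?_, fun ρ u w hρ hw hu h0 => ?_⟩
  · have h1 := h.quad u
    have h2 := mul_le_mul_of_nonneg_right hc (sq_nonneg u)
    linarith
  · have h1 := h.hexp ρ u w (hρ.trans hP) hw hu h0
    have h2 := mul_le_mul_of_nonneg_right hc (sq_nonneg u)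
    have h3 := mul_le_mul_of_nonneg_right hμ (show 0 ≤ w ^ 2 - 1 by nlinarith)
    refine h1.trans (mul_le_mul_of_nonneg_left ?_ (Real.exp_pos _).le)
    exact mul_le_mul (Real.exp_le_exp.2 h3) (by linarith) (h.quad u) (Real.exp_pos _).le

/-- the table for an odd number of children; for `0` the number is arbitrary -/
def tabO : ℕ → List EC
  | 0 => [⟨Dec.pos 72 2, Dec.pos 86 3, Dec.zero⟩]
  | 3 => [⟨Dec.pos 65 2, Dec.pos 35 4, Dec.pos 3333333333333333 16⟩,
      ⟨Dec.pos 72 2, Dec.pos 25 4, Dec.pos 3333333333333333 16⟩,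
      ⟨Dec.pos 72 2, Dec.pos 72 4, Dec.pos 6666666666666666 16⟩,
      ⟨Dec.pos 8 1, Dec.pos 46 4, Dec.pos 6666666666666666 16⟩,
      ⟨Dec.pos 5 1, Dec.pos 3 3, Dec.zero⟩]
  | 5 => [⟨Dec.pos 65 2, Dec.pos 236 4, Dec.pos 3333333333333333 16⟩,
      ⟨Dec.pos 72 2, Dec.pos 191 4, Dec.pos 3333333333333333 16⟩,
      ⟨Dec.pos 72 2, Dec.pos 292 4, Dec.pos 6666666666666666 16⟩,
      ⟨Dec.pos 8 1, Dec.pos 23 3, Dec.pos 6666666666666666 16⟩,
      ⟨Dec.pos 56 2, Dec.pos 203 4, Dec.zero⟩]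
  | 7 => [⟨Dec.pos 65 2, Dec.pos 385 4, Dec.pos 3333333333333333 16⟩,
      ⟨Dec.pos 72 2, Dec.pos 322 4, Dec.pos 3333333333333333 16⟩,
      ⟨Dec.pos 72 2, Dec.pos 42 3, Dec.pos 6666666666666666 16⟩]
  | _ => []

/-- a row from a theorem -/
lemma eo_ok {K : ℕ} {c mu P Q : Dec} {c' mu' P' : ℝ} (h : ExpO K c' mu' P') (h1 : c' ≤ c.val)
    (h2 : mu' ≤ mu.val) (h3 : P.val ≤ P') (h4 : 0 ≤ Q.val) (h5 : Q.val ≤ P.val) :
    ExpO K c.val mu.val Q.val := expO_mono h h1 h2 h4 (h5.trans h3)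

lemma tabO_three {Q : Dec} (h4 : 0 ≤ Q.val) : ∀ e ∈ tabO 3, Q.val ≤ e.P.val →
    ExpO 3 e.c.val e.mu.val Q.val := by
  intro e he h5
  simp only [tabO, List.mem_cons, List.not_mem_nil, or_false] at he
  rcases he with rfl | rfl | rfl | rfl | rfl
  · refine eo_ok TSM.expO_three_a ?_ ?_ ?_ h4 h5 <;> rw [Dec.val_pos] <;> norm_num
  · refine eo_ok TSM.expO_three_b ?_ ?_ ?_ h4 h5 <;> rw [Dec.val_pos] <;> norm_num
  · refine eo_ok TSM.expO_three_c ?_ ?_ ?_ h4 h5 <;> rw [Dec.val_pos] <;> norm_num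
  · refine eo_ok TSM.expO_three_d ?_ ?_ ?_ h4 h5 <;> rw [Dec.val_pos] <;> norm_num
  · refine eo_ok TSM.expO_three_e ?_ ?_ (by rw [Dec.val_zero]) h4 h5 <;> rw [Dec.val_pos] <;>
      norm_num

lemma tabO_five {Q : Dec} (h4 : 0 ≤ Q.val) : ∀ e ∈ tabO 5, Q.val ≤ e.P.val →
    ExpO 5 e.c.val e.mu.val Q.val := by
  intro e he h5
  simp only [tabO, List.mem_cons, List.not_mem_nil, or_false] at he
  rcases he with rfl | rfl | rfl | rfl | rfl
  · refine eo_ok TSM.expO_five_a ?_ ?_ ?_ h4 h5 <;> rw [Dec.val_pos] <;> norm_num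
  · refine eo_ok TSM.expO_five_b ?_ ?_ ?_ h4 h5 <;> rw [Dec.val_pos] <;> norm_num
  · refine eo_ok TSM.expO_five_c ?_ ?_ ?_ h4 h5 <;> rw [Dec.val_pos] <;> norm_num
  · refine eo_ok TSM.expO_five_d ?_ ?_ ?_ h4 h5 <;> rw [Dec.val_pos] <;> norm_num
  · refine eo_ok TSM.expO_five_e ?_ ?_ (by rw [Dec.val_zero]) h4 h5 <;> rw [Dec.val_pos] <;>
      norm_num

lemma tabO_seven {Q : Dec} (h4 : 0 ≤ Q.val) : ∀ e ∈ tabO 7, Q.val ≤ e.P.val →
    ExpO 7 e.c.val e.mu.val Q.val := by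
  intro e he h5
  simp only [tabO, List.mem_cons, List.not_mem_nil, or_false] at he
  rcases he with rfl | rfl | rfl
  · refine eo_ok TSM.expO_seven_a ?_ ?_ ?_ h4 h5 <;> rw [Dec.val_pos] <;> norm_num
  · refine eo_ok TSM.expO_seven_b ?_ ?_ ?_ h4 h5 <;> rw [Dec.val_pos] <;> norm_num
  · refine eo_ok TSM.expO_seven_c ?_ ?_ ?_ h4 h5 <;> rw [Dec.val_pos] <;> norm_num

/-- the test of the constants for the finite symmetric rule with `kd` children -/
def eoOk (kd : ℕ) (c mu rD de : Dec) : Bool :=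
  Nat.ble 1 kd && (Dec.nn rD && (Dec.nn de && (((tabO kd).any fun e => Dec.nn (Dec.sub c e.c) &&
    (Dec.nn (Dec.sub mu e.mu) && Dec.nn (Dec.sub e.P rD))) ||
  (tabD kd).any fun e => Dec.nn (Dec.sub c e.c) && (Dec.nn (Dec.sub mu e.mu) &&
    (Dec.nn (Dec.sub e.P rD) && Dec.nn (Dec.sub de e.de))))))

lemma eoOk_sound {kd : ℕ} {c mu rD de : Dec} (h : eoOk kd c mu rD de = true) :
    ExpOd kd c.val mu.val rD.val de.val := by
  unfold eoOk at h
  rw [Bool.and_eq_true, Bool.and_eq_true, Bool.and_eq_true, Bool.or_eq_true] at h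
  obtain ⟨h1, h2, h0, h⟩ := h
  have e0 := Dec.nn_iff h2
  have ed := Dec.nn_iff h0
  rcases h with h | h
  · rw [List.any_eq_true] at h
    obtain ⟨e, he, h3⟩ := h
    simp only [Bool.and_eq_true] at h3
    obtain ⟨k1, k2, k3⟩ := h3
    have e1 := Dec.nn_iff k1
    have e2 := Dec.nn_iff k2
    have e3 := Dec.nn_iff k3
    rw [Dec.val_sub] at e1 e2 e3
    have key : ∀ {K : ℕ}, ExpO K e.c.val e.mu.val rD.val →
        ExpOd K c.val mu.val rD.val de.val := fun h4 =>
      (expO_mono h4 (by linarith) (by linarith) e0 le_rfl).toD.mono le_rfl le_rfl e0 le_rfl ed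
    rcases kd with _ | _ | _ | _ | _ | _ | _ | _ | n
    · simp at h1
    · simp [tabO] at he
    · simp [tabO] at he
    · exact key (tabO_three e0 e he (by linarith))
    · simp [tabO] at he
    · exact key (tabO_five e0 e he (by linarith))
    · simp [tabO] at he
    · exact key (tabO_seven e0 e he (by linarith))
    · simp [tabO] at he
  · rw [List.any_eq_true] at h
    obtain ⟨e, he, h3⟩ := h
    simp only [Bool.and_eq_true] at h3
    obtain ⟨k1, k2, k3, k4⟩ := h3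
    have e1 := Dec.nn_iff k1
    have e2 := Dec.nn_iff k2
    have e3 := Dec.nn_iff k3
    have e4 := Dec.nn_iff k4
    rw [Dec.val_sub] at e1 e2 e3 e4
    exact (tabD_ok kd e he).mono (by linarith) (by linarith) e0 (by linarith) (by linarith)

/-! ### the constants of the rule -/

/-- the constants of the symmetric rule, for one interval of total masses -/
structure KO where
  /-- factor of the square -/
  cq : Dec
  /-- factor in the exponent -/
  mu : Dec
  /-- the parameter of the sup bound -/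
  l : Dec
  /-- an upper bound of `1 / l` -/
  il : Dec
  /-- factor of `t U'²` -/
  MU : Dec
  /-- factor of `y'²` -/
  MY : Dec
  /-- the cap of the gain -/
  r : Dec
  /-- multiplier of the first line -/
  k1 : Dec
  /-- multiplier of the second line -/
  k2 : Dec
  /-- multiplier of the third line -/
  k3 : Dec
  /-- multiplier of the last line -/
  k4 : Dec
  /-- the payments -/
  s : S4 (PS Dec)
  /-- the constant in the exponent -/
  de : Dec
  /-- the cost of the constant in a line, `de ≤ dl D` -/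
  dl : Dec

/-- the lines: four with the gain `y'` and two with the gain `r` -/
def ldO (k : KO) (x : Kn Dec) (i : ℕ) : LD Dec :=
  match i with
  | 0 => ⟨k.MU, k.MY, Dec.nsm 4 k.cq, Dec.nsm 2 k.cq, Dec.zero, Dec.nsm 2 k.cq, Dec.zero,
      Dec.neg k.dl, Dec.sub Dec.one k.k1, Dec.zero⟩
  | 1 => ⟨k.MU, k.MY, Dec.mul (Dec.add Dec.one x.chi) (Dec.nsm 4 k.cq),
      Dec.mul (Dec.add Dec.one x.chi) (Dec.nsm 2 k.cq), x.chi,
      Dec.mul (Dec.add Dec.one x.chi) (Dec.nsm 2 k.cq), Dec.zero,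
      Dec.neg k.dl, Dec.sub Dec.one k.k2, Dec.zero⟩
  | 2 => ⟨k.mu, k.mu, Dec.nsm 4 k.cq, Dec.nsm 2 k.cq, Dec.zero, Dec.nsm 2 k.cq, Dec.zero,
      Dec.neg k.dl, k.k3, Dec.zero⟩
  | 3 => ⟨k.mu, k.mu, Dec.mul (Dec.add Dec.one x.chi) (Dec.nsm 4 k.cq),
      Dec.mul (Dec.add Dec.one x.chi) (Dec.nsm 2 k.cq), x.chi,
      Dec.mul (Dec.add Dec.one x.chi) (Dec.nsm 2 k.cq), Dec.zero,
      Dec.neg k.dl, k.k4, Dec.zero⟩
  | 4 => ⟨k.MU, k.MY, Dec.nsm 4 k.cq, Dec.nsm 2 k.cq, Dec.zero, Dec.nsm 2 k.cq, Dec.zero,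
      Dec.sub k.r k.dl, Dec.neg k.k1, Dec.zero⟩
  | _ => ⟨k.MU, k.MY, Dec.mul (Dec.add Dec.one x.chi) (Dec.nsm 4 k.cq),
      Dec.mul (Dec.add Dec.one x.chi) (Dec.nsm 2 k.cq), x.chi,
      Dec.mul (Dec.add Dec.one x.chi) (Dec.nsm 2 k.cq), Dec.zero,
      Dec.sub k.r k.dl, Dec.neg k.k2, Dec.zero⟩

/-- the test of the constants; `kd = 0` is the rule for any number of children -/
def odOk (kd : ℕ) (k : KO) (dc : Seg (Kn Dec)) : Bool :=
  (if Nat.beq kd 0 then Dec.nn (Dec.sub k.cq (Dec.pos 72 2)) && Dec.nn (Dec.sub k.mu (Dec.pos 86 3))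
    else eoOk kd k.cq k.mu (Dec.mul k.r (Dec.add dc.a dc.w)) k.de) &&
  (Dec.nn k.dl && (Dec.nn (Dec.sub (Dec.mul k.dl dc.a) k.de) && (supOk k.mu k.l k.il k.MU k.MY (Dec.add dc.a dc.w) &&
  (Dec.nn k.r && (Dec.nn (Dec.sub k.k1 (Dec.nsm 2 k.mu)) &&
  (Dec.nn (Dec.sub k.k2 (Dec.nsm 2 k.mu)) && (Dec.nn (Dec.sub k.k3 Dec.one) &&
  (Dec.nn (Dec.sub k.k4 Dec.one) && (Dec.nn dc.a && (Dec.nn dc.w && psOk k.s))))))))))

/-! ### from the lines to the rule -/

variable {tl : List TC} {dl dl' : List (Seg (Kn Dec))} {d : Seg (Kn Dec)}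
  {D a : ℝ} {S : FS} {K : ℕ} {O : Fin K → OBr} {N : Finset (Fin K)} {σ e ρ : Fin K → Bool}
  {tc : Fin K → ℕ}

lemma pick_ge (hc : covers tl dl = true) (hD : RD D) (hw : 0 ≤ (pick dl d D).w.val) :
    (pick dl d D).a.val ≤ D := by
  obtain ⟨_, mu, m0, m1, h⟩ := pick_D (d := d) hc hD
  have := mul_nonneg m0 hw
  linarith

/-- **the symmetric rule** for an odd number of children -/
theorem od_at (hc : covers tl dl = true) (hs : LOK tl dl sgnL)
    (hD : RD D) (hm : pick dl d D ∈ dl') {kd : ℕ} (hkd : KdOk kd K) (k : ℕ → KO)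
    (hk : ∀ dc ∈ dl', odOk kd (k dc.x.ix) dc = true) (hxi : S.xi = 0)
    (hL : ∀ i < (if kd = 0 then 4 else 6), LineOK tl dl' S (fun x => ldO (k x.ix) x i)
      (fun ix => (k ix).s)) (hF : FH S O N tc σ e ρ) :
    TSM.OdT (VV tl dl d) (PP' dl d) (chiF dl d) O N tc σ e S.tn D := by
  obtain ⟨kk, hkk⟩ : ∃ kk, kk = k (pick dl d D).x.ix := ⟨_, rfl⟩
  have hk1 := hk _ hm
  rw [← hkk] at hk1
  simp only [odOk, Bool.and_eq_true] at hk1
  obtain ⟨q1, qd, qe, q2, q3, q4, q5, q6, q7, q8, q9, q10⟩ := hk1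
  have hDle := pick_le (d := d) hc hD (Dec.nn_iff q9)
  have hdl0 := Dec.nn_iff qd
  have hdeD : kk.de.val ≤ kk.dl.val * D := by
    have h1 := Dec.nn_iff qe
    rw [Dec.val_sub, Dec.val_mul] at h1
    have h2 := mul_le_mul_of_nonneg_left (pick_ge (d := d) hc hD (Dec.nn_iff q9)) hdl0
    linarith
  obtain ⟨s1, s2, s3⟩ := supOk_sound q2 hD.1 hDle
  have e3 := Dec.nn_iff q3
  have e4 := Dec.nn_iff q4
  have e5 := Dec.nn_iff q5
  have e6 := Dec.nn_iff q6
  have e7 := Dec.nn_iff q7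
  rw [Dec.val_sub, Dec.val_nsm] at e4 e5
  rw [Dec.val_sub, Dec.val_one] at e6 e7
  push_cast at e4 e5
  have hpay : ∀ ty, (((k (pick dl d D).x.ix).s.map (PS.map Dec.val)).ty ty).Ok := by
    rw [← hkk]
    exact psOk_sound q10
  have hχ : chiF dl d D = (pick dl d D).x.chi.val := rfl
  have hss : 0 ≤ ∑ i ∈ N, (((k (pick dl d D).x.ix).s.map (PS.map Dec.val)).ty
      (tc i)).pv (O i) * D :=
    sum_nonneg fun i _ => mul_nonneg ((hpay _).pv (hF.hS.hO.hI i)) hD.1
  have v2 : ∀ z : Dec, (Dec.nsm 2 z).val = 2 * z.val := fun z => by rw [Dec.val_nsm]; norm_num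
  have v4 : ∀ z : Dec, (Dec.nsm 4 z).val = 4 * z.val := fun z => by rw [Dec.val_nsm]; norm_num
  -- the lines at a point
  have key : ∀ a, Reg D a → a < q0 → ∀ i < (if kd = 0 then 4 else 6), ∀ l : LD Dec,
      l = ldO kk (pick dl d D).x i →
      VV tl dl d D a ((chd S.tn (fam σ e O)).sn a) +
        l.MU.val * (a * (TSM.UU (fam σ e O)).eval a ^ 2) +
        l.MY.val * ((TSM.YY (fam σ e O)).eval a - 0) ^ 2 +
      l.b.val * (a ^ 2 * (TSM.UU (fam σ e O)).eval a ^ 2 +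
        a * ((TSM.YY (fam σ e O)).eval a - 0) ^ 2) +
      l.al.val * (-(a * (TSM.UU (fam σ e O)).eval a) +
        a * 0 * ((TSM.YY (fam σ e O)).eval a - 0)) +
      (l.k0.val + l.k1.val * a) - (l.g0.val + l.g1.val * (TSM.YY (fam σ e O)).eval a) -
      l.z.val * PP' dl d D a ((chd S.tn (fam σ e O)).sn a) +
      (∑ i ∈ N, (((k (pick dl d D).x.ix).s.map (PS.map Dec.val)).ty (tc i)).pv (O i) * D) *
        (1 - D / (q0 - a)) ≤
      ∑ i, TSM.Vi (VV tl dl d) N tc O i D a -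
        l.sr.val * ∑ i, TSM.Vi (PP' dl d) N tc O i D a := by
    intro a ha haq i hi l hl
    obtain ⟨F, x, hLA⟩ := (hL i hi).at (d := d) hc ha hm
    have h3 := hLA.mom hc hs ha haq hF (by rw [hxi]; exact zero_le_one) hpay
    have h4 : F.l = l.map Dec.val := by rw [hLA.hl, hl, hkk]
    rw [h4, hxi, Nat.cast_zero] at h3
    exact h3
  -- the sup bound
  have hM : ∀ a, Reg D a → kk.mu.val * ((1 + kk.l.val) * ((TSM.YY (fam σ e O)).eval a ^ 2 +
      a * (TSM.UU (fam σ e O)).eval a ^ 2) +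
      (1 + 1 / kk.l.val) * D * (TSM.YY (fam σ e O)).eval a ^ 2) ≤
      kk.MU.val * (a * (TSM.UU (fam σ e O)).eval a ^ 2) +
        kk.MY.val * (TSM.YY (fam σ e O)).eval a ^ 2 := by
    intro a ha
    have h1 := mul_le_mul_of_nonneg_right s2
      (mul_nonneg ha.2.2.1 (sq_nonneg ((TSM.UU (fam σ e O)).eval a)))
    have h2 := mul_le_mul_of_nonneg_right s3 (sq_nonneg ((TSM.YY (fam σ e O)).eval a))
    linarith
  have l0 : ∀ a, Reg D a → a < q0 → _ := fun a ha haq =>
    key a ha haq 0 (by split_ifs <;> norm_num) _ rfl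
  have l1 : ∀ a, Reg D a → a < q0 → _ := fun a ha haq =>
    key a ha haq 1 (by split_ifs <;> norm_num) _ rfl
  have l2 : ∀ a, Reg D a → a < q0 → _ := fun a ha haq =>
    key a ha haq 2 (by split_ifs <;> norm_num) _ rfl
  have l3 : ∀ a, Reg D a → a < q0 → _ := fun a ha haq =>
    key a ha haq 3 (by split_ifs <;> norm_num) _ rfl
  simp only [ldO, Dec.val_mul, Dec.val_add, Dec.val_sub, v4, v2, Dec.val_one, Dec.val_zero,
    Dec.val_neg, ← hχ] at l0 l1 l2 l3
  rcases Nat.eq_zero_or_pos kd with h0 | h0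
  · subst h0
    rw [if_pos (show Nat.beq 0 0 = true from rfl), Bool.and_eq_true] at q1
    have e8 := Dec.nn_iff q1.1
    have e9 := Dec.nn_iff q1.2
    rw [Dec.val_sub, Dec.val_pos] at e8 e9
    norm_num at e8 e9
    have hE : ExpOE kk.cq.val kk.mu.val := by
      refine ⟨?_, ?_, fun u => ?_, fun u w hw hu => ?_⟩
      · linarith
      · linarith
      · have h1 := TSM.expOE_a.quad u
        have h2 := mul_le_mul_of_nonneg_right e8 (sq_nonneg u)
        linarith
      · have h1 := TSM.expOE_a.hexp u w hw hu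
        have h2 := mul_le_mul_of_nonneg_right e8 (sq_nonneg u)
        have h3 := mul_le_mul_of_nonneg_right e9 (show 0 ≤ w ^ 2 - 1 by nlinarith)
        refine h1.trans ?_
        exact mul_le_mul (Real.exp_le_exp.2 h3) (by linarith) (TSM.expOE_a.quad u)
          (Real.exp_pos _).le
    refine TSM.OdF.toD (TSM.OdE.toF ⟨kk.cq.val, kk.mu.val, kk.l.val, kk.k1.val, kk.k2.val, kk.k3.val,
      kk.k4.val, hE, s1, by linarith, by linarith, by linarith, by linarith,
      ILe.c1 _ hss fun a ha hq hD => ?_, ILe.c1 _ hss fun a ha hq hD => ?_,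
      ILe.c1 _ hss fun a ha hq hD => ?_, ILe.c1 _ hss fun a ha hq hD => ?_⟩ hkd.2 hD.1
      (TSM.poly_bd _ D))
    · have g0 := l0 a ha hq
      have g2 := hM a ha
      unfold q0 at g0
      linarith
    · have g0 := l1 a ha hq
      have g2 := hM a ha
      unfold q0 at g0
      linarith
    · have g0 := l2 a ha hq
      unfold q0 at g0
      linarith
    · have g0 := l3 a ha hq
      unfold q0 at g0
      linarith
  · have hb : ¬ Nat.beq kd 0 = true := by
      rw [Nat.beq_eq]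
      omega
    rw [if_neg hb] at q1
    have hE := eoOk_sound q1
    have hkK : kd = K := by
      rcases hkd.1 with h | h
      · omega
      · exact h
    rw [hkK] at hE
    have l4 : ∀ a, Reg D a → a < q0 → _ := fun a ha haq =>
      key a ha haq 4 (by rw [if_neg (by omega)]; norm_num) _ rfl
    have l5 : ∀ a, Reg D a → a < q0 → _ := fun a ha haq =>
      key a ha haq 5 (by rw [if_neg (by omega)]; norm_num) _ rfl
    simp only [ldO, Dec.val_mul, Dec.val_add, Dec.val_neg, Dec.val_sub, v4, v2, Dec.val_one,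
      Dec.val_zero, ← hχ] at l4 l5
    have hrP : kk.r.val * D ≤ (Dec.mul kk.r (Dec.add (pick dl d D).a (pick dl d D).w)).val := by
      rw [Dec.val_mul]
      exact mul_le_mul_of_nonneg_left hDle e3
    refine ⟨kk.cq.val, kk.mu.val, _, kk.de.val, kk.dl.val, kk.l.val, kk.r.val, kk.k1.val,
      kk.k2.val, kk.k3.val,
      kk.k4.val, fun a => min ((TSM.YY (fam σ e O)).eval a) kk.r.val, hE, s1, hrP, hdeD,
      by linarith, by linarith, by linarith, by linarith, ILe.pt fun a _ => min_le_left _ _,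
      ILe.pt fun a _ => min_le_right _ _,
      ILe.c1 _ hss fun a ha hq hD => ?_, ILe.c1 _ hss fun a ha hq hD => ?_,
      ILe.c1 _ hss fun a ha hq hD => ?_, ILe.c1 _ hss fun a ha hq hD => ?_⟩
    · dsimp only
      have g0 := l0 a ha hq
      have g1 := l4 a ha hq
      have g2 := hM a ha
      unfold q0 at g0 g1
      rcases le_total ((TSM.YY (fam σ e O)).eval a) kk.r.val with h | h
      · rw [min_eq_left h]
        linarith
      · rw [min_eq_right h]
        linarith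
    · dsimp only
      have g0 := l1 a ha hq
      have g1 := l5 a ha hq
      have g2 := hM a ha
      unfold q0 at g0 g1
      rcases le_total ((TSM.YY (fam σ e O)).eval a) kk.r.val with h | h
      · rw [min_eq_left h]
        linarith
      · rw [min_eq_right h]
        linarith
    · dsimp only
      have g0 := l2 a ha hq
      unfold q0 at g0
      linarith
    · dsimp only
      have g0 := l3 a ha hq
      unfold q0 at g0
      linarith

end Pool.Agent.TSG
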