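import Pool.Agent.TSG.FamG

set_option autoImplicit false

/-!
# The groups of one child for families of children: soundness (MP_d27362_co)
-/

namespace Pool.Agent.TSG

open Finset
open Pool.Agent.TSC (Ar Hom ArHom QI pmap pev realHom)
open Pool.Agent.TSM (Sn NS CT Spl Wt FamS chd vU vY aU aY q0)
open Pool.Agent.TSR (OBr sg_true sg_false)
open Pool.Agent.TLT (sg)

lemma rZero : (Ar.zero : ℝ) = 0 := rfl
lemma rOne : (Ar.one : ℝ) = 1 := rfl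
lemma rAdd (x y : ℝ) : Ar.add x y = x + y := rfl
lemma rMul (x y : ℝ) : Ar.mul x y = x * y := rfl
lemma rNeg (x : ℝ) : Ar.neg x = -x := rfl
lemma rSub (x y : ℝ) : Ar.sub x y = x - y := rfl
lemma rNsm (k : ℕ) (x : ℝ) : Ar.nsm k x = k * x := rfl

/-- conditions on the weights -/
structure SX.Ok (x : SX ℝ) : Prop where
  fU0 : 0 ≤ x.fU
  fU1 : x.fU ≤ 1
  rU : 1 < x.rU
  sU : 1 ≤ (x.rU - 1) * (x.sU - 1)
  zU0 : 0 ≤ x.zU
  zU1 : x.zU ≤ 1
  fG0 : 0 ≤ x.fG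
  fG1 : x.fG ≤ 1
  rG : 1 < x.rG
  sG : 1 ≤ (x.rG - 1) * (x.sG - 1)
  zG0 : 0 ≤ x.zG
  yG0 : 0 ≤ x.yG
  zG1 : x.zG + x.yG ≤ 1
  fq0 : 0 ≤ x.fq
  fq1 : x.fq ≤ 1
  fe0 : 0 ≤ x.fe
  fv0 : 0 ≤ x.fv
  fg2 : 2 ≤ x.fg
  kW0 : 0 ≤ x.kW
  kW1 : x.kW ≤ 1

/-- the creation inequalities -/
structure SX.Cr (x : SX ℝ) (a : ℝ) : Prop where
  h2 : TSM.Cre a x.la x.ga x.be
  h1 : TSM.Cre a x.lb x.gb 0
  hl : TSM.CreL x.kl

/-- conditions on the coefficients of the new state -/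
structure NA.Ok (p : NA ℝ) : Prop where
  be : 0 ≤ p.be
  de : 0 ≤ p.de
  lU : 0 ≤ p.lU
  qU : 0 ≤ p.qU
  ly : 0 ≤ p.ly
  qy : 0 ≤ p.qy

/-- conditions on the numbers of a point -/
structure PX.Ok (P : PX ℝ) (D a : ℝ) : Prop where
  ht : P.t = a
  hD : P.D = D
  hT : q0 ≤ P.T
  hT0 : P.T0 ≤ q0
  hth : TSM.th a ≤ P.th
  hw : a < q0 → P.D2 * P.w ≤ D * (D / (q0 - a))

/-- the number of the children: either it is bounded by `M`, or the weights do not use it -/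
structure SX.Num (x : SX ℝ) (m : ℝ) (M : ℕ) : Prop where
  hU : m * x.fU = M * x.fU
  hG : m * x.fG = M * x.fG
  hq : m * x.fq = M * x.fq

/-- the coefficients as in the total inequality -/
noncomputable def CA.ct (k : CA ℝ) (cv dv : ℝ) : CT :=
  ⟨k.y1, k.y2, k.w2, k.b1, k.b2, k.u1, k.u2, k.v2, k.a2, k.l, cv, -(q0 * dv)⟩

lemma th_nonneg (a : ℝ) : 0 ≤ TSM.th a := Real.sqrt_nonneg _

lemma pos_of_rs {r s : ℝ} (hr : 1 < r) (hs : 1 ≤ (r - 1) * (s - 1)) : 0 ≤ s := by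
  by_contra h
  push Not at h
  nlinarith

/-- the constant of a line, `vm` is the bound of the square of the value of `G` -/
noncomputable def kapR (P : PX ℝ) (p : NA ℝ) (x : SX ℝ) (n : ℕ) (vm : ℝ) : ℝ :=
  p.c + 4 * ((1 - x.zU) * (x.rU * bU p x)) + vm * ((1 - x.zG) * zzG P p x) +
    (n * p.ga + n * p.de + n * p.dv)

/-- **the splitting of the new state** -/
theorem spl_of {P : PX ℝ} {p : NA ℝ} {x : SX ℝ} {D a m : ℝ} {M n : ℕ} (hP : P.Ok D a)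
    (hp : p.Ok) (hx : x.Ok) (hcr : x.Cr a) (hw : 0 ≤ wwG P p x) (hm : 0 ≤ m) (hM : x.Num m M)
    (hn : n ≤ 1) {vm : ℝ} : Spl p.ns a m x.fe n vm x.fv (kapR P p x n vm)
      ((ctA P p x M n).ct p.cv p.dv) x.fg := by
  have hq := TSM.q0_pos
  have hT0 : 0 ≤ P.T := hq.le.trans hP.hT
  have hTT : 0 ≤ P.T * P.T := mul_nonneg hT0 hT0
  have hth0 := th_nonneg a
  have hth2 : TSM.th a ^ 2 ≤ P.th * P.th := by
    have h1 := hP.hth
    nlinarith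
  have hsU := pos_of_rs hx.rU hx.sU
  have hsG := pos_of_rs hx.rG hx.sG
  have hrU : 0 ≤ x.rU := by linarith [hx.rU]
  have hrG : 0 ≤ x.rG := by linarith [hx.rG]
  have hf : 0 ≤ x.fe := hx.fe0
  have hU0 : 0 ≤ (1 - x.fU) * p.be := mul_nonneg (by linarith [hx.fU1]) hp.be
  have hde : 0 ≤ a ^ 2 * p.de := mul_nonneg (sq_nonneg _) hp.de
  have hG0 : 0 ≤ (1 - x.fG) * (a ^ 2 * p.de) := mul_nonneg (by linarith [hx.fG1]) hde
  have hQ2 : 0 ≤ (1 - x.fq) * p.qy := mul_nonneg (by linarith [hx.fq1]) hp.qy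
  have hQ1 : 0 ≤ x.fq * p.qy := mul_nonneg hx.fq0 hp.qy
  have hga := hcr.h2.g0
  have hlam := hcr.h2.lam0
  have hkW := hx.kW0
  have hzz : 0 ≤ x.rG * ((1 - x.fG) * (a ^ 2 * p.de)) +
      x.ga * ((1 - x.fq) * p.qy * P.T ^ 2) := by
    positivity
  have hmU : m * (x.fU * p.be) = M * (x.fU * p.be) := by
    rw [← mul_assoc, hM.hU, mul_assoc]
  have hmG : m * (x.fG * (a ^ 2 * p.de)) = M * (x.fG * (a ^ 2 * p.de)) := by
    rw [← mul_assoc, hM.hG, mul_assoc]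
  have hmq : m * (x.fq * p.qy) = M * (x.fq * p.qy) := by
    rw [← mul_assoc, hM.hq, mul_assoc]
  have hn' : (n : ℝ) ^ 2 = n ∧ ((2 * n : ℕ) : ℝ) = 2 * n := by
    interval_cases n <;> norm_num
  obtain ⟨en, e2⟩ := hn'
  have hzG : 0 ≤ 1 - x.zG := by linarith [hx.zG1, hx.yG0]
  refine ⟨⟨P.T, x.fq * p.qy, (1 - x.fq) * p.qy, x.la, x.ga, x.be, x.lb, x.gb, x.kl,
    4 * ((1 - x.zU) * (x.rU * ((1 - x.fU) * p.be))),
    vm * ((1 - x.zG) * (x.rG * ((1 - x.fG) * (a ^ 2 * p.de)) +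
      x.ga * ((1 - x.fq) * p.qy * P.T ^ 2))),
    M * (x.fU * p.be), x.zU * (x.rU * ((1 - x.fU) * p.be)),
    x.fe * (x.sU * (P.th * P.th * ((1 - x.fU) * p.be)) + p.qU),
    M * (x.fG * (a ^ 2 * p.de)),
    x.fv * (x.zG * (x.rG * ((1 - x.fG) * (a ^ 2 * p.de)) +
      x.ga * ((1 - x.fq) * p.qy * P.T ^ 2))),
    x.fg * (x.kW * (x.sG * (P.th * P.th * ((1 - x.fG) * (a ^ 2 * p.de)))) +
      x.la * ((1 - x.fq) * p.qy * P.T ^ 2)),
    hP.hT, hQ1, ?_, hcr.h2, hcr.h1, hcr.hl, ⟨⟨x.fU * p.be, (1 - x.fU) * p.be, x.rU, x.sU,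
      (1 - x.zU) * (x.rU * ((1 - x.fU) * p.be)), x.zU * (x.rU * ((1 - x.fU) * p.be)),
      mul_nonneg hx.fU0 hp.be, hU0,
      mul_nonneg (by linarith [hx.zU1]) (mul_nonneg hrU hU0),
      mul_nonneg hx.zU0 (mul_nonneg hrU hU0), ?_, hx.rU, hx.sU, ?_, hmU.le, le_rfl, ?_, ?_⟩,
      le_rfl, hp.qU⟩,
    ⟨⟨x.fG * (a ^ 2 * p.de), (1 - x.fG) * (a ^ 2 * p.de), x.rG, x.sG,
      (1 - x.zG) * (x.rG * ((1 - x.fG) * (a ^ 2 * p.de)) +
        x.ga * ((1 - x.fq) * p.qy * P.T ^ 2)),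
      x.zG * (x.rG * ((1 - x.fG) * (a ^ 2 * p.de)) + x.ga * ((1 - x.fq) * p.qy * P.T ^ 2)),
      x.kW * (x.sG * ((1 - x.fG) * (a ^ 2 * p.de))),
      mul_nonneg hx.fG0 hde, hG0, mul_nonneg hzG hzz,
      mul_nonneg hx.zG0 hzz, mul_nonneg hkW (mul_nonneg hsG hG0), ?_, hx.rG, hx.sG, ?_, hmG.le,
      le_rfl, le_rfl, ?_, ?_⟩, hQ2⟩,
    ?_, ?_⟩, hp.lU, hp.ly, hm⟩
  · show p.qy = _
    ring
  · show p.be ≤ _
    linarith
  · linarith
  · rw [one_mul]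
  · have h1 := mul_le_mul_of_nonneg_left (mul_le_mul_of_nonneg_right hth2 hU0) hsU
    show x.fe * (x.sU * TSM.th a ^ 2 * ((1 - x.fU) * p.be) + p.qU) ≤ _
    refine mul_le_mul_of_nonneg_left ?_ hf
    linarith
  · show a ^ 2 * p.de ≤ _
    linarith
  · linarith
  · have h1 : 0 ≤ x.be * ((1 - x.fq) * p.qy) -
        (1 - x.kW) * (x.sG * ((1 - x.fG) * (P.t * P.t * p.de))) := hw
    rw [hP.ht] at h1
    linarith
  · have h1 := mul_le_mul_of_nonneg_right hth2 (mul_nonneg hkW (mul_nonneg hsG hG0))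
    have h2 : 0 ≤ x.la * ((1 - x.fq) * p.qy * P.T ^ 2) := by positivity
    have h3 : 0 ≤ TSM.th a ^ 2 * (x.kW * (x.sG * ((1 - x.fG) * (a ^ 2 * p.de)))) :=
      mul_nonneg (sq_nonneg _) (mul_nonneg hkW (mul_nonneg hsG hG0))
    refine mul_le_mul_of_nonneg_left ?_ (by linarith [hx.fg2])
    linarith
  · show kapR P p x n vm = p.c + _ + _ + p.ga * n + p.de * n ^ 2 + p.dv * n
    rw [en]
    simp only [kapR, bU, zzG, bG, qG, rAdd, rMul, rSub, rOne, hP.ht]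
    ring
  · have e5 : (M : ℝ) * (x.gb * (x.fq * p.qy * (P.T * P.T))) =
        m * (x.fq * p.qy) * P.T ^ 2 * x.gb := by
      have := hmq
      linear_combination (-(x.gb * P.T ^ 2)) * hmq
    have e6 : (M : ℝ) * (x.lb * (x.fq * p.qy * (P.T * P.T))) =
        m * (x.fq * p.qy) * P.T ^ 2 * x.lb := by
      linear_combination (-(x.lb * P.T ^ 2)) * hmq
    simp only [CA.ct, ctA, bU, zzG, bG, qG, rAdd, rMul, rSub, rOne, rNsm, rNeg, hP.ht, e2,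
      NA.ns, e5, e6]
    congr 1
    all_goals push_cast
    all_goals ring

/-- the bounds of the coefficient of `v_y'` times `q0` -/
lemma dLo_le {P : PX ℝ} {p : NA ℝ} {D a m : ℝ} (hP : P.Ok D a) (hm : 0 ≤ m)
    (hd : 0 ≤ p.dv + m) : dLo P p m ≤ q0 * p.dv ∧ q0 * p.dv ≤ dHi P p m := by
  have h1 := mul_le_mul_of_nonneg_right hP.hT0 hd
  have h2 := mul_le_mul_of_nonneg_right hP.hT hd
  have h3 := mul_le_mul_of_nonneg_right hP.hT0 hm
  have h4 := mul_le_mul_of_nonneg_right hP.hT hm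
  constructor
  · show P.T0 * (p.dv + m) - P.T * m ≤ _
    linarith
  · show _ ≤ P.T * (p.dv + m) - P.T0 * m
    linarith

/-- the forms of a child are below the value; `V` are the coefficients of the child, `K` are the
terms of a child -/
theorem famK_le {P : PX ℝ} {V p : NA ℝ} {x : SX ℝ} {D a m : ℝ} (hP : P.Ok D a)
    (hp : p.Ok) (hx : x.Ok) (ha : a < q0) {K : CA ℝ} (hy1 : K.y1 = p.al) (hb1 : K.b1 = p.lU)
    (hw2' : K.w2 = x.zU * (x.rU * ((1 - x.fU) * p.be))) (k ds s yy : ℝ) (hm : 0 ≤ m)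
    (hdm : 0 ≤ p.dv + m) (hs : 0 ≤ s) (c : Sn) (hv : 0 ≤ c.vU)
    (hy : |c.y - c.vY| ≤ TSM.th a * c.aY) (b1 b2 b3 : Bool) :
    (famU P V p K k s yy m b2).ev c.u c.vU c.aU +
      (famY P V p x K (Ar.mul x.zU (bU p x)) ds b1 b3).ev c.y c.vY c.aY ≤
      V.ns.ev c - (k + ds) - s * D * (1 - D / (q0 - a)) -
        (K.ct p.cv p.dv).ev (sg b1) (sg b2) (sg b3) c +
        sg b2 * (yy * c.vU) := by
  have hth0 := th_nonneg a
  have hsU := pos_of_rs hx.rU hx.sU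
  have hrU : 0 ≤ x.rU := by linarith [hx.rU]
  have hU0 : 0 ≤ (1 - x.fU) * p.be := mul_nonneg (by linarith [hx.fU1]) hp.be
  have hz0 : 0 ≤ x.zU * ((1 - x.fU) * p.be) := mul_nonneg hx.zU0 hU0
  have hpay : s * (P.D2 * P.w) - s * D ≤ -(s * D * (1 - D / (q0 - a))) := by
    have h3 := mul_le_mul_of_nonneg_left (hP.hw ha) hs
    linarith
  have hnear : c.y ^ 2 ≤ x.rU * c.vY ^ 2 + x.sU * ((P.th * P.th) * c.aY ^ 2) := by
    have h1 := TSM.near_sq hy hx.rU hx.sU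
    have h2 : TSM.th a ^ 2 ≤ P.th * P.th := by
      have := hP.hth
      nlinarith
    have h3 := mul_le_mul_of_nonneg_left (mul_le_mul_of_nonneg_right h2 (sq_nonneg c.aY)) hsU
    linarith
  have hnear' := mul_le_mul_of_nonneg_left hnear hz0
  have hw2 : K.w2 = x.rU * (x.zU * ((1 - x.fU) * p.be)) := by
    rw [hw2']
    ring
  have hzz : (Ar.mul x.zU (bU p x) : ℝ) = x.zU * ((1 - x.fU) * p.be) := rfl
  have hq1 : dLo P p m * c.vU ≤ q0 * p.dv * c.vU :=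
    mul_le_mul_of_nonneg_right (dLo_le hP hm hdm).1 hv
  have hq2 : q0 * p.dv * c.vU ≤ dHi P p m * c.vU :=
    mul_le_mul_of_nonneg_right (dLo_le hP hm hdm).2 hv
  rw [hzz]
  obtain ⟨z, hz⟩ : ∃ z, z = x.zU * ((1 - x.fU) * p.be) := ⟨_, rfl⟩
  rw [← hz] at hnear' hw2 ⊢
  have e0 : (famU P V p K k s yy m b2).ev c.u c.vU c.aU =
      V.c - k + (s * (P.D2 * P.w) - s * D) + V.al * c.u - sg b2 * K.u1 * c.u +
        (V.be - K.u2) * c.u ^ 2 + V.cv * c.vU +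
        (if b2 then dLo P p m * c.vU + yy * c.vU
          else -(dHi P p m * c.vU) - yy * c.vU) -
        K.v2 * c.vU ^ 2 + V.lU * c.aU + (V.qU - K.a2) * c.aU ^ 2 -
        K.l * Real.sqrt (c.vU ^ 2 + c.aU ^ 2) := by
    unfold famU QI.ev
    simp only [rAdd, rMul, rSub, rNeg, hP.hD]
    rcases b2 with _ | _ <;>
      simp only [Bool.false_eq_true, if_true, if_false, sg_true, sg_false] <;> ring
  have e1 : (famY P V p x K z ds b1 b3).ev c.y c.vY c.aY =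
      -ds + V.ga * c.y - sg b1 * p.al * c.y + (V.de - K.y2) * c.y ^ 2 + V.dv * c.vY -
        sg b1 * p.cv * c.vY - (if b3 then K.w2 * c.vY ^ 2 else
          -(z * c.y ^ 2 - z * (x.sU * ((P.th * P.th) * c.aY ^ 2)))) +
        (V.ly - p.lU) * c.aY + (V.qy - K.b2) * c.aY ^ 2 := by
    unfold famY QI.ev
    simp only [rAdd, rMul, rSub, rNeg, rZero]
    rcases b1 with _ | _ <;> rcases b3 with _ | _ <;>
      simp only [Bool.false_eq_true, if_true, if_false, sg_true, sg_false] <;> ring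
  have e2 : (K.ct p.cv p.dv).ev (sg b1) (sg b2) (sg b3) c = sg b1 * p.al * c.y +
      K.y2 * c.y ^ 2 +
      sg b3 * (K.w2 * c.vY ^ 2) + p.lU * c.aY + K.b2 * c.aY ^ 2 + sg b2 * K.u1 * c.u +
      K.u2 * c.u ^ 2 + K.v2 * c.vU ^ 2 + K.a2 * c.aU ^ 2 +
      K.l * Real.sqrt (c.vU ^ 2 + c.aU ^ 2) + sg b1 * p.cv * c.vY -
      sg b2 * (q0 * p.dv * c.vU) := by
    unfold CT.ev CA.ct
    dsimp only
    rw [hy1, hb1]
    ring
  rw [e0, e1, e2]
  unfold NS.ev NA.ns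
  dsimp only
  rcases b3 with _ | _ <;> rcases b2 with _ | _ <;>
    simp only [Bool.false_eq_true, if_true, if_false, sg_true, sg_false]
  · rw [hw2]
    linarith
  · rw [hw2]
    linarith
  · linarith
  · linarith

/-- the forms of a child are below the value; `V` are the coefficients of the child -/
theorem famG_le {P : PX ℝ} {V p : NA ℝ} {x : SX ℝ} {D a m : ℝ} (hP : P.Ok D a)
    (hp : p.Ok) (hx : x.Ok) (ha : a < q0) (M n : ℕ) (k ds s yy : ℝ) (hm : 0 ≤ m)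
    (hdm : 0 ≤ p.dv + m) (hs : 0 ≤ s) (c : Sn) (hv : 0 ≤ c.vU)
    (hy : |c.y - c.vY| ≤ TSM.th a * c.aY) (b1 b2 b3 : Bool) :
    (famU P V p (ctA P p x M n) k s yy m b2).ev c.u c.vU c.aU +
      (famY P V p x (ctA P p x M n) (Ar.mul x.zU (bU p x)) ds b1 b3).ev c.y c.vY c.aY ≤
      V.ns.ev c - (k + ds) - s * D * (1 - D / (q0 - a)) -
        ((ctA P p x M n).ct p.cv p.dv).ev (sg b1) (sg b2) (sg b3) c +
        sg b2 * (yy * c.vU) :=
  famK_le hP hp hx ha rfl rfl rfl k ds s yy hm hdm hs c hv hy b1 b2 b3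

end Pool.Agent.TSG
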