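import Pool.Agent.TSG.FamC

set_option autoImplicit false

/-!
# The lines of a family from the groups of all cells: the line (MP_d27362_co)
-/

namespace Pool.Agent.TSG

open Finset
open Pool.Agent.TSC
open Pool.Agent.TSM (q0 th RD Reg Sn NS Q5 Chd Spl FamS FamT chd vU vY aU aY c1 fam)
open Pool.Agent.TSR (OBr sg_true sg_false)
open Pool.Agent.TLT (sg)

variable {tl : List TC} {dl : List (Seg (Kn Dec))} {d : Seg (Kn Dec)} {S : FS}
  {lf : Kn Dec → LD Dec} {sf : ℕ → S4 (PS Dec)} {D a : ℝ} {F : FE ℝ} {x : FX Dec}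

/-- the value of a payment -/
noncomputable def PS.pv (k : PS ℝ) (O : OBr) : ℝ :=
  k.c + (k.vU * TSM.vU O + k.aU * TSM.aU O ^ 2 + k.vY * TSM.vY O + k.aY * TSM.aY O ^ 2)

/-- the coefficients of a payment are not negative -/
structure PS.Ok (k : PS ℝ) : Prop where
  c : 0 ≤ k.c
  vU : 0 ≤ k.vU
  aU : 0 ≤ k.aU
  vY : 0 ≤ k.vY
  aY : 0 ≤ k.aY

lemma PS.Ok.ext {k : PS ℝ} (h : k.Ok) {O : OBr} (hI : TSM.Inv O) :
    0 ≤ k.vU * TSM.vU O + k.aU * TSM.aU O ^ 2 + k.vY * TSM.vY O + k.aY * TSM.aY O ^ 2 := by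
  have h1 := mul_nonneg h.vU hI.2.1
  have h2 := mul_nonneg h.vY hI.2.2.2.1
  have h3 := mul_nonneg h.aU (sq_nonneg (TSM.aU O))
  have h4 := mul_nonneg h.aY (sq_nonneg (TSM.aY O))
  linarith

lemma PS.Ok.pv {k : PS ℝ} (h : k.Ok) {O : OBr} (hI : TSM.Inv O) : 0 ≤ k.pv O :=
  add_nonneg h.c (h.ext hI)

/-- the test of a payment -/
def psOk1 (k : PS Dec) : Bool :=
  Dec.nn k.c && (Dec.nn k.vU && (Dec.nn k.aU && (Dec.nn k.vY && Dec.nn k.aY)))

/-- the test of the payments -/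
def psOk (s : S4 (PS Dec)) : Bool :=
  psOk1 s.s0 && (psOk1 s.s1 && (psOk1 s.s2 && (psOk1 s.s3 && psOk1 s.s4)))

lemma psOk1_sound {k : PS Dec} (h : psOk1 k = true) : (k.map Dec.val).Ok := by
  simp only [psOk1, Bool.and_eq_true] at h
  obtain ⟨h1, h2, h3, h4, h5⟩ := h
  exact ⟨Dec.nn_iff h1, Dec.nn_iff h2, Dec.nn_iff h3, Dec.nn_iff h4, Dec.nn_iff h5⟩

lemma psOk_sound {s : S4 (PS Dec)} (h : psOk s = true) (n : ℕ) :
    ((s.map (PS.map Dec.val)).ty n).Ok := by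
  simp only [psOk, Bool.and_eq_true] at h
  obtain ⟨h1, h2, h3, h4, h5⟩ := h
  rw [S4.map_ty]
  rcases n with _ | _ | _ | _ | n
  · exact psOk1_sound h1
  · exact psOk1_sound h2
  · exact psOk1_sound h3
  · exact psOk1_sound h4
  · exact psOk1_sound h5

/-- the coefficients with the variable part of the payment -/
lemma pay_ev (v : NA ℝ) (l l' : ℝ) (k : PS ℝ) (z : ℝ) (ty : ℕ) (O : OBr) :
    (v.pay l l' k z).ns.ev ((chd ty O).sn a) = v.ns.ev ((chd ty O).sn a) + l * TSM.vY O +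
      l' * TSM.vU O +
      z * (k.vU * TSM.vU O + k.aU * TSM.aU O ^ 2 + k.vY * TSM.vY O + k.aY * TSM.aY O ^ 2) := by
  unfold NA.pay NS.ev NA.ns Chd.sn chd
  simp only [rAdd, rMul]
  ring

/-- the potential of a type -/
lemma vt_ev (τ : VT ℝ) (s : Sn) : (τ.na).ns.ev s = τ.ev s := by
  unfold NS.ev NA.ns VT.na VT.ev
  rfl

/-- the pending cost of a type -/
lemma pd_ev {E : En ℝ} (hE : E.Ok realHom D a) (s : Sn) :
    ((pdQ E s.ty).q5).ev s = E.k.pd.ev D a s := by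
  have hk : ∀ y : ℝ, realHom.f y = y := fun _ => rfl
  have h1 := hE.ht
  have h2 := hE.hD
  have h3 := hE.hhf
  rw [hk] at h1 h2 h3
  unfold PD.ev Q5.ev QA.q5 pdQ
  rcases s.ty with _ | _ | _ | _ | n
  · simp only [rMul, rZero, h1]
    ring
  · simp only [rMul, rZero, rNsm, kq, h1, h3]
    push_cast
    ring
  · simp only [rMul, rZero, rAdd, zc, h1, h2]
    ring
  · simp only [rMul, rAdd, pqA, h1, PQ.ev]
    ring
  · simp only [rMul, rAdd, pqA, h1, PQ.ev]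
    ring

/-- the coefficients of a child -/
lemma vC_ev (hE : F.E.Ok realHom D a) (s : Sn) :
    (F.vC s.ty).ns.ev s = F.E.V.ev s - F.l.sr * F.E.k.pd.ev D a s := by
  rw [← pd_ev hE s]
  show _ = (F.E.V.ty s.ty).ev s - _
  rw [← vt_ev]
  unfold FE.vC NA.sub NA.add NS.ev NA.ns Q5.ev QA.q5
  simp only [rAdd, rNeg, rMul]
  ring

lemma LAt.ok (h : LAt tl dl d S lf sf D a F x) (hc : covers tl dl = true)
    (hs : LOK tl dl sgnL) (ha : Reg D a) : F.E.Ok realHom D a := by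
  rw [h.hE]
  exact enAt_ok hc hs ha

lemma LAt.px (h : LAt tl dl d S lf sf D a F x) (hc : covers tl dl = true)
    (hs : LOK tl dl sgnL) (ha : Reg D a) : F.px.Ok D a := by
  have hE := h.ok hc hs ha
  exact ⟨hE.ht, hE.hD, hE.hT, hE.hTl, h.hth, hE.hw⟩

/-- the constants of the group of constants are nonnegative -/
lemma LAt.cs (h : LAt tl dl d S lf sf D a F x) : ∀ k ∈ F.cs S, 0 ≤ k := by
  intro k hk
  have h1 := h.h2 (cstG (F.cs S)) (by simp [FE.g2]) ⟨0, 0, 0, 0, 0, 0⟩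
    (by constructor <;> simp) (qc k) (List.mem_map.2 ⟨k, hk, rfl⟩) qz0
    (List.mem_singleton.2 rfl)
  simpa [qc, qz0, QI.ev, rZero] using h1

lemma LAt.sx (h : LAt tl dl d S lf sf D a F x) : F.x.x.Ok := by
  have h1 := h.hok
  unfold fxOk at h1
  rw [Bool.and_eq_true] at h1
  rw [h.hx]
  exact sxOk_sound h1.1

lemma LAt.mx (h : LAt tl dl d S lf sf D a F x) : F.x.MOk := by
  have h1 := h.hok
  unfold fxOk at h1
  rw [Bool.and_eq_true, Bool.and_eq_true, Bool.and_eq_true] at h1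
  rw [h.hx]
  exact mxOk_sound h1.2.2.1

/-- the weights for the second role -/
lemma LAt.ny0 (h : LAt tl dl d S lf sf D a F x) (hn : S.nr ≠ 0) :
    0 ≤ F.x.nx.u0 ∧ (S.nr = 1 → 0 ≤ F.x.nx.u1) ∧ 0 ≤ F.x.nx.lN := by
  have h1 := h.hok
  unfold fxOk at h1
  simp only [Bool.and_eq_true] at h1
  have h2 := h1.2.2.2.2.2.2.1
  rw [h.hx]
  unfold nyOk at h2
  rcases hnr : S.nr with _ | _ | k
  · exact absurd hnr hn
  · rw [hnr] at h2
    simp only [Bool.and_eq_true] at h2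
    exact ⟨Dec.nn_iff h2.1, fun _ => Dec.nn_iff h2.2.1, Dec.nn_iff h2.2.2⟩
  · rw [hnr] at h2
    simp only [Bool.and_eq_true] at h2
    exact ⟨Dec.nn_iff h2.1, fun h => absurd h (by omega), Dec.nn_iff h2.2.1⟩

/-- the weights of the full norm rule -/
lemma LAt.ny (h : LAt tl dl d S lf sf D a F x) (hn : 2 ≤ S.nr) :
    F.x.nx.Ok F.x.x ∧ F.x.nx.kN = S.kN.val := by
  have h1 := h.hok
  unfold fxOk at h1
  simp only [Bool.and_eq_true] at h1
  have h2 := h1.2.2.2.2.2.2.1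
  rw [h.hx]
  unfold nyOk at h2
  obtain ⟨k, hk⟩ : ∃ k, S.nr = k + 2 := ⟨S.nr - 2, by omega⟩
  rw [hk] at h2
  simp only [Bool.and_eq_true] at h2
  exact ny2Ok_sound (sxOk_sound h1.1) h2.2.2

lemma LAt.bd (h : LAt tl dl d S lf sf D a F x) : S.f.val ≤ F.x.x.fe ∧ S.vm.val ≤ F.x.x.vm ∧
    S.fv.val ≤ F.x.x.fv ∧ S.gm.val ≤ F.x.x.gm ∧ S.fg.val ≤ F.x.x.fg ∧
    (S.z = true → F.x.x.zU = 0) := by
  have h1 := h.hok
  unfold fxOk bdOk at h1
  simp only [Bool.and_eq_true] at h1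
  obtain ⟨k0, ⟨k1, k2, k3, k4, k5, k6⟩, _⟩ := h1
  have e1 := Dec.nn_iff k1
  have e2 := Dec.nn_iff k2
  have e3 := Dec.nn_iff k3
  have e4 := Dec.nn_iff k4
  have e5 := Dec.nn_iff k5
  rw [Dec.val_sub] at e1 e2 e3 e4 e5
  rw [h.hx]
  refine ⟨?_, ?_, ?_, ?_, ?_, fun hz => ?_⟩
  · show _ ≤ x.x.fe.val
    linarith
  · show _ ≤ x.x.vm.val
    linarith
  · show _ ≤ x.x.fv.val
    linarith
  · show _ ≤ x.x.gm.val
    linarith
  · show _ ≤ x.x.fg.val
    linarith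
  · have h0 : 0 ≤ x.x.zU.val := (sxOk_sound k0).zU0
    rw [hz] at k6
    have h6 := Dec.nn_iff (by simpa using k6 : (Dec.neg x.x.zU).nn = true)
    rw [Dec.val_neg] at h6
    show x.x.zU.val = 0
    linarith

lemma LAt.rg (h : LAt tl dl d S lf sf D a F x) : rgOk S x = true := by
  have h1 := h.hok
  unfold fxOk at h1
  simp only [Bool.and_eq_true] at h1
  exact h1.2.2.2.2.2.1

/-- the bounds of the new `v_y` -/
lemma LAt.lohi (h : LAt tl dl d S lf sf D a F x) {y g : ℝ} (hy : y = S.n - q0 * g)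
    (hg : GSg S.gs S.gm.val g) (hv : g ^ 2 ≤ S.vm.val) (hl : (lo S.tn : ℝ) ≤ y)
    (hh : y ≤ (hi S.tn : ℝ)) : F.x.lo ≤ y ∧ y ≤ F.x.hi := by
  obtain ⟨b1, b2, b3, b4, _⟩ := h.bd
  rw [h.hx] at b2 b4 ⊢
  have b2 : S.vm.val ≤ x.x.vm.val := b2
  have b4 : S.gm.val ≤ x.x.gm.val := b4
  have hr := h.rg
  unfold rgOk at hr
  rw [Bool.and_eq_true, Bool.and_eq_true] at hr
  have hg' : GSg S.gs x.x.gm.val g := by
    rcases hg with h1 | ⟨h1, h2, h3⟩ | ⟨h1, h2, h3⟩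
    · exact Or.inl h1
    · exact Or.inr (Or.inl ⟨h1, h2, by linarith⟩)
    · exact Or.inr (Or.inr ⟨h1, h2, by linarith⟩)
  exact ⟨loOk_sound hr.1 hy hg' (hv.trans b2) hl, hiOk_sound hr.2.1 hy hg' (hv.trans b2) hh⟩

/-- the numbers of the regions -/
lemma LAt.sn (h : LAt tl dl d S lf sf D a F x) : F.x.sy = S.rg.sy.val ∧
    F.x.su = S.rg.su.val := by
  have hr := h.rg
  unfold rgOk at hr
  simp only [Bool.and_eq_true] at hr
  rw [h.hx]
  exact ⟨eqD_iff hr.2.2.1, eqD_iff hr.2.2.2⟩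

lemma LAt.pn (h : LAt tl dl d S lf sf D a F x) : 0 ≤ (F.pN S).be ∧ 0 ≤ (F.pN S).de :=
  ⟨h.cs _ (by simp [FE.cs]), h.cs _ (by simp [FE.cs])⟩

lemma LAt.pok (h : LAt tl dl d S lf sf D a F x) (hc : covers tl dl = true)
    (hs : LOK tl dl sgnL) (ha : Reg D a) : (F.pM S).Ok := by
  have hE := h.ok hc hs ha
  have hm := h.mx
  obtain ⟨h1, h2⟩ := h.pn
  have hA := pos_of_rs hm.rA hm.sA
  have hB := pos_of_rs hm.rB hm.sB
  have e1 := hm.eU0
  have e2 := hm.eY0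
  have hq1 : 0 ≤ (F.pN S).qU := hE.hqU _
  have hq2 : 0 ≤ (F.pN S).qy := hE.hqy _
  refine ⟨?_, ?_, hE.hlU _, ?_, hE.hly _, ?_⟩
  · show 0 ≤ (1 - F.x.eU) * (F.pN S).be
    exact mul_nonneg (by linarith [hm.eU1]) h1
  · show 0 ≤ (1 - F.x.eY) * (F.pN S).de
    exact mul_nonneg (by linarith [hm.eY1]) h2
  · show 0 ≤ (F.pN S).qU + F.x.sA * (F.th * F.th * (F.x.eU * (F.pN S).be))
    have : 0 ≤ F.th * F.th := mul_self_nonneg _
    positivity
  · show 0 ≤ (F.pN S).qy + F.x.sB * (F.th * F.th * (F.x.eY * (F.pN S).de))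
    have : 0 ≤ F.th * F.th := mul_self_nonneg _
    positivity

/-- the new state with the bounds is above the new state -/
lemma LAt.pM_le (h : LAt tl dl d S lf sf D a F x) {s : Sn} (hu : |s.u - s.vU| ≤ th a * s.aU)
    (hy : |s.y - s.vY| ≤ th a * s.aY) (h0 : 0 ≤ s.vU) (h2 : s.vU ≤ 2)
    (hl : F.x.lo ≤ s.vY) (hh : s.vY ≤ F.x.hi) :
    (F.pN S).ns.ev s ≤ (F.pM S).ns.ev s := by
  have hm := h.mx
  obtain ⟨hb, hd⟩ := h.pn
  have hA := pos_of_rs hm.rA hm.sA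
  have hB := pos_of_rs hm.rB hm.sB
  have ht : th a ^ 2 ≤ F.th * F.th := by
    have h1 := h.hth
    have h2 := th_nonneg a
    nlinarith
  have b1 : s.u ^ 2 ≤ F.x.rA * (2 * s.vU) + F.x.sA * ((F.th * F.th) * s.aU ^ 2) := by
    have h1 := TSM.near_sq hu hm.rA hm.sA
    have h3 := mul_le_mul_of_nonneg_left (mul_le_mul_of_nonneg_right ht (sq_nonneg s.aU)) hA
    have h4 : s.vU ^ 2 ≤ 2 * s.vU := by nlinarith
    have h5 := mul_le_mul_of_nonneg_left h4 (show 0 ≤ F.x.rA by linarith [hm.rA])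
    linarith
  have b2 : s.y ^ 2 ≤ F.x.rB * ((F.x.lo + F.x.hi) * s.vY - F.x.lo * F.x.hi) +
      F.x.sB * ((F.th * F.th) * s.aY ^ 2) := by
    have h1 := TSM.near_sq hy hm.rB hm.sB
    have h3 := mul_le_mul_of_nonneg_left (mul_le_mul_of_nonneg_right ht (sq_nonneg s.aY)) hB
    have h4 : s.vY ^ 2 ≤ (F.x.lo + F.x.hi) * s.vY - F.x.lo * F.x.hi := by
      nlinarith [mul_nonneg (sub_nonneg.2 hl) (sub_nonneg.2 hh)]
    have h5 := mul_le_mul_of_nonneg_left h4 (show 0 ≤ F.x.rB by linarith [hm.rB])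
    linarith
  have c1 := mul_le_mul_of_nonneg_left b1 (mul_nonneg hm.eU0 hb)
  have c2 := mul_le_mul_of_nonneg_left b2 (mul_nonneg hm.eY0 hd)
  have c3 := mul_nonneg hm.l1 (sub_nonneg.2 h2)
  have c4 := mul_nonneg hm.l2 h0
  have c5 := mul_nonneg hm.l3 (sub_nonneg.2 hh)
  have c6 := mul_nonneg hm.l4 (sub_nonneg.2 hl)
  have e1 : (F.pM S).ns.ev s = (F.pN S).ns.ev s + F.x.l1 * (2 - s.vU) + F.x.l2 * (s.vU - 0) +
      F.x.l3 * (F.x.hi - s.vY) + F.x.l4 * (s.vY - F.x.lo) +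
      (F.x.eU * (F.pN S).be * (F.x.rA * (2 * s.vU) + F.x.sA * ((F.th * F.th) * s.aU ^ 2)) -
        F.x.eU * (F.pN S).be * s.u ^ 2) +
      (F.x.eY * (F.pN S).de * (F.x.rB * ((F.x.lo + F.x.hi) * s.vY - F.x.lo * F.x.hi) +
        F.x.sB * ((F.th * F.th) * s.aY ^ 2)) - F.x.eY * (F.pN S).de * s.y ^ 2) := by
    unfold NS.ev NA.ns FE.pM
    simp only [rAdd, rMul, rSub, rNsm, rOne]
    push_cast
    ring
  rw [e1]
  linarith

variable {K : ℕ} {O : Fin K → OBr} {N : Finset (Fin K)} {σ e ρ : Fin K → Bool} {m : ℝ}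
  {tc : Fin K → ℕ} {Y : TSM.Sys} {Adm' : ℕ → ℝ → ℝ → ℝ → ℝ → Prop} {V' P' : ℝ → ℝ → Sn → ℝ}

/-- the number of the children fits to the shape -/
def ShN (S : FS) (N : Finset (Fin K)) : Prop :=
  (S.M = 0 ∧ 4 ≤ N.card) ∨ (N.card = S.M ∧ S.M ≠ 0) ∨ (100 ≤ S.M ∧ S.M ≤ N.card + 100)

/-- the share of the constant and the sum of the shares of the roles -/
lemma LAt.shares (h : LAt tl dl d S lf sf D a F x) (hN : ShN S N)
    (hρ0 : Even N.card → ∑ i ∈ N, sg (ρ i) = 0) (hρ1 : Odd N.card → ∑ i ∈ N, sg (ρ i) = 1)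
    (hO : TSM.FamO O N) (ht : ∀ i ∈ N, tc i = 0 ↔ TSM.tau (O i) = 0)
    (h3 : S.n3 = true → ∀ i ∈ N, tc i ≤ 2) (hpa : S.cok (c1 O N) = true) :
    F.kp S + (F.x.sy * F.lm S + F.x.su * F.ln S) ≤ N.card * (Ar.mul F.x.cm (F.ka S)) ∧
      0 ≤ ∑ i ∈ N, rsh (ρ i) (F.x.dp.ty (tc i)) (F.x.dm.ty (tc i)) := by
  have h1 := h.hok
  unfold fxOk at h1
  rw [Bool.and_eq_true, Bool.and_eq_true, Bool.and_eq_true, Bool.and_eq_true] at h1
  obtain ⟨_, _, _, hks, hcm⟩ := h1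
  rw [Bool.and_eq_true] at hcm
  have hcm := hcm.1
  have hks := Dec.nn_iff hks
  have hcs := h.cs
  have hka : F.kp S + (F.x.sy * F.lm S + F.x.su * F.ln S) ≤ F.ka S := by
    have h2 : F.ka S = F.kp S + (F.x.ks + (F.x.sy * F.lm S + F.x.su * F.ln S)) := rfl
    have h3 : F.x.ks = x.ks.val := by rw [h.hx]; rfl
    rw [h2, h3]
    linarith
  have hk0 : S.M ≠ 2 → 0 ≤ F.ka S := fun hM => by
    have := hcs (if S.M = 2 then Ar.zero else F.ka S) (by simp [FE.cs])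
    rwa [if_neg hM] at this
  have hsum := sum_nz hO tc ht
  rw [rMul]
  have hcmv : F.x.cm = x.cm.val := by rw [h.hx]; rfl
  have hdp : F.x.dp = x.dp.map Dec.val := by rw [h.hx]; rfl
  have hdm : F.x.dm = x.dm.map Dec.val := by rw [h.hx]; rfl
  rw [hcmv, hdp, hdm]
  have hc1 : c1 O N ≤ N.card := card_filter_le _ _
  have hrho : ∑ i ∈ N, sg (ρ i) = 0 ∨ ∑ i ∈ N, sg (ρ i) = 1 := by
    rcases Nat.even_or_odd N.card with hE | hE
    · exact Or.inl (hρ0 hE)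
    · exact Or.inr (hρ1 hE)
  -- many children, the number is only bounded below
  have hmany : ∀ q : ℕ, 4 ≤ q → q ≤ N.card → S.M ≠ 2 → many0 q S.n3 x = true →
      F.kp S + (F.x.sy * F.lm S + F.x.su * F.ln S) ≤ N.card * (x.cm.val * F.ka S) ∧
      0 ≤ ∑ i ∈ N, rsh (ρ i) ((x.dp.map Dec.val).ty (tc i)) ((x.dm.map Dec.val).ty (tc i)) := by
    intro q hq4 hqN hM2 hq
    unfold many0 at hq
    simp only [Bool.and_eq_true] at hq
    obtain ⟨_, _, _, g4, gz0, gz1, ge0, ge1, g5⟩ := hq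
    have g4 := Dec.nn_iff g4
    have gz0 := Dec.nn_iff gz0
    have gz1 := Dec.nn_iff gz1
    have ge0 := Dec.nn_iff ge0
    have ge1 := Dec.nn_iff ge1
    rw [Dec.val_sub, Dec.val_nsm, Dec.val_one] at g4
    rw [Dec.val_add, Dec.val_nsm] at ge0 ge1
    have g7 := manyOk_sound g5
    have h5 : (q : ℝ) ≤ N.card := by exact_mod_cast hqN
    have h5' : (4 : ℝ) ≤ q := by exact_mod_cast hq4
    have h6 := hk0 hM2
    have hc0 : 0 ≤ x.cm.val := by
      by_contra h9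
      push Not at h9
      have := mul_neg_of_pos_of_neg (show (0 : ℝ) < q by linarith) h9
      linarith
    refine ⟨?_, rsumM (fun t => (x.dp.map Dec.val).ty t) (fun t => (x.dm.map Dec.val).ty t)
      (z0 := x.z0.val) (z1 := x.z1.val) (ε := x.ep.val) ?_
      fun i hi => g7 _ fun hn => h3 hn i hi⟩
    · have h7 : (1 : ℝ) ≤ N.card * x.cm.val := by
        have := mul_le_mul_of_nonneg_right h5 hc0
        linarith
      nlinarith
    · rw [hsum]
      have h8 : (c1 O N : ℝ) ≤ N.card := by exact_mod_cast hc1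
      have h11 : (0 : ℝ) ≤ c1 O N := Nat.cast_nonneg _
      have h9 := mul_nonneg h11 gz1
      have h10 := mul_nonneg (sub_nonneg.2 h8) gz0
      rcases hrho with hr | hr
      · rw [hr]
        linarith
      · rw [hr]
        rcases le_total x.z0.val x.z1.val with hz | hz
        · have h12 := mul_le_mul_of_nonneg_left hz h11
          have h13 := mul_le_mul_of_nonneg_right h5 gz0
          linarith
        · have h12 := mul_le_mul_of_nonneg_left hz (sub_nonneg.2 h8)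
          have h13 := mul_le_mul_of_nonneg_right h5 gz1
          linarith
  unfold cmOk at hcm
  by_cases hbig : 100 ≤ S.M
  · rw [if_pos hbig, Bool.and_eq_true] at hcm
    have h104 := Nat.le_of_ble_eq_true hcm.1
    refine hmany (S.M - 100) (by omega) ?_ (by omega) hcm.2
    rcases hN with ⟨h4, _⟩ | ⟨h4, _⟩ | ⟨_, h4⟩ <;> omega
  rw [if_neg hbig] at hcm
  rcases hN with ⟨hM, h4⟩ | ⟨hM, hM0⟩ | ⟨h4, _⟩
  · rw [hM] at hcm
    exact hmany 4 le_rfl h4 (by omega) hcm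
  · rcases hMM : S.M with _ | _ | _ | _ | n
    · exact absurd hMM hM0
    · rw [hMM] at hcm
      simp at hcm
    · rw [hMM] at hcm hM
      simp only [Bool.and_eq_true] at hcm
      obtain ⟨g1, g2, g3⟩ := hcm
      have g1 := Dec.nn_iff g1
      have g2 := Dec.nn_iff g2
      rw [Dec.val_sub, Dec.val_nsm, Dec.val_one] at g1 g2
      push_cast at g1 g2
      refine ⟨?_, rsum2 hM (hρ0 (by rw [hM]; exact ⟨1, rfl⟩)) _ _ hsum fun i hi j hj hij =>
        pairOk_sound g3 _ _ (fun hn => h3 hn i hi) (fun hn => h3 hn j hj)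
          (by rw [hij]; exact hpa)⟩
      rw [hM]
      push_cast
      have h7 : 2 * x.cm.val = 1 := by linarith
      have h8 : (2 : ℝ) * (x.cm.val * F.ka S) = F.ka S := by
        rw [← mul_assoc, h7, one_mul]
      linarith
    · rw [hMM] at hcm hM
      simp only [Bool.and_eq_true] at hcm
      obtain ⟨g1, g3⟩ := hcm
      have g1 := Dec.nn_iff g1
      rw [Dec.val_sub, Dec.val_nsm, Dec.val_one] at g1
      push_cast at g1
      refine ⟨?_, rsum3 hM (hρ1 (by rw [hM]; exact ⟨1, rfl⟩)) _ _ hsum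
        fun i hi j hj k hk hij => tripOk_sound g3 _ _ _ (fun hn => h3 hn i hi)
          (fun hn => h3 hn j hj) (fun hn => h3 hn k hk) (by rw [hij]; exact hpa)⟩
      rw [hM]
      push_cast
      have h6 := hk0 (by omega)
      nlinarith
    · rw [hMM] at hcm hM
      simp only [Bool.and_eq_true] at hcm
      obtain ⟨g4, gz, g5⟩ := hcm
      have g4 := Dec.nn_iff g4
      rw [Dec.val_sub, Dec.val_nsm, Dec.val_one] at g4
      have g7 := manyOk_sound g5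
      have h6 := hk0 (by omega)
      have hz := clsOk_sound gz (by rw [← hM]; exact hc1) hpa
      refine ⟨?_, rsumM (fun t => (x.dp.map Dec.val).ty t)
        (fun t => (x.dm.map Dec.val).ty t) (z0 := x.z0.val) (z1 := x.z1.val) (ε := x.ep.val) ?_
        fun i hi => g7 _ fun hn => h3 hn i hi⟩
      · have h7 : (1 : ℝ) ≤ N.card * x.cm.val := by
          rw [hM]
          linarith
        nlinarith
      · rw [hsum, hM]
        have he : x.ep.val * ∑ i ∈ N, sg (ρ i) =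
            (if (n + 4) % 2 = 1 then x.ep else Dec.zero).val := by
          rcases Nat.even_or_odd N.card with hE | hE
          · have := Nat.even_iff.1 hE
            rw [hρ0 hE, if_neg (by omega), mul_zero, Dec.val_zero]
          · have := Nat.odd_iff.1 hE
            rw [hρ1 hE, if_pos (by omega), mul_one]
        rw [he]
        exact hz
  · omega

/-- what is known about the sums of the signs `e` -/
structure ESum (S : FS) {K : ℕ} (N : Finset (Fin K)) (tc : Fin K → ℕ) (e : Fin K → Bool) :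
    Prop where
  h0 : S.ek.testBit 0 = true → (S.e0l : ℝ) ≤ ∑ i ∈ N.filter (fun i => tc i = 0), sg (e i) ∧
    ∑ i ∈ N.filter (fun i => tc i = 0), sg (e i) ≤ S.e0h
  h1 : S.ek.testBit 1 = true → (S.e1l : ℝ) ≤ ∑ i ∈ N.filter (fun i => ¬ tc i = 0), sg (e i) ∧
    ∑ i ∈ N.filter (fun i => ¬ tc i = 0), sg (e i) ≤ S.e1h
  hN : S.ek.testBit 2 = true → (S.eNl : ℝ) ≤ ∑ i ∈ N, sg (e i) ∧ ∑ i ∈ N, sg (e i) ≤ S.eNh

/-- nothing is known -/
lemma esum0 (N : Finset (Fin K)) (tc : Fin K → ℕ) (e : Fin K → Bool) (h : S.ek = 0) :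
    ESum S N tc e := by
  constructor <;> intro h1 <;> rw [h, Nat.zero_testBit] at h1 <;> exact absurd h1 (by simp)

lemma izm_real (z : ℤ) (x : ℝ) : izm z x = z * x := by
  rcases z with n | n
  · show Ar.nsm n x = _
    rw [rNsm]
    rfl
  · show Ar.neg (Ar.nsm (n + 1) x) = _
    rw [rNeg, rNsm, Int.cast_negSucc]
    push_cast
    ring

/-- the sum of the shares of the signs -/
lemma LAt.esh (h : LAt tl dl d S lf sf D a F x) (hE : ESum S N tc e) :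
    F.eL S ≤ ∑ i ∈ N, sg (e i) * F.es S (tc i) := by
  have h1 := h.hok
  unfold fxOk at h1
  simp only [Bool.and_eq_true] at h1
  obtain ⟨_, _, _, _, _, _, _, hes⟩ := h1
  simp only [esOk, Bool.and_eq_true] at hes
  obtain ⟨k1, k2, k3, k4, k5, k6⟩ := hes
  have k1 : 0 ≤ F.x.p0 := by rw [h.hx]; exact Dec.nn_iff k1
  have k2 : 0 ≤ F.x.q0 := by rw [h.hx]; exact Dec.nn_iff k2
  have k3 : 0 ≤ F.x.p1 := by rw [h.hx]; exact Dec.nn_iff k3
  have k4 : 0 ≤ F.x.q1 := by rw [h.hx]; exact Dec.nn_iff k4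
  have k5 : 0 ≤ F.x.pN := by rw [h.hx]; exact Dec.nn_iff k5
  have k6 : 0 ≤ F.x.qN := by rw [h.hx]; exact Dec.nn_iff k6
  obtain ⟨s0, hs0⟩ : ∃ s0 : ℝ, s0 = if S.ek.testBit 0 then F.x.p0 - F.x.q0 else 0 := ⟨_, rfl⟩
  obtain ⟨s1, hs1⟩ : ∃ s1 : ℝ, s1 = if S.ek.testBit 1 then F.x.p1 - F.x.q1 else 0 := ⟨_, rfl⟩
  obtain ⟨sN, hsN⟩ : ∃ sN : ℝ, sN = if S.ek.testBit 2 then F.x.pN - F.x.qN else 0 := ⟨_, rfl⟩
  have e1 : ∑ i ∈ N, sg (e i) * F.es S (tc i) =
      s0 * ∑ i ∈ N.filter (fun i => tc i = 0), sg (e i) +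
      s1 * ∑ i ∈ N.filter (fun i => ¬ tc i = 0), sg (e i) + sN * ∑ i ∈ N, sg (e i) := by
    have e2 : ∀ i ∈ N, sg (e i) * F.es S (tc i) =
        (if tc i = 0 then s0 * sg (e i) else s1 * sg (e i)) + sN * sg (e i) := by
      intro i _
      unfold FE.es
      by_cases h2 : tc i = 0
      · rw [if_pos h2, h2, hs0, hsN]
        show sg (e i) * ((if S.ek.testBit 0 then F.x.p0 - F.x.q0 else 0) +
          (if S.ek.testBit 2 then F.x.pN - F.x.qN else 0)) = _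
        ring
      · obtain ⟨k, hk⟩ : ∃ k, tc i = k + 1 := ⟨tc i - 1, by omega⟩
        rw [if_neg h2, hk, hs1, hsN]
        show sg (e i) * ((if S.ek.testBit 1 then F.x.p1 - F.x.q1 else 0) +
          (if S.ek.testBit 2 then F.x.pN - F.x.qN else 0)) = _
        ring
    rw [sum_congr rfl e2, sum_add_distrib, sum_ite, ← mul_sum, ← mul_sum, ← mul_sum]
  have e3 : F.eL S = (if S.ek.testBit 0 then S.e0l * F.x.p0 - S.e0h * F.x.q0 else 0) +
      ((if S.ek.testBit 1 then S.e1l * F.x.p1 - S.e1h * F.x.q1 else 0) +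
      (if S.ek.testBit 2 then S.eNl * F.x.pN - S.eNh * F.x.qN else 0)) := by
    unfold FE.eL
    simp only [izm_real]
    rfl
  rw [e1, e3, hs0, hs1, hsN]
  have g0 : (if S.ek.testBit 0 then S.e0l * F.x.p0 - S.e0h * F.x.q0 else 0) ≤
      (if S.ek.testBit 0 then F.x.p0 - F.x.q0 else 0) *
        ∑ i ∈ N.filter (fun i => tc i = 0), sg (e i) := by
    split_ifs with h2
    · obtain ⟨h3, h4⟩ := hE.h0 h2
      have h5 := mul_le_mul_of_nonneg_left h3 k1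
      have h6 := mul_le_mul_of_nonneg_left h4 k2
      linarith
    · rw [zero_mul]
  have g1 : (if S.ek.testBit 1 then S.e1l * F.x.p1 - S.e1h * F.x.q1 else 0) ≤
      (if S.ek.testBit 1 then F.x.p1 - F.x.q1 else 0) *
        ∑ i ∈ N.filter (fun i => ¬ tc i = 0), sg (e i) := by
    split_ifs with h2
    · obtain ⟨h3, h4⟩ := hE.h1 h2
      have h5 := mul_le_mul_of_nonneg_left h3 k3
      have h6 := mul_le_mul_of_nonneg_left h4 k4
      linarith
    · rw [zero_mul]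
  have g2 : (if S.ek.testBit 2 then S.eNl * F.x.pN - S.eNh * F.x.qN else 0) ≤
      (if S.ek.testBit 2 then F.x.pN - F.x.qN else 0) * ∑ i ∈ N, sg (e i) := by
    split_ifs with h2
    · obtain ⟨h3, h4⟩ := hE.hN h2
      have h5 := mul_le_mul_of_nonneg_left h3 k5
      have h6 := mul_le_mul_of_nonneg_left h4 k6
      linarith
    · rw [zero_mul]
  linarith

/-- the sum of the shares of the children -/
lemma LAt.kks (h : LAt tl dl d S lf sf D a F x) (hE : ESum S N tc e) {A : ℝ}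
    (g1 : F.kp S + A ≤ N.card * (Ar.mul F.x.cm (F.ka S))) :
    F.kq S + A ≤ ∑ i ∈ N, F.kk S (tc i) (e i) := by
  have h1 := h.esh hE
  have e1 : ∑ i ∈ N, F.kk S (tc i) (e i) = N.card * (Ar.mul F.x.cm (F.ka S)) +
      ∑ i ∈ N, sg (e i) * F.es S (tc i) := by
    have e2 : ∀ i ∈ N, F.kk S (tc i) (e i) = Ar.mul F.x.cm (F.ka S) +
        sg (e i) * F.es S (tc i) := by
      intro i _
      unfold FE.kk
      cases e i
      · rw [sg_false]
        show Ar.mul F.x.cm (F.ka S) - F.es S (tc i) = _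
        ring
      · rw [sg_true]
        show Ar.mul F.x.cm (F.ka S) + F.es S (tc i) = _
        ring
    rw [sum_congr rfl e2, sum_add_distrib, sum_const, nsmul_eq_mul]
  have e3 : F.kp S = F.kq S - F.eL S := rfl
  rw [e1]
  linarith

lemma LAt.num (h : LAt tl dl d S lf sf D a F x) (hN : ShN S N) :
    F.x.x.Num N.card S.M := by
  have h1 := h.hok
  unfold fxOk at h1
  rw [Bool.and_eq_true, Bool.and_eq_true, Bool.and_eq_true, Bool.and_eq_true] at h1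
  obtain ⟨hsx, _, _, _, hcm⟩ := h1
  rw [Bool.and_eq_true] at hcm
  have hcm := hcm.1
  have hsx := sxOk_sound hsx
  have key : ∀ q : ℕ, many0 q S.n3 x = true → F.x.x.Num N.card S.M := by
    intro q hq
    unfold many0 at hq
    simp only [Bool.and_eq_true] at hq
    obtain ⟨g1, g2, g3, _⟩ := hq
    have g1 := Dec.nn_iff g1
    have g2 := Dec.nn_iff g2
    have g3 := Dec.nn_iff g3
    rw [Dec.val_neg] at g1 g2 g3
    have e1 : F.x.x.fU = 0 := by
      rw [h.hx]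
      exact le_antisymm (by show x.x.fU.val ≤ 0; linarith) hsx.fU0
    have e2 : F.x.x.fG = 0 := by
      rw [h.hx]
      exact le_antisymm (by show x.x.fG.val ≤ 0; linarith) hsx.fG0
    have e3 : F.x.x.fq = 0 := by
      rw [h.hx]
      exact le_antisymm (by show x.x.fq.val ≤ 0; linarith) hsx.fq0
    constructor
    · rw [e1, mul_zero, mul_zero]
    · rw [e2, mul_zero, mul_zero]
    · rw [e3, mul_zero, mul_zero]
  by_cases hbig : 100 ≤ S.M
  · unfold cmOk at hcm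
    rw [if_pos hbig, Bool.and_eq_true] at hcm
    exact key _ hcm.2
  rcases hN with ⟨hM, _⟩ | ⟨hM, hM0⟩ | ⟨h4, _⟩
  · unfold cmOk at hcm
    rw [if_neg hbig, hM] at hcm
    exact key _ hcm
  · rw [hM]
    exact ⟨rfl, rfl, rfl⟩
  · exact absurd h4 hbig

/-- the region of the sums of the values of the children -/
def Rg.At (r : Rg) (O : Fin K → OBr) (N : Finset (Fin K)) : Prop :=
  (r.rg = 0 ∨ (r.rg = 1 ∧ ∑ i ∈ N, vY (O i) ≤ r.sy.val) ∨
    (2 ≤ r.rg ∧ r.sy.val ≤ ∑ i ∈ N, vY (O i))) ∧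
  (r.ru = 0 ∨ (r.ru = 1 ∧ ∑ i ∈ N, vU (O i) ≤ r.su.val) ∨
    (2 ≤ r.ru ∧ r.su.val ≤ ∑ i ∈ N, vU (O i)))

lemma rg0_at (O : Fin K → OBr) (N : Finset (Fin K)) : rg0.At O N := ⟨Or.inl rfl, Or.inl rfl⟩

/-- what is known about the second role -/
def RoleH (S : FS) {K : ℕ} (O : Fin K → OBr) (N : Finset (Fin K)) (tc : Fin K → ℕ)
    (e : Fin K → Bool) : Prop :=
  ∃ r : Fin K → Bool, (∀ i ∈ N, S.ex (tc i) (e i) (r i) = false) ∧
    (S.nr = 0 → ∀ i ∈ N, r i = true) ∧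
    (S.nr ≠ 0 → 2 ≤ ∑ i ∈ N, sg (r i) * vU (O i) ∧
      0 ≤ ∑ i ∈ N.filter (fun i => tc i = 0), sg (r i) ∧
      0 ≤ ∑ i ∈ N.filter (fun i => ¬ tc i = 0), sg (r i)) ∧
    (2 ≤ S.nr → ∑ i ∈ N.filter (fun i => ¬ tc i = 0), sg (r i) = 0 ∧ TSM.NR O e r S.kN.val)

lemma FS.ex0 {S : FS} (h : S.msk = 0) (ty : ℕ) (b r : Bool) : S.ex ty b r = false := by
  unfold FS.ex
  rw [h, Nat.zero_testBit]

/-- no second role -/
lemma roleH0 (O : Fin K → OBr) (N : Finset (Fin K)) (tc : Fin K → ℕ) (e : Fin K → Bool)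
    (h : S.nr = 0) (h1 : S.msk = 0) : RoleH S O N tc e :=
  ⟨fun _ => true, fun i _ => FS.ex0 h1 _ _ _, fun _ _ _ => rfl, fun h2 => absurd h h2,
    fun h2 => by omega⟩

/-- everything that is needed of a family for the lines of the shape `S` -/
structure FH (S : FS) {K : ℕ} (O : Fin K → OBr) (N : Finset (Fin K)) (tc : Fin K → ℕ)
    (σ e ρ : Fin K → Bool) : Prop where
  hS : FamS O N σ e ρ N.card S.f.val S.n S.vm.val (if 2 ≤ S.nr then (N.card : ℝ) else S.fv.val)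
    (if 2 ≤ S.nr then (N.card : ℝ) else S.fg.val) S.z
  hR : RoleH S O N tc e
  hn : S.n ≤ 1
  hN : ShN S N
  hρ0 : Even N.card → ∑ i ∈ N, sg (ρ i) = 0
  hρ1 : Odd N.card → ∑ i ∈ N, sg (ρ i) = 1
  ht : ∀ i ∈ N, tc i = 0 ↔ TSM.tau (O i) = 0
  hA : ∀ i ∈ N, Adm (tc i) (vU (O i)) (vY (O i)) (aU (O i)) (aY (O i))
  h3 : S.n3 = true → ∀ i ∈ N, tc i ≤ 2
  hE : ESum S N tc e
  hpa : S.cok (c1 O N) = true
  hrg : S.rg.At O N
  hgs : GSg S.gs S.gm.val ((TSM.gU e O).eval q0)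
  htd : S.td ≠ 0 → ∀ i ∈ N, ρ i = σ i
  hlo : (lo S.tn : ℝ) ≤ vY (fam σ e O)
  hhi : vY (fam σ e O) ≤ hi S.tn

/-- the bounds may be enlarged -/
lemma famS_mono {m f n vm fv fg f' vm' fv' fg' : ℝ} {z : Bool}
    (h : FamS O N σ e ρ m f n vm fv fg z)
    (h1 : f ≤ f') (h2 : vm ≤ vm') (h3 : fv ≤ fv') (h4 : fg ≤ fg') :
    FamS O N σ e ρ m f' n vm' fv' fg' z := by
  refine ⟨h.hO, h.hm, h.hU0, h.hU2, h.hU3, h.hUa.trans ?_, h.hY, h.hG2.trans h2,
    h.hG3.trans ?_, h.hGa.trans ?_⟩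
  · exact mul_le_mul_of_nonneg_right h1 (sum_nonneg fun i _ => sq_nonneg _)
  · exact mul_le_mul_of_nonneg_right h3 (sum_nonneg fun i _ => sq_nonneg _)
  · exact mul_le_mul_of_nonneg_right h4 (sum_nonneg fun i _ => sq_nonneg _)

lemma mem_gU {F : FE ℝ} {S : FS} {ty : ℕ} {b r : Bool} (hex : S.ex ty b r = false)
    (h : S.nr = 0 → r = true) : F.fU S ty b r ∈ F.gU S ty := by
  have h1 : r = false → ¬ S.nr = 0 := fun h2 h3 => by rw [h h3] at h2; simp at h2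
  unfold FE.gU
  cases r
  · have h2 : ¬ S.nr = 0 := h1 rfl
    cases b <;> simp [hex, h2]
  · cases b <;> simp [hex]

/-- the forms of a child of the family are nonnegative -/
lemma LAt.form (h : LAt tl dl d S lf sf D a F x) {p : Pt} (hp : Dom (th a) p) (ty : ℕ)
    (h3 : S.n3 = true → ty ≤ 2)
    (hw : (ty = 1 ∨ ty = 2 ∨ ty = 3 → p.w ≤ 1) ∧ (4 ≤ ty → 1 ≤ p.w)) {b r b1 b3 : Bool}
    (hex : S.ex ty b r = false) (hr : S.nr = 0 → r = true) (htd : S.td ≠ 0 → b3 = b1) :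
    0 ≤ (F.fU S ty b r).ev p.u p.v p.a +
      (famY F.px (F.vR S ty) (F.pM S) F.x.x (ctA F.px (F.pM S) F.x.x S.M S.n)
        (Ar.mul F.x.x.zU (bU (F.pM S) F.x.x)) (rsh b3 (F.x.dp.ty ty) (F.x.dm.ty ty)) b1 b3).ev
        p.y p.w p.b := by
  refine gr_at h.h2 h.h1 hp ty h3 hw _ (mem_gU hex hr) _ ?_
  by_cases h0 : S.td = 0
  · cases b1 <;> cases b3 <;> simp [FE.gr, famG, rsh, h0]
  · rw [htd h0]
    cases b1 <;> simp [FE.gr, famG, rsh, h0]

/-- the sum of the shares of the second role -/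
lemma LAt.ush (h : LAt tl dl d S lf sf D a F x) (hn : S.nr ≠ 0) {r : Fin K → Bool}
    {tc : Fin K → ℕ}
    (h0 : 0 ≤ ∑ i ∈ N.filter (fun i => tc i = 0), sg (r i))
    (h1 : 0 ≤ ∑ i ∈ N.filter (fun i => ¬ tc i = 0), sg (r i))
    (h2 : 2 ≤ S.nr → ∑ i ∈ N.filter (fun i => ¬ tc i = 0), sg (r i) = 0) :
    0 ≤ ∑ i ∈ N, sg (r i) * F.uu (tc i) := by
  obtain ⟨k0, k1, _⟩ := h.ny0 hn
  have e0 : ∑ i ∈ N, sg (r i) * F.uu (tc i) =
      F.x.nx.u0 * ∑ i ∈ N.filter (fun i => tc i = 0), sg (r i) +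
        F.x.nx.u1 * ∑ i ∈ N.filter (fun i => ¬ tc i = 0), sg (r i) := by
    rw [← sum_filter_add_sum_filter_not N (fun i => tc i = 0), mul_sum, mul_sum]
    congr 1
    · refine sum_congr rfl fun i hi => ?_
      rw [(mem_filter.mp hi).2, mul_comm]
      rfl
    · refine sum_congr rfl fun i hi => ?_
      have h3 := (mem_filter.mp hi).2
      obtain ⟨k, hk⟩ : ∃ k, tc i = k + 1 := ⟨tc i - 1, by omega⟩
      rw [hk, mul_comm]
      rfl
  rw [e0]
  have g0 := mul_nonneg k0 h0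
  by_cases h3 : S.nr = 1
  · have := mul_nonneg (k1 h3) h1
    linarith
  · rw [h2 (by omega), mul_zero]
    linarith

/-- the total inequality of the line -/
theorem LAt.tot (h : LAt tl dl d S lf sf D a F x) (hc : covers tl dl = true)
    (hs : LOK tl dl sgnL) (ha : Reg D a) (haq : a < q0) (hF : FH S O N tc σ e ρ)
    (hpay : ∀ ty, (((sf (pick dl d D).x.ix).map (PS.map Dec.val)).ty ty).Ok) (ty : ℕ) :
    (F.pM S).ns.ev ((chd ty (fam σ e O)).sn a) + (F.x.sy * F.lm S + F.x.su * F.ln S) +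
      (∑ i ∈ N, (F.s.ty (tc i)).c * D) * (1 - D / (q0 - a)) ≤
        ∑ i ∈ N, (F.vR S (tc i)).ns.ev ((chd (tc i) (O i)).sn a) := by
  obtain ⟨hS, ⟨r, r1, r2, r3, r4⟩, hn, hN, hρ0, hρ1, ht, hA, h3, hE, hpa,
    hrg, hgs, htd, hlo, hhi⟩ := hF
  obtain ⟨g1, g2⟩ := h.shares hN hρ0 hρ1 hS.hO ht h3 hpa
  have g1 := h.kks hE g1
  obtain ⟨b1, b2, b3, b4, b5, b6⟩ := h.bd
  have hgs' : GSg S.gs F.x.x.gm ((TSM.gU e O).eval q0) := by
    rcases hgs with h1 | ⟨h1, h2, h3⟩ | ⟨h1, h2, h3⟩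
    · exact Or.inl h1
    · exact Or.inr (Or.inl ⟨h1, h2, by linarith⟩)
    · exact Or.inr (Or.inr ⟨h1, h2, by linarith⟩)
  have hG : ∀ i ∈ N, 0 ≤ (F.fU S (tc i) (e i) (r i)).ev ((chd (tc i) (O i)).sn a).u
      ((chd (tc i) (O i)).sn a).vU ((chd (tc i) (O i)).sn a).aU +
      (famY F.px (F.vR S (tc i)) (F.pM S) F.x.x (ctA F.px (F.pM S) F.x.x S.M S.n)
        (Ar.mul F.x.x.zU (bU (F.pM S) F.x.x)) (rsh (ρ i) (F.x.dp.ty (tc i))
          (F.x.dm.ty (tc i))) (σ i) (ρ i)).ev ((chd (tc i) (O i)).sn a).y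
        ((chd (tc i) (O i)).sn a).vY ((chd (tc i) (O i)).sn a).aY := fun i hi =>
    h.form (dom_of (TSM.chd_ok (tc i) (hS.hO.hI i)) ha.2.2.1 haq.le) (tc i)
      (fun h0 => h3 h0 i hi) (hA i hi) (r1 i hi) (fun h0 => r2 h0 i hi) (fun h0 => htd h0 i hi)
  have hww : 0 ≤ wwG F.px (F.pM S) F.x.x := h.cs _ (by simp [FE.cs])
  have hdv : 0 ≤ (F.pM S).dv + F.x.l3 := h.cs (Ar.add (F.pM S).dv F.x.l3) (by simp [FE.cs])
  have hsc : ∀ i ∈ N, 0 ≤ (F.s.ty (tc i)).c := fun i _ => by rw [h.hs]; exact (hpay _).c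
  rcases hnr : S.nr with _ | _ | k
  · have hS' := famS_mono hS b1 b2 (fv' := F.x.x.fv) (fg' := F.x.x.fg)
      (by rw [if_neg (by omega)]; exact b3) (by rw [if_neg (by omega)]; exact b5)
    have hkp : F.kq S = kapA F.px (F.pM S) F.x.x S.n S.gs := by
      unfold FE.kq
      rw [hnr]
      rfl
    rw [hkp] at g1
    refine famLine' hS' b6 (P := F.px) (p := F.pM S) (M := S.M) (D := D)
      (h.px hc hs ha) (h.pok hc hs ha) h.sx (h.hcr haq.le) hww
      (Nat.cast_nonneg _) (h.num hN) hn ha haq hgs' h.mx.l3 hdv tc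
      (fun i => F.vR S (tc i)) (fun i => F.kk S (tc i) (e i)) (fun i => F.x.dp.ty (tc i))
      (fun i => F.x.dm.ty (tc i)) (fun i => (F.s.ty (tc i)).c) hsc (fun i hi => ?_)
      (F.x.sy * F.lm S + F.x.su * F.ln S) g1 g2 ty
    have h1 := hG i hi
    unfold FE.fU at h1
    rw [hnr] at h1
    exact h1
  · obtain ⟨q1, q2, q3⟩ := r3 (by omega)
    obtain ⟨_, _, k3⟩ := h.ny0 (by omega)
    have hS' := famS_mono hS b1 b2 (fv' := F.x.x.fv) (fg' := F.x.x.fg)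
      (by rw [if_neg (by omega)]; exact b3) (by rw [if_neg (by omega)]; exact b5)
    have hkp : F.kq S = kapA F.px (F.pM S) F.x.x S.n S.gs - 2 * F.x.nx.lN := by
      unfold FE.kq
      rw [hnr]
      show kapA F.px (F.pM S) F.x.x S.n S.gs - ((2 : ℕ) : ℝ) * F.x.nx.lN = _
      rw [Nat.cast_ofNat]
    rw [hkp] at g1
    refine famLine1 hS' b6 (P := F.px) (p := F.pM S) (M := S.M) (D := D)
      (h.px hc hs ha) (h.pok hc hs ha) h.sx (h.hcr haq.le) hww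
      (Nat.cast_nonneg _) (h.num hN) hn ha haq hgs' h.mx.l3 hdv tc k3 q1
      (fun i => F.vR S (tc i)) (fun i => F.kk S (tc i) (e i)) (fun i => F.x.dp.ty (tc i))
      (fun i => F.x.dm.ty (tc i)) (fun i => (F.s.ty (tc i)).c) (fun i => F.uu (tc i)) hsc
      (fun i hi => ?_)
      (F.x.sy * F.lm S + F.x.su * F.ln S) g1 g2
      (h.ush (by omega) q2 q3 (fun h2 => (r4 h2).1)) ty
    have h1 := hG i hi
    unfold FE.fU at h1
    rw [hnr] at h1
    exact h1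
  · obtain ⟨q1, q2, q3⟩ := r3 (by omega)
    obtain ⟨q4, q5⟩ := r4 (by omega)
    obtain ⟨_, _, k3⟩ := h.ny0 (by omega)
    obtain ⟨hy, hyk⟩ := h.ny (by omega)
    have hS' := famS_mono hS b1 b2 le_rfl le_rfl
    have hrn : 0 ≤ -rN F.px (F.pM S) F.x.x F.x.nx := by
      have h1 := h.cs (F.rr S) (by simp [FE.cs])
      unfold FE.rr at h1
      rw [if_pos (by omega)] at h1
      exact h1
    have hkp : F.kq S = kapN F.px (F.pM S) F.x.x F.x.nx S.n S.gs - 2 * F.x.nx.lN := by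
      unfold FE.kq
      rw [hnr]
      show kapN F.px (F.pM S) F.x.x F.x.nx S.n S.gs - ((2 : ℕ) : ℝ) * F.x.nx.lN = _
      rw [Nat.cast_ofNat]
    rw [hkp] at g1
    refine famLine2 hS' b6 (P := F.px) (p := F.pM S) (M := S.M) (D := D)
      (h.px hc hs ha) (h.pok hc hs ha) h.sx hy (h.hcr haq.le) hww hrn
      (Nat.cast_nonneg _) (h.num hN) hn ha haq hgs' h.mx.l3 hdv tc k3 (by rw [hyk]; exact q5)
      (fun i => F.vR S (tc i)) (fun i => F.kk S (tc i) (e i)) (fun i => F.x.dp.ty (tc i))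
      (fun i => F.x.dm.ty (tc i)) (fun i => (F.s.ty (tc i)).c) (fun i => F.uu (tc i)) hsc
      (fun i hi => ?_)
      (F.x.sy * F.lm S + F.x.su * F.ln S) g1 g2
      (h.ush (by omega) q2 q3 (fun h2 => (r4 h2).1)) ty
    have h1 := hG i hi
    unfold FE.fU at h1
    rw [hnr] at h1
    exact h1

/-- **the line of a family at a point** -/
theorem LAt.line (h : LAt tl dl d S lf sf D a F x) (hc : covers tl dl = true)
    (hs : LOK tl dl sgnL) (ha : Reg D a) (haq : a < q0) (hF : FH S O N tc σ e ρ)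
    (hpay : ∀ ty, (((sf (pick dl d D).x.ix).map (PS.map Dec.val)).ty ty).Ok) (ty : ℕ) :
    (F.pN S).ns.ev ((chd ty (fam σ e O)).sn a) +
      (∑ i ∈ N, (((sf (pick dl d D).x.ix).map (PS.map Dec.val)).ty (tc i)).pv (O i) * D) *
        (1 - D / (q0 - a)) ≤
      ∑ i, TSM.Vi (VV tl dl d) N tc O i D a -
        F.l.sr * ∑ i, TSM.Vi (PP' dl d) N tc O i D a := by
  have hf := h.tot hc hs ha haq hF hpay ty
  obtain ⟨hS, _, hn, hN, hρ0, hρ1, ht, hA, h3, _, hpa, hrg, hgs, htd, hlo, hhi⟩ := hF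
  have hE := h.ok hc hs ha
  obtain ⟨g1, g2⟩ := h.shares hN hρ0 hρ1 hS.hO ht h3 hpa
  have eY : vY (fam σ e O) = S.n - q0 * (TSM.gU e O).eval q0 := by
    unfold vY
    rw [hS.hY, Polynomial.eval_sub, Polynomial.eval_C, Polynomial.eval_mul, Polynomial.eval_X]
  have hlh := h.lohi eY hgs hS.hG2 hlo hhi
  have hnew := h.pM_le (s := (chd ty (fam σ e O)).sn a)
    (TSM.U_near (fam σ e O) ha.2.2.1 haq.le) (TSM.Y_near (fam σ e O) ha.2.2.1 haq.le)
    hS.hU0 hS.hU2 hlh.1 hlh.2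
  obtain ⟨ex, hex⟩ : ∃ ex : Fin K → ℝ, ∀ i, ex i = (F.s.ty (tc i)).vU * vU (O i) +
      (F.s.ty (tc i)).aU * aU (O i) ^ 2 + (F.s.ty (tc i)).vY * vY (O i) +
      (F.s.ty (tc i)).aY * aY (O i) ^ 2 := ⟨_, fun _ => rfl⟩
  have hP := h.px hc hs ha
  have hz : F.E.zp ≤ -(D * (1 - D / (q0 - a))) := by
    have h1 := hP.hw haq
    have h2 : F.E.D = D := hP.hD
    show F.E.D2 * F.E.w - F.E.D ≤ _
    rw [h2]
    have h3 : F.E.D2 * F.E.w ≤ D * (D / (q0 - a)) := h1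
    linarith
  have hex0 : ∀ i ∈ N, F.E.zp * ex i ≤ -(ex i * D * (1 - D / (q0 - a))) := by
    intro i hi
    have h1 : 0 ≤ ex i := by
      rw [hex, h.hs]
      exact (hpay _).ext (hS.hO.hI i)
    have h2 := mul_le_mul_of_nonneg_right hz h1
    linarith
  have hch : ∀ i ∈ N, (F.vR S (tc i)).ns.ev ((chd (tc i) (O i)).sn a) =
      TSM.Vi (VV tl dl d) N tc O i D a - F.l.sr * TSM.Vi (PP' dl d) N tc O i D a +
        F.lm S * vY (O i) + F.ln S * vU (O i) + F.E.zp * ex i := by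
    intro i hi
    have h6 := vC_ev hE ((chd (tc i) (O i)).sn a)
    have h7 : F.E.k = knAt dl d D := by rw [h.hE]; exact enAt_k hc ha
    have h8 : F.E.V = (enAt tl dl d D a).V := by rw [h.hE]
    rw [h7, h8] at h6
    rw [TSM.Vi_mem _ tc O hi, TSM.Vi_mem _ tc O hi]
    unfold FE.vR
    rw [pay_ev, hex]
    exact congrArg (· + F.lm S * vY (O i) + F.ln S * vU (O i) + F.E.zp * _) h6
  have hsum := sum_le_sum hex0
  rw [sum_congr rfl hch, sum_add_distrib, sum_add_distrib, sum_add_distrib, sum_sub_distrib,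
    ← mul_sum, ← mul_sum, ← mul_sum] at hf
  have e2 : ∑ i ∈ N, (((sf (pick dl d D).x.ix).map (PS.map Dec.val)).ty (tc i)).pv (O i) * D =
      ∑ i ∈ N, (F.s.ty (tc i)).c * D + ∑ i ∈ N, ex i * D := by
    rw [← sum_add_distrib]
    refine sum_congr rfl fun i _ => ?_
    rw [hex, ← h.hs]
    unfold PS.pv
    ring
  have e3 : ∑ i ∈ N, -(ex i * D * (1 - D / (q0 - a))) =
      -((∑ i ∈ N, ex i * D) * (1 - D / (q0 - a))) := by
    rw [sum_mul, ← sum_neg_distrib]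
  rw [e3] at hsum
  rw [e2, add_mul]
  have e1 : ∀ W : ℝ → ℝ → Sn → ℝ, ∑ i, TSM.Vi W N tc O i D a =
      ∑ i ∈ N, TSM.Vi W N tc O i D a := by
    intro W
    rw [← sum_subset (subset_univ N)]
    intro i _ hi
    exact TSM.Vi_not W tc O hi D a
  rw [e1, e1]
  obtain ⟨n1, n2⟩ := h.sn
  have hlr : F.lm S * ∑ i ∈ N, vY (O i) ≤ F.x.sy * F.lm S := by
    have hm := h.mx.lr
    rw [n1]
    rcases hrg.1 with h1 | ⟨h1, h2⟩ | ⟨h1, h2⟩
    · have : F.lm S = 0 := by unfold FE.lm; rw [h1]; rfl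
      rw [this]
      norm_num
    · have : F.lm S = F.x.lr := by unfold FE.lm; rw [h1]; rfl
      rw [this]
      nlinarith
    · have : F.lm S = -F.x.lr := by
        unfold FE.lm
        obtain ⟨r, hr⟩ : ∃ r, S.rg.rg = r + 2 := ⟨S.rg.rg - 2, by omega⟩
        rw [hr]
        rfl
      rw [this]
      nlinarith
  have hlu : F.ln S * ∑ i ∈ N, vU (O i) ≤ F.x.su * F.ln S := by
    have hm := h.mx.lu
    rw [n2]
    rcases hrg.2 with h1 | ⟨h1, h2⟩ | ⟨h1, h2⟩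
    · have : F.ln S = 0 := by unfold FE.ln; rw [h1]; rfl
      rw [this]
      norm_num
    · have : F.ln S = F.x.lu := by unfold FE.ln; rw [h1]; rfl
      rw [this]
      nlinarith
    · have : F.ln S = -F.x.lu := by
        unfold FE.ln
        obtain ⟨r, hr⟩ : ∃ r, S.rg.ru = r + 2 := ⟨S.rg.ru - 2, by omega⟩
        rw [hr]
        rfl
      rw [this]
      nlinarith
  linarith

end Pool.Agent.TSG
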