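import Pool.Agent.TSG.FamQ
import Pool.Agent.TSM.Pol3

set_option autoImplicit false

/-!
# Families with an odd number of children: both rules and the choice of the type (MP_d27362_co)
-/

namespace Pool.Agent.TSG

open Finset
open Pool.Agent.TSC
open Pool.Agent.TSM (q0 th RD Reg Sn NS Q5 Chd Spl FamS FamT FamK chd vU vY aU aY c1 ItD fam)
open Pool.Agent.TSR (OBr sg_true sg_false)
open Pool.Agent.TLT (sg)

/-- the shape of a line for an odd number of children -/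
def fsG (tn n M xi pa : ℕ) (rg : Rg) (td : ℕ) (f vm fv gm fg : Dec) (z : Bool := false)
    (nr : ℕ := 0) (kN : Dec := Dec.zero) (msk : ℕ := 0) : FS where
  tn := tn
  n := n
  M := M
  xi := xi
  pa := pa
  rg := rg
  gs := if n = 1 ∧ tn < 4 then 2 else 1
  td := td
  f := f
  vm := vm
  fv := fv
  gm := gm
  fg := fg
  z := z
  nr := nr
  kN := kN
  msk := msk

/-- the shape of a line for an odd number of children, the usual factor for `G` -/
def fsO (tn n M xi pa : ℕ) (rg : Rg) (td : ℕ) (f vm fv gm : Dec) : FS :=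
  fsG tn n M xi pa rg td f vm fv gm (Dec.nsm 2 Dec.one)

/-- the test of the bound for the value of `G` -/
def gmOk (n : ℕ) (vm gm : Dec) : Bool :=
  Dec.nn gm && (Dec.nn (Dec.sub (Dec.mul gm gm) vm) ||
    (if n = 0 then Dec.nn (Dec.sub gm (Dec.pos 4936 3)) else Dec.nn (Dec.sub gm (Dec.pos 2468 3))))

variable {tl : List TC} {dl dl' dL dS : List (Seg (Kn Dec))} {d : Seg (Kn Dec)}
  {D a : ℝ} {S : FS} {K : ℕ} {O : Fin K → OBr} {N : Finset (Fin K)} {σ e ρ : Fin K → Bool}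
  {tc : Fin K → ℕ} {Y : TSM.Sys} {V P : ℝ → ℝ → Sn → ℝ}

/-- the value of `G` for the types `3` and `4` -/
lemma gs_of34 {n tn : ℕ} {m f vm fv fg : ℝ} {vmD gm : Dec} {z : Bool}
    (hS : FamS O N σ e ρ m f n vm fv fg z) (hI : TSM.Inv (fam σ e O)) (hn : n ≤ 1)
    (hvm : vm ≤ vmD.val) (hg : gmOk n vmD gm = true)
    (hty : (tn < 4 ∧ vY (fam σ e O) ≤ 1) ∨ (4 ≤ tn ∧ 1 ≤ vY (fam σ e O))) :
    GSg (if n = 1 ∧ tn < 4 then 2 else 1) gm.val ((TSM.gU e O).eval q0) := by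
  have hq := TSM.q0_pos
  have hq2 := TSM.q0_ge
  obtain ⟨g, hgd⟩ : ∃ g, g = (TSM.gU e O).eval q0 := ⟨_, rfl⟩
  have eY : vY (fam σ e O) = n - q0 * g := by
    unfold vY
    rw [hS.hY, Polynomial.eval_sub, Polynomial.eval_C, Polynomial.eval_mul, Polynomial.eval_X,
      hgd]
  have hG2 : g ^ 2 ≤ vmD.val := by rw [hgd]; exact hS.hG2.trans hvm
  obtain ⟨_, _, _, h3, h4⟩ := hI
  rw [eY] at h3 h4 hty
  rw [← hgd]
  simp only [gmOk, Bool.and_eq_true, Bool.or_eq_true] at hg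
  obtain ⟨k1, k2⟩ := hg
  have e1 := Dec.nn_iff k1
  have habs : |g| ≤ gm.val := by
    rcases k2 with k2 | k2
    · have e2 := Dec.nn_iff k2
      rw [Dec.val_sub, Dec.val_mul] at e2
      exact abs_le_of_sq_le_sq' (by nlinarith) e1 |> abs_le.2
    · interval_cases n
      · have e2 := Dec.nn_iff (by simpa using k2 : (Dec.sub gm (Dec.pos 4936 3)).nn = true)
        rw [Dec.val_sub, Dec.val_pos] at e2
        push_cast at h3 h4
        norm_num at e2
        rw [abs_le]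
        constructor
        · by_contra h
          push Not at h
          have h5 := mul_lt_mul_of_pos_left h hq
          nlinarith
        · by_contra h
          push Not at h
          have h5 := mul_lt_mul_of_pos_left h hq
          nlinarith
      · have e2 := Dec.nn_iff (by simpa using k2 : (Dec.sub gm (Dec.pos 2468 3)).nn = true)
        rw [Dec.val_sub, Dec.val_pos] at e2
        push_cast at h3 h4
        norm_num at e2
        rw [abs_le]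
        constructor
        · by_contra h
          push Not at h
          have h5 := mul_lt_mul_of_pos_left h hq
          nlinarith
        · by_contra h
          push Not at h
          have h5 := mul_lt_mul_of_pos_left h hq
          nlinarith
  rw [abs_le] at habs
  interval_cases n
  · rw [if_neg (by omega)]
    refine Or.inr (Or.inl ⟨rfl, ?_, habs.1⟩)
    push_cast at h3
    by_contra h
    push Not at h
    have := mul_pos hq h
    linarith
  · rcases hty with ⟨h5, h6⟩ | ⟨h5, h6⟩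
    · rw [if_pos ⟨rfl, h5⟩]
      refine Or.inr (Or.inr ⟨le_rfl, ?_, habs.2⟩)
      push_cast at h6
      by_contra h
      push Not at h
      have := mul_neg_of_pos_of_neg hq h
      linarith
    · rw [if_neg (by omega)]
      refine Or.inr (Or.inl ⟨rfl, ?_, habs.1⟩)
      push_cast at h6
      by_contra h
      push Not at h
      have := mul_pos hq h
      linarith

/-- **the hypothesis of the lines** from what is known about a family, any shape -/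
theorem fhO_of {S : FS} {Ad : ℕ → ℝ → ℝ → ℝ → ℝ → Prop}
    (hAd : ∀ ty vU vY aU aY, Ad ty vU vY aU aY → Adm ty vU vY aU aY) {n m : ℕ}
    {f' vm' fv' fg' : ℝ} {lf tw : Bool}
    (hI : ItD lf tw m O N) (hT : FamT Y Ad V P O N tc) (hn : n = (tw.toNat + c1 O N) % 2)
    (hρ0 : Even m → ∑ i ∈ N, sg (ρ i) = 0) (hρ1 : Odd m → ∑ i ∈ N, sg (ρ i) = 1)
    (hInv : TSM.Inv (fam σ e O))
    (hS : FamS O N σ e ρ N.card f' n vm' fv' fg' S.z) (hSn : S.n = n)
    (hSg : S.gs = if n = 1 ∧ S.tn < 4 then 2 else 1) (h1 : f' ≤ S.f.val) (h2 : vm' ≤ S.vm.val)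
    (h3 : if 2 ≤ S.nr then fv' ≤ N.card else fv' ≤ S.fv.val)
    (h4 : if 2 ≤ S.nr then fg' ≤ N.card else fg' ≤ S.fg.val)
    (hR : RoleH S O N tc e) (hM : ShM S.M m) (hn3 : S.n3 = true → ∀ i ∈ N, tc i ≤ 2)
    (hE : ESum S N tc e) (hpa : S.pa = 2 ∨ S.pa = (n + tw.toNat) % 2)
    (hcl : S.cl = 0 ∨ S.cl.testBit (c1 O N) = true)
    (hrg : S.rg.At O N) (htd : S.td ≠ 0 → ∀ i ∈ N, ρ i = σ i) (hgm : gmOk n S.vm S.gm = true)
    (hty : (S.tn = 3 ∧ vY (fam σ e O) ≤ 1) ∨ (S.tn = 4 ∧ 1 ≤ vY (fam σ e O))) :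
    FH S O N tc σ e ρ := by
  have hn1 : n ≤ 1 := by omega
  have hcard := hI.hN
  have hSN : ShN S N := by
    rcases hM with ⟨g1, g2⟩ | ⟨g1, g2⟩ | ⟨g1, g2⟩
    · exact Or.inl ⟨g1, by rw [hcard]; exact g2⟩
    · exact Or.inr (Or.inl ⟨by rw [hcard]; exact g1, g2⟩)
    · exact Or.inr (Or.inr ⟨g1, by rw [hcard]; exact g2⟩)
  have hlo : ((lo S.tn : ℕ) : ℝ) ≤ vY (fam σ e O) := by
    rcases hty with ⟨h, g⟩ | ⟨h, g⟩ <;> rw [h]
    · show ((0 : ℕ) : ℝ) ≤ _
      rw [Nat.cast_zero]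
      exact hInv.2.2.2.1
    · show ((1 : ℕ) : ℝ) ≤ _
      rw [Nat.cast_one]
      exact g
  have hhi : vY (fam σ e O) ≤ ((hi S.tn : ℕ) : ℝ) := by
    rcases hty with ⟨h, g⟩ | ⟨h, g⟩ <;> rw [h]
    · show _ ≤ ((1 : ℕ) : ℝ)
      rw [Nat.cast_one]
      exact g
    · show _ ≤ ((2 : ℕ) : ℝ)
      rw [Nat.cast_ofNat]
      exact hInv.2.2.2.2
  rw [← hcard] at hρ0 hρ1
  have h3' : fv' ≤ (if 2 ≤ S.nr then (N.card : ℝ) else S.fv.val) := by
    split_ifs at h3 ⊢ <;> exact h3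
  have h4' : fg' ≤ (if 2 ≤ S.nr then (N.card : ℝ) else S.fg.val) := by
    split_ifs at h4 ⊢ <;> exact h4
  have hS' := hS
  rw [← hSn] at hS'
  refine ⟨famS_mono hS' h1 h2 h3' h4', hR, by rw [hSn]; exact hn1, hSN, hρ0, hρ1, hT.ht,
    fun i hi => hAd _ _ _ _ _ (hT.hA i hi), hn3, hE, cok_of hn hpa hcl, hrg, ?_, htd, hlo, hhi⟩
  rw [hSg]
  refine gs_of34 hS hInv hn1 h2 hgm ?_
  rcases hty with ⟨g1, g2⟩ | ⟨g1, g2⟩
  · exact Or.inl ⟨by omega, g2⟩
  · exact Or.inr ⟨by omega, g2⟩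

/-- **the hypothesis of the lines** from what is known about a family -/
theorem fh_of {tn n M m xi pa td nr msk : ℕ} {rg : Rg} {f vm fv gm fg kN : Dec}
    {f' vm' fv' fg' : ℝ} {lf tw z : Bool}
    (hI : ItD lf tw m O N) (hT : FamT Y Adm V P O N tc) (hn : n = (tw.toNat + c1 O N) % 2)
    (hρ0 : Even m → ∑ i ∈ N, sg (ρ i) = 0) (hρ1 : Odd m → ∑ i ∈ N, sg (ρ i) = 1)
    (hInv : TSM.Inv (fam σ e O))
    (hS : FamS O N σ e ρ N.card f' n vm' fv' fg' z) (h1 : f' ≤ f.val) (h2 : vm' ≤ vm.val)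
    (h3 : if 2 ≤ nr then fv' ≤ N.card else fv' ≤ fv.val)
    (h4 : if 2 ≤ nr then fg' ≤ N.card else fg' ≤ fg.val)
    (hR : RoleH (fsG tn n M xi pa rg td f vm fv gm fg z nr kN msk) O N tc e) (hM : ShM M m)
    (hpa : pa = 2 ∨ pa = (n + tw.toNat) % 2)
    (hrg : rg.At O N) (htd : td ≠ 0 → ∀ i ∈ N, ρ i = σ i) (hgm : gmOk n vm gm = true)
    (hty : (tn = 3 ∧ vY (fam σ e O) ≤ 1) ∨ (tn = 4 ∧ 1 ≤ vY (fam σ e O))) :
    FH (fsG tn n M xi pa rg td f vm fv gm fg z nr kN msk) O N tc σ e ρ :=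
  fhO_of (S := fsG tn n M xi pa rg td f vm fv gm fg z nr kN msk) (fun _ _ _ _ _ h => h) hI hT hn
    hρ0 hρ1 hInv hS rfl rfl h1 h2 h3 h4 hR hM (fun h => absurd h Bool.false_ne_true)
    (esum0 N tc e rfl) hpa (Or.inl rfl) hrg htd hgm hty

/-! ### both rules -/

/-- the lists and the tests for one shape: the leaf (`xi = 0`) or the path (`xi = 1`) is split off
on the intervals `dL`, the symmetric rule is used on the intervals `dS` -/
structure OddOK (tl : List TC) (dL dS : List (Seg (Kn Dec))) (kd kdo : ℕ) (kL : ℕ → KL)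
    (kO : ℕ → KO) (S : FS) : Prop where
  hL0 : S.xi = 0 → (∀ dc ∈ dL, lfOk kd (kL dc.x.ix) dc = true) ∧
    ∀ b g, LineOK tl dL S (fun x => ldF (kL x.ix) x b g) (fun ix => (kL ix).s)
  hL1 : S.xi = 1 → (∀ dc ∈ dL, lfOk kd (kL dc.x.ix) dc = true) ∧
    (∀ dc ∈ dL, ltOk (kL dc.x.ix) dc = true) ∧
    ∀ i < 4, ∀ g, LineOK tl dL S (fun x => ldT S.xi (kL x.ix) x i g) (fun ix => (kL ix).s)
  hS : (∀ dc ∈ dS, odOk kdo (kO dc.x.ix) dc = true) ∧
    ∀ i < (if kdo = 0 then 4 else 6), LineOK tl dS { S with xi := 0 }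
      (fun x => ldO (kO x.ix) x i) (fun ix => (kO ix).s)

/-- the gain of the trivial child does not matter for a family -/
lemma FH.xi0 (h : FH S O N tc σ e ρ) (xi : ℕ) : FH { S with xi := xi } O N tc σ e ρ :=
  ⟨h.hS, h.hR, h.hn, h.hN, h.hρ0, h.hρ1, h.ht, h.hA, h.h3, ⟨h.hE.h0, h.hE.h1, h.hE.hN⟩, h.hpa, h.hrg,
    h.hgs, h.htd, h.hlo, h.hhi⟩

/-- **one of the two rules for every total mass** -/
theorem oddR_of (hc : covers tl dl = true) (hs : LOK tl dl sgnL)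
    (hK : ∀ D, RD D → KOk (knAt dl d D) D) {kd kdo : ℕ} {kL : ℕ → KL} {kO : ℕ → KO}
    (hcov : ∀ dc ∈ dl, dc ∈ dL ∨ dc ∈ dS) (hkd : dL ≠ [] → KdOk kd (K - 1))
    (hkdo : dS ≠ [] → KdOk kdo K) (hxi : S.xi ≤ 1) (hO : OddOK tl dL dS kd kdo kL kO S)
    (hF : FH S O N tc σ e ρ) :
    TSM.OddR (VV tl dl d) (PP' dl d) (chiF dl d) O N tc σ e S.xi S.tn := by
  intro D hD
  obtain ⟨hmem, _⟩ := pick_D (d := d) hc hD
  rcases hcov _ hmem with hm | hm
  · left
    have hne : dL ≠ [] := List.ne_nil_of_mem hm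
    rcases Nat.le_one_iff_eq_zero_or_eq_one.mp hxi with h0 | h1
    · obtain ⟨g1, g2⟩ := hO.hL0 h0
      have h2 := leaf_at hc hs (hK D hD) hD hm (hkd hne) kL g1 h0 g2 hF
      rw [h0, Nat.cast_zero]
      exact h2
    · obtain ⟨g1, g2, g3⟩ := hO.hL1 h1
      exact left_at hc hs (hK D hD) hD hm (hkd hne) kL g1 g2 hxi g3 hF
  · right
    have hne : dS ≠ [] := List.ne_nil_of_mem hm
    exact od_at (S := { S with xi := 0 }) hc hs hD hm (hkdo hne) kO hO.hS.1 rfl hO.hS.2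
      (hF.xi0 0)

/-- the symmetric rule for every total mass -/
theorem sym_all (hc : covers tl dl = true) (hs : LOK tl dl sgnL) {kdo : ℕ} {kO : ℕ → KO}
    (hkdo : KdOk kdo K) (hxi : S.xi = 0) (h1 : ∀ dc ∈ dl, odOk kdo (kO dc.x.ix) dc = true)
    (h2 : ∀ i < (if kdo = 0 then 4 else 6), LineOK tl dl S
      (fun x => ldO (kO x.ix) x i) (fun ix => (kO ix).s)) (hF : FH S O N tc σ e ρ) :
    ∀ D, RD D → TSM.OdT (VV tl dl d) (PP' dl d) (chiF dl d) O N tc σ e S.tn D := by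
  intro D hD
  obtain ⟨hmem, _⟩ := pick_D (d := d) hc hD
  exact od_at hc hs hD hmem hkdo kO h1 hxi h2 hF

/-! ### the choice of the type -/

/-- the type `3` or `4` -/
lemma ty34 (σ e : Fin K → Bool) (O : Fin K → OBr) :
    (vY (fam σ e O) ≤ 1 ∧ Adm 3 (vU (fam σ e O)) (vY (fam σ e O)) (aU (fam σ e O))
      (aY (fam σ e O))) ∨
    (1 ≤ vY (fam σ e O) ∧ Adm 4 (vU (fam σ e O)) (vY (fam σ e O)) (aU (fam σ e O))
      (aY (fam σ e O))) := by
  rcases le_total (vY (fam σ e O)) 1 with h | h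
  · exact Or.inl ⟨h, fun _ => h, fun h2 => absurd h2 (by norm_num)⟩
  · exact Or.inr ⟨h, fun h2 => by rcases h2 with h2 | h2 | h2 <;> norm_num at h2, fun _ => h⟩

/-- **the option `D`** of three children, one of them trivial, from the lists; the shapes `S3`,
`S4` for the two types -/
theorem do_of (hc : covers tl dl = true) (hs : LOK tl dl sgnL)
    (hK : ∀ D, RD D → KOk (knAt dl d D) D) {lf tw : Bool} (hlt : lf.toNat + tw.toNat = 1)
    {n xi pa td : ℕ} {rg : Rg} (hxi : xi ≤ 1) {f vm fv gm : Dec} {f' vm' fv' : ℝ} (h1 : f' ≤ f.val)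
    (h2 : vm' ≤ vm.val) (h3 : fv' ≤ fv.val) (hgm : gmOk n vm gm = true)
    (hpa : pa = 2 ∨ pa = (n + tw.toNat) % 2) {kL : ℕ → ℕ → KL} {kO : ℕ → ℕ → KO}
    (hcov : ∀ dc ∈ dl, dc ∈ dL ∨ dc ∈ dS) {kd kdo : ℕ}
    (hkd : kd = 0 ∨ kd = 2) (hkdo : kdo = 0 ∨ kdo = 3)
    {i j : Fin K} (hN : N = {i, j})
    (hrg : rg.At O N)
    (hO : ∀ tn, (tn = 3 ∨ tn = 4) →
      (∀ σ : Fin K → Bool, σ i = true → σ j = false → (tn = 3 → vY (fam σ e O) ≤ 1) →
        (tn = 4 → 1 ≤ vY (fam σ e O)) →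
        OddOK tl dL dS kd kdo (kL tn) (kO tn) (fsO tn n 2 xi pa rg td f vm fv gm))) :
    TSM.DO Y Adm (VV tl dl d) (PP' dl d) (chiF dl d) lf tw O N tc e i j n vm' fv' xi f' := by
  intro σ ρ hF hv hσi hσj hρi hρj
  have hI := hF.hI
  have hK3 : K = 3 := by
    have := hI.hK
    omega
  have htd : td ≠ 0 → ∀ k ∈ N, ρ k = σ k := by
    intro _ k hk
    rw [hN, mem_insert, mem_singleton] at hk
    rcases hk with rfl | rfl
    · rw [hρi, hσi]
    · rw [hρj, hσj]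
  have hS := hF.hS N.card (by rw [hI.hN])
  have key : ∀ tn, (tn = 3 ∨ tn = 4) → (tn = 3 → vY (fam σ e O) ≤ 1) →
      (tn = 4 → 1 ≤ vY (fam σ e O)) →
      TSM.OddR (VV tl dl d) (PP' dl d) (chiF dl d) O N tc σ e xi tn := by
    intro tn htn g1 g2
    have hFH : FH (fsO tn n 2 xi pa rg td f vm fv gm) O N tc σ e ρ :=
      fh_of hI hF.hT hF.hn hF.hρ0 hF.hρ1 hF.hInv hS h1 h2 (by rw [if_neg (by norm_num)]; exact h3)
        (by rw [if_neg (by norm_num), Dec.val_nsm, Dec.val_one, mul_one]; norm_num)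
        (roleH0 O N tc e rfl rfl) (Or.inr (Or.inl ⟨rfl, by norm_num⟩)) hpa
        hrg htd hgm (by
          rcases htn with h | h
          · exact Or.inl ⟨h, g1 h⟩
          · exact Or.inr ⟨h, g2 h⟩)
    exact oddR_of hc hs hK hcov (fun _ => ⟨by omega, by omega⟩) (fun _ => ⟨by omega, by omega⟩)
      hxi (hO tn htn σ hσi hσj g1 g2) hFH
  rcases ty34 σ e O with ⟨h, hA⟩ | ⟨h, hA⟩
  · exact ⟨3, by norm_num, hA, key 3 (Or.inl rfl) (fun _ => h) (fun h => by norm_num at h)⟩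
  · exact ⟨4, by norm_num, hA, key 4 (Or.inr rfl) (fun h => by norm_num at h) (fun _ => h)⟩

/-- **the rule for an odd number of children with a trivial child** from the lists -/
theorem odd_of (hc : covers tl dl = true) (hs : LOK tl dl sgnL)
    (hK : ∀ D, RD D → KOk (knAt dl d D) D) {lf tw : Bool} {m M : ℕ} (hM : ShM M m)
    {xi : ℕ} (hxi : xi ≤ 1) {pa : ℕ → ℕ} (hpa : ∀ n, n ≤ 1 → pa n = 2 ∨ pa n = (n + tw.toNat) % 2)
    {kL : ℕ → ℕ → ℕ → KL} {kO : ℕ → ℕ → ℕ → KO}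
    (hcov : ∀ dc ∈ dl, dc ∈ dL ∨ dc ∈ dS) {kd kdo : ℕ}
    (hkd : dL ≠ [] → KdOk kd (lf.toNat + tw.toNat + m - 1))
    (hkdo : dS ≠ [] → KdOk kdo (lf.toNat + tw.toNat + m))
    (hO : ∀ n tn, n ≤ 1 → (xi = 1 → n = 1) → (tn = 3 ∨ tn = 4) →
      OddOK tl dL dS kd kdo (kL n tn) (kO n tn) (fsO tn n M xi (pa n) rg0 0 (Dec.nsm 2 Dec.one)
        (Dec.nsm (16 - 12 * n) Dec.one) (Dec.nsm (4 - 3 * n) Dec.one) (Dec.pos 4936 3))) :
    TSM.OddH Y Adm (VV tl dl d) (PP' dl d) (chiF dl d) lf tw m xi := by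
  intro K O N tc σ e ρ n hF hξ
  have hI := hF.hI
  have hn1 : n ≤ 1 := by
    have := hF.hn
    omega
  have hS := hF.hS N.card (by rw [hI.hN])
  have hξ' : xi = 1 → n = 1 := fun h => hξ (by rw [h, Nat.cast_one])
  have e16 : ((16 - 12 * n : ℕ) : ℝ) = 16 - 12 * n := by interval_cases n <;> norm_num
  have e4 : ((4 - 3 * n : ℕ) : ℝ) = 4 - 3 * n := by interval_cases n <;> norm_num
  have hgm : gmOk n (Dec.nsm (16 - 12 * n) Dec.one) (Dec.pos 4936 3) = true := by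
    interval_cases n <;> rfl
  have key : ∀ tn, (tn = 3 ∨ tn = 4) → (tn = 3 → vY (fam σ e O) ≤ 1) →
      (tn = 4 → 1 ≤ vY (fam σ e O)) →
      TSM.OddR (VV tl dl d) (PP' dl d) (chiF dl d) O N tc σ e xi tn := by
    intro tn htn g1 g2
    have hFH := fh_of (xi := xi) (rg := rg0) (td := 0) (fg := Dec.nsm 2 Dec.one)
      (kN := Dec.zero) (nr := 0) (msk := 0)
      (f := Dec.nsm 2 Dec.one)
      (vm := Dec.nsm (16 - 12 * n) Dec.one)
      (fv := Dec.nsm (4 - 3 * n) Dec.one) (gm := Dec.pos 4936 3) hI hF.hT hF.hn hF.hρ0 hF.hρ1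
      hF.hInv hS (by rw [Dec.val_nsm, Dec.val_one, mul_one]; norm_num)
      (by rw [Dec.val_nsm, Dec.val_one, e16, mul_one])
      (by rw [if_neg (by norm_num), Dec.val_nsm, Dec.val_one, e4, mul_one])
      (by rw [if_neg (by norm_num), Dec.val_nsm, Dec.val_one, mul_one]; norm_num)
      (roleH0 O N tc e rfl rfl) hM (hpa n hn1) (rg0_at O N) (fun h => absurd rfl h) hgm
      (tn := tn) (by
          rcases htn with h | h
          · exact Or.inl ⟨h, g1 h⟩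
          · exact Or.inr ⟨h, g2 h⟩)
    exact oddR_of hc hs hK hcov (fun h => by rw [hI.hK]; exact hkd h)
      (fun h => by rw [hI.hK]; exact hkdo h) hxi (hO n tn hn1 hξ' htn) hFH
  rcases ty34 σ e O with ⟨h, hA⟩ | ⟨h, hA⟩
  · exact ⟨3, by norm_num, hA, key 3 (Or.inl rfl) (fun _ => h) (fun h => by norm_num at h)⟩
  · exact ⟨4, by norm_num, hA, key 4 (Or.inr rfl) (fun h => by norm_num at h) (fun _ => h)⟩

/-- **the symmetric rule** from the lists -/
theorem sym_of (hc : covers tl dl = true) (hs : LOK tl dl sgnL) {lf tw : Bool} {m M : ℕ}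
    (hM : ShM M m) {n pa : ℕ} {f vm fv gm : Dec} {vm' fv' : ℝ}
    (h1 : N = univ → (3 : ℝ) ≤ f.val) (h1' : (2 : ℝ) ≤ f.val)
    (h2 : vm' ≤ vm.val) (h3 : fv' ≤ fv.val) (hgm : gmOk n vm gm = true)
    (hpa : pa = 2 ∨ pa = (n + tw.toNat) % 2) {kO : ℕ → ℕ → KO} {kdo : ℕ}
    (hkdo : KdOk kdo (lf.toNat + tw.toNat + m))
    (hO : ∀ tn, (tn = 3 ∨ tn = 4) → (∀ dc ∈ dl, odOk kdo (kO tn dc.x.ix) dc = true) ∧
      ∀ i < (if kdo = 0 then 4 else 6), LineOK tl dl (fsO tn n M 0 pa rg0 0 f vm fv gm)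
        (fun x => ldO (kO tn x.ix) x i) (fun ix => (kO tn ix).s)) :
    TSM.SymO Y Adm (VV tl dl d) (PP' dl d) (chiF dl d) lf tw m O N tc e n vm' fv' := by
  intro σ ρ f' hF
  have hI := hF.hI
  have hS := hF.hS N.card (by rw [hI.hN])
  have hf : f' ≤ f.val := by
    rcases hF.hf with h | ⟨h, hN⟩
    · rw [h]
      exact h1'
    · rw [h]
      exact h1 hN
  have key : ∀ tn, (tn = 3 ∨ tn = 4) → (tn = 3 → vY (fam σ e O) ≤ 1) →
      (tn = 4 → 1 ≤ vY (fam σ e O)) →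
      ∀ D, RD D → TSM.OdT (VV tl dl d) (PP' dl d) (chiF dl d) O N tc σ e tn D := by
    intro tn htn g1 g2
    have hFH := fh_of (xi := 0) (rg := rg0) (td := 0) (fg := Dec.nsm 2 Dec.one) (f := f)
      (kN := Dec.zero) (nr := 0) (msk := 0) hI
      hF.hT hF.hn hF.hρ0 hF.hρ1 hF.hInv hS hf h2
      (by rw [if_neg (by norm_num)]; exact h3)
      (by rw [if_neg (by norm_num), Dec.val_nsm, Dec.val_one, mul_one]; norm_num)
      (roleH0 O N tc e rfl rfl) hM hpa (rg0_at O N)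
      (fun h => absurd rfl h) hgm (tn := tn) (by
          rcases htn with h | h
          · exact Or.inl ⟨h, g1 h⟩
          · exact Or.inr ⟨h, g2 h⟩)
    exact sym_all (S := fsO tn n M 0 pa rg0 0 f vm fv gm) hc hs (by rw [hI.hK]; exact hkdo) rfl
      (hO tn htn).1 (hO tn htn).2 hFH
  rcases ty34 σ e O with ⟨h, hA⟩ | ⟨h, hA⟩
  · exact ⟨3, by norm_num, hA, key 3 (Or.inl rfl) (fun _ => h) (fun h => by norm_num at h)⟩
  · exact ⟨4, by norm_num, hA, key 4 (Or.inr rfl) (fun h => by norm_num at h) (fun _ => h)⟩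

end Pool.Agent.TSG
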