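import Pool.Agent.TSG.Lok3
import Pool.Agent.TSC.V3Find

set_option autoImplicit false

/-!
# The search for the packed numbers of a list of groups (MP_d27362_co)

Only for `#eval`; nothing is proved about these functions. `find3` gives for each group of the list
a number and a boolean (`true` = the test `chk3` passes for this group).
-/

namespace Pool.Agent.TSG

open Pool.Agent.TSC
open Pool.Agent.TSC.V3 (GQ findG)

/-- one number for each group, with a boolean for success -/
def find3 (G : GQ) (WU WY th : ℕ) : List (ℕ × Bool) :=
  (G.L Dec (fun x => x) ⟨V3.cB, 0, 0⟩ ⟨V3.cM, 0, 0⟩).map fun g => findG WU WY th g.1 g.2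

/-- the numbers only (`0` if the search fails) -/
def find3K (G : GQ) (WU WY th : ℕ) : List ℕ × Bool :=
  let l := find3 G WU WY th
  (l.map Prod.fst, l.all Prod.snd)

/-- for a list of pairs -/
def find3N (G : NL) (WU WY th : ℕ) (tc : TC) (dc : Seg (Kn Dec)) : List (ℕ × Bool) :=
  find3 (G.gq tc dc) WU WY th

end Pool.Agent.TSG
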