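import Pool.Agent.TSG.DecE
import Pool.Agent.TSG.Find3

set_option autoImplicit false

/-!
# The search for the numbers of the lines of the even kinds (MP_d27362_co)

Only for `#eval`; nothing is proved about these functions.
-/

namespace Pool.Agent.TSG

open Pool.Agent.TSC

/-- remove zeros at the end -/
def trimD : ℕ → ℕ → ℕ → ℕ × ℕ
  | 0, m, e => (m, e)
  | f + 1, m, e => if 0 < e ∧ m % 10 = 0 then trimD f (m / 10) (e - 1) else (m, e)

/-- a decimal number as a word; `none` if it does not fit -/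
def wOf (d : Dec) : Option ℕ :=
  let (m, e) := trimD 20 (if d.n ≤ d.p then d.p - d.n else d.n - d.p) d.e
  if m < 268435456 ∧ e < 8 then some (16 * m + 2 * e + (if d.n ≤ d.p then 0 else 1)) else none

/-- the words of a line -/
def words (x : FX Dec) (c2 : TSM.CR) : List (Option ℕ) :=
  let s := x.x
  ([s.fU, s.rU, s.sU, s.zU, s.fG, s.rG, s.sG, s.zG, s.fq, s.yG, s.la, s.be,
    s.kW, x.ks, x.cm, x.dp.s0, x.dp.s1, x.dp.s2, x.dm.s0, x.dm.s1, x.dm.s2,
    x.ep, x.eU, x.rA, x.sA, x.eY, x.rB, x.sB, x.l1, x.l2, x.l3, x.l4, x.lr,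
    x.lo, x.hi, x.lu, x.nx.n3, x.nx.n4, x.nx.n5, x.nx.n7, x.nx.nE, x.nx.u0,
    x.nx.u1, x.nx.lN, x.p0, x.q0, x.p1, x.q1, x.pN, x.qN, x.z0, x.z1] : List Dec).map wOf ++
    [some c2.u, some c2.L, some c2.B, some c2.n, wOf c2.th]

/-- pack the words -/
def packW : List (Option ℕ) → Option ℕ
  | [] => some 0
  | w :: l => do return (← w) + 4294967296 * (← packW l)

/-- pack a line -/
def packF (x : FX Dec) (c2 : TSM.CR) : Option ℕ := packW (words x c2)

/-- the numbers of one line: five numbers; the tests of the weights, the success of the search, the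
test of the line -/
def findL (th : ℕ) (S : FS) (l : LD Dec) (s : S4 (PS Dec)) (tc : TC) (dc : Seg (Kn Dec))
    (x0 : FX Dec) (c2 : TSM.CR) : List ℕ × List Bool :=
  match packF x0 c2 with
  | none => ([], [false])
  | some N =>
    let x := fxw S N
    let k2 := find3 (gqF2 S tc dc l s x) 2 2 th
    let k1 := find3 (gqF1 S tc dc l s x) 2 1 th
    let r := (k2 ++ k1).map Prod.fst
    (N :: r, fxOk S x :: crOk tc.a x.x (c2w N) c0w ::
      ((k2 ++ k1).map Prod.snd ++ [match r with
        | [a, b, c, d] => cellF3 th S l s tc dc x (c2w N) c0w [a, b] [c, d]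
        | _ => false]))

/-- the two lines of a shape -/
def findES (th : ℕ) (tc : TC) (dc : Seg (Kn Dec)) (E : ES)
    (c : (FX Dec × TSM.CR × TSM.CR) × (FX Dec × TSM.CR × TSM.CR)) : List ℕ × List Bool :=
  let a := findL th E.S (ldA E.k) E.k.s tc dc c.1.1 c.1.2.1
  let b := findL th E.S (ldB E.k) E.k.s tc dc c.2.1 c.2.2.1
  (a.1 ++ b.1, a.2 ++ b.2)

/-- the largest number of decimals of a coefficient (the limit of the test is `44`) -/
def expL (S : FS) (l : LD Dec) (s : S4 (PS Dec)) (tc : TC) (dc : Seg (Kn Dec))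
    (x : FX Dec) : ℕ :=
  let q := ((gqF2 S tc dc l s x).L Dec (fun x => x) Dec.one Dec.one) ++
    ((gqF1 S tc dc l s x).L Dec (fun x => x) Dec.one Dec.one)
  ((q.map fun g => g.1 ++ g.2).flatten.map fun q =>
    [q.c.e, q.cu.e, q.cuu.e, q.cv.e, q.cvv.e, q.ca.e, q.caa.e, q.l.e].foldl max 0).foldl max 0

end Pool.Agent.TSG
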