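import Pool.Agent.TSM.Asm
import Pool.Agent.TSC.Chk

set_option autoImplicit false

/-!
# Generator of the inequality lists (MP_d27362_co): separable forms and min forms

`QP α` is a pair of forms (the part of `U` and the part of `y`) over a type of coefficients `α`;
`hv h p s` is its value at the point `s` when the coefficients are interpreted by `h : Hom α`.
A list of forms stands for the minimum of the forms.
-/

namespace Pool.Agent.TSG

open Pool.Agent.TSC (Ar Hom ArHom QI pmap pev)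

/-- a form of the `U` part and a form of the `y` part -/
abbrev QP (α : Type) := QI α × QI α

/-- a point of the state space: `u`, `v_U`, `a_U`, `y`, `v_y`, `a_y` -/
structure Pt where
  /-- value of `U` -/
  u : ℝ
  /-- value of `U` at `q0` -/
  v : ℝ
  /-- seminorm of `U` -/
  a : ℝ
  /-- value of `y` -/
  y : ℝ
  /-- value of `y` at `q0` -/
  w : ℝ
  /-- seminorm of `y` -/
  b : ℝ

section basis

variable {α : Type} [Ar α]

/-- the form zero -/
def qz : QI α := ⟨Ar.zero, Ar.zero, Ar.zero, Ar.zero, Ar.zero, Ar.zero, Ar.zero, Ar.zero⟩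

/-- the sum of two forms -/
def qadd (p q : QI α) : QI α :=
  ⟨Ar.add p.c q.c, Ar.add p.cu q.cu, Ar.add p.cuu q.cuu, Ar.add p.cv q.cv, Ar.add p.cvv q.cvv,
    Ar.add p.ca q.ca, Ar.add p.caa q.caa, Ar.add p.l q.l⟩

/-- the sum -/
def padd (p q : QP α) : QP α := (qadd p.1 q.1, qadd p.2 q.2)

/-- zero -/
def pz : QP α := (qz, qz)

/-- a constant -/
def cst (k : α) : QP α := ({ (qz : QI α) with c := k }, qz)

/-- `k0 + k1 u` -/
def lin (k0 k1 : α) : QP α := ({ (qz : QI α) with c := k0, cu := k1 }, qz)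

/-- `k (k0 + k1 u)²` -/
def sqx (k k0 k1 : α) : QP α :=
  ({ (qz : QI α) with
      c := Ar.mul k (Ar.mul k0 k0)
      cu := Ar.mul k (Ar.mul k0 (Ar.nsm 2 k1))
      cuu := Ar.mul k (Ar.mul k1 k1) }, qz)

/-- `k1 y + k2 y²` -/
def yq (k1 k2 : α) : QP α := (qz, { (qz : QI α) with cu := k1, cuu := k2 })

/-- `k a_U²` -/
def aq (k : α) : QP α := ({ (qz : QI α) with caa := k }, qz)

variable (h : Hom α)

/-- the value of a form -/
noncomputable def hv (p : QP α) (s : Pt) : ℝ := pev (pmap h.f p) s.u s.v s.a s.y s.w s.b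

@[simp] lemma hv_padd (p q : QP α) (s : Pt) : hv h (padd p q) s = hv h p s + hv h q s := by
  simp only [hv, pev, pmap, QI.map, QI.ev, padd, qadd, h.add]
  ring

@[simp] lemma hv_pz (s : Pt) : hv h (pz : QP α) s = 0 := by
  simp [hv, pev, pmap, QI.map, QI.ev, pz, qz, h.zero]

@[simp] lemma hv_cst (k : α) (s : Pt) : hv h (cst k) s = h.f k := by
  simp [hv, pev, pmap, QI.map, QI.ev, cst, qz, h.zero]

@[simp] lemma hv_lin (k0 k1 : α) (s : Pt) : hv h (lin k0 k1) s = h.f k0 + h.f k1 * s.u := by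
  simp [hv, pev, pmap, QI.map, QI.ev, lin, qz, h.zero]

@[simp] lemma hv_sqx (k k0 k1 : α) (s : Pt) :
    hv h (sqx k k0 k1) s = h.f k * (h.f k0 + h.f k1 * s.u) ^ 2 := by
  simp only [hv, pev, pmap, QI.map, QI.ev, sqx, qz, h.zero, h.mul, h.nsm, Nat.cast_ofNat]
  ring

@[simp] lemma hv_yq (k1 k2 : α) (s : Pt) :
    hv h (yq k1 k2) s = h.f k1 * s.y + h.f k2 * s.y ^ 2 := by
  simp [hv, pev, pmap, QI.map, QI.ev, yq, qz, h.zero]

@[simp] lemma hv_aq (k : α) (s : Pt) : hv h (aq k) s = h.f k * s.a ^ 2 := by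
  simp [hv, pev, pmap, QI.map, QI.ev, aq, qz, h.zero]

/-! ### min forms -/

/-- the sum of two min forms -/
def mfAdd (L M : List (QP α)) : List (QP α) := L.flatMap fun p => M.map fun q => padd p q

/-- `z` is at least one of the forms -/
def MLe (L : List (QP α)) (s : Pt) (z : ℝ) : Prop := ∃ q ∈ L, hv h q s ≤ z

variable {h}

lemma MLe.add {L M : List (QP α)} {s : Pt} {z w : ℝ} (h1 : MLe h L s z) (h2 : MLe h M s w) :
    MLe h (mfAdd L M) s (z + w) := by
  obtain ⟨p, hp, h3⟩ := h1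
  obtain ⟨q, hq, h4⟩ := h2
  refine ⟨padd p q, ?_, ?_⟩
  · rw [mfAdd, List.mem_flatMap]
    exact ⟨p, hp, List.mem_map.mpr ⟨q, hq, rfl⟩⟩
  · rw [hv_padd]
    linarith

lemma MLe.mono {L : List (QP α)} {s : Pt} {z w : ℝ} (h1 : MLe h L s z) (h2 : z ≤ w) :
    MLe h L s w := by
  obtain ⟨p, hp, h3⟩ := h1
  exact ⟨p, hp, h3.trans h2⟩

lemma MLe.nonneg {L : List (QP α)} {s : Pt} {z : ℝ} (h1 : MLe h L s z)
    (h2 : ∀ q ∈ L, 0 ≤ hv h q s) : 0 ≤ z := by
  obtain ⟨p, hp, h3⟩ := h1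
  exact (h2 p hp).trans h3

lemma MLe.single {p : QP α} {s : Pt} {z : ℝ} (h1 : hv h p s ≤ z) : MLe h [p] s z :=
  ⟨p, List.mem_singleton.mpr rfl, h1⟩

lemma MLe.two1 {p q : QP α} {s : Pt} {z : ℝ} (h1 : hv h p s ≤ z ∨ hv h q s ≤ z) :
    MLe h [p, q] s z := by
  rcases h1 with h1 | h1
  · exact ⟨p, by simp, h1⟩
  · exact ⟨q, by simp, h1⟩

end basis

/-! ### scaling of the `y` part -/

section scl

variable {α : Type} [Ar α]

/-- the form at twice the arguments -/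
def sclB (hf : α) (q : QI α) : QI α :=
  ⟨q.c, Ar.mul hf q.cu, Ar.mul hf (Ar.mul hf q.cuu), Ar.mul hf q.cv, Ar.mul hf (Ar.mul hf q.cvv),
    Ar.mul hf q.ca, Ar.mul hf (Ar.mul hf q.caa), Ar.mul hf q.l⟩

/-- the form with the `y` part at twice the arguments -/
def scl (hf : α) (p : QP α) : QP α := (p.1, sclB hf p.2)

lemma hv_scl (h : Hom α) (hf : α) (h2 : h.f hf = 1 / 2) (p : QP α) (s : Pt) :
    hv h (scl hf p) ⟨s.u, s.v, s.a, 2 * s.y, 2 * s.w, 2 * s.b⟩ = hv h p s := by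
  have e1 : Real.sqrt ((2 * s.w) ^ 2 + (2 * s.b) ^ 2) = 2 * Real.sqrt (s.w ^ 2 + s.b ^ 2) := by
    have : (2 * s.w) ^ 2 + (2 * s.b) ^ 2 = 2 ^ 2 * (s.w ^ 2 + s.b ^ 2) := by ring
    rw [this, Real.sqrt_mul (by norm_num), Real.sqrt_sq (by norm_num)]
  simp only [hv, pev, pmap, QI.map, QI.ev, scl, sclB, h.mul, h2]
  rw [e1]
  ring

end scl

/-! ### the shift of the `y` part -/

section shf

variable {α : Type} [Ar α]

/-- the form at the arguments `1 + u`, `1 + v` (for forms without the norm term) -/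
def shQ (q : QI α) : QI α :=
  ⟨Ar.add q.c (Ar.add (Ar.add q.cu q.cuu) (Ar.add q.cv q.cvv)),
    Ar.add q.cu (Ar.nsm 2 q.cuu), q.cuu, Ar.add q.cv (Ar.nsm 2 q.cvv), q.cvv, q.ca, q.caa, q.l⟩

/-- the form with the `y` part at the arguments `1 + y`, `1 + w` -/
def shP (p : QP α) : QP α := (p.1, shQ p.2)

/-- the norm term of the `y` part is zero -/
def NoL (p : QP α) (h : Hom α) : Prop := h.f p.2.l = 0

lemma hv_shP (h : Hom α) (p : QP α) (s : Pt) (hl : NoL p h) :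
    hv h (shP p) s = hv h p ⟨s.u, s.v, s.a, 1 + s.y, 1 + s.w, s.b⟩ := by
  unfold NoL at hl
  simp only [hv, pev, pmap, QI.map, QI.ev, shP, shQ, h.add, h.nsm, hl, Nat.cast_ofNat]
  ring

end shf

/-! ### the data -/

/-- the coefficients of one type -/
structure VT (α : Type) where
  /-- constant -/
  c : α
  /-- coefficient of `u` -/
  al : α
  /-- coefficient of `u²` -/
  be : α
  /-- coefficient of `y` -/
  ga : α
  /-- coefficient of `y²` -/
  de : α
  /-- coefficient of `a_U` -/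
  lU : α
  /-- coefficient of `a_U²` -/
  qU : α
  /-- coefficient of `a_y` -/
  ly : α
  /-- coefficient of `a_y²` -/
  qy : α
  /-- coefficient of `v_U` -/
  cv : α
  /-- coefficient of `v_y` -/
  dv : α

/-- the coefficients of the potential at a point `t` -/
structure VD (α : Type) where
  /-- type 0 -/
  t0 : VT α
  /-- type 1 -/
  t1 : VT α
  /-- type 2 -/
  t2 : VT α
  /-- type 3 -/
  t3 : VT α
  /-- the other types -/
  t4 : VT α

/-- apply a function to the coefficients -/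
def VT.map {α β : Type} (f : α → β) (τ : VT α) : VT β :=
  ⟨f τ.c, f τ.al, f τ.be, f τ.ga, f τ.de, f τ.lU, f τ.qU, f τ.ly, f τ.qy,
    f τ.cv, f τ.dv⟩

/-- apply a function to the coefficients -/
def VD.map {α β : Type} (f : α → β) (d : VD α) : VD β :=
  ⟨d.t0.map f, d.t1.map f, d.t2.map f, d.t3.map f, d.t4.map f⟩

/-- the coefficients of a type -/
def VD.ty {α : Type} (d : VD α) : ℕ → VT α
  | 0 => d.t0
  | 1 => d.t1
  | 2 => d.t2
  | 3 => d.t3
  | _ + 4 => d.t4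

lemma VD.map_ty {α β : Type} (f : α → β) (d : VD α) (n : ℕ) : (d.map f).ty n = (d.ty n).map f := by
  rcases n with _ | _ | _ | _ | n <;> rfl

/-- the potential of one type -/
noncomputable def VT.ev (τ : VT ℝ) (s : TSM.Sn) : ℝ :=
  τ.c + τ.al * s.u + τ.be * s.u ^ 2 + τ.ga * s.y + τ.de * s.y ^ 2 + τ.lU * s.aU +
    τ.qU * s.aU ^ 2 + τ.ly * s.aY + τ.qy * s.aY ^ 2 + τ.cv * s.vU + τ.dv * s.vY

/-- the potential -/
noncomputable def VD.ev (d : VD ℝ) (s : TSM.Sn) : ℝ := (d.ty s.ty).ev s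

/-- the point of a state -/
def pt (s : TSM.Sn) : Pt := ⟨s.u, s.vU, s.aU, s.y, s.vY, s.aY⟩

section gen

variable {α : Type} [Ar α]

/-- `V` of the child -/
def vC (τ : VT α) : QP α :=
  ({ (qz : QI α) with
      c := τ.c, cu := τ.al, cuu := τ.be, ca := τ.lU, caa := τ.qU, cv := τ.cv },
    { (qz : QI α) with cu := τ.ga, cuu := τ.de, ca := τ.ly, caa := τ.qy, cv := τ.dv })

/-- bounds of the seminorm of `x`: `aX ^ 2 ≤ g vU ^ 2 + l aU ^ 2` -/
structure XP (α : Type) where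
  /-- see above -/
  g : α
  /-- see above -/
  l : α

/-- apply a function to the coefficients -/
def XP.map {α β : Type} (f : α → β) (x : XP α) : XP β := ⟨f x.g, f x.l⟩

/-- `-V` of the new state `(y, m0 + m1 u; b, aX)`, `v_y' ≤ m0 + n1 v_U` -/
def vN (τ : VT α) (x : XP α) (k m0 m1 n1 : α) : QP α :=
  ({ (qz : QI α) with
      c := Ar.neg (Ar.add (Ar.add τ.c (Ar.mul m0 (Ar.add τ.ga (Ar.mul τ.de m0))))
        (Ar.mul τ.dv m0))
      cv := Ar.neg (Ar.mul τ.dv n1)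
      cu := Ar.neg (Ar.mul m1 (Ar.add τ.ga (Ar.nsm 2 (Ar.mul τ.de m0))))
      cuu := Ar.neg (Ar.mul τ.de (Ar.mul m1 m1))
      cvv := Ar.neg (Ar.mul τ.qy x.g)
      caa := Ar.neg (Ar.mul τ.qy x.l)
      l := Ar.mul τ.ly k },
    { (qz : QI α) with
      cu := Ar.neg τ.al, cuu := Ar.neg τ.be, ca := Ar.neg τ.lU, caa := Ar.neg τ.qU
      cv := Ar.neg τ.cv })

/-- `k min (m0 + m1 u) r` -/
def gMin (k m0 m1 r : α) : List (QP α) := [lin (Ar.mul k m0) (Ar.mul k m1), cst (Ar.mul k r)]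

/-- `-K max 0 ((1 - t y)² + t (k0 + k1 u)² - 1)` -/
def exMin (K t k0 k1 : α) : List (QP α) :=
  [pz, padd (yq (Ar.mul K (Ar.nsm 2 t)) (Ar.neg (Ar.mul K (Ar.mul t t))))
    (sqx (Ar.neg (Ar.mul K t)) k0 k1)]

/-- `- C (t² y² + t (m0 + m1 u)²)` -/
def qN (C t m0 m1 : α) : QP α :=
  padd (yq Ar.zero (Ar.neg (Ar.mul C (Ar.mul t t)))) (sqx (Ar.neg (Ar.mul C t)) m0 m1)

/-- `-K max 0 ((1 - t y / 2)² + t (m0 + m1 u)² / 4 - 1)`, `hf` is one half -/
def exH (hf K t m0 m1 : α) : List (QP α) :=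
  [pz, padd (yq (Ar.mul K t) (Ar.neg (Ar.mul K (Ar.mul (Ar.mul hf t) (Ar.mul hf t)))))
    (sqx (Ar.neg (Ar.mul K (Ar.mul hf (Ar.mul hf t)))) m0 m1)]

/-- `- f (t y² + (m0 + m1 u)²)` -/
def zq (f t m0 m1 : α) : QP α :=
  padd (yq Ar.zero (Ar.neg (Ar.mul f t))) (sqx (Ar.neg f) m0 m1)

/-- `- k (uu u² + yy y²)` -/
def pQ (k uu yy : α) : QP α :=
  padd (yq Ar.zero (Ar.neg (Ar.mul k yy))) (sqx (Ar.neg (Ar.mul k uu)) Ar.zero Ar.one)

/-- `- k yp max y 0` -/
def pY (k yp : α) : List (QP α) := [pz, yq (Ar.neg (Ar.mul k yp)) Ar.zero]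

variable (h : Hom α)

lemma hv_vC (d : VD α) (s : TSM.Sn) : hv h (vC (d.ty s.ty)) (pt s) = (d.map h.f).ev s := by
  simp only [vC, hv, pev, pmap, QI.map, QI.ev, qz, h.zero, VD.ev, VT.ev, VD.map_ty, VT.map, pt]
  ring

lemma hv_vN (d : VD α) (ty : ℕ) (x : XP α) (k m0 m1 n1 : α)
    (hly : 0 ≤ h.f (d.ty ty).ly)
    (hqy : 0 ≤ h.f (d.ty ty).qy) (hcv : 0 ≤ h.f (d.ty ty).cv) (hdv : 0 ≤ h.f (d.ty ty).dv)
    (s : TSM.Sn) (aX : ℝ) (_h0 : 0 ≤ aX)
    (h3 : aX ^ 2 ≤ h.f x.g * s.vU ^ 2 + h.f x.l * s.aU ^ 2)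
    (h4 : aX ≤ h.f k * Real.sqrt (s.vU ^ 2 + s.aU ^ 2)) (vU vY : ℝ) (hvU : vU ≤ s.vY)
    (hvY : vY ≤ h.f m0 + h.f n1 * s.vU) :
    hv h (vN (d.ty ty) x k m0 m1 n1) (pt s) ≤
      - (d.map h.f).ev ⟨ty, s.y, h.f m0 + h.f m1 * s.u, vU, vY, s.aY, aX⟩ := by
  have h6 := mul_le_mul_of_nonneg_left h3 hqy
  have h7 := mul_le_mul_of_nonneg_left h4 hly
  have h8 := mul_le_mul_of_nonneg_left hvU hcv
  have h9 := mul_le_mul_of_nonneg_left hvY hdv
  simp only [vN, hv, pev, pmap, QI.map, QI.ev, qz, h.zero, h.neg, h.add, h.mul, h.nsm, VD.ev,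
    VT.ev, VD.map_ty, VT.map, pt, Nat.cast_ofNat]
  nlinarith

variable {h}

lemma gMin_le (k m0 m1 r : α) (s : TSM.Sn) :
    MLe h (gMin k m0 m1 r) (pt s) (h.f k * min (h.f m0 + h.f m1 * s.u) (h.f r)) := by
  apply MLe.two1
  rcases le_total (h.f m0 + h.f m1 * s.u) (h.f r) with h1 | h1
  · left
    rw [min_eq_left h1]
    apply le_of_eq
    simp only [hv_lin, h.mul, pt]
    ring
  · right
    rw [min_eq_right h1]
    simp [h.mul]

lemma exMin_le (K t k0 k1 : α) (s : TSM.Sn) :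
    MLe h (exMin K t k0 k1) (pt s)
      (-(h.f K * max 0 ((1 - h.f t * s.y) ^ 2 + h.f t * (h.f k0 + h.f k1 * s.u) ^ 2 - 1))) := by
  apply MLe.two1
  rcases le_total 0 ((1 - h.f t * s.y) ^ 2 + h.f t * (h.f k0 + h.f k1 * s.u) ^ 2 - 1) with h1 | h1
  · right
    rw [max_eq_right h1]
    apply le_of_eq
    simp only [hv_padd, hv_yq, hv_sqx, h.mul, h.nsm, h.neg, pt, Nat.cast_ofNat]
    ring
  · left
    rw [max_eq_left h1]
    simp

lemma hv_qN (C t m0 m1 : α) (s : TSM.Sn) :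
    hv h (qN C t m0 m1) (pt s) =
      -(h.f C * (h.f t ^ 2 * s.y ^ 2 + h.f t * (h.f m0 + h.f m1 * s.u) ^ 2)) := by
  simp only [qN, hv_padd, hv_yq, hv_sqx, h.mul, h.zero, h.neg, pt]
  ring

lemma exH_le (hf K t m0 m1 : α) (h2 : h.f hf = 1 / 2) (s : TSM.Sn) :
    MLe h (exH hf K t m0 m1) (pt s)
      (-(h.f K * max 0 ((1 - h.f t * s.y / 2) ^ 2 + h.f t * (h.f m0 + h.f m1 * s.u) ^ 2 / 4 -
        1))) := by
  apply MLe.two1
  rcases le_total 0 ((1 - h.f t * s.y / 2) ^ 2 + h.f t * (h.f m0 + h.f m1 * s.u) ^ 2 / 4 - 1)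
    with h1 | h1
  · right
    rw [max_eq_right h1]
    apply le_of_eq
    simp only [hv_padd, hv_yq, hv_sqx, h.mul, h.neg, h2, pt]
    ring
  · left
    rw [max_eq_left h1]
    simp

lemma hv_zq (f t m0 m1 : α) (s : TSM.Sn) :
    hv h (zq f t m0 m1) (pt s) =
      -(h.f f * (h.f t * s.y ^ 2 + (h.f m0 + h.f m1 * s.u) ^ 2)) := by
  simp only [zq, hv_padd, hv_yq, hv_sqx, h.mul, h.zero, h.neg, pt]
  ring

lemma hv_pQ (k uu yy : α) (s : TSM.Sn) :
    hv h (pQ k uu yy) (pt s) = -(h.f k * (h.f uu * s.u ^ 2 + h.f yy * s.y ^ 2)) := by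
  simp only [pQ, hv_padd, hv_yq, hv_sqx, h.mul, h.zero, h.neg, h.one, pt]
  ring

lemma pY_le (k yp : α) (s : TSM.Sn) :
    MLe h (pY k yp) (pt s) (-(h.f k * (h.f yp * max s.y 0))) := by
  apply MLe.two1
  rcases le_total s.y 0 with h1 | h1
  · left
    rw [max_eq_right h1]
    simp
  · right
    rw [max_eq_left h1]
    apply le_of_eq
    simp only [hv_yq, h.mul, h.zero, h.neg, pt]
    ring

end gen

/-! ### forms without the norm term in the `y` part -/

section nol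

variable {α : Type} [Ar α] {h : Hom α}

/-- no norm term in the `y` parts -/
def NoLs (L : List (QP α)) (h : Hom α) : Prop := ∀ q ∈ L, NoL q h

lemma noL_padd {p q : QP α} (h1 : NoL p h) (h2 : NoL q h) : NoL (padd p q) h := by
  unfold NoL at *
  simp only [padd, qadd, h.add, h1, h2, add_zero]

lemma noL_pz : NoL (pz : QP α) h := h.zero
lemma noL_cst (k : α) : NoL (cst k) h := h.zero
lemma noL_lin (k0 k1 : α) : NoL (lin k0 k1) h := h.zero
lemma noL_sqx (k k0 k1 : α) : NoL (sqx k k0 k1) h := h.zero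
lemma noL_yq (k1 k2 : α) : NoL (yq k1 k2) h := h.zero
lemma noL_aq (k : α) : NoL (aq k) h := h.zero
lemma noL_vC (τ : VT α) : NoL (vC τ) h := h.zero
lemma noL_vN (τ : VT α) (x : XP α) (k m0 m1 n1 : α) : NoL (vN τ x k m0 m1 n1) h := h.zero
lemma noL_zq (f t m0 m1 : α) : NoL (zq f t m0 m1) h := noL_padd (noL_yq _ _) (noL_sqx _ _ _)
lemma noL_qN (f t m0 m1 : α) : NoL (qN f t m0 m1) h := noL_padd (noL_yq _ _) (noL_sqx _ _ _)

lemma NoLs.one {p : QP α} (h1 : NoL p h) : NoLs [p] h := by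
  intro q hq
  rw [List.mem_singleton] at hq
  rw [hq]
  exact h1

lemma NoLs.cons {p : QP α} {L : List (QP α)} (h1 : NoL p h) (h2 : NoLs L h) :
    NoLs (p :: L) h := by
  intro q hq
  rcases List.mem_cons.1 hq with h3 | h3
  · rw [h3]; exact h1
  · exact h2 q h3

lemma NoLs.append {L M : List (QP α)} (h1 : NoLs L h) (h2 : NoLs M h) : NoLs (L ++ M) h := by
  intro q hq
  rcases List.mem_append.1 hq with h3 | h3
  · exact h1 q h3
  · exact h2 q h3

lemma NoLs.mfAdd {L M : List (QP α)} (h1 : NoLs L h) (h2 : NoLs M h) : NoLs (mfAdd L M) h := by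
  intro q hq
  unfold TSG.mfAdd at hq
  rw [List.mem_flatMap] at hq
  obtain ⟨p, hp, hq⟩ := hq
  obtain ⟨r, hr, rfl⟩ := List.mem_map.1 hq
  exact noL_padd (h1 p hp) (h2 r hr)

lemma noLs_gMin (k m0 m1 r : α) : NoLs (gMin k m0 m1 r) h :=
  NoLs.cons (noL_lin _ _) (NoLs.one (noL_cst _))

lemma noLs_exMin (K t k0 k1 : α) : NoLs (exMin K t k0 k1) h :=
  NoLs.cons noL_pz (NoLs.one (noL_padd (noL_yq _ _) (noL_sqx _ _ _)))

lemma noLs_exH (hf K t k0 k1 : α) : NoLs (exH hf K t k0 k1) h :=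
  NoLs.cons noL_pz (NoLs.one (noL_padd (noL_yq _ _) (noL_sqx _ _ _)))

end nol

/-! ### naturality -/

section nat

variable {α β : Type} [Ar α] [Ar β] {f : α → β} (hf : ArHom f)

include hf

lemma map_qz : (qz : QI α).map f = qz := by
  simp only [QI.map, qz, hf.zero]

lemma map_pz : pmap f (pz : QP α) = pz := by
  simp only [pmap, pz, map_qz hf]

lemma map_padd (p q : QP α) : pmap f (padd p q) = padd (pmap f p) (pmap f q) := by
  simp only [pmap, padd, QI.map, qadd, hf.add]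

lemma map_cst (k : α) : pmap f (cst k) = cst (f k) := by
  simp only [pmap, cst, QI.map, qz, hf.zero]

lemma map_lin (k0 k1 : α) : pmap f (lin k0 k1) = lin (f k0) (f k1) := by
  simp only [pmap, lin, QI.map, qz, hf.zero]

lemma map_sqx (k k0 k1 : α) : pmap f (sqx k k0 k1) = sqx (f k) (f k0) (f k1) := by
  simp only [pmap, sqx, QI.map, qz, hf.zero, hf.mul, hf.nsm]

lemma map_yq (k1 k2 : α) : pmap f (yq k1 k2) = yq (f k1) (f k2) := by
  simp only [pmap, yq, QI.map, qz, hf.zero]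

lemma map_aq (k : α) : pmap f (aq k) = aq (f k) := by
  simp only [pmap, aq, QI.map, qz, hf.zero]

lemma map_mfAdd (L M : List (QP α)) :
    (mfAdd L M).map (pmap f) = mfAdd (L.map (pmap f)) (M.map (pmap f)) := by
  unfold mfAdd
  rw [List.map_flatMap, List.flatMap_map]
  congr 1
  funext p
  rw [List.map_map, List.map_map]
  apply List.map_congr_left
  intro q _
  exact map_padd hf p q

lemma map_scl (k : α) (p : QP α) : pmap f (scl k p) = scl (f k) (pmap f p) := by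
  simp only [pmap, scl, QI.map, sclB, hf.mul]

lemma map_shP (p : QP α) : pmap f (shP p) = shP (pmap f p) := by
  simp only [pmap, shP, QI.map, shQ, hf.add, hf.nsm]

lemma map_shL (L : List (QP α)) :
    (L.map shP).map (pmap f) = (L.map (pmap f)).map shP := by
  rw [List.map_map, List.map_map]
  apply List.map_congr_left
  intro p _
  exact map_shP hf p

lemma map_sclL (k : α) (L : List (QP α)) :
    (L.map (scl k)).map (pmap f) = (L.map (pmap f)).map (scl (f k)) := by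
  rw [List.map_map, List.map_map]
  apply List.map_congr_left
  intro p _
  exact map_scl hf k p

lemma map_vC (τ : VT α) : pmap f (vC τ) = vC (τ.map f) := by
  simp only [pmap, vC, QI.map, qz, hf.zero, VT.map]

lemma map_vN (τ : VT α) (x : XP α) (k m0 m1 n1 : α) :
    pmap f (vN τ x k m0 m1 n1) = vN (τ.map f) (x.map f) (f k) (f m0) (f m1) (f n1) := by
  simp only [pmap, vN, QI.map, qz, hf.zero, hf.neg, hf.add, hf.mul, hf.nsm, VT.map, XP.map]

lemma map_gMin (k m0 m1 r : α) :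
    (gMin k m0 m1 r).map (pmap f) = gMin (f k) (f m0) (f m1) (f r) := by
  simp only [gMin, List.map_cons, List.map_nil, map_lin hf, map_cst hf, hf.mul]

lemma map_exMin (K t k0 k1 : α) :
    (exMin K t k0 k1).map (pmap f) = exMin (f K) (f t) (f k0) (f k1) := by
  simp only [exMin, List.map_cons, List.map_nil, map_pz hf, map_padd hf, map_yq hf, map_sqx hf,
    hf.mul, hf.nsm, hf.neg]

lemma map_exH (h' K t m0 m1 : α) :
    (exH h' K t m0 m1).map (pmap f) = exH (f h') (f K) (f t) (f m0) (f m1) := by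
  simp only [exH, List.map_cons, List.map_nil, map_pz hf, map_padd hf, map_yq hf, map_sqx hf,
    hf.mul, hf.neg]

lemma map_zq (k t m0 m1 : α) : pmap f (zq k t m0 m1) = zq (f k) (f t) (f m0) (f m1) := by
  simp only [zq, map_padd hf, map_yq hf, map_sqx hf, hf.mul, hf.neg, hf.zero]

lemma map_qN (C t m0 m1 : α) : pmap f (qN C t m0 m1) = qN (f C) (f t) (f m0) (f m1) := by
  simp only [qN, map_padd hf, map_yq hf, map_sqx hf, hf.mul, hf.neg, hf.zero]

lemma map_pQ (k uu yy : α) : pmap f (pQ k uu yy) = pQ (f k) (f uu) (f yy) := by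
  simp only [pQ, map_padd hf, map_yq hf, map_sqx hf, hf.mul, hf.neg, hf.zero, hf.one]

lemma map_pY (k yp : α) : (pY k yp).map (pmap f) = pY (f k) (f yp) := by
  simp only [pY, List.map_cons, List.map_nil, map_pz hf, map_yq hf, hf.mul, hf.neg, hf.zero]

end nat

end Pool.Agent.TSG
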