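import Pool.Agent.TSG.Step
import Pool.Agent.TSM.ExcRules
import Pool.Agent.TSC.Cell

set_option autoImplicit false

/-!
# From the lists of inequalities to the fields of the certificate (MP_d27362_co)
-/

namespace Pool.Agent.TSG

open Pool.Agent.TSC (Ar Hom ArHom QI pmap pev Dec Seg TD InCell covers covers_sound pick qhi qlo
  realHom tabX digX klX)
open Pool.Agent.TSM (q0 th RD Reg ILe Chd Sn UnE PrE OneE LossC TwoE)

/-! ### the data at a point of a cell -/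

section mk

variable {α : Type} [Ar α]

/-- interpolation between two nodes -/
def itp (c : Dec → α) (lam : α) (x0 x1 : Dec) : α :=
  Ar.add (c x0) (Ar.mul lam (c (Ar.sub x1 x0)))

/-- interpolation between two nodes -/
def itpT (c : Dec → α) (lam : α) (x y : VT Dec) : VT α :=
  ⟨itp c lam x.c y.c, itp c lam x.al y.al, itp c lam x.be y.be, itp c lam x.ga y.ga,
    itp c lam x.de y.de, itp c lam x.lU y.lU, itp c lam x.qU y.qU, itp c lam x.ly y.ly,
    itp c lam x.qy y.qy, itp c lam x.cv y.cv, itp c lam x.dv y.dv⟩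

/-- interpolation between two nodes -/
def itpV (c : Dec → α) (lam : α) (x y : VD Dec) : VD α :=
  ⟨itpT c lam x.t0 y.t0, itpT c lam x.t1 y.t1, itpT c lam x.t2 y.t2, itpT c lam x.t3 y.t3,
    itpT c lam x.t4 y.t4⟩

/-- the coefficients zero -/
def zT : VT Dec :=
  ⟨Dec.zero, Dec.zero, Dec.zero, Dec.zero, Dec.zero, Dec.zero, Dec.zero, Dec.zero, Dec.zero,
    Dec.zero, Dec.zero⟩

/-- the coefficients zero -/
def zV : VD Dec := ⟨zT, zT, zT, zT, zT⟩

/-- the potential of number `n` -/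
def sel : List (VD Dec × VD Dec) → ℕ → VD Dec × VD Dec
  | [], _ => (zV, zV)
  | x :: _, 0 => x
  | _ :: l, n + 1 => sel l n

/-- the data of an interval of `t` -/
abbrev TC := Seg (TD (List (VD Dec × VD Dec)))

/-- the middle of an interval -/
def mid (dc : Seg (Kn Dec)) : Dec := Ar.add dc.a (Ar.mul ⟨5, 0, 1⟩ dc.w)

/-- the data of a point, `c` embeds the decimal numbers -/
def mkEn (c : Dec → α) (lam mu : α) (tc : TC) (dc : Seg (Kn Dec)) : En α :=
  ⟨Ar.add (c tc.a) (Ar.mul lam (c tc.w)), Ar.add (c dc.a) (Ar.mul mu (c dc.w)), c qhi,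
    c qlo, c ⟨5, 0, 1⟩,
    Ar.sub (c (Ar.nsm 2 tc.x.m)) (Ar.mul (c (Ar.mul tc.x.m tc.x.m))
      (Ar.sub (c qhi) (Ar.add (c tc.a) (Ar.mul lam (c tc.w))))),
    Ar.sub (Ar.mul (c (Ar.nsm 2 (mid dc))) (Ar.add (c dc.a) (Ar.mul mu (c dc.w))))
      (c (Ar.mul (mid dc) (mid dc))),
    fun n => ⟨c (Ar.mul (Ar.mul qhi qhi) (tabX (digX tc.x.ix n)).1),
      c (Ar.mul (Ar.mul qhi qhi) (tabX (digX tc.x.ix n)).2)⟩,
    c (Ar.mul qhi klX), itpV c lam (sel tc.x.x dc.x.ix).1 (sel tc.x.x dc.x.ix).2, dc.x.map c⟩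

variable {β : Type} [Ar β] {f : α → β}

lemma map_mkEn (hf : ArHom f) (c : Dec → α) (lam mu : α) (tc : TC)
    (dc : Seg (Kn Dec)) :
    (mkEn c lam mu tc dc).map f = mkEn (fun x => f (c x)) (f lam) (f mu) tc dc := by
  simp only [mkEn, En.map, hf.add, hf.mul, hf.sub, itpV, VD.map, VT.map, itpT, itp, Kn.map,
    RU.map, RP.map, PD.map, PQ.map, S4.map, RZ.map, XP.map]

end mk

/-- the real data of a point -/
noncomputable def rEn (lam mu : ℝ) (tc : TC) (dc : Seg (Kn Dec)) : En ℝ :=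
  mkEn Dec.val lam mu tc dc

/-- a point of the state space of width `θ` -/
structure Dom (θ : ℝ) (p : Pt) : Prop where
  v0 : 0 ≤ p.v
  v2 : p.v ≤ 2
  a0 : 0 ≤ p.a
  hu : |p.u - p.v| ≤ θ * p.a
  w0 : 0 ≤ p.w
  w2 : p.w ≤ 2
  b0 : 0 ≤ p.b
  hy : |p.y - p.w| ≤ θ * p.b

/-- all inequalities of the list hold in all cells -/
def LOK (tl : List (TC)) (dl : List (Seg (Kn Dec)))
    (L : En ℝ → List (QP ℝ)) : Prop :=
  ∀ tc ∈ tl, ∀ dc ∈ dl, tc.a.val + dc.a.val ≤ 1 / 2 → ∀ lam mu : ℝ, 0 ≤ lam → lam ≤ 1 →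
    0 ≤ mu → mu ≤ 1 → ∀ q ∈ L (rEn lam mu tc dc), ∀ p, Dom tc.x.th.val p →
      0 ≤ hv realHom q p

section fields

variable {tl : List (TC)} {dl : List (Seg (Kn Dec))} {d : Seg (Kn Dec)}

/-- the data of a cell exist -/
def HasC (tl : List (TC)) (dl : List (Seg (Kn Dec))) (d : Seg (Kn Dec))
    (D a : ℝ) (E : En ℝ) : Prop :=
  ∃ tc ∈ tl, ∃ lam mu, InCell tc (pick dl d D) lam mu D a ∧ E = rEn lam mu tc (pick dl d D)

open Classical in
/-- the data at the point `(D, a)` -/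
noncomputable def enAt (tl : List (TC)) (dl : List (Seg (Kn Dec)))
    (d : Seg (Kn Dec)) (D a : ℝ) : En ℝ :=
  if h : ∃ E, HasC tl dl d D a E then h.choose
  else rEn 0 0 ⟨Dec.zero, Dec.zero, ⟨Dec.zero, Dec.zero, 0, []⟩⟩ d

lemma enAt_spec (hc : covers tl dl = true) {D a : ℝ} (ha : Reg D a) :
    HasC tl dl d D a (enAt tl dl d D a) := by
  have hD : RD D := ⟨ha.1, ha.2.1⟩
  obtain ⟨_, mu, _, _, _, h⟩ := covers_sound hc d hD
  obtain ⟨tc, htc, lam, hI⟩ := h a ha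
  have h1 : ∃ E, HasC tl dl d D a E := ⟨_, tc, htc, lam, mu, hI, rfl⟩
  unfold enAt
  rw [dif_pos h1]
  exact h1.choose_spec

/-- the constants of the rules at the total mass `D` -/
noncomputable def knAt (dl : List (Seg (Kn Dec))) (d : Seg (Kn Dec)) (D : ℝ) : Kn ℝ :=
  (pick dl d D).x.map Dec.val

lemma enAt_k (hc : covers tl dl = true) {D a : ℝ} (ha : Reg D a) :
    (enAt tl dl d D a).k = knAt dl d D := by
  obtain ⟨tc, _, lam, mu, _, h2⟩ := enAt_spec (d := d) hc ha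
  rw [h2]
  rfl

lemma arHom_id : ArHom (fun x : ℝ => x) :=
  ⟨rfl, rfl, fun _ _ => rfl, fun _ _ => rfl, fun _ => rfl, fun _ _ => rfl, fun _ _ => rfl⟩

lemma map_id_V (V : VD ℝ) : V.map realHom.f = V := rfl

lemma map_id_P (V : PD ℝ) : V.map realHom.f = V := rfl

lemma LOK.at (hc : covers tl dl = true) {L : En ℝ → List (QP ℝ)} (hL : LOK tl dl L) {D a : ℝ}
    (ha : Reg D a) (q : QP ℝ) (hq : q ∈ L (enAt tl dl d D a)) (p : Pt) (hp : Dom (th a) p) :
    0 ≤ hv realHom q p := by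
  obtain ⟨tc, htc, lam, mu, hI, h2⟩ := enAt_spec (d := d) hc ha
  rw [h2] at hq
  refine hL tc htc _ (covers_sound hc d ⟨ha.1, ha.2.1⟩).1 hI.hs lam mu hI.l0 hI.l1 hI.m0 hI.m1
    q hq p ⟨hp.v0, hp.v2, hp.a0, ?_, hp.w0, hp.w2, hp.b0, ?_⟩
  · exact hp.hu.trans (mul_le_mul_of_nonneg_right hI.hth hp.a0)
  · exact hp.hy.trans (mul_le_mul_of_nonneg_right hI.hth hp.b0)

lemma dom_zero (θ : ℝ) : Dom θ ⟨0, 0, 0, 0, 0, 0⟩ := by
  constructor <;> simp

lemma qhi_sq : q0 ^ 2 ≤ qhi.val ^ 2 :=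
  pow_le_pow_left₀ TSM.q0_pos.le TSC.q0_lt_qhi.le 2

lemma qhi_mul {x : Dec} (h : 0 ≤ x.val) :
    q0 ^ 2 * x.val ≤ (Ar.mul (Ar.mul qhi qhi) x : Dec).val := by
  have e1 : (Ar.mul (Ar.mul qhi qhi) x : Dec).val = qhi.val * qhi.val * x.val := by
    show Dec.val (Dec.mul (Dec.mul qhi qhi) x) = _
    rw [Dec.val_mul, Dec.val_mul]
  rw [e1, ← pow_two]
  exact mul_le_mul_of_nonneg_right qhi_sq h

lemma tx_nonneg {g l : ℝ} (h : TSM.TX g l) : 0 ≤ g ∧ 0 ≤ l :=
  ⟨zero_le_one.trans h.1, zero_le_one.trans h.2⟩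

lemma hx_ok {lam mu : ℝ} {tc : TC} {dc : Seg (Kn Dec)} (n : ℕ) :
    ∃ g l, TSM.TX g l ∧ q0 ^ 2 * g ≤ realHom.f ((rEn lam mu tc dc).x n).g ∧
      q0 ^ 2 * l ≤ realHom.f ((rEn lam mu tc dc).x n).l := by
  have h1 := TSC.tabX_tx (digX tc.x.ix n)
  exact ⟨_, _, h1, qhi_mul (tx_nonneg h1).1, qhi_mul (tx_nonneg h1).2⟩

lemma hk_ok {lam mu : ℝ} {tc : TC} {dc : Seg (Kn Dec)} :
    0 ≤ realHom.f (rEn lam mu tc dc).xk ∧
      ∃ g, TSM.TX g g ∧ q0 ^ 2 * g ≤ realHom.f (rEn lam mu tc dc).xk ^ 2 := by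
  obtain ⟨h0, h1⟩ := TSC.klX_tx
  have e1 : realHom.f (rEn lam mu tc dc).xk = qhi.val * klX.val := by
    show Dec.val (Dec.mul qhi klX) = _
    rw [Dec.val_mul]
  have h2 : (0 : ℝ) ≤ qhi.val := TSM.q0_pos.le.trans TSC.q0_lt_qhi.le
  refine ⟨?_, klX.val ^ 2, h1, ?_⟩
  · rw [e1]
    exact mul_nonneg h2 h0
  · rw [e1, mul_pow]
    exact mul_le_mul_of_nonneg_right qhi_sq (sq_nonneg _)

lemma enAt_ok (hc : covers tl dl = true) (hs : LOK tl dl sgnL) {D a : ℝ} (ha : Reg D a) :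
    (enAt tl dl d D a).Ok realHom D a := by
  have h3 := hs.at (d := d) hc ha
  obtain ⟨tc, htc, lam, mu, hI, h2⟩ := enAt_spec (d := d) hc ha
  have hk : ∀ x : ℝ, realHom.f x = x := fun _ => rfl
  have h4 : ∀ x : ℝ, cst x ∈ sgnL (enAt tl dl d D a) → 0 ≤ realHom.f x := by
    intro x hx
    have := h3 (cst x) hx _ (dom_zero (th a))
    rwa [hv_cst] at this
  refine ⟨?_, ?_, ?_, ?_, ?_, ?_, ?_, ?_, ?_, ?_, ?_, ?_, ?_, ?_, ?_, ?_⟩
  · rw [h2, hk]
    exact hI.ht.symm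
  · rw [h2, hk]
    exact hI.hD.symm
  · rw [h2, hk]
    exact TSC.q0_lt_qhi.le
  · rw [h2, hk]
    exact TSC.qlo_lt_q0.le
  · rw [h2, hk]
    show Dec.val ⟨5, 0, 1⟩ = 1 / 2
    norm_num [Dec.val]
  · intro n
    rw [h2]
    exact hx_ok n
  · rw [h2]
    exact hk_ok
  · intro hq
    rw [h2, hk]
    have h5 := hI.hpay hq
    have e1 : (rEn lam mu tc (pick dl d D)).w =
        2 * tc.x.m.val - tc.x.m.val ^ 2 * (qhi.val - a) := by
      show Dec.val (Ar.nsm 2 tc.x.m) - Dec.val (Ar.mul tc.x.m tc.x.m) *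
        (qhi.val - (tc.a.val + lam * tc.w.val)) = _
      have e2 : Dec.val (Ar.nsm 2 tc.x.m) = 2 * tc.x.m.val := by
        have := Dec.val_nsm 2 tc.x.m
        push_cast at this
        exact this
      have e3 : Dec.val (Ar.mul tc.x.m tc.x.m) = tc.x.m.val * tc.x.m.val := Dec.val_mul _ _
      rw [e2, e3, ← hI.ht]
      ring
    have e4 : (rEn lam mu tc (pick dl d D)).D2 =
        2 * (mid (pick dl d D)).val * D - (mid (pick dl d D)).val ^ 2 := by
      show Dec.val (Ar.nsm 2 (mid (pick dl d D))) *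
        ((pick dl d D).a.val + mu * (pick dl d D).w.val) -
        Dec.val (Ar.mul (mid (pick dl d D)) (mid (pick dl d D))) = _
      have e2 : Dec.val (Ar.nsm 2 (mid (pick dl d D))) = 2 * (mid (pick dl d D)).val := by
        have := Dec.val_nsm 2 (mid (pick dl d D))
        push_cast at this
        exact this
      have e3 : Dec.val (Ar.mul (mid (pick dl d D)) (mid (pick dl d D))) =
        (mid (pick dl d D)).val * (mid (pick dl d D)).val := Dec.val_mul _ _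
      rw [e2, e3, ← hI.hD]
      ring
    have h6 : 0 ≤ (rEn lam mu tc (pick dl d D)).w := by
      have := h4 (enAt tl dl d D a).w (by simp [sgnL, sg1L])
      rwa [h2] at this
    have h7 : (rEn lam mu tc (pick dl d D)).D2 ≤ D ^ 2 := by
      rw [e4]
      nlinarith [sq_nonneg (D - (mid (pick dl d D)).val)]
    have h8 := mul_le_mul_of_nonneg_right h7 h6
    have h9 : D * (rEn lam mu tc (pick dl d D)).w ≤ D / (q0 - a) := by
      rw [e1]
      linarith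
    have h10 : 0 ≤ D := ha.1
    have h11 := mul_le_mul_of_nonneg_left h9 h10
    calc _ ≤ _ := h8
      _ = D * (D * (rEn lam mu tc (pick dl d D)).w) := by ring
      _ ≤ _ := h11
  · intro n
    rcases n with _ | _ | _ | _ | n
    · exact h4 (enAt tl dl d D a).V.t0.ly (by simp [sgnL, sg1L])
    · exact h4 (enAt tl dl d D a).V.t1.ly (by simp [sgnL, sg1L])
    · exact h4 (enAt tl dl d D a).V.t2.ly (by simp [sgnL, sg1L])
    · exact h4 (enAt tl dl d D a).V.t3.ly (by simp [sgnL, sg1L])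
    · exact h4 (enAt tl dl d D a).V.t4.ly (by simp [sgnL, sg1L])
  · intro n
    rcases n with _ | _ | _ | _ | n
    · exact h4 (enAt tl dl d D a).V.t0.qy (by simp [sgnL, sg1L])
    · exact h4 (enAt tl dl d D a).V.t1.qy (by simp [sgnL, sg1L])
    · exact h4 (enAt tl dl d D a).V.t2.qy (by simp [sgnL, sg1L])
    · exact h4 (enAt tl dl d D a).V.t3.qy (by simp [sgnL, sg1L])
    · exact h4 (enAt tl dl d D a).V.t4.qy (by simp [sgnL, sg1L])
  · intro n
    rcases n with _ | _ | _ | _ | n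
    · exact h4 (enAt tl dl d D a).V.t0.lU (by simp [sgnL, sg1L])
    · exact h4 (enAt tl dl d D a).V.t1.lU (by simp [sgnL, sg1L])
    · exact h4 (enAt tl dl d D a).V.t2.lU (by simp [sgnL, sg1L])
    · exact h4 (enAt tl dl d D a).V.t3.lU (by simp [sgnL, sg1L])
    · exact h4 (enAt tl dl d D a).V.t4.lU (by simp [sgnL, sg1L])
  · intro n
    rcases n with _ | _ | _ | _ | n
    · exact h4 (enAt tl dl d D a).V.t0.qU (by simp [sgnL, sg1L])
    · exact h4 (enAt tl dl d D a).V.t1.qU (by simp [sgnL, sg1L])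
    · exact h4 (enAt tl dl d D a).V.t2.qU (by simp [sgnL, sg1L])
    · exact h4 (enAt tl dl d D a).V.t3.qU (by simp [sgnL, sg1L])
    · exact h4 (enAt tl dl d D a).V.t4.qU (by simp [sgnL, sg1L])
  · intro n
    rcases n with _ | _ | _ | _ | n
    · exact h4 (enAt tl dl d D a).V.t0.cv (by simp [sgnL, sg1L])
    · exact h4 (enAt tl dl d D a).V.t1.cv (by simp [sgnL, sg1L])
    · exact h4 (enAt tl dl d D a).V.t2.cv (by simp [sgnL, sg1L])
    · exact h4 (enAt tl dl d D a).V.t3.cv (by simp [sgnL, sg1L])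
    · exact h4 (enAt tl dl d D a).V.t4.cv (by simp [sgnL, sg1L])
  · intro n
    rcases n with _ | _ | _ | _ | n
    · exact h4 (enAt tl dl d D a).V.t0.dv (by simp [sgnL, sg1L])
    · exact h4 (enAt tl dl d D a).V.t1.dv (by simp [sgnL, sg1L])
    · exact h4 (enAt tl dl d D a).V.t2.dv (by simp [sgnL, sg1L])
    · exact h4 (enAt tl dl d D a).V.t3.dv (by simp [sgnL, sg1L])
    · exact h4 (enAt tl dl d D a).V.t4.dv (by simp [sgnL, sg1L])
  · have h5 := h4 _ (show cst (Ar.add (enAt tl dl d D a).V.t0.be (Ar.mul (enAt tl dl d D a).hf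
      (Ar.mul (enAt tl dl d D a).t (enAt tl dl d D a).t))) ∈ _ by simp [sgnL, sg1L])
    have h6 : (enAt tl dl d D a).hf = 1 / 2 := by
      rw [h2]
      show Dec.val ⟨5, 0, 1⟩ = 1 / 2
      norm_num [Dec.val]
    have h7 : (enAt tl dl d D a).t = a := by
      rw [h2]
      exact hI.ht.symm
    rw [h6, h7] at h5
    exact h5
  · have h5 := h4 _ (show cst (Ar.add (enAt tl dl d D a).V.t0.de (Ar.mul (enAt tl dl d D a).hf
      (enAt tl dl d D a).t)) ∈ _ by simp [sgnL, sg1L])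
    have h6 : (enAt tl dl d D a).hf = 1 / 2 := by
      rw [h2]
      show Dec.val ⟨5, 0, 1⟩ = 1 / 2
      norm_num [Dec.val]
    have h7 : (enAt tl dl d D a).t = a := by
      rw [h2]
      exact hI.ht.symm
    rw [h6, h7] at h5
    exact h5

lemma dom_of {c : Chd} (hc : c.Ok) {a : ℝ} (h0 : 0 ≤ a) (h1 : a ≤ q0) :
    Dom (th a) (pt (c.sn a)) :=
  ⟨hc.hU0, hc.hU2, hc.haU, hc.hu a h0 h1, hc.hY0, hc.hY2, hc.haY, hc.hy a h0 h1⟩

/-- the potential -/
noncomputable def VV (tl : List (TC)) (dl : List (Seg (Kn Dec)))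
    (d : Seg (Kn Dec)) (D a : ℝ) (s : Sn) : ℝ := (enAt tl dl d D a).V.ev s

/-- the pending cost -/
noncomputable def PP' (dl : List (Seg (Kn Dec))) (d : Seg (Kn Dec)) (D a : ℝ) (s : Sn) : ℝ :=
  (knAt dl d D).pd.ev D a s

/-- the price of the excess -/
noncomputable def chiF (dl : List (Seg (Kn Dec))) (d : Seg (Kn Dec)) (D : ℝ) : ℝ :=
  (knAt dl d D).chi

/-- all inequalities of the list hold in all cells, for `v_y ≤ 1` -/
def LOKw (tl : List (TC)) (dl : List (Seg (Kn Dec)))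
    (L : En ℝ → List (QP ℝ)) : Prop :=
  ∀ tc ∈ tl, ∀ dc ∈ dl, tc.a.val + dc.a.val ≤ 1 / 2 → ∀ lam mu : ℝ, 0 ≤ lam → lam ≤ 1 →
    0 ≤ mu → mu ≤ 1 → ∀ q ∈ L (rEn lam mu tc dc), ∀ p, Dom tc.x.th.val p → p.w ≤ 1 →
      0 ≤ hv realHom q p

/-- lists for all the types; for the types 1, 2 and 3 with `v_y ≤ 1`, for the type 4 with
`1 ≤ v_y` -/
def LOK5 (tl : List TC) (dl : List (Seg (Kn Dec)))
    (L : En ℝ → ℕ → List (QP ℝ)) : Prop :=
  LOK tl dl (fun E => L E 0) ∧ LOKw tl dl (fun E => L E 1) ∧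
    LOKw tl dl (fun E => L E 2) ∧ LOKw tl dl (fun E => L E 3) ∧
    LOKw tl dl (fun E => (L E 4).map shP)

/-- the restriction on `v_y` -/
def Adm (ty : ℕ) (_vU vY _aU _aY : ℝ) : Prop :=
  (ty = 1 ∨ ty = 2 ∨ ty = 3 → vY ≤ 1) ∧ (4 ≤ ty → 1 ≤ vY)

lemma LOKw.at (hc : covers tl dl = true) {L : En ℝ → List (QP ℝ)} (hL : LOKw tl dl L) {D a : ℝ}
    (ha : Reg D a) (q : QP ℝ) (hq : q ∈ L (enAt tl dl d D a)) (p : Pt) (hp : Dom (th a) p)
    (hw : p.w ≤ 1) : 0 ≤ hv realHom q p := by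
  obtain ⟨tc, htc, lam, mu, hI, h2⟩ := enAt_spec (d := d) hc ha
  rw [h2] at hq
  refine hL tc htc _ (covers_sound hc d ⟨ha.1, ha.2.1⟩).1 hI.hs lam mu hI.l0 hI.l1 hI.m0 hI.m1
    q hq p ⟨hp.v0, hp.v2, hp.a0, ?_, hp.w0, hp.w2, hp.b0, ?_⟩ hw
  · exact hp.hu.trans (mul_le_mul_of_nonneg_right hI.hth hp.a0)
  · exact hp.hy.trans (mul_le_mul_of_nonneg_right hI.hth hp.b0)

lemma LOK5.at (hc : covers tl dl = true) {L : En ℝ → ℕ → List (QP ℝ)}
    (hn : ∀ E n, L E (n + 4) = L E 4) (hl : ∀ E, NoLs (L E 4) realHom)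
    (hL : LOK5 tl dl L) {D a : ℝ}
    (ha : Reg D a) (ty : ℕ) (q : QP ℝ) (hq : q ∈ L (enAt tl dl d D a) ty) (p : Pt)
    (hp : Dom (th a) p) (hw : (ty = 1 ∨ ty = 2 ∨ ty = 3 → p.w ≤ 1) ∧ (4 ≤ ty → 1 ≤ p.w)) :
    0 ≤ hv realHom q p := by
  obtain ⟨h0, h1, h2, h3, h4⟩ := hL
  rcases ty with _ | _ | _ | _ | n
  · exact h0.at hc ha q hq p hp
  · exact LOKw.at (L := fun E => L E 1) hc h1 ha q hq p hp (hw.1 (by simp))
  · exact LOKw.at (L := fun E => L E 2) hc h2 ha q hq p hp (hw.1 (by simp))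
  · exact LOKw.at (L := fun E => L E 3) hc h3 ha q hq p hp (hw.1 (by simp))
  · rw [hn] at hq
    have h5 := hw.2 (by omega)
    have h6 := LOKw.at (L := fun E => (L E 4).map shP) hc h4 ha (shP q)
      (List.mem_map.2 ⟨q, hq, rfl⟩) ⟨p.u, p.v, p.a, p.y - 1, p.w - 1, p.b⟩
      ⟨hp.v0, hp.v2, hp.a0, hp.hu, by simpa using h5, by
        have := hp.w2
        show p.w - 1 ≤ 2
        linarith, hp.b0, by
        have := hp.hy
        show |p.y - 1 - (p.w - 1)| ≤ _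
        rwa [show p.y - 1 - (p.w - 1) = p.y - p.w by ring]⟩ (by
        have := hp.w2
        show p.w - 1 ≤ 1
        linarith)
    rw [hv_shP _ _ _ (hl _ q hq)] at h6
    have e1 : (1 : ℝ) + (p.y - 1) = p.y := by ring
    have e2 : (1 : ℝ) + (p.w - 1) = p.w := by ring
    simp only [e1, e2] at h6
    exact h6

lemma k_at (hc : covers tl dl = true) (E : En ℝ) {D a : ℝ} (ha : Reg D a)
    (hE : E = enAt tl dl d D a) : E.k = knAt dl d D := by
  rw [hE]
  exact enAt_k hc ha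

lemma pd1_nonneg {D a : ℝ} (hK : KOk (knAt dl d D) D) (ha : Reg D a) (u y vU vY aU aY : ℝ) :
    0 ≤ PP' dl d D a ⟨1, u, y, vU, vY, aU, aY⟩ := by
  have h1 := hK.kap0
  have h2 := hK.cu0
  have h3 := ha.2.2.1
  show 0 ≤ (knAt dl d D).pd.kap * (1 + y) ^ 2 / 4 + (knAt dl d D).pd.cu * a * u ^ 2
  positivity

lemma pd1_gain {D a : ℝ} (hK : KOk (knAt dl d D) D) (ha : Reg D a) (u y vU vY aU aY r : ℝ) :
    (knAt dl d D).pd.kap * min y r ≤ PP' dl d D a ⟨1, u, y, vU, vY, aU, aY⟩ := by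
  have h1 := hK.kap0
  have h2 := hK.cu0
  have h3 := ha.2.2.1
  show _ ≤ (knAt dl d D).pd.kap * (1 + y) ^ 2 / 4 + (knAt dl d D).pd.cu * a * u ^ 2
  have h4 : 0 ≤ (knAt dl d D).pd.cu * a * u ^ 2 := by positivity
  have h5 : (knAt dl d D).pd.kap * min y r ≤ (knAt dl d D).pd.kap * y :=
    mul_le_mul_of_nonneg_left (min_le_left _ _) h1
  have h6 : 0 ≤ (knAt dl d D).pd.kap * (1 - y) ^ 2 := by positivity
  linarith

/-- the stem -/
theorem field_un (hc : covers tl dl = true) (hs : LOK tl dl sgnL) (hL : LOK5 tl dl unL)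
    (hk : ∀ D, RD D → KOk (knAt dl d D) D) (c : Chd) (hok : c.Ok)
    (hA : Adm c.ty c.vU c.vY c.aU c.aY) (aX : ℝ) (hX : c.AX aX)
    (D : ℝ) (hD : RD D) :
    UnE (chiF dl d) D c.x c.y (fun a => VV tl dl d D a (c.sn a)) (fun a => PP' dl d D a (c.sn a))
      (fun a => VV tl dl d D a ⟨1, c.y a, c.x a, c.vY, c.xT, c.aY, aX⟩)
      (fun a => PP' dl d D a ⟨1, c.y a, c.x a, c.vY, c.xT, c.aY, aX⟩) := by
  have hK := hk D hD
  obtain ⟨D1, σ0, hO, hL1, hL2⟩ := hK.un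
  have key : ∀ a, Reg D a → a < q0 → _ := fun a ha hq =>
    unL_sound (h := realHom) (E := enAt tl dl d D a) (enAt_ok hc hs ha) hD.1 hq c aX hX
      (by rw [enAt_k hc ha]; exact hK.su0 _) hok.hU0
      (fun q hq => hL.at hc (fun _ _ => rfl) (fun _ => noLs_unL _ _) ha _ q hq _
        (dom_of hok ha.2.2.1 ha.2.2.2.2) hA)
  simp only [map_id_V, map_id_P] at key
  refine ⟨D1, 1 - (knAt dl d D).ru.w0, (knAt dl d D).ru.K, (knAt dl d D).ru.r,
    (knAt dl d D).pd.kap, σ0, (knAt dl d D).ru.s, (knAt dl d D).ru.K1, (knAt dl d D).ru.K2,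
    fun a => min (c.x a) (knAt dl d D).ru.r,
    fun a => max 0 ((1 - a * c.y a) ^ 2 + a * c.x a ^ 2 - 1), hO, hL1, hL2, hK.hs,
    ILe.pt fun a _ => min_le_left _ _, ILe.pt fun a _ => min_le_right _ _,
    ILe.pt fun a _ => le_max_left _ _, ILe.pt fun a _ => ?_, ?_, ?_, ?_, ILe.pt fun a ha => ?_,
    ILe.pt fun a ha => ?_⟩
  · have := le_max_right 0 ((1 - a * c.y a) ^ 2 + a * c.x a ^ 2 - 1)
    linarith
  · refine TSC.ile_pay ((knAt dl d D).su.ty c.ty * D) (mul_nonneg (hK.su0 _) hD.1)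
      fun a ha hq _ => ?_
    have h1 := (key a ha hq).1
    rw [enAt_k hc ha] at h1
    have e1 : 1 - (1 - (knAt dl d D).ru.w0) = (knAt dl d D).ru.w0 := by ring
    simp only [e1]
    exact h1
  · refine TSC.ile_pay ((knAt dl d D).su.ty c.ty * D) (mul_nonneg (hK.su0 _) hD.1)
      fun a ha hq _ => ?_
    have h1 := (key a ha hq).2.1
    rw [enAt_k hc ha] at h1
    exact h1
  · refine TSC.ile_pay ((knAt dl d D).su.ty c.ty * D) (mul_nonneg (hK.su0 _) hD.1)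
      fun a ha hq _ => ?_
    have h1 := (key a ha hq).2.2
    rw [enAt_k hc ha] at h1
    exact h1
  · exact pd1_nonneg hK ha _ _ _ _ _ _
  · exact pd1_gain hK ha _ _ _ _ _ _ _

/-- a pair: the general form -/
theorem field_pr (hc : covers tl dl = true) (hs : LOK tl dl sgnL) (o : ℕ)
    (g : Kn ℝ → RP ℝ) (sp : Kn ℝ → S4 ℝ) (m0 m1 : ℝ → ℕ → ℝ) (n1 : En ℝ → ℕ → ℝ)
    (hn : ∀ a n, m0 a (n + 4) = m0 a 4 ∧ m1 a (n + 4) = m1 a 4)
    (hn1 : ∀ E n, n1 E (n + 4) = n1 E 4)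
    (hL : LOK5 tl dl
      (fun E ty => prL E o (g E.k) (sp E.k) ty (m0 E.t ty) (m1 E.t ty) (n1 E ty)))
    (hκ : ∀ D, RD D → ∃ κ, TwoE D (g (knAt dl d D)).r (g (knAt dl d D)).C κ (g (knAt dl d D)).eta
      (knAt dl d D).chi (g (knAt dl d D)).psi)
    (hC : ∀ D, RD D → (g (knAt dl d D)).C ≤ (knAt dl d D).pd.C0)
    (hp0 : ∀ D, RD D → ∀ ty, 0 ≤ (sp (knAt dl d D)).ty ty)
    (c : Chd) (hok : c.Ok) (hA : Adm c.ty c.vU c.vY c.aU c.aY) (aX : ℝ) (hX : c.AX aX)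
    (X : ℝ → ℝ) (vX : ℝ)
    (hm : ∀ a, m0 a c.ty + m1 a c.ty * c.u a = X a) (D : ℝ) (hD : RD D)
    (hvX : ∀ a, (enAt tl dl d D a).Ok realHom D a →
      vX ≤ m0 a c.ty + n1 (enAt tl dl d D a) c.ty * c.vU) :
    PrE (chiF dl d) D X (fun a => a ^ 2 * c.y a ^ 2 + a * X a ^ 2)
      (fun a => VV tl dl d D a (c.sn a)) (fun a => PP' dl d D a (c.sn a))
      (fun a => VV tl dl d D a ⟨0, c.y a, X a, c.vY, vX, c.aY, aX⟩)
      (fun a => PP' dl d D a ⟨0, c.y a, X a, c.vY, vX, c.aY, aX⟩) := by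
  obtain ⟨κ, hT⟩ := hκ D hD
  have ht : ∀ a, Reg D a → (enAt tl dl d D a).t = a := fun a ha =>
    (enAt_ok (d := d) hc hs ha).ht
  have key : ∀ a, Reg D a → a < q0 → _ := fun a ha hq =>
    prL_sound (h := realHom) (E := enAt tl dl d D a) (enAt_ok hc hs ha) hD.1 hq o c aX hX
      (g (enAt tl dl d D a).k) (sp (enAt tl dl d D a).k) (m0 (enAt tl dl d D a).t c.ty)
      (m1 (enAt tl dl d D a).t c.ty) (n1 (enAt tl dl d D a) c.ty) (X a) vX
      (by rw [enAt_k hc ha]; exact hp0 D hD _)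
      (by rw [ht a ha]; exact hm a)
      (by
        rw [ht a ha]
        exact hvX a (enAt_ok hc hs ha))
      (fun q hq => hL.at
        (L := fun E ty => prL E o (g E.k) (sp E.k) ty (m0 E.t ty) (m1 E.t ty) (n1 E ty))
        hc (fun E n => by simp only [(hn E.t n).1, (hn E.t n).2, hn1 E n]; rfl)
        (fun _ => noLs_prL _ _ _ _ _ _ _ _) ha _ q hq _
        (dom_of hok ha.2.2.1 ha.2.2.2.2) hA)
  simp only [map_id_V, map_id_P] at key
  refine ⟨(g (knAt dl d D)).r, (g (knAt dl d D)).C, κ, (g (knAt dl d D)).eta,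
    (g (knAt dl d D)).psi, fun a => min (X a) (g (knAt dl d D)).r,
    fun a => a ^ 2 * c.y a ^ 2 + a * X a ^ 2, hT, ILe.pt fun a _ => min_le_left _ _,
    ILe.pt fun a _ => min_le_right _ _, ILe.pt fun a _ => le_rfl, ?_, ?_, ILe.pt fun a ha => ?_⟩
  · refine TSC.ile_pay ((sp (knAt dl d D)).ty c.ty * D) (mul_nonneg (hp0 D hD _) hD.1)
      fun a ha hq _ => ?_
    have h1 := (key a ha hq).1
    rw [enAt_k hc ha] at h1
    exact h1
  · refine TSC.ile_pay ((sp (knAt dl d D)).ty c.ty * D) (mul_nonneg (hp0 D hD _) hD.1)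
      fun a ha hq _ => ?_
    have h1 := (key a ha hq).2
    rw [enAt_k hc ha] at h1
    exact h1
  · exact mul_le_mul_of_nonneg_right (hC D hD) (add_nonneg (by positivity)
      (mul_nonneg ha.2.2.1 (sq_nonneg _)))

lemma k0_succ (n : ℕ) : (k0 (n + 4) : ℝ) = k0 4 := rfl

lemma k1_succ (t : ℝ) (n : ℕ) : (k1 t (n + 4) : ℝ) = k1 t 4 := rfl

lemma k_eq' (c : Chd) (a : ℝ) : (k0 c.ty : ℝ) + k1 a c.ty * c.u a = c.x a := by
  unfold Chd.x
  rcases c.ty with _ | n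
  · show (0 : ℝ) + a * c.u a = _
    simp
  · show (1 : ℝ) + (-a) * c.u a = _
    rw [if_neg (by omega)]
    ring

/-- leaf and child -/
theorem field_lc (hc : covers tl dl = true) (hs : LOK tl dl sgnL) (hL : LOK5 tl dl lcL)
    (hk : ∀ D, RD D → KOk (knAt dl d D) D) (c : Chd) (hok : c.Ok)
    (hA : Adm c.ty c.vU c.vY c.aU c.aY) (aX : ℝ) (hX : c.AX aX)
    (D : ℝ) (hD : RD D) :
    PrE (chiF dl d) D c.x (fun a => a ^ 2 * c.y a ^ 2 + a * c.x a ^ 2)
      (fun a => VV tl dl d D a (c.sn a)) (fun a => PP' dl d D a (c.sn a))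
      (fun a => VV tl dl d D a ⟨0, c.y a, c.x a, c.vY, c.xT, c.aY, aX⟩)
      (fun a => PP' dl d D a ⟨0, c.y a, c.x a, c.vY, c.xT, c.aY, aX⟩) :=
  field_pr hc hs 5 Kn.lc Kn.sl (fun _ ty => k0 ty) (fun t ty => k1 t ty) (fun E ty => k2 E ty)
    (fun _ n => ⟨k0_succ n, k1_succ _ n⟩) (fun _ _ => rfl) hL (fun D hD => (hk D hD).lc)
    (fun D hD => (hk D hD).lcC) (fun D hD => (hk D hD).sl0) c hok hA aX hX c.x c.xT
    (fun a => k_eq' c a) D hD (fun _ hE => k2_le hE hok.hU0)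

/-- path and child, sign `+` or `-` -/
theorem field_pc (hc : covers tl dl = true) (hs : LOK tl dl sgnL) (e : Bool)
    (hL : LOK5 tl dl (fun E => pcL E e))
    (hk : ∀ D, RD D → KOk (knAt dl d D) D) (c : Chd) (hok : c.Ok)
    (hA : Adm c.ty c.vU c.vY c.aU c.aY) (aX : ℝ) (hX : c.AX aX)
    (D : ℝ) (hD : RD D) :
    PrE (chiF dl d) D (fun a => 1 + TLT.sg e * c.x a)
      (fun a => a ^ 2 * c.y a ^ 2 + a * (1 + TLT.sg e * c.x a) ^ 2)
      (fun a => VV tl dl d D a (c.sn a)) (fun a => PP' dl d D a (c.sn a))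
      (fun a => VV tl dl d D a ⟨0, c.y a, 1 + TLT.sg e * c.x a, c.vY, 1 + TLT.sg e * c.xT,
        c.aY, aX⟩)
      (fun a => PP' dl d D a ⟨0, c.y a, 1 + TLT.sg e * c.x a, c.vY, 1 + TLT.sg e * c.xT,
        c.aY, aX⟩) := by
  refine field_pr hc hs 10 Kn.pc Kn.sp
    (fun _ ty => Ar.add Ar.one (if e then k0 ty else Ar.neg (k0 ty)))
    (fun t ty => if e then k1 t ty else Ar.neg (k1 t ty))
    (fun E ty => if e then k2 E ty else k3 E ty)
    (fun _ n => ⟨rfl, rfl⟩) (fun _ _ => rfl) hL (fun D hD => (hk D hD).pc)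
    (fun D hD => (hk D hD).pcC) (fun D hD => (hk D hD).sp0) c hok hA aX hX
    (fun a => 1 + TLT.sg e * c.x a) (1 + TLT.sg e * c.xT) (fun a => ?_) D hD (fun a hE => ?_)
  · rw [← k_eq' c a]
    cases e
    · show (1 : ℝ) + (-k0 c.ty) + (-k1 a c.ty) * c.u a = 1 + TLT.sg false * _
      rw [TSR.sg_ff]
      ring
    · show (1 : ℝ) + k0 c.ty + k1 a c.ty * c.u a = 1 + TLT.sg true * _
      rw [TSR.sg_tt]
      ring
  · cases e
    · have := k3_le hE hok.hU0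
      rw [TSR.sg_ff]
      show 1 + -1 * c.xT ≤ (1 : ℝ) + (-k0 c.ty) + k3 (enAt tl dl d D a) c.ty * c.vU
      have e1 : realHom.f (k0 c.ty : ℝ) = k0 c.ty := rfl
      have e2 : realHom.f (k3 (enAt tl dl d D a) c.ty : ℝ) = k3 (enAt tl dl d D a) c.ty := rfl
      rw [e1, e2] at this
      linarith
    · have := k2_le hE hok.hU0
      rw [TSR.sg_tt]
      show 1 + 1 * c.xT ≤ (1 : ℝ) + k0 c.ty + k2 (enAt tl dl d D a) c.ty * c.vU
      have e1 : realHom.f (k0 c.ty : ℝ) = k0 c.ty := rfl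
      have e2 : realHom.f (k2 (enAt tl dl d D a) c.ty : ℝ) = k2 (enAt tl dl d D a) c.ty := rfl
      rw [e1, e2] at this
      linarith

/-- positivity -/
theorem field_pos (hc : covers tl dl = true) (hL : LOK5 tl dl posL)
    (c : Chd) (hok : c.Ok) (hA : Adm c.ty c.vU c.vY c.aU c.aY)
    (D a : ℝ) (ha : Reg D a) : 0 ≤ VV tl dl d D a (c.sn a) := by
  have h1 := hv_vC realHom (enAt tl dl d D a).V (c.sn a)
  rw [map_id_V] at h1
  unfold VV
  rw [← h1]
  exact hL.at hc (fun _ _ => rfl) (fun _ => noLs_posL _ _) ha c.ty _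
    (List.mem_singleton.mpr rfl) _ (dom_of hok ha.2.2.1 ha.2.2.2.2) hA

lemma vOne_ev (E : En ℝ) (ty : ℕ) :
    vOne E ty = - E.V.ev ⟨ty, 0, 1, 0, 1, 0, 0⟩ := by
  show -((E.V.ty ty).c + (((E.V.ty ty).ga + (E.V.ty ty).de) + (E.V.ty ty).dv)) = _
  unfold VD.ev VT.ev
  ring

lemma gMin_one (k r : ℝ) :
    MLe realHom (gMin k (1 : ℝ) (0 : ℝ) r) ⟨0, 0, 0, 0, 0, 0⟩ (k * min 1 r) := by
  have h := gMin_le (h := realHom) k (1 : ℝ) (0 : ℝ) r ⟨0, 0, 0, 0, 0, 0, 0⟩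
  have e1 : realHom.f (1 : ℝ) + realHom.f (0 : ℝ) * (0 : ℝ) = 1 := by
    show (1 : ℝ) + 0 * 0 = 1
    ring
  simp only [e1] at h
  exact h

lemma root_aux {A k r z : ℝ}
    (hL : ∀ q ∈ mfAdd [cst A] (gMin k (1 : ℝ) (0 : ℝ) r), 0 ≤ hv realHom q ⟨0, 0, 0, 0, 0, 0⟩)
    (hz : A = - z) : z ≤ k * min 1 r := by
  have h1 : MLe realHom [(cst A : QP ℝ)] ⟨0, 0, 0, 0, 0, 0⟩ A := MLe.single (by
    rw [hv_cst]
    exact le_rfl)
  have h2 := MLe.nonneg (h1.add (gMin_one k r)) hL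
  linarith

/-- the vertex with the child `two` -/
theorem field_root1 (hc : covers tl dl = true) (hs : LOK tl dl sgnL) (hL : LOK tl dl root1L)
    (hk : ∀ D, RD D → KOk (knAt dl d D) D) (D : ℝ) (hD : RD D) :
    UnE (chiF dl d) D (fun _ => 1) (fun _ => 0) (fun _ => 0) (fun _ => 0)
      (fun a => VV tl dl d D a ⟨1, 0, 1, 0, 1, 0, 0⟩)
      (fun a => PP' dl d D a ⟨1, 0, 1, 0, 1, 0, 0⟩) := by
  have hK := hk D hD
  obtain ⟨D1, σ0, hO, hL1, hL2⟩ := hK.un
  have hx : ∀ a : ℝ, Reg D a → max 0 ((1 - a * 0) ^ 2 + a * 1 ^ 2 - 1) = a := by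
    intro a ha
    rw [max_eq_right]
    · ring
    · have := ha.2.2.1
      nlinarith
  have ht : ∀ a, Reg D a → (enAt tl dl d D a).t = a := fun a ha =>
    (enAt_ok (d := d) hc hs ha).ht
  have hmin : ILe D (fun a => (fun _ : ℝ => min (1 : ℝ) (knAt dl d D).ru.r) a) (fun _ => 1) :=
    ILe.pt fun a _ => min_le_left _ _
  refine ⟨D1, 1 - (knAt dl d D).ru.w0, (knAt dl d D).ru.K, (knAt dl d D).ru.r,
    (knAt dl d D).pd.kap, σ0, (knAt dl d D).ru.s, (knAt dl d D).ru.K1, (knAt dl d D).ru.K2,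
    fun a => min 1 (knAt dl d D).ru.r,
    fun a => max 0 ((1 - a * 0) ^ 2 + a * 1 ^ 2 - 1), hO, hL1, hL2, hK.hs,
    hmin, ILe.pt fun a _ => min_le_right _ _,
    ILe.pt fun a _ => le_max_left _ _, ILe.pt fun a _ => ?_, ILe.pt fun a ha => ?_,
    ILe.pt fun a ha => ?_, ILe.pt fun a ha => ?_, ILe.pt fun a ha => ?_,
    ILe.pt fun a ha => ?_⟩
  · have := le_max_right 0 ((1 - a * 0) ^ 2 + a * 1 ^ 2 - 1)
    linarith
  · have h0 := fun q hq => hL.at (d := d) hc ha q hq _ (dom_zero (th a))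
    have h1 := root_aux (z := VV tl dl d D a ⟨1, 0, 1, 0, 1, 0, 0⟩ +
      (knAt dl d D).ru.K * a) (fun q hq => h0 q (List.mem_append_left _ hq)) (by
        show vOne (enAt tl dl d D a) 1 - (enAt tl dl d D a).k.ru.K * (enAt tl dl d D a).t = _
        rw [vOne_ev _ _, enAt_k hc ha, ht a ha]
        unfold VV
        ring)
    rw [enAt_k hc ha] at h1
    simp only [hx a ha]
    have e1 : 1 - (1 - (knAt dl d D).ru.w0) = (knAt dl d D).ru.w0 := by ring
    rw [e1]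
    linarith
  · have h0 := fun q hq => hL.at (d := d) hc ha q hq _ (dom_zero (th a))
    have h1 := root_aux (z := VV tl dl d D a ⟨1, 0, 1, 0, 1, 0, 0⟩ +
      (knAt dl d D).ru.K1 * a)
      (fun q hq => h0 q (List.mem_append_right _ (List.mem_append_left _ hq))) (by
        show vOne (enAt tl dl d D a) 1 - (enAt tl dl d D a).k.ru.K1 * (enAt tl dl d D a).t = _
        rw [vOne_ev _ _, enAt_k hc ha, ht a ha]
        unfold VV
        ring)
    have e2 : (Ar.add Ar.one (enAt tl dl d D a).k.ru.s : ℝ) = 1 + (knAt dl d D).ru.s := by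
      rw [enAt_k hc ha]
      rfl
    rw [e2, enAt_k hc ha] at h1
    simp only [hx a ha]
    linarith
  · have h0 := fun q hq => hL.at (d := d) hc ha q hq _ (dom_zero (th a))
    have h1 := root_aux (z := VV tl dl d D a ⟨1, 0, 1, 0, 1, 0, 0⟩ +
      (knAt dl d D).ru.K2 * a - (knAt dl d D).chi * (knAt dl d D).pd.kap)
      (fun q hq => h0 q (List.mem_append_right _ (List.mem_append_right _ hq))) (by
        show vOne (enAt tl dl d D a) 1 + (enAt tl dl d D a).k.chi * (enAt tl dl d D a).k.pd.kap -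
          (enAt tl dl d D a).k.ru.K2 * (enAt tl dl d D a).t = _
        rw [vOne_ev _ _, enAt_k hc ha, ht a ha]
        unfold VV
        ring)
    have e2 : (Ar.add Ar.one (enAt tl dl d D a).k.chi : ℝ) = 1 + (knAt dl d D).chi := by
      rw [enAt_k hc ha]
      rfl
    rw [e2, enAt_k hc ha] at h1
    simp only [hx a ha]
    have e3 : PP' dl d D a ⟨1, 0, 1, 0, 1, 0, 0⟩ = (knAt dl d D).pd.kap := by
      show (knAt dl d D).pd.kap * (1 + 1) ^ 2 / 4 + (knAt dl d D).pd.cu * a * 0 ^ 2 = _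
      ring
    rw [e3]
    show _ ≤ 0 + _ - (knAt dl d D).chi * (0 - _) - _ + (knAt dl d D).chi * _
    linarith
  · exact pd1_nonneg hK ha _ _ _ _ _ _
  · exact pd1_gain hK ha _ _ _ _ _ _ _

/-- the vertex with a leaf and the child `two` -/
theorem field_root0 (hc : covers tl dl = true) (hs : LOK tl dl sgnL) (hL : LOK tl dl root0L)
    (hk : ∀ D, RD D → KOk (knAt dl d D) D) (D : ℝ) (hD : RD D) :
    PrE (chiF dl d) D (fun _ => 1) (fun a => a) (fun _ => 0) (fun _ => 0)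
      (fun a => VV tl dl d D a ⟨0, 0, 1, 0, 1, 0, 0⟩)
      (fun a => PP' dl d D a ⟨0, 0, 1, 0, 1, 0, 0⟩) := by
  have hK := hk D hD
  obtain ⟨κ, hT⟩ := hK.lc
  have ht : ∀ a, Reg D a → (enAt tl dl d D a).t = a := fun a ha =>
    (enAt_ok (d := d) hc hs ha).ht
  refine ⟨(knAt dl d D).lc.r, (knAt dl d D).lc.C, κ, (knAt dl d D).lc.eta, (knAt dl d D).lc.psi,
    fun _ => min 1 (knAt dl d D).lc.r, fun a => a, hT, ILe.pt fun a _ => min_le_left _ _,
    ILe.pt fun a _ => min_le_right _ _, ILe.pt fun a _ => le_rfl, ILe.pt fun a ha => ?_,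
    ILe.pt fun a ha => ?_, ILe.pt fun a ha => ?_⟩
  · have h0 := fun q hq => hL.at (d := d) hc ha q hq _ (dom_zero (th a))
    have h1 := root_aux (z := VV tl dl d D a ⟨0, 0, 1, 0, 1, 0, 0⟩ +
      (knAt dl d D).lc.C * a) (fun q hq => h0 q (List.mem_append_left _ hq)) (by
        show vOne (enAt tl dl d D a) 0 - (enAt tl dl d D a).k.lc.C * (enAt tl dl d D a).t = _
        rw [vOne_ev _ _, enAt_k hc ha, ht a ha]
        unfold VV
        ring)
    rw [enAt_k hc ha] at h1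
    simp only
    linarith
  · have h0 := fun q hq => hL.at (d := d) hc ha q hq _ (dom_zero (th a))
    have h1 := root_aux (z := VV tl dl d D a ⟨0, 0, 1, 0, 1, 0, 0⟩ + 1 / 2 * a)
      (fun q hq => h0 q (List.mem_append_right _ hq)) (by
        show vOne (enAt tl dl d D a) 0 - (enAt tl dl d D a).hf * (enAt tl dl d D a).t = _
        have hhf : (enAt tl dl d D a).hf = 1 / 2 := (enAt_ok (d := d) hc hs ha).hhf
        rw [vOne_ev _ _, hhf, ht a ha]
        unfold VV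
        ring)
    have e2 : (Ar.add Ar.one (enAt tl dl d D a).k.lc.psi : ℝ) = 1 + (knAt dl d D).lc.psi := by
      rw [enAt_k hc ha]
      rfl
    rw [e2, enAt_k hc ha] at h1
    simp only
    linarith
  · show (knAt dl d D).lc.C * a ≤ (knAt dl d D).pd.C0 * (a ^ 2 * 0 ^ 2 + a * 1 ^ 2)
    have := mul_le_mul_of_nonneg_right hK.lcC ha.2.2.1
    nlinarith

/-- two nontrivial children: the sum of the `x` -/
theorem field_cc (hc : covers tl dl = true) (hs : LOK tl dl sgnL)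
    (hL1 : LOK5 tl dl (fun E => msL E true)) (hL2 : LOK5 tl dl (fun E => msL E false))
    (hk : ∀ D, RD D → KOk (knAt dl d D) D) (c e : Chd) (hokc : c.Ok) (hoke : e.Ok)
    (hAc : Adm c.ty c.vU c.vY c.aU c.aY) (hAe : Adm e.ty e.vU e.vY e.aU e.aY)
    (aXc aXd aUn : ℝ) (hXc : c.AX aXc) (hXd : e.AX aXd) (hU0 : 0 ≤ aUn)
    (hU1 : aUn ≤ c.aY + e.aY) (f : ℝ) (hf0 : 0 ≤ f) (hf1 : f ≤ aXc + aXd) (vU vY : ℝ)
    (hvU : vU ≤ c.vY - e.vY) (hvY : vY ≤ c.xT + e.xT)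
    (D : ℝ) (hD : RD D) :
    PrE (chiF dl d) D (fun a => c.x a + e.x a)
      (fun a => a ^ 2 * (c.y a - e.y a) ^ 2 + a * (c.x a + e.x a) ^ 2)
      (fun a => VV tl dl d D a (c.sn a) + VV tl dl d D a (e.sn a))
      (fun a => PP' dl d D a (c.sn a) + PP' dl d D a (e.sn a))
      (fun a => VV tl dl d D a ⟨0, c.y a - e.y a, c.x a + e.x a, vU, vY, aUn, f⟩)
      (fun a => PP' dl d D a ⟨0, c.y a - e.y a, c.x a + e.x a, vU, vY, aUn, f⟩) := by
  have hK := hk D hD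
  obtain ⟨κ, hT⟩ := hK.cc
  have hC0 : 1 / 2 ≤ (knAt dl d D).cc.C := hT.hC.le
  have key : ∀ a, Reg D a → a < q0 → _ := fun a ha hq =>
    ms_sound (h := realHom) (E := enAt tl dl d D a) (enAt_ok hc hs ha) hD.1 hq ha.2.2.1 c e
      aXc aXd aUn f hXc hXd hU0 hU1 hf0 hf1 vU vY hvU hvY hokc.hU0 hoke.hU0
      (by rw [enAt_k hc ha]; exact hK.sm0) (by rw [enAt_k hc ha]; exact hC0)
      (fun q hq => hL1.at (L := fun E => msL E true) hc (fun _ _ => rfl)
        (fun _ => noLs_msL _ _ _) ha _ q hq _ (dom_of hokc ha.2.2.1 ha.2.2.2.2) hAc)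
      (fun q hq => hL2.at (L := fun E => msL E false) hc (fun _ _ => rfl)
        (fun _ => noLs_msL _ _ _) ha _ q hq _ (dom_of hoke ha.2.2.1 ha.2.2.2.2) hAe)
  simp only [map_id_V, map_id_P] at key
  refine ⟨(knAt dl d D).cc.r, (knAt dl d D).cc.C, κ, (knAt dl d D).cc.eta, (knAt dl d D).cc.psi,
    fun a => min (c.x a + e.x a) (knAt dl d D).cc.r,
    fun a => a ^ 2 * (c.y a - e.y a) ^ 2 + a * (c.x a + e.x a) ^ 2, hT,
    ILe.pt fun a _ => min_le_left _ _, ILe.pt fun a _ => min_le_right _ _,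
    ILe.pt fun a _ => le_rfl, ?_, ?_, ILe.pt fun a ha => ?_⟩
  · refine TSC.ile_pay ((knAt dl d D).sm * D) (mul_nonneg hK.sm0 hD.1) fun a ha hq _ => ?_
    have h1 := (key a ha hq).1
    rw [enAt_k hc ha] at h1
    exact h1
  · refine TSC.ile_pay ((knAt dl d D).sm * D) (mul_nonneg hK.sm0 hD.1) fun a ha hq _ => ?_
    have h1 := (key a ha hq).2
    rw [enAt_k hc ha] at h1
    exact h1
  · exact mul_le_mul_of_nonneg_right hK.ccC (add_nonneg (by positivity)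
      (mul_nonneg ha.2.2.1 (sq_nonneg _)))

/-- leaf, path and child, sign `-` -/
theorem field_lpc (hc : covers tl dl = true) (hs : LOK tl dl sgnL) (hL : LOK5 tl dl zpL)
    (hk : ∀ D, RD D → KOk (knAt dl d D) D) (c : Chd) (hok : c.Ok)
    (hA : Adm c.ty c.vU c.vY c.aU c.aY) (aX : ℝ) (hX : c.AX aX)
    (D : ℝ) (hD : RD D) :
    TSM.ZpEV (chiF dl d) D (fun a => 1 + TLT.sg false * c.x a) c.y
      (fun a => VV tl dl d D a (c.sn a)) (fun a => PP' dl d D a (c.sn a))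
      (fun a => VV tl dl d D a ⟨2, c.y a, 1 + TLT.sg false * c.x a, c.vY,
        1 + TLT.sg false * c.xT, c.aY, aX⟩)
      (fun a => PP' dl d D a ⟨2, c.y a, 1 + TLT.sg false * c.x a, c.vY,
        1 + TLT.sg false * c.xT, c.aY, aX⟩) := by
  have hK := hk D hD
  have ht : ∀ a, Reg D a → (enAt tl dl d D a).t = a := fun a ha =>
    (enAt_ok (d := d) hc hs ha).ht
  obtain ⟨X, hXd⟩ : ∃ X : ℝ → ℝ, X = fun a => 1 + TLT.sg false * c.x a := ⟨_, rfl⟩
  obtain ⟨vX, hvX⟩ : ∃ vX : ℝ, vX = 1 + TLT.sg false * c.xT := ⟨_, rfl⟩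
  rw [← hvX, ← hXd]
  have e0 : ∀ a, 1 + TLT.sg false * c.x a = X a := fun a => by rw [hXd]
  simp only [e0]
  have hm : ∀ a, Reg D a → realHom.f (Ar.add Ar.one (Ar.neg (k0 c.ty : ℝ)) : ℝ) +
      realHom.f (Ar.neg (k1 (enAt tl dl d D a).t c.ty) : ℝ) * c.u a = X a := by
    intro a ha
    rw [ht a ha, hXd]
    show (1 : ℝ) + (-k0 c.ty) + (-k1 a c.ty) * c.u a = 1 + TLT.sg false * c.x a
    rw [TSR.sg_ff, ← k_eq' c a]
    ring
  have hsz : ∀ a, Reg D a → 0 ≤ realHom.f ((enAt tl dl d D a).k.sz.ty c.ty) := by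
    intro a ha
    rw [enAt_k hc ha]
    exact hK.sz0 _
  have hLa : ∀ a, Reg D a → ∀ q ∈ zpL (enAt tl dl d D a) c.ty,
      0 ≤ hv realHom q (pt (c.sn a)) := fun a ha q hq =>
    hL.at hc (fun _ _ => rfl) (fun _ => noLs_zpM _ _ _ _ _) ha _ q hq _
      (dom_of hok ha.2.2.1 ha.2.2.2.2) hA
  have hvX' : ∀ a, Reg D a → vX ≤ realHom.f (Ar.add Ar.one (Ar.neg (k0 c.ty : ℝ)) : ℝ) +
      realHom.f (k3 (enAt tl dl d D a) c.ty) * c.vU := by
    intro a ha
    have h1 := k3_le (enAt_ok (d := d) hc hs ha) hok.hU0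
    rw [hvX, TSR.sg_ff]
    show 1 + -1 * c.xT ≤ (1 + -(k0 c.ty : ℝ)) + _
    have e1 : realHom.f (k0 c.ty : ℝ) = k0 c.ty := rfl
    rw [e1] at h1
    linarith
  have hpay : ∀ (x y : ℝ → ℝ), (∀ a, Reg D a → a < q0 →
      x a + (knAt dl d D).sz.ty c.ty * D * (1 - D / (q0 - a)) ≤ y a) → ILe D x y := by
    intro x y hxy
    exact TSC.ile_pay ((knAt dl d D).sz.ty c.ty * D) (mul_nonneg (hK.sz0 _) hD.1)
      fun a ha hq _ => hxy a ha hq
  have keyG : ∀ a, Reg D a → a < q0 → _ := fun a ha hq =>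
    zpG_sound (h := realHom) (E := enAt tl dl d D a) (enAt_ok hc hs ha) hD.1 hq c aX hX
      _ _ _ (X a) vX (hsz a ha) (hm a ha) (hvX' a ha) (hLa a ha)
  have keyL : ∀ a, Reg D a → a < q0 → _ := fun a ha hq =>
    zp4_sound (h := realHom) (E := enAt tl dl d D a) (enAt_ok hc hs ha) hD.1 hq c aX hX
      _ _ _ _ _ _ _ _ _ _ _ (X a) vX (hsz a ha) (hm a ha) (hvX' a ha)
      (fun q hq => hLa a ha q (List.mem_append_right _ (List.mem_append_right _
        (List.mem_append_left _ hq))))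
  have keyN : ∀ a, Reg D a → a < q0 → _ := fun a ha hq =>
    zp4_sound (h := realHom) (E := enAt tl dl d D a) (enAt_ok hc hs ha) hD.1 hq c aX hX
      _ _ _ _ _ _ _ _ _ _ _ (X a) vX (hsz a ha) (hm a ha) (hvX' a ha)
      (fun q hq => hLa a ha q (List.mem_append_right _ (List.mem_append_right _
        (List.mem_append_right _ hq))))
  have fg : ∀ a, Reg D a → realHom.f (zg (enAt tl dl d D a)) =
      (knAt dl d D).z.g1 * a + (knAt dl d D).z.g2 * D := fun a ha => by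
    rw [zg_val (enAt_ok (d := d) hc hs ha), enAt_k hc ha]
    rfl
  have ff : ∀ a, Reg D a → ∀ x y : ℝ, realHom.f (zf (enAt tl dl d D a) x y) =
      1 / 2 * (x * a + y * D) := fun a ha x y => by
    rw [zf_val (enAt_ok (d := d) hc hs ha)]
    rfl
  have fn : ∀ a, Reg D a → realHom.f (zn (enAt tl dl d D a)) =
      1 / 2 * ((knAt dl d D).z.n3 * D * (a ^ 2 * (1 - (knAt dl d D).z.c4 * a))) := fun a ha => by
    rw [zn_val (enAt_ok (d := d) hc hs ha), enAt_k hc ha]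
    rfl
  have hf1 : ∀ x : ℝ, realHom.f x = x := fun _ => rfl
  simp only [map_id_V, map_id_P] at keyG keyL keyN
  have hXa : ∀ a, Reg D a → -(a * th a * c.aU) ≤ X a := by
    intro a ha
    have h1 := abs_le.1 (hok.hu a ha.2.2.1 ha.2.2.2.2)
    have h2 := hok.hU0
    have h3 := hok.hU2
    have h4 : a ≤ q0 := ha.2.2.2.2
    have h5 : q0 < 1 / 2 := by
      have := TSC.q0_lt_qhi
      rw [TSC.qhi_val] at this
      linarith
    have h6 := TSM.th_nonneg a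
    have h7 := hok.haU
    rw [hXd]
    show _ ≤ 1 + TLT.sg false * c.x a
    rw [TSR.sg_ff]
    unfold Chd.x
    by_cases h8 : c.ty = 0
    · rw [if_pos h8]
      have h9 : a * c.u a ≤ a * (2 + th a * c.aU) :=
        mul_le_mul_of_nonneg_left (by linarith [h1.2]) ha.2.2.1
      nlinarith
    · rw [if_neg h8]
      have h9 : a * (0 - th a * c.aU) ≤ a * c.u a :=
        mul_le_mul_of_nonneg_left (by linarith [h1.1]) ha.2.2.1
      nlinarith
  obtain ⟨ε, β1, β2, hε, hrε, hq1, hq2, ha10, ha11, ha1, ha20, ha2, hk1, hk2, hz1, hz2, hb1,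
    hb2⟩ := hK.zl
  obtain ⟨β3, β4, hn1, hn2, hn3, ha30, ha3, ha40, ha4, hk3, hk4, hz3, hz4, hb3, hb4⟩ := hK.zm
  have hexq : ∀ a, Reg D a → (1 - a * c.y a / 2) ^ 2 + a * X a ^ 2 / 4 ≤
      1 + max 0 ((1 - a * c.y a / 2) ^ 2 + a * X a ^ 2 / 4 - 1) := by
    intro a _
    have := le_max_right 0 ((1 - a * c.y a / 2) ^ 2 + a * X a ^ 2 / 4 - 1)
    linarith
  have hW : ∀ a, Reg D a → 0 ≤ a * c.y a ^ 2 + X a ^ 2 := by
    intro a ha
    have := ha.2.2.1
    positivity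
  refine ⟨(knAt dl d D).z.r, fun a => min (X a) (knAt dl d D).z.r, hK.zr0,
    ILe.pt fun a _ => min_le_left _ _, ILe.pt fun a _ => min_le_right _ _, Or.inl ?_, ?_,
    Or.inr ?_⟩
  · refine ⟨(knAt dl d D).z.g1, (knAt dl d D).z.g2, 0, (knAt dl d D).z.e1, (knAt dl d D).z.e2,
      fun a => ((knAt dl d D).z.g1 * a + (knAt dl d D).z.g2 * D) * (a * c.y a ^ 2 + X a ^ 2),
      hK.zr3, hK.zg1, hK.zg2, Or.inr hK.zg3, hK.ze1, hK.ze2, ILe.pt fun a _ => le_of_eq (by ring),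
      hpay _ _ fun a ha hq => ?_, hpay _ _ fun a ha hq => ?_⟩
    · have h1 := (keyG a ha hq).1
      rw [fg a ha, enAt_k hc ha] at h1
      exact h1
    · have h1 := (keyG a ha hq).2
      rw [fg a ha, enAt_k hc ha] at h1
      exact h1
  · refine ⟨ε, β1, β2, (knAt dl d D).z.a1, (knAt dl d D).z.a2, (knAt dl d D).z.k1,
      (knAt dl d D).z.k2, 0, 0, 0, 0,
      fun a => max 0 ((1 - a * c.y a / 2) ^ 2 + a * X a ^ 2 / 4 - 1),
      fun a => ((knAt dl d D).z.q1 * a + (knAt dl d D).z.q2 * D) * (a * c.y a ^ 2 + X a ^ 2),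
      hε, hrε, ha10, ha11, ha1, ha20, ha2, hk1, hk2, le_rfl, le_rfl, le_rfl, le_rfl, hz1, hz2,
      ILe.pt fun a _ => le_max_left _ _, ILe.pt hexq, ILe.pt fun a ha => ?_,
      hpay _ _ fun a ha hq => ?_, hpay _ _ fun a ha hq => ?_, hpay _ _ fun a ha hq => ?_,
      hpay _ _ fun a ha hq => ?_⟩
    · have h1 := mul_le_mul_of_nonneg_right hq1 (mul_nonneg ha.2.2.1 (hW a ha))
      have h2 := mul_le_mul_of_nonneg_right hq2 (mul_nonneg hD.1 (hW a ha))
      have e1 : (1 + ε) * (a ^ 2 * c.y a ^ 2 + a * X a ^ 2) =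
          (1 + ε) * (a * (a * c.y a ^ 2 + X a ^ 2)) := by ring
      have e2 : (1 + ε + 1 / (4 * ε)) * D * (X a ^ 2 + a * c.y a ^ 2) =
          (1 + ε + 1 / (4 * ε)) * (D * (a * c.y a ^ 2 + X a ^ 2)) := by ring
      rw [e1, e2]
      linarith
    · have h1 := (keyL a ha hq).1
      simp only [ff a ha, hf1, enAt_k hc ha] at h1
      have e1 : (Ar.zero : ℝ) = 0 := rfl
      rw [e1] at h1
      show VV tl dl d D a _ + _ ≤ _
      unfold VV PP'
      linarith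
    · have h1 := (keyL a ha hq).2.1
      simp only [ff a ha, hf1, enAt_k hc ha] at h1
      have e1 : (Ar.zero : ℝ) = 0 := rfl
      rw [e1] at h1
      show VV tl dl d D a _ + _ ≤ _
      unfold VV PP' chiF
      linarith
    · have h1 := (keyL a ha hq).2.2.1
      simp only [ff a ha, hf1, enAt_k hc ha] at h1
      have e1 : (Ar.zero : ℝ) = 0 := rfl
      rw [e1] at h1
      show VV tl dl d D a _ + _ ≤ _
      unfold VV PP' chiF
      linarith
    · have h1 := (keyL a ha hq).2.2.2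
      simp only [ff a ha, hf1, enAt_k hc ha] at h1
      have e1 : (Ar.zero : ℝ) = 0 := rfl
      rw [e1] at h1
      show VV tl dl d D a _ + _ ≤ _
      unfold VV PP' chiF
      linarith
  · refine ⟨β3, β4, (knAt dl d D).z.a3, (knAt dl d D).z.a4, (knAt dl d D).z.k3,
      (knAt dl d D).z.k4, 0, 0, 0, 0, fun a => -(a * th a * c.aU),
      fun a => max 0 ((1 - a * c.y a / 2) ^ 2 + a * X a ^ 2 / 4 - 1),
      fun a => ((knAt dl d D).z.n1 * a + (knAt dl d D).z.n2 * D) * (a * c.y a ^ 2 + X a ^ 2) +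
        (knAt dl d D).z.n3 * D * (a ^ 2 * (1 - (knAt dl d D).z.c4 * a)) * c.aU ^ 2,
      ha30, ha3, ha40, ha4, hk3, hk4, le_rfl, le_rfl, le_rfl, le_rfl, hz3, hz4,
      ILe.pt fun a ha => ?_, ILe.pt hXa, ILe.pt fun a _ => le_max_left _ _, ILe.pt hexq,
      ILe.pt fun a ha => ?_,
      hpay _ _ fun a ha hq => ?_, hpay _ _ fun a ha hq => ?_, hpay _ _ fun a ha hq => ?_,
      hpay _ _ fun a ha hq => ?_⟩
    · have h6 := TSM.th_nonneg a
      have h7 := hok.haU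
      have h8 := ha.2.2.1
      have : 0 ≤ a * th a * c.aU := by positivity
      linarith
    · have h1 := mul_le_mul_of_nonneg_right hn1 (mul_nonneg ha.2.2.1 (hW a ha))
      have h2 := mul_le_mul_of_nonneg_right hn2 (mul_nonneg hD.1 (hW a ha))
      have e1 : 7 / 5 * (a ^ 2 * c.y a ^ 2 + a * X a ^ 2) =
          7 / 5 * (a * (a * c.y a ^ 2 + X a ^ 2)) := by ring
      have e2 : 23 / 10 * D * (X a ^ 2 + a * c.y a ^ 2) =
          23 / 10 * (D * (a * c.y a ^ 2 + X a ^ 2)) := by ring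
      have h3 : (-(a * th a * c.aU)) ^ 2 ≤ (a ^ 2 * (1 - (knAt dl d D).z.c4 * a)) * c.aU ^ 2 := by
        have h4 : th a ^ 2 ≤ 1 - (knAt dl d D).z.c4 * a := by
          rw [TSM.th_sq ha.2.2.2.2]
          have h5 := mul_le_mul_of_nonneg_right hK.zc4 ha.2.2.1
          rw [div_le_iff₀ TSM.q0_pos]
          linarith
        have h5 := mul_le_mul_of_nonneg_left h4 (show 0 ≤ a ^ 2 * c.aU ^ 2 by positivity)
        have e3 : (-(a * th a * c.aU)) ^ 2 = a ^ 2 * c.aU ^ 2 * th a ^ 2 := by ring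
        rw [e3]
        linarith
      have h4 : 10 * D * (-(a * th a * c.aU)) ^ 2 ≤ (knAt dl d D).z.n3 * D *
          ((a ^ 2 * (1 - (knAt dl d D).z.c4 * a)) * c.aU ^ 2) := by
        apply mul_le_mul _ h3 (sq_nonneg _)
        · exact mul_nonneg (by linarith) hD.1
        · exact mul_le_mul_of_nonneg_right hn3 hD.1
      rw [e1, e2]
      linarith
    · have h1 := (keyN a ha hq).1
      simp only [ff a ha, fn a ha, hf1, enAt_k hc ha] at h1
      show VV tl dl d D a _ + _ ≤ _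
      unfold VV PP'
      linarith
    · have h1 := (keyN a ha hq).2.1
      simp only [ff a ha, fn a ha, hf1, enAt_k hc ha] at h1
      show VV tl dl d D a _ + _ ≤ _
      unfold VV PP' chiF
      linarith
    · have h1 := (keyN a ha hq).2.2.1
      simp only [ff a ha, fn a ha, hf1, enAt_k hc ha] at h1
      show VV tl dl d D a _ + _ ≤ _
      unfold VV PP' chiF
      linarith
    · have h1 := (keyN a ha hq).2.2.2
      simp only [ff a ha, fn a ha, hf1, enAt_k hc ha] at h1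
      show VV tl dl d D a _ + _ ≤ _
      unfold VV PP' chiF
      linarith

/-- the system of the rules in the excess form -/
def sysE (χ : ℝ → ℝ) (hχ : ∀ D, RD D → 0 ≤ χ D) : TSM.Sys where
  G := TSM.GoodE χ
  U := UnE χ
  R := PrE χ
  Z := TSM.ZpEV χ
  nil := TSM.Good.nil.toE χ
  two := TSM.goodE_two χ
  un := fun h e x y => h.un e x y
  pr := fun h1 h2 σ1 e1 σ2 e2 x E => h1.pr h2 σ1 e1 σ2 e2 x E
  zp := fun h e1 e2 e3 x y => h.zpV e1 e2 e3 x y
  fin := fun h hV m S hS => h.final hχ (fun D _ => ILe.pt fun a ha => hV D a ha) m S hS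

lemma xT_nonneg {c : Chd} (hc : c.Ok) : 0 ≤ c.xT := by
  have h1 := hc.hU0
  have h2 := hc.hU2
  have h3 := TSM.q0_pos
  have h5 : q0 < 1 / 2 := by
    have := TSC.q0_lt_qhi
    rw [TSC.qhi_val] at this
    linarith
  unfold Chd.xT
  split_ifs
  · positivity
  · nlinarith

lemma xT_le_one {c : Chd} (hc : c.Ok) : c.xT ≤ 1 := by
  have h1 := hc.hU0
  have h2 := hc.hU2
  have h3 := TSM.q0_pos
  have h5 : q0 < 1 / 2 := by
    have := TSC.q0_lt_qhi
    rw [TSC.qhi_val] at this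
    linarith
  unfold Chd.xT
  split_ifs
  · nlinarith
  · have := mul_nonneg h3.le h1
    linarith

lemma adm_zero (vU vY aU aY : ℝ) : Adm 0 vU vY aU aY := ⟨by simp, by simp⟩

lemma chi_nonneg (hk : ∀ D, RD D → KOk (knAt dl d D) D) : ∀ D, RD D → 0 ≤ chiF dl d D :=
  fun D hD => (hk D hD).chi0

/-- **the conditions of the assembly hold** -/
theorem cert (hc : covers tl dl = true) (hk : ∀ D, RD D → KOk (knAt dl d D) D)
    (hs : LOK tl dl sgnL) (hpos : LOK5 tl dl posL) (hr1 : LOK tl dl root1L)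
    (hr0 : LOK tl dl root0L) (hun : LOK5 tl dl unL) (hlc : LOK5 tl dl lcL)
    (hpc : LOK5 tl dl (fun E => pcL E true)) (hzp : LOK5 tl dl zpL)
    (hm1 : LOK5 tl dl (fun E => msL E true)) (hm2 : LOK5 tl dl (fun E => msL E false)) :
    TSM.Cert (sysE (chiF dl d) (chi_nonneg hk)) Adm (VV tl dl d) (PP' dl d) where
  pos := fun c hok hA D a ha => field_pos hc hpos c hok hA D a ha
  root1 := ⟨⟨fun _ => le_rfl, fun h => by omega⟩, fun D hD => field_root1 hc hs hr1 hk D hD⟩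
  root0 := ⟨adm_zero _ _ _ _, fun D hD => field_root0 hc hs hr0 hk D hD⟩
  un := fun c hok hA aX hX => ⟨⟨fun _ => xT_le_one hok, fun h => by omega⟩,
    fun D hD => field_un hc hs hun hk c hok hA aX hX D hD⟩
  lc := fun c hok hA aX hX => ⟨adm_zero _ _ _ _,
    fun D hD => field_lc hc hs hlc hk c hok hA aX hX D hD⟩
  pc := fun c hok hA aX hX => ⟨true, adm_zero _ _ _ _,
    fun D hD => field_pc hc hs true hpc hk c hok hA aX hX D hD⟩
  lpc := fun c hok hA aX hX => ⟨false, ⟨fun _ => by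
      rw [TSR.sg_ff]
      have := xT_nonneg hok
      linarith, fun h => by omega⟩,
    fun D hD => field_lpc hc hs hzp hk c hok hA aX hX D hD⟩
  cc := fun c e hokc hoke hAc hAe _ aXc aXd aUn hXc hXd hU0 hU1 f hf _ =>
    ⟨true, true, by
      rw [TSR.sg_tt]
      have h1 := xT_nonneg hokc
      have h2 := xT_nonneg hoke
      linarith, adm_zero _ _ _ _, fun D hD => by
      have h1 := field_cc hc hs hm1 hm2 hk c e hokc hoke hAc hAe aXc aXd aUn hXc hXd hU0 hU1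
        (f true) (hf true).1 (hf true).2 (c.vY - e.vY) (c.xT + e.xT) le_rfl le_rfl D hD
      simp only [TSR.sg_tt, one_mul]
      exact h1⟩

end fields

end Pool.Agent.TSG
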