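import Pool.Agent.TSG.F3F
import Pool.Agent.TSG.Glue
import Pool.Agent.TSM.KindE
import Pool.Agent.TSM.Tri3

set_option autoImplicit false

/-!
# The kind with a leaf and two nontrivial children, from the lists (MP_d27362_co)
-/

namespace Pool.Agent.TSG

open Finset
open Pool.Agent.TSC
open Pool.Agent.TSM (q0 th RD Reg Sn NS CT Q5 chd vU vY aU aY aX XX YY UU gY2 Chd LfL Vi fam gU T3
  I3 ItD FamT FamO c1 tau sg3 Or3 Lb3 PO PoT)
open Pool.Agent.TSR (OBr sg_true sg_false)
open Pool.Agent.TLT (sg)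
open Pool.Agent.TDN (dn dn_nonneg)

/-! ### shapes -/

/-- the number two -/
def d2 : Dec := Dec.nsm 2 Dec.one

/-- minus one -/
def dm : Dec := Dec.neg Dec.one

/-- minus two -/
def dm2 : Dec := Dec.neg d2

lemma d2_val : d2.val = 2 := by
  unfold d2
  rw [Dec.val_nsm, Dec.val_one]
  norm_num

lemma dm_val : dm.val = -1 := by
  unfold dm
  rw [Dec.val_neg, Dec.val_one]

lemma dm2_val : dm2.val = -2 := by
  unfold dm2
  rw [Dec.val_neg, d2_val]

/-- `2.468`, at least `1 / q0` -/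
def dq : Dec := Dec.pos 2468 3

lemma dq_val : dq.val = 2468 / 1000 := by
  unfold dq
  rw [Dec.val_pos]
  norm_num

/-- `- 2.467`, at least `- 1 / q0` -/
def dq' : Dec := Dec.neg (Dec.pos 2467 3)

lemma dq'_val : dq'.val = -(2467 / 1000) := by
  unfold dq'
  rw [Dec.val_neg, Dec.val_pos]
  norm_num

/-- `- 3.043` -/
def dr : Dec := Dec.neg (Dec.pos 3043 3)

lemma dr_val : dr.val = -(3043 / 1000) := by
  unfold dr
  rw [Dec.val_neg, Dec.val_pos]
  norm_num

/-- `0.8106`, at least `2 q0` -/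
def dt : Dec := Dec.pos 8106 4

lemma dt_val : dt.val = 8106 / 10000 := by
  unfold dt
  rw [Dec.val_pos]
  norm_num

/-- `1.533` -/
def du : Dec := Dec.pos 1533 3

lemma du_val : du.val = 1533 / 1000 := by
  unfold du
  rw [Dec.val_pos]
  norm_num

/-- a condition on the values of one child: the factors of `v_U`, `v_U²`, `v_y`, `v_y²` -/
def q64 (v1 v2 w1 w2 : Dec) : Q6 Dec := ⟨v1, v2, Dec.zero, w1, w2, Dec.zero⟩

lemma q64_ev (v1 v2 w1 w2 : Dec) (a b c d : ℝ) : ((q64 v1 v2 w1 w2).map Dec.val).ev a b c d =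
    v1.val * a + v2.val * a ^ 2 + w1.val * c + w2.val * c ^ 2 := by
  show v1.val * a + v2.val * a ^ 2 + Dec.zero.val * b ^ 2 + w1.val * c + w2.val * c ^ 2 +
    Dec.zero.val * d ^ 2 = _
  rw [Dec.val_zero]
  ring

/-- no condition -/
def qn : Q6 Dec := q64 Dec.zero Dec.zero Dec.zero Dec.zero

/-- `x v_U` -/
def qv (x : Dec) : Q6 Dec := q64 x Dec.zero Dec.zero Dec.zero

/-- `x v_U²` -/
def qvv (x : Dec) : Q6 Dec := q64 Dec.zero x Dec.zero Dec.zero

/-- `x v_y` -/
def qw (x : Dec) : Q6 Dec := q64 Dec.zero Dec.zero x Dec.zero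

/-- `x v_y²` -/
def qww (x : Dec) : Q6 Dec := q64 Dec.zero Dec.zero Dec.zero x

variable {O1 O2 O3 : OBr}

lemma q3_ev (c : Dec) (p q r : Q6 Dec) (a b e : Fin 4 → ℝ) :
    ((⟨c, p, q, r⟩ : Q3 Dec).map Dec.val).ev a b e = c.val +
      (p.map Dec.val).ev (a 0) (a 1) (a 2) (a 3) + (q.map Dec.val).ev (b 0) (b 1) (b 2) (b 3) +
      (r.map Dec.val).ev (e 0) (e 1) (e 2) (e 3) := rfl

lemma qn_ev (o : OBr) : (qn.map Dec.val).ev (V4 o 0) (V4 o 1) (V4 o 2) (V4 o 3) = 0 := by
  unfold qn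
  rw [q64_ev, Dec.val_zero]
  ring

lemma qv_ev (x : Dec) (o : OBr) :
    ((qv x).map Dec.val).ev (V4 o 0) (V4 o 1) (V4 o 2) (V4 o 3) = x.val * vU o := by
  unfold qv
  rw [q64_ev, Dec.val_zero]
  show x.val * vU o + _ + _ + _ = _
  ring

lemma qvv_ev (x : Dec) (o : OBr) :
    ((qvv x).map Dec.val).ev (V4 o 0) (V4 o 1) (V4 o 2) (V4 o 3) = x.val * vU o ^ 2 := by
  unfold qvv
  rw [q64_ev, Dec.val_zero]
  show 0 * vU o + x.val * vU o ^ 2 + _ + _ = _
  ring

lemma qw_ev (x : Dec) (o : OBr) :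
    ((qw x).map Dec.val).ev (V4 o 0) (V4 o 1) (V4 o 2) (V4 o 3) = x.val * vY o := by
  unfold qw
  rw [q64_ev, Dec.val_zero]
  show _ + _ + x.val * vY o + _ = _
  ring

lemma qww_ev (x : Dec) (o : OBr) :
    ((qww x).map Dec.val).ev (V4 o 0) (V4 o 1) (V4 o 2) (V4 o 3) = x.val * vY o ^ 2 := by
  unfold qww
  rw [q64_ev, Dec.val_zero]
  show _ + _ + _ + x.val * vY o ^ 2 = _
  ring

/-- the case of the new `U` for a difference: `y_A - y_B`, the child `L` is trivial -/
def kUD : CS := ⟨true, 1, d2, false, true, 1, d2, false, 1, true, Dec.zero, d2, d2, Dec.one⟩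

/-- the case of the new `U` for a sum: `y_L + y_A`, the child `B` is trivial -/
def kUS : CS := ⟨false, 1, d2, false, false, 1, d2, false, 1, true, d2, d2, Dec.zero, d2⟩

/-- the case of `G` for a difference of the children `A`, `B`; the sign of the value is `g`, `od`
says which value is larger, `h` is a bound -/
def kGD (g : ℤ) (od : ℕ) (h : Dec) : CS :=
  ⟨true, g, h, false, true, g, h, false, od, true, Dec.zero, d2, d2, Dec.one⟩

/-- the case of `G` for the sum of the children `A`, `B` -/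
def kGP : CS := ⟨true, 1, dq, false, true, 1, dq, false, 0, true, Dec.zero, d2, d2, d2⟩

/-- the cases of `G` when `L` is the child with `τ = 1` and `A` the child with `τ = 0`: the
difference with `v_A ≤ v_L`, the sum, the difference with `v_L ≤ v_A` -/
def kGS : ℕ → CS
  | 0 => ⟨false, 1, d2, true, false, -1, d2, true, 1, true, d2, d2, Dec.zero, Dec.one⟩
  | 1 => ⟨false, 1, dq, false, false, 1, d2, false, 1, true, d2, d2, Dec.zero, d2⟩
  | _ => ⟨false, -1, du, false, true, -1, d2, false, 1, true, d2, d2, Dec.zero, Dec.one⟩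

/-- **one class**: the leaf is split off, the difference of the children, the labels are
opposite; `ts` are the types -/
def shE (ts : List ℕ) : F3S :=
  ⟨3, 0, 0, 0, [0], ts, ts, [true], [false], [], [true, false], [true, false], kUD, kGD (-1) 0 d2,
    [⟨Dec.zero, qn, qw Dec.one, qw dm⟩, ⟨Dec.zero, qn, qww Dec.one, qww dm⟩], true, Dec.zero, dt⟩

/-- the conditions for the values `v_U` of the child `p` with `τ = 1` and the child `q` with
`τ = 0` -/
def cdP (f : Q6 Dec → Q6 Dec → Dec → Q3 Dec) : ℕ → List (Q3 Dec)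
  | 0 => [f (qv Dec.one) (qv dm) Dec.zero, f (qvv Dec.one) (qvv dm) Dec.zero]
  | 1 => [f (qv dm) (qv Dec.one) Dec.zero, f (qvv dm) (qvv Dec.one) Dec.zero,
      f (qv dm) (qv dm) dq]
  | _ => [f (qv dm) (qv Dec.one) Dec.zero, f (qvv dm) (qvv Dec.one) Dec.zero,
      f (qv Dec.one) (qv Dec.one) dq', f (qvv Dec.one) (qvv Dec.one) dr]

/-- the new type -/
def tnP : ℕ → ℕ
  | 0 => 3
  | 1 => 3
  | _ => 4

/-- lower bound of the new `v_y` -/
def ylP : ℕ → Dec
  | 0 => Dec.pos 1894 4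
  | 1 => Dec.zero
  | _ => Dec.one

/-- upper bound of the new `v_y` -/
def yhP : ℕ → Dec
  | 0 => Dec.one
  | 1 => Dec.one
  | _ => Dec.pos 16213 4

/-- **two classes, the sum of the `v_y` is at most two**: the child with `τ = 1` is split off, the
sum of the children; `p` are the labels -/
def shS (p : ℕ) : F3S :=
  ⟨tnP p, 1, 1, 0, [1, 2, 3, 4], [0], [], [true], [], [true], [p == 1], [], kUS, kGS p,
    ⟨d2, qw dm, qw dm, qn⟩ :: cdP (fun a b c => ⟨c, a, b, qn⟩) p, false, ylP p, yhP p⟩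

/-- the conditions of the difference with a large sum -/
def cdD : List (Q3 Dec) :=
  [⟨dm2, qn, qw Dec.one, qw Dec.one⟩, ⟨dm2, qn, qww Dec.one, qww Dec.one⟩,
    ⟨Dec.zero, qn, qw Dec.one, qw dm⟩, ⟨Dec.zero, qn, qww Dec.one, qww dm⟩]

/-- **two classes, the sum of the `v_y` is at least two**, the child with `τ = 1` has the larger
`v_y`: the leaf is split off -/
def shD1 (p : ℕ) : F3S :=
  ⟨tnP p, 1, 0, 1, [0], [4], [0], [true], [false], [], [true], [p == 1], kUD,
    match p with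
    | 0 => kGD 1 1 d2
    | 1 => kGP
    | _ => kGD (-1) 2 du,
    cdD ++ cdP (fun a b c => ⟨c, qn, a, b⟩) p, true, ylP p, yhP p⟩

/-- **two classes, the sum of the `v_y` is at least two**, the child with `τ = 0` has the larger
`v_y`: the leaf is split off -/
def shD0 (p : ℕ) : F3S :=
  ⟨tnP p, 1, 0, 1, [0], [0], [1, 2, 3, 4], [true], [false], [], [p == 1], [true], kUD,
    match p with
    | 0 => kGD 1 2 d2
    | 1 => kGP
    | _ => kGD (-1) 1 du,
    cdD ++ cdP (fun a b c => ⟨c, qn, b, a⟩) p, true, ylP p, yhP p⟩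

/-- the lists and tests for one shape -/
def R3OK (tl : List TC) (dl : List (Seg (Kn Dec))) (S : F3S) : Prop :=
  ∃ (kd : ℕ) (oL oR : Bool) (C : ℕ → LC) (P : ℕ → S3 Dec), (kd = 0 ∨ kd = 2) ∧
    (∀ dc ∈ dl, lcOk kd oL oR (C dc.x.ix) dc = true) ∧
    (∀ dc ∈ dl, s3Ok (P dc.x.ix) = true) ∧ Lines3 tl dl S oL oR C P

/-- the lists and tests for one shape when a leaf is split off -/
def R3OKF (tl : List TC) (dl : List (Seg (Kn Dec))) (S : F3S) : Prop :=
  ∃ (kd : ℕ) (oR : Bool) (C : ℕ → LC) (P : ℕ → S3 Dec), (kd = 0 ∨ kd = 2) ∧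
    (∀ dc ∈ dl, lcOkF kd oR (C dc.x.ix) dc = true) ∧
    (∀ dc ∈ dl, s3Ok (P dc.x.ix) = true) ∧ Lines3F tl dl S oR C P

/-! ### the families -/

variable {tl : List TC} {dl : List (Seg (Kn Dec))} {d : Seg (Kn Dec)} {S : F3S}
  {Y : TSM.Sys} {K : ℕ} {O : Fin K → OBr} {N : Finset (Fin K)} {tc : Fin K → ℕ}
  {L A B : Fin K}

/-- **one family from one shape** -/
theorem po_f3 (hc : covers tl dl = true) (hs : LOK tl dl sgnL)
    (hK : ∀ D, RD D → KOk (knAt dl d D) D) (hY : Y.G = TSM.GoodE (chiF dl d))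
    (hR : R3OK tl dl S) (hI : I3 L A B)
    (hT : FamT Y Adm (VV tl dl d) (PP' dl d) O N tc) {b : Bool} {e : Fin K → Bool}
    (hF : TriF S O N tc (sg3 A B b) e b L A B) (hty : S.tn ≠ 0)
    (hA : Adm S.tn (vU (fam (sg3 A B b) e O)) (vY (fam (sg3 A B b) e O))
      (aU (fam (sg3 A B b) e O)) (aY (fam (sg3 A B b) e O))) :
    ∃ σ e : Fin K → Bool, PO Y Adm (VV tl dl d) (PP' dl d) (fam σ e O) := by
  obtain ⟨kd, oL, oR, C, P, hkd, h1, h2, h3⟩ := hR
  have hK3 := hI.hK
  refine ⟨_, e, TSM.po_L hY (fun D hD => (hK D hD).chi0) (by omega) hT hF.hT.hσL hF.hT.σ1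
    hF.hT.inv hty hA fun D hD => Or.inl ?_⟩
  exact f3_of hc hs hK h1 h2 h3 ⟨by rw [hK3]; exact hkd, by omega⟩ hF D hD

/-- **one family from one shape**, a leaf is split off -/
theorem po_f3F (hc : covers tl dl = true) (hs : LOK tl dl sgnL)
    (hK : ∀ D, RD D → KOk (knAt dl d D) D) (hY : Y.G = TSM.GoodE (chiF dl d))
    (hR : R3OKF tl dl S) (hI : I3 L A B)
    (hT : FamT Y Adm (VV tl dl d) (PP' dl d) O N tc) {b : Bool} {e : Fin K → Bool}
    (hS : S.L0 = true) (hX : XX (O L) = 0)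
    (hF : TriF S O N tc (sg3 A B b) e b L A B) (hty : S.tn ≠ 0)
    (hA : Adm S.tn (vU (fam (sg3 A B b) e O)) (vY (fam (sg3 A B b) e O))
      (aU (fam (sg3 A B b) e O)) (aY (fam (sg3 A B b) e O))) :
    ∃ σ e : Fin K → Bool, PO Y Adm (VV tl dl d) (PP' dl d) (fam σ e O) := by
  obtain ⟨kd, oR, C, P, hkd, h1, h2, h3⟩ := hR
  have hK3 := hI.hK
  refine ⟨_, e, TSM.po_L hY (fun D hD => (hK D hD).chi0) (by omega) hT hF.hT.hσL hF.hT.σ1
    hF.hT.inv hty hA fun D hD => Or.inl ?_⟩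
  exact f3_ofF hc hs hK h1 h2 h3 ⟨by rw [hK3]; exact hkd, by omega⟩ hS hX hF D hD

/-- a trivial child with `τ = 0` is a leaf -/
lemma leaf_XX (hO : FamO O N) {t : Fin K} (ht : t ∉ N) (h : tau (O t) = 0) : XX (O t) = 0 := by
  rcases hO.hN t ht with h1 | h1
  · rw [h1]
    simp
  · rw [h1, TSM.tau_two] at h
    norm_num at h

/-- the labels -/
def lb3 {K : ℕ} (A B : Fin K) (l x z : Bool) : Fin K → Bool :=
  fun i => if i = A then x else if i = B then z else l

lemma lb3_L (h : I3 L A B) (l x z : Bool) : lb3 A B l x z L = l := by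
  unfold lb3
  rw [if_neg h.hLA, if_neg h.hLB]

lemma lb3_A (A B : Fin K) (l x z : Bool) : lb3 A B l x z A = x := by
  unfold lb3
  rw [if_pos rfl]

lemma lb3_B (h : I3 L A B) (l x z : Bool) : lb3 A B l x z B = z := by
  unfold lb3
  rw [if_neg h.hAB.symm, if_pos rfl]

/-- the three children of a family with a leaf and two nontrivial children -/
structure Tr3 (O : Fin K → OBr) (N : Finset (Fin K)) (A B t : Fin K) : Prop where
  hAB : A ≠ B
  htA : t ≠ A
  htB : t ≠ B
  hN : N = {A, B}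
  hK : K = 3

lemma Tr3.hA {t : Fin K} (h : Tr3 O N A B t) : A ∈ N := by rw [h.hN]; simp

lemma Tr3.hB {t : Fin K} (h : Tr3 O N A B t) : B ∈ N := by rw [h.hN]; simp

lemma Tr3.ht {t : Fin K} (h : Tr3 O N A B t) : t ∉ N := by
  rw [h.hN]
  simp [h.htA, h.htB]

lemma Tr3.symm {t : Fin K} (h : Tr3 O N A B t) : Tr3 O N B A t :=
  ⟨h.hAB.symm, h.htB, h.htA, by rw [h.hN, pair_comm], h.hK⟩

lemma triv0 (hO : FamO O N) {t : Fin K} (ht : t ∉ N) :
    vU (O t) = 0 ∧ vY (O t) = 0 ∧ aU (O t) = 0 ∧ aY (O t) = 0 := by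
  have h1 := hO.UU0 ht
  have h2 := hO.YY0 ht
  refine ⟨?_, ?_, ?_, ?_⟩
  · unfold vU
    rw [h1, Polynomial.eval_zero]
  · unfold vY
    rw [h2, Polynomial.eval_zero]
  · unfold aU
    rw [h1, TDN.dn_zero]
  · unfold aY
    rw [h2, TDN.dn_zero]

lemma mem_ty1 {i : Fin K} (h : tc i ≠ 0) : m4 (tc i) ∈ [1, 2, 3, 4] := by
  unfold m4
  have h1 : min (tc i) 4 ≤ 4 := min_le_right _ _
  have h2 : 1 ≤ min (tc i) 4 := le_min (by omega) (by norm_num)
  interval_cases (min (tc i) 4) <;> simp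

lemma mem_ty0 {i : Fin K} (h : tc i = 0) : m4 (tc i) ∈ [0] := by
  unfold m4
  rw [h]
  simp

/-- the type `4` or the types `1`, `2`, `3` -/
lemma mem_ty4 {i : Fin K} (h : tc i ≠ 0) (hA : Adm (tc i) (vU (O i)) (vY (O i)) (aU (O i))
    (aY (O i))) (hv : 1 < vY (O i)) : m4 (tc i) ∈ [4] := by
  unfold m4
  have h2 : 4 ≤ tc i := by
    by_contra h3
    have h4 : tc i = 1 ∨ tc i = 2 ∨ tc i = 3 := by omega
    have := hA.1 h4
    linarith
  rw [min_eq_right h2]
  simp

/-! ### the difference of the two children, the leaf is split off -/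

/-- the case of the new `U` -/
lemma csv_UD (h : vY (O B) ≤ vY (O A)) (hO : FamO O N) (hL : L ∉ N) {az : ℝ}
    (haz : az ^ 2 ≤ 2 * aY (O A) ^ 2 + 2 * aY (O B) ^ 2) :
    CSv kUD 1 (sg true) (sg (!true)) (vY (O L)) (vY (O A)) (vY (O B)) (aY (O L)) (aY (O A))
      (aY (O B)) az := by
  obtain ⟨_, h0, _, h1⟩ := triv0 hO hL
  obtain ⟨_, _, _, hA0, hA2⟩ := hO.hI A
  obtain ⟨_, _, _, hB0, hB2⟩ := hO.hI B
  have e1 : (1 : ℝ) * vY (O L) + (sg true * vY (O A) + sg (!true) * vY (O B)) =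
      vY (O A) - vY (O B) := by
    rw [h0, Bool.not_true, sg_true, sg_false]
    ring
  have e2 : sg true * vY (O A) + sg (!true) * vY (O B) = vY (O A) - vY (O B) := by
    rw [Bool.not_true, sg_true, sg_false]
    ring
  have e3 : |vY (O A) - vY (O B)| = vY (O A) - vY (O B) := abs_of_nonneg (by linarith)
  constructor
  · rw [e1, e3]
    show _ ≤ d2.val
    rw [d2_val]
    linarith
  · intro _
    rw [e1, e3]
    show _ = ((1 : ℤ) : ℝ) * _
    rw [Int.cast_one, one_mul]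
  · intro h2
    cases h2
  · intro _
    rw [e1, e2]
  · rw [e2, e3]
    show _ ≤ d2.val
    rw [d2_val]
    linarith
  · intro _
    rw [e2, e3]
    show _ = ((1 : ℤ) : ℝ) * _
    rw [Int.cast_one, one_mul]
  · intro h2
    cases h2
  · intro _
    rw [e2]
    nlinarith
  · intro h2
    cases h2
  · intro _
    show _ ≤ Dec.zero.val * _ + d2.val * _ + d2.val * _
    rw [Dec.val_zero, d2_val]
    linarith
  · intro _
    rw [e1, h0]
    show _ ≤ Dec.one.val * _
    rw [Dec.val_one]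
    nlinarith [mul_nonneg hA0 hB0]

/-- the case of `G` for a difference -/
lemma csv_GD {g : ℤ} {od : ℕ} {hb : Dec} {s x z : Bool} (hO : FamO O N) (hL : L ∉ N)
    (hxz : z = !x) (hhb : |vU (O A) - vU (O B)| ≤ hb.val) (hg : g = 1 ∨ g = -1)
    (h : 0 ≤ g * (sg x * (vU (O A) - vU (O B))))
    (hod1 : od = 1 → vU (O B) ≤ vU (O A)) (hod2 : od = 2 → vU (O A) ≤ vU (O B)) {az : ℝ}
    (haz : az ^ 2 ≤ 2 * aU (O A) ^ 2 + 2 * aU (O B) ^ 2) :
    CSv (kGD g od hb) (sg s) (sg x) (sg z) (vU (O L)) (vU (O A)) (vU (O B)) (aU (O L))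
      (aU (O A)) (aU (O B)) az := by
  obtain ⟨h0, _, h1, _⟩ := triv0 hO hL
  obtain ⟨_, hA0, hA2, _, _⟩ := hO.hI A
  obtain ⟨_, hB0, hB2, _, _⟩ := hO.hI B
  have e2 : sg x * vU (O A) + sg z * vU (O B) = sg x * (vU (O A) - vU (O B)) := by
    rw [hxz, TSM.sg_not']
    ring
  have e1 : sg s * vU (O L) + (sg x * vU (O A) + sg z * vU (O B)) =
      sg x * (vU (O A) - vU (O B)) := by
    rw [h0, e2]
    ring
  have e3 : |sg x * (vU (O A) - vU (O B))| = g * (sg x * (vU (O A) - vU (O B))) := by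
    rcases hg with rfl | rfl
    · rw [Int.cast_one, one_mul] at h ⊢
      exact abs_of_nonneg h
    · rw [Int.cast_neg, Int.cast_one, neg_one_mul] at h ⊢
      exact abs_of_nonpos (by linarith)
  have e4 : |sg x * (vU (O A) - vU (O B))| = |vU (O A) - vU (O B)| := by
    rw [abs_mul]
    have : |sg x| = 1 := by
      cases x
      · rw [sg_false]
        norm_num
      · rw [sg_true]
        norm_num
    rw [this, one_mul]
  have e6 : (sg x * (vU (O A) - vU (O B))) ^ 2 = (vU (O A) - vU (O B)) ^ 2 := by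
    rw [mul_pow, sg_sq, one_mul]
  constructor
  · rw [e1, e4]
    exact hhb
  · intro _
    rw [e1, e3]
    rfl
  · intro h2
    cases h2
  · intro _
    rw [e1, e2]
  · rw [e2, e4]
    exact hhb
  · intro _
    rw [e2, e3]
    rfl
  · intro h2
    cases h2
  · intro h2
    have := hod1 h2
    rw [e2, e6]
    nlinarith
  · intro h2
    have := hod2 h2
    rw [e2, e6]
    nlinarith
  · intro _
    show _ ≤ Dec.zero.val * _ + d2.val * _ + d2.val * _
    rw [Dec.val_zero, d2_val]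
    linarith
  · intro _
    rw [e1, e6, h0]
    show _ ≤ Dec.one.val * _
    rw [Dec.val_one]
    nlinarith [mul_nonneg hA0 hB0]

/-- the case of `G` for a sum -/
lemma csv_GP {s : Bool} (hO : FamO O N) (hL : L ∉ N) (h : q0 * (vU (O A) + vU (O B)) ≤ 1)
    {az : ℝ} (haz : az ^ 2 ≤ 2 * aU (O A) ^ 2 + 2 * aU (O B) ^ 2) :
    CSv kGP (sg s) (sg true) (sg true) (vU (O L)) (vU (O A)) (vU (O B)) (aU (O L)) (aU (O A))
      (aU (O B)) az := by
  obtain ⟨h0, _, h1, _⟩ := triv0 hO hL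
  obtain ⟨_, hA0, hA2, _, _⟩ := hO.hI A
  obtain ⟨_, hB0, hB2, _, _⟩ := hO.hI B
  have hq := TSM.q0_ge
  have e2 : sg true * vU (O A) + sg true * vU (O B) = vU (O A) + vU (O B) := by
    rw [sg_true]
    ring
  have e1 : sg s * vU (O L) + (sg true * vU (O A) + sg true * vU (O B)) =
      vU (O A) + vU (O B) := by
    rw [h0, e2]
    ring
  have e3 : |vU (O A) + vU (O B)| = vU (O A) + vU (O B) := abs_of_nonneg (by linarith)
  have e5 : vU (O A) + vU (O B) ≤ dq.val := by
    rw [dq_val]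
    nlinarith
  constructor
  · rw [e1, e3]
    exact e5
  · intro _
    rw [e1, e3]
    show _ = ((1 : ℤ) : ℝ) * _
    rw [Int.cast_one, one_mul]
  · intro h2
    cases h2
  · intro _
    rw [e1, e2]
  · rw [e2, e3]
    exact e5
  · intro _
    rw [e2, e3]
    show _ = ((1 : ℤ) : ℝ) * _
    rw [Int.cast_one, one_mul]
  · intro h2
    cases h2
  · intro h2
    cases h2
  · intro h2
    cases h2
  · intro _
    show _ ≤ Dec.zero.val * _ + d2.val * _ + d2.val * _
    rw [Dec.val_zero, d2_val]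
    linarith
  · intro _
    rw [e1, h0]
    show _ ≤ d2.val * _
    rw [d2_val]
    nlinarith [sq_nonneg (vU (O A) - vU (O B))]

/-- the seminorms when the leaf is split off -/
lemma az_U {e : Fin K → Bool} {b : Bool} {n : ℕ} {σ : Fin K → Bool} (h : T3 O L A B σ e b n)
    (hO : FamO O N) (hL : L ∉ N) :
    aU (fam σ e O) ^ 2 ≤ 2 * aY (O A) ^ 2 + 2 * aY (O B) ^ 2 := by
  unfold aU
  rw [h.UU_eq, hO.YY0 hL, zero_add]
  exact TSM.dn_two_sg _ _ _ _

lemma az_G {e : Fin K → Bool} {b : Bool} {n : ℕ} {σ : Fin K → Bool} (h : T3 O L A B σ e b n)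
    (hO : FamO O N) (hL : L ∉ N) :
    dn q0 (gU e O) ^ 2 ≤ 2 * aU (O A) ^ 2 + 2 * aU (O B) ^ 2 := by
  rw [h.gU_eq, hO.UU0 hL, smul_zero, zero_add]
  exact TSM.dn_two_sg _ _ _ _

/-! ### the sum of the two children, the child `L` with `τ = 1` is split off, `B` is the leaf -/

/-- the case of the new `U` -/
lemma csv_US (hO : FamO O N) (hB : B ∉ N) (h : vY (O L) + vY (O A) ≤ 2) {az : ℝ}
    (haz : az ^ 2 ≤ 2 * aY (O L) ^ 2 + 2 * aY (O A) ^ 2) :
    CSv kUS 1 (sg true) (sg (!true)) (vY (O L)) (vY (O A)) (vY (O B)) (aY (O L)) (aY (O A))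
      (aY (O B)) az := by
  obtain ⟨_, h0, _, h1⟩ := triv0 hO hB
  obtain ⟨_, _, _, hA0, hA2⟩ := hO.hI A
  obtain ⟨_, _, _, hL0, hL2⟩ := hO.hI L
  have e2 : sg true * vY (O A) + sg (!true) * vY (O B) = vY (O A) := by
    rw [h0, sg_true]
    ring
  have e1 : (1 : ℝ) * vY (O L) + (sg true * vY (O A) + sg (!true) * vY (O B)) =
      vY (O L) + vY (O A) := by
    rw [e2]
    ring
  have e3 : |vY (O L) + vY (O A)| = vY (O L) + vY (O A) := abs_of_nonneg (by linarith)
  have e4 : |vY (O A)| = vY (O A) := abs_of_nonneg hA0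
  constructor
  · rw [e1, e3]
    show _ ≤ d2.val
    rw [d2_val]
    exact h
  · intro _
    rw [e1, e3]
    show _ = ((1 : ℤ) : ℝ) * _
    rw [Int.cast_one, one_mul]
  · intro h2
    cases h2
  · intro h2
    cases h2
  · rw [e2, e4]
    show _ ≤ d2.val
    rw [d2_val]
    exact hA2
  · intro _
    rw [e2, e4]
    show _ = ((1 : ℤ) : ℝ) * _
    rw [Int.cast_one, one_mul]
  · intro h2
    cases h2
  · intro _
    rw [e2, h0]
    linarith [sq_nonneg (vY (O A))]
  · intro h2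
    cases h2
  · intro _
    show _ ≤ d2.val * _ + d2.val * _ + Dec.zero.val * _
    rw [Dec.val_zero, d2_val]
    linarith
  · intro _
    rw [e1, h0]
    show _ ≤ d2.val * _
    rw [d2_val]
    nlinarith [sq_nonneg (vY (O L) - vY (O A))]

/-- the case of `G` -/
lemma csv_GS {p : ℕ} {z : Bool} (hO : FamO O N) (hB : B ∉ N) (h0' : p = 0 → vU (O A) ≤ vU (O L))
    (h1' : p = 1 → q0 * (vU (O L) + vU (O A)) ≤ 1)
    (h2' : 2 ≤ p → vU (O L) ≤ vU (O A) ∧ 1 ≤ q0 * (vU (O L) + vU (O A))) {az : ℝ}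
    (haz : az ^ 2 ≤ 2 * aU (O L) ^ 2 + 2 * aU (O A) ^ 2) :
    CSv (kGS p) (sg true) (sg (p == 1)) (sg z) (vU (O L)) (vU (O A)) (vU (O B)) (aU (O L))
      (aU (O A)) (aU (O B)) az := by
  obtain ⟨h0, _, h1, _⟩ := triv0 hO hB
  obtain ⟨_, hA0, hA2, _, _⟩ := hO.hI A
  obtain ⟨_, hL0, hL2, _, _⟩ := hO.hI L
  have hq := TSM.q0_ge
  have e4 : |vU (O A)| = vU (O A) := abs_of_nonneg hA0
  rcases p with _ | _ | p
  · have hv := h0' rfl
    have e2 : sg (0 == 1) * vU (O A) + sg z * vU (O B) = - vU (O A) := by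
      show sg false * _ + _ = _
      rw [h0, sg_false]
      ring
    have e1 : sg true * vU (O L) + (sg (0 == 1) * vU (O A) + sg z * vU (O B)) =
        vU (O L) - vU (O A) := by
      rw [e2, sg_true]
      ring
    have e3 : |vU (O L) - vU (O A)| = vU (O L) - vU (O A) := abs_of_nonneg (by linarith)
    constructor
    · rw [e1, e3]
      show _ ≤ d2.val
      rw [d2_val]
      linarith
    · intro _
      rw [e1, e3]
      show _ = ((1 : ℤ) : ℝ) * _
      rw [Int.cast_one, one_mul]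
    · intro _
      rw [e1, e3]
      linarith
    · intro h2
      cases h2
    · rw [e2, abs_neg, e4]
      show _ ≤ d2.val
      rw [d2_val]
      exact hA2
    · intro _
      rw [e2, abs_neg, e4]
      show _ = ((-1 : ℤ) : ℝ) * _
      push_cast
      ring
    · intro _
      rw [e2, abs_neg, e4]
      exact hv
    · intro _
      rw [e2, h0]
      linarith [sq_nonneg (vU (O A))]
    · intro h2
      cases h2
    · intro _
      show _ ≤ d2.val * _ + d2.val * _ + Dec.zero.val * _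
      rw [Dec.val_zero, d2_val]
      linarith
    · intro _
      rw [e1, h0]
      show _ ≤ Dec.one.val * _
      rw [Dec.val_one]
      nlinarith [mul_nonneg hA0 hL0]
  · have hv := h1' rfl
    have e2 : sg (0 + 1 == 1) * vU (O A) + sg z * vU (O B) = vU (O A) := by
      show sg true * _ + _ = _
      rw [h0, sg_true]
      ring
    have e1 : sg true * vU (O L) + (sg (0 + 1 == 1) * vU (O A) + sg z * vU (O B)) =
        vU (O L) + vU (O A) := by
      rw [e2, sg_true]
      ring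
    have e3 : |vU (O L) + vU (O A)| = vU (O L) + vU (O A) := abs_of_nonneg (by linarith)
    constructor
    · rw [e1, e3]
      show _ ≤ dq.val
      rw [dq_val]
      nlinarith
    · intro _
      rw [e1, e3]
      show _ = ((1 : ℤ) : ℝ) * _
      rw [Int.cast_one, one_mul]
    · intro h2
      cases h2
    · intro h2
      cases h2
    · rw [e2, e4]
      show _ ≤ d2.val
      rw [d2_val]
      exact hA2
    · intro _
      rw [e2, e4]
      show _ = ((1 : ℤ) : ℝ) * _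
      rw [Int.cast_one, one_mul]
    · intro h2
      cases h2
    · intro _
      rw [e2, h0]
      linarith [sq_nonneg (vU (O A))]
    · intro h2
      cases h2
    · intro _
      show _ ≤ d2.val * _ + d2.val * _ + Dec.zero.val * _
      rw [Dec.val_zero, d2_val]
      linarith
    · intro _
      rw [e1, h0]
      show _ ≤ d2.val * _
      rw [d2_val]
      nlinarith [sq_nonneg (vU (O L) - vU (O A))]
  · obtain ⟨hv, hv'⟩ := h2' (by omega)
    have hq' := TSM.q0_le
    have hv3 : 2467 / 1000 ≤ vU (O L) + vU (O A) := by nlinarith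
    have e0 : (p + 1 + 1 == 1) = false := by
      rw [beq_eq_false_iff_ne]
      omega
    rw [e0]
    have e2 : sg false * vU (O A) + sg z * vU (O B) = - vU (O A) := by
      rw [h0, sg_false]
      ring
    have e1 : sg true * vU (O L) + (sg false * vU (O A) + sg z * vU (O B)) =
        vU (O L) - vU (O A) := by
      rw [e2, sg_true]
      ring
    have e3 : |vU (O L) - vU (O A)| = vU (O A) - vU (O L) := by
      rw [abs_of_nonpos (by linarith)]
      ring
    constructor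
    · rw [e1, e3]
      show _ ≤ du.val
      rw [du_val]
      linarith
    · intro _
      rw [e1, e3]
      show _ = ((-1 : ℤ) : ℝ) * _
      push_cast
      ring
    · intro h2
      cases h2
    · intro _
      rw [e1, e2, e3, abs_neg, e4]
      linarith
    · rw [e2, abs_neg, e4]
      show _ ≤ d2.val
      rw [d2_val]
      exact hA2
    · intro _
      rw [e2, abs_neg, e4]
      show _ = ((-1 : ℤ) : ℝ) * _
      push_cast
      ring
    · intro h2
      cases h2
    · intro _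
      rw [e2, h0]
      linarith [sq_nonneg (vU (O A))]
    · intro h2
      cases h2
    · intro _
      show _ ≤ d2.val * _ + d2.val * _ + Dec.zero.val * _
      rw [Dec.val_zero, d2_val]
      linarith
    · intro _
      rw [e1, h0]
      show _ ≤ Dec.one.val * _
      rw [Dec.val_one]
      nlinarith [mul_nonneg hA0 hL0]

/-- the seminorms when the third child is the leaf -/
lemma az_U' {e : Fin K → Bool} {b : Bool} {n : ℕ} {σ : Fin K → Bool} (h : T3 O L A B σ e b n)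
    (hO : FamO O N) (hB : B ∉ N) :
    aU (fam σ e O) ^ 2 ≤ 2 * aY (O L) ^ 2 + 2 * aY (O A) ^ 2 := by
  unfold aU
  rw [h.UU_eq, hO.YY0 hB, smul_zero, add_zero]
  have h1 := TSM.dn_two_sg true b (YY (O L)) (YY (O A))
  rw [sg_true, one_smul] at h1
  exact h1

lemma az_G' {e : Fin K → Bool} {b : Bool} {n : ℕ} {σ : Fin K → Bool} (h : T3 O L A B σ e b n)
    (hO : FamO O N) (hB : B ∉ N) :
    dn q0 (gU e O) ^ 2 ≤ 2 * aU (O L) ^ 2 + 2 * aU (O A) ^ 2 := by
  rw [h.gU_eq, hO.UU0 hB, smul_zero, add_zero]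
  exact TSM.dn_two_sg _ _ _ _

/-! ### the three families of shapes -/

/-- **one class** -/
theorem po_E (hc : covers tl dl = true) (hs : LOK tl dl sgnL)
    (hK : ∀ D, RD D → KOk (knAt dl d D) D) (hY : Y.G = TSM.GoodE (chiF dl d)) {ts : List ℕ}
    (hR : R3OKF tl dl (shE ts)) (hT : FamT Y Adm (VV tl dl d) (PP' dl d) O N tc)
    {t : Fin K} (h : Tr3 O N A B t) (ht : tau (O t) = 0) (hτ : tau (O A) = tau (O B))
    (htA : m4 (tc A) ∈ ts) (htB : m4 (tc B) ∈ ts) (hv : vY (O B) ≤ vY (O A)) :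
    ∃ σ e : Fin K → Bool, PO Y Adm (VV tl dl d) (PP' dl d) (fam σ e O) := by
  have hO := hT.hO
  have hI : I3 t A B := ⟨h.htA, h.htB, h.hAB, h.hK⟩
  obtain ⟨g1, g2, _, _⟩ := triv0 hO h.ht
  obtain ⟨_, hA0, hA2, hA3, hA4⟩ := hO.hI A
  obtain ⟨_, hB0, hB2, hB3, hB4⟩ := hO.hI B
  have hq := TSM.q0_pos
  have hq1 := TSM.q0_le
  obtain ⟨s, hs1⟩ : ∃ s : Bool, sg s * (vU (O A) - vU (O B)) ≤ 0 := by
    rcases le_total (vU (O A) - vU (O B)) 0 with h | h
    · exact ⟨true, by rw [sg_true]; linarith⟩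
    · exact ⟨false, by rw [sg_false]; linarith⟩
  obtain ⟨e, he⟩ : ∃ e, e = lb3 A B true s (!s) := ⟨_, rfl⟩
  have eL : e t = true := by rw [he, lb3_L hI]
  have eA : e A = s := by rw [he, lb3_A]
  have eB : e B = !s := by rw [he, lb3_B hI]
  have habs : |sg s * (vU (O A) - vU (O B))| ≤ 2 := by
    rw [abs_mul]
    have : |sg s| = 1 := by
      cases s
      · rw [sg_false]; norm_num
      · rw [sg_true]; norm_num
    rw [this, one_mul, abs_le]
    constructor <;> linarith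
  rw [abs_le] at habs
  have hG : sg (e t) * vU (O t) + sg (e A) * vU (O A) + sg (e B) * vU (O B) =
      sg s * (vU (O A) - vU (O B)) := by
    rw [eA, eB, g1, TSM.sg_not']
    ring
  have hLb : Lb3 O t A B e 0 := by
    refine ⟨?_, ?_, ?_⟩
    · rw [ht, eA, eB, hτ, TSM.sg_not']
      push_cast
      ring
    · rw [hG]
      push_cast
      nlinarith
    · rw [hG]
      push_cast
      nlinarith
  have hOr : Or3 O t A B true := by
    refine ⟨?_, ?_⟩
    · rw [g2, sg_true]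
      linarith
    · rw [g2, sg_true]
      linarith
  have hT3 := hI.t3 hOr hLb
  have hvYt : vY (fam (sg3 A B true) e O) ≤ 8106 / 10000 := by
    rw [hT3.vY_eq, hT3.vG_eq, hG]
    push_cast
    nlinarith
  have hvY : vY (fam (sg3 A B true) e O) ≤ 1 := by linarith
  have habs' : |vU (O A) - vU (O B)| ≤ d2.val := by
    rw [d2_val, abs_le]
    constructor <;> linarith
  have hvY0 : 0 ≤ vY (fam (sg3 A B true) e O) := hT3.inv.2.2.2.1
  refine po_f3F (S := shE ts) hc hs hK hY hR hI hT (b := true) (e := e) rfl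
    (leaf_XX hO h.ht ht) ?_ (by show 3 ≠ 0; norm_num)
    ⟨fun _ => hvY, fun h2 => by
      have h3 : (4 : ℕ) ≤ 3 := h2
      omega⟩
  exact {
    hT := hT3
    hI := hI
    hO := hO
    hL := fun h2 => by cases h2
    hL' := fun _ => h.ht
    hA := h.hA
    hB := fun _ => h.hB
    hB' := fun h2 => by cases h2
    hnL := by
      rw [ht, mul_zero]
      show (0 : ℝ) = ((0 : ℤ) : ℝ)
      norm_num
    hn := rfl
    hn1 := by show 0 ≤ 1; norm_num
    hlo := by
      show Dec.zero.val ≤ _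
      rw [Dec.val_zero]
      exact hvY0
    hhi := by
      show _ ≤ dt.val
      rw [dt_val]
      exact hvYt
    htL := fun h2 => by cases h2
    htL' := fun _ => by show 0 ∈ [0]; simp
    htA := htA
    htB := fun _ => htB
    hAd := hT.hA
    hsA := by show true ∈ [true]; simp
    hsB := fun _ => by show (!true) ∈ [false]; simp
    heL := fun h2 => by cases h2
    heA := by show e A ∈ [true, false]; cases e A <;> simp
    heB := fun _ => by show e B ∈ [true, false]; cases e B <;> simp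
    hU := csv_UD hv hO h.ht (az_U hT3 hO h.ht)
    hG := by
      show CSv (kGD (-1) 0 d2) _ _ _ _ _ _ _ _ _ _
      rw [eA, eB]
      exact csv_GD hO h.ht rfl habs' (Or.inr rfl) (by push_cast; linarith) (fun h2 => by cases h2)
        (fun h2 => by cases h2) (az_G hT3 hO h.ht)
    hcd := by
      intro q hq
      have hq' : q ∈ [(⟨Dec.zero, qn, qw Dec.one, qw dm⟩ : Q3 Dec),
        ⟨Dec.zero, qn, qww Dec.one, qww dm⟩] := hq
      simp only [List.mem_cons, List.not_mem_nil, or_false] at hq'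
      rcases hq' with rfl | rfl
      · rw [q3_ev, qn_ev, qw_ev, qw_ev, Dec.val_zero, Dec.val_one, dm_val]
        linarith
      · rw [q3_ev, qn_ev, qww_ev, qww_ev, Dec.val_zero, Dec.val_one, dm_val]
        nlinarith }

/-- the label patterns of a child with `τ = 1` with the value `x` and a child with `τ = 0` with
the value `y` -/
structure PatP (p : ℕ) (x y : ℝ) : Prop where
  h0 : p = 0 → y ≤ x
  h1 : p = 1 → x ≤ y ∧ q0 * (x + y) ≤ 1
  h2 : 2 ≤ p → x ≤ y ∧ 1 ≤ q0 * (x + y)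

lemma patP_exists (x y : ℝ) : ∃ p, p ≤ 2 ∧ PatP p x y := by
  rcases le_total y x with h | h
  · exact ⟨0, by norm_num, fun _ => h, fun h2 => by omega, fun h2 => by omega⟩
  · rcases le_total (q0 * (x + y)) 1 with h1 | h1
    · exact ⟨1, by norm_num, fun h2 => by omega, fun _ => ⟨h, h1⟩, fun h2 => by omega⟩
    · exact ⟨2, le_rfl, fun h2 => by omega, fun h2 => by omega, fun _ => ⟨h, h1⟩⟩

lemma cdP_ok {f : Q6 Dec → Q6 Dec → Dec → Q3 Dec} {a b c : Fin 4 → ℝ} {o1 o2 : OBr}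
    (hf : ∀ x y k, ((f x y k).map Dec.val).ev a b c = k.val +
      (x.map Dec.val).ev (V4 o1 0) (V4 o1 1) (V4 o1 2) (V4 o1 3) +
      (y.map Dec.val).ev (V4 o2 0) (V4 o2 1) (V4 o2 2) (V4 o2 3)) {p : ℕ}
    (h : PatP p (vU o1) (vU o2)) (hv1 : 0 ≤ vU o1) (hv2 : 0 ≤ vU o2) :
    ∀ q ∈ cdP f p, 0 ≤ (q.map Dec.val).ev a b c := by
  intro q hq
  have hq0 := TSM.q0_ge
  have hq1 := TSM.q0_le
  rcases p with _ | _ | p
  · have h0 := h.h0 rfl
    simp only [cdP, List.mem_cons, List.not_mem_nil, or_false] at hq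
    rcases hq with rfl | rfl
    · rw [hf, qv_ev, qv_ev, Dec.val_zero, Dec.val_one, dm_val]
      linarith
    · rw [hf, qvv_ev, qvv_ev, Dec.val_zero, Dec.val_one, dm_val]
      nlinarith
  · obtain ⟨h0, h1⟩ := h.h1 rfl
    simp only [cdP, List.mem_cons, List.not_mem_nil, or_false] at hq
    rcases hq with rfl | rfl | rfl
    · rw [hf, qv_ev, qv_ev, Dec.val_zero, Dec.val_one, dm_val]
      linarith
    · rw [hf, qvv_ev, qvv_ev, Dec.val_zero, Dec.val_one, dm_val]
      nlinarith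
    · rw [hf, qv_ev, qv_ev, dq_val, dm_val]
      nlinarith
  · obtain ⟨h0, h1⟩ := h.h2 (by omega)
    have h2 : 2467 / 1000 + 3 / 10000 ≤ vU o1 + vU o2 := by nlinarith
    simp only [cdP, List.mem_cons, List.not_mem_nil, or_false] at hq
    rcases hq with rfl | rfl | rfl | rfl
    · rw [hf, qv_ev, qv_ev, Dec.val_zero, Dec.val_one, dm_val]
      linarith
    · rw [hf, qvv_ev, qvv_ev, Dec.val_zero, Dec.val_one, dm_val]
      nlinarith
    · rw [hf, qv_ev, qv_ev, dq'_val, Dec.val_one]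
      linarith
    · rw [hf, qvv_ev, qvv_ev, dr_val, Dec.val_one]
      nlinarith [sq_nonneg (vU o1 - vU o2)]

/-- the bounds of the new `v_y` -/
lemma patP_y {p : ℕ} {x y v : ℝ} (h : PatP p x y) (hx0 : 0 ≤ x) (hx : x ≤ 2) (hy0 : 0 ≤ y)
    (hy : y ≤ 2) (hv : v = 1 - q0 * (x + sg (p == 1) * y)) :
    0 ≤ v ∧ v ≤ 2 ∧ (ylP p).val ≤ v ∧ v ≤ (yhP p).val ∧ Adm (tnP p) 0 v 0 0 := by
  have hq0 := TSM.q0_pos
  have hq1 := TSM.q0_le
  rcases p with _ | _ | p
  · have h0 := h.h0 rfl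
    have e0 : sg (0 == 1) = (-1 : ℝ) := by
      show sg false = _
      rw [sg_false]
    rw [e0] at hv
    have g1 : 1894 / 10000 ≤ v := by nlinarith
    have g2 : v ≤ 1 := by nlinarith
    refine ⟨by linarith, by linarith, ?_, ?_, fun _ => g2, fun h2 => ?_⟩
    · show (Dec.pos 1894 4).val ≤ _
      rw [Dec.val_pos]
      norm_num
      linarith
    · show _ ≤ Dec.one.val
      rw [Dec.val_one]
      exact g2
    · have h3 : 4 ≤ 3 := h2
      omega
  · obtain ⟨h0, h1⟩ := h.h1 rfl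
    have e0 : sg (0 + 1 == 1) = (1 : ℝ) := by
      show sg true = _
      rw [sg_true]
    rw [e0] at hv
    have g1 : 0 ≤ v := by linarith
    have g2 : v ≤ 1 := by nlinarith
    refine ⟨g1, by linarith, ?_, ?_, fun _ => g2, fun h2 => ?_⟩
    · show Dec.zero.val ≤ _
      rw [Dec.val_zero]
      exact g1
    · show _ ≤ Dec.one.val
      rw [Dec.val_one]
      exact g2
    · have h3 : 4 ≤ 3 := h2
      omega
  · obtain ⟨h0, h1⟩ := h.h2 (by omega)
    have h3 : 2467 / 1000 + 3 / 10000 ≤ x + y := by nlinarith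
    have e0 : sg (p + 1 + 1 == 1) = (-1 : ℝ) := by
      have : (p + 1 + 1 == 1) = false := by
        rw [beq_eq_false_iff_ne]
        omega
      rw [this, sg_false]
    rw [e0] at hv
    have g1 : 1 ≤ v := by nlinarith
    have g3 : y - x ≤ 15327 / 10000 := by linarith
    have g2 : v ≤ 16213 / 10000 := by nlinarith
    refine ⟨by linarith, by linarith, ?_, ?_, fun h2 => ?_, fun _ => g1⟩
    · show Dec.one.val ≤ _
      rw [Dec.val_one]
      exact g1
    · show _ ≤ (Dec.pos 16213 4).val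
      rw [Dec.val_pos]
      norm_num
      linarith
    · have h3 : (4 : ℕ) = 1 ∨ (4 : ℕ) = 2 ∨ (4 : ℕ) = 3 := h2
      omega

lemma tnP_ne (p : ℕ) : tnP p ≠ 0 := by
  rcases p with _ | _ | p <;> simp [tnP]

/-- **two classes, sum of the children** -/
theorem po_S3 (hc : covers tl dl = true) (hs : LOK tl dl sgnL)
    (hK : ∀ D, RD D → KOk (knAt dl d D) D) (hY : Y.G = TSM.GoodE (chiF dl d)) {p : ℕ}
    (hR : R3OK tl dl (shS p)) (hT : FamT Y Adm (VV tl dl d) (PP' dl d) O N tc)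
    {t : Fin K} (h : Tr3 O N L A t) (ht : tau (O t) = 0) (hτL : tau (O L) = 1)
    (hτA : tau (O A) = 0) (hv : vY (O L) + vY (O A) ≤ 2)
    (hp : PatP p (vU (O L)) (vU (O A))) :
    ∃ σ e : Fin K → Bool, PO Y Adm (VV tl dl d) (PP' dl d) (fam σ e O) := by
  have hO := hT.hO
  have hI : I3 L A t := ⟨h.hAB, h.htA.symm, h.htB.symm, h.hK⟩
  obtain ⟨g1, g2, _, _⟩ := triv0 hO h.ht
  obtain ⟨_, hL0, hL2, hL3, hL4⟩ := hO.hI L
  obtain ⟨_, hA0, hA2, hA3, hA4⟩ := hO.hI A
  have htcL : tc L ≠ 0 := fun h2 => by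
    rw [(hT.ht L h.hA).mp h2] at hτL
    norm_num at hτL
  have htcA : tc A = 0 := (hT.ht A h.hB).mpr hτA
  obtain ⟨e, he⟩ : ∃ e, e = lb3 A t true (p == 1) true := ⟨_, rfl⟩
  have eL : e L = true := by rw [he, lb3_L hI]
  have eA : e A = (p == 1) := by rw [he, lb3_A]
  have eB : e t = true := by rw [he, lb3_B hI]
  have hG : sg (e L) * vU (O L) + sg (e A) * vU (O A) + sg (e t) * vU (O t) =
      vU (O L) + sg (p == 1) * vU (O A) := by
    rw [eL, eA, eB, g1, sg_true]
    ring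
  obtain ⟨y0, y2, ylo, yhi, yA⟩ := patP_y hp hL0 hL2 hA0 hA2
    (v := 1 - q0 * (vU (O L) + sg (p == 1) * vU (O A))) rfl
  have hLb : Lb3 O L A t e 1 := by
    refine ⟨?_, ?_, ?_⟩
    · rw [ht, hτL, hτA, eL, sg_true]
      push_cast
      ring
    · rw [hG]
      push_cast
      exact y0
    · rw [hG]
      push_cast
      exact y2
  have hOr : Or3 O L A t true := by
    refine ⟨?_, ?_⟩
    · rw [g2, sg_true]
      linarith
    · rw [g2, sg_true]
      linarith
  have hT3 := hI.t3 hOr hLb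
  have hvY : vY (fam (sg3 A t true) e O) = 1 - q0 * (vU (O L) + sg (p == 1) * vU (O A)) := by
    rw [hT3.vY_eq, hT3.vG_eq, hG]
    push_cast
    ring
  refine po_f3 (S := shS p) hc hs hK hY hR hI hT (b := true) (e := e) ?_ (tnP_ne p)
    (by rw [hvY]; exact yA)
  exact {
    hT := hT3
    hI := hI
    hO := hO
    hL := fun _ => h.hA
    hL' := fun h2 => by cases h2
    hA := h.hB
    hB := fun h2 => by cases h2
    hB' := fun _ => h.ht
    hnL := by
      rw [hτL, eL, sg_true]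
      show (1 : ℝ) * 1 = ((1 : ℤ) : ℝ)
      norm_num
    hn := rfl
    hn1 := le_rfl
    hlo := by rw [hvY]; exact ylo
    hhi := by rw [hvY]; exact yhi
    htL := fun _ => mem_ty1 htcL
    htL' := fun h2 => by cases h2
    htA := mem_ty0 htcA
    htB := fun h2 => by cases h2
    hAd := hT.hA
    hsA := by show true ∈ [true]; simp
    hsB := fun h2 => by cases h2
    heL := fun _ => by show e L ∈ [true]; rw [eL]; simp
    heA := by show e A ∈ [p == 1]; rw [eA]; simp
    heB := fun h2 => by cases h2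
    hU := csv_US hO h.ht hv (az_U' hT3 hO h.ht)
    hG := by
      show CSv (kGS p) _ _ _ _ _ _ _ _ _ _
      rw [eL, eA]
      exact csv_GS hO h.ht hp.h0 (fun h2 => (hp.h1 h2).2) hp.h2 (az_G' hT3 hO h.ht)
    hcd := by
      intro q hq
      have hq' : q ∈ (⟨d2, qw dm, qw dm, qn⟩ : Q3 Dec) ::
        cdP (fun a b c => ⟨c, a, b, qn⟩) p := hq
      rw [List.mem_cons] at hq'
      rcases hq' with rfl | hq'
      · rw [q3_ev, qn_ev, qw_ev, qw_ev, d2_val, dm_val]
        linarith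
      · refine cdP_ok (o1 := O L) (o2 := O A) (fun x y k => ?_) hp hL0 hA0 q hq'
        rw [q3_ev, qn_ev]
        ring }

/-- the conditions of the difference with a large sum -/
lemma cdD_ok {a : Fin 4 → ℝ} {o1 o2 : OBr} {o : OBr} (ha : a = V4 o)
    (h1 : 2 ≤ vY o1 + vY o2) (h2 : vY o2 ≤ vY o1) (h3 : 0 ≤ vY o2) :
    ∀ q ∈ cdD, 0 ≤ (q.map Dec.val).ev a (V4 o1) (V4 o2) := by
  intro q hq
  subst ha
  simp only [cdD, List.mem_cons, List.not_mem_nil, or_false] at hq
  rcases hq with rfl | rfl | rfl | rfl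
  · rw [q3_ev, qn_ev, qw_ev, qw_ev, dm2_val, Dec.val_one]
    linarith
  · rw [q3_ev, qn_ev, qww_ev, qww_ev, dm2_val, Dec.val_one]
    nlinarith [sq_nonneg (vY o1 - vY o2)]
  · rw [q3_ev, qn_ev, qw_ev, qw_ev, Dec.val_zero, Dec.val_one, dm_val]
    linarith
  · rw [q3_ev, qn_ev, qww_ev, qww_ev, Dec.val_zero, Dec.val_one, dm_val]
    nlinarith

/-- **two classes, difference of the children, large sum**: `A` has the larger `v_y`; `x`, `z` are
the labels -/
theorem po_D3 (hc : covers tl dl = true) (hs : LOK tl dl sgnL)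
    (hK : ∀ D, RD D → KOk (knAt dl d D) D) (hY : Y.G = TSM.GoodE (chiF dl d)) {p : ℕ}
    (hR : R3OKF tl dl S) (hT : FamT Y Adm (VV tl dl d) (PP' dl d) O N tc)
    {t : Fin K} (h : Tr3 O N A B t) (ht : tau (O t) = 0) (hv : vY (O B) ≤ vY (O A)) {x z : Bool}
    (hn : sg x * tau (O A) + sg z * tau (O B) = 1) {v1 v2 : ℝ}
    (hp : PatP p v1 v2) (hv1 : 0 ≤ v1) (hv1' : v1 ≤ 2) (hv2 : 0 ≤ v2) (hv2' : v2 ≤ 2)
    (hxz : sg x * vU (O A) + sg z * vU (O B) = v1 + sg (p == 1) * v2)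
    (hS1 : S.tn = tnP p) (hS2 : S.n = 1) (hS3 : S.nL = 0) (hS4 : S.nR = 1) (hS5 : S.tL = [0])
    (hS6 : m4 (tc A) ∈ S.tA) (hS7 : m4 (tc B) ∈ S.tB) (hS8 : S.sA = [true])
    (hS9 : S.sB = [false]) (hS10 : x ∈ S.eA) (hS11 : z ∈ S.eB) (hS12 : S.kU = kUD)
    (hS13 : S.L0 = true) (hS14 : S.yl = ylP p) (hS15 : S.yh = yhP p)
    (hG : ∀ {az : ℝ}, az ^ 2 ≤ 2 * aU (O A) ^ 2 + 2 * aU (O B) ^ 2 →
      CSv S.kG (sg true) (sg x) (sg z) (vU (O t)) (vU (O A)) (vU (O B)) (aU (O t))
        (aU (O A)) (aU (O B)) az)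
    (hcd : ∀ q ∈ S.cd, 0 ≤ (q.map Dec.val).ev (V4 (O t)) (V4 (O A)) (V4 (O B))) :
    ∃ σ e : Fin K → Bool, PO Y Adm (VV tl dl d) (PP' dl d) (fam σ e O) := by
  have hO := hT.hO
  have hI : I3 t A B := ⟨h.htA, h.htB, h.hAB, h.hK⟩
  obtain ⟨g1, g2, _, _⟩ := triv0 hO h.ht
  obtain ⟨_, hA0, hA2, hA3, hA4⟩ := hO.hI A
  obtain ⟨_, hB0, hB2, hB3, hB4⟩ := hO.hI B
  obtain ⟨e, he⟩ : ∃ e, e = lb3 A B true x z := ⟨_, rfl⟩
  have eL : e t = true := by rw [he, lb3_L hI]
  have eA : e A = x := by rw [he, lb3_A]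
  have eB : e B = z := by rw [he, lb3_B hI]
  have hGv : sg (e t) * vU (O t) + sg (e A) * vU (O A) + sg (e B) * vU (O B) =
      v1 + sg (p == 1) * v2 := by
    rw [eL, eA, eB, g1, ← hxz]
    ring
  obtain ⟨y0, y2, ylo, yhi, yA⟩ := patP_y hp hv1 hv1' hv2 hv2'
    (v := 1 - q0 * (v1 + sg (p == 1) * v2)) rfl
  have hLb : Lb3 O t A B e 1 := by
    refine ⟨?_, ?_, ?_⟩
    · rw [ht, eL, eA, eB]
      push_cast
      linarith
    · rw [hGv]
      push_cast
      exact y0
    · rw [hGv]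
      push_cast
      exact y2
  have hOr : Or3 O t A B true := by
    refine ⟨?_, ?_⟩
    · rw [g2, sg_true]
      linarith
    · rw [g2, sg_true]
      linarith
  have hT3 := hI.t3 hOr hLb
  have hvY : vY (fam (sg3 A B true) e O) = 1 - q0 * (v1 + sg (p == 1) * v2) := by
    rw [hT3.vY_eq, hT3.vG_eq, hGv]
    push_cast
    ring
  refine po_f3F (S := S) hc hs hK hY hR hI hT (b := true) (e := e) hS13
    (leaf_XX hO h.ht ht) ?_
    (by rw [hS1]; exact tnP_ne p) (by rw [hvY, hS1]; exact yA)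
  exact {
    hT := by rw [hS2]; exact hT3
    hI := hI
    hO := hO
    hL := fun h2 => by rw [hS13] at h2; cases h2
    hL' := fun _ => h.ht
    hA := h.hA
    hB := fun _ => h.hB
    hB' := fun h2 => by rw [hS12] at h2; cases h2
    hnL := by
      rw [ht, mul_zero, hS3]
      norm_num
    hn := by rw [hS3, hS4, hS2]; rfl
    hn1 := by rw [hS2]
    hlo := by rw [hvY, hS14]; exact ylo
    hhi := by rw [hvY, hS15]; exact yhi
    htL := fun h2 => by rw [hS13] at h2; cases h2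
    htL' := fun _ => by rw [hS5]; simp
    htA := hS6
    htB := fun _ => hS7
    hAd := hT.hA
    hsA := by rw [hS8]; simp
    hsB := fun _ => by rw [hS9]; simp
    heL := fun h2 => by rw [hS13] at h2; cases h2
    heA := by rw [eA]; exact hS10
    heB := fun _ => by rw [eB]; exact hS11
    hU := by
      rw [hS12]
      exact csv_UD hv hO h.ht (az_U hT3 hO h.ht)
    hG := by
      rw [eL, eA, eB]
      exact hG (az_G hT3 hO h.ht)
    hcd := hcd }

/-- **two classes, difference of the children, large sum**: both orders -/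
theorem po_D (hc : covers tl dl = true) (hs : LOK tl dl sgnL)
    (hK : ∀ D, RD D → KOk (knAt dl d D) D) (hY : Y.G = TSM.GoodE (chiF dl d))
    (h1 : ∀ p, p ≤ 2 → R3OKF tl dl (shD1 p)) (h0 : ∀ p, p ≤ 2 → R3OKF tl dl (shD0 p))
    (hT : FamT Y Adm (VV tl dl d) (PP' dl d) O N tc)
    {t : Fin K} (h : Tr3 O N A B t) (ht : tau (O t) = 0) (hτA : tau (O A) = 1)
    (hτB : tau (O B) = 0) (hv : 2 ≤ vY (O A) + vY (O B)) :
    ∃ σ e : Fin K → Bool, PO Y Adm (VV tl dl d) (PP' dl d) (fam σ e O) := by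
  have hO := hT.hO
  obtain ⟨_, hA0, hA2, hA3, hA4⟩ := hO.hI A
  obtain ⟨_, hB0, hB2, hB3, hB4⟩ := hO.hI B
  have htcA : tc A ≠ 0 := fun h2 => by
    rw [(hT.ht A h.hA).mp h2] at hτA
    norm_num at hτA
  have htcB : tc B = 0 := (hT.ht B h.hB).mpr hτB
  obtain ⟨p, hp2, hp⟩ := patP_exists (vU (O A)) (vU (O B))
  have hab2 : |vU (O A) - vU (O B)| ≤ d2.val := by
    rw [d2_val, abs_le]
    constructor <;> linarith
  have habu : 2 ≤ p → |vU (O A) - vU (O B)| ≤ du.val := by
    intro h6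
    obtain ⟨h7, h8⟩ := hp.h2 h6
    have hq := TSM.q0_le
    have hq' := TSM.q0_pos
    have h9 : 2467 / 1000 ≤ vU (O A) + vU (O B) := by nlinarith
    rw [du_val, abs_le]
    constructor <;> linarith
  rcases lt_or_ge (vY (O B)) (vY (O A)) with h5 | h5
  · refine po_D3 (S := shD1 p) (x := true) (z := p == 1) hc hs hK hY (h1 p hp2) hT h ht h5.le ?_
      hp hA0 hA2 hB0 hB2 ?_ rfl rfl rfl rfl rfl
      (mem_ty4 htcA (hT.hA A h.hA) (by linarith)) (mem_ty0 htcB) rfl rfl ?_ ?_ rfl rfl rfl rfl ?_ ?_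
    · rw [hτA, hτB, sg_true]
      ring
    · rw [sg_true, one_mul]
    · show true ∈ [true]
      simp
    · show (p == 1) ∈ [p == 1]
      simp
    · intro az haz
      rcases p with _ | _ | p
      · exact csv_GD hO h.ht rfl hab2 (Or.inl rfl)
          (by rw [Int.cast_one, one_mul, sg_true, one_mul]; linarith [hp.h0 rfl])
          (fun _ => hp.h0 rfl) (fun h2 => by cases h2) haz
      · exact csv_GP hO h.ht (hp.h1 rfl).2 haz
      · have e0 : (p + 1 + 1 == 1) = false := by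
          rw [beq_eq_false_iff_ne]
          omega
        have h6 := (hp.h2 (by omega)).1
        rw [e0]
        exact csv_GD hO h.ht rfl (habu (by omega)) (Or.inr rfl)
          (by push_cast; rw [sg_true]; linarith)
          (fun h2 => by cases h2) (fun _ => h6) haz
    · intro q hq
      have hq' : q ∈ cdD ++ cdP (fun a b c => ⟨c, qn, a, b⟩) p := hq
      rw [List.mem_append] at hq'
      rcases hq' with hq' | hq'
      · exact cdD_ok rfl hv h5.le hB3 q hq'
      · refine cdP_ok (o1 := O A) (o2 := O B) (fun x y k => ?_) hp hA0 hB0 q hq'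
        rw [q3_ev, qn_ev]
        ring
  · refine po_D3 (S := shD0 p) (x := p == 1) (z := true) hc hs hK hY (h0 p hp2) hT h.symm ht h5 ?_
      hp hA0 hA2 hB0 hB2 ?_ rfl rfl rfl rfl rfl
      (mem_ty0 htcB) (mem_ty1 htcA) rfl rfl ?_ ?_ rfl rfl rfl rfl ?_ ?_
    · rw [hτA, hτB, sg_true]
      ring
    · rw [sg_true, one_mul]
      ring
    · show (p == 1) ∈ [p == 1]
      simp
    · show true ∈ [true]
      simp
    · intro az haz
      rcases p with _ | _ | p
      · exact csv_GD hO h.ht rfl (by rw [abs_sub_comm]; exact hab2) (Or.inl rfl)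
          (by
            show (0 : ℝ) ≤ ((1 : ℤ) : ℝ) * (sg false * _)
            rw [Int.cast_one, one_mul, sg_false]
            linarith [hp.h0 rfl])
          (fun h2 => by cases h2) (fun _ => hp.h0 rfl) haz
      · exact csv_GP hO h.ht (by rw [add_comm]; exact (hp.h1 rfl).2) haz
      · have e0 : (p + 1 + 1 == 1) = false := by
          rw [beq_eq_false_iff_ne]
          omega
        have h6 := (hp.h2 (by omega)).1
        rw [e0]
        exact csv_GD hO h.ht rfl (by rw [abs_sub_comm]; exact habu (by omega)) (Or.inr rfl)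
          (by push_cast; rw [sg_false]; linarith)
          (fun _ => h6) (fun h2 => by cases h2) haz
    · intro q hq
      have hq' : q ∈ cdD ++ cdP (fun a b c => ⟨c, qn, b, a⟩) p := hq
      rw [List.mem_append] at hq'
      rcases hq' with hq' | hq'
      · exact cdD_ok rfl (by linarith) h5 hA3 q hq'
      · refine cdP_ok (o1 := O A) (o2 := O B) (fun x y k => ?_) hp hA0 hB0 q hq'
        rw [q3_ev, qn_ev]
        ring

/-- **the kind with a leaf and two nontrivial children, from the lists** -/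
theorem lbb_of (hc : covers tl dl = true) (hs : LOK tl dl sgnL)
    (hK : ∀ D, RD D → KOk (knAt dl d D) D) (hY : Y.G = TSM.GoodE (chiF dl d))
    (hE0 : R3OKF tl dl (shE [0])) (hE1 : R3OKF tl dl (shE [1, 2, 3, 4]))
    (hS : ∀ p, p ≤ 2 → R3OK tl dl (shS p)) (hD1 : ∀ p, p ≤ 2 → R3OKF tl dl (shD1 p))
    (hD0 : ∀ p, p ≤ 2 → R3OKF tl dl (shD0 p)) :
    PoT Y Adm (VV tl dl d) (PP' dl d) true false 2 := by
  classical
  intro K O N tc hI hT
  have hK3 : K = 3 := by
    rw [hI.hK]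
    rfl
  have hO := hT.hO
  obtain ⟨t, ht, hOt⟩ := hI.hl rfl
  have hτt : tau (O t) = 0 := by rw [hOt, TSM.tau_nil]
  obtain ⟨i, j, hij, hN⟩ := card_eq_two.mp hI.hN
  have hti : t ≠ i := by
    rintro rfl
    exact ht (by rw [hN]; simp)
  have htj : t ≠ j := by
    rintro rfl
    exact ht (by rw [hN]; simp)
  have h : Tr3 O N i j t := ⟨hij, hti, htj, hN, hK3⟩
  -- one class
  have key : ∀ {i j : Fin K}, Tr3 O N i j t → tau (O i) = tau (O j) → vY (O j) ≤ vY (O i) →
      ∃ σ e : Fin K → Bool, PO Y Adm (VV tl dl d) (PP' dl d) (fam σ e O) := by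
    intro i j h hτ hv
    rcases (hO.hI i).1 with h1 | h1
    · exact po_E hc hs hK hY hE0 hT h hτt hτ (mem_ty0 ((hT.ht i h.hA).mpr h1))
        (mem_ty0 ((hT.ht j h.hB).mpr (by rw [← hτ]; exact h1))) hv
    · have h2 : tau (O j) = 1 := by rw [← hτ]; exact h1
      refine po_E hc hs hK hY hE1 hT h hτt hτ (mem_ty1 fun h3 => ?_) (mem_ty1 fun h3 => ?_) hv
      · rw [(hT.ht i h.hA).mp h3] at h1
        norm_num at h1
      · rw [(hT.ht j h.hB).mp h3] at h2
        norm_num at h2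
  -- two classes
  have key2 : ∀ {i j : Fin K}, Tr3 O N i j t → tau (O i) = 1 → tau (O j) = 0 →
      ∃ σ e : Fin K → Bool, PO Y Adm (VV tl dl d) (PP' dl d) (fam σ e O) := by
    intro i j h h1 h2
    rcases le_total (vY (O i) + vY (O j)) 2 with h3 | h3
    · obtain ⟨p, hp2, hp⟩ := patP_exists (vU (O i)) (vU (O j))
      exact po_S3 hc hs hK hY (hS p hp2) hT h hτt h1 h2 h3 hp
    · exact po_D hc hs hK hY hD1 hD0 hT h hτt h1 h2 h3
  rcases (hO.hI i).1 with h1 | h1 <;> rcases (hO.hI j).1 with h2 | h2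
  · rcases le_total (vY (O j)) (vY (O i)) with h3 | h3
    · exact key h (h1.trans h2.symm) h3
    · exact key h.symm (h2.trans h1.symm) h3
  · exact key2 h.symm h2 h1
  · exact key2 h h1 h2
  · rcases le_total (vY (O j)) (vY (O i)) with h3 | h3
    · exact key h (h1.trans h2.symm) h3
    · exact key h.symm (h2.trans h1.symm) h3

/-- **trees in which every vertex has at most three neighbours which are not leaves**, from the
lists -/
theorem asm_lbb_of (hc : covers tl dl = true) (hk : ∀ D, RD D → KOk (knAt dl d D) D)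
    (hs : LOK tl dl sgnL) (hpos : LOK5 tl dl posL) (hr1 : LOK tl dl root1L)
    (hr0 : LOK tl dl root0L) (hun : LOK5 tl dl unL) (hlc : LOK5 tl dl lcL)
    (hpc : LOK5 tl dl (fun E => pcL E true)) (hzp : LOK5 tl dl zpL)
    (hm1 : LOK5 tl dl (fun E => msL E true)) (hm2 : LOK5 tl dl (fun E => msL E false))
    (hE0 : R3OKF tl dl (shE [0])) (hE1 : R3OKF tl dl (shE [1, 2, 3, 4]))
    (hS : ∀ p, p ≤ 2 → R3OK tl dl (shS p)) (hD1 : ∀ p, p ≤ 2 → R3OKF tl dl (shD1 p))
    (hD0 : ∀ p, p ≤ 2 → R3OKF tl dl (shD0 p)) (n : ℕ) (T : SimpleGraph (Fin n)) (hT : T.IsTree)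
    (h : ∀ v, TSM.nlN T v ≤ 3) : TSM.AntiT n T :=
  TSM.asm_lbb (cert hc hk hs hpos hr1 hr0 hun hlc hpc hzp hm1 hm2)
    (lbb_of (d := d) hc hs hk rfl hE0 hE1 hS hD1 hD0) n T hT h

end Pool.Agent.TSG
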