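import Pool.Agent.TSG.FamU
import Pool.Agent.TSM.NormL

set_option autoImplicit false

/-!
# Families with given labels from the lists (MP_d27362_co)
-/

namespace Pool.Agent.TSG

open Finset
open Pool.Agent.TSC
open Pool.Agent.TSR (OBr)
open Pool.Agent.TLT (sg)
open Pool.Agent.TSM (q0 th RD Reg Sn NS Q5 Chd Spl FamS FamT FamK FamKV FamZ chd vU vY aU aY c1
  ItD fam NRd)

variable {tl : List TC} {dl dl' dL dS : List (Seg (Kn Dec))} {d : Seg (Kn Dec)}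
  {D a : ℝ} {S : FS} {lf tw : Bool} {K : ℕ} {O : Fin K → OBr} {N : Finset (Fin K)}
  {σ e ρ : Fin K → Bool}
  {tc : Fin K → ℕ} {Y : TSM.Sys}

/-- the lists and the tests of one shape with an even number of children -/
def EvLOK (tl : List TC) (dl : List (Seg (Kn Dec))) (S : FS) (kd : ℕ) (k : ℕ → KE) : Prop :=
  (∀ dc ∈ dl, evOk kd (k dc.x.ix) dc = true) ∧
  LineOK tl dl S (fun x => ldA (k x.ix)) (fun ix => (k ix).s) ∧
  LineOK tl dl S (fun x => ldB (k x.ix)) (fun ix => (k ix).s)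

/-- one family with an even number of children, from the lists -/
theorem EvLOK.ev (hc : covers tl dl = true) (hs : LOK tl dl sgnL)
    (hK : ∀ D, RD D → KOk (knAt dl d D) D) {kd : ℕ} {k : ℕ → KE} (h : EvLOK tl dl S kd k)
    (htn : S.tn = 0) (hxi : S.xi = 0) (hkd : KdOk kd K) (hF : FH S O N tc σ e ρ) :
    ∀ D, RD D → TSM.EvF2 (chiF dl d) D K (fun a => (TSM.UU (fam σ e O)).eval a)
        (fun a => (TSM.YY (fam σ e O)).eval a) (fun a => ∑ i, TSM.Vi (VV tl dl d) N tc O i D a)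
        (fun a => VV tl dl d D a ((chd 0 (fam σ e O)).sn a))
        (fun a => PP' dl d D a ((chd 0 (fam σ e O)).sn a)) := by
  intro D hD
  obtain ⟨hmem, _⟩ := pick_D (d := d) hc hD
  exact evF_at hc hs (hK D hD) hD hmem htn hxi hkd k (fun dc hd => evOk_k (h.1 dc hd)) h.2.1
    h.2.2 hF

/-- **even number of children, given labels**, any shape -/
theorem evKV_of (hc : covers tl dl = true) (hs : LOK tl dl sgnL)
    (hK : ∀ D, RD D → KOk (knAt dl d D) D) {m M n pa gs td kd nr msk : ℕ} {rg : Rg}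
    {vm fv gm fg kN : Dec} {vm' fv' fg' : ℝ} (hM : ShM M m)
    (hkd : KdOk kd (lf.toNat + tw.toNat + m)) (hpa : pa = 2 ∨ pa = (n + tw.toNat) % 2)
    (h2 : vm' ≤ vm.val) (h3 : if 2 ≤ nr then fv' ≤ m else fv' ≤ fv.val)
    (h4 : if 2 ≤ nr then fg' ≤ m else fg' ≤ fg.val) {k : ℕ → KE}
    (h : EvLOK tl dl (fsV n M pa rg gs td vm fv gm fg false nr kN msk) kd k)
    (hF : FamKV Y Adm (VV tl dl d) (PP' dl d) lf tw m O N tc σ e ρ n vm' fv' fg')
    (hR : RoleH (fsV n M pa rg gs td vm fv gm fg false nr kN msk) O N tc e)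
    (hrg : rg.At O N) (htd : td ≠ 0 → ∀ i ∈ N, ρ i = σ i)
    (hgs : GSg gs gm.val ((TSM.gU e O).eval q0)) :
    ∀ D, RD D → TSM.EvF2 (chiF dl d) D K (fun a => (TSM.UU (fam σ e O)).eval a)
        (fun a => (TSM.YY (fam σ e O)).eval a) (fun a => ∑ i, TSM.Vi (VV tl dl d) N tc O i D a)
        (fun a => VV tl dl d D a ((chd 0 (fam σ e O)).sn a))
        (fun a => PP' dl d D a ((chd 0 (fam σ e O)).sn a)) := by
  have hI := hF.hI
  have hS := hF.hS N.card (by rw [hI.hN])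
  have hm : (N.card : ℝ) = m := by rw [hI.hN]
  exact h.ev hc hs hK rfl rfl (by rw [hI.hK]; exact hkd)
    (fhV_of hI hF.hT hF.hn hF.hρ0 hF.hρ1 hF.hInv hS le_rfl h2 (by rw [hm]; exact h3)
      (by rw [hm]; exact h4) hR hM hpa hrg htd hgs)

/-- the second role of the full norm rule -/
lemma roleH2 {m : ℕ} {tc : Fin K → ℕ} {e r : Fin K → Bool} {κ : ℝ} (hr : NRd m O N e r κ)
    (hI : TSM.ItD lf tw m O N) (hO : TSM.FamO O N) (ht : ∀ i ∈ N, tc i = 0 ↔ TSM.tau (O i) = 0)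
    (hnr : S.nr = 2) (hkN : S.kN.val = κ) (hmsk : S.msk = 0) : RoleH S O N tc e := by
  have h1 : ∀ i ∈ N, (¬ tc i = 0 ↔ TSM.tau (O i) = 1) := by
    intro i hi
    rw [ht i hi]
    rcases (hO.hI i).1 with h | h <;> rw [h] <;> norm_num
  have e1 : N.filter (fun i => ¬ tc i = 0) = N.filter (fun i => TSM.tau (O i) = 1) :=
    filter_congr h1
  have e0 : N.filter (fun i => tc i = 0) = N.filter (fun i => ¬ TSM.tau (O i) = 1) :=
    filter_congr fun i hi => by rw [← h1 i hi, not_not]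
  have h0 : 0 ≤ ∑ i ∈ N.filter (fun i => tc i = 0), sg (r i) := by
    rw [e0]
    rcases Nat.even_or_odd m with h | h
    · rw [hr.hr0 h]
    · rw [hr.hr0' h]
      norm_num
  have h2 : ∑ i ∈ N, sg (r i) * vU (O i) = ∑ i, sg (r i) * vU (O i) := by
    rw [← sum_subset (subset_univ N)]
    intro i _ hi
    unfold vU
    rw [hO.UU0 hi, Polynomial.eval_zero, mul_zero]
  refine ⟨r, fun i _ => FS.ex0 hmsk _ _ _, fun h => by omega, fun _ => ⟨?_, h0, ?_⟩,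
    fun _ => ⟨?_, ?_⟩⟩
  · rw [h2]
    exact hr.hN.h6
  · rw [e1, hr.hr1]
  · rw [e1, hr.hr1]
  · rw [hkN]
    exact hr.hN

/-- the type `3` if `v_y' ≤ 1`, otherwise the type `4` -/
lemma ty34' (σ e : Fin K → Bool) (O : Fin K → OBr) :
    (vY (fam σ e O) ≤ 1 ∧ Adm 3 (vU (fam σ e O)) (vY (fam σ e O)) (aU (fam σ e O))
      (aY (fam σ e O))) ∨
    (1 < vY (fam σ e O) ∧ Adm 4 (vU (fam σ e O)) (vY (fam σ e O)) (aU (fam σ e O))
      (aY (fam σ e O))) := by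
  rcases le_or_gt (vY (fam σ e O)) 1 with h | h
  · exact Or.inl ⟨h, fun _ => h, fun h2 => absurd h2 (by norm_num)⟩
  · exact Or.inr ⟨h, fun h2 => by rcases h2 with h2 | h2 | h2 <;> norm_num at h2, fun _ => h.le⟩

/-- **odd number of children, given labels**, a trivial child is split off (on the intervals `dL`)
or the symmetric rule is used (on the intervals `dS`) -/
theorem oddKV_of (hc : covers tl dl = true) (hs : LOK tl dl sgnL)
    (hK : ∀ D, RD D → KOk (knAt dl d D) D) {m M n xi pa td kd kdo nr msk : ℕ} {rg : Rg}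
    {f vm fv gm fg kN : Dec} {vm' fv' fg' : ℝ} (hM : ShM M m)
    (hcov : ∀ dc ∈ dl, dc ∈ dL ∨ dc ∈ dS)
    (hkd : dL ≠ [] → KdOk kd (lf.toNat + tw.toNat + m - 1))
    (hkdo : dS ≠ [] → KdOk kdo (lf.toNat + tw.toNat + m))
    (hpa : pa = 2 ∨ pa = (n + tw.toNat) % 2) (h1 : 2 ≤ f.val)
    (h2 : vm' ≤ vm.val) (h3 : if 2 ≤ nr then fv' ≤ m else fv' ≤ fv.val)
    (h4 : if 2 ≤ nr then fg' ≤ m else fg' ≤ fg.val) (hgm : gmOk n vm gm = true)
    (hxi : xi ≤ 1) {kL : ℕ → ℕ → KL} {kO : ℕ → ℕ → KO}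
    (hO3 : vY (fam σ e O) ≤ 1 → OddOK tl dL dS kd kdo (kL 3) (kO 3)
      (fsG 3 n M xi pa rg td f vm fv gm fg false nr kN msk))
    (hO4 : 1 < vY (fam σ e O) → OddOK tl dL dS kd kdo (kL 4) (kO 4)
      (fsG 4 n M xi pa rg td f vm fv gm fg false nr kN msk))
    (hF : FamKV Y Adm (VV tl dl d) (PP' dl d) lf tw m O N tc σ e ρ n vm' fv' fg')
    (hR : ∀ tn, RoleH (fsG tn n M xi pa rg td f vm fv gm fg false nr kN msk) O N tc e)
    (hrg : rg.At O N) (htd : td ≠ 0 → ∀ i ∈ N, ρ i = σ i) :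
    ∃ ty : ℕ, ty ≠ 0 ∧ Adm ty (vU (fam σ e O)) (vY (fam σ e O)) (aU (fam σ e O))
      (aY (fam σ e O)) ∧ TSM.OddR (VV tl dl d) (PP' dl d) (chiF dl d) O N tc σ e xi ty := by
  have hI := hF.hI
  have hS := hF.hS N.card (by rw [hI.hN])
  have hm : (N.card : ℝ) = m := by rw [hI.hN]
  have key : ∀ tn, OddOK tl dL dS kd kdo (kL tn) (kO tn)
      (fsG tn n M xi pa rg td f vm fv gm fg false nr kN msk) →
      ((tn = 3 ∧ vY (fam σ e O) ≤ 1) ∨ (tn = 4 ∧ 1 ≤ vY (fam σ e O))) →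
      TSM.OddR (VV tl dl d) (PP' dl d) (chiF dl d) O N tc σ e xi tn := by
    intro tn hO hty
    have hFH : FH (fsG tn n M xi pa rg td f vm fv gm fg false nr kN msk) O N tc σ e ρ :=
      fh_of hI hF.hT hF.hn hF.hρ0 hF.hρ1 hF.hInv hS h1 h2 (by rw [hm]; exact h3)
        (by rw [hm]; exact h4) (hR tn) hM hpa hrg htd hgm hty
    exact oddR_of hc hs hK hcov (fun h => by rw [hI.hK]; exact hkd h)
      (fun h => by rw [hI.hK]; exact hkdo h) hxi hO hFH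
  rcases ty34' σ e O with ⟨h, hA⟩ | ⟨h, hA⟩
  · exact ⟨3, by norm_num, hA, key 3 (hO3 h) (Or.inl ⟨rfl, h⟩)⟩
  · exact ⟨4, by norm_num, hA, key 4 (hO4 h) (Or.inr ⟨rfl, h.le⟩)⟩

/-- **odd number of children, all of them nontrivial, given labels**: the symmetric rule -/
theorem allZ_of (hc : covers tl dl = true) (hs : LOK tl dl sgnL)
    {m M n pa kdo nr msk : ℕ} {rg : Rg} {f vm fv gm fg kN : Dec} {vm' fv' fg' : ℝ}
    (hM : ShM M m) (hkdo : KdOk kdo m)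
    (hodd : Odd m) (hpa : pa = 2 ∨ pa = n % 2) (h1 : TSM.f57 m ≤ f.val)
    (h2 : vm' ≤ vm.val) (h3 : if 2 ≤ nr then fv' ≤ m else fv' ≤ fv.val)
    (h4 : if 2 ≤ nr then fg' ≤ m else fg' ≤ fg.val) (hgm : gmOk n vm gm = true)
    {kO : ℕ → ℕ → KO}
    (hO : ∀ tn, (tn = 3 ∨ tn = 4) → (∀ dc ∈ dl, odOk kdo (kO tn dc.x.ix) dc = true) ∧
      ∀ i < (if kdo = 0 then 4 else 6), LineOK tl dl
        (fsG tn n M 0 pa rg 0 f vm fv gm fg true nr kN msk)
        (fun x => ldO (kO tn x.ix) x i) (fun ix => (kO tn ix).s))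
    (hF : FamZ Y Adm (VV tl dl d) (PP' dl d) m O N tc σ e ρ n vm' fv' fg')
    (hR : ∀ tn, RoleH (fsG tn n M 0 pa rg 0 f vm fv gm fg true nr kN msk) O N tc e)
    (hrg : rg.At O N) :
    ∃ ty : ℕ, ty ≠ 0 ∧ Adm ty (vU (fam σ e O)) (vY (fam σ e O)) (aU (fam σ e O))
      (aY (fam σ e O)) ∧
      ∀ D, RD D → TSM.OdT (VV tl dl d) (PP' dl d) (chiF dl d) O N tc σ e ty D := by
  have hI := hF.hI
  have hS := hF.hS N.card (by rw [hI.hN])
  have hm : (N.card : ℝ) = m := by rw [hI.hN]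
  have key : ∀ tn, (tn = 3 ∨ tn = 4) →
      ((tn = 3 ∧ vY (fam σ e O) ≤ 1) ∨ (tn = 4 ∧ 1 ≤ vY (fam σ e O))) →
      ∀ D, RD D → TSM.OdT (VV tl dl d) (PP' dl d) (chiF dl d) O N tc σ e tn D := by
    intro tn htn hty
    have hFH : FH (fsG tn n M 0 pa rg 0 f vm fv gm fg true nr kN msk) O N tc σ e ρ :=
      fh_of hI hF.hT (by rw [hF.hn]; simp) (fun h => absurd h (Nat.not_even_iff_odd.mpr hodd))
        (fun _ => hF.hρ1) hF.hInv hS h1 h2 (by rw [hm]; exact h3)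
        (by rw [hm]; exact h4) (hR tn) hM (by simpa using hpa) hrg
        (fun h => absurd rfl h) hgm hty
    exact sym_all (S := fsG tn n M 0 pa rg 0 f vm fv gm fg true nr kN msk) hc hs
      (by rw [hI.hK]; simpa using hkdo) rfl (hO tn htn).1 (hO tn htn).2 hFH
  rcases ty34' σ e O with ⟨h, hA⟩ | ⟨h, hA⟩
  · exact ⟨3, by norm_num, hA, key 3 (Or.inl rfl) (Or.inl ⟨rfl, h⟩)⟩
  · exact ⟨4, by norm_num, hA, key 4 (Or.inr rfl) (Or.inr ⟨rfl, h.le⟩)⟩

end Pool.Agent.TSG
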