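import Pool.Agent.TSG.Glue
import Pool.Agent.TSM.KindD

set_option autoImplicit false

/-!
# The certificate for trees of maximum degree at most three (MP_d27362_co)

The same fields as in `Glue`, with the types `0`, `1`, `2` only.
-/

namespace Pool.Agent.TSG

open Pool.Agent.TSC (Ar Hom ArHom QI pmap pev Dec Seg TD InCell covers covers_sound pick qhi qlo
  realHom)
open Pool.Agent.TSM (q0 th RD Reg ILe Chd Sn UnE PrE OneE LossC TwoE)

section fields

variable {tl : List (TC)} {dl : List (Seg (Kn Dec))} {d : Seg (Kn Dec)}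

/-- lists for the types `0`, `1`, `2`; for the types 1 and 2 with `v_y ≤ 1` -/
def LOK3 (tl : List TC) (dl : List (Seg (Kn Dec)))
    (L : En ℝ → ℕ → List (QP ℝ)) : Prop :=
  LOK tl dl (fun E => L E 0) ∧ LOKw tl dl (fun E => L E 1) ∧ LOKw tl dl (fun E => L E 2)

/-- only the types `0`, `1`, `2`, and the restriction on `v_y` -/
def Adm3 (ty : ℕ) (_vU vY _aU _aY : ℝ) : Prop := ty ≤ 2 ∧ (ty = 1 ∨ ty = 2 → vY ≤ 1)

lemma LOK3.at (hc : covers tl dl = true) {L : En ℝ → ℕ → List (QP ℝ)}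
    (_hn : ∀ E n, L E (n + 4) = L E 4) (_hl : ∀ E, NoLs (L E 4) realHom)
    (hL : LOK3 tl dl L) {D a : ℝ}
    (ha : Reg D a) (ty : ℕ) (q : QP ℝ) (hq : q ∈ L (enAt tl dl d D a) ty) (p : Pt)
    (hp : Dom (th a) p) (hw : ty ≤ 2 ∧ (ty = 1 ∨ ty = 2 → p.w ≤ 1)) :
    0 ≤ hv realHom q p := by
  obtain ⟨h0, h1, h2⟩ := hL
  rcases ty with _ | _ | _ | n
  · exact h0.at hc ha q hq p hp
  · exact LOKw.at (L := fun E => L E 1) hc h1 ha q hq p hp (hw.2 (by simp))
  · exact LOKw.at (L := fun E => L E 2) hc h2 ha q hq p hp (hw.2 (by simp))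
  · exact absurd hw.1 (by omega)

/-- the stem -/
theorem field3_un (hc : covers tl dl = true) (hs : LOK tl dl sgnL) (hL : LOK3 tl dl unL)
    (hk : ∀ D, RD D → KOk (knAt dl d D) D) (c : Chd) (hok : c.Ok)
    (hA : Adm3 c.ty c.vU c.vY c.aU c.aY) (aX : ℝ) (hX : c.AX aX)
    (D : ℝ) (hD : RD D) :
    UnE (chiF dl d) D c.x c.y (fun a => VV tl dl d D a (c.sn a)) (fun a => PP' dl d D a (c.sn a))
      (fun a => VV tl dl d D a ⟨1, c.y a, c.x a, c.vY, c.xT, c.aY, aX⟩)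
      (fun a => PP' dl d D a ⟨1, c.y a, c.x a, c.vY, c.xT, c.aY, aX⟩) := by
  have hK := hk D hD
  obtain ⟨D1, σ0, hO, hL1, hL2⟩ := hK.un
  have key : ∀ a, Reg D a → a < q0 → _ := fun a ha hq =>
    unL_sound (h := realHom) (E := enAt tl dl d D a) (enAt_ok hc hs ha) hD.1 hq c aX hX
      (by rw [enAt_k hc ha]; exact hK.su0 _) hok.hU0
      (fun q hq => hL.at hc (fun _ _ => rfl) (fun _ => noLs_unL _ _) ha _ q hq _
        (dom_of hok ha.2.2.1 ha.2.2.2.2) hA)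
  simp only [map_id_V, map_id_P] at key
  refine ⟨D1, 1 - (knAt dl d D).ru.w0, (knAt dl d D).ru.K, (knAt dl d D).ru.r,
    (knAt dl d D).pd.kap, σ0, (knAt dl d D).ru.s, (knAt dl d D).ru.K1, (knAt dl d D).ru.K2,
    fun a => min (c.x a) (knAt dl d D).ru.r,
    fun a => max 0 ((1 - a * c.y a) ^ 2 + a * c.x a ^ 2 - 1), hO, hL1, hL2, hK.hs,
    ILe.pt fun a _ => min_le_left _ _, ILe.pt fun a _ => min_le_right _ _,
    ILe.pt fun a _ => le_max_left _ _, ILe.pt fun a _ => ?_, ?_, ?_, ?_, ILe.pt fun a ha => ?_,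
    ILe.pt fun a ha => ?_⟩
  · have := le_max_right 0 ((1 - a * c.y a) ^ 2 + a * c.x a ^ 2 - 1)
    linarith
  · refine TSC.ile_pay ((knAt dl d D).su.ty c.ty * D) (mul_nonneg (hK.su0 _) hD.1)
      fun a ha hq _ => ?_
    have h1 := (key a ha hq).1
    rw [enAt_k hc ha] at h1
    have e1 : 1 - (1 - (knAt dl d D).ru.w0) = (knAt dl d D).ru.w0 := by ring
    simp only [e1]
    exact h1
  · refine TSC.ile_pay ((knAt dl d D).su.ty c.ty * D) (mul_nonneg (hK.su0 _) hD.1)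
      fun a ha hq _ => ?_
    have h1 := (key a ha hq).2.1
    rw [enAt_k hc ha] at h1
    exact h1
  · refine TSC.ile_pay ((knAt dl d D).su.ty c.ty * D) (mul_nonneg (hK.su0 _) hD.1)
      fun a ha hq _ => ?_
    have h1 := (key a ha hq).2.2
    rw [enAt_k hc ha] at h1
    exact h1
  · exact pd1_nonneg hK ha _ _ _ _ _ _
  · exact pd1_gain hK ha _ _ _ _ _ _ _

/-- a pair: the general form -/
theorem field3_pr (hc : covers tl dl = true) (hs : LOK tl dl sgnL) (o : ℕ)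
    (g : Kn ℝ → RP ℝ) (sp : Kn ℝ → S4 ℝ) (m0 m1 : ℝ → ℕ → ℝ) (n1 : En ℝ → ℕ → ℝ)
    (hn : ∀ a n, m0 a (n + 4) = m0 a 4 ∧ m1 a (n + 4) = m1 a 4)
    (hn1 : ∀ E n, n1 E (n + 4) = n1 E 4)
    (hL : LOK3 tl dl
      (fun E ty => prL E o (g E.k) (sp E.k) ty (m0 E.t ty) (m1 E.t ty) (n1 E ty)))
    (hκ : ∀ D, RD D → ∃ κ, TwoE D (g (knAt dl d D)).r (g (knAt dl d D)).C κ (g (knAt dl d D)).eta
      (knAt dl d D).chi (g (knAt dl d D)).psi)
    (hC : ∀ D, RD D → (g (knAt dl d D)).C ≤ (knAt dl d D).pd.C0)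
    (hp0 : ∀ D, RD D → ∀ ty, 0 ≤ (sp (knAt dl d D)).ty ty)
    (c : Chd) (hok : c.Ok) (hA : Adm3 c.ty c.vU c.vY c.aU c.aY) (aX : ℝ) (hX : c.AX aX)
    (X : ℝ → ℝ) (vX : ℝ)
    (hm : ∀ a, m0 a c.ty + m1 a c.ty * c.u a = X a) (D : ℝ) (hD : RD D)
    (hvX : ∀ a, (enAt tl dl d D a).Ok realHom D a →
      vX ≤ m0 a c.ty + n1 (enAt tl dl d D a) c.ty * c.vU) :
    PrE (chiF dl d) D X (fun a => a ^ 2 * c.y a ^ 2 + a * X a ^ 2)
      (fun a => VV tl dl d D a (c.sn a)) (fun a => PP' dl d D a (c.sn a))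
      (fun a => VV tl dl d D a ⟨0, c.y a, X a, c.vY, vX, c.aY, aX⟩)
      (fun a => PP' dl d D a ⟨0, c.y a, X a, c.vY, vX, c.aY, aX⟩) := by
  obtain ⟨κ, hT⟩ := hκ D hD
  have ht : ∀ a, Reg D a → (enAt tl dl d D a).t = a := fun a ha =>
    (enAt_ok (d := d) hc hs ha).ht
  have key : ∀ a, Reg D a → a < q0 → _ := fun a ha hq =>
    prL_sound (h := realHom) (E := enAt tl dl d D a) (enAt_ok hc hs ha) hD.1 hq o c aX hX
      (g (enAt tl dl d D a).k) (sp (enAt tl dl d D a).k) (m0 (enAt tl dl d D a).t c.ty)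
      (m1 (enAt tl dl d D a).t c.ty) (n1 (enAt tl dl d D a) c.ty) (X a) vX
      (by rw [enAt_k hc ha]; exact hp0 D hD _)
      (by rw [ht a ha]; exact hm a)
      (by
        rw [ht a ha]
        exact hvX a (enAt_ok hc hs ha))
      (fun q hq => hL.at
        (L := fun E ty => prL E o (g E.k) (sp E.k) ty (m0 E.t ty) (m1 E.t ty) (n1 E ty))
        hc (fun E n => by simp only [(hn E.t n).1, (hn E.t n).2, hn1 E n]; rfl)
        (fun _ => noLs_prL _ _ _ _ _ _ _ _) ha _ q hq _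
        (dom_of hok ha.2.2.1 ha.2.2.2.2) hA)
  simp only [map_id_V, map_id_P] at key
  refine ⟨(g (knAt dl d D)).r, (g (knAt dl d D)).C, κ, (g (knAt dl d D)).eta,
    (g (knAt dl d D)).psi, fun a => min (X a) (g (knAt dl d D)).r,
    fun a => a ^ 2 * c.y a ^ 2 + a * X a ^ 2, hT, ILe.pt fun a _ => min_le_left _ _,
    ILe.pt fun a _ => min_le_right _ _, ILe.pt fun a _ => le_rfl, ?_, ?_, ILe.pt fun a ha => ?_⟩
  · refine TSC.ile_pay ((sp (knAt dl d D)).ty c.ty * D) (mul_nonneg (hp0 D hD _) hD.1)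
      fun a ha hq _ => ?_
    have h1 := (key a ha hq).1
    rw [enAt_k hc ha] at h1
    exact h1
  · refine TSC.ile_pay ((sp (knAt dl d D)).ty c.ty * D) (mul_nonneg (hp0 D hD _) hD.1)
      fun a ha hq _ => ?_
    have h1 := (key a ha hq).2
    rw [enAt_k hc ha] at h1
    exact h1
  · exact mul_le_mul_of_nonneg_right (hC D hD) (add_nonneg (by positivity)
      (mul_nonneg ha.2.2.1 (sq_nonneg _)))

/-- leaf and child -/
theorem field3_lc (hc : covers tl dl = true) (hs : LOK tl dl sgnL) (hL : LOK3 tl dl lcL)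
    (hk : ∀ D, RD D → KOk (knAt dl d D) D) (c : Chd) (hok : c.Ok)
    (hA : Adm3 c.ty c.vU c.vY c.aU c.aY) (aX : ℝ) (hX : c.AX aX)
    (D : ℝ) (hD : RD D) :
    PrE (chiF dl d) D c.x (fun a => a ^ 2 * c.y a ^ 2 + a * c.x a ^ 2)
      (fun a => VV tl dl d D a (c.sn a)) (fun a => PP' dl d D a (c.sn a))
      (fun a => VV tl dl d D a ⟨0, c.y a, c.x a, c.vY, c.xT, c.aY, aX⟩)
      (fun a => PP' dl d D a ⟨0, c.y a, c.x a, c.vY, c.xT, c.aY, aX⟩) :=
  field3_pr hc hs 5 Kn.lc Kn.sl (fun _ ty => k0 ty) (fun t ty => k1 t ty) (fun E ty => k2 E ty)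
    (fun _ n => ⟨k0_succ n, k1_succ _ n⟩) (fun _ _ => rfl) hL (fun D hD => (hk D hD).lc)
    (fun D hD => (hk D hD).lcC) (fun D hD => (hk D hD).sl0) c hok hA aX hX c.x c.xT
    (fun a => k_eq' c a) D hD (fun _ hE => k2_le hE hok.hU0)

/-- path and child, sign `+` or `-` -/
theorem field3_pc (hc : covers tl dl = true) (hs : LOK tl dl sgnL) (e : Bool)
    (hL : LOK3 tl dl (fun E => pcL E e))
    (hk : ∀ D, RD D → KOk (knAt dl d D) D) (c : Chd) (hok : c.Ok)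
    (hA : Adm3 c.ty c.vU c.vY c.aU c.aY) (aX : ℝ) (hX : c.AX aX)
    (D : ℝ) (hD : RD D) :
    PrE (chiF dl d) D (fun a => 1 + TLT.sg e * c.x a)
      (fun a => a ^ 2 * c.y a ^ 2 + a * (1 + TLT.sg e * c.x a) ^ 2)
      (fun a => VV tl dl d D a (c.sn a)) (fun a => PP' dl d D a (c.sn a))
      (fun a => VV tl dl d D a ⟨0, c.y a, 1 + TLT.sg e * c.x a, c.vY, 1 + TLT.sg e * c.xT,
        c.aY, aX⟩)
      (fun a => PP' dl d D a ⟨0, c.y a, 1 + TLT.sg e * c.x a, c.vY, 1 + TLT.sg e * c.xT,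
        c.aY, aX⟩) := by
  refine field3_pr hc hs 10 Kn.pc Kn.sp
    (fun _ ty => Ar.add Ar.one (if e then k0 ty else Ar.neg (k0 ty)))
    (fun t ty => if e then k1 t ty else Ar.neg (k1 t ty))
    (fun E ty => if e then k2 E ty else k3 E ty)
    (fun _ n => ⟨rfl, rfl⟩) (fun _ _ => rfl) hL (fun D hD => (hk D hD).pc)
    (fun D hD => (hk D hD).pcC) (fun D hD => (hk D hD).sp0) c hok hA aX hX
    (fun a => 1 + TLT.sg e * c.x a) (1 + TLT.sg e * c.xT) (fun a => ?_) D hD (fun a hE => ?_)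
  · rw [← k_eq' c a]
    cases e
    · show (1 : ℝ) + (-k0 c.ty) + (-k1 a c.ty) * c.u a = 1 + TLT.sg false * _
      rw [TSR.sg_ff]
      ring
    · show (1 : ℝ) + k0 c.ty + k1 a c.ty * c.u a = 1 + TLT.sg true * _
      rw [TSR.sg_tt]
      ring
  · cases e
    · have := k3_le hE hok.hU0
      rw [TSR.sg_ff]
      show 1 + -1 * c.xT ≤ (1 : ℝ) + (-k0 c.ty) + k3 (enAt tl dl d D a) c.ty * c.vU
      have e1 : realHom.f (k0 c.ty : ℝ) = k0 c.ty := rfl
      have e2 : realHom.f (k3 (enAt tl dl d D a) c.ty : ℝ) = k3 (enAt tl dl d D a) c.ty := rfl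
      rw [e1, e2] at this
      linarith
    · have := k2_le hE hok.hU0
      rw [TSR.sg_tt]
      show 1 + 1 * c.xT ≤ (1 : ℝ) + k0 c.ty + k2 (enAt tl dl d D a) c.ty * c.vU
      have e1 : realHom.f (k0 c.ty : ℝ) = k0 c.ty := rfl
      have e2 : realHom.f (k2 (enAt tl dl d D a) c.ty : ℝ) = k2 (enAt tl dl d D a) c.ty := rfl
      rw [e1, e2] at this
      linarith

/-- positivity -/
theorem field3_pos (hc : covers tl dl = true) (hL : LOK3 tl dl posL)
    (c : Chd) (hok : c.Ok) (hA : Adm3 c.ty c.vU c.vY c.aU c.aY)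
    (D a : ℝ) (ha : Reg D a) : 0 ≤ VV tl dl d D a (c.sn a) := by
  have h1 := hv_vC realHom (enAt tl dl d D a).V (c.sn a)
  rw [map_id_V] at h1
  unfold VV
  rw [← h1]
  exact hL.at hc (fun _ _ => rfl) (fun _ => noLs_posL _ _) ha c.ty _
    (List.mem_singleton.mpr rfl) _ (dom_of hok ha.2.2.1 ha.2.2.2.2) hA

/-- two nontrivial children: the sum of the `x` -/
theorem field3_cc (hc : covers tl dl = true) (hs : LOK tl dl sgnL)
    (hL1 : LOK3 tl dl (fun E => msL E true)) (hL2 : LOK3 tl dl (fun E => msL E false))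
    (hk : ∀ D, RD D → KOk (knAt dl d D) D) (c e : Chd) (hokc : c.Ok) (hoke : e.Ok)
    (hAc : Adm3 c.ty c.vU c.vY c.aU c.aY) (hAe : Adm3 e.ty e.vU e.vY e.aU e.aY)
    (aXc aXd aUn : ℝ) (hXc : c.AX aXc) (hXd : e.AX aXd) (hU0 : 0 ≤ aUn)
    (hU1 : aUn ≤ c.aY + e.aY) (f : ℝ) (hf0 : 0 ≤ f) (hf1 : f ≤ aXc + aXd) (vU vY : ℝ)
    (hvU : vU ≤ c.vY - e.vY) (hvY : vY ≤ c.xT + e.xT)
    (D : ℝ) (hD : RD D) :
    PrE (chiF dl d) D (fun a => c.x a + e.x a)
      (fun a => a ^ 2 * (c.y a - e.y a) ^ 2 + a * (c.x a + e.x a) ^ 2)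
      (fun a => VV tl dl d D a (c.sn a) + VV tl dl d D a (e.sn a))
      (fun a => PP' dl d D a (c.sn a) + PP' dl d D a (e.sn a))
      (fun a => VV tl dl d D a ⟨0, c.y a - e.y a, c.x a + e.x a, vU, vY, aUn, f⟩)
      (fun a => PP' dl d D a ⟨0, c.y a - e.y a, c.x a + e.x a, vU, vY, aUn, f⟩) := by
  have hK := hk D hD
  obtain ⟨κ, hT⟩ := hK.cc
  have hC0 : 1 / 2 ≤ (knAt dl d D).cc.C := hT.hC.le
  have key : ∀ a, Reg D a → a < q0 → _ := fun a ha hq =>
    ms_sound (h := realHom) (E := enAt tl dl d D a) (enAt_ok hc hs ha) hD.1 hq ha.2.2.1 c e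
      aXc aXd aUn f hXc hXd hU0 hU1 hf0 hf1 vU vY hvU hvY hokc.hU0 hoke.hU0
      (by rw [enAt_k hc ha]; exact hK.sm0) (by rw [enAt_k hc ha]; exact hC0)
      (fun q hq => hL1.at (L := fun E => msL E true) hc (fun _ _ => rfl)
        (fun _ => noLs_msL _ _ _) ha _ q hq _ (dom_of hokc ha.2.2.1 ha.2.2.2.2) hAc)
      (fun q hq => hL2.at (L := fun E => msL E false) hc (fun _ _ => rfl)
        (fun _ => noLs_msL _ _ _) ha _ q hq _ (dom_of hoke ha.2.2.1 ha.2.2.2.2) hAe)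
  simp only [map_id_V, map_id_P] at key
  refine ⟨(knAt dl d D).cc.r, (knAt dl d D).cc.C, κ, (knAt dl d D).cc.eta, (knAt dl d D).cc.psi,
    fun a => min (c.x a + e.x a) (knAt dl d D).cc.r,
    fun a => a ^ 2 * (c.y a - e.y a) ^ 2 + a * (c.x a + e.x a) ^ 2, hT,
    ILe.pt fun a _ => min_le_left _ _, ILe.pt fun a _ => min_le_right _ _,
    ILe.pt fun a _ => le_rfl, ?_, ?_, ILe.pt fun a ha => ?_⟩
  · refine TSC.ile_pay ((knAt dl d D).sm * D) (mul_nonneg hK.sm0 hD.1) fun a ha hq _ => ?_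
    have h1 := (key a ha hq).1
    rw [enAt_k hc ha] at h1
    exact h1
  · refine TSC.ile_pay ((knAt dl d D).sm * D) (mul_nonneg hK.sm0 hD.1) fun a ha hq _ => ?_
    have h1 := (key a ha hq).2
    rw [enAt_k hc ha] at h1
    exact h1
  · exact mul_le_mul_of_nonneg_right hK.ccC (add_nonneg (by positivity)
      (mul_nonneg ha.2.2.1 (sq_nonneg _)))

/-- leaf, path and child, sign `-` -/
theorem field3_lpc (hc : covers tl dl = true) (hs : LOK tl dl sgnL) (hL : LOK3 tl dl zpL)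
    (hk : ∀ D, RD D → KOk (knAt dl d D) D) (c : Chd) (hok : c.Ok)
    (hA : Adm3 c.ty c.vU c.vY c.aU c.aY) (aX : ℝ) (hX : c.AX aX)
    (D : ℝ) (hD : RD D) :
    TSM.ZpEV (chiF dl d) D (fun a => 1 + TLT.sg false * c.x a) c.y
      (fun a => VV tl dl d D a (c.sn a)) (fun a => PP' dl d D a (c.sn a))
      (fun a => VV tl dl d D a ⟨2, c.y a, 1 + TLT.sg false * c.x a, c.vY,
        1 + TLT.sg false * c.xT, c.aY, aX⟩)
      (fun a => PP' dl d D a ⟨2, c.y a, 1 + TLT.sg false * c.x a, c.vY,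
        1 + TLT.sg false * c.xT, c.aY, aX⟩) := by
  have hK := hk D hD
  have ht : ∀ a, Reg D a → (enAt tl dl d D a).t = a := fun a ha =>
    (enAt_ok (d := d) hc hs ha).ht
  obtain ⟨X, hXd⟩ : ∃ X : ℝ → ℝ, X = fun a => 1 + TLT.sg false * c.x a := ⟨_, rfl⟩
  obtain ⟨vX, hvX⟩ : ∃ vX : ℝ, vX = 1 + TLT.sg false * c.xT := ⟨_, rfl⟩
  rw [← hvX, ← hXd]
  have e0 : ∀ a, 1 + TLT.sg false * c.x a = X a := fun a => by rw [hXd]
  simp only [e0]
  have hm : ∀ a, Reg D a → realHom.f (Ar.add Ar.one (Ar.neg (k0 c.ty : ℝ)) : ℝ) +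
      realHom.f (Ar.neg (k1 (enAt tl dl d D a).t c.ty) : ℝ) * c.u a = X a := by
    intro a ha
    rw [ht a ha, hXd]
    show (1 : ℝ) + (-k0 c.ty) + (-k1 a c.ty) * c.u a = 1 + TLT.sg false * c.x a
    rw [TSR.sg_ff, ← k_eq' c a]
    ring
  have hsz : ∀ a, Reg D a → 0 ≤ realHom.f ((enAt tl dl d D a).k.sz.ty c.ty) := by
    intro a ha
    rw [enAt_k hc ha]
    exact hK.sz0 _
  have hLa : ∀ a, Reg D a → ∀ q ∈ zpL (enAt tl dl d D a) c.ty,
      0 ≤ hv realHom q (pt (c.sn a)) := fun a ha q hq =>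
    hL.at hc (fun _ _ => rfl) (fun _ => noLs_zpM _ _ _ _ _) ha _ q hq _
      (dom_of hok ha.2.2.1 ha.2.2.2.2) hA
  have hvX' : ∀ a, Reg D a → vX ≤ realHom.f (Ar.add Ar.one (Ar.neg (k0 c.ty : ℝ)) : ℝ) +
      realHom.f (k3 (enAt tl dl d D a) c.ty) * c.vU := by
    intro a ha
    have h1 := k3_le (enAt_ok (d := d) hc hs ha) hok.hU0
    rw [hvX, TSR.sg_ff]
    show 1 + -1 * c.xT ≤ (1 + -(k0 c.ty : ℝ)) + _
    have e1 : realHom.f (k0 c.ty : ℝ) = k0 c.ty := rfl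
    rw [e1] at h1
    linarith
  have hpay : ∀ (x y : ℝ → ℝ), (∀ a, Reg D a → a < q0 →
      x a + (knAt dl d D).sz.ty c.ty * D * (1 - D / (q0 - a)) ≤ y a) → ILe D x y := by
    intro x y hxy
    exact TSC.ile_pay ((knAt dl d D).sz.ty c.ty * D) (mul_nonneg (hK.sz0 _) hD.1)
      fun a ha hq _ => hxy a ha hq
  have keyG : ∀ a, Reg D a → a < q0 → _ := fun a ha hq =>
    zpG_sound (h := realHom) (E := enAt tl dl d D a) (enAt_ok hc hs ha) hD.1 hq c aX hX
      _ _ _ (X a) vX (hsz a ha) (hm a ha) (hvX' a ha) (hLa a ha)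
  have keyL : ∀ a, Reg D a → a < q0 → _ := fun a ha hq =>
    zp4_sound (h := realHom) (E := enAt tl dl d D a) (enAt_ok hc hs ha) hD.1 hq c aX hX
      _ _ _ _ _ _ _ _ _ _ _ (X a) vX (hsz a ha) (hm a ha) (hvX' a ha)
      (fun q hq => hLa a ha q (List.mem_append_right _ (List.mem_append_right _
        (List.mem_append_left _ hq))))
  have keyN : ∀ a, Reg D a → a < q0 → _ := fun a ha hq =>
    zp4_sound (h := realHom) (E := enAt tl dl d D a) (enAt_ok hc hs ha) hD.1 hq c aX hX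
      _ _ _ _ _ _ _ _ _ _ _ (X a) vX (hsz a ha) (hm a ha) (hvX' a ha)
      (fun q hq => hLa a ha q (List.mem_append_right _ (List.mem_append_right _
        (List.mem_append_right _ hq))))
  have fg : ∀ a, Reg D a → realHom.f (zg (enAt tl dl d D a)) =
      (knAt dl d D).z.g1 * a + (knAt dl d D).z.g2 * D := fun a ha => by
    rw [zg_val (enAt_ok (d := d) hc hs ha), enAt_k hc ha]
    rfl
  have ff : ∀ a, Reg D a → ∀ x y : ℝ, realHom.f (zf (enAt tl dl d D a) x y) =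
      1 / 2 * (x * a + y * D) := fun a ha x y => by
    rw [zf_val (enAt_ok (d := d) hc hs ha)]
    rfl
  have fn : ∀ a, Reg D a → realHom.f (zn (enAt tl dl d D a)) =
      1 / 2 * ((knAt dl d D).z.n3 * D * (a ^ 2 * (1 - (knAt dl d D).z.c4 * a))) := fun a ha => by
    rw [zn_val (enAt_ok (d := d) hc hs ha), enAt_k hc ha]
    rfl
  have hf1 : ∀ x : ℝ, realHom.f x = x := fun _ => rfl
  simp only [map_id_V, map_id_P] at keyG keyL keyN
  have hXa : ∀ a, Reg D a → -(a * th a * c.aU) ≤ X a := by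
    intro a ha
    have h1 := abs_le.1 (hok.hu a ha.2.2.1 ha.2.2.2.2)
    have h2 := hok.hU0
    have h3 := hok.hU2
    have h4 : a ≤ q0 := ha.2.2.2.2
    have h5 : q0 < 1 / 2 := by
      have := TSC.q0_lt_qhi
      rw [TSC.qhi_val] at this
      linarith
    have h6 := TSM.th_nonneg a
    have h7 := hok.haU
    rw [hXd]
    show _ ≤ 1 + TLT.sg false * c.x a
    rw [TSR.sg_ff]
    unfold Chd.x
    by_cases h8 : c.ty = 0
    · rw [if_pos h8]
      have h9 : a * c.u a ≤ a * (2 + th a * c.aU) :=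
        mul_le_mul_of_nonneg_left (by linarith [h1.2]) ha.2.2.1
      nlinarith
    · rw [if_neg h8]
      have h9 : a * (0 - th a * c.aU) ≤ a * c.u a :=
        mul_le_mul_of_nonneg_left (by linarith [h1.1]) ha.2.2.1
      nlinarith
  obtain ⟨ε, β1, β2, hε, hrε, hq1, hq2, ha10, ha11, ha1, ha20, ha2, hk1, hk2, hz1, hz2, hb1,
    hb2⟩ := hK.zl
  obtain ⟨β3, β4, hn1, hn2, hn3, ha30, ha3, ha40, ha4, hk3, hk4, hz3, hz4, hb3, hb4⟩ := hK.zm
  have hexq : ∀ a, Reg D a → (1 - a * c.y a / 2) ^ 2 + a * X a ^ 2 / 4 ≤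
      1 + max 0 ((1 - a * c.y a / 2) ^ 2 + a * X a ^ 2 / 4 - 1) := by
    intro a _
    have := le_max_right 0 ((1 - a * c.y a / 2) ^ 2 + a * X a ^ 2 / 4 - 1)
    linarith
  have hW : ∀ a, Reg D a → 0 ≤ a * c.y a ^ 2 + X a ^ 2 := by
    intro a ha
    have := ha.2.2.1
    positivity
  refine ⟨(knAt dl d D).z.r, fun a => min (X a) (knAt dl d D).z.r, hK.zr0,
    ILe.pt fun a _ => min_le_left _ _, ILe.pt fun a _ => min_le_right _ _, Or.inl ?_, ?_,
    Or.inr ?_⟩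
  · refine ⟨(knAt dl d D).z.g1, (knAt dl d D).z.g2, 0, (knAt dl d D).z.e1, (knAt dl d D).z.e2,
      fun a => ((knAt dl d D).z.g1 * a + (knAt dl d D).z.g2 * D) * (a * c.y a ^ 2 + X a ^ 2),
      hK.zr3, hK.zg1, hK.zg2, Or.inr hK.zg3, hK.ze1, hK.ze2, ILe.pt fun a _ => le_of_eq (by ring),
      hpay _ _ fun a ha hq => ?_, hpay _ _ fun a ha hq => ?_⟩
    · have h1 := (keyG a ha hq).1
      rw [fg a ha, enAt_k hc ha] at h1
      exact h1
    · have h1 := (keyG a ha hq).2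
      rw [fg a ha, enAt_k hc ha] at h1
      exact h1
  · refine ⟨ε, β1, β2, (knAt dl d D).z.a1, (knAt dl d D).z.a2, (knAt dl d D).z.k1,
      (knAt dl d D).z.k2, 0, 0, 0, 0,
      fun a => max 0 ((1 - a * c.y a / 2) ^ 2 + a * X a ^ 2 / 4 - 1),
      fun a => ((knAt dl d D).z.q1 * a + (knAt dl d D).z.q2 * D) * (a * c.y a ^ 2 + X a ^ 2),
      hε, hrε, ha10, ha11, ha1, ha20, ha2, hk1, hk2, le_rfl, le_rfl, le_rfl, le_rfl, hz1, hz2,
      ILe.pt fun a _ => le_max_left _ _, ILe.pt hexq, ILe.pt fun a ha => ?_,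
      hpay _ _ fun a ha hq => ?_, hpay _ _ fun a ha hq => ?_, hpay _ _ fun a ha hq => ?_,
      hpay _ _ fun a ha hq => ?_⟩
    · have h1 := mul_le_mul_of_nonneg_right hq1 (mul_nonneg ha.2.2.1 (hW a ha))
      have h2 := mul_le_mul_of_nonneg_right hq2 (mul_nonneg hD.1 (hW a ha))
      have e1 : (1 + ε) * (a ^ 2 * c.y a ^ 2 + a * X a ^ 2) =
          (1 + ε) * (a * (a * c.y a ^ 2 + X a ^ 2)) := by ring
      have e2 : (1 + ε + 1 / (4 * ε)) * D * (X a ^ 2 + a * c.y a ^ 2) =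
          (1 + ε + 1 / (4 * ε)) * (D * (a * c.y a ^ 2 + X a ^ 2)) := by ring
      rw [e1, e2]
      linarith
    · have h1 := (keyL a ha hq).1
      simp only [ff a ha, hf1, enAt_k hc ha] at h1
      have e1 : (Ar.zero : ℝ) = 0 := rfl
      rw [e1] at h1
      show VV tl dl d D a _ + _ ≤ _
      unfold VV PP'
      linarith
    · have h1 := (keyL a ha hq).2.1
      simp only [ff a ha, hf1, enAt_k hc ha] at h1
      have e1 : (Ar.zero : ℝ) = 0 := rfl
      rw [e1] at h1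
      show VV tl dl d D a _ + _ ≤ _
      unfold VV PP' chiF
      linarith
    · have h1 := (keyL a ha hq).2.2.1
      simp only [ff a ha, hf1, enAt_k hc ha] at h1
      have e1 : (Ar.zero : ℝ) = 0 := rfl
      rw [e1] at h1
      show VV tl dl d D a _ + _ ≤ _
      unfold VV PP' chiF
      linarith
    · have h1 := (keyL a ha hq).2.2.2
      simp only [ff a ha, hf1, enAt_k hc ha] at h1
      have e1 : (Ar.zero : ℝ) = 0 := rfl
      rw [e1] at h1
      show VV tl dl d D a _ + _ ≤ _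
      unfold VV PP' chiF
      linarith
  · refine ⟨β3, β4, (knAt dl d D).z.a3, (knAt dl d D).z.a4, (knAt dl d D).z.k3,
      (knAt dl d D).z.k4, 0, 0, 0, 0, fun a => -(a * th a * c.aU),
      fun a => max 0 ((1 - a * c.y a / 2) ^ 2 + a * X a ^ 2 / 4 - 1),
      fun a => ((knAt dl d D).z.n1 * a + (knAt dl d D).z.n2 * D) * (a * c.y a ^ 2 + X a ^ 2) +
        (knAt dl d D).z.n3 * D * (a ^ 2 * (1 - (knAt dl d D).z.c4 * a)) * c.aU ^ 2,
      ha30, ha3, ha40, ha4, hk3, hk4, le_rfl, le_rfl, le_rfl, le_rfl, hz3, hz4,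
      ILe.pt fun a ha => ?_, ILe.pt hXa, ILe.pt fun a _ => le_max_left _ _, ILe.pt hexq,
      ILe.pt fun a ha => ?_,
      hpay _ _ fun a ha hq => ?_, hpay _ _ fun a ha hq => ?_, hpay _ _ fun a ha hq => ?_,
      hpay _ _ fun a ha hq => ?_⟩
    · have h6 := TSM.th_nonneg a
      have h7 := hok.haU
      have h8 := ha.2.2.1
      have : 0 ≤ a * th a * c.aU := by positivity
      linarith
    · have h1 := mul_le_mul_of_nonneg_right hn1 (mul_nonneg ha.2.2.1 (hW a ha))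
      have h2 := mul_le_mul_of_nonneg_right hn2 (mul_nonneg hD.1 (hW a ha))
      have e1 : 7 / 5 * (a ^ 2 * c.y a ^ 2 + a * X a ^ 2) =
          7 / 5 * (a * (a * c.y a ^ 2 + X a ^ 2)) := by ring
      have e2 : 23 / 10 * D * (X a ^ 2 + a * c.y a ^ 2) =
          23 / 10 * (D * (a * c.y a ^ 2 + X a ^ 2)) := by ring
      have h3 : (-(a * th a * c.aU)) ^ 2 ≤ (a ^ 2 * (1 - (knAt dl d D).z.c4 * a)) * c.aU ^ 2 := by
        have h4 : th a ^ 2 ≤ 1 - (knAt dl d D).z.c4 * a := by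
          rw [TSM.th_sq ha.2.2.2.2]
          have h5 := mul_le_mul_of_nonneg_right hK.zc4 ha.2.2.1
          rw [div_le_iff₀ TSM.q0_pos]
          linarith
        have h5 := mul_le_mul_of_nonneg_left h4 (show 0 ≤ a ^ 2 * c.aU ^ 2 by positivity)
        have e3 : (-(a * th a * c.aU)) ^ 2 = a ^ 2 * c.aU ^ 2 * th a ^ 2 := by ring
        rw [e3]
        linarith
      have h4 : 10 * D * (-(a * th a * c.aU)) ^ 2 ≤ (knAt dl d D).z.n3 * D *
          ((a ^ 2 * (1 - (knAt dl d D).z.c4 * a)) * c.aU ^ 2) := by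
        apply mul_le_mul _ h3 (sq_nonneg _)
        · exact mul_nonneg (by linarith) hD.1
        · exact mul_le_mul_of_nonneg_right hn3 hD.1
      rw [e1, e2]
      linarith
    · have h1 := (keyN a ha hq).1
      simp only [ff a ha, fn a ha, hf1, enAt_k hc ha] at h1
      show VV tl dl d D a _ + _ ≤ _
      unfold VV PP'
      linarith
    · have h1 := (keyN a ha hq).2.1
      simp only [ff a ha, fn a ha, hf1, enAt_k hc ha] at h1
      show VV tl dl d D a _ + _ ≤ _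
      unfold VV PP' chiF
      linarith
    · have h1 := (keyN a ha hq).2.2.1
      simp only [ff a ha, fn a ha, hf1, enAt_k hc ha] at h1
      show VV tl dl d D a _ + _ ≤ _
      unfold VV PP' chiF
      linarith
    · have h1 := (keyN a ha hq).2.2.2
      simp only [ff a ha, fn a ha, hf1, enAt_k hc ha] at h1
      show VV tl dl d D a _ + _ ≤ _
      unfold VV PP' chiF
      linarith

lemma adm3_zero (vU vY aU aY : ℝ) : Adm3 0 vU vY aU aY := ⟨by norm_num, by simp⟩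

/-- **the conditions of the assembly for the types `0`, `1`, `2` hold** -/
theorem cert3 (hc : covers tl dl = true) (hk : ∀ D, RD D → KOk (knAt dl d D) D)
    (hs : LOK tl dl sgnL) (hpos : LOK3 tl dl posL) (hr1 : LOK tl dl root1L)
    (hr0 : LOK tl dl root0L) (hun : LOK3 tl dl unL) (hlc : LOK3 tl dl lcL)
    (hpc : LOK3 tl dl (fun E => pcL E true)) (hzp : LOK3 tl dl zpL)
    (hm1 : LOK3 tl dl (fun E => msL E true)) (hm2 : LOK3 tl dl (fun E => msL E false)) :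
    TSM.Cert (sysE (chiF dl d) (chi_nonneg hk)) Adm3 (VV tl dl d) (PP' dl d) where
  pos := fun c hok hA D a ha => field3_pos hc hpos c hok hA D a ha
  root1 := ⟨⟨by norm_num, fun _ => le_rfl⟩, fun D hD => field_root1 hc hs hr1 hk D hD⟩
  root0 := ⟨adm3_zero _ _ _ _, fun D hD => field_root0 hc hs hr0 hk D hD⟩
  un := fun c hok hA aX hX => ⟨⟨by norm_num, fun _ => xT_le_one hok⟩,
    fun D hD => field3_un hc hs hun hk c hok hA aX hX D hD⟩
  lc := fun c hok hA aX hX => ⟨adm3_zero _ _ _ _,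
    fun D hD => field3_lc hc hs hlc hk c hok hA aX hX D hD⟩
  pc := fun c hok hA aX hX => ⟨true, adm3_zero _ _ _ _,
    fun D hD => field3_pc hc hs true hpc hk c hok hA aX hX D hD⟩
  lpc := fun c hok hA aX hX => ⟨false, ⟨by norm_num, fun _ => by
      rw [TSR.sg_ff]
      have := xT_nonneg hok
      linarith⟩,
    fun D hD => field3_lpc hc hs hzp hk c hok hA aX hX D hD⟩
  cc := fun c e hokc hoke hAc hAe _ aXc aXd aUn hXc hXd hU0 hU1 f hf _ =>
    ⟨true, true, by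
      rw [TSR.sg_tt]
      have h1 := xT_nonneg hokc
      have h2 := xT_nonneg hoke
      linarith, adm3_zero _ _ _ _, fun D hD => by
      have h1 := field3_cc hc hs hm1 hm2 hk c e hokc hoke hAc hAe aXc aXd aUn hXc hXd hU0 hU1
        (f true) (hf true).1 (hf true).2 (c.vY - e.vY) (c.xT + e.xT) le_rfl le_rfl D hD
      simp only [TSR.sg_tt, one_mul]
      exact h1⟩

/-- **trees of maximum degree at most three** -/
theorem three_of (hc : covers tl dl = true) (hk : ∀ D, RD D → KOk (knAt dl d D) D)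
    (hs : LOK tl dl sgnL) (hpos : LOK3 tl dl posL) (hr1 : LOK tl dl root1L)
    (hr0 : LOK tl dl root0L) (hun : LOK3 tl dl unL) (hlc : LOK3 tl dl lcL)
    (hpc : LOK3 tl dl (fun E => pcL E true)) (hzp : LOK3 tl dl zpL)
    (hm1 : LOK3 tl dl (fun E => msL E true)) (hm2 : LOK3 tl dl (fun E => msL E false)) :
    ∀ n : ℕ, ∀ T : SimpleGraph (Fin n), T.IsTree → (∀ v, (T.neighborSet v).ncard ≤ 3) →
      ∃ D : Fin n → Fin n → Prop,
        (∀ u v, T.Adj u v → (D u v ∨ D v u)) ∧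
        (∀ u v, D u v → (T.Adj u v ∧ ¬ D v u)) ∧
        ∀ m : ℕ, ∀ G : Fin m → Fin m → Prop,
          (∀ a, ¬ G a a) →
          (∀ a b, a ≠ b → (G a b ↔ ¬ G b a)) →
          (({f : Fin n → Fin m | ∀ u v, D u v → G (f u) (f v)}.ncard : ℝ) / (m : ℝ) ^ n
            ≤ ((1 : ℝ) / 2) ^ (T.edgeSet.ncard)) :=
  TSM.asm_three (cert3 hc hk hs hpos hr1 hr0 hun hlc hpc hzp hm1 hm2)

/-- **trees in which every vertex has at most three neighbours or at most two neighbours which are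
not leaves** -/
theorem three_plus_of (hc : covers tl dl = true) (hk : ∀ D, RD D → KOk (knAt dl d D) D)
    (hs : LOK tl dl sgnL) (hpos : LOK3 tl dl posL) (hr1 : LOK tl dl root1L)
    (hr0 : LOK tl dl root0L) (hun : LOK3 tl dl unL) (hlc : LOK3 tl dl lcL)
    (hpc : LOK3 tl dl (fun E => pcL E true)) (hzp : LOK3 tl dl zpL)
    (hm1 : LOK3 tl dl (fun E => msL E true)) (hm2 : LOK3 tl dl (fun E => msL E false)) :
    ∀ n : ℕ, ∀ T : SimpleGraph (Fin n), T.IsTree →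
      (∀ v, (T.neighborSet v).ncard ≤ 3 ∨
        {w ∈ T.neighborSet v | 2 ≤ (T.neighborSet w).ncard}.ncard ≤ 2) →
      ∃ D : Fin n → Fin n → Prop,
        (∀ u v, T.Adj u v → (D u v ∨ D v u)) ∧
        (∀ u v, D u v → (T.Adj u v ∧ ¬ D v u)) ∧
        ∀ m : ℕ, ∀ G : Fin m → Fin m → Prop,
          (∀ a, ¬ G a a) →
          (∀ a b, a ≠ b → (G a b ↔ ¬ G b a)) →
          (({f : Fin n → Fin m | ∀ u v, D u v → G (f u) (f v)}.ncard : ℝ) / (m : ℝ) ^ n
            ≤ ((1 : ℝ) / 2) ^ (T.edgeSet.ncard)) :=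
  fun n T hT h => TSM.asm_three_plus (cert3 hc hk hs hpos hr1 hr0 hun hlc hpc hzp hm1 hm2) n T hT h

end fields

end Pool.Agent.TSG
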