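import Pool.Agent.TSG.FamH
import Pool.Agent.TSG.Glue3
import Pool.Agent.TSM.LabF
import Pool.Agent.TSM.KindF

set_option autoImplicit false

/-!
# Families with an even number of children of the types `0`, `1`, `2` (MP_d27362_co)

The shapes of the lines are free: for every case of the labels there has to be a shape in the list
which is weaker than the facts of the case.
-/

namespace Pool.Agent.TSG

open Finset
open Pool.Agent.TSC
open Pool.Agent.TSM (q0 th RD Reg Sn NS Q5 Chd Spl FamS FamT FamO FamK FamKV LabD chd vU vY aU aY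
  c1 tau gU ExpF ExpE ItD fam OneCl eS0 eS1 LbE NRd RlB NR)
open Pool.Agent.TSR (OBr sg_true sg_false)
open Pool.Agent.TLT (sg)

/-! ### comparison of shapes -/

/-- the bits of a mask -/
def mskLe (a b : ℕ) : Bool := (List.range 8).all fun i => !(a.testBit i) || b.testBit i

/-- one known sum -/
def ekLe1 (b0 b : Bool) (l0 h0 l h : ℤ) : Bool :=
  !b || (b0 && (decide (l ≤ l0) && decide (h0 ≤ h)))

/-- the sums of the signs -/
def ekLe (S0 S : FS) : Bool :=
  ekLe1 (S0.ek.testBit 0) (S.ek.testBit 0) S0.e0l S0.e0h S.e0l S.e0h &&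
  (ekLe1 (S0.ek.testBit 1) (S.ek.testBit 1) S0.e1l S0.e1h S.e1l S.e1h &&
    ekLe1 (S0.ek.testBit 2) (S.ek.testBit 2) S0.eNl S0.eNh S.eNl S.eNh)

/-- the smallest possible number of children -/
def FS.qm (S : FS) : ℕ := if S.M = 0 then 4 else if 100 ≤ S.M then S.M - 100 else S.M

/-- the numbers of children with `τ = 1` -/
def cokLe (S0 S : FS) : Bool :=
  if S0.M = 0 ∨ 100 ≤ S0.M then Nat.beq S.cl 0 && (Nat.beq S.pa 2 || Nat.beq S.pa S0.pa)
  else (List.range (S0.M + 1)).all fun c => !(S0.cok c) || S.cok c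

/-- the second role -/
def nrLe (S0 S : FS) : Bool :=
  (Nat.beq S.nr S0.nr && (mskLe S.msk S0.msk && (Nat.ble S.nr 1 || eqD S.kN S0.kN))) ||
    (Nat.beq S.nr 0 && (Nat.beq S0.nr 1 && Nat.beq S.msk 0))

/-- every family of the shape `S0` is of the shape `S`, up to the region -/
def FS.imp (S0 S : FS) : Bool :=
  Nat.beq S0.tn S.tn && (Nat.beq S0.n S.n && (Nat.beq S0.xi S.xi && (Nat.beq S.td 0 &&
  ((!S0.z && !S.z) && ((Nat.beq S.M S0.M || ((Nat.beq S.M 0 && Nat.ble 4 S0.qm) ||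
    (Nat.ble 100 S.M && Nat.ble S.M (S0.qm + 100)))) &&
  (cokLe S0 S && (nrLe S0 S && (ekLe S0 S && ((!S.n3 || S0.n3) &&
  ((Nat.beq S.gs 0 || (Nat.beq S.gs S0.gs && Dec.nn (Dec.sub S.gm S0.gm))) &&
  (Dec.nn (Dec.sub S.f S0.f) && (Dec.nn (Dec.sub S.vm S0.vm) &&
  (Nat.ble 2 S.nr || (Dec.nn (Dec.sub S.fv S0.fv) && Dec.nn (Dec.sub S.fg S0.fg)))))))))))))))

variable {K : ℕ} {O : Fin K → OBr} {N : Finset (Fin K)} {σ e ρ : Fin K → Bool}
  {tc : Fin K → ℕ} {tl : List TC} {dl : List (Seg (Kn Dec))} {d : Seg (Kn Dec)} {D : ℝ}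

lemma ekLe1_sound {b0 b : Bool} {l0 h0 l h : ℤ} (hk : ekLe1 b0 b l0 h0 l h = true) {x : ℝ}
    (h1 : b0 = true → (l0 : ℝ) ≤ x ∧ x ≤ h0) (hb : b = true) : (l : ℝ) ≤ x ∧ x ≤ h := by
  unfold ekLe1 at hk
  rw [hb] at hk
  simp only [Bool.not_true, Bool.false_or, Bool.and_eq_true, decide_eq_true_eq] at hk
  obtain ⟨h2, h3, h4⟩ := hk
  obtain ⟨h5, h6⟩ := h1 h2
  have h3 : (l : ℝ) ≤ l0 := by exact_mod_cast h3
  have h4 : (h0 : ℝ) ≤ h := by exact_mod_cast h4
  exact ⟨h3.trans h5, h6.trans h4⟩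

lemma mskLe_sound {a b : ℕ} (h : mskLe a b = true) {i : ℕ} (hi : i < 8)
    (hb : b.testBit i = false) : a.testBit i = false := by
  unfold mskLe at h
  rw [List.all_eq_true] at h
  have h1 := h i (List.mem_range.mpr hi)
  rw [hb, Bool.or_false] at h1
  simpa using h1

lemma ex_lt (ty : ℕ) (b r : Bool) :
    (match ty with | 0 => 0 | _ => 4) + 2 * r.toNat + b.toNat < 8 := by
  rcases ty with _ | _ <;> cases b <;> cases r <;> simp

lemma ex_eq (S : FS) (ty : ℕ) (b r : Bool) :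
    S.ex ty b r = S.msk.testBit ((if ty = 0 then 0 else 4) + 2 * r.toNat + b.toNat) := by
  cases ty <;> rfl

/-- **a weaker shape** -/
theorem FH.imp {S0 S : FS} (h : FH S0 O N tc σ e ρ) (hi : S0.imp S = true)
    (hrg : S.rg.At O N) : FH S O N tc σ e ρ := by
  unfold FS.imp at hi
  simp only [Bool.and_eq_true] at hi
  obtain ⟨i1, i2, i3, i4, ⟨i5, i6⟩, i7, i8, i9, i10, i11, i12, i13, i14, i15⟩ := hi
  have i1 := Nat.eq_of_beq_eq_true i1
  have i2 := Nat.eq_of_beq_eq_true i2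
  have i4 := Nat.eq_of_beq_eq_true i4
  have i5 : S0.z = false := by simpa using i5
  have i6 : S.z = false := by simpa using i6
  have i13 := Dec.nn_iff i13
  have i14 := Dec.nn_iff i14
  rw [Dec.val_sub] at i13 i14
  have hnr : (2 ≤ S.nr ∧ 2 ≤ S0.nr) ∨ (S.nr < 2 ∧ S0.nr < 2) := by
    unfold nrLe at i9
    rw [Bool.or_eq_true] at i9
    simp only [Bool.and_eq_true] at i9
    rcases i9 with ⟨j1, _⟩ | ⟨j1, j2, _⟩
    · have := Nat.eq_of_beq_eq_true j1
      omega
    · have := Nat.eq_of_beq_eq_true j1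
      have := Nat.eq_of_beq_eq_true j2
      omega
  have hfv : (if 2 ≤ S0.nr then (N.card : ℝ) else S0.fv.val) ≤
      (if 2 ≤ S.nr then (N.card : ℝ) else S.fv.val) ∧
      (if 2 ≤ S0.nr then (N.card : ℝ) else S0.fg.val) ≤
      (if 2 ≤ S.nr then (N.card : ℝ) else S.fg.val) := by
    rcases hnr with ⟨j1, j2⟩ | ⟨j1, j2⟩
    · rw [if_pos j1, if_pos j2, if_pos j1, if_pos j2]
      exact ⟨le_rfl, le_rfl⟩
    · rw [if_neg (by omega), if_neg (by omega), if_neg (by omega), if_neg (by omega)]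
      rw [Bool.or_eq_true] at i15
      rcases i15 with j3 | j3
      · have := Nat.le_of_ble_eq_true j3
        omega
      · rw [Bool.and_eq_true] at j3
        have j4 := Dec.nn_iff j3.1
        have j5 := Dec.nn_iff j3.2
        rw [Dec.val_sub] at j4 j5
        exact ⟨by linarith, by linarith⟩
  have hcard : c1 O N ≤ N.card := card_filter_le _ _
  have hqm : S0.qm ≤ N.card := by
    unfold FS.qm
    rcases h.hN with ⟨j1, j2⟩ | ⟨j1, j2⟩ | ⟨j1, j2⟩ <;> split_ifs <;> omega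
  refine ⟨?_, ?_, by rw [← i2]; exact h.hn, ?_, h.hρ0, h.hρ1, h.ht, h.hA, ?_, ?_, ?_, hrg, ?_,
    fun h1 => absurd i4 h1, by rw [← i1]; exact h.hlo, by rw [← i1]; exact h.hhi⟩
  · have hS := famS_mono h.hS (f' := S.f.val) (vm' := S.vm.val) (by linarith) (by linarith)
      hfv.1 hfv.2
    rw [i5] at hS
    rw [i6, ← i2]
    exact hS
  · obtain ⟨r, r1, r2, r3, r4⟩ := h.hR
    unfold nrLe at i9
    rw [Bool.or_eq_true] at i9
    simp only [Bool.and_eq_true] at i9
    rcases i9 with ⟨j1, j2, j3⟩ | ⟨j1, j2, j3⟩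
    · have j1 := Nat.eq_of_beq_eq_true j1
      refine ⟨r, fun i hi => mskLe_sound j2 (ex_lt _ _ _) (r1 i hi), by rw [j1]; exact r2,
        by rw [j1]; exact r3, fun hn => ?_⟩
      rw [Bool.or_eq_true] at j3
      rcases j3 with j3 | j3
      · have := Nat.le_of_ble_eq_true j3
        omega
      · rw [eqD_iff j3]
        exact r4 (by rw [← j1]; exact hn)
    · exact roleH0 O N tc e (Nat.eq_of_beq_eq_true j1) (Nat.eq_of_beq_eq_true j3)
  · rw [Bool.or_eq_true, Bool.or_eq_true, Bool.and_eq_true, Bool.and_eq_true] at i7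
    rcases i7 with j1 | ⟨j1, j2⟩ | ⟨j1, j2⟩
    · have j1 := Nat.eq_of_beq_eq_true j1
      have := h.hN
      unfold ShN at this ⊢
      rw [j1]
      exact this
    · have j1 := Nat.eq_of_beq_eq_true j1
      have j2 := Nat.le_of_ble_eq_true j2
      exact Or.inl ⟨j1, j2.trans hqm⟩
    · have j1 := Nat.le_of_ble_eq_true j1
      have j2 := Nat.le_of_ble_eq_true j2
      exact Or.inr (Or.inr ⟨j1, by omega⟩)
  · intro h3
    rw [h3] at i11
    exact h.h3 (by simpa using i11)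
  · unfold ekLe at i10
    simp only [Bool.and_eq_true] at i10
    obtain ⟨j1, j2, j3⟩ := i10
    exact ⟨ekLe1_sound j1 h.hE.h0, ekLe1_sound j2 h.hE.h1, ekLe1_sound j3 h.hE.hN⟩
  · have hp := h.hpa
    unfold cokLe at i8
    split_ifs at i8 with hM
    · rw [Bool.and_eq_true, Bool.or_eq_true] at i8
      obtain ⟨j1, j2⟩ := i8
      have j1 := Nat.eq_of_beq_eq_true j1
      unfold FS.cok at hp ⊢
      rw [Bool.and_eq_true] at hp
      rw [j1]
      have j3 : parOk S.pa (c1 O N) = true := by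
        rcases j2 with j2 | j2
        · rw [Nat.eq_of_beq_eq_true j2]
          rfl
        · rw [Nat.eq_of_beq_eq_true j2]
          exact hp.1
      rw [j3]
      rfl
    · rw [List.all_eq_true] at i8
      have hN : N.card = S0.M := by
        rcases h.hN with ⟨j1, _⟩ | ⟨j1, _⟩ | ⟨j1, _⟩ <;> omega
      have h1 := i8 (c1 O N) (List.mem_range.mpr (by omega))
      rw [hp, Bool.not_true, Bool.false_or] at h1
      exact h1
  · rw [Bool.or_eq_true, Bool.and_eq_true] at i12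
    rcases i12 with j1 | ⟨j1, j2⟩
    · exact Or.inl (Nat.eq_of_beq_eq_true j1)
    · have j1 := Nat.eq_of_beq_eq_true j1
      have j2 := Dec.nn_iff j2
      rw [Dec.val_sub] at j2
      rw [j1]
      rcases h.hgs with j3 | ⟨j3, j4, j5⟩ | ⟨j3, j4, j5⟩
      · exact Or.inl j3
      · exact Or.inr (Or.inl ⟨j3, j4, by linarith⟩)
      · exact Or.inr (Or.inr ⟨j3, j4, by linarith⟩)

/-! ### the lines of one interval of the total mass -/

/-- the constants and the two lines of a shape for one interval of the total mass -/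
structure EvL (tl : List TC) (kd : ℕ) (dc : Seg (Kn Dec)) (S : FS) (k : KE) : Prop where
  h0 : EvK kd k dc
  hA : ∀ tc ∈ tl, tc.a.val + dc.a.val ≤ 1 / 2 → CellF S (ldA k) k.s tc dc
  hB : ∀ tc ∈ tl, tc.a.val + dc.a.val ≤ 1 / 2 → CellF S (ldB k) k.s tc dc

/-- there is a list for every family of the shape `S0` -/
def CovE (tl : List TC) (kd : ℕ) (dc : Seg (Kn Dec)) (S0 : FS) : Prop :=
  ∀ (K : ℕ) (O : Fin K → OBr) (N : Finset (Fin K)), ∃ (S : FS) (k : KE),
    S0.imp S = true ∧ S.rg.At O N ∧ EvL tl kd dc S k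

/-- no region -/
def Rg.free (r : Rg) : Bool := Nat.beq r.rg 0 && Nat.beq r.ru 0

/-- two regions cover everything -/
def Rg.co (r r' : Rg) : Bool :=
  (Nat.beq r.rg 1 && (Nat.beq r'.rg 2 && (Nat.beq r.ru 0 && (Nat.beq r'.ru 0 &&
    Dec.nn (Dec.sub r.sy r'.sy))))) ||
  (Nat.beq r.ru 1 && (Nat.beq r'.ru 2 && (Nat.beq r.rg 0 && (Nat.beq r'.rg 0 &&
    Dec.nn (Dec.sub r.su r'.su)))))

/-- the test that the shapes of a list cover the shape `S0` -/
def covT (S0 : FS) (L : List FS) : Bool :=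
  L.any fun S => S0.imp S && (S.rg.free || L.any fun S' => S0.imp S' && S.rg.co S'.rg)

theorem covT_sound {S0 : FS} {L : List FS} (h : covT S0 L = true) {kd : ℕ}
    {dc : Seg (Kn Dec)} (hL : ∀ S ∈ L, ∃ k, EvL tl kd dc S k) : CovE tl kd dc S0 := by
  intro K O N
  unfold covT at h
  rw [List.any_eq_true] at h
  obtain ⟨S, hS, h1⟩ := h
  rw [Bool.and_eq_true, Bool.or_eq_true] at h1
  obtain ⟨h1, h2⟩ := h1
  obtain ⟨k, hk⟩ := hL S hS
  rcases h2 with h2 | h2
  · unfold Rg.free at h2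
    rw [Bool.and_eq_true] at h2
    exact ⟨S, k, h1, ⟨Or.inl (Nat.eq_of_beq_eq_true h2.1), Or.inl (Nat.eq_of_beq_eq_true h2.2)⟩,
      hk⟩
  · rw [List.any_eq_true] at h2
    obtain ⟨S', hS', h3⟩ := h2
    rw [Bool.and_eq_true] at h3
    obtain ⟨h3, h4⟩ := h3
    obtain ⟨k', hk'⟩ := hL S' hS'
    unfold Rg.co at h4
    rw [Bool.or_eq_true] at h4
    simp only [Bool.and_eq_true] at h4
    rcases h4 with ⟨j1, j2, j3, j4, j5⟩ | ⟨j1, j2, j3, j4, j5⟩
    · have j1 := Nat.eq_of_beq_eq_true j1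
      have j2 := Nat.eq_of_beq_eq_true j2
      have j3 := Nat.eq_of_beq_eq_true j3
      have j4 := Nat.eq_of_beq_eq_true j4
      have j5 := Dec.nn_iff j5
      rw [Dec.val_sub] at j5
      rcases le_total (∑ i ∈ N, vY (O i)) S.rg.sy.val with j6 | j6
      · exact ⟨S, k, h1, ⟨Or.inr (Or.inl ⟨j1, j6⟩), Or.inl j3⟩, hk⟩
      · exact ⟨S', k', h3, ⟨Or.inr (Or.inr ⟨j2.ge, by linarith⟩), Or.inl j4⟩, hk'⟩
    · have j1 := Nat.eq_of_beq_eq_true j1
      have j2 := Nat.eq_of_beq_eq_true j2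
      have j3 := Nat.eq_of_beq_eq_true j3
      have j4 := Nat.eq_of_beq_eq_true j4
      have j5 := Dec.nn_iff j5
      rw [Dec.val_sub] at j5
      rcases le_total (∑ i ∈ N, vU (O i)) S.rg.su.val with j6 | j6
      · exact ⟨S, k, h1, ⟨Or.inl j3, Or.inr (Or.inl ⟨j1, j6⟩)⟩, hk⟩
      · exact ⟨S', k', h3, ⟨Or.inl j4, Or.inr (Or.inr ⟨j2.ge, by linarith⟩)⟩, hk'⟩

/-- the lines of a list of intervals -/
lemma evL_of {kd : ℕ} {S : FS} {k : ℕ → KE}
    (hk : ∀ dc ∈ dl, evOk kd (k dc.x.ix) dc = true)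
    (hA : LineOK tl dl S (fun x => ldA (k x.ix)) (fun ix => (k ix).s))
    (hB : LineOK tl dl S (fun x => ldB (k x.ix)) (fun ix => (k ix).s))
    {dc : Seg (Kn Dec)} (hdc : dc ∈ dl) : EvL tl kd dc S (k dc.x.ix) :=
  ⟨evOk_k (hk dc hdc), fun tc htc h => hA tc htc dc hdc h, fun tc htc h => hB tc htc dc hdc h⟩

/-- **one family of the shape `S0`** at one total mass -/
theorem evE_at (hc : covers tl dl = true) (hs : LOK tl dl sgnL) (hK : KOk (knAt dl d D) D)
    (hD : RD D) {kd : ℕ} (hkd : KdOk kd K) {S0 : FS} (htn : S0.tn = 0) (hxi : S0.xi = 0)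
    (hcov : CovE tl kd (pick dl d D) S0) (hF : FH S0 O N tc σ e ρ) :
    TSM.EvF2 (chiF dl d) D K (fun a => (TSM.UU (fam σ e O)).eval a)
        (fun a => (TSM.YY (fam σ e O)).eval a) (fun a => ∑ i, TSM.Vi (VV tl dl d) N tc O i D a)
        (fun a => VV tl dl d D a ((chd 0 (fam σ e O)).sn a))
        (fun a => PP' dl d D a ((chd 0 (fam σ e O)).sn a)) := by
  obtain ⟨S, k, h1, h2, h3⟩ := hcov K O N
  have htn' : S.tn = 0 := by
    unfold FS.imp at h1
    simp only [Bool.and_eq_true] at h1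
    rw [← Nat.eq_of_beq_eq_true h1.1]
    exact htn
  have hxi' : S.xi = 0 := by
    unfold FS.imp at h1
    simp only [Bool.and_eq_true] at h1
    rw [← Nat.eq_of_beq_eq_true h1.2.2.1]
    exact hxi
  have key : ∀ (lf : LD Dec), (∀ tc ∈ tl, tc.a.val + (pick dl d D).a.val ≤ 1 / 2 →
      CellF S lf k.s tc (pick dl d D)) →
      LineOK tl [pick dl d D] S (fun _ => lf) (fun _ => k.s) := by
    intro lf h tc htc dc hdc hh
    rw [List.mem_singleton] at hdc
    subst hdc
    exact h tc htc hh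
  exact evF_at hc hs hK hD (List.mem_singleton_self _) htn' hxi' hkd (fun _ => k)
    (fun dc hdc => by rw [List.mem_singleton.1 hdc]; exact h3.h0) (key _ h3.hA) (key _ h3.hB)
    (hF.imp h1 h2)

/-! ### the cases -/

/-- the cases of the labels -/
inductive ECs
  | one | S | A | N | P0 | P1 | PA | PB | T0 | T1
  deriving DecidableEq

/-- the data of a case -/
structure CD where
  /-- the label of the new vertex -/
  n : ℕ
  /-- the sign of the value of `G` -/
  gs : ℕ
  /-- the bound of the value of `G` -/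
  gm : ℕ
  /-- the factor of the norm -/
  fv : ℕ
  /-- the second role -/
  nr : ℕ
  /-- the known sums -/
  ek : ℕ
  /-- bound of the sum over `τ = 1` -/
  l1 : ℤ
  /-- bound of the sum over `τ = 1` -/
  h1 : ℤ
  /-- bound of the sum over `τ = 0` -/
  l0 : ℤ
  /-- bound of the sum over `τ = 0` -/
  h0 : ℤ

/-- the data of the cases -/
def ECs.cd : ECs → CD
  | .one => ⟨1, 0, 2, 1, 0, 3, 1, 1, -2, 1⟩
  | .S => ⟨0, 1, 2, 1, 0, 3, 0, 0, -1, 1⟩
  | .A => ⟨0, 1, 2, 2, 0, 3, 0, 0, -1, 1⟩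
  | .N => ⟨0, 1, 4, 2, 2, 3, 0, 0, -1, 1⟩
  | .P0 => ⟨0, 1, 2, 1, 0, 3, -1, 1, -2, 2⟩
  | .P1 => ⟨1, 2, 2, 1, 0, 3, 0, 0, -1, 1⟩
  | .PA => ⟨1, 2, 2, 2, 0, 3, 0, 0, -1, 1⟩
  | .PB => ⟨1, 0, 2, 1, 1, 3, 0, 2, -2, 0⟩
  | .T0 => ⟨0, 1, 2, 1, 0, 4, 0, 0, 0, 0⟩
  | .T1 => ⟨1, 2, 2, 1, 0, 4, 0, 0, 0, 0⟩

/-- the excluded signs and second roles of the second arrangement -/
def mskB (m c : ℕ) : ℕ :=
  (if c ≤ 2 then 64 else 0) ||| ((if m - c ≤ 2 then 8 else 0) ||| (if m - c = 1 then 3 else 0))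

/-- the excluded signs and second roles of a case -/
def ECs.mk : ECs → ℕ → ℕ → ℕ
  | .PB, m, c => mskB m c
  | _, _, _ => 0

/-- the position of a sign and a second role in the masks -/
noncomputable def cbit (O : Fin K → OBr) (i : Fin K) (b r : Bool) : ℕ :=
  (if tau (O i) = 0 then 0 else 4) + 2 * r.toNat + b.toNat

/-- the facts of a case -/
structure EFact (κ : ℝ) (m : ℕ) (k : ECs) {K : ℕ} (O : Fin K → OBr) (N : Finset (Fin K))
    (e : Fin K → Bool) (fv fg : ℝ) : Prop where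
  hL : LabD O e k.cd.n ((k.cd.gm : ℝ) ^ 2) fv fg
  hfv : if 2 ≤ k.cd.nr then fv ≤ m else fv ≤ k.cd.fv
  hfg : if 2 ≤ k.cd.nr then fg ≤ m else fg ≤ 2
  a1 : k.cd.ek = 3 → (k.cd.l1 : ℝ) ≤ eS1 O N e ∧ eS1 O N e ≤ k.cd.h1
  a0 : k.cd.ek = 3 → (k.cd.l0 : ℝ) ≤ eS0 O N e ∧ eS0 O N e ≤ k.cd.h0
  aN : k.cd.ek = 4 → ∑ i ∈ N, sg (e i) = 0
  g1 : k.cd.gs = 1 → (gU e O).eval q0 ≤ 0
  g2 : k.cd.gs = 2 → 0 ≤ (gU e O).eval q0
  hr : ∃ r : Fin K → Bool, (k.cd.nr = 0 → ∀ i ∈ N, r i = true) ∧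
    (k.cd.nr ≠ 0 → 2 ≤ ∑ i ∈ N, sg (r i) * vU (O i) ∧ eS1 O N r = 0 ∧ 0 ≤ eS0 O N r) ∧
    (2 ≤ k.cd.nr → NR O e r κ) ∧
    ∀ i ∈ N, (k.mk m (c1 O N)).testBit (cbit O i (e i) (r i)) = false

lemma LbE.fact {κ : ℝ} {k : ECs} {fv l1 h1 l0 h0 : ℝ} {n gs m : ℕ}
    (h : LbE O N e n gs fv l1 h1 l0 h0) (hn : k.cd.n = n) (hgm : k.cd.gm = 2)
    (hfv : fv ≤ k.cd.fv) (hnr : k.cd.nr = 0) (hek : k.cd.ek = 3) (hgs : k.cd.gs = gs)
    (q1 : (k.cd.l1 : ℝ) ≤ l1) (q2 : h1 ≤ k.cd.h1) (q3 : (k.cd.l0 : ℝ) ≤ l0) (q4 : h0 ≤ k.cd.h0)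
    (hmk : k.mk m (c1 O N) = 0) : EFact κ m k O N e fv 2 := by
  refine ⟨?_, by rw [if_neg (by omega)]; exact hfv, by rw [if_neg (by omega)],
    fun _ => ⟨q1.trans h.a1, h.b1.trans q2⟩, fun _ => ⟨q3.trans h.a0, h.b0.trans q4⟩,
    fun h => by omega, fun h1 => h.g1 (by omega), fun h1 => h.g2 (by omega),
    fun _ => true, fun _ _ _ => rfl, fun h => absurd hnr h, fun h => by omega, fun i _ => ?_⟩
  · rw [hn, hgm]
    have := h.hL
    norm_num
    exact this
  · rw [hmk, Nat.zero_testBit]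

/-- the cases without the path -/
def casN (m c : ℕ) : List ECs :=
  if c % 2 = 1 then [.one] else if c = 0 ∨ c = m then [.S] else [.A, .N]

/-- the cases with the path -/
def casP (m c : ℕ) : List ECs :=
  if m = 2 then (if c % 2 = 1 then [.T0] else [.T1])
  else if c % 2 = 1 then [.P0] else if c = 0 ∨ c = m then [.P1] else [.PA, .PB]

/-- **the labels without the path** -/
theorem fact_N {lf : Bool} {m : ℕ} (hI : ItD lf false m O N) (hO : FamO O N) {κ : ℝ}
    (hκ : 0 ≤ κ) : ∃ k ∈ casN m (c1 O N), k.cd.n = (false.toNat + c1 O N) % 2 ∧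
      ∃ e fv fg, EFact κ m k O N e fv fg := by
  unfold casN
  rw [Bool.toNat_false, zero_add]
  rcases Nat.even_or_odd (c1 O N) with hc | hc
  · have hc2 := Nat.even_iff.mp hc
    rw [if_neg (by omega), hc2]
    by_cases hS : OneCl m (c1 O N)
    · rw [if_pos (show c1 O N = 0 ∨ c1 O N = m from hS)]
      obtain ⟨e, he⟩ := TSM.lbE_S hI hO hc hS
      exact ⟨.S, by simp, rfl, e, 1, 2, LbE.fact he rfl rfl (by simp [ECs.cd]) rfl rfl rfl
        (by simp [ECs.cd]) (by simp [ECs.cd]) (by simp [ECs.cd]) (by simp [ECs.cd]) rfl⟩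
    · rw [if_neg (show ¬ (c1 O N = 0 ∨ c1 O N = m) from hS)]
      rcases TSM.lbE_AN hI hO hc hκ with ⟨e, he⟩ | ⟨e, r, hr, he, b1, b2, b3⟩
      · exact ⟨.A, by simp, rfl, e, 2, 2, LbE.fact he rfl rfl (by simp [ECs.cd]) rfl rfl rfl
          (by simp [ECs.cd]) (by simp [ECs.cd]) (by simp [ECs.cd]) (by simp [ECs.cd]) rfl⟩
      · refine ⟨.N, by simp, rfl, e, m, m, ?_, ?_, ?_, ?_, ?_, ?_, ?_, ?_, r, ?_, ?_, ?_, ?_⟩
        · show LabD O e 0 (((4 : ℕ) : ℝ) ^ 2) m m
          norm_num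
          exact he
        · simp [ECs.cd]
        · simp [ECs.cd]
        · intro _
          rw [b1]
          simp [ECs.cd]
        · intro _
          constructor
          · simpa [ECs.cd] using b2
          · simpa [ECs.cd] using b3
        · intro h
          simp [ECs.cd] at h
        · exact fun _ => he.G0
        · intro h
          simp [ECs.cd] at h
        · intro h
          simp [ECs.cd] at h
        · intro _
          have h6 := hr.hN.h6
          have h7 : ∑ i, sg (r i) * vU (O i) = ∑ i ∈ N, sg (r i) * vU (O i) := by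
            rw [← sum_subset (subset_univ N)]
            intro i _ hi
            unfold vU
            rw [hO.UU0 hi, Polynomial.eval_zero, mul_zero]
          rw [h7] at h6
          refine ⟨h6, hr.hr1, ?_⟩
          rcases Nat.even_or_odd m with hm | hm
          · exact (hr.hr0 hm).ge
          · have := hr.hr0' hm
            show 0 ≤ ∑ i ∈ N.filter (fun i => ¬ tau (O i) = 1), sg (r i)
            rw [this]
            exact zero_le_one
        · exact fun _ => hr.hN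
        · intro i _
          exact Nat.zero_testBit _
  · have hc2 := Nat.odd_iff.mp hc
    rw [if_pos hc2, hc2]
    obtain ⟨e, he⟩ := TSM.lbE_one hI hO hc
    exact ⟨.one, by simp, rfl, e, 1, 2, LbE.fact he rfl rfl (by simp [ECs.cd]) rfl rfl rfl
      (by simp [ECs.cd]) (by simp [ECs.cd]) (by simp [ECs.cd]) (by simp [ECs.cd]) rfl⟩

/-- the masks of the second arrangement -/
lemma mskB_ok {m : ℕ} (hO : FamO O N) (hm : N.card = m) {r : Fin K → Bool}
    (h : RlB m O N e r) :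
    ∀ i ∈ N, (mskB m (c1 O N)).testBit (cbit O i (e i) (r i)) = false := by
  intro i hi
  have h1 := h.x1
  have h0 := h.x0
  have hcard : m - c1 O N = 1 → ¬ tau (O i) = 1 → r i = true := by
    intro h2 h3
    have e1 : (N.filter fun i => ¬ tau (O i) = 1).card = 1 := by
      have := card_filter_add_card_filter_not (s := N) (fun i => tau (O i) = 1)
      rw [hm] at this
      have e2 : (N.filter fun i => tau (O i) = 1).card = c1 O N := rfl
      omega
    obtain ⟨a, ha⟩ := card_eq_one.1 e1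
    have hia : i = a := by
      have : i ∈ N.filter fun i => ¬ tau (O i) = 1 := mem_filter.2 ⟨hi, h3⟩
      rw [ha] at this
      exact mem_singleton.1 this
    have h4 := h.r0' (by rw [h2]; exact odd_one)
    unfold eS0 at h4
    rw [ha, sum_singleton, ← hia] at h4
    by_contra h5
    rw [Bool.not_eq_true] at h5
    rw [h5, TSR.sg_ff] at h4
    norm_num at h4
  have hb : ∀ (x : Prop) [Decidable x] (a i : ℕ),
      (if x then a else 0).testBit i = (decide x && a.testBit i) := by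
    intro x _ a i
    by_cases hx : x
    · simp [hx]
    · simp [hx]
  unfold mskB cbit
  rw [Nat.testBit_or, Nat.testBit_or, hb, hb, hb]
  rcases (hO.hI i).1 with ht | ht
  · rw [if_pos ht]
    have ht' : ¬ tau (O i) = 1 := by rw [ht]; norm_num
    cases hr : r i
    · have h2 : ¬ (m - c1 O N = 1) := fun h3 => by
        have := hcard h3 ht'
        rw [hr] at this
        exact absurd this (by decide)
      cases he : e i <;> simp [h2, Nat.testBit]
    · by_cases h2 : m - c1 O N ≤ 2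
      · have h3 := h0 h2 i hi ht' hr
        rw [h3]
        simp [Nat.testBit]
      · cases he : e i <;> simp [h2, Nat.testBit]
  · rw [if_neg (by rw [ht]; norm_num)]
    cases hr : r i
    · cases he : e i <;> simp [Nat.testBit]
    · by_cases h2 : c1 O N ≤ 2
      · have h3 := h1 h2 i hi ht hr
        rw [h3]
        simp [Nat.testBit]
      · cases he : e i <;> simp [h2, Nat.testBit]

/-- **the labels with the path** -/
theorem fact_P {lf : Bool} {m : ℕ} (hI : ItD lf true m O N) (hO : FamO O N) (κ : ℝ) :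
    ∃ k ∈ casP m (c1 O N), k.cd.n = (true.toNat + c1 O N) % 2 ∧
      ∃ e fv fg, EFact κ m k O N e fv fg := by
  unfold casP
  by_cases hm : m = 2
  · subst hm
    rw [if_pos rfl]
    obtain ⟨e, n, hn, hL, g1, g2, hs⟩ := TSM.labD_twoE hI hO
    rw [Bool.toNat_true] at hn ⊢
    have key : ∀ k : ECs, k.cd.n = n → k.cd.gm = 2 → k.cd.fv = 1 → k.cd.nr = 0 →
        k.cd.ek = 4 → (k.cd.gs = 1 → n = 0) → (k.cd.gs = 2 → n = 1) →
        k.mk 2 (c1 O N) = 0 → EFact κ 2 k O N e 1 2 := by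
      intro k k1 k2 k3 k4 k5 k6 k7 k8
      refine ⟨?_, by rw [if_neg (by omega), k3, Nat.cast_one], by rw [if_neg (by omega)],
        fun h => by omega, fun h => by omega, fun _ => hs, fun h => g1 (k6 h),
        fun h => g2 (k7 h), fun _ => true, fun _ _ _ => rfl, fun h => absurd k4 h,
        fun h => by omega, fun i _ => by rw [k8, Nat.zero_testBit]⟩
      rw [k1, k2]
      norm_num
      exact hL
    rcases Nat.mod_two_eq_zero_or_one (c1 O N) with hc | hc
    · have hn1 : n = 1 := by omega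
      rw [if_neg (by omega)]
      exact ⟨.T1, by simp, by rw [← hn, hn1]; rfl, e, 1, 2,
        key _ (by rw [hn1]; rfl) rfl rfl rfl rfl (fun h => by simp [ECs.cd] at h)
          (fun _ => hn1) rfl⟩
    · have hn1 : n = 0 := by omega
      rw [if_pos hc]
      exact ⟨.T0, by simp, by rw [← hn, hn1]; rfl, e, 1, 2,
        key _ (by rw [hn1]; rfl) rfl rfl rfl rfl (fun _ => hn1)
          (fun h => by simp [ECs.cd] at h) rfl⟩
  rw [if_neg hm, Bool.toNat_true]
  rcases Nat.even_or_odd (c1 O N) with hc | hc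
  · have hc2 := Nat.even_iff.mp hc
    have hc3 : (1 + c1 O N) % 2 = 1 := by omega
    rw [if_neg (by omega), hc3]
    by_cases hS : OneCl m (c1 O N)
    · rw [if_pos (show c1 O N = 0 ∨ c1 O N = m from hS)]
      obtain ⟨e, he⟩ := TSM.lbE_P1 hI hO hc hS
      exact ⟨.P1, by simp, rfl, e, 1, 2, LbE.fact he rfl rfl (by simp [ECs.cd]) rfl rfl rfl
        (by simp [ECs.cd]) (by simp [ECs.cd]) (by simp [ECs.cd]) (by simp [ECs.cd]) rfl⟩
    · rw [if_neg (show ¬ (c1 O N = 0 ∨ c1 O N = m) from hS)]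
      rcases TSM.lbE_AB hI hO hc with ⟨e, he⟩ | ⟨e, r, he, hr⟩
      · exact ⟨.PA, by simp, rfl, e, 2, 2, LbE.fact he rfl rfl (by simp [ECs.cd]) rfl rfl rfl
          (by simp [ECs.cd]) (by simp [ECs.cd]) (by simp [ECs.cd]) (by simp [ECs.cd]) rfl⟩
      · refine ⟨.PB, by simp, rfl, e, 1, 2, ?_, ?_, ?_, ?_, ?_, ?_, ?_, ?_, r, ?_, ?_, ?_, ?_⟩
        · show LabD O e 1 (((2 : ℕ) : ℝ) ^ 2) 1 2
          norm_num
          exact he.hL
        · simp [ECs.cd]
        · simp [ECs.cd]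
        · intro _
          exact ⟨by simpa [ECs.cd] using he.a1, by simpa [ECs.cd] using he.b1⟩
        · intro _
          exact ⟨by simpa [ECs.cd] using he.a0, by simpa [ECs.cd] using he.b0⟩
        · intro h
          simp [ECs.cd] at h
        · intro h
          simp [ECs.cd] at h
        · intro h
          simp [ECs.cd] at h
        · intro h
          simp [ECs.cd] at h
        · intro _
          refine ⟨hr.h2, hr.r1, ?_⟩
          rcases Nat.even_or_odd (m - c1 O N) with h | h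
          · exact (hr.r0 h).ge
          · rw [hr.r0' h]
            exact zero_le_one
        · intro h
          simp [ECs.cd] at h
        · exact mskB_ok hO hI.hN hr
  · have hc2 := Nat.odd_iff.mp hc
    have hc3 : (1 + c1 O N) % 2 = 0 := by omega
    rw [if_pos hc2, hc3]
    obtain ⟨e, he⟩ := TSM.lbE_path0 hI hO hc
    exact ⟨.P0, by simp, rfl, e, 1, 2, LbE.fact he rfl rfl (by simp [ECs.cd]) rfl rfl rfl
      (by simp [ECs.cd]) (by simp [ECs.cd]) (by simp [ECs.cd]) (by simp [ECs.cd]) rfl⟩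

/-- **the labels** -/
theorem fact_T {lf tw : Bool} {m : ℕ} (hI : ItD lf tw m O N) (hO : FamO O N) {κ : ℝ}
    (hκ : 0 ≤ κ) : ∃ k ∈ (if tw then casP m (c1 O N) else casN m (c1 O N)),
      k.cd.n = (tw.toNat + c1 O N) % 2 ∧ ∃ e fv fg, EFact κ m k O N e fv fg := by
  cases tw
  · exact fact_N hI hO hκ
  · exact fact_P hI hO κ

/-! ### the sharp shapes -/

/-- cut a lower bound to the parity and the number of the signs -/
def shl (l : ℤ) (c : ℕ) : ℤ :=
  if (max l (-(c : ℤ)) - c) % 2 = 0 then max l (-(c : ℤ)) else max l (-(c : ℤ)) + 1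

/-- cut an upper bound to the parity and the number of the signs -/
def shh (h : ℤ) (c : ℕ) : ℤ :=
  if (min h (c : ℤ) - c) % 2 = 0 then min h (c : ℤ) else min h (c : ℤ) - 1

lemma sg_sum_int (A : Finset (Fin K)) (e : Fin K → Bool) : ∃ z : ℤ,
    ∑ i ∈ A, sg (e i) = (z : ℝ) ∧ (z - A.card) % 2 = 0 ∧ -(A.card : ℤ) ≤ z ∧
      z ≤ (A.card : ℤ) := by
  have h0 := card_filter_le A (fun i => e i = true)
  refine ⟨2 * ((A.filter fun i => e i = true).card : ℤ) - A.card, ?_, by omega, by omega,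
    by omega⟩
  have h1 : ∀ i, sg (e i) = 2 * (if e i = true then (1 : ℝ) else 0) - 1 := by
    intro i
    cases e i
    · rw [TSR.sg_ff]
      norm_num
    · rw [TSR.sg_tt]
      norm_num
  rw [sum_congr rfl fun i _ => h1 i, sum_sub_distrib, ← mul_sum, sum_boole]
  push_cast
  simp

lemma shl_le {A : Finset (Fin K)} {e : Fin K → Bool} {l : ℤ} {c : ℕ} (hc : A.card = c)
    (h : (l : ℝ) ≤ ∑ i ∈ A, sg (e i)) : ((shl l c : ℤ) : ℝ) ≤ ∑ i ∈ A, sg (e i) := by
  obtain ⟨z, h1, h2, h3, h4⟩ := sg_sum_int A e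
  rw [h1] at h ⊢
  rw [hc] at h2 h3 h4
  have h : l ≤ z := by exact_mod_cast h
  have h5 : shl l c ≤ z := by
    unfold shl
    rcases max_choice l (-(c : ℤ)) with h6 | h6 <;> rw [h6] <;> split_ifs <;> omega
  exact_mod_cast h5

lemma le_shh {A : Finset (Fin K)} {e : Fin K → Bool} {l : ℤ} {c : ℕ} (hc : A.card = c)
    (h : ∑ i ∈ A, sg (e i) ≤ (l : ℝ)) : ∑ i ∈ A, sg (e i) ≤ ((shh l c : ℤ) : ℝ) := by
  obtain ⟨z, h1, h2, h3, h4⟩ := sg_sum_int A e
  rw [h1] at h ⊢
  rw [hc] at h2 h3 h4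
  have h : z ≤ l := by exact_mod_cast h
  have h5 : z ≤ shh l c := by
    unfold shh
    rcases min_choice l (c : ℤ) with h6 | h6 <;> rw [h6] <;> split_ifs <;> omega
  exact_mod_cast h5

/-- the shape of a case -/
def shE (κ : Dec) (M cl pa : ℕ) (z0 z1 : Bool) (x : ℕ) (C : CD) (l1 h1 l0 h0 : ℤ) : FS where
  tn := 0
  n := C.n
  M := M
  xi := 0
  pa := pa
  rg := rg0
  gs := C.gs
  td := 0
  f := Dec.nsm 2 Dec.one
  vm := Dec.nsm (C.gm ^ 2) Dec.one
  fv := Dec.nsm C.fv Dec.one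
  gm := Dec.nsm C.gm Dec.one
  fg := Dec.nsm 2 Dec.one
  z := false
  nr := C.nr
  kN := κ
  msk := (if z0 then 240 else 0) ||| ((if z1 then 15 else 0) ||| x)
  cl := cl
  ek := C.ek
  e0l := l0
  e0h := h0
  e1l := l1
  e1h := h1
  eNl := 0
  eNh := 0
  n3 := true

lemma bif_bit (b : Bool) (a i : ℕ) :
    (if b then a else 0 : ℕ).testBit i = (b && a.testBit i) := by
  cases b
  · simp
  · simp

/-- **the facts of a case give the hypothesis of the lines** -/
theorem fh_shE {Y : TSM.Sys} {V P : ℝ → ℝ → Sn → ℝ} {lf tw : Bool} {m M cl pa x : ℕ}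
    {z0 z1 : Bool} {κ : Dec} {k : ECs} {l1 h1 l0 h0 : ℤ} {fv fg : ℝ}
    (hf : EFact κ.val m k O N e fv fg)
    (hF : FamKV Y Adm3 V P lf tw m O N tc σ e ρ k.cd.n ((k.cd.gm : ℝ) ^ 2) fv fg)
    (hM : ShM M m) (hpa : pa = 2 ∨ pa = (k.cd.n + tw.toNat) % 2)
    (hcl : cl = 0 ∨ cl.testBit (c1 O N) = true) (hz0 : z0 = true → c1 O N = 0)
    (hz1 : z1 = true → c1 O N = m)
    (hx : ∀ j, (k.mk m (c1 O N)).testBit j = false → x.testBit j = false)
    (b1 : k.cd.ek = 3 → (l1 : ℝ) ≤ eS1 O N e ∧ eS1 O N e ≤ h1)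
    (b0 : k.cd.ek = 3 → (l0 : ℝ) ≤ eS0 O N e ∧ eS0 O N e ≤ h0) :
    FH (shE κ M cl pa z0 z1 x k.cd l1 h1 l0 h0) O N tc σ e ρ := by
  have hI := hF.hI
  have hT := hF.hT
  have hcard := hI.hN
  have htau : ∀ i, tau (O i) = 0 ∨ tau (O i) = 1 := fun i => (hT.hO.hI i).1
  have hek : k.cd.ek = 3 ∨ k.cd.ek = 4 := by cases k <;> simp [ECs.cd]
  have hgs : k.cd.gs ≤ 2 := by cases k <;> simp [ECs.cd]
  have f0 : N.filter (fun i => tc i = 0) = N.filter (fun i => ¬ tau (O i) = 1) := by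
    refine filter_congr fun i hi => ?_
    rw [hT.ht i hi]
    rcases htau i with h | h <;> rw [h] <;> norm_num
  have f1 : N.filter (fun i => ¬ tc i = 0) = N.filter (fun i => tau (O i) = 1) := by
    refine filter_congr fun i hi => ?_
    rw [hT.ht i hi]
    rcases htau i with h | h <;> rw [h] <;> norm_num
  have hd : ∀ n : ℕ, (Dec.nsm n Dec.one).val = n := fun n => by
    rw [Dec.val_nsm, Dec.val_one, mul_one]
  have hG : |(gU e O).eval q0| ≤ k.cd.gm := by
    have h2 := hf.hL.hG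
    exact abs_le_of_sq_le_sq h2 (Nat.cast_nonneg _)
  have hG := abs_le.mp hG
  refine fhE_of (fun ty vU vY aU aY h => ?_) hI hT hF.hn hF.hρ0 hF.hρ1 hF.hInv
    (hF.hS N.card (by rw [hcard])) rfl rfl ?_ ?_ ?_ ?_ ?_ hM (fun _ i hi => (hT.hA i hi).1) ?_
    hpa hcl (rg0_at O N) (fun h => absurd rfl h) ?_
  · have h1 := h.1
    refine ⟨fun h2 => h.2 ?_, fun h2 => by omega⟩
    omega
  · show (2 : ℝ) ≤ (Dec.nsm 2 Dec.one).val
    rw [hd]
    norm_num
  · show ((k.cd.gm : ℝ)) ^ 2 ≤ (Dec.nsm (k.cd.gm ^ 2) Dec.one).val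
    rw [hd]
    push_cast
    exact le_rfl
  · show if 2 ≤ k.cd.nr then fv ≤ N.card else fv ≤ (Dec.nsm k.cd.fv Dec.one).val
    rw [hd, hcard]
    exact hf.hfv
  · show if 2 ≤ k.cd.nr then fg ≤ N.card else fg ≤ (Dec.nsm 2 Dec.one).val
    rw [hd, hcard]
    exact_mod_cast hf.hfg
  · obtain ⟨r, r1, r2, r3, r4⟩ := hf.hr
    refine ⟨r, fun i hi => ?_, r1, fun h => ?_, fun h => ⟨?_, r3 h⟩⟩
    · have hc : (if tc i = 0 then 0 else 4) + 2 * (r i).toNat + (e i).toNat =
          cbit O i (e i) (r i) := by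
        unfold cbit
        rw [if_congr (hT.ht i hi) rfl rfl]
      rw [ex_eq, hc]
      unfold shE
      rw [Nat.testBit_or, Nat.testBit_or, bif_bit, bif_bit, hx _ (r4 i hi), Bool.or_false]
      have q0 : (z0 && (240 : ℕ).testBit (cbit O i (e i) (r i))) = false := by
        cases hz : z0
        · rfl
        · have h3 := hz0 hz
          have h4 : tau (O i) = 0 := by
            refine (htau i).resolve_right fun h5 => ?_
            have : i ∈ N.filter fun i => tau (O i) = 1 := mem_filter.2 ⟨hi, h5⟩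
            rw [card_eq_zero.1 h3] at this
            exact absurd this (notMem_empty i)
          unfold cbit
          rw [if_pos h4]
          cases e i <;> cases r i <;> decide
      have q1 : (z1 && (15 : ℕ).testBit (cbit O i (e i) (r i))) = false := by
        cases hz : z1
        · rfl
        · have h3 := hz1 hz
          have h4 : ¬ tau (O i) = 0 := by
            intro h5
            have h6 : N.filter (fun i => tau (O i) = 1) = N :=
              eq_of_subset_of_card_le (filter_subset _ _) (by rw [hcard]; exact h3.ge)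
            have h7 : i ∈ N.filter fun i => tau (O i) = 1 := by rw [h6]; exact hi
            have := (mem_filter.1 h7).2
            rw [h5] at this
            norm_num at this
          unfold cbit
          rw [if_neg h4]
          cases e i <;> cases r i <;> decide
      rw [q0, q1]
      rfl
    · obtain ⟨h2, h3, h4⟩ := r2 h
      refine ⟨h2, ?_, ?_⟩
      · rw [f0]
        exact h4
      · rw [f1]
        exact h3.ge
    · rw [f1]
      exact (r2 (by
        have h' : 2 ≤ k.cd.nr := h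
        omega)).2.1
  · constructor
    · intro h
      rw [f0]
      rcases hek with h2 | h2
      · exact b0 h2
      · have h3 : (k.cd.ek).testBit 0 = true := h
        rw [h2] at h3
        exact absurd h3 (by decide)
    · intro h
      rw [f1]
      rcases hek with h2 | h2
      · exact b1 h2
      · have h3 : (k.cd.ek).testBit 1 = true := h
        rw [h2] at h3
        exact absurd h3 (by decide)
    · intro h
      rcases hek with h2 | h2
      · have h3 : (k.cd.ek).testBit 2 = true := h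
        rw [h2] at h3
        exact absurd h3 (by decide)
      · rw [hf.aN h2]
        show ((0 : ℤ) : ℝ) ≤ 0 ∧ (0 : ℝ) ≤ ((0 : ℤ) : ℝ)
        norm_num
  · show GSg k.cd.gs (Dec.nsm k.cd.gm Dec.one).val _
    rw [hd]
    by_cases h0 : k.cd.gs = 0
    · exact Or.inl h0
    · by_cases h1 : k.cd.gs = 1
      · exact Or.inr (Or.inl ⟨h1, hf.g1 h1, hG.1⟩)
      · exact Or.inr (Or.inr ⟨by omega, hf.g2 (by omega), hG.2⟩)

/-- the sharpest shape of a case for exactly `m` nontrivial children, `c` of them with `τ = 1` -/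
def shX (κ : Dec) (m c : ℕ) (k : ECs) : FS :=
  shE κ m (2 ^ c) 2 (c == 0) (c == m) (k.mk m c) k.cd (shl k.cd.l1 c) (shh k.cd.h1 c)
    (shl k.cd.l0 (m - c)) (shh k.cd.h0 (m - c))

/-- the shape of a case for any number of nontrivial children, `M = 0` for at least four,
`M = 100 + q` for at least `q` -/
def shAny (κ : Dec) (M pa : ℕ) (z0 z1 : Bool) (k : ECs) : FS :=
  shE κ M 0 pa z0 z1 0 k.cd k.cd.l1 k.cd.h1 k.cd.l0 k.cd.h0

/-- all cases for exactly `m` nontrivial children -/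
def shLX (κ : Dec) (tw : Bool) (m : ℕ) : List FS :=
  (List.range (m + 1)).flatMap fun c =>
    (if tw then casP m c else casN m c).map (shX κ m c)

/-- all cases for any number of nontrivial children -/
def shLA (κ : Dec) (M : ℕ) (tw : Bool) : List FS :=
  if tw then [shAny κ M 1 false false .P0, shAny κ M 0 true false .P1,
    shAny κ M 0 false true .P1, shAny κ M 0 false false .PA, shAny κ M 0 false false .PB]
  else [shAny κ M 1 false false .one, shAny κ M 0 true false .S, shAny κ M 0 false true .S,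
    shAny κ M 0 false false .A, shAny κ M 0 false false .N]

/-- **one kind, exact number of children** -/
theorem poT_X (hc : covers tl dl = true) (hs : LOK tl dl sgnL)
    (hk : ∀ D, RD D → KOk (knAt dl d D) D) {lf tw : Bool} {m kd : ℕ}
    (hev : Even (lf.toNat + tw.toNat + m)) (hm : 2 ≤ m)
    (hkd : KdOk kd (lf.toNat + tw.toNat + m)) {κ : Dec} (hκ : 0 ≤ κ.val)
    (H : ∀ dc ∈ dl, ∀ S0 ∈ shLX κ tw m, CovE tl kd dc S0) :
    TSM.PoT (sysE (chiF dl d) (chi_nonneg hk)) Adm3 (VV tl dl d) (PP' dl d) lf tw m := by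
  intro K O N tc hI hT
  have hK : Even K := by rw [hI.hK]; exact hev
  have hK0 : 0 < K := by rw [hI.hK]; omega
  obtain ⟨k, hkm, hn, e, fv, fg, hf⟩ := fact_T hI hT.hO hκ
  have hcm : c1 O N ≤ m := by
    rw [← hI.hN]
    exact TSM.c1_le O N
  have hc0 : (N.filter fun i => ¬ tau (O i) = 1).card = m - c1 O N := by
    have := card_filter_add_card_filter_not (s := N) (fun i => tau (O i) = 1)
    rw [hI.hN] at this
    have e2 : (N.filter fun i => tau (O i) = 1).card = c1 O N := rfl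
    omega
  have hmem : shX κ m (c1 O N) k ∈ shLX κ tw m := by
    unfold shLX
    rw [List.mem_flatMap]
    exact ⟨c1 O N, List.mem_range.mpr (by omega), List.mem_map.2 ⟨k, hkm, rfl⟩⟩
  refine TSM.po_evenV rfl (chi_nonneg hk) adm3_zero hK hK0 hI hT hn hf.hL fun σ ρ hF D hD => ?_
  refine evE_at hc hs (hk D hD) hD (by rw [hI.hK]; exact hkd) rfl rfl
    (H _ (pick_D (d := d) hc hD).1 _ hmem) (fh_shE hf hF (Or.inr (Or.inl ⟨rfl, by omega⟩)) (Or.inl rfl)
      (Or.inr (Nat.testBit_two_pow_self)) (fun h => by simpa using h) (fun h => by simpa using h)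
      (fun j h => h) (fun h => ?_) (fun h => ?_))
  · obtain ⟨h1, h2⟩ := hf.a1 h
    exact ⟨shl_le rfl h1, le_shh rfl h2⟩
  · obtain ⟨h1, h2⟩ := hf.a0 h
    exact ⟨shl_le hc0 h1, le_shh hc0 h2⟩

/-- **one kind, any number of children** -/
theorem poT_G (hc : covers tl dl = true) (hs : LOK tl dl sgnL)
    (hk : ∀ D, RD D → KOk (knAt dl d D) D) {lf tw : Bool} {m kd : ℕ}
    (hev : Even (lf.toNat + tw.toNat + m)) (hm : 4 ≤ m)
    (hkd : KdOk kd (lf.toNat + tw.toNat + m)) {κ : Dec} (hκ : 0 ≤ κ.val) {M : ℕ}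
    (hM : ShM M m) (H : ∀ dc ∈ dl, ∀ S0 ∈ shLA κ M tw, CovE tl kd dc S0) :
    TSM.PoT (sysE (chiF dl d) (chi_nonneg hk)) Adm3 (VV tl dl d) (PP' dl d) lf tw m := by
  intro K O N tc hI hT
  have hK : Even K := by rw [hI.hK]; exact hev
  have hK0 : 0 < K := by rw [hI.hK]; omega
  obtain ⟨k, hkm, hn, e, fv, fg, hf⟩ := fact_T hI hT.hO hκ
  refine TSM.po_evenV rfl (chi_nonneg hk) adm3_zero hK hK0 hI hT hn hf.hL fun σ ρ hF D hD => ?_
  have key : ∀ (pa : ℕ) (z0 z1 : Bool), shAny κ M pa z0 z1 k ∈ shLA κ M tw →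
      pa = (k.cd.n + tw.toNat) % 2 → (z0 = true → c1 O N = 0) → (z1 = true → c1 O N = m) →
      TSM.EvF2 (chiF dl d) D K (fun a => (TSM.UU (fam σ e O)).eval a)
        (fun a => (TSM.YY (fam σ e O)).eval a) (fun a => ∑ i, TSM.Vi (VV tl dl d) N tc O i D a)
        (fun a => VV tl dl d D a ((chd 0 (fam σ e O)).sn a))
        (fun a => PP' dl d D a ((chd 0 (fam σ e O)).sn a)) := by
    intro pa z0 z1 hmem hpa hz0 hz1
    exact evE_at hc hs (hk D hD) hD (by rw [hI.hK]; exact hkd) rfl rfl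
      (H _ (pick_D (d := d) hc hD).1 _ hmem) (fh_shE hf hF hM (Or.inr hpa)
        (Or.inl rfl) hz0 hz1 (fun j _ => Nat.zero_testBit j) (fun h => hf.a1 h)
        (fun h => hf.a0 h))
  cases tw
  · simp only [Bool.false_eq_true, if_false, casN] at hkm
    split_ifs at hkm with h1 h2
    · rw [List.mem_singleton] at hkm
      subst hkm
      exact key 1 false false (by simp [shLA]) rfl (fun h => by simp at h) (fun h => by simp at h)
    · rw [List.mem_singleton] at hkm
      subst hkm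
      rcases h2 with h2 | h2
      · exact key 0 true false (by simp [shLA]) rfl (fun _ => h2) (fun h => by simp at h)
      · exact key 0 false true (by simp [shLA]) rfl (fun h => by simp at h) (fun _ => h2)
    · simp only [List.mem_cons, List.not_mem_nil, or_false] at hkm
      rcases hkm with rfl | rfl
      · exact key 0 false false (by simp [shLA]) rfl (fun h => by simp at h)
          (fun h => by simp at h)
      · exact key 0 false false (by simp [shLA]) rfl (fun h => by simp at h)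
          (fun h => by simp at h)
  · simp only [if_true, casP] at hkm
    rw [if_neg (by omega)] at hkm
    split_ifs at hkm with h1 h2
    · rw [List.mem_singleton] at hkm
      subst hkm
      exact key 1 false false (by simp [shLA]) rfl (fun h => by simp at h) (fun h => by simp at h)
    · rw [List.mem_singleton] at hkm
      subst hkm
      rcases h2 with h2 | h2
      · exact key 0 true false (by simp [shLA]) rfl (fun _ => h2) (fun h => by simp at h)
      · exact key 0 false true (by simp [shLA]) rfl (fun h => by simp at h) (fun _ => h2)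
    · simp only [List.mem_cons, List.not_mem_nil, or_false] at hkm
      rcases hkm with rfl | rfl
      · exact key 0 false false (by simp [shLA]) rfl (fun h => by simp at h)
          (fun h => by simp at h)
      · exact key 0 false false (by simp [shLA]) rfl (fun h => by simp at h)
          (fun h => by simp at h)

/-- all cases for exactly `K` children -/
def shK (κ : Dec) (K : ℕ) : List FS :=
  shLX κ true (K - 2) ++ (shLX κ false (K - 1) ++ (shLX κ true (K - 1) ++ shLX κ false K))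

/-- all cases for any number of children; without a path there is one more nontrivial child -/
def shA (κ : Dec) (M : ℕ) : List FS := shLA κ M true ++ shLA κ (M + 1) false

/-- **all kinds with `K` children** -/
theorem kinds_K (hc : covers tl dl = true) (hs : LOK tl dl sgnL)
    (hk : ∀ D, RD D → KOk (knAt dl d D) D) {K kd : ℕ} (hK : Even K) (h4 : 4 ≤ K)
    (hkd : KdOk kd K) {κ : Dec} (hκ : 0 ≤ κ.val)
    (H : ∀ dc ∈ dl, ∀ S0 ∈ shK κ K, CovE tl kd dc S0) (lf tw : Bool) (m : ℕ)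
    (hm : lf.toNat + tw.toNat + m = K) :
    TSM.PoT (sysE (chiF dl d) (chi_nonneg hk)) Adm3 (VV tl dl d) (PP' dl d) lf tw m := by
  have hmem : ∀ S0 ∈ shLX κ tw m, S0 ∈ shK κ K := by
    intro S0 h
    unfold shK
    simp only [List.mem_append]
    cases lf <;> cases tw
    · have : m = K := by simpa using hm
      subst this
      exact Or.inr (Or.inr (Or.inr h))
    · have : m = K - 1 := by
        simp at hm
        omega
      rw [← this]
      exact Or.inr (Or.inr (Or.inl h))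
    · have : m = K - 1 := by
        simp at hm
        omega
      rw [← this]
      exact Or.inr (Or.inl h)
    · have : m = K - 2 := by
        simp at hm
        omega
      rw [← this]
      exact Or.inl h
  refine poT_X hc hs hk (by rw [hm]; exact hK) ?_ (by rw [hm]; exact hkd) hκ
    fun dc hdc S0 hS0 => H dc hdc S0 (hmem S0 hS0)
  cases lf <;> cases tw <;> simp at hm <;> omega

/-- **all kinds with at least `q + 2` children**, at least `q` of them nontrivial -/
theorem kinds_A (hc : covers tl dl = true) (hs : LOK tl dl sgnL)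
    (hk : ∀ D, RD D → KOk (knAt dl d D) D) {q : ℕ} (hq : 4 ≤ q) {κ : Dec} (hκ : 0 ≤ κ.val)
    (H : ∀ dc ∈ dl, ∀ S0 ∈ shA κ (100 + q), CovE tl 0 dc S0) (lf tw : Bool) (m : ℕ)
    (hev : Even (lf.toNat + tw.toNat + m)) (hm : q + 2 ≤ lf.toNat + tw.toNat + m) :
    TSM.PoT (sysE (chiF dl d) (chi_nonneg hk)) Adm3 (VV tl dl d) (PP' dl d) lf tw m := by
  cases tw
  · have hm' : q + 1 ≤ m := by
      cases lf <;> simp at hm <;> omega
    refine poT_G hc hs hk hev (by omega) ⟨Or.inl rfl, by omega⟩ hκ (M := 100 + q + 1)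
      (Or.inr (Or.inr ⟨by omega, by omega⟩)) fun dc hdc S0 hS0 => H dc hdc S0 ?_
    unfold shA
    rw [List.mem_append]
    exact Or.inr hS0
  · have hm' : q ≤ m := by
      cases lf <;> simp at hm <;> omega
    refine poT_G hc hs hk hev (by omega) ⟨Or.inl rfl, by omega⟩ hκ (M := 100 + q)
      (Or.inr (Or.inr ⟨by omega, by omega⟩)) fun dc hdc S0 hS0 => H dc hdc S0 ?_
    unfold shA
    rw [List.mem_append]
    exact Or.inl hS0

/-- **the lists for all even kinds**: `K = 4`, `K = 6` and `K ≥ 8` together -/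
theorem even_kinds (hc : covers tl dl = true) (hs : LOK tl dl sgnL)
    (hk : ∀ D, RD D → KOk (knAt dl d D) D) {k4 k6 : ℕ} (h4 : k4 = 0 ∨ k4 = 4)
    (h6 : k6 = 0 ∨ k6 = 6) {κ4 κ6 κ8 : Dec} (hκ4 : 0 ≤ κ4.val) (hκ6 : 0 ≤ κ6.val)
    (hκ8 : 0 ≤ κ8.val) (H4 : ∀ dc ∈ dl, ∀ S0 ∈ shK κ4 4, CovE tl k4 dc S0)
    (H6 : ∀ dc ∈ dl, ∀ S0 ∈ shK κ6 6, CovE tl k6 dc S0)
    (H8 : ∀ dc ∈ dl, ∀ S0 ∈ shA κ8 106, CovE tl 0 dc S0) (lf tw : Bool) (m : ℕ)
    (_h2 : 2 ≤ m) (hev : Even (lf.toNat + tw.toNat + m))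
    (h : 4 ≤ lf.toNat + tw.toNat + m) :
    TSM.PoT (sysE (chiF dl d) (chi_nonneg hk)) Adm3 (VV tl dl d) (PP' dl d) lf tw m := by
  have h' := Nat.even_iff.1 hev
  rcases Nat.lt_or_ge (lf.toNat + tw.toNat + m) 6 with h1 | h1
  · exact kinds_K hc hs hk (K := 4) ⟨2, rfl⟩ le_rfl ⟨h4, by norm_num⟩ hκ4 H4 lf tw m (by omega)
  · rcases Nat.lt_or_ge (lf.toNat + tw.toNat + m) 8 with h3 | h3
    · exact kinds_K hc hs hk (K := 6) ⟨3, rfl⟩ (by norm_num) ⟨h6, by norm_num⟩ hκ6 H6 lf tw m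
        (by omega)
    · exact kinds_A hc hs hk (q := 6) (by norm_num) hκ8 H8 lf tw m hev h3

/-- the same with `K = 8` separately -/
theorem even_kinds8 (hc : covers tl dl = true) (hs : LOK tl dl sgnL)
    (hk : ∀ D, RD D → KOk (knAt dl d D) D) {k4 k6 k8 : ℕ} (h4 : k4 = 0 ∨ k4 = 4)
    (h6 : k6 = 0 ∨ k6 = 6) (h8 : k8 = 0 ∨ k8 = 8) {κ4 κ6 κ8 κ0 : Dec} (hκ4 : 0 ≤ κ4.val)
    (hκ6 : 0 ≤ κ6.val) (hκ8 : 0 ≤ κ8.val) (hκ0 : 0 ≤ κ0.val)
    (H4 : ∀ dc ∈ dl, ∀ S0 ∈ shK κ4 4, CovE tl k4 dc S0)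
    (H6 : ∀ dc ∈ dl, ∀ S0 ∈ shK κ6 6, CovE tl k6 dc S0)
    (H8 : ∀ dc ∈ dl, ∀ S0 ∈ shK κ8 8, CovE tl k8 dc S0)
    (H0 : ∀ dc ∈ dl, ∀ S0 ∈ shA κ0 108, CovE tl 0 dc S0) (lf tw : Bool) (m : ℕ)
    (_h2 : 2 ≤ m) (hev : Even (lf.toNat + tw.toNat + m))
    (h : 4 ≤ lf.toNat + tw.toNat + m) :
    TSM.PoT (sysE (chiF dl d) (chi_nonneg hk)) Adm3 (VV tl dl d) (PP' dl d) lf tw m := by
  have h' := Nat.even_iff.1 hev
  rcases Nat.lt_or_ge (lf.toNat + tw.toNat + m) 6 with h1 | h1
  · exact kinds_K hc hs hk (K := 4) ⟨2, rfl⟩ le_rfl ⟨h4, by norm_num⟩ hκ4 H4 lf tw m (by omega)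
  · rcases Nat.lt_or_ge (lf.toNat + tw.toNat + m) 8 with h3 | h3
    · exact kinds_K hc hs hk (K := 6) ⟨3, rfl⟩ (by norm_num) ⟨h6, by norm_num⟩ hκ6 H6 lf tw m
        (by omega)
    · rcases Nat.lt_or_ge (lf.toNat + tw.toNat + m) 10 with h5 | h5
      · exact kinds_K hc hs hk (K := 8) ⟨4, rfl⟩ (by norm_num) ⟨h8, by norm_num⟩ hκ8 H8 lf tw m
          (by omega)
      · exact kinds_A hc hs hk (q := 8) (by norm_num) hκ0 H0 lf tw m hev h5

/-- **trees in which every vertex has odd degree, or at most three neighbours, or at most two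
neighbours which are not leaves** -/
theorem three_plus_even_of (hc : covers tl dl = true) (hk : ∀ D, RD D → KOk (knAt dl d D) D)
    (hs : LOK tl dl sgnL) (hpos : LOK3 tl dl posL) (hr1 : LOK tl dl root1L)
    (hr0 : LOK tl dl root0L) (hun : LOK3 tl dl unL) (hlc : LOK3 tl dl lcL)
    (hpc : LOK3 tl dl (fun E => pcL E true)) (hzp : LOK3 tl dl zpL)
    (hm1 : LOK3 tl dl (fun E => msL E true)) (hm2 : LOK3 tl dl (fun E => msL E false))
    (hE : ∀ (lf tw : Bool) (m : ℕ), 2 ≤ m → Even (lf.toNat + tw.toNat + m) →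
      4 ≤ lf.toNat + tw.toNat + m →
      TSM.PoT (sysE (chiF dl d) (chi_nonneg hk)) Adm3 (VV tl dl d) (PP' dl d) lf tw m) :
    ∀ n : ℕ, ∀ T : SimpleGraph (Fin n), T.IsTree →
      (∀ v, Odd (T.neighborSet v).ncard ∨ (T.neighborSet v).ncard ≤ 3 ∨
        {w ∈ T.neighborSet v | 2 ≤ (T.neighborSet w).ncard}.ncard ≤ 2) →
      ∃ D : Fin n → Fin n → Prop,
        (∀ u v, T.Adj u v → (D u v ∨ D v u)) ∧
        (∀ u v, D u v → (T.Adj u v ∧ ¬ D v u)) ∧
        ∀ m : ℕ, ∀ G : Fin m → Fin m → Prop,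
          (∀ a, ¬ G a a) →
          (∀ a b, a ≠ b → (G a b ↔ ¬ G b a)) →
          (({f : Fin n → Fin m | ∀ u v, D u v → G (f u) (f v)}.ncard : ℝ) / (m : ℝ) ^ n
            ≤ ((1 : ℝ) / 2) ^ (T.edgeSet.ncard)) :=
  fun n T hT h => TSM.asm_even (cert3 hc hk hs hpos hr1 hr0 hun hlc hpc hzp hm1 hm2) hE n T hT h

end Pool.Agent.TSG
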