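import Pool.Agent.TSG.FamC
import Pool.Agent.TSG.Lok
import Pool.Agent.TSC.V3Bound

set_option autoImplicit false

/-!
# The vectorised tests for the cells (MP_d27362_co)

`cellOk3` tests a list of pairs (`NL`), `cellF3` the groups of `FamC`. The certificate of a list is
a list of numbers, one for each pair / group.
-/

namespace Pool.Agent.TSG

open Pool.Agent.TSC
open Pool.Agent.TSC.V3 (GQ chk3 chk3_sound)
open Pool.Agent.TSM (q0 th RD Reg)

/-- a pair as a group -/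
def pg {α : Type} (q : QP α) : GP α := ([q.1], [q.2])

lemma gmap_pg {α β : Type} (f : α → β) (q : QP α) : gmap f (pg q) = pg (pmap f q) := rfl

/-- the pairs of a list at a point of a cell, as groups -/
def NL.gq (G : NL) (tc : TC) (dc : Seg (Kn Dec)) : GQ where
  L α _ c l m := (G.L α (mkEn c l m tc dc)).map pg
  nat := by
    intro α β _ _ f hf c l m
    show ((G.L α (mkEn c l m tc dc)).map pg).map (gmap f) = (G.L β (mkEn _ (f l) (f m) tc dc)).map pg
    rw [List.map_map, ← map_mkEn hf, ← G.nat hf, List.map_map]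
    rfl

/-- the groups of `FamC` for `v_y ≤ 2` -/
def gqF2 (S : FS) (tc : TC) (dc : Seg (Kn Dec)) (l : LD Dec) (s : S4 (PS Dec)) (x : FX Dec) :
    GQ where
  L _ _ c lam mu := (mkFE c lam mu tc dc l s x).g2 S
  nat := by
    intro α β _ _ f hf c lam mu
    show ((mkFE c lam mu tc dc l s x).g2 S).map (gmap f) = (mkFE _ (f lam) (f mu) tc dc l s x).g2 S
    rw [map_g2 hf, map_mkFE hf]

/-- the groups of `FamC` for `v_y ≤ 1` -/
def gqF1 (S : FS) (tc : TC) (dc : Seg (Kn Dec)) (l : LD Dec) (s : S4 (PS Dec)) (x : FX Dec) :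
    GQ where
  L _ _ c lam mu := (mkFE c lam mu tc dc l s x).g1 S
  nat := by
    intro α β _ _ f hf c lam mu
    show ((mkFE c lam mu tc dc l s x).g1 S).map (gmap f) = (mkFE _ (f lam) (f mu) tc dc l s x).g1 S
    rw [map_g1 hf, map_mkFE hf]

/-- the test of the width: `th` has 4 decimals -/
def thOk (th : ℕ) (tc : TC) : Bool := Dec.nn (Dec.sub ⟨th, 0, 4⟩ tc.x.th) && Nat.ble th 10000

lemma thOk_sound {th : ℕ} {tc : TC} (h : thOk th tc = true) :
    tc.x.th.val ≤ (th : ℝ) / 10000 ∧ th ≤ 10000 := by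
  unfold thOk at h
  rw [Bool.and_eq_true] at h
  have h1 := Dec.nn_iff h.1
  rw [Dec.val_sub] at h1
  have e1 : Dec.val ⟨th, 0, 4⟩ = (th : ℝ) / 10000 := by
    unfold Dec.val
    norm_num
  rw [e1] at h1
  exact ⟨by linarith, Nat.le_of_ble_eq_true h.2⟩

lemma domW_of {WU WY th : ℕ} {tc : TC} {p : Pt} (hp : DomY WU WY tc.x.th.val p)
    (h : tc.x.th.val ≤ (th : ℝ) / 10000) :
    DomW WU WY ((th : ℝ) / 10000) p.u p.v p.a p.y p.w p.b :=
  ⟨hp.v0, hp.v2, hp.a0, hp.hu.trans (mul_le_mul_of_nonneg_right h hp.a0), hp.w0, hp.w2, hp.b0,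
    hp.hy.trans (mul_le_mul_of_nonneg_right h hp.b0)⟩

/-- the test of a natural list of groups gives the statement on the domain -/
theorem gok3 {G : GQ} {WY th : ℕ} {tc : TC} {Ks : List ℕ} (ht : thOk th tc = true)
    (hY : WY = 1 ∨ WY = 2) (h : chk3 G 2 WY th Ks = true) {lam mu : ℝ} (l0 : 0 ≤ lam)
    (l1 : lam ≤ 1) (m0 : 0 ≤ mu) (m1 : mu ≤ 1) {W : ℝ} (hW : W = WY) :
    GOK W tc.x.th.val (G.L ℝ Dec.val lam mu) := by
  obtain ⟨h1, h2⟩ := thOk_sound ht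
  intro g hg p hp F hF H hH
  refine chk3_sound (by norm_num) le_rfl (by omega) (by omega) h2 h l0 l1 m0 m1 g hg p.u p.v p.a
    p.y p.w p.b (domW_of (tc := tc) ?_ h1) F hF H hH
  rw [hW] at hp
  exact_mod_cast hp

/-- the test of one list of pairs in one cell; one number for each pair -/
def cellOk3 (G : NL) (WU WY th : ℕ) (tc : TC) (dc : Seg (Kn Dec)) (Ks : List ℕ) : Bool :=
  thOk th tc && chk3 (G.gq tc dc) WU WY th Ks

theorem cellOk3_sound {G : NL} {WU WY th : ℕ} {tc : TC} {dc : Seg (Kn Dec)} {Ks : List ℕ}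
    (hU1 : 1 ≤ WU) (hU : WU ≤ 2) (hY1 : 1 ≤ WY) (hY : WY ≤ 2)
    (h : cellOk3 G WU WY th tc dc Ks = true) : CellOK WU WY tc dc (G.L ℝ) := by
  intro lam mu l0 l1 m0 m1 q hq p hp
  unfold cellOk3 at h
  rw [Bool.and_eq_true] at h
  obtain ⟨h1, h2⟩ := thOk_sound h.1
  have := chk3_sound hU1 hU hY1 hY h2 h.2 l0 l1 m0 m1 (pg q) (List.mem_map.2 ⟨q, hq, rfl⟩)
    p.u p.v p.a p.y p.w p.b (domW_of hp h1) q.1 (by simp [pg]) q.2 (by simp [pg])
  exact this

/-- the test of a line of `FamC` in one cell -/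
def cellF3 (th : ℕ) (S : FS) (l : LD Dec) (s : S4 (PS Dec)) (tc : TC) (dc : Seg (Kn Dec))
    (x : FX Dec) (c2 c1 : TSM.CR) (K2 K1 : List ℕ) : Bool :=
  thOk th tc && ((fxOk S x && crOk tc.a x.x c2 c1) && (chk3 (gqF2 S tc dc l s x) 2 2 th K2 &&
    chk3 (gqF1 S tc dc l s x) 2 1 th K1))

theorem cellF3_sound {th : ℕ} {S : FS} {l : LD Dec} {s : S4 (PS Dec)} {tc : TC}
    {dc : Seg (Kn Dec)} {x : FX Dec} {c2 c1 : TSM.CR} {K2 K1 : List ℕ}
    (h : cellF3 th S l s tc dc x c2 c1 K2 K1 = true) : CellF S l s tc dc := by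
  unfold cellF3 at h
  rw [Bool.and_eq_true, Bool.and_eq_true, Bool.and_eq_true (chk3 _ _ _ _ _)] at h
  obtain ⟨h1, h2, h3, h4⟩ := h
  exact ⟨x, c2, c1, h2, fun lam mu l0 l1 m0 m1 =>
    ⟨gok3 h1 (Or.inr rfl) h3 l0 l1 m0 m1 (by norm_num),
      gok3 h1 (Or.inl rfl) h4 l0 l1 m0 m1 (by norm_num)⟩⟩

/-- the rows -/
def rowOk3 (G : NL) (WU WY th : ℕ) (tc : TC) : List (Seg (Kn Dec)) → List (List ℕ) → Bool
  | [], _ => true
  | dc :: dl, K :: Ks => (far tc dc || cellOk3 G WU WY th tc dc K) && rowOk3 G WU WY th tc dl Ks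
  | _ :: _, [] => false

theorem rowOk3_sound {G : NL} {WU WY th : ℕ} {tc : TC} (hU1 : 1 ≤ WU) (hU : WU ≤ 2)
    (hY1 : 1 ≤ WY) (hY : WY ≤ 2) : ∀ {dl : List (Seg (Kn Dec))} {Ks : List (List ℕ)},
    rowOk3 G WU WY th tc dl Ks = true → ∀ dc ∈ dl, tc.a.val + dc.a.val ≤ 1 / 2 →
    CellOK WU WY tc dc (G.L ℝ)
  | [], _, _, dc, hd => by simp at hd
  | d :: dl, [], h, dc, hd => by simp [rowOk3] at h
  | d :: dl, K :: Ks, h, dc, hd => by
    intro hs
    simp only [rowOk3, Bool.and_eq_true, Bool.or_eq_true] at h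
    obtain ⟨h1, h2⟩ := h
    rcases List.mem_cons.1 hd with rfl | hd
    · rcases h1 with h1 | h1
      · exact absurd hs (far_sound h1)
      · exact cellOk3_sound hU1 hU hY1 hY h1
    · exact rowOk3_sound hU1 hU hY1 hY h2 dc hd hs

end Pool.Agent.TSG
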