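import Pool.Agent.TSG.Lok3
import Pool.Agent.TSG.F3E

set_option autoImplicit false

/-!
# The vectorised test for the lines of three explicit children (MP_d27362_co)
-/

namespace Pool.Agent.TSG

open Pool.Agent.TSC
open Pool.Agent.TSC.V3 (GQ chk3 chk3_sound)
open Pool.Agent.TSM (q0 th RD Reg)

/-- the groups for `v_y ≤ 2` -/
def gq32 (S : F3S) (tc : TC) (dc : Seg (Kn Dec)) (l : LL Dec) (vs : List (LV Dec)) (s : S3 Dec)
    (x : X3 Dec) : GQ where
  L _ _ c lam mu := (mkF3 c lam mu tc dc l vs s x).g2 S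
  nat := by
    intro α β _ _ f hf c lam mu
    show ((mkF3 c lam mu tc dc l vs s x).g2 S).map (gmap f) =
      (mkF3 _ (f lam) (f mu) tc dc l vs s x).g2 S
    rw [map_3g2 hf, map_mkF3 hf]

/-- the groups for `v_y ≤ 1` -/
def gq31 (S : F3S) (tc : TC) (dc : Seg (Kn Dec)) (l : LL Dec) (vs : List (LV Dec)) (s : S3 Dec)
    (x : X3 Dec) : GQ where
  L _ _ c lam mu := (mkF3 c lam mu tc dc l vs s x).g1 S
  nat := by
    intro α β _ _ f hf c lam mu
    show ((mkF3 c lam mu tc dc l vs s x).g1 S).map (gmap f) =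
      (mkF3 _ (f lam) (f mu) tc dc l vs s x).g1 S
    rw [map_3g1 hf, map_mkF3 hf]

/-- the test of a line in one cell -/
def cell3F (th : ℕ) (S : F3S) (l : LL Dec) (vs : List (LV Dec)) (s : S3 Dec) (tc : TC)
    (dc : Seg (Kn Dec)) (x : F3X) (K2 K1 : List ℕ) : Bool :=
  thOk th tc && (f3Ok S tc.x.th tc.a x && (chk3 (gq32 S tc dc l vs s (mkX3 S tc.x.th x)) 2 2 th K2 &&
    chk3 (gq31 S tc dc l vs s (mkX3 S tc.x.th x)) 2 1 th K1))

theorem cell3F_sound {th : ℕ} {S : F3S} {l : LL Dec} {vs : List (LV Dec)} {s : S3 Dec} {tc : TC}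
    {dc : Seg (Kn Dec)} {x : F3X} {K2 K1 : List ℕ}
    (h : cell3F th S l vs s tc dc x K2 K1 = true) : CellF3 S l vs s tc dc := by
  unfold cell3F at h
  simp only [Bool.and_eq_true] at h
  obtain ⟨h1, h2, h3, h4⟩ := h
  exact ⟨x, h2, fun lam mu l0 l1 m0 m1 =>
    ⟨gok3 h1 (Or.inr rfl) h3 l0 l1 m0 m1 (by norm_num),
      gok3 h1 (Or.inl rfl) h4 l0 l1 m0 m1 (by norm_num)⟩⟩

/-- the data of a line in one cell -/
structure C3F where
  /-- the numbers -/
  x : F3X
  /-- numbers of the test for `v_y ≤ 2` -/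
  K2 : List ℕ
  /-- numbers of the test for `v_y ≤ 1` -/
  K1 : List ℕ

/-- the test of a line for one interval of `t` -/
def row3F (S : F3S) (lf : Kn Dec → LL Dec) (vf : Kn Dec → List (LV Dec)) (sf : Kn Dec → S3 Dec)
    (th : ℕ) (tc : TC) : List (Seg (Kn Dec)) → List C3F → Bool
  | [], _ => true
  | dc :: dl, e :: es =>
    (far tc dc || cell3F th S (lf dc.x) (vf dc.x) (sf dc.x) tc dc e.x e.K2 e.K1) &&
      row3F S lf vf sf th tc dl es
  | _ :: _, [] => false

theorem row3F_sound {S : F3S} {lf : Kn Dec → LL Dec} {vf : Kn Dec → List (LV Dec)}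
    {sf : Kn Dec → S3 Dec} {th : ℕ} {tc : TC} : ∀ {dl : List (Seg (Kn Dec))} {es : List C3F},
    row3F S lf vf sf th tc dl es = true → ∀ dc ∈ dl, tc.a.val + dc.a.val ≤ 1 / 2 →
      CellF3 S (lf dc.x) (vf dc.x) (sf dc.x) tc dc
  | [], _, _, dc, hd => by simp at hd
  | d :: dl, [], h, dc, hd => by simp [row3F] at h
  | d :: dl, e :: es, h, dc, hd => by
    intro hs
    simp only [row3F, Bool.and_eq_true, Bool.or_eq_true] at h
    obtain ⟨h1, h2⟩ := h
    rcases List.mem_cons.1 hd with rfl | hd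
    · rcases h1 with h1 | h1
      · exact absurd hs (far_sound h1)
      · exact cell3F_sound h1
    · exact row3F_sound h2 dc hd hs

/-- a line holds on one interval of `t` -/
def Row3 (S : F3S) (lf : Kn Dec → LL Dec) (vf : Kn Dec → List (LV Dec)) (sf : Kn Dec → S3 Dec)
    (dl : List (Seg (Kn Dec))) (tc : TC) : Prop :=
  ∀ dc ∈ dl, tc.a.val + dc.a.val ≤ 1 / 2 → CellF3 S (lf dc.x) (vf dc.x) (sf dc.x) tc dc

/-- the line from its rows -/
theorem line3_of {tl : List TC} {dl : List (Seg (Kn Dec))} {S : F3S} {lf : Kn Dec → LL Dec}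
    {vf : Kn Dec → List (LV Dec)} {sf : Kn Dec → S3 Dec} (h : ∀ tc ∈ tl, Row3 S lf vf sf dl tc) :
    LineF3 tl dl S lf vf sf :=
  fun tc ht dc hd hs => h tc ht dc hd hs

/-- parts of the list of the intervals of the total mass -/
theorem row3_append {S : F3S} {lf : Kn Dec → LL Dec} {vf : Kn Dec → List (LV Dec)}
    {sf : Kn Dec → S3 Dec} {dl dl' : List (Seg (Kn Dec))} {tc : TC}
    (h : Row3 S lf vf sf dl tc) (h' : Row3 S lf vf sf dl' tc) :
    Row3 S lf vf sf (dl ++ dl') tc := by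
  intro dc hd hs
  rcases List.mem_append.1 hd with h1 | h1
  · exact h dc h1 hs
  · exact h' dc h1 hs

end Pool.Agent.TSG
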