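import Pool.Agent.TSG.Lok3
import Pool.Agent.TSG.FamLS

set_option autoImplicit false

/-!
# The vectorised test for the lines of `FamLS` (MP_d27362_co)
-/

namespace Pool.Agent.TSG

open Pool.Agent.TSC
open Pool.Agent.TSC.V3 (GQ chk3 chk3_sound)
open Pool.Agent.TSM (q0 th RD Reg)

/-- the groups of `FamLS` for `v_y ≤ 2` -/
def gqL2 (S : FSL) (tc : TC) (dc : Seg (Kn Dec)) (l : LL Dec) (s : S4 (PS Dec)) (x : FY Dec) :
    GQ where
  L _ _ c lam mu := (mkFL c lam mu tc dc l s x).g2 S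
  nat := by
    intro α β _ _ f hf c lam mu
    show ((mkFL c lam mu tc dc l s x).g2 S).map (gmap f) = (mkFL _ (f lam) (f mu) tc dc l s x).g2 S
    rw [map_lg2 hf, map_mkFL hf]

/-- the groups of `FamLS` for `v_y ≤ 1` -/
def gqL1 (S : FSL) (tc : TC) (dc : Seg (Kn Dec)) (l : LL Dec) (s : S4 (PS Dec)) (x : FY Dec) :
    GQ where
  L _ _ c lam mu := (mkFL c lam mu tc dc l s x).g1 S
  nat := by
    intro α β _ _ f hf c lam mu
    show ((mkFL c lam mu tc dc l s x).g1 S).map (gmap f) = (mkFL _ (f lam) (f mu) tc dc l s x).g1 S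
    rw [map_lg1 hf, map_mkFL hf]

/-- the test of a line of `FamLS` in one cell -/
def cellL3 (th : ℕ) (S : FSL) (l : LL Dec) (s : S4 (PS Dec)) (tc : TC) (dc : Seg (Kn Dec))
    (x : FY Dec) (c2 c1 : TSM.CR) (K2 K1 : List ℕ) : Bool :=
  thOk th tc && ((fyOk S x && crOk tc.a x.x c2 c1) && (chk3 (gqL2 S tc dc l s x) 2 2 th K2 &&
    chk3 (gqL1 S tc dc l s x) 2 1 th K1))

theorem cellL3_sound {th : ℕ} {S : FSL} {l : LL Dec} {s : S4 (PS Dec)} {tc : TC}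
    {dc : Seg (Kn Dec)} {x : FY Dec} {c2 c1 : TSM.CR} {K2 K1 : List ℕ}
    (h : cellL3 th S l s tc dc x c2 c1 K2 K1 = true) : CellL S l s tc dc := by
  unfold cellL3 at h
  rw [Bool.and_eq_true, Bool.and_eq_true, Bool.and_eq_true (chk3 _ _ _ _ _)] at h
  obtain ⟨h1, h2, h3, h4⟩ := h
  exact ⟨x, c2, c1, h2, fun lam mu l0 l1 m0 m1 =>
    ⟨gok3 h1 (Or.inr rfl) h3 l0 l1 m0 m1 (by norm_num),
      gok3 h1 (Or.inl rfl) h4 l0 l1 m0 m1 (by norm_num)⟩⟩

end Pool.Agent.TSG
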