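import Pool.Agent.TSG.P2C
import Pool.Agent.TSG.GlB

set_option autoImplicit false

/-!
# The pair with a free choice of the sign of `x` (MP_d27362_co)

For two nontrivial children the new `y` is `x_A + x_B`, `x_A - x_B` or `x_B - x_A`. In the region
`0 ≤ R` the sign is chosen such that `a_y'² ≤ f (a_XA² + a_XB²) + k` for the sum or
`a_y'² ≤ (2 - f) (a_XA² + a_XB²) - k` for the difference; in the region `R ≤ 0` the sum is taken.
`R`, `f` and `k` may depend on the classes of the children, but not on `D`.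
-/

namespace Pool.Agent.TSG

open Pool.Agent.TSC
open Pool.Agent.TSM (q0 th RD Reg Sn NS Q5 Chd ILe PrE TwoE)
open Pool.Agent.TSR (sg_true sg_false)
open Pool.Agent.TLT (sg)
open Dec (nn)

/-! ### the shapes -/

/-- the case of the new `U` -/
def kU2 : CS :=
  ⟨true, 1, ⟨2, 0, 0⟩, false, true, 1, ⟨2, 0, 0⟩, false, 1, false, Dec.zero, Dec.zero, Dec.zero,
    Dec.zero⟩

/-- the case of `G` -/
def kG2 (gA gB : Bool) (n : ℤ) : CS :=
  match gA, gB with
  | true, true => ⟨true, 1, if n = 1 then ⟨2468, 0, 3⟩ else ⟨4, 0, 0⟩, false, true, 1,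
      if n = 1 then ⟨2468, 0, 3⟩ else ⟨4, 0, 0⟩, false, 0, false, Dec.zero, Dec.zero, Dec.zero,
      Dec.zero⟩
  | false, false => ⟨true, -1, ⟨4, 0, 0⟩, false, true, -1, ⟨4, 0, 0⟩, false, 0, false, Dec.zero,
      Dec.zero, Dec.zero, Dec.zero⟩
  | true, false => ⟨true, if n = 0 then -1 else 0, ⟨2, 0, 0⟩, false, true,
      if n = 0 then -1 else 0, ⟨2, 0, 0⟩, false, if n = 0 then 2 else 0, false, Dec.zero, Dec.zero,
      Dec.zero, Dec.zero⟩
  | false, true => ⟨true, if n = 0 then -1 else 0, ⟨2, 0, 0⟩, false, true,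
      if n = 0 then -1 else 0, ⟨2, 0, 0⟩, false, if n = 0 then 1 else 0, false, Dec.zero, Dec.zero,
      Dec.zero, Dec.zero⟩

/-- the label of a child: `e` is the sign of `x` -/
def nl2 (τ e : Bool) : ℤ := if τ then (if e then 1 else -1) else 0

/-- minus a condition -/
def Q6.neg (q : Q6 Dec) : Q6 Dec :=
  ⟨Dec.neg q.v1, Dec.neg q.v2, Dec.neg q.a2, Dec.neg q.w1, Dec.neg q.w2, Dec.neg q.b2⟩

/-- minus a condition -/
def Q3.neg (q : Q3 Dec) : Q3 Dec := ⟨Dec.neg q.c, q.L.neg, q.A.neg, q.B.neg⟩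

/-- the shape of a pair; `lg` is the region, `eA`, `eB` are the signs of the `x`, `τA`, `τB` are
the classes -/
def sh2 (R : Bool → Bool → Q3 Dec) (f k : Bool → Bool → Dec) (lg eA eB τA τB : Bool) : P2S where
  n := nl2 τA eA + nl2 τB eB
  gA := τA == eA
  gB := τB == eB
  tA := if τA then [1, 2, 3, 4] else [0]
  tB := if τB then [1, 2, 3, 4] else [0]
  kU := kU2
  kG := kG2 (τA == eA) (τB == eB) (nl2 τA eA + nl2 τB eB)
  cd := [if lg then R τA τB else (R τA τB).neg]
  lg := lg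
  fm := if eA && eB then f τA τB else Dec.sub ⟨2, 0, 0⟩ (f τA τB)
  km := if eA && eB then k τA τB else Dec.neg (k τA τB)
  uh := ⟨2, 0, 0⟩
  yh := if eA && eB then ⟨2, 0, 0⟩ else ⟨1, 0, 0⟩

/-- the lists of a shape hold -/
def P2OK (tl : List TC) (dl : List (Seg (Kn Dec))) (S : P2S) : Prop :=
  ∃ ap rp P, (∀ dc ∈ dl, p2kOk ap rp P dc = true) ∧ Lines2 tl dl S rp P

/-! ### the facts -/

lemma dd2 : Dec.val ⟨2, 0, 0⟩ = 2 := by norm_num [Dec.val]

lemma dd4 : Dec.val ⟨4, 0, 0⟩ = 4 := by norm_num [Dec.val]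

lemma dd1 : Dec.val ⟨1, 0, 0⟩ = 1 := by norm_num [Dec.val]

/-- two terms as a case of three terms -/
lemma cs2 {k : CS} {θ : ℝ} {gA gB xA xB vA vB aA aB : ℝ} (hM : k.M3 = true)
    (hzl : k.zl = false) (hdl : k.dl = false) (hfl : k.fl = false) (hfv : k.fv = Dec.zero)
    (hgs : k.gs = k.ds) (hhz : k.hz = k.hd)
    (hgA : gA ^ 2 = 1) (hgB : gB ^ 2 = 1) (hvA : 0 ≤ vA) (hvB : 0 ≤ vB) (haA : 0 ≤ aA)
    (haB : 0 ≤ aB) (hnA : |xA - vA| ≤ θ * aA) (hnB : |xB - vB| ≤ θ * aB)
    (hd : |gA * vA + gB * vB| ≤ k.hd.val)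
    (ds : k.ds ≠ 0 → |gA * vA + gB * vB| = k.ds * (gA * vA + gB * vB))
    (o1 : k.od = 1 → (gA * vA + gB * vB) ^ 2 ≤ vA ^ 2 - vB ^ 2)
    (o2 : k.od = 2 → (gA * vA + gB * vB) ^ 2 ≤ vB ^ 2 - vA ^ 2) :
    k.Ok θ ⟨1, gA, gB, 0, xA, xB, 0, vA, vB, 0, aA, aB, aA + aB, aA + aB⟩ := by
  have hdev : |gA * xA + gB * xB - (gA * vA + gB * vB)| ≤ θ * (aA + aB) := by
    have e : gA * xA + gB * xB - (gA * vA + gB * vB) = gA * (xA - vA) + gB * (xB - vB) := by ring
    rw [e]
    have a1 : |gA| = 1 := by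
      have := sq_abs gA
      rw [hgA] at this
      nlinarith [abs_nonneg gA]
    have a2 : |gB| = 1 := by
      have := sq_abs gB
      rw [hgB] at this
      nlinarith [abs_nonneg gB]
    have h1 := abs_add_le (gA * (xA - vA)) (gB * (xB - vB))
    rw [abs_mul, abs_mul, a1, a2, one_mul, one_mul] at h1
    linarith
  have z1 : ((1 : ℝ)) ^ 2 = 1 := by norm_num
  refine ⟨z1, hgA, hgB, le_rfl, hvA, hvB, le_rfl, haA, haB, ?_, hnA, hnB, ?_, ?_, ?_, ?_, ?_, ?_,
    ?_, ?_, ?_, ?_, ?_, ?_, ?_, ?_, ?_, ?_, ?_, ?_⟩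
  · simp
  · show |1 * 0 + (gA * xA + gB * xB) - (1 * 0 + (gA * vA + gB * vB))| ≤ θ * (aA + aB)
    rwa [mul_zero, zero_add, zero_add]
  · exact hdev
  · exact add_nonneg haA haB
  · exact add_nonneg haA haB
  · show aA + aB ≤ 0 + aA + aB
    linarith
  · exact le_rfl
  · intro h
    rw [hM] at h
    exact absurd h (by simp)
  · show |1 * 0 + (gA * vA + gB * vB)| ≤ k.hz.val
    rw [mul_zero, zero_add, hhz]
    exact hd
  · intro h
    show |1 * 0 + (gA * vA + gB * vB)| = k.gs * (1 * 0 + (gA * vA + gB * vB))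
    rw [mul_zero, zero_add, hgs]
    exact ds (by rwa [← hgs])
  · intro h
    rw [hzl] at h
    exact absurd h (by simp)
  · intro _
    show |1 * 0 + (gA * vA + gB * vB)| ≤ |gA * vA + gB * vB|
    rw [mul_zero, zero_add]
  · exact hd
  · exact ds
  · intro h
    rw [hdl] at h
    exact absurd h (by simp)
  · exact o1
  · exact o2
  · intro h
    rw [hfl] at h
    exact absurd h (by simp)
  · intro h
    rw [hfv, Dec.val_zero] at h
    exact absurd h (by simp)

variable {tl : List TC} {dl : List (Seg (Kn Dec))} {d : Seg (Kn Dec)} {c e : Chd} {D a : ℝ}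
  {R : Bool → Bool → Q3 Dec} {Fs Ks : Bool → Bool → Dec} {lg eA eB τA τB : Bool}

lemma gs_sq (b : Bool) : sg b ^ 2 = 1 := by cases b <;> norm_num [sg_true, sg_false]

/-- the class of a child -/
def ClsOk (τ : Bool) (c : Chd) : Prop := (c.ty = 0 ↔ τ = false)

lemma x_eq {τ eA : Bool} (h : ClsOk τ c) (a : ℝ) :
    sg eA * c.x a = (nl2 τ eA : ℤ) - a * (sg (τ == eA) * c.u a) := by
  unfold Chd.x nl2
  cases τ
  · rw [if_pos (h.2 rfl)]
    cases eA
    · simp [sg_true, sg_false]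
    · simp [sg_true, sg_false]
  · rw [if_neg (fun h1 => by have := h.1 h1; simp at this)]
    cases eA
    · simp [sg_true, sg_false]
      ring
    · simp [sg_true]

lemma xT_eq {τ eA : Bool} (h : ClsOk τ c) :
    sg eA * c.xT = (nl2 τ eA : ℤ) - q0 * (sg (τ == eA) * c.vU) := by
  unfold Chd.xT nl2
  cases τ
  · rw [if_pos (h.2 rfl)]
    cases eA
    · simp [sg_true, sg_false]
    · simp [sg_true, sg_false]
  · rw [if_neg (fun h1 => by have := h.1 h1; simp at this)]
    cases eA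
    · simp [sg_true, sg_false]
      ring
    · simp [sg_true]

lemma cls_mem {τ : Bool} (h : ClsOk τ c) : m4 c.ty ∈ (if τ then [1, 2, 3, 4] else [0]) := by
  cases τ
  · rw [h.2 rfl]
    simp [m4]
  · have h1 : c.ty ≠ 0 := fun h1 => by have := h.1 h1; simp at this
    have h2 : m4 c.ty ≠ 0 := by unfold m4; omega
    have h3 : m4 c.ty ≤ 4 := by unfold m4; omega
    simp only [if_true, List.mem_cons, List.not_mem_nil, or_false]
    omega

/-- the case of `U` holds -/
lemma kU2_ok' {θ xA xB vA vB aA aB : ℝ} (v0 : 0 ≤ vA) (v1 : vA ≤ 2) (w0 : 0 ≤ vB)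
    (haA : 0 ≤ aA) (haB : 0 ≤ aB) (hnA : |xA - vA| ≤ θ * aA) (hnB : |xB - vB| ≤ θ * aB)
    (hv : vB ≤ vA) :
    kU2.Ok θ ⟨1, 1, -1, 0, xA, xB, 0, vA, vB, 0, aA, aB, aA + aB, aA + aB⟩ := by
  have z1 : ((1 : ℝ)) ^ 2 = 1 := by norm_num
  have z2 : ((-1 : ℝ)) ^ 2 = 1 := by norm_num
  have hd : |1 * vA + (-1) * vB| = vA - vB := by
    rw [abs_of_nonneg (by linarith)]
    ring
  refine cs2 rfl rfl rfl rfl rfl rfl rfl z1 z2 v0 w0 haA haB hnA hnB ?_ ?_ ?_ ?_
  · rw [hd]
    show _ ≤ Dec.val ⟨2, 0, 0⟩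
    rw [dd2]
    linarith
  · intro _
    rw [hd]
    show _ = ((1 : ℤ) : ℝ) * _
    push_cast
    ring
  · intro _
    nlinarith
  · intro h
    exact absurd h (by decide)

/-- the case of `U` holds -/
lemma kU2_ok (hc : c.Ok) (he : e.Ok) (hv : e.vY ≤ c.vY) (a : ℝ) (ha : 0 ≤ a) (haq : a ≤ q0) :
    kU2.Ok (th a) (zU2 (c.sn a) (e.sn a)) :=
  kU2_ok' hc.hY0 hc.hY2 he.hY0 hc.haY he.haY (hc.hy a ha haq) (he.hy a ha haq) hv

/-- the case of `G` holds -/
lemma kG2_ok' {θ xA xB vA vB aA aB : ℝ} (v0 : 0 ≤ vA) (v1 : vA ≤ 2) (w0 : 0 ≤ vB) (w1 : vB ≤ 2)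
    (haA : 0 ≤ aA) (haB : 0 ≤ aB) (hnA : |xA - vA| ≤ θ * aA) (hnB : |xB - vB| ≤ θ * aB)
    (gA gB : Bool) (n : ℤ) (hX0 : 0 ≤ (n : ℝ) - q0 * (sg gA * vA + sg gB * vB)) :
    (kG2 gA gB n).Ok θ
      ⟨1, sg gA, sg gB, 0, xA, xB, 0, vA, vB, 0, aA, aB, aA + aB, aA + aB⟩ := by
  have q1 := TSM.q0_pos
  have q2 : (405284 / 1000000 : ℝ) < q0 := by
    have := TSC.qlo_lt_q0
    rwa [TSC.qlo_val] at this
  refine cs2 ?_ ?_ ?_ ?_ ?_ ?_ ?_ (gs_sq gA) (gs_sq gB) v0 w0 haA haB hnA hnB ?_ ?_ ?_ ?_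
  · cases gA <;> cases gB <;> rfl
  · cases gA <;> cases gB <;> rfl
  · cases gA <;> cases gB <;> rfl
  · cases gA <;> cases gB <;> rfl
  · cases gA <;> cases gB <;> rfl
  · cases gA <;> cases gB <;> rfl
  · cases gA <;> cases gB <;> rfl
  · cases gA <;> cases gB
    · rw [sg_false, abs_le]
      show -(Dec.val ⟨4, 0, 0⟩) ≤ _ ∧ _ ≤ Dec.val ⟨4, 0, 0⟩
      rw [dd4]
      constructor <;> linarith
    · rw [sg_false, sg_true, abs_le]
      show -(Dec.val ⟨2, 0, 0⟩) ≤ _ ∧ _ ≤ Dec.val ⟨2, 0, 0⟩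
      rw [dd2]
      constructor <;> linarith
    · rw [sg_false, sg_true, abs_le]
      show -(Dec.val ⟨2, 0, 0⟩) ≤ _ ∧ _ ≤ Dec.val ⟨2, 0, 0⟩
      rw [dd2]
      constructor <;> linarith
    · rw [sg_true, abs_of_nonneg (by linarith)]
      show _ ≤ Dec.val (if n = 1 then ⟨2468, 0, 3⟩ else ⟨4, 0, 0⟩)
      by_cases hn : n = 1
      · rw [if_pos hn]
        rw [hn, sg_true] at hX0
        have e1 : Dec.val ⟨2468, 0, 3⟩ = 2468 / 1000 := by norm_num [Dec.val]
        rw [e1]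
        push_cast at hX0
        nlinarith
      · rw [if_neg hn, dd4]
        linarith
  · intro h
    cases gA <;> cases gB
    · rw [sg_false, abs_of_nonpos (by linarith)]
      show _ = ((-1 : ℤ) : ℝ) * _
      push_cast
      ring
    · have hn : n = 0 := by
        by_contra h2
        exact h (if_neg h2)
      rw [hn, sg_false, sg_true] at hX0
      have h3 : (kG2 false true n).ds = -1 := if_pos hn
      rw [h3, sg_false, sg_true, abs_of_nonpos (by push_cast at hX0; nlinarith)]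
      push_cast
      ring
    · have hn : n = 0 := by
        by_contra h2
        exact h (if_neg h2)
      rw [hn, sg_false, sg_true] at hX0
      have h3 : (kG2 true false n).ds = -1 := if_pos hn
      rw [h3, sg_false, sg_true, abs_of_nonpos (by push_cast at hX0; nlinarith)]
      push_cast
      ring
    · rw [sg_true, abs_of_nonneg (by linarith)]
      show _ = ((1 : ℤ) : ℝ) * _
      push_cast
      ring
  · intro h
    cases gA <;> cases gB
    · exact absurd h (by show ¬ (0 = 1); norm_num)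
    · have hn : n = 0 := by
        by_contra h2
        have h3 : (kG2 false true n).od = 0 := if_neg h2
        omega
      rw [hn, sg_false, sg_true] at hX0
      rw [sg_false, sg_true]
      have h4 : vB ≤ vA := by
        push_cast at hX0
        nlinarith
      nlinarith
    · exfalso
      have h3 : (kG2 true false n).od = if n = 0 then 2 else 0 := rfl
      split_ifs at h3 <;> omega
    · exact absurd h (by show ¬ (0 = 1); norm_num)
  · intro h
    cases gA <;> cases gB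
    · exact absurd h (by show ¬ (0 = 2); norm_num)
    · exfalso
      have h3 : (kG2 false true n).od = if n = 0 then 1 else 0 := rfl
      split_ifs at h3 <;> omega
    · have hn : n = 0 := by
        by_contra h2
        have h3 : (kG2 true false n).od = 0 := if_neg h2
        omega
      rw [hn, sg_false, sg_true] at hX0
      rw [sg_false, sg_true]
      have h4 : vA ≤ vB := by
        push_cast at hX0
        nlinarith
      nlinarith
    · exact absurd h (by show ¬ (0 = 2); norm_num)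

/-- the case of `G` holds -/
lemma kG2_ok (hc : c.Ok) (he : e.Ok) (gA gB : Bool) (n : ℤ)
    (hX0 : 0 ≤ (n : ℝ) - q0 * (sg gA * c.vU + sg gB * e.vU)) (a : ℝ) (ha : 0 ≤ a)
    (haq : a ≤ q0) : (kG2 gA gB n).Ok (th a) (zG2 (sg gA) (sg gB) (c.sn a) (e.sn a)) :=
  kG2_ok' hc.hU0 hc.hU2 he.hU0 he.hU2 hc.haU he.haU (hc.hu a ha haq) (he.hu a ha haq) gA gB n hX0

lemma q3neg_ev (q : Q3 Dec) (x y z : Fin 4 → ℝ) : ((q.neg).map Dec.val).ev x y z =
    -((q.map Dec.val).ev x y z) := by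
  unfold Q3.neg Q3.map Q3.ev Q6.neg Q6.map Q6.ev
  simp only [Dec.val_neg]
  ring

/-- the value of the condition `R` -/
noncomputable def rv2 (q : Q3 Dec) (c e : Chd) : ℝ :=
  (q.map Dec.val).ev ![0, 0, 0, 0] ![c.vU, c.aU, c.vY, c.aY] ![e.vU, e.aU, e.vY, e.aY]

/-- the facts hold for the shapes -/
lemma pairF_of {aXc aXd az f : ℝ} (hc : c.Ok) (he : e.Ok)
    (hAc : Adm c.ty c.vU c.vY c.aU c.aY) (hAe : Adm e.ty e.vU e.vY e.aU e.aY) (hv : e.vY ≤ c.vY)
    (h1 : ClsOk τA c) (h2 : ClsOk τB e) (hX0 : 0 ≤ sg eA * c.xT + sg eB * e.xT)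
    (hee : eA = true ∨ eB = true)
    (hXc : c.AX aXc) (hXd : e.AX aXd) (hU0 : 0 ≤ az) (hU1 : az ≤ c.aY + e.aY) (hf0 : 0 ≤ f)
    (hf1 : f ≤ aXc + aXd) (hl : lg = true → f ^ 2 ≤ (if eA && eB then (Fs τA τB).val
      else 2 - (Fs τA τB).val) * (aXc ^ 2 + aXd ^ 2) +
      (if eA && eB then (Ks τA τB).val else -(Ks τA τB).val))
    (hR : if lg then 0 ≤ rv2 (R τA τB) c e else rv2 (R τA τB) c e ≤ 0) :
    PairF (sh2 R Fs Ks lg eA eB τA τB) c e (fun a => sg eA * c.x a + sg eB * e.x a)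
      (sg eA * c.xT + sg eB * e.xT) az f aXc aXd := by
  have x0 := xT_nonneg hc
  have x1 := xT_le_one hc
  have y0 := xT_nonneg he
  have y1 := xT_le_one he
  refine ⟨fun a => ?_, ?_, hX0, ?_, hc, he, hAc, hAe, hv, ?_, cls_mem h1, cls_mem h2,
    fun a ha haq => kU2_ok hc he hv a ha haq, fun a ha haq => ?_, fun a => ?_, ?_, hXc, hXd⟩
  · show sg eA * c.x a + sg eB * e.x a = ((nl2 τA eA + nl2 τB eB : ℤ) : ℝ) - _
    rw [x_eq h1, x_eq h2]
    show _ = _ - a * (sg (τA == eA) * c.u a + sg (τB == eB) * e.u a)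
    push_cast
    ring
  · show _ = ((nl2 τA eA + nl2 τB eB : ℤ) : ℝ) - _
    rw [xT_eq h1, xT_eq h2]
    show _ = _ - q0 * (sg (τA == eA) * c.vU + sg (τB == eB) * e.vU)
    push_cast
    ring
  · show _ ≤ (if eA && eB then (⟨2, 0, 0⟩ : Dec) else ⟨1, 0, 0⟩).val
    rcases hee with rfl | rfl
    · cases eB
      · simp only [Bool.and_false, Bool.false_eq_true, if_false, sg_true, sg_false, dd1]
        linarith
      · simp only [Bool.and_self, if_true, sg_true, dd2]
        linarith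
    · cases eA
      · simp only [Bool.false_and, Bool.false_eq_true, if_false, sg_true, sg_false, dd1]
        linarith
      · simp only [Bool.and_self, if_true, sg_true, dd2]
        linarith
  · show _ ≤ Dec.val ⟨2, 0, 0⟩
    rw [dd2]
    have := hc.hY2
    have := he.hY0
    linarith
  · refine kG2_ok hc he _ _ _ ?_ a ha haq
    rw [xT_eq h1, xT_eq h2] at hX0
    push_cast
    linarith
  · refine ⟨hU0, hU1, hf0, hf1, fun h => ?_, fun n => hXc.2 _ _ (TSC.tabX_tx n),
      fun n => hXd.2 _ _ (TSC.tabX_tx n)⟩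
    have e1 : (sh2 R Fs Ks lg eA eB τA τB).fm.val =
        if eA && eB then (Fs τA τB).val else 2 - (Fs τA τB).val := by
      show (if eA && eB then Fs τA τB else Dec.sub ⟨2, 0, 0⟩ (Fs τA τB)).val = _
      split_ifs
      · rfl
      · rw [Dec.val_sub, dd2]
    have e2 : (sh2 R Fs Ks lg eA eB τA τB).km.val =
        if eA && eB then (Ks τA τB).val else -(Ks τA τB).val := by
      show (if eA && eB then Ks τA τB else Dec.neg (Ks τA τB)).val = _
      split_ifs
      · rfl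
      · rw [Dec.val_neg]
    rw [e1, e2]
    exact hl h
  · intro q hq
    have hq' : q = if lg then R τA τB else (R τA τB).neg := List.mem_singleton.1 hq
    rw [hq']
    cases lg
    · simp only [Bool.false_eq_true, if_false] at hR ⊢
      rw [q3neg_ev]
      unfold rv2 at hR
      linarith
    · simp only [if_true] at hR ⊢
      exact hR

/-- the lists of all the shapes of the pair -/
structure PairOK (tl : List TC) (dl : List (Seg (Kn Dec))) (R : Bool → Bool → Q3 Dec)
    (Fs Ks : Bool → Bool → Dec) : Prop where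
  /-- the sum, region `R ≤ 0` -/
  s : ∀ τA τB, P2OK tl dl (sh2 R Fs Ks false true true τA τB)
  /-- the sum, region `0 ≤ R` -/
  l : ∀ τA τB, P2OK tl dl (sh2 R Fs Ks true true true τA τB)
  /-- the difference, region `0 ≤ R` -/
  a : ∀ τA τB, P2OK tl dl (sh2 R Fs Ks true true false τA τB)
  /-- the difference with the other sign, region `0 ≤ R` -/
  b : ∀ τA τB, P2OK tl dl (sh2 R Fs Ks true false true τA τB)

lemma cls_exists (c : Chd) : ∃ τ, ClsOk τ c := by
  by_cases h : c.ty = 0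
  · exact ⟨false, by simp [ClsOk, h]⟩
  · exact ⟨true, by simp [ClsOk, h]⟩

/-- **two nontrivial children, free choice of the sign** -/
theorem field_cc2 (hc : covers tl dl = true) (hs : LOK tl dl sgnL) (hP : PairOK tl dl R Fs Ks)
    (c e : Chd) (hokc : c.Ok) (hoke : e.Ok) (hAc : Adm c.ty c.vU c.vY c.aU c.aY)
    (hAe : Adm e.ty e.vU e.vY e.aU e.aY) (hv : e.vY ≤ c.vY)
    (aXc aXd aUn : ℝ) (hXc : c.AX aXc) (hXd : e.AX aXd) (hU0 : 0 ≤ aUn)
    (hU1 : aUn ≤ c.aY + e.aY) (f : Bool → ℝ) (hf : ∀ s, 0 ≤ f s ∧ f s ≤ aXc + aXd)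
    (hff : f true ^ 2 + f false ^ 2 = 2 * (aXc ^ 2 + aXd ^ 2)) :
    ∃ s z : Bool, 0 ≤ sg z * (c.xT + sg s * e.xT) ∧
      Adm 0 (c.vY - e.vY) (sg z * (c.xT + sg s * e.xT)) aUn (f s) ∧
      ∀ D, RD D → PrE (chiF dl d) D (fun a => sg z * (c.x a + sg s * e.x a))
        (fun a => a ^ 2 * (c.y a - e.y a) ^ 2 + a * (sg z * (c.x a + sg s * e.x a)) ^ 2)
        (fun a => VV tl dl d D a (c.sn a) + VV tl dl d D a (e.sn a))
        (fun a => PP' dl d D a (c.sn a) + PP' dl d D a (e.sn a))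
        (fun a => VV tl dl d D a ⟨0, c.y a - e.y a, sg z * (c.x a + sg s * e.x a), c.vY - e.vY,
          sg z * (c.xT + sg s * e.xT), aUn, f s⟩)
        (fun a => PP' dl d D a ⟨0, c.y a - e.y a, sg z * (c.x a + sg s * e.x a), c.vY - e.vY,
          sg z * (c.xT + sg s * e.xT), aUn, f s⟩) := by
  obtain ⟨τA, h1⟩ := cls_exists c
  obtain ⟨τB, h2⟩ := cls_exists e
  have x0 := xT_nonneg hokc
  have y0 := xT_nonneg hoke
  have key : ∀ (lg s z : Bool) (eA eB : Bool), sg eA = sg z → sg eB = sg z * sg s →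
      P2OK tl dl (sh2 R Fs Ks lg eA eB τA τB) → (eA = true ∨ eB = true) →
      0 ≤ sg z * (c.xT + sg s * e.xT) → (lg = true → f s ^ 2 ≤ (if eA && eB then (Fs τA τB).val
        else 2 - (Fs τA τB).val) * (aXc ^ 2 + aXd ^ 2) +
        (if eA && eB then (Ks τA τB).val else -(Ks τA τB).val)) →
      (if lg then 0 ≤ rv2 (R τA τB) c e else rv2 (R τA τB) c e ≤ 0) →
      ∀ D, RD D → PrE (chiF dl d) D (fun a => sg z * (c.x a + sg s * e.x a))
        (fun a => a ^ 2 * (c.y a - e.y a) ^ 2 + a * (sg z * (c.x a + sg s * e.x a)) ^ 2)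
        (fun a => VV tl dl d D a (c.sn a) + VV tl dl d D a (e.sn a))
        (fun a => PP' dl d D a (c.sn a) + PP' dl d D a (e.sn a))
        (fun a => VV tl dl d D a ⟨0, c.y a - e.y a, sg z * (c.x a + sg s * e.x a), c.vY - e.vY,
          sg z * (c.xT + sg s * e.xT), aUn, f s⟩)
        (fun a => PP' dl d D a ⟨0, c.y a - e.y a, sg z * (c.x a + sg s * e.x a), c.vY - e.vY,
          sg z * (c.xT + sg s * e.xT), aUn, f s⟩) := by
    intro lg s z eA eB g1 g2 hP2 hee hX hl hR D hD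
    obtain ⟨ap, rp, P, hk, hL⟩ := hP2
    have e1 : ∀ x y : ℝ, sg z * (x + sg s * y) = sg eA * x + sg eB * y := by
      intro x y
      rw [g1, g2]
      ring
    simp only [e1] at hX ⊢
    exact p2_of hc hs hk hL (pairF_of hokc hoke hAc hAe hv h1 h2 hX hee hXc hXd hU0 hU1
      (hf s).1 (hf s).2 hl hR) D hD
  rcases le_total (rv2 (R τA τB) c e) 0 with hR | hR
  · refine ⟨true, true, ?_, adm_zero _ _ _ _, ?_⟩
    · rw [sg_true]
      linarith
    · exact key false true true true true rfl (by rw [sg_true]; norm_num) (hP.s τA τB)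
        (Or.inl rfl) (by rw [sg_true]; linarith) (fun h => by simp at h) (by simpa using hR)
  · by_cases hs1 : f true ^ 2 ≤ (Fs τA τB).val * (aXc ^ 2 + aXd ^ 2) + (Ks τA τB).val
    · refine ⟨true, true, ?_, adm_zero _ _ _ _, ?_⟩
      · rw [sg_true]
        linarith
      · exact key true true true true true rfl (by rw [sg_true]; norm_num) (hP.l τA τB)
          (Or.inl rfl) (by rw [sg_true]; linarith) (fun _ => by simpa using hs1) (by simpa using hR)
    · have hs2 : f false ^ 2 ≤ (2 - (Fs τA τB).val) * (aXc ^ 2 + aXd ^ 2) +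
          -(Ks τA τB).val := by linarith
      rcases le_total e.xT c.xT with hx | hx
      · refine ⟨false, true, ?_, adm_zero _ _ _ _, ?_⟩
        · rw [sg_true, sg_false]
          linarith
        · exact key true false true true false rfl (by rw [sg_true, sg_false]; norm_num)
            (hP.a τA τB) (Or.inl rfl) (by rw [sg_true, sg_false]; linarith)
            (fun _ => by simpa using hs2)
            (by simpa using hR)
      · refine ⟨false, false, ?_, adm_zero _ _ _ _, ?_⟩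
        · rw [sg_false]
          linarith
        · exact key true false false false true rfl (by rw [sg_true, sg_false]; norm_num)
            (hP.b τA τB) (Or.inr rfl) (by rw [sg_false]; linarith) (fun _ => by simpa using hs2)
            (by simpa using hR)

/-- **the conditions of the assembly hold**, free choice of the sign for pairs -/
theorem cert2 (hc : covers tl dl = true) (hk : ∀ D, RD D → KOk (knAt dl d D) D)
    (hs : LOK tl dl sgnL) (hpos : LOK5 tl dl posL) (hr1 : LOK tl dl root1L)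
    (hr0 : LOK tl dl root0L) (hun : LOK5 tl dl unL) (hlc : LOK5 tl dl lcL)
    (hpc : LOK5 tl dl (fun E => pcL E true)) (hzp : LOK5 tl dl zpL) (hP : PairOK tl dl R Fs Ks) :
    TSM.Cert (sysE (chiF dl d) (chi_nonneg hk)) Adm (VV tl dl d) (PP' dl d) where
  pos := fun c hok hA D a ha => field_pos hc hpos c hok hA D a ha
  root1 := ⟨⟨fun _ => le_rfl, fun h => by omega⟩, fun D hD => field_root1 hc hs hr1 hk D hD⟩
  root0 := ⟨adm_zero _ _ _ _, fun D hD => field_root0 hc hs hr0 hk D hD⟩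
  un := fun c hok hA aX hX => ⟨⟨fun _ => xT_le_one hok, fun h => by omega⟩,
    fun D hD => field_un hc hs hun hk c hok hA aX hX D hD⟩
  lc := fun c hok hA aX hX => ⟨adm_zero _ _ _ _,
    fun D hD => field_lc hc hs hlc hk c hok hA aX hX D hD⟩
  pc := fun c hok hA aX hX => ⟨true, adm_zero _ _ _ _,
    fun D hD => field_pc hc hs true hpc hk c hok hA aX hX D hD⟩
  lpc := fun c hok hA aX hX => ⟨false, ⟨fun _ => by
      rw [TSR.sg_ff]
      have := xT_nonneg hok
      linarith, fun h => by omega⟩,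
    fun D hD => field_lpc hc hs hzp hk c hok hA aX hX D hD⟩
  cc := fun c e hokc hoke hAc hAe hv aXc aXd aUn hXc hXd hU0 hU1 f hf hff =>
    field_cc2 hc hs hP c e hokc hoke hAc hAe hv aXc aXd aUn hXc hXd hU0 hU1 f hf hff

end Pool.Agent.TSG
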