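import Pool.Agent.TSG.P2L

set_option autoImplicit false

/-!
# Two explicit children: the cells and the rule from its lines (MP_d27362_co)
-/

namespace Pool.Agent.TSG

open Pool.Agent.TSC
open Pool.Agent.TSM (q0 th RD Reg Sn NS Q5 Chd ILe PrE TwoE)
open Pool.Agent.TSR (sg_true sg_false)
open Pool.Agent.TLT (sg)
open Dec (nn)

/-- the line in one cell -/
def CellP2 (S : P2S) (l : LP2 Dec) (s : S3 Dec) (tc : TC) (dc : Seg (Kn Dec)) : Prop :=
  ∃ x : P2X, p2Ok S tc.x.th x = true ∧ ∀ lam mu : ℝ, 0 ≤ lam → lam ≤ 1 → 0 ≤ mu → mu ≤ 1 →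
    GOK 2 tc.x.th.val ((rF2 lam mu tc dc l s (mkX2 S tc.x.th x)).g2 S) ∧
    GOK 1 tc.x.th.val ((rF2 lam mu tc dc l s (mkX2 S tc.x.th x)).g1 S)

/-- the line in all cells -/
def LineP2 (tl : List TC) (dl : List (Seg (Kn Dec))) (S : P2S) (l : Kn Dec → LP2 Dec)
    (s : Kn Dec → S3 Dec) : Prop :=
  ∀ tc ∈ tl, ∀ dc ∈ dl, tc.a.val + dc.a.val ≤ 1 / 2 → CellP2 S (l dc.x) (s dc.x) tc dc

variable {S : P2S} {tl : List TC} {dl : List (Seg (Kn Dec))} {d : Seg (Kn Dec)}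
  {lf : Kn Dec → LP2 Dec} {sf : Kn Dec → S3 Dec} {D a : ℝ}

/-- the data of the line at a point -/
structure F2At (tl : List TC) (dl : List (Seg (Kn Dec))) (d : Seg (Kn Dec)) (S : P2S)
    (lf : Kn Dec → LP2 Dec) (sf : Kn Dec → S3 Dec) (D a : ℝ)
    (F : F2 ℝ) (x : P2X) (thd : Dec) : Prop where
  hE : F.E = enAt tl dl d D a
  hth : th a ≤ thd.val
  hl : F.l = (lf (pick dl d D).x).map Dec.val
  hs : F.s = (sf (pick dl d D).x).map Dec.val
  hx : F.x = (mkX2 S thd x).map Dec.val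
  hok : p2Ok S thd x = true
  h2 : GOK 2 (th a) (F.g2 S)
  h1 : GOK 1 (th a) (F.g1 S)

lemma LineP2.at (hc : covers tl dl = true) (hL : LineP2 tl dl S lf sf)
    (ha : Reg D a) : ∃ F x thd, F2At tl dl d S lf sf D a F x thd := by
  obtain ⟨tc, htc, lam, mu, hI, h2⟩ := enAt_spec (d := d) hc ha
  obtain ⟨x, hx, h3⟩ := hL tc htc _ (covers_sound hc d ⟨ha.1, ha.2.1⟩).1 hI.hs
  obtain ⟨g2, g1⟩ := h3 lam mu hI.l0 hI.l1 hI.m0 hI.m1
  have key : ∀ W L, GOK W tc.x.th.val L → GOK W (th a) L := by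
    intro W L h g hg p hp
    exact h g hg p ⟨hp.v0, hp.v2, hp.a0, hp.hu.trans (mul_le_mul_of_nonneg_right hI.hth hp.a0),
      hp.w0, hp.w2, hp.b0, hp.hy.trans (mul_le_mul_of_nonneg_right hI.hth hp.b0)⟩
  exact ⟨rF2 lam mu tc (pick dl d D) (lf (pick dl d D).x)
    (sf (pick dl d D).x) (mkX2 S tc.x.th x), x, tc.x.th, h2.symm, hI.hth, rfl, rfl,
    rfl, hx, key _ _ g2, key _ _ g1⟩

variable {F : F2 ℝ} {x : P2X} {thd : Dec}

lemma F2At.ok (h : F2At tl dl d S lf sf D a F x thd) (hc : covers tl dl = true)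
    (hs : LOK tl dl sgnL) (ha : Reg D a) : F.E.Ok realHom D a := by
  rw [h.hE]
  exact enAt_ok hc hs ha

/-- the constants of the group of constants are nonnegative -/
lemma F2At.cs (h : F2At tl dl d S lf sf D a F x thd) : ∀ k ∈ F.cs, 0 ≤ k := by
  intro k hk
  have h1 := h.h2 (cstG F.cs) (by simp [F2.g2]) ⟨0, 0, 0, 0, 0, 0⟩
    (by constructor <;> simp) (qc k) (List.mem_map.2 ⟨k, hk, rfl⟩) qz0
    (List.mem_singleton.2 rfl)
  simpa [qc, qz0, QI.ev, rZero] using h1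

/-- the signs at a point -/
lemma F2At.sig (h : F2At tl dl d S lf sf D a F x thd) (hc : covers tl dl = true)
    (hs : LOK tl dl sgnL) (ha : Reg D a) : F.Sg := by
  have hE := h.ok hc hs ha
  have hcs := h.cs
  obtain ⟨kp, l1, l2, l3, l4, _⟩ := p2_ls h.hok
  have hlU : 0 ≤ F.pN.lU := hE.hlU _
  have hqU : 0 ≤ F.pN.qU := hE.hqU _
  have hly : 0 ≤ F.pN.ly := hE.hly _
  have hqy : 0 ≤ F.pN.qy := hE.hqy _
  have hdv : 0 ≤ F.pN.dv := hE.hdv _
  have hl4 : 0 ≤ F.x.l4 := by rw [h.hx]; exact l4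
  refine ⟨hcs _ (by simp [F2.cs]), hcs _ (by simp [F2.cs]), ?_, hlU, hqU, hly, hqy, ?_, ?_, ?_,
    ?_, hl4⟩
  · show 0 ≤ Ar.add F.pN.dv F.x.l4
    rw [rAdd]
    exact add_nonneg hdv hl4
  · rw [h.hx]; exact kp
  · rw [h.hx]; exact l1
  · rw [h.hx]; exact l2
  · rw [h.hx]; exact l3

lemma g2A_m4 (F : F2 ℝ) (S : P2S) (t : ℕ) : F.gA S (m4 t) = F.gA S t := by
  unfold F2.gA F2.vC
  rw [En.ty_m4, T5.ty_m4, S4.ty_m4, pdQ_m4]

lemma g2B_m4 (F : F2 ℝ) (S : P2S) (t : ℕ) : F.gB S (m4 t) = F.gB S t := by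
  unfold F2.gB F2.vC
  rw [En.ty_m4, T5.ty_m4, S4.ty_m4, pdQ_m4]

/-- the group of a child is nonnegative at a point -/
lemma F2At.gr (h : F2At tl dl d S lf sf D a F x thd) {p : Pt} (hp : Dom (th a) p) (ty : ℕ)
    (hw : (ty = 1 ∨ ty = 2 ∨ ty = 3 → p.w ≤ 1) ∧ (4 ≤ ty → 1 ≤ p.w)) {l : List ℕ}
    {g : ℕ → GP ℝ} (hm : ∀ t, g (m4 t) = g t) (ht : m4 ty ∈ l)
    (h0 : ∀ y ∈ ty0 l g, y ∈ F.g2 S) (h1 : ∀ y ∈ ty1 l g, y ∈ F.g1 S)
    (hl : ∀ t, ∀ B ∈ (g t).2, B.l = 0) :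
    ∀ A ∈ (g ty).1, ∀ B ∈ (g ty).2, 0 ≤ A.ev p.u p.v p.a + B.ev p.y p.w p.b := by
  obtain ⟨k0, k1, k4⟩ := ty_mem hm ht
  exact gok_at h.h2 h.h1 hp ty hw (fun e => h0 _ (k0 e)) (fun e => h1 _ (k1 e))
    (fun e => h1 _ (k4 e)) (hl ty)

/-- the potential and the pending cost of a child -/
lemma F2At.vv (h : F2At tl dl d S lf sf D a F x thd) (hc : covers tl dl = true)
    (hs : LOK tl dl sgnL) (ha : Reg D a) (st : Sn) :
    (F.vC st.ty).ns.ev st = VV tl dl d D a st - F.l.ps * PP' dl d D a st := by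
  have hE := h.ok hc hs ha
  have hkE : F.E.k = knAt dl d D := by rw [h.hE]; exact enAt_k hc ha
  have h7 : ((pdQ F.E st.ty).q5).ev st = PP' dl d D a st := by
    have := pd_ev hE st
    rw [hkE] at this
    exact this
  have hVE : F.E.V = (enAt tl dl d D a).V := by rw [h.hE]
  have h8 : (((F.E.V.ty st.ty).na).ns).ev st = VV tl dl d D a st := by
    rw [hVE]
    exact vt_ev _ _
  rw [← h7, ← h8]
  unfold F2.vC NA.sub NA.add NS.ev NA.ns Q5.ev QA.q5
  simp only [rAdd, rNeg, rMul]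
  ring

/-- everything that is known about two children for a shape -/
structure PairF (S : P2S) (c e : Chd) (X : ℝ → ℝ) (vX az aY aXA aXB : ℝ) : Prop where
  hX : ∀ a, X a = S.n - a * (sg S.gA * c.u a + sg S.gB * e.u a)
  hvX : vX = S.n - q0 * (sg S.gA * c.vU + sg S.gB * e.vU)
  hX0 : 0 ≤ vX
  hX1 : vX ≤ S.yh.val
  hc : c.Ok
  he : e.Ok
  hAc : Adm c.ty c.vU c.vY c.aU c.aY
  hAe : Adm e.ty e.vU e.vY e.aU e.aY
  hv : e.vY ≤ c.vY
  huh : c.vY - e.vY ≤ S.uh.val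
  htA : m4 c.ty ∈ S.tA
  htB : m4 e.ty ∈ S.tB
  hU : ∀ a, 0 ≤ a → a ≤ q0 → S.kU.Ok (th a) (zU2 (c.sn a) (e.sn a))
  hG : ∀ a, 0 ≤ a → a ≤ q0 → S.kG.Ok (th a) (zG2 (sg S.gA) (sg S.gB) (c.sn a) (e.sn a))
  cr : ∀ a, Cr2 S (c.sn a) (e.sn a) az aY aXA aXB
  hcd : ∀ q ∈ S.cd, 0 ≤ (q.map Dec.val).ev ![0, 0, 0, 0] ![c.vU, c.aU, c.vY, c.aY]
    ![e.vU, e.aU, e.vY, e.aY]
  hax : c.AX aXA
  hbx : e.AX aXB

variable {c e : Chd} {X : ℝ → ℝ} {vX az aY aXA aXB : ℝ}

/-- the payment of the children -/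
noncomputable def pay2 (s : S3 ℝ) (tA tB : ℕ) (p q : Sn) : ℝ :=
  (s.A.ty tA).ev p + (s.B.ty tB).ev q

lemma pay2_nonneg {s : S3 Dec} (h : s3Ok s = true) (hc : c.Ok) (he : e.Ok) :
    0 ≤ pay2 (s.map Dec.val) c.ty e.ty (c.sn a) (e.sn a) := by
  simp only [s3Ok, Bool.and_eq_true] at h
  obtain ⟨h1, h2, h3⟩ := h
  exact add_nonneg (t5Ok_sound h2 _ hc.hU0 hc.hU2 hc.hY0 hc.hY2)
    (t5Ok_sound h3 _ he.hU0 he.hU2 he.hY0 he.hY2)

/-- **one line for two explicit children** -/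
theorem F2At.line (h : F2At tl dl d S lf sf D a F x thd) (hc : covers tl dl = true)
    (hs : LOK tl dl sgnL) (ha : Reg D a) (haq : a < q0) (hF : PairF S c e X vX az aY aXA aXB)
    (hp : s3Ok (sf (pick dl d D).x) = true) (hcd : 0 ≤ F.l.k0 + F.l.k1 * X a) :
    VV tl dl d D a ⟨0, c.y a - e.y a, X a, c.vY - e.vY, vX, az, aY⟩ +
      F.l.b * (a ^ 2 * (c.y a - e.y a) ^ 2 + a * X a ^ 2) - (F.l.r0 + F.l.r1 * X a) +
      pay2 F.s c.ty e.ty (c.sn a) (e.sn a) * D * (1 - D / (q0 - a)) ≤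
    VV tl dl d D a (c.sn a) - F.l.ps * PP' dl d D a (c.sn a) +
      (VV tl dl d D a (e.sn a) - F.l.ps * PP' dl d D a (e.sn a)) := by
  have hE := h.ok hc hs ha
  have ht : F.E.t = a := hE.ht
  have ha0 := ha.2.2.1
  have hg := h.sig hc hs ha
  obtain ⟨_, _, _, _, _, hlm, hsh⟩ := p2_ls h.hok
  have rw3 := p2_rw h.hx h.hok (TSM.th_nonneg a) h.hth (hF.hU a ha0 haq.le) (hF.hG a ha0 haq.le)
    (hF.cr a)
  have hq : 0 ≤ F.x.q.ev ![0, 0, 0, 0] ![c.vU, c.aU, c.vY, c.aY] ![e.vU, e.aU, e.vY, e.aY] := by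
    rw [h.hx]
    exact qsum_nonneg _ _ _ _ _ hlm hF.hcd
  have huh : c.vY - e.vY ≤ F.x.uh := by
    rw [h.hx]
    exact hF.huh
  have hhi : vX ≤ F.x.yh := by
    rw [h.hx]
    exact hF.hX1
  have hay : aY ≤ F.E.xk * (Real.sqrt (c.vU ^ 2 + c.aU ^ 2) +
      Real.sqrt (e.vU ^ 2 + e.aU ^ 2)) := by
    have h1 := (axE hE hF.hax 0).li
    have h2 := (axE hE hF.hbx 0).li
    have h3 := (hF.cr a).h1
    have e1 : realHom.f F.E.xk = F.E.xk := rfl
    rw [e1] at h1 h2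
    rw [mul_add]
    linarith
  have tot := tot2 (S := S) hg ht (c.sn a) (e.sn a)
    (w := ⟨0, c.y a - e.y a, X a, c.vY - e.vY, vX, az, aY⟩) rw3 rfl rfl (hF.hX a) hF.hvX rfl rfl
    (sub_nonneg.2 hF.hv) huh hF.hX0 hhi (hF.cr a).z1 hay hq hcd
  have hVE : F.E.V = (enAt tl dl d D a).V := by rw [h.hE]
  have hN : F.pN.ns.ev ⟨0, c.y a - e.y a, X a, c.vY - e.vY, vX, az, aY⟩ =
      VV tl dl d D a ⟨0, c.y a - e.y a, X a, c.vY - e.vY, vX, az, aY⟩ := by
    unfold F2.pN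
    rw [hVE]
    exact vt_ev _ _
  rw [hN] at tot
  -- the children
  have hz : F.z ≤ -(D * (1 - D / (q0 - a))) := by
    have h1 := hE.hw haq
    have h2 : F.z = F.E.D2 * F.E.w - F.E.D := by
      unfold F2.z
      rw [rSub, rMul]
    have h3 : F.E.D = D := hE.hD
    have h4 : F.E.D2 * F.E.w ≤ D * (D / (q0 - a)) := h1
    rw [h2, h3]
    linarith
  have hT1 : F.E.Tl * F.pdp ≤ q0 * F.pdp := mul_le_mul_of_nonneg_right hE.hTl hg.dv
  have hT2 : q0 * F.pdp ≤ F.E.T * F.pdp := mul_le_mul_of_nonneg_right hE.hT hg.dv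
  have hT3 : F.E.Tl * F.x.l3 ≤ q0 * F.x.l3 := mul_le_mul_of_nonneg_right hE.hTl hg.l3
  have hT4 : q0 * F.x.l3 ≤ F.E.T * F.x.l3 := mul_le_mul_of_nonneg_right hE.hT hg.l3
  have hT5 : q0 * F.pdv = q0 * F.pdp - q0 * F.x.l3 := by
    unfold F2.pdv F2.pdp
    rw [rAdd, rSub, rAdd]
    ring
  have hW : ∀ (yU yG : Y4 ℝ) (vv aa ar : ℝ) (q : Q6 ℝ),
      (F.c0 S yU yG vv aa ar q).wp ≤ F.W yG ∧ F.W yG ≤ (F.c0 S yU yG vv aa ar q).wm := by
    intro yU yG vv aa ar q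
    unfold F2.W F2.c0
    simp only [rMul, rSub]
    constructor <;> linarith
  simp only [s3Ok, Bool.and_eq_true] at hp
  obtain ⟨hp1, hp2, hp3⟩ := hp
  have gA := h.gr (dom_of hF.hc ha0 haq.le) c.ty hF.hAc (g2A_m4 F S) hF.htA
    (fun y hy => by
      unfold F2.g2
      exact List.mem_cons_of_mem _ (List.mem_append_left _ hy))
    (fun y hy => by
      unfold F2.g1
      exact List.mem_append_left _ hy)
    (fun t B hB => by
      unfold F2.gA at hB
      simp only [List.mem_singleton] at hB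
      rw [hB]
      exact rZero)
  have gB := h.gr (dom_of hF.he ha0 haq.le) e.ty hF.hAe (g2B_m4 F S) hF.htB
    (fun y hy => by
      unfold F2.g2
      exact List.mem_cons_of_mem _ (List.mem_append_right _ hy))
    (fun y hy => by
      unfold F2.g1
      exact List.mem_append_right _ hy)
    (fun t B hB => by
      unfold F2.gB at hB
      simp only [List.mem_singleton] at hB
      rw [hB]
      exact rZero)
  have payc : ∀ {p : T5 Dec} (_ : t5Ok p = true) {w : Chd}, w.Ok →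
      0 ≤ ((p.map Dec.val).ty w.ty).ev (w.sn a) := fun h w hw =>
    t5Ok_sound h w.ty hw.hU0 hw.hU2 hw.hY0 hw.hY2
  have cA := ch_le (V := F.vC c.ty) (c := F.tA S) hz (hW _ F.x.rG.A _ _ _ _).1
    (hW _ F.x.rG.A _ _ _ _).2 (F.x.cA * F.ka S) (F.x.dA.ty c.ty) (p := F.s.A.ty c.ty)
    (c.sn a) (by rw [h.hs]; exact payc hp2 hF.hc) hF.hc.hU0 true S.gA
    (gA _ (by
      unfold F2.gA
      simp only [rMul]
      exact List.mem_singleton.2 rfl) _ (by
      unfold F2.gA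
      exact List.mem_singleton.2 rfl))
  have cB := ch_le (V := F.vC e.ty) (c := F.tB S) hz (hW _ F.x.rG.B _ _ _ _).1
    (hW _ F.x.rG.B _ _ _ _).2 (F.x.cB * F.ka S) (F.x.dB.ty e.ty) (p := F.s.B.ty e.ty)
    (e.sn a) (by rw [h.hs]; exact payc hp3 hF.he) hF.he.hU0 false S.gB
    (gB _ (by
      unfold F2.gB
      simp only [rMul]
      exact List.mem_singleton.2 rfl) _ (by
      unfold F2.gB
      exact List.mem_singleton.2 rfl))
  have vA := h.vv hc hs ha (c.sn a)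
  have vB := h.vv hc hs ha (e.sn a)
  have e1 : (c.sn a).ty = c.ty := rfl
  have e2 : (e.sn a).ty = e.ty := rfl
  rw [e1] at vA
  rw [e2] at vB
  rw [vA, sg_true] at cA
  rw [vB, sg_false] at cB
  -- the shares
  have hdt : ∀ (s : S4 Dec) (t : ℕ), (s.map Dec.val).ty t = (s.ty (m4 t)).val := fun s t => by
    rw [S4.map_ty, S4.ty_m4]
  obtain ⟨sh1, sh2⟩ := sh2_sum hsh hF.htA hF.htB
  have xcA : F.x.cA = x.cA.val := by rw [h.hx]; rfl
  have xcB : F.x.cB = x.cB.val := by rw [h.hx]; rfl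
  have xdA : F.x.dA.ty c.ty = (x.dA.ty (m4 c.ty)).val := by rw [h.hx]; exact hdt _ _
  have xdB : F.x.dB.ty e.ty = (x.dB.ty (m4 e.ty)).val := by rw [h.hx]; exact hdt _ _
  have q1 : F.x.cA * F.ka S + F.x.cB * F.ka S = F.ka S := by
    rw [xcA, xcB]
    linear_combination F.ka S * sh1
  have q2 : 0 ≤ F.x.dA.ty c.ty + F.x.dB.ty e.ty := by
    rw [xdA, xdB]
    exact sh2
  have e3 : (c.sn a).y = c.y a := rfl
  have e4 : (e.sn a).y = e.y a := rfl
  rw [e3, e4] at tot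
  unfold pay2
  rw [add_mul, add_mul]
  linarith

/-! ### the rule -/

/-- the numbers of a line: `i = true` for the loss side, `j = true` for the gain above the cap -/
def l2Of (rp : RP Dec) (i j : Bool) : LP2 Dec where
  b := if i then ⟨5, 0, 1⟩ else rp.C
  r0 := if j then Dec.mul (if i then Dec.add Dec.one rp.psi else rp.eta) rp.r else Dec.zero
  r1 := if j then Dec.zero else (if i then Dec.add Dec.one rp.psi else rp.eta)
  ps := if i then rp.psi else Dec.zero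
  k0 := if j then Dec.neg rp.r else rp.r
  k1 := if j then Dec.one else Dec.neg Dec.one

/-- all the lines of the rule; `P` are the payments, `P i` for the two sides -/
def Lines2 (tl : List TC) (dl : List (Seg (Kn Dec))) (S : P2S) (rp : ℕ → RP Dec)
    (P : Bool → ℕ → S3 Dec) : Prop :=
  ∀ i j : Bool, LineP2 tl dl S (fun k => l2Of (rp k.ix) i j) (fun k => P i k.ix)

/-- the test of the constants -/
def p2kOk (ap : ℕ → AP) (rp : ℕ → RP Dec) (P : Bool → ℕ → S3 Dec) (dc : Seg (Kn Dec)) : Bool :=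
  rpOk (ap dc.x.ix) (rp dc.x.ix) dc.x.pd.C0 dc.x.chi (Dec.add dc.a dc.w) &&
    (nn dc.w && (s3Ok (P true dc.x.ix) && s3Ok (P false dc.x.ix)))

/-- **two explicit children: the rule from its lines** -/
theorem p2_of (hc : covers tl dl = true) (hs : LOK tl dl sgnL) {ap : ℕ → AP} {rp : ℕ → RP Dec}
    {P : Bool → ℕ → S3 Dec} (hk : ∀ dc ∈ dl, p2kOk ap rp P dc = true)
    (hL : Lines2 tl dl S rp P) (hF : PairF S c e X vX az aY aXA aXB) (D : ℝ) (hD : RD D) :
    PrE (chiF dl d) D X (fun a => a ^ 2 * (c.y a - e.y a) ^ 2 + a * X a ^ 2)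
      (fun a => VV tl dl d D a (c.sn a) + VV tl dl d D a (e.sn a))
      (fun a => PP' dl d D a (c.sn a) + PP' dl d D a (e.sn a))
      (fun a => VV tl dl d D a ⟨0, c.y a - e.y a, X a, c.vY - e.vY, vX, az, aY⟩)
      (fun a => PP' dl d D a ⟨0, c.y a - e.y a, X a, c.vY - e.vY, vX, az, aY⟩) := by
  obtain ⟨hmem, _⟩ := pick_D (d := d) hc hD
  obtain ⟨kn, hkn⟩ : ∃ kn, kn = (pick dl d D).x := ⟨_, rfl⟩
  obtain ⟨r, hr⟩ : ∃ r, r = rp kn.ix := ⟨_, rfl⟩
  have hk' := hk _ hmem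
  simp only [p2kOk, Bool.and_eq_true] at hk'
  obtain ⟨k1, k2, k3, k4⟩ := hk'
  have hDle := pick_le (d := d) hc hD (Dec.nn_iff k2)
  obtain ⟨⟨κ, hT⟩, hC0⟩ := rpOk_sound k1 hD.1 hDle
  rw [← hkn, ← hr] at hT hC0
  have hPi : ∀ i : Bool, s3Ok (P i (pick dl d D).x.ix) = true := by
    intro i
    cases i
    · exact k4
    · exact k3
  -- the lines at a point
  obtain ⟨pay, hpay⟩ : ∃ pay : Bool → ℝ, pay = fun i => pay2 ((P i kn.ix).map Dec.val) c.ty e.ty
      (c.sn 0) (e.sn 0) := ⟨_, rfl⟩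
  have hpay0 : ∀ i, 0 ≤ pay i := by
    intro i
    rw [hpay, hkn]
    exact pay2_nonneg (hPi i) hF.hc hF.he
  have line : ∀ a, Reg D a → a < q0 → ∀ i j : Bool,
      0 ≤ (if j then -r.r.val else r.r.val) + (if j then 1 else -1) * X a →
      VV tl dl d D a ⟨0, c.y a - e.y a, X a, c.vY - e.vY, vX, az, aY⟩ +
        (if i then 1 / 2 else r.C.val) * (a ^ 2 * (c.y a - e.y a) ^ 2 + a * X a ^ 2) -
        (if i then 1 + r.psi.val else r.eta.val) * (if j then r.r.val else X a) +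
        pay i * D * (1 - D / (q0 - a)) ≤
      VV tl dl d D a (c.sn a) + VV tl dl d D a (e.sn a) -
        (if i then r.psi.val else 0) * (PP' dl d D a (c.sn a) + PP' dl d D a (e.sn a)) := by
    intro a ha haq i j hcd
    obtain ⟨F, x, thd, hA⟩ := (hL i j).at (d := d) hc ha
    have hl : F.l = (l2Of r i j).map Dec.val := by
      rw [hA.hl, hr, hkn]
    have hss : F.s = (P i kn.ix).map Dec.val := by
      rw [hA.hs, hkn]
    have e1 : F.l.b = if i then 1 / 2 else r.C.val := by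
      rw [hl]
      cases i
      · rfl
      · show Dec.val ⟨5, 0, 1⟩ = _
        norm_num [Dec.val]
    have e2 : F.l.r0 + F.l.r1 * X a =
        (if i then 1 + r.psi.val else r.eta.val) * (if j then r.r.val else X a) := by
      rw [hl]
      cases i <;> cases j <;>
        simp [l2Of, LP2.map, Dec.val_mul, Dec.val_add, Dec.val_one, Dec.val_zero]
    have e3 : F.l.ps = if i then r.psi.val else 0 := by
      rw [hl]
      cases i
      · exact Dec.val_zero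
      · rfl
    have e4 : F.l.k0 + F.l.k1 * X a =
        (if j then -r.r.val else r.r.val) + (if j then 1 else -1) * X a := by
      rw [hl]
      cases j <;> simp [l2Of, LP2.map, Dec.val_neg, Dec.val_one]
    have h1 := hA.line hc hs ha haq hF (hPi i) (by rw [e4]; exact hcd)
    have hpe : pay2 F.s c.ty e.ty (c.sn a) (e.sn a) = pay i := by
      rw [hpay, hss]
      rfl
    rw [e1, e2, e3, hpe] at h1
    linarith
  have hχ : chiF dl d D = kn.chi.val := by rw [hkn]; rfl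
  refine ⟨r.r.val, r.C.val, κ, r.eta.val, r.psi.val, fun a => min (X a) r.r.val,
    fun a => a ^ 2 * (c.y a - e.y a) ^ 2 + a * X a ^ 2, by rw [hχ]; exact hT,
    ILe.pt fun a _ => min_le_left _ _, ILe.pt fun a _ => min_le_right _ _,
    ILe.pt fun a _ => le_rfl, ?_, ?_, ILe.pt fun a ha => ?_⟩
  · refine TSC.ile_pay (pay false * D) (mul_nonneg (hpay0 _) hD.1) fun a ha hq _ => ?_
    dsimp only
    rcases le_total (X a) r.r.val with hle | hle
    · have h1 := line a ha hq false false (by simpa using hle)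
      simp only [Bool.false_eq_true, if_false] at h1
      rw [min_eq_left hle]
      linarith
    · have h1 := line a ha hq false true (by simpa using hle)
      simp only [Bool.false_eq_true, if_false, if_true] at h1
      rw [min_eq_right hle]
      linarith
  · refine TSC.ile_pay (pay true * D) (mul_nonneg (hpay0 _) hD.1) fun a ha hq _ => ?_
    dsimp only
    rcases le_total (X a) r.r.val with hle | hle
    · have h1 := line a ha hq true false (by simpa using hle)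
      simp only [Bool.false_eq_true, if_false, if_true] at h1
      rw [min_eq_left hle]
      linarith
    · have h1 := line a ha hq true true (by simpa using hle)
      simp only [if_true] at h1
      rw [min_eq_right hle]
      linarith
  · have hC : r.C.val ≤ (knAt dl d D).pd.C0 := by
      show r.C.val ≤ (pick dl d D).x.pd.C0.val
      rw [← hkn]
      exact hC0
    exact mul_le_mul_of_nonneg_right hC (add_nonneg (by positivity)
      (mul_nonneg ha.2.2.1 (sq_nonneg _)))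

end Pool.Agent.TSG
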