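import Pool.Agent.TSG.F3E

set_option autoImplicit false

/-!
# Two explicit children: the groups of one line (MP_d27362_co)

`P2S` is the shape of a line, `P2X` are the numbers of a cell, `X2` the numbers which are computed
from them, `F2` is everything at a point of a cell. The new state is `U' = y_A - y_B` and
`y' = n - t G` with `G = ± u_A ± u_B`.
-/

namespace Pool.Agent.TSG

open Pool.Agent.TSC

/-! ### data -/

/-- the numbers of one line -/
structure LP2 (α : Type) where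
  /-- price of the energy -/
  b : α
  /-- gain: constant -/
  r0 : α
  /-- gain: factor of `y'` -/
  r1 : α
  /-- price of the pending costs of the children -/
  ps : α
  /-- the condition `0 ≤ k0 + k1 y'` -/
  k0 : α
  /-- see `k0` -/
  k1 : α

/-- the numbers of one line in one cell -/
structure X2 (α : Type) where
  /-- `U'²` -/
  rU : R3 α
  /-- `G²` -/
  rG : R3 α
  /-- `a_y'²`: factor of `v_U²` of `A` -/
  vA : α
  /-- `a_y'²`: factor of `a_U²` of `A` -/
  yA : α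
  /-- `a_y'²`: factor of `v_U²` of `B` -/
  vB : α
  /-- `a_y'²`: factor of `a_U²` of `B` -/
  yB : α
  /-- `a_y'²`: constant -/
  ky : α
  /-- `a_U'²` -/
  aA : α
  /-- `a_U'²` -/
  aB : α
  /-- the conditions with their multipliers -/
  q : Q3 α
  /-- multiplier of the condition of the line -/
  kp : α
  /-- multiplier of the upper bound of `v_U'` -/
  l1 : α
  /-- multiplier of `0 ≤ v_U'` -/
  l2 : α
  /-- multiplier of the upper bound of `v_y'` -/
  l3 : α
  /-- multiplier of `0 ≤ v_y'` -/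
  l4 : α
  /-- upper bound of `v_U'` -/
  uh : α
  /-- upper bound of `v_y'` -/
  yh : α
  /-- share of the constant -/
  cA : α
  /-- share of the constant -/
  cB : α
  /-- shares of the types -/
  dA : S4 α
  /-- shares of the types -/
  dB : S4 α

/-- everything at a point of a cell for one line -/
structure F2 (α : Type) where
  /-- the data of the cell -/
  E : En α
  /-- the line -/
  l : LP2 α
  /-- the payments -/
  s : S3 α
  /-- the numbers -/
  x : X2 α

/-- the shape of a line -/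
structure P2S where
  /-- the label of `y'` -/
  n : ℤ
  /-- the sign of `u_A` -/
  gA : Bool
  /-- the sign of `u_B` -/
  gB : Bool
  /-- the types of `A` -/
  tA : List ℕ
  /-- the types of `B` -/
  tB : List ℕ
  /-- the case for `U'` -/
  kU : CS
  /-- the case for `G` -/
  kG : CS
  /-- the conditions -/
  cd : List (Q3 Dec)
  /-- `a_y'²` is at most `fm` times the sum of the squares of the children plus `km` -/
  lg : Bool
  /-- see `lg` -/
  fm : Dec
  /-- see `lg` -/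
  km : Dec
  /-- upper bound of `v_U'` -/
  uh : Dec
  /-- upper bound of `v_y'` -/
  yh : Dec

/-! ### maps -/

section maps

variable {α β : Type} (f : α → β)

/-- apply a function to the coefficients -/
def LP2.map (x : LP2 α) : LP2 β := ⟨f x.b, f x.r0, f x.r1, f x.ps, f x.k0, f x.k1⟩

/-- apply a function to the coefficients -/
def X2.map (x : X2 α) : X2 β :=
  ⟨x.rU.map f, x.rG.map f, f x.vA, f x.yA, f x.vB, f x.yB, f x.ky, f x.aA, f x.aB, x.q.map f,
    f x.kp, f x.l1, f x.l2, f x.l3, f x.l4, f x.uh, f x.yh, f x.cA, f x.cB, x.dA.map f, x.dB.map f⟩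

/-- apply a function to the coefficients -/
def F2.map (F : F2 α) : F2 β := ⟨F.E.map f, F.l.map f, F.s.map f, F.x.map f⟩

end maps

/-! ### the groups -/

section gen

variable {α : Type} [Ar α]

/-- `D² w - D` -/
def F2.z (F : F2 α) : α := Ar.sub (Ar.mul F.E.D2 F.E.w) F.E.D

/-- the new state -/
def F2.pN (F : F2 α) : NA α := (F.E.V.ty 0).na

/-- the factor of `v_U'` -/
def F2.pcv (F : F2 α) : α := Ar.add F.pN.cv (Ar.sub F.x.l2 F.x.l1)

/-- the factor of `v_y'` -/
def F2.pdv (F : F2 α) : α := Ar.add F.pN.dv (Ar.sub F.x.l4 F.x.l3)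

/-- the positive part of the factor of `v_y'` -/
def F2.pdp (F : F2 α) : α := Ar.add F.pN.dv F.x.l4

/-- the factor of `U'²` -/
def F2.dU (F : F2 α) : α := Ar.add F.pN.be (Ar.mul (Ar.mul F.E.t F.E.t) F.l.b)

/-- the factor of `y'²` -/
def F2.dY (F : F2 α) : α := Ar.add F.pN.de (Ar.mul F.E.t F.l.b)

/-- the factor of `G²` -/
def F2.dG (F : F2 α) : α := Ar.mul (Ar.mul F.E.t F.E.t) F.dY

/-- the factor of `y'` in gain and condition -/
def F2.rr (F : F2 α) : α := Ar.sub F.l.r1 (Ar.mul F.x.kp F.l.k1)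

/-- the terms of a child -/
def F2.c0 (F : F2 α) (S : P2S) (yU yG : Y4 α) (vv aa ar : α) (q : Q6 α) : C3 α where
  y1 := Ar.add F.pN.al (Ar.mul F.dU yU.x1)
  y2 := Ar.mul F.dU yU.x2
  cv := Ar.add F.pcv (Ar.mul F.dU yU.ws)
  w1 := q.w1
  w2 := Ar.add (Ar.mul F.dU yU.w2) q.w2
  b1 := F.pN.lU
  b2 := Ar.add (Ar.mul F.dU yU.b2) (Ar.add (Ar.mul F.pN.qU ar) q.b2)
  u1 := Ar.add (Ar.mul F.E.t (Ar.sub F.rr (Ar.add F.pN.ga (Ar.nsm 2 (zsm S.n F.dY)))))
    (Ar.mul F.dG yG.x1)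
  u2 := Ar.mul F.dG yG.x2
  v1 := q.v1
  v2 := Ar.add (Ar.add (Ar.mul F.dG yG.w2) (Ar.mul F.pN.qy vv)) q.v2
  a2 := Ar.add (Ar.add (Ar.mul F.dG yG.b2) (Ar.mul F.pN.qy aa)) q.a2
  l := Ar.mul F.pN.ly F.E.xk
  wp := Ar.sub (Ar.sub (Ar.mul F.E.Tl F.pdp) (Ar.mul F.E.T F.x.l3)) (Ar.mul F.dG yG.ws)
  wm := Ar.sub (Ar.sub (Ar.mul F.E.T F.pdp) (Ar.mul F.E.Tl F.x.l3)) (Ar.mul F.dG yG.ws)

/-- the terms of `A` -/
def F2.tA (F : F2 α) (S : P2S) : C3 α := F.c0 S F.x.rU.A F.x.rG.A F.x.vA F.x.yA F.x.aA F.x.q.A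

/-- the terms of `B` -/
def F2.tB (F : F2 α) (S : P2S) : C3 α := F.c0 S F.x.rU.B F.x.rG.B F.x.vB F.x.yB F.x.aB F.x.q.B

/-- the constant of the line -/
def F2.ka (F : F2 α) (S : P2S) : α :=
  Ar.add (Ar.add (Ar.add F.pN.c (Ar.add (Ar.mul F.x.l1 F.x.uh) (Ar.mul F.x.l3 F.x.yh)))
    (Ar.add (zsm S.n (Ar.add F.pN.ga F.pdv)) (zsm (S.n * S.n) F.dY)))
  (Ar.add (Ar.sub (Ar.mul F.x.kp F.l.k0) (Ar.add F.l.r0 (zsm S.n F.rr)))
    (Ar.add (Ar.add (Ar.mul F.dU F.x.rU.c) (Ar.mul F.dG F.x.rG.c))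
      (Ar.add (Ar.mul F.pN.qy F.x.ky) F.x.q.c)))

/-- the coefficients of a child of the type `t` -/
def F2.vC (F : F2 α) (t : ℕ) : NA α := ((F.E.V.ty t).na).sub F.l.ps (pdQ F.E t)

/-- the group of `A` -/
def F2.gA (F : F2 α) (S : P2S) (t : ℕ) : GP α :=
  ([c3U F.z (F.vC t) (F.tA S) (Ar.mul F.x.cA (F.ka S)) (F.s.A.ty t) S.gA],
    [c3Y F.z (F.vC t) (F.tA S) (F.x.dA.ty t) (F.s.A.ty t) true])

/-- the group of `B` -/
def F2.gB (F : F2 α) (S : P2S) (t : ℕ) : GP α :=
  ([c3U F.z (F.vC t) (F.tB S) (Ar.mul F.x.cB (F.ka S)) (F.s.B.ty t) S.gB],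
    [c3Y F.z (F.vC t) (F.tB S) (F.x.dB.ty t) (F.s.B.ty t) false])

/-- constants which have to be nonnegative -/
def F2.cs (F : F2 α) : List α := [F.dU, F.dG]

/-- the groups with `v_y ≤ 2` -/
def F2.g2 (F : F2 α) (S : P2S) : List (GP α) :=
  cstG F.cs :: (ty0 S.tA (F.gA S) ++ ty0 S.tB (F.gB S))

/-- the groups with `v_y ≤ 1` -/
def F2.g1 (F : F2 α) (S : P2S) : List (GP α) := ty1 S.tA (F.gA S) ++ ty1 S.tB (F.gB S)

end gen

/-! ### naturality -/

section nat

variable {α β : Type} [Ar α] [Ar β] {f : α → β} (hf : ArHom f)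

include hf

lemma map_2z (F : F2 α) : f F.z = (F.map f).z := by
  simp only [F2.z, hf.sub, hf.mul]
  rfl

omit hf in
lemma map_2pN (F : F2 α) : F.pN.map f = (F.map f).pN := by
  have h : (F.map f).E.V.ty 0 = (F.E.V.ty 0).map f := VD.map_ty f F.E.V 0
  simp only [F2.pN, map_vtna, h]

lemma map_2pcv (F : F2 α) : f F.pcv = (F.map f).pcv := by
  have h := map_2pN (f := f) F
  simp only [F2.pcv, hf.add, hf.sub, ← h]
  rfl

lemma map_2pdv (F : F2 α) : f F.pdv = (F.map f).pdv := by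
  have h := map_2pN (f := f) F
  simp only [F2.pdv, hf.add, hf.sub, ← h]
  rfl

lemma map_2pdp (F : F2 α) : f F.pdp = (F.map f).pdp := by
  have h := map_2pN (f := f) F
  simp only [F2.pdp, hf.add, ← h]
  rfl

lemma map_2dU (F : F2 α) : f F.dU = (F.map f).dU := by
  have h := map_2pN (f := f) F
  simp only [F2.dU, hf.add, hf.mul, ← h]
  rfl

lemma map_2dY (F : F2 α) : f F.dY = (F.map f).dY := by
  have h := map_2pN (f := f) F
  simp only [F2.dY, hf.add, hf.mul, ← h]
  rfl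

lemma map_2dG (F : F2 α) : f F.dG = (F.map f).dG := by
  simp only [F2.dG, hf.mul, map_2dY hf]
  rfl

lemma map_2rr (F : F2 α) : f F.rr = (F.map f).rr := by
  simp only [F2.rr, hf.mul, hf.sub]
  rfl

lemma map_2c0 (F : F2 α) (S : P2S) (yU yG : Y4 α) (vv aa ar : α) (q : Q6 α) :
    (F.c0 S yU yG vv aa ar q).map f =
      (F.map f).c0 S (yU.map f) (yG.map f) (f vv) (f aa) (f ar) (q.map f) := by
  have h := map_2pN (f := f) F
  simp only [F2.c0, C3.map, hf.add, hf.mul, hf.sub, hf.nsm, map_zsm hf, map_2dU hf, map_2dY hf,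
    map_2dG hf, map_2pcv hf, map_2pdp hf, map_2rr hf, ← h]
  rfl

lemma map_2tA (F : F2 α) (S : P2S) : (F.tA S).map f = (F.map f).tA S := by
  simp only [F2.tA, map_2c0 hf]
  rfl

lemma map_2tB (F : F2 α) (S : P2S) : (F.tB S).map f = (F.map f).tB S := by
  simp only [F2.tB, map_2c0 hf]
  rfl

lemma map_2ka (F : F2 α) (S : P2S) : f (F.ka S) = (F.map f).ka S := by
  have h := map_2pN (f := f) F
  simp only [F2.ka, hf.add, hf.mul, hf.sub, map_zsm hf, map_2dU hf, map_2dY hf, map_2dG hf,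
    map_2pdv hf, map_2rr hf, ← h]
  rfl

lemma map_2vC (F : F2 α) (t : ℕ) : (F.vC t).map f = (F.map f).vC t := by
  simp only [F2.vC, map_nasub hf, map_vtna, map_pdQ hf]
  rw [← VD.map_ty]
  rfl

lemma gmap_2gA (F : F2 α) (S : P2S) (t : ℕ) : gmap f (F.gA S t) = (F.map f).gA S t := by
  simp only [gmap, F2.gA, List.map_cons, List.map_nil, map_c3U hf, map_c3Y hf, map_2z hf,
    map_2tA hf, hf.mul, map_2ka hf, map_2vC hf]
  simp only [F2.map, S3.map, T5.map_ty, X2.map, S4.map_ty]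

lemma gmap_2gB (F : F2 α) (S : P2S) (t : ℕ) : gmap f (F.gB S t) = (F.map f).gB S t := by
  simp only [gmap, F2.gB, List.map_cons, List.map_nil, map_c3U hf, map_c3Y hf, map_2z hf,
    map_2tB hf, hf.mul, map_2ka hf, map_2vC hf]
  simp only [F2.map, S3.map, T5.map_ty, X2.map, S4.map_ty]

lemma map_2cs (F : F2 α) : F.cs.map f = (F.map f).cs := by
  simp only [F2.cs, List.map_cons, List.map_nil, map_2dU hf, map_2dG hf]

lemma map_2g2 (F : F2 α) (S : P2S) : (F.g2 S).map (gmap f) = (F.map f).g2 S := by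
  simp only [F2.g2, List.map_cons, List.map_append, gmap_cstG hf, map_2cs hf,
    map_ty0 (gmap_2gA hf F S), map_ty0 (gmap_2gB hf F S)]

lemma map_2g1 (F : F2 α) (S : P2S) : (F.g1 S).map (gmap f) = (F.map f).g1 S := by
  simp only [F2.g1, List.map_append, map_ty1 hf (gmap_2gA hf F S), map_ty1 hf (gmap_2gB hf F S)]

end nat

/-! ### the point of a cell -/

section mk

variable {α : Type} [Ar α]

/-- the data of a point, `c` embeds the decimal numbers -/
def mkF2 (c : Dec → α) (lam mu : α) (tc : TC) (dc : Seg (Kn Dec)) (l : LP2 Dec) (s : S3 Dec)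
    (x : X2 Dec) : F2 α :=
  ⟨mkEn c lam mu tc dc, l.map c, s.map c, x.map c⟩

variable {β : Type} [Ar β] {f : α → β}

lemma map_mkF2 (hf : ArHom f) (c : Dec → α) (lam mu : α) (tc : TC) (dc : Seg (Kn Dec))
    (l : LP2 Dec) (s : S3 Dec) (x : X2 Dec) :
    (mkF2 c lam mu tc dc l s x).map f =
      mkF2 (fun y => f (c y)) (f lam) (f mu) tc dc l s x := by
  unfold mkF2 F2.map
  simp only [map_mkEn hf]
  rfl

end mk

/-- the real data of a point -/
noncomputable def rF2 (lam mu : ℝ) (tc : TC) (dc : Seg (Kn Dec)) (l : LP2 Dec) (s : S3 Dec)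
    (x : X2 Dec) : F2 ℝ :=
  mkF2 Dec.val lam mu tc dc l s x

end Pool.Agent.TSG
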