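import Pool.Agent.TSG.P2G

set_option autoImplicit false

/-!
# Two explicit children: the total inequality at a point (MP_d27362_co)
-/

namespace Pool.Agent.TSG

open Pool.Agent.TSC
open Pool.Agent.TSM (q0 th RD Reg Sn NS)

variable {S : P2S} {F : F2 ℝ} {D a : ℝ}

/-- the factor of `± v_U` of a child -/
noncomputable def F2.W (F : F2 ℝ) (yG : Y4 ℝ) : ℝ := q0 * F.pdv - F.dG * yG.ws

/-- the numbers of the children for the new `U` -/
def zU2 (p q : Sn) : Z3 :=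
  ⟨1, 1, -1, 0, p.y, q.y, 0, p.vY, q.vY, 0, p.aY, q.aY, p.aY + q.aY, p.aY + q.aY⟩

/-- the numbers of the children for `G` -/
def zG2 (gA gB : ℝ) (p q : Sn) : Z3 :=
  ⟨1, gA, gB, 0, p.u, q.u, 0, p.vU, q.vU, 0, p.aU, q.aU, p.aU + q.aU, p.aU + q.aU⟩

/-- the terms of the children together -/
theorem sum_ev2 (ht : F.E.t = a) (gA gB : ℝ) (p q : Sn) :
    (F.tA S).ev (F.W F.x.rG.A) 1 gA p + (F.tB S).ev (F.W F.x.rG.B) (-1) gB q + F.ka S =
    F.pN.c + F.pN.al * (p.y - q.y) + F.pcv * (p.vY - q.vY) + F.pN.lU * (p.aY + q.aY) +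
      F.pN.qU * (F.x.aA * p.aY ^ 2 + F.x.aB * q.aY ^ 2) + F.x.l1 * F.x.uh + F.x.l3 * F.x.yh +
      S.n * (F.pN.ga + F.pdv) + (S.n : ℝ) ^ 2 * F.dY + F.x.kp * F.l.k0 - F.l.r0 -
      S.n * F.rr + F.dU * F.x.rU.ev (zU2 p q) + F.dG * F.x.rG.ev (zG2 gA gB p q) +
      F.pN.qy * (F.x.vA * p.vU ^ 2 + F.x.yA * p.aU ^ 2 + F.x.vB * q.vU ^ 2 +
        F.x.yB * q.aU ^ 2 + F.x.ky) +
      F.x.q.ev ![0, 0, 0, 0] ![p.vU, p.aU, p.vY, p.aY] ![q.vU, q.aU, q.vY, q.aY] +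
      a * (F.rr - (F.pN.ga + 2 * (S.n * F.dY))) * (gA * p.u + gB * q.u) -
      F.pdv * (q0 * (gA * p.vU + gB * q.vU)) +
      F.pN.ly * F.E.xk * (Real.sqrt (p.vU ^ 2 + p.aU ^ 2) + Real.sqrt (q.vU ^ 2 + q.aU ^ 2)) := by
  unfold C3.ev F2.tA F2.tB F2.c0 F2.W F2.ka R3.ev Y4.ev Q3.ev Q6.ev zU2 zG2
  simp only [rAdd, rMul, rSub, rNsm, rZsm, ht, Matrix.cons_val_zero, Matrix.cons_val_one,
    Matrix.cons_val]
  push_cast
  ring

/-- signs of the numbers of a line at a point -/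
structure F2.Sg (F : F2 ℝ) : Prop where
  dU : 0 ≤ F.dU
  dG : 0 ≤ F.dG
  dv : 0 ≤ F.pdp
  lU : 0 ≤ F.pN.lU
  qU : 0 ≤ F.pN.qU
  ly : 0 ≤ F.pN.ly
  qy : 0 ≤ F.pN.qy
  kp : 0 ≤ F.x.kp
  l1 : 0 ≤ F.x.l1
  l2 : 0 ≤ F.x.l2
  l3 : 0 ≤ F.x.l3
  l4 : 0 ≤ F.x.l4

/-- the bounds of the squares -/
structure F2.Rw (F : F2 ℝ) (gA gB : ℝ) (p q : Sn) (az aY : ℝ) : Prop where
  rU : (zU2 p q).Z ^ 2 ≤ F.x.rU.ev (zU2 p q)
  rG : (zG2 gA gB p q).Z ^ 2 ≤ F.x.rG.ev (zG2 gA gB p q)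
  rY : aY ^ 2 ≤ F.x.vA * p.vU ^ 2 + F.x.yA * p.aU ^ 2 + F.x.vB * q.vU ^ 2 +
        F.x.yB * q.aU ^ 2 + F.x.ky
  az : az ^ 2 ≤ F.x.aA * p.aY ^ 2 + F.x.aB * q.aY ^ 2

/-- **the total inequality at a point** -/
theorem tot2 (hg : F.Sg) (ht : F.E.t = a) {gA gB : ℝ} (p q : Sn) {az aYn : ℝ} {w : Sn}
    (hr : F.Rw gA gB p q az aYn)
    (h1 : w.u = p.y - q.y) (h2 : w.vU = p.vY - q.vY)
    (h3 : w.y = S.n - a * (gA * p.u + gB * q.u))
    (h4 : w.vY = S.n - q0 * (gA * p.vU + gB * q.vU))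
    (h5 : w.aU = az) (h6 : w.aY = aYn) (hw0 : 0 ≤ w.vU) (hw2 : w.vU ≤ F.x.uh)
    (hlo : 0 ≤ w.vY) (hhi : w.vY ≤ F.x.yh) (haz : az ≤ p.aY + q.aY)
    (hay : aYn ≤ F.E.xk * (Real.sqrt (p.vU ^ 2 + p.aU ^ 2) + Real.sqrt (q.vU ^ 2 + q.aU ^ 2)))
    (hq : 0 ≤ F.x.q.ev ![0, 0, 0, 0] ![p.vU, p.aU, p.vY, p.aY] ![q.vU, q.aU, q.vY, q.aY])
    (hc : 0 ≤ F.l.k0 + F.l.k1 * w.y) :
    F.pN.ns.ev w + F.l.b * (a ^ 2 * (p.y - q.y) ^ 2 + a * w.y ^ 2) - (F.l.r0 + F.l.r1 * w.y) ≤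
      (F.tA S).ev (F.W F.x.rG.A) 1 gA p + (F.tB S).ev (F.W F.x.rG.B) (-1) gB q + F.ka S := by
  rw [sum_ev2 ht gA gB p q]
  obtain ⟨rU, rG, rY, rz⟩ := hr
  have e3 : (zU2 p q).Z = p.y - q.y := by
    unfold zU2 Z3.Z
    ring
  have e4 : (zG2 gA gB p q).Z = gA * p.u + gB * q.u := by
    unfold zG2 Z3.Z
    ring
  rw [e3] at rU
  rw [e4] at rG
  have b3 := mul_le_mul_of_nonneg_left rU hg.dU
  have b5 := mul_le_mul_of_nonneg_left rG hg.dG
  have b7 := mul_le_mul_of_nonneg_left rY hg.qy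
  have b9 := mul_le_mul_of_nonneg_left rz hg.qU
  have b10 := mul_le_mul_of_nonneg_left haz hg.lU
  have b11 := mul_le_mul_of_nonneg_left hay hg.ly
  have b12 := mul_nonneg hg.l1 (sub_nonneg.2 hw2)
  have b13 := mul_nonneg hg.l2 hw0
  have b14 := mul_nonneg hg.l3 (sub_nonneg.2 hhi)
  have b15 := mul_nonneg hg.l4 hlo
  have b16 := mul_nonneg hg.kp hc
  have ev : F.pN.ns.ev w = F.pN.c + F.pN.al * (p.y - q.y) + F.pN.be * (p.y - q.y) ^ 2 +
      F.pN.ga * w.y + F.pN.de * w.y ^ 2 + F.pN.cv * w.vU + F.pN.dv * w.vY + F.pN.lU * az +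
      F.pN.qU * az ^ 2 + F.pN.ly * aYn + F.pN.qy * aYn ^ 2 := by
    unfold NS.ev NA.ns
    dsimp only
    rw [h1, h5, h6]
    ring
  have eU : F.dU = F.pN.be + a * a * F.l.b := by
    unfold F2.dU
    simp only [rAdd, rMul, ht]
  have eY : F.dY = F.pN.de + a * F.l.b := by
    unfold F2.dY
    simp only [rAdd, rMul, ht]
  have eG : F.dG = a * a * F.dY := by
    unfold F2.dG
    simp only [rMul, ht]
  have er : F.rr = F.l.r1 - F.x.kp * F.l.k1 := by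
    unfold F2.rr
    simp only [rMul, rSub]
  have ec : F.pcv = F.pN.cv + (F.x.l2 - F.x.l1) := by
    unfold F2.pcv
    simp only [rAdd, rSub]
  have ed : F.pdv = F.pN.dv + (F.x.l4 - F.x.l3) := by
    unfold F2.pdv
    simp only [rAdd, rSub]
  obtain ⟨G, hG⟩ : ∃ G, G = gA * p.u + gB * q.u := ⟨_, rfl⟩
  obtain ⟨vG, hvG⟩ : ∃ vG, vG = gA * p.vU + gB * q.vU := ⟨_, rfl⟩
  rw [← hG] at h3 b5 ⊢
  rw [← hvG] at h4 ⊢
  -- the square of the new `y`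
  have c1 : F.pN.de * w.y ^ 2 + F.l.b * (a * w.y ^ 2) =
      (S.n : ℝ) ^ 2 * F.dY - 2 * (S.n * F.dY) * (a * G) + F.dG * G ^ 2 := by
    rw [eG, eY, h3]
    ring
  have c2 : F.pN.be * (p.y - q.y) ^ 2 + F.l.b * (a ^ 2 * (p.y - q.y) ^ 2) =
      F.dU * (p.y - q.y) ^ 2 := by
    rw [eU]
    ring
  have c3 : F.pN.ga * w.y - F.l.r1 * w.y + F.x.kp * (F.l.k0 + F.l.k1 * w.y) =
      S.n * F.pN.ga - S.n * F.rr + a * (F.rr - F.pN.ga) * G + F.x.kp * F.l.k0 := by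
    rw [er, h3]
    ring
  have c4 : F.pcv * w.vU = F.pN.cv * w.vU + F.x.l2 * w.vU - F.x.l1 * w.vU := by
    rw [ec]
    ring
  have c5 : F.pdv * w.vY = F.pN.dv * w.vY + F.x.l4 * w.vY - F.x.l3 * w.vY := by
    rw [ed]
    ring
  have c6 : F.pdv * w.vY = S.n * F.pdv - F.pdv * (q0 * vG) := by
    rw [h4]
    ring
  rw [← h2, ev]
  linarith

/-! ### the numbers of a cell and their test -/

open Dec (nn ps sub add mul nsm one zero neg)

/-- the numbers of one line in one cell -/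
structure P2X where
  /-- `U'²` -/
  pU : PR
  /-- `G²` -/
  pG : PR
  /-- the part of `a_y'²` which is bounded by `fm`, `km`; zero for `lg = false` -/
  ze : Dec
  /-- weight of `a_X²` of `A` for the other part -/
  yA : Dec
  /-- weight of `a_X²` of `B` for the other part -/
  yB : Dec
  /-- number of the creation inequality of `A` -/
  nA : ℕ
  /-- number of the creation inequality of `B` -/
  nB : ℕ
  /-- weight of `a_U'²` -/
  qA : Dec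
  /-- weight of `a_U'²` -/
  qB : Dec
  /-- the multipliers of the conditions -/
  lm : List Dec
  /-- see `X2` -/
  kp : Dec
  /-- see `X2` -/
  l1 : Dec
  /-- see `X2` -/
  l2 : Dec
  /-- see `X2` -/
  l3 : Dec
  /-- see `X2` -/
  l4 : Dec
  /-- see `X2` -/
  cA : Dec
  /-- see `X2` -/
  cB : Dec
  /-- see `X2` -/
  dA : S4 Dec
  /-- see `X2` -/
  dB : S4 Dec

/-- the numbers which are computed -/
def mkX2 (S : P2S) (th : Dec) (x : P2X) : X2 Dec where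
  rU := (rowZ S.kU th x.pU).rnd
  rG := (rowZ S.kG th x.pG).rnd
  vA := rup (mul (add (mul x.ze S.fm) x.yA) (mul T2 (tabX x.nA).1))
  yA := rup (mul (add (mul x.ze S.fm) x.yA) (mul T2 (tabX x.nA).2))
  vB := rup (mul (add (mul x.ze S.fm) x.yB) (mul T2 (tabX x.nB).1))
  yB := rup (mul (add (mul x.ze S.fm) x.yB) (mul T2 (tabX x.nB).2))
  ky := mul x.ze S.km
  aA := x.qA
  aB := x.qB
  q := qsum x.lm S.cd
  kp := x.kp
  l1 := x.l1
  l2 := x.l2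
  l3 := x.l3
  l4 := x.l4
  uh := S.uh
  yh := S.yh
  cA := x.cA
  cB := x.cB
  dA := x.dA
  dB := x.dB

/-- the test of two weights of a sum -/
def w2Ok (x y : Dec) : Bool := ps x && (ps y && nn (sub (mul x y) (add x y)))

/-- the test of the shares -/
def sh2Ok (S : P2S) (x : P2X) : Bool :=
  nn (sub (add x.cA x.cB) one) && (nn (sub one (add x.cA x.cB)) &&
    S.tA.all fun i => S.tB.all fun j => nn (add (x.dA.ty i) (x.dB.ty j)))

/-- the test of the bound of `a_y'²` -/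
def y2Ok (S : P2S) (x : P2X) : Bool :=
  nn x.ze && (nn (sub one x.ze) && ((S.lg || nn (neg x.ze)) && (nn (mul x.ze S.fm) &&
    c2Ok true (sub one x.ze) x.yA x.yB)))

/-- the test of the numbers of a cell with the width `th` -/
def p2Ok (S : P2S) (th : Dec) (x : P2X) : Bool :=
  zOk false S.kU th x.pU && (zOk false S.kG th x.pG && (y2Ok S x &&
  (w2Ok x.qA x.qB && (x.lm.all nn && (nn x.kp && (nn x.l1 && (nn x.l2 && (nn x.l3 &&
  (nn x.l4 && (sgOk S.kU && (sgOk S.kG && sh2Ok S x)))))))))))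

lemma w2_le {x y : Dec} (h : w2Ok x y = true) (u v : ℝ) :
    (u + v) ^ 2 ≤ x.val * u ^ 2 + y.val * v ^ 2 := by
  simp only [w2Ok, Bool.and_eq_true] at h
  obtain ⟨h1, h2, h3⟩ := h
  have e1 := Dec.ps_iff h1
  have e2 := Dec.ps_iff h2
  have e3 := Dec.nn_iff h3
  simp only [Dec.val_sub, Dec.val_mul, Dec.val_add] at e3
  have := cau2 (x := u) (y := v) e1 e2 (k := 1) (by linarith)
  linarith

/-- what is known about the bounds of the new seminorms -/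
structure Cr2 (S : P2S) (p q : Sn) (az aY aXA aXB : ℝ) : Prop where
  z0 : 0 ≤ az
  z1 : az ≤ p.aY + q.aY
  h0 : 0 ≤ aY
  h1 : aY ≤ aXA + aXB
  hl : S.lg = true → aY ^ 2 ≤ S.fm.val * (aXA ^ 2 + aXB ^ 2) + S.km.val
  hA : ∀ n, aXA ^ 2 ≤ q0 ^ 2 * ((tabX n).1.val * p.vU ^ 2 + (tabX n).2.val * p.aU ^ 2)
  hB : ∀ n, aXB ^ 2 ≤ q0 ^ 2 * ((tabX n).1.val * q.vU ^ 2 + (tabX n).2.val * q.aU ^ 2)

lemma cr_aux {y g l w v s : ℝ} {n : ℕ} (hy : 0 ≤ y) (hg : g = (tabX n).1.val)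
    (hl : l = (tabX n).2.val) (hw : w ^ 2 ≤ q0 ^ 2 * (g * v ^ 2 + l * s ^ 2)) :
    y * w ^ 2 ≤ y * (mul T2 (tabX n).1).val * v ^ 2 + y * (mul T2 (tabX n).2).val * s ^ 2 := by
  have ht := tx_nonneg (TSC.tabX_tx n)
  have g1 := T2_ge ht.1
  have g2 := T2_ge ht.2
  have m1 := mul_le_mul_of_nonneg_right g1 (sq_nonneg v)
  have m2 := mul_le_mul_of_nonneg_right g2 (sq_nonneg s)
  rw [hg, hl] at hw
  have m3 : w ^ 2 ≤ (mul T2 (tabX n).1).val * v ^ 2 + (mul T2 (tabX n).2).val * s ^ 2 := by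
    linarith
  have := mul_le_mul_of_nonneg_left m3 hy
  linarith

/-- **the bounds of the squares from the test** -/
theorem p2_rw {S : P2S} {thd : Dec} {x : P2X} {F : F2 ℝ}
    (hx : F.x = (mkX2 S thd x).map Dec.val) (hok : p2Ok S thd x = true) {θ : ℝ}
    (hθ0 : 0 ≤ θ) (hθ : θ ≤ thd.val) {gA gB : ℝ} {p q : Sn}
    (hU : S.kU.Ok θ (zU2 p q)) (hG : S.kG.Ok θ (zG2 gA gB p q)) {az aY aXA aXB : ℝ}
    (hc : Cr2 S p q az aY aXA aXB) : F.Rw gA gB p q az aY := by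
  simp only [p2Ok, Bool.and_eq_true] at hok
  obtain ⟨k1, k2, k3, k4, k5, k6, k7, k8, k9, k10, k11, k12, k13⟩ := hok
  have hgU := sgOk_sound k11
  have hgG := sgOk_sound k12
  refine ⟨?_, ?_, ?_, ?_⟩
  · rw [hx]
    have h1 := rowZ_le hU hgU hθ0 hθ k1
    have h2 := R3.rnd_le (rowZ S.kU thd x.pU) (zU2 p q)
    simp only [Bool.false_eq_true, if_false, zero_mul, add_zero] at h1
    exact h1.trans h2
  · rw [hx]
    have h1 := rowZ_le hG hgG hθ0 hθ k2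
    have h2 := R3.rnd_le (rowZ S.kG thd x.pG) (zG2 gA gB p q)
    simp only [Bool.false_eq_true, if_false, zero_mul, add_zero] at h1
    exact h1.trans h2
  · rw [hx]
    obtain ⟨yA, hyA⟩ : ∃ y : Dec, y = add (mul x.ze S.fm) x.yA := ⟨_, rfl⟩
    obtain ⟨yB, hyB⟩ : ∃ y : Dec, y = add (mul x.ze S.fm) x.yB := ⟨_, rfl⟩
    have hy0 : 0 ≤ yA.val ∧ 0 ≤ yB.val ∧
        aY ^ 2 ≤ yA.val * aXA ^ 2 + yB.val * aXB ^ 2 + x.ze.val * S.km.val := by
      simp only [y2Ok, Bool.and_eq_true] at k3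
      obtain ⟨z1, z2, z3, z4, z5⟩ := k3
      have w1 := Dec.nn_iff z1
      have w2 := Dec.nn_iff z2
      have w4 := Dec.nn_iff z4
      rw [Dec.val_sub, Dec.val_one] at w2
      rw [Dec.val_mul] at w4
      obtain ⟨c1, c2, c3⟩ := c2_le z5 aXA aXB (fun h => absurd h (by simp))
      rw [Dec.val_sub, Dec.val_one] at c1
      have s1 := (mul_le_mul_of_nonneg_left (pow_le_pow_left₀ hc.h0 hc.h1 2) w2).trans c1
      have s2 : x.ze.val * aY ^ 2 ≤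
          x.ze.val * (S.fm.val * (aXA ^ 2 + aXB ^ 2) + S.km.val) := by
        cases hlg : S.lg
        · rw [hlg, Bool.false_or] at z3
          have w3 := Dec.nn_iff z3
          rw [Dec.val_neg] at w3
          have h0 : x.ze.val = 0 := by linarith
          rw [h0]
          simp
        · exact mul_le_mul_of_nonneg_left (hc.hl hlg) w1
      rw [hyA, hyB]
      simp only [Dec.val_add, Dec.val_mul]
      refine ⟨by linarith, by linarith, ?_⟩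
      linarith
    obtain ⟨y0, y1, y2⟩ := hy0
    have m1 := cr_aux y0 rfl rfl (hc.hA x.nA)
    have m2 := cr_aux y1 rfl rfl (hc.hB x.nB)
    have e1 := mul_le_mul_of_nonneg_right (rup_le (mul yA (mul T2 (tabX x.nA).1)))
      (sq_nonneg p.vU)
    have e2 := mul_le_mul_of_nonneg_right (rup_le (mul yA (mul T2 (tabX x.nA).2)))
      (sq_nonneg p.aU)
    have e3 := mul_le_mul_of_nonneg_right (rup_le (mul yB (mul T2 (tabX x.nB).1)))
      (sq_nonneg q.vU)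
    have e4 := mul_le_mul_of_nonneg_right (rup_le (mul yB (mul T2 (tabX x.nB).2)))
      (sq_nonneg q.aU)
    rw [Dec.val_mul yA] at e1 e2
    rw [Dec.val_mul yB] at e3 e4
    have f1 : ((mkX2 S thd x).map Dec.val).vA =
        (rup (mul yA (mul T2 (tabX x.nA).1))).val := by rw [hyA]; rfl
    have f2 : ((mkX2 S thd x).map Dec.val).yA =
        (rup (mul yA (mul T2 (tabX x.nA).2))).val := by rw [hyA]; rfl
    have f3 : ((mkX2 S thd x).map Dec.val).vB =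
        (rup (mul yB (mul T2 (tabX x.nB).1))).val := by rw [hyB]; rfl
    have f4 : ((mkX2 S thd x).map Dec.val).yB =
        (rup (mul yB (mul T2 (tabX x.nB).2))).val := by rw [hyB]; rfl
    have f5 : ((mkX2 S thd x).map Dec.val).ky = x.ze.val * S.km.val := by
      show (mul x.ze S.km).val = _
      rw [Dec.val_mul]
    rw [f1, f2, f3, f4, f5]
    linarith
  · rw [hx]
    have h1 := (pow_le_pow_left₀ hc.z0 hc.z1 2).trans (w2_le k4 p.aY q.aY)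
    exact h1

lemma p2_ls {S : P2S} {thd : Dec} {x : P2X} (hok : p2Ok S thd x = true) :
    0 ≤ x.kp.val ∧ 0 ≤ x.l1.val ∧ 0 ≤ x.l2.val ∧ 0 ≤ x.l3.val ∧ 0 ≤ x.l4.val ∧
      x.lm.all nn = true ∧ sh2Ok S x = true := by
  simp only [p2Ok, Bool.and_eq_true] at hok
  obtain ⟨k1, k2, k3, k4, k5, k6, k7, k8, k9, k10, k11, k12, k13⟩ := hok
  exact ⟨Dec.nn_iff k6, Dec.nn_iff k7, Dec.nn_iff k8, Dec.nn_iff k9, Dec.nn_iff k10, k5, k13⟩

/-- the shares -/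
lemma sh2_sum {S : P2S} {x : P2X} (h : sh2Ok S x = true) {i j : ℕ} (hi : i ∈ S.tA)
    (hj : j ∈ S.tB) :
    x.cA.val + x.cB.val = 1 ∧ 0 ≤ (x.dA.ty i).val + (x.dB.ty j).val := by
  unfold sh2Ok at h
  simp only [Bool.and_eq_true, List.all_eq_true] at h
  obtain ⟨h1, h2, h3⟩ := h
  have e1 := Dec.nn_iff h1
  have e2 := Dec.nn_iff h2
  have e3 := Dec.nn_iff (h3 i hi j hj)
  simp only [Dec.val_sub, Dec.val_add, Dec.val_one] at e1 e2 e3
  constructor <;> linarith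

end Pool.Agent.TSG
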