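import Pool.Agent.TSM.EvenDB
import Pool.Agent.TSC.Dec

set_option autoImplicit false

/-!
# A checker for the constants of the even rule with a constant (MP_d27362_co, helper2)

All constants are multiples of `1 / 10 ^ 5`. The inequalities are between polynomials with integer
coefficients on a half line or on an interval, tested by bisection (continued fractions).
-/

namespace Pool.Agent.TSG.RowC

open Pool.Agent.TSC
open Pool.Agent.TSM (ExpFd ExpEd)

/-- the value of a polynomial, the coefficients with the constant one first -/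
noncomputable def pe : List ℤ → ℝ → ℝ
  | [], _ => 0
  | a :: p, x => a + x * pe p x

/-- sum -/
def padd : List ℤ → List ℤ → List ℤ
  | [], q => q
  | a :: p, [] => a :: p
  | a :: p, b :: q => (a + b) :: padd p q

/-- multiple -/
def psm (k : ℤ) : List ℤ → List ℤ
  | [] => []
  | a :: p => (k * a) :: psm k p

/-- product -/
def pmul : List ℤ → List ℤ → List ℤ
  | [], _ => []
  | a :: p, q => padd (psm a q) (0 :: pmul p q)

/-- power -/
def ppow (p : List ℤ) : ℕ → List ℤ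
  | 0 => [1]
  | n + 1 => pmul p (ppow p n)

/-- `a + (1 + x) s` -/
def pcv (a : ℤ) : List ℤ → List ℤ
  | [] => [a]
  | b :: t => (a + b) :: pcv b t

/-- `p (1 + x)` -/
def psh : List ℤ → List ℤ
  | [] => []
  | a :: p => pcv a (psh p)

/-- `p (-x)` -/
def pneg : List ℤ → List ℤ
  | [] => []
  | a :: p => a :: psm (-1) (pneg p)

/-- nonnegative integer -/
def inn : ℤ → Bool
  | Int.ofNat _ => true
  | Int.negSucc _ => false

/-- nonnegative coefficients -/
def pnn : List ℤ → Bool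
  | [] => true
  | a :: p => inn a && pnn p

/-- nonnegative constant coefficient -/
def phd : List ℤ → Bool
  | [] => true
  | a :: _ => inn a

/-- the polynomial is nonnegative on the half line -/
def posI : ℕ → List ℤ → Bool
  | 0, p => pnn p
  | n + 1, p => pnn p || (phd p && (posI n (psh p) && posI n (psh p.reverse).reverse))

/-- the polynomial is nonnegative on `[0, 1)` -/
def posU (n : ℕ) (p : List ℤ) : Bool := phd p && posI n (psh p.reverse).reverse

lemma pe_nil (x : ℝ) : pe [] x = 0 := rfl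

lemma pe_cons (a : ℤ) (p : List ℤ) (x : ℝ) : pe (a :: p) x = a + x * pe p x := rfl

lemma pe_padd (p : List ℤ) : ∀ (q : List ℤ) (x : ℝ), pe (padd p q) x = pe p x + pe q x := by
  induction p with
  | nil => intro q x; simp [padd, pe]
  | cons a p ih =>
    intro q x
    cases q with
    | nil => simp [padd, pe]
    | cons b q =>
      simp only [padd, pe, ih, Int.cast_add]
      ring

lemma pe_psm (k : ℤ) (p : List ℤ) (x : ℝ) : pe (psm k p) x = k * pe p x := by
  induction p with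
  | nil => simp [psm, pe]
  | cons a p ih =>
    simp only [psm, pe, ih, Int.cast_mul]
    ring

lemma pe_pmul (p q : List ℤ) (x : ℝ) : pe (pmul p q) x = pe p x * pe q x := by
  induction p with
  | nil => simp [pmul, pe]
  | cons a p ih =>
    simp only [pmul, pe_padd, pe_psm, pe, ih, Int.cast_zero]
    ring

lemma pe_ppow (p : List ℤ) (n : ℕ) (x : ℝ) : pe (ppow p n) x = pe p x ^ n := by
  induction n with
  | zero => simp [ppow, pe]
  | succ n ih => rw [ppow, pe_pmul, ih, pow_succ, mul_comm]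

lemma pe_pcv (s : List ℤ) : ∀ (a : ℤ) (x : ℝ), pe (pcv a s) x = a + (1 + x) * pe s x := by
  induction s with
  | nil => intro a x; simp [pcv, pe]
  | cons b t ih =>
    intro a x
    simp only [pcv, pe, ih, Int.cast_add]
    ring

lemma pe_psh (p : List ℤ) (x : ℝ) : pe (psh p) x = pe p (1 + x) := by
  induction p with
  | nil => simp [psh, pe]
  | cons a p ih => rw [psh, pe_pcv, ih, pe]

lemma pe_pneg (p : List ℤ) (x : ℝ) : pe (pneg p) x = pe p (-x) := by
  induction p with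
  | nil => simp [pneg, pe]
  | cons a p ih =>
    rw [pneg, pe, pe_psm, ih, pe]
    push_cast
    ring

lemma pe_append (p : List ℤ) : ∀ (q : List ℤ) (x : ℝ),
    pe (p ++ q) x = pe p x + x ^ p.length * pe q x := by
  induction p with
  | nil => intro q x; simp [pe]
  | cons a p ih =>
    intro q x
    simp only [List.cons_append, pe, ih, List.length_cons, pow_succ]
    ring

lemma pe_reverse (p : List ℤ) {x : ℝ} (hx : x ≠ 0) :
    x * pe p.reverse x = x ^ p.length * pe p x⁻¹ := by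
  induction p with
  | nil => simp [pe]
  | cons a p ih =>
    rw [List.reverse_cons, pe_append, mul_add, ih, List.length_reverse, List.length_cons]
    simp only [pe]
    rw [pow_succ]
    field_simp
    ring

lemma inn_iff {a : ℤ} (h : inn a = true) : (0 : ℝ) ≤ a := by
  cases a with
  | ofNat n => simp
  | negSucc n => simp [inn] at h

lemma pnn_sound {p : List ℤ} (h : pnn p = true) {x : ℝ} (hx : 0 ≤ x) : 0 ≤ pe p x := by
  induction p with
  | nil => simp [pe]
  | cons a p ih =>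
    rw [pnn, Bool.and_eq_true] at h
    rw [pe]
    exact add_nonneg (inn_iff h.1) (mul_nonneg hx (ih h.2))

lemma phd_sound {p : List ℤ} (h : phd p = true) : 0 ≤ pe p 0 := by
  cases p with
  | nil => simp [pe]
  | cons a p =>
    rw [pe, zero_mul, add_zero]
    exact inn_iff h

/-- the interval from the half line -/
lemma unit_sound {p : List ℤ} (h0 : phd p = true)
    (h : ∀ x : ℝ, 0 ≤ x → 0 ≤ pe (psh p.reverse).reverse x) {s : ℝ} (hs : 0 ≤ s) (h1 : s < 1) :
    0 ≤ pe p s := by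
  rcases hs.eq_or_lt with rfl | hs
  · exact phd_sound h0
  · have hz : 0 < s / (1 - s) := div_pos hs (by linarith)
    have e1 := pe_reverse (psh p.reverse) hz.ne'
    have e2 := pe_reverse p (inv_pos.2 hs).ne'
    have e3 : 1 + (s / (1 - s))⁻¹ = s⁻¹ := by
      have : (1 - s) ≠ 0 := by
        have : 0 < 1 - s := by linarith
        exact this.ne'
      field_simp
      ring
    rw [pe_psh, e3] at e1
    rw [inv_inv] at e2
    have h2 := h _ hz.le
    have h3 : 0 ≤ (s / (1 - s)) ^ (psh p.reverse).length * pe p.reverse s⁻¹ := by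
      rw [← e1]
      exact mul_nonneg hz.le h2
    have h4 : 0 ≤ pe p.reverse s⁻¹ := nonneg_of_mul_nonneg_right h3 (pow_pos hz _)
    have h5 : 0 ≤ s⁻¹ ^ p.length * pe p s := by
      rw [← e2]
      exact mul_nonneg (inv_pos.2 hs).le h4
    exact nonneg_of_mul_nonneg_right h5 (pow_pos (inv_pos.2 hs) _)

lemma posI_sound (n : ℕ) : ∀ p : List ℤ, posI n p = true → ∀ x : ℝ, 0 ≤ x → 0 ≤ pe p x := by
  induction n with
  | zero => intro p h x hx; exact pnn_sound h hx
  | succ n ih =>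
    intro p h x hx
    rw [posI, Bool.or_eq_true, Bool.and_eq_true, Bool.and_eq_true] at h
    rcases h with h | ⟨h0, h1, h2⟩
    · exact pnn_sound h hx
    · rcases lt_or_ge x 1 with h3 | h3
      · exact unit_sound h0 (ih _ h2) hx h3
      · have h4 := ih _ h1 (x - 1) (by linarith)
        rwa [pe_psh, add_sub_cancel] at h4

lemma posU_sound {n : ℕ} {p : List ℤ} (h : posU n p = true) {s : ℝ} (hs : 0 ≤ s)
    (h1 : s < 1) : 0 ≤ pe p s := by
  rw [posU, Bool.and_eq_true] at h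
  exact unit_sound h.1 (posI_sound n _ h.2) hs h1

/-- `10 ^ k` -/
def tn (k : ℕ) : ℤ := Int.ofNat (Nat.pow 10 k)

lemma tn_cast (k : ℕ) : ((tn k : ℤ) : ℝ) = 10 ^ k := by
  simp [tn]

/-- `322560` times the bound of the exponential on `[-1, 1]` -/
def exT : List ℤ := [322560, 322560, 161280, 53760, 13440, 2688, 448, 64, 9]

lemma exT_sound {x : ℝ} (h0 : -1 ≤ x) (h1 : x ≤ 1) : 322560 * Real.exp x ≤ pe exT x := by
  have h := Real.exp_bound (x := x) (abs_le.2 ⟨by linarith, h1⟩) (n := 8) (by norm_num)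
  have h2 := (abs_le.1 h).2
  simp only [Finset.sum_range_succ, Finset.sum_range_zero, Nat.factorial] at h2
  push_cast at h2
  have e : |x| ^ 8 = x ^ 8 := by
    rw [show (8 : ℕ) = 2 * 4 by norm_num, pow_mul, sq_abs, pow_mul]
  rw [e] at h2
  simp only [exT, pe]
  push_cast
  linarith

/-- `6 · 10 ^ 15` times the bound of `e ^ de` from below, `de = D / 10 ^ 5` -/
def edN (D : ℤ) : ℤ := 6 * tn 15 + D * (6 * tn 10 + D * (3 * tn 5 + D))

lemma edN_sound (D : ℤ) (hD : 0 ≤ D) :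
    ((edN D : ℤ) : ℝ) ≤ 6 * 10 ^ 15 * Real.exp (D / 10 ^ 5) := by
  have h0 : (0 : ℝ) ≤ D := by exact_mod_cast hD
  have h := Pool.Agent.TSM.taylor3_le_expE ((D : ℝ) / 10 ^ 5) (by positivity)
  unfold edN
  push_cast
  rw [tn_cast, tn_cast, tn_cast]
  linarith

lemma edN_nonneg (D : ℤ) (hD : 0 ≤ D) : (0 : ℝ) ≤ ((edN D : ℤ) : ℝ) := by
  have h0 : (0 : ℝ) ≤ D := by exact_mod_cast hD
  unfold edN
  push_cast
  rw [tn_cast, tn_cast, tn_cast]
  positivity

/-- `10 ^ 15 (1 + u + c u²)` with `u = U / 10 ^ 5`, `c = C / 10 ^ 5` -/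
def rowQ (C : ℤ) (U : List ℤ) : List ℤ := padd [tn 15] (pmul U (padd [tn 10] (psm C U)))

lemma pe_rowQ (C : ℤ) (U : List ℤ) (x u : ℝ) (hu : pe U x = 10 ^ 5 * u) :
    pe (rowQ C U) x = 10 ^ 15 * (1 + u + (C / 10 ^ 5) * u ^ 2) := by
  unfold rowQ
  rw [pe_padd, pe_pmul, pe_padd, pe_psm, hu]
  simp only [pe, tn_cast]
  ring

/-- `120 · 10 ^ 75` times the Taylor polynomial of degree `5` of `e ^ (μ u²)` -/
def rowT (W : List ℤ) : List ℤ :=
  padd [120 * tn 75] (pmul W (padd [120 * tn 60] (pmul W (padd [60 * tn 45]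
    (pmul W (padd [20 * tn 30] (pmul W (padd [5 * tn 15] W))))))))

lemma pe_rowT (W : List ℤ) (x y : ℝ) (hu : pe W x = 10 ^ 15 * y) :
    pe (rowT W) x = 120 * 10 ^ 75 *
      (1 + y + y ^ 2 / 2 + y ^ 3 / 6 + y ^ 4 / 24 + y ^ 5 / 120) := by
  unfold rowT
  simp only [pe_padd, pe_pmul, hu, pe]
  push_cast
  simp only [tn_cast]
  ring

/-- the right side, `720 · 10 ^ 105` times a bound from below of `e ^ (de + μ u²) (1 + u + c u²)` -/
def rowR (C M D : ℤ) (U : List ℤ) : List ℤ :=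
  psm (edN D) (pmul (rowQ C U) (rowT (psm M (pmul U U))))

lemma pe_rowR {C M D : ℤ} (hC : 10 ^ 5 ≤ 4 * C) (hM : 0 ≤ M) (hD : 0 ≤ D) {U : List ℤ}
    {x u : ℝ} (hu : pe U x = 10 ^ 5 * u) :
    pe (rowR C M D U) x ≤ 720 * 10 ^ 105 *
      (Real.exp (D / 10 ^ 5 + (M / 10 ^ 5) * u ^ 2) * (1 + u + (C / 10 ^ 5) * u ^ 2)) := by
  have hM0 : (0 : ℝ) ≤ M := by exact_mod_cast hM
  have hC0 : (10 ^ 5 : ℝ) ≤ 4 * C := by exact_mod_cast hC
  have hq : 0 ≤ 1 + u + ((C : ℝ) / 10 ^ 5) * u ^ 2 := by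
    have h1 : (1 / 4 : ℝ) ≤ (C : ℝ) / 10 ^ 5 := by
      rw [le_div_iff₀ (by positivity)]
      linarith
    have h2 := mul_le_mul_of_nonneg_right h1 (sq_nonneg u)
    nlinarith [sq_nonneg (u + 2)]
  have hy : 0 ≤ ((M : ℝ) / 10 ^ 5) * u ^ 2 := by positivity
  have h1 := edN_sound D hD
  have h2 := Pool.Agent.TSM.taylor5_le_exp _ hy
  have h4 : pe (psm M (pmul U U)) x = 10 ^ 15 * (((M : ℝ) / 10 ^ 5) * u ^ 2) := by
    rw [pe_psm, pe_pmul, hu]
    ring
  unfold rowR
  rw [pe_psm, pe_pmul, pe_rowQ C U x u hu, pe_rowT _ x _ h4, Real.exp_add]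
  have h5 := mul_le_mul h1 h2 (by positivity) (by positivity)
  have h6 := mul_le_mul_of_nonneg_right h5 hq
  linarith

/-- composition, `10 ^ (5 (length p - 1)) p (U / 10 ^ 5)` -/
def pcmp (U : List ℤ) : List ℤ → List ℤ
  | [] => []
  | a :: p => padd [a * tn (5 * p.length)] (pmul U (pcmp U p))

lemma pe_pcmp (U : List ℤ) (x u : ℝ) (hu : pe U x = 10 ^ 5 * u) (p : List ℤ) :
    10 ^ 5 * pe (pcmp U p) x = 10 ^ (5 * p.length) * pe p u := by
  induction p with
  | nil => simp [pcmp, pe]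
  | cons a p ih =>
    rw [pcmp, pe_padd, pe_pmul, hu]
    simp only [pe, List.length_cons]
    push_cast
    rw [tn_cast, mul_add 5 p.length 1, pow_add]
    linear_combination (10 ^ 5 * u) * ih

lemma pe_exT (U : List ℤ) (x u : ℝ) (hu : pe U x = 10 ^ 5 * u) :
    pe (pcmp U exT) x = 10 ^ 40 * pe exT u := by
  have h := pe_pcmp U x u hu exT
  have e : (5 * exT.length) = 45 := rfl
  rw [e] at h
  have : (10 : ℝ) ^ 5 * pe (pcmp U exT) x = 10 ^ 5 * (10 ^ 40 * pe exT u) := by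
    rw [h]
    ring
  exact mul_left_cancel₀ (by positivity) this

/-- the polynomial of the test on `[-a - 1, -a]`, `e ^ (-a) ≤ ea / 10 ^ 10` -/
def polA (C D a ea : ℤ) : List ℤ :=
  padd (psm (53760 * edN D) (rowQ C [-(a * tn 5), - tn 5])) (psm (-(ea * tn 20)) (pneg exT))

lemma polA_sound {n : ℕ} {C D a ea : ℤ} (hD : 0 ≤ D) (hC : 10 ^ 5 ≤ 4 * C)
    (h : posU n (polA C D a ea) = true) (hE : Real.exp (-a) ≤ ea / 10 ^ 10) {u : ℝ}
    (h0 : -(a : ℝ) - 1 < u) (h1 : u ≤ -a) :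
    Real.exp u ≤ Real.exp (D / 10 ^ 5) * (1 + u + (C / 10 ^ 5) * u ^ 2) := by
  have h2 := posU_sound h (s := -a - u) (by linarith) (by linarith)
  have hC0 : (10 ^ 5 : ℝ) ≤ 4 * C := by exact_mod_cast hC
  have hq : 0 ≤ 1 + u + ((C : ℝ) / 10 ^ 5) * u ^ 2 := by
    have h1 : (1 / 4 : ℝ) ≤ (C : ℝ) / 10 ^ 5 := by
      rw [le_div_iff₀ (by positivity)]
      linarith
    have h2 := mul_le_mul_of_nonneg_right h1 (sq_nonneg u)
    nlinarith [sq_nonneg (u + 2)]
  have h3 : pe [-(a * tn 5), - tn 5] (-a - u) = 10 ^ 5 * u := by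
    simp only [pe]
    push_cast
    rw [tn_cast]
    ring
  unfold polA at h2
  rw [pe_padd, pe_psm, pe_rowQ C _ _ u h3, pe_psm, pe_pneg] at h2
  have h4 := exT_sound (x := -(-a - u)) (by linarith) (by linarith)
  have e5 : Real.exp u = Real.exp (-a) * Real.exp (-(-a - u)) := by
    rw [← Real.exp_add]
    congr 1
    ring
  have h6 := edN_sound D hD
  have hea : (0 : ℝ) ≤ ea := by
    have h7 : (0 : ℝ) < ea / 10 ^ 10 := (Real.exp_pos _).trans_le hE
    have h8 : (0 : ℝ) < ea := by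
      rw [lt_div_iff₀ (by positivity)] at h7
      linarith
    exact h8.le
  have h7 : Real.exp u ≤ ea / 10 ^ 10 * (pe exT (-(-a - u)) / 322560) := by
    rw [e5]
    refine mul_le_mul hE ?_ (Real.exp_nonneg _) (by positivity)
    linarith
  have h8 := mul_le_mul_of_nonneg_right h6 hq
  push_cast at h2
  rw [tn_cast] at h2
  linarith

/-- the test for `u ≤ 0` -/
def rowA (n : ℕ) (C D : ℤ) : Bool :=
  inn (4 * C - tn 5) && (inn (edN D * (9 * C - 2 * tn 5) - 6 * tn 10 * 497870690) &&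
    (posU n (polA C D 0 (tn 10)) && (posU n (polA C D 1 3678794412) &&
    posU n (polA C D 2 1353352833))))

lemma rowA_C {n : ℕ} {C D : ℤ} (h : rowA n C D = true) : 10 ^ 5 ≤ 4 * C := by
  simp only [rowA, Bool.and_eq_true] at h
  have h1 := inn_iff h.1
  push_cast at h1
  rw [tn_cast] at h1
  have h2 : ((10 ^ 5 : ℤ) : ℝ) ≤ ((4 * C : ℤ) : ℝ) := by
    push_cast
    linarith
  exact_mod_cast h2

lemma exp_m2 : Real.exp (-2) ≤ 1353352833 / 10 ^ 10 := by
  have h := Real.exp_neg_one_lt_d9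
  have h0 := Real.exp_pos (-1)
  have e : Real.exp (-2) = Real.exp (-1) * Real.exp (-1) := by
    rw [← Real.exp_add]
    norm_num
  rw [e]
  norm_num at h ⊢
  nlinarith

lemma exp_m3 : Real.exp (-3) ≤ 497870690 / 10 ^ 10 := by
  have h := Real.exp_neg_one_lt_d9
  have h0 := Real.exp_pos (-1)
  have h2 := exp_m2
  have h3 := Real.exp_pos (-2)
  have e : Real.exp (-3) = Real.exp (-2) * Real.exp (-1) := by
    rw [← Real.exp_add]
    norm_num
  rw [e]
  norm_num at h h2 ⊢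
  nlinarith

lemma rowA_sound {n : ℕ} {C D : ℤ} (h : rowA n C D = true) (hD : 0 ≤ D) {u : ℝ} (hu : u ≤ 0) :
    Real.exp u ≤ Real.exp (D / 10 ^ 5) * (1 + u + (C / 10 ^ 5) * u ^ 2) := by
  have hC := rowA_C h
  simp only [rowA, Bool.and_eq_true] at h
  obtain ⟨-, h2, h3, h4, h5⟩ := h
  rcases lt_or_ge (-1) u with k1 | k1
  · refine polA_sound hD hC h3 ?_ (by push_cast; linarith) (by push_cast; linarith)
    push_cast
    rw [tn_cast, neg_zero, Real.exp_zero, div_self (by positivity)]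
  rcases lt_or_ge (-2) u with k2 | k2
  · refine polA_sound hD hC h4 ?_ (by push_cast; linarith) (by push_cast; linarith)
    push_cast
    have := Real.exp_neg_one_lt_d9
    norm_num at this ⊢
    linarith
  rcases lt_or_ge (-3) u with k3 | k3
  · refine polA_sound hD hC h5 ?_ (by push_cast; linarith) (by push_cast; linarith)
    push_cast
    exact exp_m2
  · have h6 := inn_iff h2
    push_cast at h6
    rw [tn_cast, tn_cast] at h6
    have hC0 : (10 ^ 5 : ℝ) ≤ 4 * C := by exact_mod_cast hC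
    have h7 := edN_sound D hD
    have h8 : Real.exp u ≤ 497870690 / 10 ^ 10 := (Real.exp_le_exp.2 k3).trans exp_m3
    have h9 : 9 * ((C : ℝ) / 10 ^ 5) - 2 ≤ 1 + u + (C / 10 ^ 5) * u ^ 2 := by
      have h1 : (1 / 4 : ℝ) ≤ (C : ℝ) / 10 ^ 5 := by
        rw [le_div_iff₀ (by positivity)]
        linarith
      nlinarith [mul_le_mul_of_nonneg_right h1 (show 0 ≤ u ^ 2 - 9 by nlinarith)]
    have h10 : 0 ≤ 9 * ((C : ℝ) / 10 ^ 5) - 2 := by
      have h1 : (1 / 4 : ℝ) ≤ (C : ℝ) / 10 ^ 5 := by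
        rw [le_div_iff₀ (by positivity)]
        linarith
      linarith
    have h11 := mul_le_mul_of_nonneg_right h7 h10
    have h12 := mul_le_mul_of_nonneg_left h9 (Real.exp_nonneg ((D : ℝ) / 10 ^ 5))
    linarith

/-- the polynomial of the test on `[0, P]` -/
def polB (C M P D : ℤ) : List ℤ :=
  padd (psm 448 (rowR C M D [0, P])) (psm (- tn 65) (pcmp [0, P] exT))

lemma polB_sound {n : ℕ} {C M P D : ℤ} (hC : 10 ^ 5 ≤ 4 * C) (hM : 0 ≤ M) (hD : 0 ≤ D)
    (hP : P ≤ 10 ^ 5) (h : posU n (polB C M P D) = true) {u : ℝ} (h0 : 0 ≤ u)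
    (h1 : u < P / 10 ^ 5) : Real.exp u ≤
      Real.exp (D / 10 ^ 5 + (M / 10 ^ 5) * u ^ 2) * (1 + u + (C / 10 ^ 5) * u ^ 2) := by
  have hP0 : (P : ℝ) ≤ 10 ^ 5 := by exact_mod_cast hP
  have hPp : 0 < (P : ℝ) / 10 ^ 5 := lt_of_le_of_lt h0 h1
  have hP1 : (P : ℝ) / 10 ^ 5 ≤ 1 := by
    rw [div_le_iff₀ (by positivity)]
    linarith
  have hs0 : 0 ≤ u / (P / 10 ^ 5) := div_nonneg h0 hPp.le
  have hs1 : u / (P / 10 ^ 5) < 1 := (div_lt_one hPp).2 h1
  have h2 := posU_sound h hs0 hs1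
  have h3 : pe [0, P] (u / (P / 10 ^ 5)) = 10 ^ 5 * u := by
    simp only [pe]
    push_cast
    have : (P : ℝ) ≠ 0 := fun h => by
      rw [h, zero_div] at hPp
      exact lt_irrefl _ hPp
    field_simp
    ring
  unfold polB at h2
  rw [pe_padd, pe_psm, pe_psm, pe_exT _ _ u h3] at h2
  have h4 := pe_rowR hC hM hD h3
  have h5 := exT_sound (x := u) (by linarith) (by linarith)
  push_cast at h2
  rw [tn_cast] at h2
  linarith

/-- the polynomial of the test on `[P, ∞)` -/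
def polC (K : ℕ) (C M P D : ℤ) : List ℤ :=
  padd (psm (448 * Int.ofNat (Nat.pow K K)) (rowR C M D [P, tn 5]))
    (psm (- tn 65) (pmul (pcmp [P] exT) (ppow [Int.ofNat K, 1] K)))

lemma polC_sound {n K : ℕ} (hK : 0 < K) {C M P D : ℤ} (hC : 10 ^ 5 ≤ 4 * C) (hM : 0 ≤ M)
    (hD : 0 ≤ D) (hP0 : 0 ≤ P) (hP : P ≤ 10 ^ 5) (h : posI n (polC K C M P D) = true) {u : ℝ}
    (h1 : P / 10 ^ 5 ≤ u) : Real.exp (P / 10 ^ 5) * (1 + (u - P / 10 ^ 5) / K) ^ K ≤
      Real.exp (D / 10 ^ 5 + (M / 10 ^ 5) * u ^ 2) * (1 + u + (C / 10 ^ 5) * u ^ 2) := by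
  have hK0 : (0 : ℝ) < K := by exact_mod_cast hK
  have hP0' : (0 : ℝ) ≤ P := by exact_mod_cast hP0
  have hP1' : (P : ℝ) ≤ 10 ^ 5 := by exact_mod_cast hP
  have hP2 : (0 : ℝ) ≤ (P : ℝ) / 10 ^ 5 := by positivity
  have hP1 : (P : ℝ) / 10 ^ 5 ≤ 1 := by
    rw [div_le_iff₀ (by positivity)]
    linarith
  have h2 := posI_sound n _ h (u - P / 10 ^ 5) (by linarith)
  have h3 : pe [P, tn 5] (u - P / 10 ^ 5) = 10 ^ 5 * u := by
    simp only [pe]
    rw [tn_cast]
    ring
  have h4 : pe [P] (u - P / 10 ^ 5) = 10 ^ 5 * (P / 10 ^ 5) := by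
    simp only [pe]
    ring
  have h5 : pe [Int.ofNat K, 1] (u - P / 10 ^ 5) = K + (u - P / 10 ^ 5) := by
    simp only [pe]
    push_cast
    simp
  unfold polC at h2
  rw [pe_padd, pe_psm, pe_psm, pe_pmul, pe_ppow, pe_exT _ _ _ h4, h5] at h2
  have h6 := pe_rowR hC hM hD h3
  have h7 := exT_sound (x := (P : ℝ) / 10 ^ 5) (by linarith) hP1
  have h8 : (0 : ℝ) ≤ (K + (u - P / 10 ^ 5)) ^ K := by
    have : 0 ≤ K + (u - (P : ℝ) / 10 ^ 5) := by linarith
    positivity
  have h9 := mul_le_mul_of_nonneg_right h7 h8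
  have hKK : (0 : ℝ) < (K : ℝ) ^ K := by positivity
  have e10 : (1 + (u - P / 10 ^ 5) / K) ^ K = (K + (u - (P : ℝ) / 10 ^ 5)) ^ K / K ^ K := by
    rw [← div_pow]
    congr 1
    field_simp
  rw [e10, ← mul_div_assoc, div_le_iff₀ hKK]
  push_cast at h2
  rw [tn_cast] at h2
  simp only [Int.ofNat_eq_natCast, Nat.pow_eq] at h2
  push_cast at h2
  have h11 := mul_le_mul_of_nonneg_left h6 hKK.le
  linarith

/-- the polynomial of the test of Rule E on `[a, a + 1]` -/
def polD (C M D : ℤ) (a : ℕ) : List ℤ :=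
  padd (psm (448 * tn (10 * a)) (rowR C M D [Int.ofNat a * tn 5, tn 5]))
    (psm (- (Int.ofNat (Nat.pow 27182818286 a) * tn 105)) exT)

lemma exp_nat_le (a : ℕ) : Real.exp a ≤ (27182818286 : ℝ) ^ a / 10 ^ (10 * a) := by
  have h := Real.exp_one_lt_d9
  have h2 : Real.exp 1 ≤ 27182818286 / 10 ^ 10 := by
    norm_num at h ⊢
    linarith
  have h3 := pow_le_pow_left₀ (Real.exp_nonneg 1) h2 a
  rw [← Real.exp_nat_mul, mul_one, div_pow, ← pow_mul] at h3
  exact h3

lemma polD_sound {n : ℕ} {C M D : ℤ} (hC : 10 ^ 5 ≤ 4 * C) (hM : 0 ≤ M) (hD : 0 ≤ D) {a : ℕ}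
    (h : posU n (polD C M D a) = true) {u : ℝ} (h0 : a ≤ u) (h1 : u < a + 1) :
    Real.exp u ≤
      Real.exp (D / 10 ^ 5 + (M / 10 ^ 5) * u ^ 2) * (1 + u + (C / 10 ^ 5) * u ^ 2) := by
  have h2 := posU_sound h (s := u - a) (by linarith) (by linarith)
  have h3 : pe [Int.ofNat a * tn 5, tn 5] (u - a) = 10 ^ 5 * u := by
    simp only [pe]
    push_cast
    rw [tn_cast]
    simp only [Int.ofNat_eq_natCast, Int.cast_natCast]
    ring
  unfold polD at h2
  rw [pe_padd, pe_psm, pe_psm] at h2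
  have h4 := pe_rowR hC hM hD h3
  have h5 := exT_sound (x := u - a) (by linarith) (by linarith)
  have h6 := exp_nat_le a
  have e7 : Real.exp u = Real.exp a * Real.exp (u - a) := by
    rw [← Real.exp_add]
    congr 1
    ring
  have h8 : Real.exp u ≤ (27182818286 : ℝ) ^ a / 10 ^ (10 * a) *
      (pe exT (u - a) / 322560) := by
    rw [e7]
    refine mul_le_mul h6 ?_ (Real.exp_nonneg _) (by positivity)
    linarith
  push_cast at h2
  rw [tn_cast, tn_cast] at h2
  simp only [Int.ofNat_eq_natCast, Nat.pow_eq] at h2 h4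
  push_cast at h2
  refine h8.trans ?_
  rw [div_mul_div_comm, div_le_iff₀ (by positivity)]
  have hT : (0 : ℝ) ≤ 10 ^ (10 * a) := by positivity
  have h11 := mul_le_mul_of_nonneg_left h4 hT
  linarith

/-- the tests of Rule E on `[0, m)` -/
def rowD (n : ℕ) (C M D : ℤ) : ℕ → Bool
  | 0 => true
  | m + 1 => posU n (polD C M D m) && rowD n C M D m

lemma rowD_sound {n : ℕ} {C M D : ℤ} (m : ℕ) (h : rowD n C M D m = true) (a : ℕ) (ha : a < m) :
    posU n (polD C M D a) = true := by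
  induction m with
  | zero => omega
  | succ m ih =>
    rw [rowD, Bool.and_eq_true] at h
    rcases Nat.lt_succ_iff_lt_or_eq.1 ha with h1 | h1
    · exact ih h.2 h1
    · rw [h1]
      exact h.1

/-- the test of a row of `K` children -/
def rowF (n K : ℕ) (C M P D : ℕ) : Bool :=
  rowA n (Int.ofNat C) (Int.ofNat D) && (Nat.ble P 100000 &&
    (posU n (polB (Int.ofNat C) (Int.ofNat M) (Int.ofNat P) (Int.ofNat D)) &&
    posI n (polC K (Int.ofNat C) (Int.ofNat M) (Int.ofNat P) (Int.ofNat D))))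

/-- the test of a row of Rule E -/
def rowX (n : ℕ) (C M D m Z : ℕ) : Bool :=
  rowA n (Int.ofNat C) (Int.ofNat D) &&
    (rowD n (Int.ofNat C) (Int.ofNat M) (Int.ofNat D) m && (Nat.ble 100000 (4 * M * Z) &&
    inn (tn (10 * Z) * (edN (Int.ofNat D) * (tn 5 + tn 5 * Int.ofNat m +
      Int.ofNat (C * (m * m)))) - 6 * tn 20 * Int.ofNat (Nat.pow 27182818286 Z))))

theorem rowF_sound {n K : ℕ} (hK : 0 < K) {C M P D : ℕ} (h : rowF n K C M P D = true) :
    ExpFd K ((C : ℝ) / 10 ^ 5) ((M : ℝ) / 10 ^ 5) ((P : ℝ) / 10 ^ 5) ((D : ℝ) / 10 ^ 5) := by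
  simp only [rowF, Bool.and_eq_true] at h
  obtain ⟨hA, hP, hB, hCc⟩ := h
  have hC := rowA_C hA
  have hD0 : (0 : ℤ) ≤ Int.ofNat D := Int.natCast_nonneg D
  have hM0 : (0 : ℤ) ≤ Int.ofNat M := Int.natCast_nonneg M
  have hP0 : (0 : ℤ) ≤ Int.ofNat P := Int.natCast_nonneg P
  have hP1 : Int.ofNat P ≤ 10 ^ 5 := by
    have := Nat.le_of_ble_eq_true hP
    have h2 : (P : ℤ) ≤ 100000 := by exact_mod_cast this
    simpa using h2
  have hCR : (1 / 4 : ℝ) ≤ (C : ℝ) / 10 ^ 5 := by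
    have h1 : ((10 ^ 5 : ℤ) : ℝ) ≤ ((4 * Int.ofNat C : ℤ) : ℝ) := by exact_mod_cast hC
    push_cast at h1
    simp only [Int.ofNat_eq_natCast, Int.cast_natCast] at h1
    rw [le_div_iff₀ (by positivity)]
    linarith
  refine ExpFd.of hK (by positivity) (by positivity) (by positivity) hCR (fun u hu => ?_)
    (fun u h0 h1 => ?_) (fun u h1 => ?_)
  · have := rowA_sound hA hD0 hu
    simpa using this
  · rcases h1.eq_or_lt with h1 | h1
    · have := polC_sound (n := n) hK hC hM0 hD0 hP0 hP1 hCc (u := u)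
        (by simpa using h1.symm.le)
      rw [h1] at this ⊢
      simpa using this
    · have := polB_sound hC hM0 hD0 hP1 hB h0 (by simpa using h1)
      simpa using this
  · have := polC_sound (n := n) hK hC hM0 hD0 hP0 hP1 hCc (u := u) (by simpa using h1)
    simpa using this

theorem rowX_sound {n : ℕ} {C M D m Z : ℕ} (h : rowX n C M D m Z = true) :
    ExpEd ((C : ℝ) / 10 ^ 5) ((M : ℝ) / 10 ^ 5) ((D : ℝ) / 10 ^ 5) := by
  simp only [rowX, Bool.and_eq_true] at h
  obtain ⟨hA, hDd, hZ, hT⟩ := h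
  have hC := rowA_C hA
  have hD0 : (0 : ℤ) ≤ Int.ofNat D := Int.natCast_nonneg D
  have hM0 : (0 : ℤ) ≤ Int.ofNat M := Int.natCast_nonneg M
  have hCR : (1 / 4 : ℝ) ≤ (C : ℝ) / 10 ^ 5 := by
    have h1 : ((10 ^ 5 : ℤ) : ℝ) ≤ ((4 * Int.ofNat C : ℤ) : ℝ) := by exact_mod_cast hC
    push_cast at h1
    simp only [Int.ofNat_eq_natCast, Int.cast_natCast] at h1
    rw [le_div_iff₀ (by positivity)]
    linarith
  have hMZ : (1 : ℝ) ≤ 4 * ((M : ℝ) / 10 ^ 5) * Z := by
    have h1 := Nat.le_of_ble_eq_true hZ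
    have h2 : ((100000 : ℕ) : ℝ) ≤ ((4 * M * Z : ℕ) : ℝ) := by exact_mod_cast h1
    push_cast at h2
    have e : 4 * ((M : ℝ) / 10 ^ 5) * Z = 4 * M * Z / 10 ^ 5 := by ring
    rw [e, le_div_iff₀ (by positivity)]
    linarith
  have hM : (0 : ℝ) ≤ (M : ℝ) / 10 ^ 5 := by positivity
  have hZ0 : (0 : ℝ) ≤ Z := by positivity
  have hMp : 0 < (M : ℝ) / 10 ^ 5 := by
    rcases hM.eq_or_lt with h1 | h1
    · rw [← h1] at hMZ
      norm_num at hMZ
    · exact h1
  refine ExpEd.of hM (by positivity) hCR (fun u hu => ?_) (fun u hu => ?_)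
  · have := rowA_sound hA hD0 hu
    simpa using this
  · rcases lt_or_ge u m with h1 | h1
    · have h2 : ((⌊u⌋₊ : ℕ) : ℝ) ≤ u := Nat.floor_le hu
      have h3 : u < (⌊u⌋₊ : ℝ) + 1 := Nat.lt_floor_add_one u
      have h4 : ⌊u⌋₊ < m := by
        have : ((⌊u⌋₊ : ℕ) : ℝ) < m := lt_of_le_of_lt h2 h1
        exact_mod_cast this
      have h5 := polD_sound hC hM0 hD0 (rowD_sound m hDd _ h4) h2 h3
      simp only [Int.ofNat_eq_natCast, Int.cast_natCast] at h5
      have e6 : Real.exp (u - (M : ℝ) / 10 ^ 5 * u ^ 2) =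
          Real.exp u * Real.exp (-((M : ℝ) / 10 ^ 5 * u ^ 2)) := by
        rw [← Real.exp_add]
        congr 1
      have h7 := mul_le_mul_of_nonneg_right h5 (Real.exp_nonneg (-((M : ℝ) / 10 ^ 5 * u ^ 2)))
      rw [e6]
      refine h7.trans (le_of_eq ?_)
      have e8 : Real.exp ((D : ℝ) / 10 ^ 5) = Real.exp ((D : ℝ) / 10 ^ 5 +
          (M : ℝ) / 10 ^ 5 * u ^ 2) * Real.exp (-((M : ℝ) / 10 ^ 5 * u ^ 2)) := by
        rw [← Real.exp_add]
        congr 1
        ring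
      rw [e8]
      ring
    · have h2 : u - (M : ℝ) / 10 ^ 5 * u ^ 2 ≤ Z := by
        have h3 : 0 ≤ 4 * ((M : ℝ) / 10 ^ 5) * (Z + (M : ℝ) / 10 ^ 5 * u ^ 2 - u) := by
          nlinarith [sq_nonneg (1 - 2 * ((M : ℝ) / 10 ^ 5) * u)]
        have h4 := nonneg_of_mul_nonneg_right h3 (by linarith)
        linarith
      have h3 : Real.exp (u - (M : ℝ) / 10 ^ 5 * u ^ 2) ≤
          (27182818286 : ℝ) ^ Z / 10 ^ (10 * Z) :=
        (Real.exp_le_exp.2 h2).trans (exp_nat_le Z)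
      have hm0 : (0 : ℝ) ≤ m := by positivity
      have h4 : 1 + (m : ℝ) + (C : ℝ) / 10 ^ 5 * (m : ℝ) ^ 2 ≤
          1 + u + (C : ℝ) / 10 ^ 5 * u ^ 2 := by
        have h5 := mul_le_mul_of_nonneg_left (pow_le_pow_left₀ hm0 h1 2)
          (show 0 ≤ (C : ℝ) / 10 ^ 5 by positivity)
        linarith
      have h5 := edN_sound (Int.ofNat D) hD0
      have h6 := inn_iff hT
      push_cast at h6
      simp only [tn_cast, Int.ofNat_eq_natCast, Nat.pow_eq] at h5 h6
      push_cast at h5 h6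
      have h7 : 0 ≤ 1 + (m : ℝ) + (C : ℝ) / 10 ^ 5 * (m : ℝ) ^ 2 := by positivity
      refine h3.trans ?_
      rw [div_le_iff₀ (by positivity)]
      have h8 := mul_le_mul_of_nonneg_right h5 h7
      have h9 := mul_le_mul_of_nonneg_left h4 (Real.exp_nonneg ((D : ℝ) / 10 ^ 5))
      have hT0 : (0 : ℝ) ≤ 10 ^ (10 * Z) := by positivity
      have h10 := mul_le_mul_of_nonneg_left h8 hT0
      have h11 := mul_le_mul_of_nonneg_left h9 hT0
      linarith

end Pool.Agent.TSG.RowC
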