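import Pool.Agent.TSG.FamH
import Pool.Agent.TSG.RowC

set_option autoImplicit false

/-!
# Rows of the table of the even rule from the row checker (MP_d27362_co, helper2)
-/

namespace Pool.Agent.TSG

open Pool.Agent.TSC Pool.Agent.TSG.RowC
open Pool.Agent.TSM (ExpFd ExpEd)

/-- a row, in units of `1 / 10 ^ 5`; `m` and `Z` are the data of Rule E (`kd = 0`) -/
structure RowN where
  /-- factor of the square -/
  C : ℕ
  /-- factor in the exponent -/
  M : ℕ
  /-- bound of `ρ` -/
  P : ℕ
  /-- the constant in the exponent -/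
  D : ℕ
  /-- the number of unit intervals -/
  m : ℕ
  /-- bound of `u - μ u²` -/
  Z : ℕ

/-- the row of the table -/
def RowN.ec (r : RowN) : ECe := ⟨Dec.pos r.C 5, Dec.pos r.M 5, Dec.pos r.P 5, Dec.pos r.D 5⟩

/-- the test of a row -/
def rowN (kd : ℕ) (r : RowN) : Bool :=
  match kd with
  | 0 => rowX 14 r.C r.M r.D r.m r.Z
  | k + 1 => rowF 14 (k + 1) r.C r.M r.P r.D

lemma rowN_ok {kd : ℕ} {r : RowN} (h : rowN kd r = true) : RowOk kd r.ec := by
  intro K hK Q hQ
  cases kd with
  | zero =>
    have h1 := (rowX_sound (n := 14) h).toF hK.2 Q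
    simpa only [RowN.ec, Dec.val_pos] using h1
  | succ k =>
    have h2 : K = k + 1 := by
      rcases hK.1 with h3 | h3
      · omega
      · exact h3.symm
    have h1 := rowF_sound (n := 14) (Nat.succ_pos k) h
    have h4 : Q ≤ (Dec.pos r.P 5).val := by
      rcases hQ with h3 | h3
      · omega
      · exact h3
    rw [Dec.val_pos] at h4
    rw [h2]
    simp only [RowN.ec, Dec.val_pos]
    exact h1.mono le_rfl le_rfl h4 le_rfl

lemma rowsN_ok {kd : ℕ} {l : List RowN} (h : l.all (rowN kd) = true) :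
    ∀ e ∈ l.map RowN.ec, RowOk kd e := by
  intro e he
  obtain ⟨r, hr, rfl⟩ := List.mem_map.1 he
  exact rowN_ok (List.all_eq_true.1 h r hr)

end Pool.Agent.TSG
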