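import Pool.Agent.TSG.Gen
import Pool.Agent.TSM.ZpcF

set_option autoImplicit false

/-!
# The inequality lists of the steps with one nontrivial child (MP_d27362_co)
-/

namespace Pool.Agent.TSG

open Pool.Agent.TSC (Ar Hom ArHom QI pmap pev)

/-- constants of the stem, for one cell of total masses -/
structure RU (α : Type) where
  /-- `1 - χ0` -/
  w0 : α
  /-- price of the energy on the gain side -/
  K : α
  /-- cap of the gain -/
  r : α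
  /-- first price of a net loss -/
  s : α
  /-- price of the energy, first loss inequality -/
  K1 : α
  /-- price of the energy, second loss inequality -/
  K2 : α

/-- constants of a vertex with two children -/
structure RP (α : Type) where
  /-- factor of the gain -/
  eta : α
  /-- price of the energy -/
  C : α
  /-- cap of the gain -/
  r : α
  /-- price of a net loss -/
  psi : α

/-- payments for the types of the child -/
structure S4 (α : Type) where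
  /-- type 0 -/
  s0 : α
  /-- type 1 -/
  s1 : α
  /-- type 2 -/
  s2 : α
  /-- type 3 -/
  s3 : α
  /-- other types -/
  s4 : α

/-- the payment of a type -/
def S4.ty {α : Type} (d : S4 α) : ℕ → α
  | 0 => d.s0
  | 1 => d.s1
  | 2 => d.s2
  | 3 => d.s3
  | _ + 4 => d.s4

/-- a pending cost `p0 + p1 y + (p2 + p3 t) y² + t (p4 u + (p5 + p6 t) u²)` -/
structure PQ (α : Type) where
  /-- see above -/
  p0 : α
  /-- see above -/
  p1 : α
  /-- see above -/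
  p2 : α
  /-- see above -/
  p3 : α
  /-- see above -/
  p4 : α
  /-- see above -/
  p5 : α
  /-- see above -/
  p6 : α

/-- the pending costs -/
structure PD (α : Type) where
  /-- type 0: `C0 (t² u² + t y²)` -/
  C0 : α
  /-- type 1: `kap (1 + y)² / 4 + cu t u²` -/
  kap : α
  /-- see `kap` -/
  cu : α
  /-- type 2: `(ca t + cb D) (t u² + y²)` -/
  ca : α
  /-- see `ca` -/
  cb : α
  /-- type 3 -/
  p3 : PQ α
  /-- other types -/
  p4 : PQ α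

/-- constants of a vertex with leaf, path and child -/
structure RZ (α : Type) where
  /-- cap of the gain -/
  r : α
  /-- gain side: factor of the gain, first line -/
  e1 : α
  /-- a lower bound of `1 / q0` -/
  c4 : α
  /-- gain side: factor of the gain, second line -/
  e2 : α
  /-- gain side: the energy, factor of `t` -/
  g1 : α
  /-- gain side: the energy, factor of `D` -/
  g2 : α
  /-- loss side: the energy, factor of `t` -/
  q1 : α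
  /-- loss side: the energy, factor of `D` -/
  q2 : α
  /-- price of a net loss, first pair of lines -/
  a1 : α
  /-- price of the energy, first pair of lines -/
  k1 : α
  /-- constant of the second line -/
  b1 : α
  /-- price of a net loss, second pair of lines -/
  a2 : α
  /-- price of the energy, second pair of lines -/
  k2 : α
  /-- constant of the fourth line -/
  b2 : α
  /-- negative gain: the energy, factor of `t` -/
  n1 : α
  /-- negative gain: the energy, factor of `D` -/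
  n2 : α
  /-- negative gain: factor of the square of the negative part -/
  n3 : α
  /-- see `a1` -/
  a3 : α
  /-- see `k1` -/
  k3 : α
  /-- see `b1` -/
  b3 : α
  /-- see `a2` -/
  a4 : α
  /-- see `k2` -/
  k4 : α
  /-- see `b2` -/
  b4 : α

/-- the constants of the rules, for one interval of total masses -/
structure Kn (α : Type) where
  /-- the number of the potential -/
  ix : ℕ
  /-- the price of the excess -/
  chi : α
  /-- the stem -/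
  ru : RU α
  /-- leaf and child -/
  lc : RP α
  /-- path and child -/
  pc : RP α
  /-- two nontrivial children -/
  cc : RP α
  /-- pending costs -/
  pd : PD α
  /-- payments of the stem -/
  su : S4 α
  /-- payments of leaf and child -/
  sl : S4 α
  /-- payments of path and child -/
  sp : S4 α
  /-- payment of two nontrivial children -/
  sm : α
  /-- leaf, path and child -/
  z : RZ α
  /-- payments of leaf, path and child -/
  sz : S4 α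

/-- everything at a point `(t, D)` -/
structure En (α : Type) where
  /-- the point -/
  t : α
  /-- the total mass -/
  D : α
  /-- an upper bound of `q0` -/
  T : α
  /-- a lower bound of `q0` -/
  Tl : α
  /-- one half -/
  hf : α
  /-- a lower bound of `1 / (q0 - t)` -/
  w : α
  /-- a lower bound of `D ^ 2`, affine in `D` -/
  D2 : α
  /-- the bounds of the seminorm of `x` -/
  x : ℕ → XP α
  /-- `aX ≤ xk * sqrt (vU ^ 2 + aU ^ 2)` -/
  xk : α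
  /-- the potential -/
  V : VD α
  /-- the constants of the rules -/
  k : Kn α

/-- apply a function to the coefficients -/
def RU.map {α β : Type} (f : α → β) (p : RU α) : RU β :=
  ⟨f p.w0, f p.K, f p.r, f p.s, f p.K1, f p.K2⟩

/-- apply a function to the coefficients -/
def RP.map {α β : Type} (f : α → β) (p : RP α) : RP β := ⟨f p.eta, f p.C, f p.r, f p.psi⟩

/-- apply a function to the coefficients -/
def S4.map {α β : Type} (f : α → β) (p : S4 α) : S4 β :=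
  ⟨f p.s0, f p.s1, f p.s2, f p.s3, f p.s4⟩

/-- apply a function to the coefficients -/
def PQ.map {α β : Type} (f : α → β) (p : PQ α) : PQ β :=
  ⟨f p.p0, f p.p1, f p.p2, f p.p3, f p.p4, f p.p5, f p.p6⟩

/-- apply a function to the coefficients -/
def PD.map {α β : Type} (f : α → β) (p : PD α) : PD β :=
  ⟨f p.C0, f p.kap, f p.cu, f p.ca, f p.cb, p.p3.map f, p.p4.map f⟩

/-- apply a function to the coefficients -/
def RZ.map {α β : Type} (f : α → β) (p : RZ α) : RZ β :=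
  ⟨f p.r, f p.e1, f p.c4, f p.e2, f p.g1, f p.g2, f p.q1, f p.q2, f p.a1, f p.k1, f p.b1,
    f p.a2, f p.k2, f p.b2, f p.n1, f p.n2, f p.n3, f p.a3, f p.k3, f p.b3, f p.a4, f p.k4, f p.b4⟩

/-- apply a function to the coefficients -/
def Kn.map {α β : Type} (f : α → β) (E : Kn α) : Kn β :=
  ⟨E.ix, f E.chi, E.ru.map f, E.lc.map f, E.pc.map f, E.cc.map f, E.pd.map f, E.su.map f,
    E.sl.map f, E.sp.map f, f E.sm, E.z.map f, E.sz.map f⟩

/-- apply a function to the coefficients -/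
def En.map {α β : Type} (f : α → β) (E : En α) : En β :=
  ⟨f E.t, f E.D, f E.T, f E.Tl, f E.hf, f E.w, f E.D2, fun n => (E.x n).map f, f E.xk,
    E.V.map f, E.k.map f⟩

/-- the number of a type -/
def xi : ℕ → ℕ
  | 0 => 0
  | 1 => 1
  | 2 => 2
  | 3 => 3
  | _ + 4 => 4

lemma S4.map_ty {α β : Type} (f : α → β) (d : S4 α) (n : ℕ) : (d.map f).ty n = f (d.ty n) := by
  rcases n with _ | _ | _ | _ | n <;> rfl

section

variable {α : Type} [Ar α]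

/-- `x = k0 + k1 u` -/
def k0 (ty : ℕ) : α := match ty with
  | 0 => Ar.zero
  | _ + 1 => Ar.one

/-- `x = k0 + k1 u` -/
def k1 (t : α) (ty : ℕ) : α := match ty with
  | 0 => t
  | _ + 1 => Ar.neg t

/-- an upper bound of the coefficient of `x` at `q0` -/
def k2 (E : En α) (ty : ℕ) : α := match ty with
  | 0 => E.T
  | _ + 1 => Ar.neg E.Tl

/-- an upper bound of the coefficient of `-x` at `q0` -/
def k3 (E : En α) (ty : ℕ) : α := match ty with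
  | 0 => Ar.neg E.Tl
  | _ + 1 => E.T

/-- the payment `s (D - D2 w)` with the opposite sign -/
def payN (E : En α) (s : α) : QP α :=
  cst (Ar.sub (Ar.mul s (Ar.mul E.D2 E.w)) (Ar.mul s E.D))

/-- `kap / 4` -/
def kq (E : En α) : α := Ar.mul E.hf (Ar.mul E.hf E.k.pd.kap)

/-- `-k` times a pending cost of the general form -/
def pqN (E : En α) (k : α) (p : PQ α) : QP α :=
  padd (padd (lin (Ar.neg (Ar.mul k p.p0)) (Ar.neg (Ar.mul k (Ar.mul E.t p.p4))))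
      (sqx (Ar.neg (Ar.mul k (Ar.mul E.t (Ar.add p.p5 (Ar.mul p.p6 E.t))))) Ar.zero Ar.one))
    (yq (Ar.neg (Ar.mul k p.p1)) (Ar.neg (Ar.mul k (Ar.add p.p2 (Ar.mul p.p3 E.t)))))

/-- `-k` times the pending cost of the child -/
def pendMin (E : En α) (k : α) (ty : ℕ) : List (QP α) := match ty with
  | 0 => [pQ k (Ar.mul E.k.pd.C0 (Ar.mul E.t E.t)) (Ar.mul E.k.pd.C0 E.t)]
  | 1 => [padd (cst (Ar.neg (Ar.mul k (kq E)))) (padd (yq (Ar.neg (Ar.nsm 2 (Ar.mul k (kq E))))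
      (Ar.neg (Ar.mul k (kq E)))) (sqx (Ar.neg (Ar.mul k (Ar.mul E.k.pd.cu E.t))) Ar.zero Ar.one))]
  | 2 => [pQ k (Ar.mul E.t (Ar.add (Ar.mul E.k.pd.ca E.t) (Ar.mul E.k.pd.cb E.D)))
      (Ar.add (Ar.mul E.k.pd.ca E.t) (Ar.mul E.k.pd.cb E.D))]
  | 3 => [pqN E k E.k.pd.p3]
  | _ + 4 => [pqN E k E.k.pd.p4]

/-- `V - V'` with the payment, operation `o` (0, 5, 10, 15), new type `tn`, new `y` equal to
`m0 + m1 u` -/
def base (E : En α) (o tn ty : ℕ) (s m0 m1 n1 : α) : QP α :=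
  padd (padd (vC (E.V.ty ty)) (vN (E.V.ty tn) (E.x (o + xi ty)) E.xk m0 m1 n1)) (payN E s)

/-- the list of a stem over a child of type `ty` -/
def unL (E : En α) (ty : ℕ) : List (QP α) :=
  mfAdd [base E 0 1 ty (E.k.su.ty ty) (k0 ty) (k1 E.t ty) (k2 E ty)]
      (mfAdd (gMin E.k.ru.w0 (k0 ty) (k1 E.t ty) E.k.ru.r)
        (exMin E.k.ru.K E.t (k0 ty) (k1 E.t ty))) ++
  (mfAdd [base E 0 1 ty (E.k.su.ty ty) (k0 ty) (k1 E.t ty) (k2 E ty)]
      (mfAdd (gMin (Ar.add Ar.one E.k.ru.s) (k0 ty) (k1 E.t ty) E.k.ru.r)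
        (mfAdd (exMin E.k.ru.K1 E.t (k0 ty) (k1 E.t ty)) (pendMin E E.k.ru.s ty))) ++
  mfAdd [padd (base E 0 1 ty (E.k.su.ty ty) (k0 ty) (k1 E.t ty) (k2 E ty))
        (padd (sqx (Ar.mul E.k.chi (kq E)) (Ar.add Ar.one (k0 ty)) (k1 E.t ty))
          (yq Ar.zero (Ar.mul E.k.chi (Ar.mul E.k.pd.cu E.t))))]
      (mfAdd (gMin (Ar.add Ar.one E.k.chi) (k0 ty) (k1 E.t ty) E.k.ru.r)
        (mfAdd (exMin E.k.ru.K2 E.t (k0 ty) (k1 E.t ty)) (pendMin E E.k.chi ty))))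

/-- the list of a pair -/
def prL (E : En α) (o : ℕ) (rp : RP α) (sp : S4 α) (ty : ℕ) (m0 m1 n1 : α) : List (QP α) :=
  mfAdd [padd (base E o 0 ty (sp.ty ty) m0 m1 n1) (qN rp.C E.t m0 m1)] (gMin rp.eta m0 m1 rp.r) ++
  mfAdd [padd (base E o 0 ty (sp.ty ty) m0 m1 n1) (qN E.hf E.t m0 m1)]
    (mfAdd (gMin (Ar.add Ar.one rp.psi) m0 m1 rp.r) (pendMin E rp.psi ty))

/-- the list of (leaf, child) -/
def lcL (E : En α) (ty : ℕ) : List (QP α) :=
  prL E 5 E.k.lc E.k.sl ty (k0 ty) (k1 E.t ty) (k2 E ty)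

/-- the list of (path, child), new `y` equal to `1 + x` or `1 - x` -/
def pcL (E : En α) (e : Bool) (ty : ℕ) : List (QP α) :=
  prL E 10 E.k.pc E.k.sp ty (Ar.add Ar.one (if e then k0 ty else Ar.neg (k0 ty)))
    (if e then k1 E.t ty else Ar.neg (k1 E.t ty)) (if e then k2 E ty else k3 E ty)

/-- one line of the loss side of a vertex with leaf, path and child: energy `f`, constant `b`,
factor `n` of `a_U²`, price `th` of a net loss, price `K` of the excess of the energy -/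
def zpN (E : En α) (ty : ℕ) (m0 m1 n1 f b n th K : α) : List (QP α) :=
  mfAdd [padd (padd (base E 15 2 ty (E.k.sz.ty ty) m0 m1 n1) (zq f E.t m0 m1))
      (padd (cst b) (aq n))]
    (mfAdd (gMin (Ar.add Ar.one th) m0 m1 E.k.z.r)
      (mfAdd (exH E.hf K E.t m0 m1) (pendMin E th ty)))

/-- the pending cost of the type 2 is this number times `t u² + y²` -/
def zc (E : En α) : α := Ar.add (Ar.mul E.k.pd.ca E.t) (Ar.mul E.k.pd.cb E.D)

/-- the energy of the gain side is this number times `t u² + y²` -/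
def zg (E : En α) : α := Ar.add (Ar.mul E.k.z.g1 E.t) (Ar.mul E.k.z.g2 E.D)

/-- half of the energy of the loss side -/
def zf (E : En α) (q1 q2 : α) : α := Ar.mul E.hf (Ar.add (Ar.mul q1 E.t) (Ar.mul q2 E.D))

/-- half of the square of the negative part of the gain -/
def zn (E : En α) : α :=
  Ar.mul E.hf (Ar.mul (Ar.mul E.k.z.n3 E.D)
    (Ar.mul (Ar.mul E.t E.t) (Ar.sub Ar.one (Ar.mul E.k.z.c4 E.t))))

/-- the four lines of the loss side -/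
def zp4 (E : En α) (ty : ℕ) (m0 m1 n1 f n a k b a' k' b' : α) : List (QP α) :=
  zpN E ty m0 m1 n1 f Ar.zero (Ar.neg n) a k ++
  (zpN E ty m0 m1 n1 f b (Ar.neg n) E.k.chi k ++
  (zpN E ty m0 m1 n1 (Ar.sub (Ar.mul (Ar.add Ar.one E.k.chi) f) (Ar.mul E.k.chi (zc E))) Ar.zero
    (Ar.neg (Ar.mul (Ar.add Ar.one E.k.chi) n)) a' k' ++
  zpN E ty m0 m1 n1 (Ar.sub (Ar.mul (Ar.add Ar.one E.k.chi) f) (Ar.mul E.k.chi (zc E))) b'
    (Ar.neg (Ar.mul (Ar.add Ar.one E.k.chi) n)) E.k.chi k'))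

/-- the list of (leaf, path, child), new `y` equal to `m0 + m1 u` -/
def zpM (E : En α) (ty : ℕ) (m0 m1 n1 : α) : List (QP α) :=
  mfAdd [padd (base E 15 2 ty (E.k.sz.ty ty) m0 m1 n1)
      (zq (zg E) E.t m0 m1)] (gMin E.k.z.e1 m0 m1 E.k.z.r) ++
  (mfAdd [padd (base E 15 2 ty (E.k.sz.ty ty) m0 m1 n1)
      (zq (Ar.sub (Ar.mul (Ar.add Ar.one E.k.chi) (zg E)) (Ar.mul E.k.chi (zc E))) E.t m0 m1)]
    (gMin E.k.z.e2 m0 m1 E.k.z.r) ++
  (zp4 E ty m0 m1 n1 (zf E E.k.z.q1 E.k.z.q2) Ar.zero E.k.z.a1 E.k.z.k1 E.k.z.b1 E.k.z.a2 E.k.z.k2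
    E.k.z.b2 ++
  zp4 E ty m0 m1 n1 (zf E E.k.z.n1 E.k.z.n2) (zn E) E.k.z.a3 E.k.z.k3 E.k.z.b3 E.k.z.a4 E.k.z.k4
    E.k.z.b4))

/-- the list of (leaf, path, child), new `y` equal to `1 - x` -/
def zpL (E : En α) (ty : ℕ) : List (QP α) :=
  zpM E ty (Ar.add Ar.one (Ar.neg (k0 ty))) (Ar.neg (k1 E.t ty)) (k3 E ty)

/-- nonnegativity of the potential -/
def posL (E : En α) (ty : ℕ) : List (QP α) := [vC (E.V.ty ty)]

/-- signs of the coefficients of one type -/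
def sg1L (τ : VT α) : List (QP α) :=
  [cst τ.ly, cst τ.qy, cst τ.lU, cst τ.qU, cst τ.cv, cst τ.dv]

/-- signs of coefficients -/
def sgnL (E : En α) : List (QP α) :=
  sg1L E.V.t0 ++ (sg1L E.V.t1 ++ (sg1L E.V.t2 ++ (sg1L E.V.t3 ++ (sg1L E.V.t4 ++
    [cst (Ar.add E.V.t0.be (Ar.mul E.hf (Ar.mul E.t E.t))),
      cst (Ar.add E.V.t0.de (Ar.mul E.hf E.t)), cst E.w]))))

/-- minus the share of one child in `V` of a vertex with two nontrivial children; `b = true` for the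
child with the larger `v_y` -/
def msN (d : VD α) (hf : α) (x : XP α) (k m0 m1 n1 : α) (b : Bool) : QP α :=
  ({ (qz : QI α) with
      c := Ar.neg (Ar.add (Ar.add (Ar.mul hf d.t0.c)
        (Ar.mul m0 (Ar.add d.t0.ga (Ar.nsm 2 (Ar.mul d.t0.de m0))))) (Ar.mul d.t0.dv m0))
      cv := Ar.neg (Ar.mul d.t0.dv n1)
      cu := Ar.neg (Ar.mul m1 (Ar.add d.t0.ga (Ar.nsm 4 (Ar.mul d.t0.de m0))))
      cuu := Ar.neg (Ar.nsm 2 (Ar.mul d.t0.de (Ar.mul m1 m1)))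
      cvv := Ar.neg (Ar.nsm 2 (Ar.mul d.t0.qy x.g))
      caa := Ar.neg (Ar.nsm 2 (Ar.mul d.t0.qy x.l))
      l := Ar.mul d.t0.ly k },
    { (qz : QI α) with
      cu := if b then Ar.neg d.t0.al else d.t0.al
      cv := if b then Ar.neg d.t0.cv else d.t0.cv
      cuu := Ar.neg (Ar.nsm 2 d.t0.be), ca := Ar.neg d.t0.lU,
      caa := Ar.neg (Ar.nsm 2 d.t0.qU) })

/-- the common part of the inequalities of one child, energy price `C` -/
def msB (E : En α) (b : Bool) (ty : ℕ) (C : α) : QP α :=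
  padd (padd (padd (vC (E.V.ty ty)) (msN E.V E.hf (E.x (20 + xi ty)) E.xk (k0 ty) (k1 E.t ty)
    (k2 E ty) b)) (payN E (Ar.mul E.hf E.k.sm))) (qN (Ar.nsm 2 C) E.t (k0 ty) (k1 E.t ty))

/-- the list of one child of a vertex with two nontrivial children, gain below the cap -/
def msX (E : En α) (b : Bool) (ty : ℕ) : List (QP α) :=
  padd (msB E b ty E.k.cc.C) (lin (Ar.mul E.k.cc.eta (k0 ty)) (Ar.mul E.k.cc.eta (k1 E.t ty))) ::
  mfAdd [padd (msB E b ty E.hf) (lin (Ar.mul (Ar.add Ar.one E.k.cc.psi) (k0 ty))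
    (Ar.mul (Ar.add Ar.one E.k.cc.psi) (k1 E.t ty)))] (pendMin E E.k.cc.psi ty)

/-- the list of one child of a vertex with two nontrivial children, gain above the cap -/
def msY (E : En α) (b : Bool) (ty : ℕ) : List (QP α) :=
  padd (msB E b ty E.k.cc.C) (cst (Ar.mul E.k.cc.eta (Ar.mul E.hf E.k.cc.r))) ::
  mfAdd [padd (msB E b ty E.hf) (cst (Ar.mul (Ar.add Ar.one E.k.cc.psi)
    (Ar.mul E.hf E.k.cc.r)))] (pendMin E E.k.cc.psi ty)

/-- the list of one child of a vertex with two nontrivial children -/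
def msL (E : En α) (b : Bool) (ty : ℕ) : List (QP α) := msX E b ty ++ msY E b ty

/-- `-V(ty; 0, 1; 0, 0)` -/
def vOne (E : En α) (ty : ℕ) : α :=
  Ar.neg (Ar.add (E.V.ty ty).c (Ar.add (Ar.add (E.V.ty ty).ga (E.V.ty ty).de) (E.V.ty ty).dv))

/-- the vertex with the child `two` -/
def root1L (E : En α) : List (QP α) :=
  mfAdd [cst (Ar.sub (vOne E 1) (Ar.mul E.k.ru.K E.t))] (gMin E.k.ru.w0 Ar.one Ar.zero E.k.ru.r) ++
  (mfAdd [cst (Ar.sub (vOne E 1) (Ar.mul E.k.ru.K1 E.t))]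
    (gMin (Ar.add Ar.one E.k.ru.s) Ar.one Ar.zero E.k.ru.r) ++
  mfAdd [cst (Ar.sub (Ar.add (vOne E 1) (Ar.mul E.k.chi E.k.pd.kap)) (Ar.mul E.k.ru.K2 E.t))]
    (gMin (Ar.add Ar.one E.k.chi) Ar.one Ar.zero E.k.ru.r))

/-- the vertex with a leaf and the child `two` -/
def root0L (E : En α) : List (QP α) :=
  mfAdd [cst (Ar.sub (vOne E 0) (Ar.mul E.k.lc.C E.t))] (gMin E.k.lc.eta Ar.one Ar.zero E.k.lc.r) ++
  mfAdd [cst (Ar.sub (vOne E 0) (Ar.mul E.hf E.t))]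
    (gMin (Ar.add Ar.one E.k.lc.psi) Ar.one Ar.zero E.k.lc.r)

/-- a pending cost of the general form -/
noncomputable def PQ.ev (p : PQ ℝ) (a : ℝ) (s : TSM.Sn) : ℝ :=
  p.p0 + p.p1 * s.y + (p.p2 + p.p3 * a) * s.y ^ 2 +
    a * (p.p4 * s.u + (p.p5 + p.p6 * a) * s.u ^ 2)

/-- the pending cost -/
noncomputable def PD.ev (p : PD ℝ) (D a : ℝ) (s : TSM.Sn) : ℝ := match s.ty with
  | 0 => p.C0 * (a ^ 2 * s.u ^ 2 + a * s.y ^ 2)
  | 1 => p.kap * (1 + s.y) ^ 2 / 4 + p.cu * a * s.u ^ 2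
  | 2 => (p.ca * a + p.cb * D) * (a * s.u ^ 2 + s.y ^ 2)
  | 3 => p.p3.ev a s
  | _ + 4 => p.p4.ev a s

/-- the real conditions on the data at a point -/
structure En.Ok (E : En α) (h : Hom α) (D a : ℝ) : Prop where
  ht : h.f E.t = a
  hD : h.f E.D = D
  hT : TSM.q0 ≤ h.f E.T
  hTl : h.f E.Tl ≤ TSM.q0
  hhf : h.f E.hf = 1 / 2
  hx : ∀ n, ∃ g l, TSM.TX g l ∧ TSM.q0 ^ 2 * g ≤ h.f (E.x n).g ∧
    TSM.q0 ^ 2 * l ≤ h.f (E.x n).l
  hk : 0 ≤ h.f E.xk ∧ ∃ g, TSM.TX g g ∧ TSM.q0 ^ 2 * g ≤ h.f E.xk ^ 2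
  hw : a < TSM.q0 → h.f E.D2 * h.f E.w ≤ D * (D / (TSM.q0 - a))
  hly : ∀ n, 0 ≤ h.f (E.V.ty n).ly
  hqy : ∀ n, 0 ≤ h.f (E.V.ty n).qy
  hlU : ∀ n, 0 ≤ h.f (E.V.ty n).lU
  hqU : ∀ n, 0 ≤ h.f (E.V.ty n).qU
  hcv : ∀ n, 0 ≤ h.f (E.V.ty n).cv
  hdv : ∀ n, 0 ≤ h.f (E.V.ty n).dv
  hbe : 0 ≤ h.f E.V.t0.be + 1 / 2 * (a * a)
  hde : 0 ≤ h.f E.V.t0.de + 1 / 2 * a

variable {h : Hom α} {E : En α} {D a : ℝ}

/-- the bounds of the seminorm of `x` at the point -/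
structure AXE (E : En α) (h : Hom α) (n : ℕ) (vU aU aX : ℝ) : Prop where
  a0 : 0 ≤ aX
  sq : aX ^ 2 ≤ h.f (E.x n).g * vU ^ 2 + h.f (E.x n).l * aU ^ 2
  li : aX ≤ h.f E.xk * Real.sqrt (vU ^ 2 + aU ^ 2)

lemma axE (hE : E.Ok h D a) {c : TSM.Chd} {aX : ℝ} (hX : c.AX aX) (n : ℕ) :
    AXE E h n c.vU c.aU aX := by
  obtain ⟨g, l, h1, h2, h3⟩ := hE.hx n
  obtain ⟨h4, g', h5, h6⟩ := hE.hk
  refine ⟨hX.1, ?_, ?_⟩
  · have e1 := hX.2 g l h1
    have e2 := mul_le_mul_of_nonneg_right h2 (sq_nonneg c.vU)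
    have e3 := mul_le_mul_of_nonneg_right h3 (sq_nonneg c.aU)
    linarith
  · apply le_of_sq_le_sq ?_ (mul_nonneg h4 (Real.sqrt_nonneg _))
    rw [mul_pow, Real.sq_sqrt (by positivity)]
    have e1 := hX.2 g' g' h5
    have e2 := mul_le_mul_of_nonneg_right h6
      (show 0 ≤ c.vU ^ 2 + c.aU ^ 2 by positivity)
    linarith

lemma k_eq (hE : E.Ok h D a) (c : TSM.Chd) :
    h.f (k0 c.ty) + h.f (k1 E.t c.ty) * c.u a = c.x a := by
  unfold TSM.Chd.x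
  rcases hc : c.ty with _ | n
  · simp [k0, k1, h.zero, hE.ht]
  · simp only [k0, k1, h.one, h.neg, hE.ht]
    rw [if_neg (by omega)]
    ring

lemma k2_le (hE : E.Ok h D a) {c : TSM.Chd} (h0 : 0 ≤ c.vU) :
    c.xT ≤ h.f (k0 c.ty) + h.f (k2 E c.ty) * c.vU := by
  unfold TSM.Chd.xT
  rcases hc : c.ty with _ | n
  · have := mul_le_mul_of_nonneg_right hE.hT h0
    simpa [k0, k2, h.zero] using this
  · have := mul_le_mul_of_nonneg_right hE.hTl h0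
    rw [if_neg (by omega)]
    simp only [k0, k2, h.one, h.neg]
    linarith

lemma k3_le (hE : E.Ok h D a) {c : TSM.Chd} (h0 : 0 ≤ c.vU) :
    1 - c.xT ≤ 1 + -h.f (k0 c.ty) + h.f (k3 E c.ty) * c.vU := by
  unfold TSM.Chd.xT
  rcases hc : c.ty with _ | n
  · have := mul_le_mul_of_nonneg_right hE.hTl h0
    simp only [k0, k3, h.zero, h.neg, if_true]
    linarith
  · have := mul_le_mul_of_nonneg_right hE.hT h0
    rw [if_neg (by omega)]
    simp only [k0, k3, h.one]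
    linarith

lemma hv_payN (hE : E.Ok h D a) (_ : 0 ≤ D) (ha : a < TSM.q0) (s : α) (hs : 0 ≤ h.f s) (p : Pt) :
    hv h (payN E s) p ≤ -(h.f s * D * (1 - D / (TSM.q0 - a))) := by
  have e : h.f (Ar.sub (Ar.mul s (Ar.mul E.D2 E.w)) (Ar.mul s E.D)) =
      h.f s * (h.f E.D2 * h.f E.w) - h.f s * D := by
    rw [h.sub, h.mul, h.mul, h.mul, hE.hD]
  rw [payN, hv_cst, e]
  have := mul_le_mul_of_nonneg_left (hE.hw ha) hs
  linarith

lemma pend_le (hE : E.Ok h D a) (k : α) (s : TSM.Sn) :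
    MLe h (pendMin E k s.ty) (pt s) (-(h.f k * (E.k.pd.map h.f).ev D a s)) := by
  unfold PD.ev pendMin
  rcases s.ty with _ | _ | _ | _ | n
  · apply MLe.single
    simp only [hv_pQ, h.mul, hE.ht, PD.map]
    apply le_of_eq
    ring
  · apply MLe.single
    simp only [kq, hv_padd, hv_cst, hv_yq, hv_sqx, h.mul, h.neg, h.nsm, h.zero, h.one, hE.ht,
      hE.hhf, PD.map, pt, Nat.cast_ofNat]
    apply le_of_eq
    ring
  · apply MLe.single
    simp only [hv_pQ, h.mul, h.add, hE.ht, hE.hD, PD.map]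
    apply le_of_eq
    ring
  · apply MLe.single
    simp only [pqN, PQ.ev, hv_padd, hv_lin, hv_yq, hv_sqx, h.mul, h.neg, h.add, h.zero, h.one,
      hE.ht, PD.map, PQ.map, pt]
    apply le_of_eq
    ring
  · apply MLe.single
    simp only [pqN, PQ.ev, hv_padd, hv_lin, hv_yq, hv_sqx, h.mul, h.neg, h.add, h.zero, h.one,
      hE.ht, PD.map, PQ.map, pt]
    apply le_of_eq
    ring

lemma base_le (hE : E.Ok h D a) (hD0 : 0 ≤ D) (ha : a < TSM.q0) (o tn : ℕ) (s m0 m1 n1 : α)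
    (hs : 0 ≤ h.f s) (c : TSM.Sn) (aX : ℝ) (hX : AXE E h (o + xi c.ty) c.vU c.aU aX)
    (vU vY : ℝ) (hvU : vU ≤ c.vY) (hvY : vY ≤ h.f m0 + h.f n1 * c.vU) :
    hv h (base E o tn c.ty s m0 m1 n1) (pt c) ≤ (E.V.map h.f).ev c -
      (E.V.map h.f).ev ⟨tn, c.y, h.f m0 + h.f m1 * c.u, vU, vY, c.aY, aX⟩ -
      h.f s * D * (1 - D / (TSM.q0 - a)) := by
  rw [base, hv_padd, hv_padd, hv_vC]
  have h2 := hv_vN h E.V tn (E.x (o + xi c.ty)) E.xk m0 m1 n1 (hE.hly tn) (hE.hqy tn)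
    (hE.hcv tn) (hE.hdv tn) c aX hX.a0 hX.sq hX.li vU vY hvU hvY
  have h3 := hv_payN hE hD0 ha s hs (pt c)
  linarith

/-- soundness of the list of the stem -/
theorem unL_sound (hE : E.Ok h D a) (hD0 : 0 ≤ D) (ha : a < TSM.q0) (c : TSM.Chd) (aX : ℝ)
    (hX : c.AX aX)
    (hs : 0 ≤ h.f (E.k.su.ty c.ty)) (hU0 : 0 ≤ c.vU)
    (hL : ∀ q ∈ unL E c.ty, 0 ≤ hv h q (pt (c.sn a))) :
    (E.V.map h.f).ev ⟨1, c.y a, c.x a, c.vY, c.xT, c.aY, aX⟩ +
        h.f (E.k.su.ty c.ty) * D * (1 - D / (TSM.q0 - a)) ≤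
      (E.V.map h.f).ev (c.sn a) + h.f E.k.ru.w0 * min (c.x a) (h.f E.k.ru.r) -
        h.f E.k.ru.K * max 0 ((1 - a * c.y a) ^ 2 + a * c.x a ^ 2 - 1) ∧
    (E.V.map h.f).ev ⟨1, c.y a, c.x a, c.vY, c.xT, c.aY, aX⟩ +
        h.f (E.k.su.ty c.ty) * D * (1 - D / (TSM.q0 - a)) ≤
      (E.V.map h.f).ev (c.sn a) + min (c.x a) (h.f E.k.ru.r) -
        h.f E.k.ru.s * ((E.k.pd.map h.f).ev D a (c.sn a) - min (c.x a) (h.f E.k.ru.r)) -
        h.f E.k.ru.K1 * max 0 ((1 - a * c.y a) ^ 2 + a * c.x a ^ 2 - 1) ∧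
    (E.V.map h.f).ev ⟨1, c.y a, c.x a, c.vY, c.xT, c.aY, aX⟩ +
        h.f (E.k.su.ty c.ty) * D * (1 - D / (TSM.q0 - a)) ≤
      (E.V.map h.f).ev (c.sn a) + min (c.x a) (h.f E.k.ru.r) -
        h.f E.k.chi * ((E.k.pd.map h.f).ev D a (c.sn a) - min (c.x a) (h.f E.k.ru.r)) -
        h.f E.k.ru.K2 * max 0 ((1 - a * c.y a) ^ 2 + a * c.x a ^ 2 - 1) +
        h.f E.k.chi * (E.k.pd.map h.f).ev D a ⟨1, c.y a, c.x a, c.vY, c.xT, c.aY, aX⟩ := by
  have hx := k_eq hE c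
  have hB := base_le hE hD0 ha 0 1 (E.k.su.ty c.ty) (k0 c.ty) (k1 E.t c.ty) (k2 E c.ty) hs
    (c.sn a) aX (axE hE hX _) c.vY c.xT le_rfl (k2_le hE hU0)
  have hx' : h.f (k0 c.ty) + h.f (k1 E.t c.ty) * (c.sn a).u = c.x a := hx
  rw [hx'] at hB
  have hg : ∀ k : α, MLe h (gMin k (k0 c.ty) (k1 E.t c.ty) E.k.ru.r) (pt (c.sn a))
      (h.f k * min (c.x a) (h.f E.k.ru.r)) := by
    intro k
    have := gMin_le (h := h) k (k0 c.ty) (k1 E.t c.ty) E.k.ru.r (c.sn a)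
    rwa [hx'] at this
  have hex : ∀ K : α, MLe h (exMin K E.t (k0 c.ty) (k1 E.t c.ty)) (pt (c.sn a))
      (-(h.f K * max 0 ((1 - a * c.y a) ^ 2 + a * c.x a ^ 2 - 1))) := by
    intro K
    have := exMin_le (h := h) K E.t (k0 c.ty) (k1 E.t c.ty) (c.sn a)
    rwa [hx', hE.ht] at this
  have hp : ∀ k : α, MLe h (pendMin E k c.ty) (pt (c.sn a))
      (-(h.f k * (E.k.pd.map h.f).ev D a (c.sn a))) := fun k => pend_le hE k (c.sn a)
  refine ⟨?_, ?_, ?_⟩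
  · have h1 := MLe.nonneg ((MLe.single hB).add ((hg E.k.ru.w0).add (hex E.k.ru.K)))
      (fun q hq => hL q (List.mem_append_left _ hq))
    have e1 : (c.sn a).y = c.y a := rfl
    have e2 : (c.sn a).aY = c.aY := rfl
    rw [e1, e2] at h1
    linarith
  · have h1 := MLe.nonneg ((MLe.single hB).add ((hg (Ar.add Ar.one E.k.ru.s)).add
      ((hex E.k.ru.K1).add (hp E.k.ru.s))))
      (fun q hq => hL q (List.mem_append_right _ (List.mem_append_left _ hq)))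
    have e1 : (c.sn a).y = c.y a := rfl
    have e2 : (c.sn a).aY = c.aY := rfl
    rw [e1, e2, h.add, h.one] at h1
    linarith
  · have hB' : hv h (padd (base E 0 1 c.ty (E.k.su.ty c.ty) (k0 c.ty) (k1 E.t c.ty) (k2 E c.ty))
        (padd (sqx (Ar.mul E.k.chi (kq E)) (Ar.add Ar.one (k0 c.ty)) (k1 E.t c.ty))
          (yq Ar.zero (Ar.mul E.k.chi (Ar.mul E.k.pd.cu E.t))))) (pt (c.sn a)) ≤
        ((E.V.map h.f).ev (c.sn a) -
      (E.V.map h.f).ev ⟨1, (c.sn a).y, c.x a, c.vY, c.xT, (c.sn a).aY, aX⟩ -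
      h.f (E.k.su.ty c.ty) * D * (1 - D / (TSM.q0 - a))) +
      h.f E.k.chi * (E.k.pd.map h.f).ev D a ⟨1, c.y a, c.x a, c.vY, c.xT, c.aY, aX⟩ := by
      rw [hv_padd, hv_padd, hv_sqx, hv_yq]
      simp only [kq, h.mul, h.add, h.one, h.zero, hE.hhf, hE.ht]
      have h5 : h.f E.k.chi * (E.k.pd.map h.f).ev D a ⟨1, c.y a, c.x a, c.vY, c.xT, c.aY, aX⟩ =
          h.f E.k.chi * (1 / 2 * (1 / 2 * h.f E.k.pd.kap)) *
            (1 + h.f (k0 c.ty) + h.f (k1 E.t c.ty) * (pt (c.sn a)).u) ^ 2 +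
          (0 * (pt (c.sn a)).y + h.f E.k.chi * (h.f E.k.pd.cu * a) * (pt (c.sn a)).y ^ 2) := by
        show h.f E.k.chi * (h.f E.k.pd.kap * (1 + c.x a) ^ 2 / 4 +
          h.f E.k.pd.cu * a * c.y a ^ 2) = _
        rw [← hx]
        show _ = h.f E.k.chi * (1 / 2 * (1 / 2 * h.f E.k.pd.kap)) *
            (1 + h.f (k0 c.ty) + h.f (k1 E.t c.ty) * c.u a) ^ 2 +
          (0 * c.y a + h.f E.k.chi * (h.f E.k.pd.cu * a) * c.y a ^ 2)
        ring
      rw [h5]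
      have hB2 : hv h (base E 0 1 c.ty (E.k.su.ty c.ty) (k0 c.ty) (k1 E.t c.ty) (k2 E c.ty))
        (pt (c.sn a)) ≤ _ := hB
      linarith
    have h1 := MLe.nonneg ((MLe.single hB').add ((hg (Ar.add Ar.one E.k.chi)).add
      ((hex E.k.ru.K2).add (hp E.k.chi))))
      (fun q hq => hL q (List.mem_append_right _ (List.mem_append_right _ hq)))
    have e1 : (c.sn a).y = c.y a := rfl
    have e2 : (c.sn a).aY = c.aY := rfl
    rw [e1, e2, h.add, h.one] at h1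
    linarith

/-- soundness of the list of a pair; `X = m0 + m1 u` is the new `y` -/
theorem prL_sound (hE : E.Ok h D a) (hD0 : 0 ≤ D) (ha : a < TSM.q0) (o : ℕ) (c : TSM.Chd)
    (aX : ℝ) (hX : c.AX aX)
    (rp : RP α) (sp : S4 α) (m0 m1 n1 : α) (X vX : ℝ) (hs : 0 ≤ h.f (sp.ty c.ty))
    (hm : h.f m0 + h.f m1 * c.u a = X) (hvX : vX ≤ h.f m0 + h.f n1 * c.vU)
    (hL : ∀ q ∈ prL E o rp sp c.ty m0 m1 n1, 0 ≤ hv h q (pt (c.sn a))) :
    (E.V.map h.f).ev ⟨0, c.y a, X, c.vY, vX, c.aY, aX⟩ +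
        h.f (sp.ty c.ty) * D * (1 - D / (TSM.q0 - a)) ≤
      (E.V.map h.f).ev (c.sn a) + h.f rp.eta * min X (h.f rp.r) -
        h.f rp.C * (a ^ 2 * c.y a ^ 2 + a * X ^ 2) ∧
    (E.V.map h.f).ev ⟨0, c.y a, X, c.vY, vX, c.aY, aX⟩ +
        h.f (sp.ty c.ty) * D * (1 - D / (TSM.q0 - a)) ≤
      (E.V.map h.f).ev (c.sn a) + min X (h.f rp.r) -
        1 / 2 * (a ^ 2 * c.y a ^ 2 + a * X ^ 2) -
        h.f rp.psi * ((E.k.pd.map h.f).ev D a (c.sn a) - min X (h.f rp.r)) := by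
  have hB := base_le hE hD0 ha o 0 (sp.ty c.ty) m0 m1 n1 hs (c.sn a) aX (axE hE hX _) c.vY vX
    le_rfl hvX
  have hm' : h.f m0 + h.f m1 * (c.sn a).u = X := hm
  rw [hm'] at hB
  have hg : ∀ k : α, MLe h (gMin k m0 m1 rp.r) (pt (c.sn a)) (h.f k * min X (h.f rp.r)) := by
    intro k
    have := gMin_le (h := h) k m0 m1 rp.r (c.sn a)
    rwa [hm'] at this
  have hq : ∀ C : α, hv h (qN C E.t m0 m1) (pt (c.sn a)) =
      -(h.f C * (a ^ 2 * c.y a ^ 2 + a * X ^ 2)) := by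
    intro C
    have := hv_qN (h := h) C E.t m0 m1 (c.sn a)
    rwa [hm', hE.ht] at this
  have e1 : (c.sn a).y = c.y a := rfl
  have e2 : (c.sn a).aY = c.aY := rfl
  refine ⟨?_, ?_⟩
  · have hB' : hv h (padd (base E o 0 c.ty (sp.ty c.ty) m0 m1 n1) (qN rp.C E.t m0 m1))
        (pt (c.sn a)) ≤
        ((E.V.map h.f).ev (c.sn a) -
      (E.V.map h.f).ev ⟨0, (c.sn a).y, X, c.vY, vX, (c.sn a).aY, aX⟩ -
      h.f (sp.ty c.ty) * D * (1 - D / (TSM.q0 - a))) -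
      h.f rp.C * (a ^ 2 * c.y a ^ 2 + a * X ^ 2) := by
      rw [hv_padd, hq]
      have hB2 : hv h (base E o 0 c.ty (sp.ty c.ty) m0 m1 n1) (pt (c.sn a)) ≤ _ := hB
      linarith
    have h1 := MLe.nonneg ((MLe.single hB').add (hg rp.eta))
      (fun q hq => hL q (List.mem_append_left _ hq))
    rw [e1, e2] at h1
    linarith
  · have hB' : hv h (padd (base E o 0 c.ty (sp.ty c.ty) m0 m1 n1) (qN E.hf E.t m0 m1))
        (pt (c.sn a)) ≤
        ((E.V.map h.f).ev (c.sn a) -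
      (E.V.map h.f).ev ⟨0, (c.sn a).y, X, c.vY, vX, (c.sn a).aY, aX⟩ -
      h.f (sp.ty c.ty) * D * (1 - D / (TSM.q0 - a))) -
      1 / 2 * (a ^ 2 * c.y a ^ 2 + a * X ^ 2) := by
      rw [hv_padd, hq, hE.hhf]
      have hB2 : hv h (base E o 0 c.ty (sp.ty c.ty) m0 m1 n1) (pt (c.sn a)) ≤ _ := hB
      linarith
    have h1 := MLe.nonneg ((MLe.single hB').add ((hg (Ar.add Ar.one rp.psi)).add
      (pend_le hE rp.psi (c.sn a))))
      (fun q hq => hL q (List.mem_append_right _ hq))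
    rw [e1, e2, h.add, h.one] at h1
    linarith

lemma zc_val (hE : E.Ok h D a) : h.f (zc E) = h.f E.k.pd.ca * a + h.f E.k.pd.cb * D := by
  simp only [zc, h.add, h.mul, hE.ht, hE.hD]

lemma zf_val (hE : E.Ok h D a) (q1 q2 : α) :
    h.f (zf E q1 q2) = 1 / 2 * (h.f q1 * a + h.f q2 * D) := by
  simp only [zf, h.add, h.mul, hE.ht, hE.hD, hE.hhf]

lemma zn_val (hE : E.Ok h D a) :
    h.f (zn E) = 1 / 2 * (h.f E.k.z.n3 * D * (a ^ 2 * (1 - h.f E.k.z.c4 * a))) := by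
  simp only [zn, h.sub, h.one, h.mul, hE.ht, hE.hD, hE.hhf]
  ring

/-- soundness of one line of the loss side -/
theorem zpN_sound (hE : E.Ok h D a) (hD0 : 0 ≤ D) (ha : a < TSM.q0) (c : TSM.Chd) (aX : ℝ)
    (hX : c.AX aX) (m0 m1 n1 f b n th K : α) (X vX : ℝ) (hs : 0 ≤ h.f (E.k.sz.ty c.ty))
    (hm : h.f m0 + h.f m1 * c.u a = X) (hvX : vX ≤ h.f m0 + h.f n1 * c.vU)
    (hL : ∀ q ∈ zpN E c.ty m0 m1 n1 f b n th K, 0 ≤ hv h q (pt (c.sn a))) :
    (E.V.map h.f).ev ⟨2, c.y a, X, c.vY, vX, c.aY, aX⟩ +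
        h.f (E.k.sz.ty c.ty) * D * (1 - D / (TSM.q0 - a)) ≤
      (E.V.map h.f).ev (c.sn a) + (1 + h.f th) * min X (h.f E.k.z.r) -
        h.f f * (a * c.y a ^ 2 + X ^ 2) + h.f b + h.f n * c.aU ^ 2 -
        h.f K * max 0 ((1 - a * c.y a / 2) ^ 2 + a * X ^ 2 / 4 - 1) -
        h.f th * (E.k.pd.map h.f).ev D a (c.sn a) := by
  have hB := base_le hE hD0 ha 15 2 (E.k.sz.ty c.ty) m0 m1 n1 hs (c.sn a) aX (axE hE hX _) c.vY
    vX le_rfl hvX
  have hm' : h.f m0 + h.f m1 * (c.sn a).u = X := hm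
  rw [hm'] at hB
  have hg : MLe h (gMin (Ar.add Ar.one th) m0 m1 E.k.z.r) (pt (c.sn a))
      (h.f (Ar.add Ar.one th) * min X (h.f E.k.z.r)) := by
    have := gMin_le (h := h) (Ar.add Ar.one th) m0 m1 E.k.z.r (c.sn a)
    rwa [hm'] at this
  have hx : MLe h (exH E.hf K E.t m0 m1) (pt (c.sn a))
      (-(h.f K * max 0 ((1 - a * c.y a / 2) ^ 2 + a * X ^ 2 / 4 - 1))) := by
    have := exH_le (h := h) E.hf K E.t m0 m1 hE.hhf (c.sn a)
    rwa [hm', hE.ht] at this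
  have hz := hv_zq (h := h) f E.t m0 m1 (c.sn a)
  rw [hm', hE.ht] at hz
  have e1 : (c.sn a).y = c.y a := rfl
  have e2 : (c.sn a).aY = c.aY := rfl
  rw [e1] at hz
  rw [e1, e2] at hB
  have hB' : hv h (padd (padd (base E 15 2 c.ty (E.k.sz.ty c.ty) m0 m1 n1) (zq f E.t m0 m1))
      (padd (cst b) (aq n))) (pt (c.sn a)) ≤
      ((E.V.map h.f).ev (c.sn a) -
      (E.V.map h.f).ev ⟨2, c.y a, X, c.vY, vX, c.aY, aX⟩ -
      h.f (E.k.sz.ty c.ty) * D * (1 - D / (TSM.q0 - a))) -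
      h.f f * (a * c.y a ^ 2 + X ^ 2) + (h.f b + h.f n * c.aU ^ 2) := by
    rw [hv_padd, hv_padd, hv_padd, hv_cst, hv_aq, hz]
    have hB2 : hv h (base E 15 2 c.ty (E.k.sz.ty c.ty) m0 m1 n1) (pt (c.sn a)) ≤ _ := hB
    have e3 : (pt (c.sn a)).a = c.aU := rfl
    rw [e3]
    linarith
  have h1 := MLe.nonneg ((MLe.single hB').add (hg.add (hx.add (pend_le hE th (c.sn a))))) hL
  rw [h.add, h.one] at h1
  linarith

/-- soundness of the four lines of the loss side -/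
theorem zp4_sound (hE : E.Ok h D a) (hD0 : 0 ≤ D) (ha : a < TSM.q0) (c : TSM.Chd) (aX : ℝ)
    (hX : c.AX aX) (m0 m1 n1 f n a1 k1 b1 a2 k2 b2 : α) (X vX : ℝ)
    (hs : 0 ≤ h.f (E.k.sz.ty c.ty)) (hm : h.f m0 + h.f m1 * c.u a = X)
    (hvX : vX ≤ h.f m0 + h.f n1 * c.vU)
    (hL : ∀ q ∈ zp4 E c.ty m0 m1 n1 f n a1 k1 b1 a2 k2 b2, 0 ≤ hv h q (pt (c.sn a))) :
    ((E.V.map h.f).ev ⟨2, c.y a, X, c.vY, vX, c.aY, aX⟩ +
        h.f (E.k.sz.ty c.ty) * D * (1 - D / (TSM.q0 - a)) ≤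
      (E.V.map h.f).ev (c.sn a) + min X (h.f E.k.z.r) -
        (h.f f * (a * c.y a ^ 2 + X ^ 2) + h.f n * c.aU ^ 2) -
        h.f a1 * ((E.k.pd.map h.f).ev D a (c.sn a) - min X (h.f E.k.z.r)) -
        h.f k1 * max 0 ((1 - a * c.y a / 2) ^ 2 + a * X ^ 2 / 4 - 1)) ∧
    ((E.V.map h.f).ev ⟨2, c.y a, X, c.vY, vX, c.aY, aX⟩ +
        h.f (E.k.sz.ty c.ty) * D * (1 - D / (TSM.q0 - a)) ≤
      (E.V.map h.f).ev (c.sn a) + min X (h.f E.k.z.r) -
        (h.f f * (a * c.y a ^ 2 + X ^ 2) + h.f n * c.aU ^ 2) -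
        h.f E.k.chi * ((E.k.pd.map h.f).ev D a (c.sn a) - min X (h.f E.k.z.r)) -
        h.f k1 * max 0 ((1 - a * c.y a / 2) ^ 2 + a * X ^ 2 / 4 - 1) + h.f b1) ∧
    ((E.V.map h.f).ev ⟨2, c.y a, X, c.vY, vX, c.aY, aX⟩ +
        h.f (E.k.sz.ty c.ty) * D * (1 - D / (TSM.q0 - a)) ≤
      (E.V.map h.f).ev (c.sn a) + min X (h.f E.k.z.r) -
        (1 + h.f E.k.chi) * (h.f f * (a * c.y a ^ 2 + X ^ 2) + h.f n * c.aU ^ 2) -
        h.f a2 * ((E.k.pd.map h.f).ev D a (c.sn a) - min X (h.f E.k.z.r)) -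
        h.f k2 * max 0 ((1 - a * c.y a / 2) ^ 2 + a * X ^ 2 / 4 - 1) +
        h.f E.k.chi * (E.k.pd.map h.f).ev D a ⟨2, c.y a, X, c.vY, vX, c.aY, aX⟩) ∧
    ((E.V.map h.f).ev ⟨2, c.y a, X, c.vY, vX, c.aY, aX⟩ +
        h.f (E.k.sz.ty c.ty) * D * (1 - D / (TSM.q0 - a)) ≤
      (E.V.map h.f).ev (c.sn a) + min X (h.f E.k.z.r) -
        (1 + h.f E.k.chi) * (h.f f * (a * c.y a ^ 2 + X ^ 2) + h.f n * c.aU ^ 2) -
        h.f E.k.chi * ((E.k.pd.map h.f).ev D a (c.sn a) - min X (h.f E.k.z.r)) -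
        h.f k2 * max 0 ((1 - a * c.y a / 2) ^ 2 + a * X ^ 2 / 4 - 1) +
        h.f E.k.chi * (E.k.pd.map h.f).ev D a ⟨2, c.y a, X, c.vY, vX, c.aY, aX⟩ + h.f b2) := by
  have key := zpN_sound hE hD0 ha c aX hX m0 m1 n1
  have hP : (E.k.pd.map h.f).ev D a ⟨2, c.y a, X, c.vY, vX, c.aY, aX⟩ =
      h.f (zc E) * (a * c.y a ^ 2 + X ^ 2) := by
    rw [zc_val hE]
    rfl
  rw [hP]
  have l1 := key _ _ _ _ _ X vX hs hm hvX (fun q hq => hL q (List.mem_append_left _ hq))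
  have l2 := key _ _ _ _ _ X vX hs hm hvX
    (fun q hq => hL q (List.mem_append_right _ (List.mem_append_left _ hq)))
  have l3 := key _ _ _ _ _ X vX hs hm hvX
    (fun q hq => hL q (List.mem_append_right _ (List.mem_append_right _
      (List.mem_append_left _ hq))))
  have l4 := key _ _ _ _ _ X vX hs hm hvX
    (fun q hq => hL q (List.mem_append_right _ (List.mem_append_right _
      (List.mem_append_right _ hq))))
  simp only [h.zero, h.neg, h.sub, h.mul, h.add, h.one] at l1 l2 l3 l4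
  refine ⟨?_, ?_, ?_, ?_⟩ <;> linarith

lemma zg_val (hE : E.Ok h D a) : h.f (zg E) = h.f E.k.z.g1 * a + h.f E.k.z.g2 * D := by
  simp only [zg, h.add, h.mul, hE.ht, hE.hD]

/-- soundness of the gain side -/
theorem zpG_sound (hE : E.Ok h D a) (hD0 : 0 ≤ D) (ha : a < TSM.q0) (c : TSM.Chd) (aX : ℝ)
    (hX : c.AX aX) (m0 m1 n1 : α) (X vX : ℝ)
    (hs : 0 ≤ h.f (E.k.sz.ty c.ty)) (hm : h.f m0 + h.f m1 * c.u a = X)
    (hvX : vX ≤ h.f m0 + h.f n1 * c.vU)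
    (hL : ∀ q ∈ zpM E c.ty m0 m1 n1, 0 ≤ hv h q (pt (c.sn a))) :
    ((E.V.map h.f).ev ⟨2, c.y a, X, c.vY, vX, c.aY, aX⟩ +
        h.f (E.k.sz.ty c.ty) * D * (1 - D / (TSM.q0 - a)) ≤
      (E.V.map h.f).ev (c.sn a) + h.f E.k.z.e1 * min X (h.f E.k.z.r) -
        h.f (zg E) * (a * c.y a ^ 2 + X ^ 2)) ∧
    ((E.V.map h.f).ev ⟨2, c.y a, X, c.vY, vX, c.aY, aX⟩ +
        h.f (E.k.sz.ty c.ty) * D * (1 - D / (TSM.q0 - a)) ≤
      (E.V.map h.f).ev (c.sn a) + h.f E.k.z.e2 * min X (h.f E.k.z.r) -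
        h.f (zg E) * (a * c.y a ^ 2 + X ^ 2) -
        h.f E.k.chi * (h.f (zg E) * (a * c.y a ^ 2 + X ^ 2) -
        (E.k.pd.map h.f).ev D a ⟨2, c.y a, X, c.vY, vX, c.aY, aX⟩)) := by
  have hB := base_le hE hD0 ha 15 2 (E.k.sz.ty c.ty) m0 m1 n1 hs (c.sn a) aX (axE hE hX _) c.vY
    vX le_rfl hvX
  have hm' : h.f m0 + h.f m1 * (c.sn a).u = X := hm
  rw [hm'] at hB
  have hP : (E.k.pd.map h.f).ev D a ⟨2, c.y a, X, c.vY, vX, c.aY, aX⟩ =
      h.f (zc E) * (a * c.y a ^ 2 + X ^ 2) := by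
    rw [zc_val hE]
    rfl
  rw [hP]
  have hg : ∀ k : α, MLe h (gMin k m0 m1 E.k.z.r) (pt (c.sn a))
      (h.f k * min X (h.f E.k.z.r)) := by
    intro k
    have := gMin_le (h := h) k m0 m1 E.k.z.r (c.sn a)
    rwa [hm'] at this
  have hz : ∀ f : α, hv h (zq f E.t m0 m1) (pt (c.sn a)) =
      -(h.f f * (a * c.y a ^ 2 + X ^ 2)) := by
    intro f
    have := hv_zq (h := h) f E.t m0 m1 (c.sn a)
    rwa [hm', hE.ht] at this
  have e1 : (c.sn a).y = c.y a := rfl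
  have e2 : (c.sn a).aY = c.aY := rfl
  rw [e1, e2] at hB
  have hB' : ∀ f : α, hv h (padd (base E 15 2 c.ty (E.k.sz.ty c.ty) m0 m1 n1) (zq f E.t m0 m1))
      (pt (c.sn a)) ≤
      ((E.V.map h.f).ev (c.sn a) -
      (E.V.map h.f).ev ⟨2, c.y a, X, c.vY, vX, c.aY, aX⟩ -
      h.f (E.k.sz.ty c.ty) * D * (1 - D / (TSM.q0 - a))) -
      h.f f * (a * c.y a ^ 2 + X ^ 2) := by
    intro f
    rw [hv_padd, hz]
    have hB2 : hv h (base E 15 2 c.ty (E.k.sz.ty c.ty) m0 m1 n1) (pt (c.sn a)) ≤ _ := hB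
    linarith
  have h1 := MLe.nonneg ((MLe.single (hB' _)).add (hg _))
    (fun q hq => hL q (List.mem_append_left _ hq))
  have h2 := MLe.nonneg ((MLe.single (hB' _)).add (hg _))
    (fun q hq => hL q (List.mem_append_right _ (List.mem_append_left _ hq)))
  simp only [h.sub, h.mul, h.add, h.one] at h2
  refine ⟨?_, ?_⟩ <;> linarith

end

section ms

variable {α : Type} [Ar α] (h : Hom α)

lemma hv_msN_true (V : VD α) (hf : α) (x : XP α) (k m0 m1 p1 : α) (h2 : h.f hf = 1 / 2)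
    (c : TSM.Sn) :
    hv h (msN V hf x k m0 m1 p1 true) (pt c) =
      -(h.f V.t0.c / 2 + h.f V.t0.ga * (h.f m0 + h.f m1 * c.u) +
        2 * h.f V.t0.de * (h.f m0 + h.f m1 * c.u) ^ 2) -
      h.f V.t0.al * c.y - 2 * h.f V.t0.be * c.y ^ 2 - h.f V.t0.lU * c.aY -
      2 * h.f V.t0.qU * c.aY ^ 2 -
      2 * h.f V.t0.qy * (h.f x.g * c.vU ^ 2 + h.f x.l * c.aU ^ 2) -
      h.f V.t0.ly * (h.f k * Real.sqrt (c.vU ^ 2 + c.aU ^ 2)) -
      h.f V.t0.cv * c.vY - h.f V.t0.dv * (h.f m0 + h.f p1 * c.vU) := by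
  simp only [msN, hv, pev, pmap, QI.map, QI.ev, qz, h.zero, h.neg, h.add, h.mul, h.nsm, pt,
    Nat.cast_ofNat, if_true, h2]
  ring

lemma hv_msN_false (V : VD α) (hf : α) (x : XP α) (k m0 m1 p1 : α) (h2 : h.f hf = 1 / 2)
    (c : TSM.Sn) :
    hv h (msN V hf x k m0 m1 p1 false) (pt c) =
      -(h.f V.t0.c / 2 + h.f V.t0.ga * (h.f m0 + h.f m1 * c.u) +
        2 * h.f V.t0.de * (h.f m0 + h.f m1 * c.u) ^ 2) +
      h.f V.t0.al * c.y - 2 * h.f V.t0.be * c.y ^ 2 - h.f V.t0.lU * c.aY -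
      2 * h.f V.t0.qU * c.aY ^ 2 -
      2 * h.f V.t0.qy * (h.f x.g * c.vU ^ 2 + h.f x.l * c.aU ^ 2) -
      h.f V.t0.ly * (h.f k * Real.sqrt (c.vU ^ 2 + c.aU ^ 2)) +
      h.f V.t0.cv * c.vY - h.f V.t0.dv * (h.f m0 + h.f p1 * c.vU) := by
  simp only [msN, hv, pev, pmap, QI.map, QI.ev, qz, h.zero, h.neg, h.add, h.mul, h.nsm, pt,
    Nat.cast_ofNat, Bool.false_eq_true, if_false, h2]
  ring

omit [Ar α] in
lemma sq_add_le' (a b : ℝ) : (a + b) ^ 2 ≤ 2 * a ^ 2 + 2 * b ^ 2 := by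
  nlinarith [sq_nonneg (a - b)]

omit [Ar α] in
lemma sq_sub_le' (a b : ℝ) : (a - b) ^ 2 ≤ 2 * a ^ 2 + 2 * b ^ 2 := by
  nlinarith [sq_nonneg (a + b)]

omit [Ar α] in
lemma ms_real {ly qy lU qU be de S1 S2 S3 S4 bc be' yc yd xc xd A1 A2 A4 aXc aXd aUn f : ℝ}
    (hly : 0 ≤ ly) (hqy : 0 ≤ qy) (hlU : 0 ≤ lU) (hqU : 0 ≤ qU)
    (hc1 : aXc ^ 2 ≤ S3) (b1 : aXc ≤ S1)
    (hd1 : aXd ^ 2 ≤ S4) (b2 : aXd ≤ S2) (hU0 : 0 ≤ aUn)
    (hU1 : aUn ≤ bc + be') (hf0 : 0 ≤ f) (hf1 : f ≤ aXc + aXd) :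
    -(A1 / 2 + A4 * xc + 2 * de * xc ^ 2) - A2 * yc - 2 * be * yc ^ 2 - lU * bc -
      2 * qU * bc ^ 2 - 2 * qy * S3 - ly * S1 +
    (-(A1 / 2 + A4 * xd + 2 * de * xd ^ 2) + A2 * yd - 2 * be * yd ^ 2 - lU * be' -
      2 * qU * be' ^ 2 - 2 * qy * S4 - ly * S2) ≤
    -(A1 + A2 * (yc - yd) + be * (yc - yd) ^ 2 + A4 * (xc + xd) + de * (xc + xd) ^ 2 +
      lU * aUn + qU * aUn ^ 2 + ly * f + qy * f ^ 2) -
      (be * (yc + yd) ^ 2 + de * (xc - xd) ^ 2) := by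
  have f2 : f ^ 2 ≤ 2 * S3 + 2 * S4 := by
    have h1 : f ^ 2 ≤ (aXc + aXd) ^ 2 := pow_le_pow_left₀ hf0 hf1 2
    have h2 := sq_add_le' aXc aXd
    linarith
  have f1 : f ≤ S1 + S2 := by
    linarith
  have u2 : aUn ^ 2 ≤ 2 * bc ^ 2 + 2 * be' ^ 2 :=
    (pow_le_pow_left₀ hU0 hU1 2).trans (sq_add_le' _ _)
  have m1 := mul_le_mul_of_nonneg_left f2 hqy
  have m2 := mul_le_mul_of_nonneg_left f1 hly
  have m3 := mul_le_mul_of_nonneg_left u2 hqU
  have m4 := mul_le_mul_of_nonneg_left hU1 hlU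
  have m5 : be * (yc - yd) ^ 2 + be * (yc + yd) ^ 2 = be * (2 * yc ^ 2 + 2 * yd ^ 2) := by ring
  have m6 : de * (xc + xd) ^ 2 + de * (xc - xd) ^ 2 = de * (2 * xc ^ 2 + 2 * xd ^ 2) := by ring
  clear hc1 hd1 b1 b2 f2 f1 u2
  have e1 : A2 * (yc - yd) = A2 * yc - A2 * yd := by ring
  have e2 : A4 * (xc + xd) = A4 * xc + A4 * xd := by ring
  rw [e1, e2]
  generalize (yc - yd) ^ 2 = S5 at *
  generalize (xc + xd) ^ 2 = S6 at *
  generalize (yc + yd) ^ 2 = S9 at *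
  generalize (xc - xd) ^ 2 = S10 at *
  generalize f ^ 2 = S7 at *
  generalize aUn ^ 2 = S8 at *
  linarith

/-- the share of the new potential -/
lemma hv_msN (V : VD α) (hf : α) (x x' : XP α) (k m0 m1 n0 n1 p1 p2 : α) (h2 : h.f hf = 1 / 2)
    (hcv : 0 ≤ h.f V.t0.cv) (hdv : 0 ≤ h.f V.t0.dv)
    (hly : 0 ≤ h.f V.t0.ly) (hqy : 0 ≤ h.f V.t0.qy) (hlU : 0 ≤ h.f V.t0.lU) (hqU : 0 ≤ h.f V.t0.qU)
    (c e : TSM.Sn) (aXc aXd aUn f : ℝ)
    (hc1 : aXc ^ 2 ≤ h.f x.g * c.vU ^ 2 + h.f x.l * c.aU ^ 2)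
    (hc2 : aXc ≤ h.f k * Real.sqrt (c.vU ^ 2 + c.aU ^ 2))
    (hd1 : aXd ^ 2 ≤ h.f x'.g * e.vU ^ 2 + h.f x'.l * e.aU ^ 2)
    (hd2 : aXd ≤ h.f k * Real.sqrt (e.vU ^ 2 + e.aU ^ 2)) (hU0 : 0 ≤ aUn)
    (hU1 : aUn ≤ c.aY + e.aY) (hf0 : 0 ≤ f) (hf1 : f ≤ aXc + aXd) (vU vY X : ℝ)
    (hX : (h.f m0 + h.f m1 * c.u) + (h.f n0 + h.f n1 * e.u) = X) (hvU : vU ≤ c.vY - e.vY)
    (hvY : vY ≤ (h.f m0 + h.f p1 * c.vU) + (h.f n0 + h.f p2 * e.vU)) :
    hv h (msN V hf x k m0 m1 p1 true) (pt c) + hv h (msN V hf x' k n0 n1 p2 false) (pt e) ≤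
      - (V.map h.f).ev ⟨0, c.y - e.y, X, vU, vY, aUn, f⟩ -
        (h.f V.t0.be * (c.y + e.y) ^ 2 + h.f V.t0.de *
          ((h.f m0 + h.f m1 * c.u) - (h.f n0 + h.f n1 * e.u)) ^ 2) := by
  rw [hv_msN_true h V hf x k m0 m1 p1 h2, hv_msN_false h V hf x' k n0 n1 p2 h2]
  have e1 : (V.map h.f).ev ⟨0, c.y - e.y, X, vU, vY, aUn, f⟩ =
      h.f V.t0.c + h.f V.t0.al * (c.y - e.y) + h.f V.t0.be * (c.y - e.y) ^ 2 +
        h.f V.t0.ga * X + h.f V.t0.de * X ^ 2 + h.f V.t0.lU * aUn + h.f V.t0.qU * aUn ^ 2 +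
        h.f V.t0.ly * f + h.f V.t0.qy * f ^ 2 + h.f V.t0.cv * vU + h.f V.t0.dv * vY := rfl
  rw [e1, ← hX]
  have w1 := mul_le_mul_of_nonneg_left hvU hcv
  have w2 := mul_le_mul_of_nonneg_left hvY hdv
  have key := ms_real (A1 := h.f V.t0.c) (A2 := h.f V.t0.al) (A4 := h.f V.t0.ga) (yc := c.y)
    (yd := e.y) (xc := h.f m0 + h.f m1 * c.u) (xd := h.f n0 + h.f n1 * e.u) hly hqy
    (be := h.f V.t0.be) (de := h.f V.t0.de) hlU hqU hc1 hc2 hd1 hd2 hU0 hU1 hf0 hf1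
  linarith

variable {h} {E : En α} {D a : ℝ}

/-- the common part, two children together -/
lemma msB_le (hE : E.Ok h D a) (hD0 : 0 ≤ D) (ha : a < TSM.q0) (ha0 : 0 ≤ a)
    (c e : TSM.Chd) (aXc aXd aUn f : ℝ) (hXc : c.AX aXc) (hXd : e.AX aXd) (hU0 : 0 ≤ aUn)
    (hU1 : aUn ≤ c.aY + e.aY) (hf0 : 0 ≤ f) (hf1 : f ≤ aXc + aXd) (vU vY : ℝ)
    (hvU : vU ≤ c.vY - e.vY) (hvY : vY ≤ c.xT + e.xT) (hc0 : 0 ≤ c.vU) (he0 : 0 ≤ e.vU)
    (hs : 0 ≤ h.f E.k.sm) (C : α) (hC : 1 / 2 ≤ h.f C) :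
    hv h (msB E true c.ty C) (pt (c.sn a)) + hv h (msB E false e.ty C) (pt (e.sn a)) ≤
      (E.V.map h.f).ev (c.sn a) + (E.V.map h.f).ev (e.sn a) -
      (E.V.map h.f).ev ⟨0, c.y a - e.y a, c.x a + e.x a, vU, vY, aUn, f⟩ -
      h.f E.k.sm * D * (1 - D / (TSM.q0 - a)) -
      h.f C * (a ^ 2 * (c.y a - e.y a) ^ 2 + a * (c.x a + e.x a) ^ 2) := by
  have hx := k_eq hE c
  have hx2 := k_eq hE e
  have ac := axE hE hXc (20 + xi c.ty)
  have ae := axE hE hXd (20 + xi e.ty)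
  have h1 := hv_msN h E.V E.hf (E.x (20 + xi c.ty)) (E.x (20 + xi e.ty)) E.xk (k0 c.ty)
    (k1 E.t c.ty) (k0 e.ty) (k1 E.t e.ty) (k2 E c.ty)
    (k2 E e.ty) hE.hhf (hE.hcv 0) (hE.hdv 0) (hE.hly 0) (hE.hqy 0) (hE.hlU 0) (hE.hqU 0)
    (c.sn a) (e.sn a) aXc aXd aUn f ac.sq ac.li ae.sq
    ae.li hU0 hU1 hf0 hf1 vU vY (c.x a + e.x a) (by
      rw [← hx, ← hx2]
      rfl) hvU (hvY.trans (add_le_add (k2_le hE hc0) (k2_le hE he0)))
  have hh : 0 ≤ h.f (Ar.mul E.hf E.k.sm) := by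
    rw [h.mul, hE.hhf]
    linarith
  have p1 := hv_payN hE hD0 ha (Ar.mul E.hf E.k.sm) hh (pt (c.sn a))
  have p2 := hv_payN hE hD0 ha (Ar.mul E.hf E.k.sm) hh (pt (e.sn a))
  rw [h.mul, hE.hhf] at p1 p2
  have q1 := hv_qN (h := h) (Ar.nsm 2 C) E.t (k0 c.ty) (k1 E.t c.ty) (c.sn a)
  have q2 := hv_qN (h := h) (Ar.nsm 2 C) E.t (k0 e.ty) (k1 E.t e.ty) (e.sn a)
  have hx' : h.f (k0 c.ty) + h.f (k1 E.t c.ty) * (c.sn a).u = c.x a := hx
  have hx2' : h.f (k0 e.ty) + h.f (k1 E.t e.ty) * (e.sn a).u = e.x a := hx2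
  rw [hx', hE.ht, h.nsm] at q1
  rw [hx2', hE.ht, h.nsm] at q2
  have v1 := hv_vC h E.V (c.sn a)
  have v2 := hv_vC h E.V (e.sn a)
  have v1' : hv h (vC (E.V.ty c.ty)) (pt (c.sn a)) = _ := v1
  have v2' : hv h (vC (E.V.ty e.ty)) (pt (e.sn a)) = _ := v2
  rw [msB, msB, hv_padd, hv_padd, hv_padd, hv_padd, hv_padd, hv_padd, v1', v2', q1, q2]
  have r1 : 0 ≤ (h.f E.V.t0.be + h.f C * a ^ 2) * (c.y a + e.y a) ^ 2 := by
    refine mul_nonneg ?_ (sq_nonneg _)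
    have := hE.hbe
    have := mul_le_mul_of_nonneg_right hC (sq_nonneg a)
    linarith
  have r2 : 0 ≤ (h.f E.V.t0.de + h.f C * a) * (c.x a - e.x a) ^ 2 := by
    refine mul_nonneg ?_ (sq_nonneg _)
    have := hE.hde
    have := mul_le_mul_of_nonneg_right hC ha0
    linarith
  have e1 : (c.sn a).y = c.y a := rfl
  have e2 : (e.sn a).y = e.y a := rfl
  rw [e1, e2, hx', hx2'] at h1
  rw [e1, e2]
  push_cast
  linarith

/-- soundness of the lists of a vertex with two nontrivial children -/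
theorem ms_sound (hE : E.Ok h D a) (hD0 : 0 ≤ D) (ha : a < TSM.q0) (ha0 : 0 ≤ a)
    (c e : TSM.Chd) (aXc aXd aUn f : ℝ) (hXc : c.AX aXc) (hXd : e.AX aXd) (hU0 : 0 ≤ aUn)
    (hU1 : aUn ≤ c.aY + e.aY) (hf0 : 0 ≤ f) (hf1 : f ≤ aXc + aXd) (vU vY : ℝ)
    (hvU : vU ≤ c.vY - e.vY) (hvY : vY ≤ c.xT + e.xT) (hc0 : 0 ≤ c.vU) (he0 : 0 ≤ e.vU)
    (hs : 0 ≤ h.f E.k.sm) (hC : 1 / 2 ≤ h.f E.k.cc.C)
    (hLc : ∀ q ∈ msL E true c.ty, 0 ≤ hv h q (pt (c.sn a)))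
    (hLe : ∀ q ∈ msL E false e.ty, 0 ≤ hv h q (pt (e.sn a))) :
    (E.V.map h.f).ev ⟨0, c.y a - e.y a, c.x a + e.x a, vU, vY, aUn, f⟩ +
        h.f E.k.sm * D * (1 - D / (TSM.q0 - a)) ≤
      (E.V.map h.f).ev (c.sn a) + (E.V.map h.f).ev (e.sn a) +
        h.f E.k.cc.eta * min (c.x a + e.x a) (h.f E.k.cc.r) -
        h.f E.k.cc.C * (a ^ 2 * (c.y a - e.y a) ^ 2 + a * (c.x a + e.x a) ^ 2) ∧
    (E.V.map h.f).ev ⟨0, c.y a - e.y a, c.x a + e.x a, vU, vY, aUn, f⟩ +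
        h.f E.k.sm * D * (1 - D / (TSM.q0 - a)) ≤
      (E.V.map h.f).ev (c.sn a) + (E.V.map h.f).ev (e.sn a) +
        min (c.x a + e.x a) (h.f E.k.cc.r) -
        1 / 2 * (a ^ 2 * (c.y a - e.y a) ^ 2 + a * (c.x a + e.x a) ^ 2) -
        h.f E.k.cc.psi * ((E.k.pd.map h.f).ev D a (c.sn a) + (E.k.pd.map h.f).ev D a (e.sn a) -
          min (c.x a + e.x a) (h.f E.k.cc.r)) := by
  have hx := k_eq hE c
  have hx2 := k_eq hE e
  have B1 := msB_le hE hD0 ha ha0 c e aXc aXd aUn f hXc hXd hU0 hU1 hf0 hf1 vU vY hvU hvY hc0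
    he0 hs E.k.cc.C hC
  have B2 := msB_le hE hD0 ha ha0 c e aXc aXd aUn f hXc hXd hU0 hU1 hf0 hf1 vU vY hvU hvY hc0
    he0 hs E.hf
    (by rw [hE.hhf])
  rw [hE.hhf] at B2
  have P1 := pend_le hE E.k.cc.psi (c.sn a)
  have P2 := pend_le hE E.k.cc.psi (e.sn a)
  -- the gain as a number `γ1 + γ2`
  have hpsi : h.f (Ar.add Ar.one E.k.cc.psi) = 1 + h.f E.k.cc.psi := by rw [h.add, h.one]
  rcases le_total (c.x a + e.x a) (h.f E.k.cc.r) with hc | hc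
  · rw [min_eq_left hc]
    have l1 := hLc _ (List.mem_append_left _ (List.mem_cons_self ..))
    have l2 := hLe _ (List.mem_append_left _ (List.mem_cons_self ..))
    rw [hv_padd, hv_lin, h.mul, h.mul] at l1 l2
    have l1' : 0 ≤ hv h (msB E true c.ty E.k.cc.C) (pt (c.sn a)) + (h.f E.k.cc.eta *
      h.f (k0 c.ty) + h.f E.k.cc.eta * h.f (k1 E.t c.ty) * c.u a) := l1
    have l2' : 0 ≤ hv h (msB E false e.ty E.k.cc.C) (pt (e.sn a)) + (h.f E.k.cc.eta *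
      h.f (k0 e.ty) + h.f E.k.cc.eta * h.f (k1 E.t e.ty) * e.u a) := l2
    refine ⟨?_, ?_⟩
    · rw [← hx, ← hx2] at B1 ⊢
      linarith
    · have M1 : MLe h (mfAdd [padd (msB E true c.ty E.hf)
          (lin (Ar.mul (Ar.add Ar.one E.k.cc.psi) (k0 c.ty))
          (Ar.mul (Ar.add Ar.one E.k.cc.psi) (k1 E.t c.ty)))] (pendMin E E.k.cc.psi c.ty))
          (pt (c.sn a)) ((hv h (msB E true c.ty E.hf) (pt (c.sn a)) +
            (1 + h.f E.k.cc.psi) * c.x a) +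
            -(h.f E.k.cc.psi * (E.k.pd.map h.f).ev D a (c.sn a))) := by
        refine (MLe.single (le_of_eq ?_)).add P1
        rw [hv_padd, hv_lin, h.mul, h.mul, hpsi, ← hx]
        show _ + (_ + _ * c.u a) = _
        ring
      have M2 : MLe h (mfAdd [padd (msB E false e.ty E.hf)
          (lin (Ar.mul (Ar.add Ar.one E.k.cc.psi) (k0 e.ty))
          (Ar.mul (Ar.add Ar.one E.k.cc.psi) (k1 E.t e.ty)))] (pendMin E E.k.cc.psi e.ty))
          (pt (e.sn a)) ((hv h (msB E false e.ty E.hf) (pt (e.sn a)) +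
            (1 + h.f E.k.cc.psi) * e.x a) +
            -(h.f E.k.cc.psi * (E.k.pd.map h.f).ev D a (e.sn a))) := by
        refine (MLe.single (le_of_eq ?_)).add P2
        rw [hv_padd, hv_lin, h.mul, h.mul, hpsi, ← hx2]
        show _ + (_ + _ * e.u a) = _
        ring
      have n1 := M1.nonneg fun q hq => hLc q (List.mem_append_left _ (List.mem_cons_of_mem _ hq))
      have n2 := M2.nonneg fun q hq => hLe q (List.mem_append_left _ (List.mem_cons_of_mem _ hq))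
      linarith
  · rw [min_eq_right hc]
    have l1 := hLc _ (List.mem_append_right _ (List.mem_cons_self ..))
    have l2 := hLe _ (List.mem_append_right _ (List.mem_cons_self ..))
    rw [hv_padd, hv_cst, h.mul, h.mul, hE.hhf] at l1 l2
    refine ⟨?_, ?_⟩
    · linarith
    · have M1 : MLe h (mfAdd [padd (msB E true c.ty E.hf)
          (cst (Ar.mul (Ar.add Ar.one E.k.cc.psi) (Ar.mul E.hf E.k.cc.r)))]
          (pendMin E E.k.cc.psi c.ty))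
          (pt (c.sn a)) ((hv h (msB E true c.ty E.hf) (pt (c.sn a)) +
            (1 + h.f E.k.cc.psi) * (1 / 2 * h.f E.k.cc.r)) +
            -(h.f E.k.cc.psi * (E.k.pd.map h.f).ev D a (c.sn a))) := by
        refine (MLe.single (le_of_eq ?_)).add P1
        rw [hv_padd, hv_cst, h.mul, h.mul, hpsi, hE.hhf]
      have M2 : MLe h (mfAdd [padd (msB E false e.ty E.hf)
          (cst (Ar.mul (Ar.add Ar.one E.k.cc.psi) (Ar.mul E.hf E.k.cc.r)))]
          (pendMin E E.k.cc.psi e.ty))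
          (pt (e.sn a)) ((hv h (msB E false e.ty E.hf) (pt (e.sn a)) +
            (1 + h.f E.k.cc.psi) * (1 / 2 * h.f E.k.cc.r)) +
            -(h.f E.k.cc.psi * (E.k.pd.map h.f).ev D a (e.sn a))) := by
        refine (MLe.single (le_of_eq ?_)).add P2
        rw [hv_padd, hv_cst, h.mul, h.mul, hpsi, hE.hhf]
      have n1 := M1.nonneg fun q hq => hLc q (List.mem_append_right _ (List.mem_cons_of_mem _ hq))
      have n2 := M2.nonneg fun q hq => hLe q (List.mem_append_right _ (List.mem_cons_of_mem _ hq))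
      linarith

end ms

/-! ### forms without the norm term in the `y` part -/

section nol

variable {α : Type} [Ar α] {h : Hom α}

lemma noL_pqN (E : En α) (k : α) (p : PQ α) : NoL (pqN E k p) h :=
  noL_padd (noL_padd (noL_lin _ _) (noL_sqx _ _ _)) (noL_yq _ _)

lemma noLs_pendMin (E : En α) (k : α) (ty : ℕ) : NoLs (pendMin E k ty) h := by
  unfold pendMin
  rcases ty with _ | _ | _ | _ | n
  · exact NoLs.one (noL_padd (noL_yq _ _) (noL_sqx _ _ _))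
  · exact NoLs.one (noL_padd (noL_cst _) (noL_padd (noL_yq _ _) (noL_sqx _ _ _)))
  · exact NoLs.one (noL_padd (noL_yq _ _) (noL_sqx _ _ _))
  · exact NoLs.one (noL_pqN _ _ _)
  · exact NoLs.one (noL_pqN _ _ _)

lemma noL_base (E : En α) (o tn ty : ℕ) (s m0 m1 n1 : α) :
    NoL (base E o tn ty s m0 m1 n1) h :=
  noL_padd (noL_padd (noL_vC _) (noL_vN _ _ _ _ _ _)) (noL_cst _)

lemma noLs_unL (E : En α) (ty : ℕ) : NoLs (unL E ty) h := by
  unfold unL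
  refine (((NoLs.one (noL_base _ _ _ _ _ _ _ _)).mfAdd ((noLs_gMin _ _ _ _).mfAdd
    (noLs_exMin _ _ _ _))).append (((NoLs.one (noL_base _ _ _ _ _ _ _ _)).mfAdd
    ((noLs_gMin _ _ _ _).mfAdd ((noLs_exMin _ _ _ _).mfAdd (noLs_pendMin _ _ _)))).append
    ((NoLs.one (noL_padd (noL_base _ _ _ _ _ _ _ _) (noL_padd (noL_sqx _ _ _)
    (noL_yq _ _)))).mfAdd ((noLs_gMin _ _ _ _).mfAdd ((noLs_exMin _ _ _ _).mfAdd
    (noLs_pendMin _ _ _))))))

lemma noLs_prL (E : En α) (o : ℕ) (rp : RP α) (sp : S4 α) (ty : ℕ) (m0 m1 n1 : α) :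
    NoLs (prL E o rp sp ty m0 m1 n1) h := by
  unfold prL
  exact ((NoLs.one (noL_padd (noL_base _ _ _ _ _ _ _ _) (noL_qN _ _ _ _))).mfAdd
    (noLs_gMin _ _ _ _)).append ((NoLs.one (noL_padd (noL_base _ _ _ _ _ _ _ _)
    (noL_qN _ _ _ _))).mfAdd ((noLs_gMin _ _ _ _).mfAdd (noLs_pendMin _ _ _)))

lemma noLs_posL (E : En α) (ty : ℕ) : NoLs (posL E ty) h := NoLs.one (noL_vC _)

lemma noLs_zpN (E : En α) (ty : ℕ) (m0 m1 n1 f b n th K : α) :
    NoLs (zpN E ty m0 m1 n1 f b n th K) h := by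
  unfold zpN
  exact (NoLs.one (noL_padd (noL_padd (noL_base _ _ _ _ _ _ _ _) (noL_zq _ _ _ _))
    (noL_padd (noL_cst _) (noL_aq _)))).mfAdd ((noLs_gMin _ _ _ _).mfAdd
    ((noLs_exH _ _ _ _ _).mfAdd (noLs_pendMin _ _ _)))

lemma noLs_zpM (E : En α) (ty : ℕ) (m0 m1 n1 : α) : NoLs (zpM E ty m0 m1 n1) h := by
  unfold zpM zp4
  exact ((NoLs.one (noL_padd (noL_base _ _ _ _ _ _ _ _) (noL_zq _ _ _ _))).mfAdd
    (noLs_gMin _ _ _ _)).append
    (((NoLs.one (noL_padd (noL_base _ _ _ _ _ _ _ _) (noL_zq _ _ _ _))).mfAdd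
    (noLs_gMin _ _ _ _)).append
    (((noLs_zpN _ _ _ _ _ _ _ _ _ _).append ((noLs_zpN _ _ _ _ _ _ _ _ _ _).append
    ((noLs_zpN _ _ _ _ _ _ _ _ _ _).append (noLs_zpN _ _ _ _ _ _ _ _ _ _)))).append
    ((noLs_zpN _ _ _ _ _ _ _ _ _ _).append ((noLs_zpN _ _ _ _ _ _ _ _ _ _).append
    ((noLs_zpN _ _ _ _ _ _ _ _ _ _).append (noLs_zpN _ _ _ _ _ _ _ _ _ _))))))

lemma noL_msB (E : En α) (b : Bool) (ty : ℕ) (C : α) : NoL (msB E b ty C) h :=
  noL_padd (noL_padd (noL_padd (noL_vC _) h.zero) (noL_cst _)) (noL_qN _ _ _ _)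

lemma noLs_msL (E : En α) (b : Bool) (ty : ℕ) : NoLs (msL E b ty) h := by
  unfold msL msX msY
  exact (NoLs.cons (noL_padd (noL_msB _ _ _ _) (noL_lin _ _)) ((NoLs.one
    (noL_padd (noL_msB _ _ _ _) (noL_lin _ _))).mfAdd (noLs_pendMin _ _ _))).append
    (NoLs.cons (noL_padd (noL_msB _ _ _ _) (noL_cst _)) ((NoLs.one
    (noL_padd (noL_msB _ _ _ _) (noL_cst _))).mfAdd (noLs_pendMin _ _ _)))

end nol

/-! ### naturality -/

section nat

variable {α β : Type} [Ar α] [Ar β] {f : α → β} (hf : ArHom f)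

include hf

lemma map_k0 (ty : ℕ) : f (k0 ty : α) = k0 ty := by
  rcases ty with _ | n
  · exact hf.zero
  · exact hf.one

lemma map_k1 (t : α) (ty : ℕ) : f (k1 t ty) = k1 (f t) ty := by
  rcases ty with _ | n
  · rfl
  · exact hf.neg t

lemma map_k2 (E : En α) (ty : ℕ) : f (k2 E ty) = k2 (E.map f) ty := by
  rcases ty with _ | n
  · rfl
  · exact hf.neg E.Tl

lemma map_k3 (E : En α) (ty : ℕ) : f (k3 E ty) = k3 (E.map f) ty := by
  rcases ty with _ | n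
  · exact hf.neg E.Tl
  · rfl

lemma map_payN (E : En α) (s : α) : pmap f (payN E s) = payN (E.map f) (f s) := by
  simp only [payN, map_cst hf, hf.mul, hf.sub, En.map]

lemma map_pqN (E : En α) (k : α) (p : PQ α) :
    pmap f (pqN E k p) = pqN (E.map f) (f k) (p.map f) := by
  simp only [pqN, map_padd hf, map_lin hf, map_sqx hf, map_yq hf, hf.mul, hf.neg, hf.add, hf.zero,
    hf.one]
  rfl

lemma map_pendMin (E : En α) (k : α) (ty : ℕ) :
    (pendMin E k ty).map (pmap f) = pendMin (E.map f) (f k) ty := by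
  rcases ty with _ | _ | _ | _ | n
  · simp only [pendMin, List.map_cons, List.map_nil, map_pQ hf, hf.mul, En.map, Kn.map, PD.map]
  · simp only [pendMin, kq, List.map_cons, List.map_nil, map_padd hf, map_cst hf, map_yq hf,
      map_sqx hf, hf.mul, hf.neg, hf.nsm, hf.zero, hf.one, En.map, Kn.map, PD.map]
  · simp only [pendMin, List.map_cons, List.map_nil, map_pQ hf, hf.mul, hf.add, En.map, Kn.map,
      PD.map]
  · simp only [pendMin, List.map_cons, List.map_nil, map_pqN hf]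
    rfl
  · simp only [pendMin, List.map_cons, List.map_nil, map_pqN hf]
    rfl

lemma map_base (E : En α) (o tn ty : ℕ) (s m0 m1 n1 : α) :
    pmap f (base E o tn ty s m0 m1 n1) = base (E.map f) o tn ty (f s) (f m0) (f m1) (f n1) := by
  simp only [base, map_padd hf, map_payN hf, map_vC hf, map_vN hf]
  simp only [En.map, VD.map_ty]

lemma map_unL (E : En α) (ty : ℕ) : (unL E ty).map (pmap f) = unL (E.map f) ty := by
  simp only [unL, List.map_append, map_mfAdd hf, map_gMin hf, map_exMin hf, List.map_cons,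
    List.map_nil, map_padd hf, map_base hf, map_sqx hf, map_yq hf, map_pendMin hf, hf.add, hf.one,
    hf.mul, hf.zero, map_k0 hf, map_k1 hf, map_k2 hf, map_k3 hf, kq]
  simp only [En.map, Kn.map, RU.map, PD.map, S4.map_ty]

lemma map_prL (E : En α) (o : ℕ) (rp : RP α) (sp : S4 α) (ty : ℕ) (m0 m1 n1 : α) :
    (prL E o rp sp ty m0 m1 n1).map (pmap f) =
      prL (E.map f) o (rp.map f) (sp.map f) ty (f m0) (f m1) (f n1) := by
  simp only [prL, List.map_append, map_mfAdd hf, map_gMin hf, List.map_cons,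
    List.map_nil, map_padd hf, map_base hf, map_qN hf, map_pendMin hf, hf.add, hf.one]
  simp only [En.map, RP.map, S4.map_ty]

lemma map_lcL (E : En α) (ty : ℕ) : (lcL E ty).map (pmap f) = lcL (E.map f) ty := by
  simp only [lcL, map_prL hf, map_k0 hf, map_k1 hf, map_k2 hf, map_k3 hf]
  rfl

lemma map_pcL (E : En α) (e : Bool) (ty : ℕ) :
    (pcL E e ty).map (pmap f) = pcL (E.map f) e ty := by
  cases e
  · simp only [pcL, map_prL hf, hf.add, hf.one, hf.neg, map_k0 hf, map_k1 hf, map_k2 hf,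
      map_k3 hf, Bool.false_eq_true, if_false]
    rfl
  · simp only [pcL, map_prL hf, hf.add, hf.one, map_k0 hf, map_k1 hf, map_k2 hf, map_k3 hf, if_true]
    rfl

lemma map_zc (E : En α) : f (zc E) = zc (E.map f) := by
  simp only [zc, hf.add, hf.mul]
  rfl

lemma map_zg (E : En α) : f (zg E) = zg (E.map f) := by
  simp only [zg, hf.add, hf.mul]
  rfl

lemma map_zf (E : En α) (x y : α) : f (zf E x y) = zf (E.map f) (f x) (f y) := by
  simp only [zf, hf.add, hf.mul]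
  rfl

lemma map_zn (E : En α) : f (zn E) = zn (E.map f) := by
  simp only [zn, hf.sub, hf.mul, hf.one]
  rfl

lemma map_zpN (E : En α) (ty : ℕ) (m0 m1 n1 x b n th K : α) :
    (zpN E ty m0 m1 n1 x b n th K).map (pmap f) =
      zpN (E.map f) ty (f m0) (f m1) (f n1) (f x) (f b) (f n) (f th) (f K) := by
  simp only [zpN, List.map_cons, List.map_nil, map_mfAdd hf, map_padd hf, map_base hf, map_zq hf,
    map_cst hf, map_aq hf, map_gMin hf, map_exH hf, map_pendMin hf, hf.add, hf.one]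
  simp only [En.map, Kn.map, RZ.map, S4.map_ty]

lemma map_zp4 (E : En α) (ty : ℕ) (m0 m1 n1 x n a k b a' k' b' : α) :
    (zp4 E ty m0 m1 n1 x n a k b a' k' b').map (pmap f) =
      zp4 (E.map f) ty (f m0) (f m1) (f n1) (f x) (f n) (f a) (f k) (f b) (f a') (f k') (f b') := by
  simp only [zp4, List.map_append, map_zpN hf, hf.zero, hf.neg, hf.sub, hf.mul, hf.add, hf.one,
    map_zc hf]
  rfl

lemma map_zpM (E : En α) (ty : ℕ) (m0 m1 n1 : α) :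
    (zpM E ty m0 m1 n1).map (pmap f) = zpM (E.map f) ty (f m0) (f m1) (f n1) := by
  simp only [zpM, List.map_append, map_mfAdd hf, List.map_cons, List.map_nil, map_padd hf,
    map_base hf, map_zq hf, map_gMin hf, map_zp4 hf, map_zf hf, map_zn hf, map_zc hf, map_zg hf,
    hf.zero, hf.sub, hf.mul, hf.add, hf.one]
  simp only [En.map, Kn.map, RZ.map, S4.map_ty]

lemma map_zpL (E : En α) (ty : ℕ) : (zpL E ty).map (pmap f) = zpL (E.map f) ty := by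
  simp only [zpL, map_zpM hf, hf.add, hf.one, hf.neg, map_k0 hf, map_k1 hf, map_k2 hf, map_k3 hf]
  rfl

lemma map_posL (E : En α) (ty : ℕ) : (posL E ty).map (pmap f) = posL (E.map f) ty := by
  simp only [posL, List.map_cons, List.map_nil, map_vC hf]
  simp only [En.map, VD.map_ty]

lemma map_sg1L (τ : VT α) : (sg1L τ).map (pmap f) = sg1L (τ.map f) := by
  simp only [sg1L, List.map_cons, List.map_nil, map_cst hf]
  rfl

lemma map_sgnL (E : En α) : (sgnL E).map (pmap f) = sgnL (E.map f) := by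
  simp only [sgnL, List.map_append, List.map_cons, List.map_nil, map_cst hf, map_sg1L hf,
    hf.add, hf.mul]
  rfl

lemma map_msN (d : VD α) (h' : α) (x : XP α) (k m0 m1 n1 : α) (b : Bool) :
    pmap f (msN d h' x k m0 m1 n1 b) =
      msN (d.map f) (f h') (x.map f) (f k) (f m0) (f m1) (f n1) b := by
  cases b <;>
  simp only [pmap, msN, QI.map, qz, hf.zero, hf.neg, hf.add, hf.mul, hf.nsm, VD.map, VT.map,
    XP.map, if_true, Bool.false_eq_true, if_false]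

lemma map_msB (E : En α) (b : Bool) (ty : ℕ) (C : α) :
    pmap f (msB E b ty C) = msB (E.map f) b ty (f C) := by
  simp only [msB, map_padd hf, map_vC hf, map_msN hf, map_payN hf, map_qN hf, hf.mul, hf.nsm,
    map_k0 hf, map_k1 hf, map_k2 hf, map_k3 hf]
  simp only [En.map, Kn.map, VD.map_ty]

lemma map_msX (E : En α) (b : Bool) (ty : ℕ) :
    (msX E b ty).map (pmap f) = msX (E.map f) b ty := by
  simp only [msX, List.map_cons, List.map_nil, map_mfAdd hf, map_padd hf, map_msB hf, map_lin hf,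
    map_pendMin hf, hf.mul, hf.add, hf.one, map_k0 hf, map_k1 hf, map_k2 hf, map_k3 hf]
  rfl

lemma map_msY (E : En α) (b : Bool) (ty : ℕ) :
    (msY E b ty).map (pmap f) = msY (E.map f) b ty := by
  simp only [msY, List.map_cons, List.map_nil, map_mfAdd hf, map_padd hf, map_msB hf, map_cst hf,
    map_pendMin hf, hf.mul, hf.add, hf.one]
  rfl

lemma map_msL (E : En α) (b : Bool) (ty : ℕ) :
    (msL E b ty).map (pmap f) = msL (E.map f) b ty := by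
  simp only [msL, List.map_append, map_msX hf, map_msY hf]

lemma map_vOne (E : En α) (ty : ℕ) : f (vOne E ty) = vOne (E.map f) ty := by
  simp only [vOne, hf.neg, hf.add]
  rcases ty with _ | _ | _ | _ | n <;> rfl

lemma map_root1L (E : En α) : (root1L E).map (pmap f) = root1L (E.map f) := by
  simp only [root1L, List.map_append, map_mfAdd hf, map_gMin hf, List.map_cons, List.map_nil,
    map_cst hf, hf.sub, hf.add, hf.mul, hf.one, hf.zero, map_vOne hf]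
  rfl

lemma map_root0L (E : En α) : (root0L E).map (pmap f) = root0L (E.map f) := by
  simp only [root0L, List.map_append, map_mfAdd hf, map_gMin hf, List.map_cons, List.map_nil,
    map_cst hf, hf.sub, hf.add, hf.mul, hf.one, hf.zero, map_vOne hf]
  rfl

end nat

/-- the conditions on the constants of the rules at the total mass `D` -/
structure KOk (k : Kn ℝ) (D : ℝ) : Prop where
  /-- the stem -/
  un : ∃ D1 σ0, TSM.OneE D D1 (1 - k.ru.w0) k.ru.K k.ru.r k.pd.kap ∧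
    TSM.LossC D1 σ0 k.ru.s 1 k.ru.K1 ∧ TSM.LossC D1 σ0 k.chi (1 + k.chi) k.ru.K2
  hs : k.ru.s ≤ k.chi
  /-- leaf and child -/
  lc : ∃ κ, TSM.TwoE D k.lc.r k.lc.C κ k.lc.eta k.chi k.lc.psi
  lcC : k.lc.C ≤ k.pd.C0
  /-- path and child -/
  pc : ∃ κ, TSM.TwoE D k.pc.r k.pc.C κ k.pc.eta k.chi k.pc.psi
  pcC : k.pc.C ≤ k.pd.C0
  /-- two nontrivial children -/
  cc : ∃ κ, TSM.TwoE D k.cc.r k.cc.C κ k.cc.eta k.chi k.cc.psi
  ccC : k.cc.C ≤ k.pd.C0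
  chi0 : 0 ≤ k.chi
  kap0 : 0 ≤ k.pd.kap
  cu0 : 0 ≤ k.pd.cu
  /-- payments -/
  su0 : ∀ ty, 0 ≤ k.su.ty ty
  sl0 : ∀ ty, 0 ≤ k.sl.ty ty
  sp0 : ∀ ty, 0 ≤ k.sp.ty ty
  sm0 : 0 ≤ k.sm
  sz0 : ∀ ty, 0 ≤ k.sz.ty ty
  /-- leaf, path and child: the gain side -/
  zr0 : 0 ≤ k.z.r
  zr3 : k.z.r * D ≤ 1 / 3
  zg1 : 7 / 10 ≤ k.z.g1 * (1 - 9 / 10 * (k.z.r * D) + 73 / 200 * (k.z.r * D) ^ 2)
  zg2 : 81 / 80 ≤ k.z.g2
  zg3 : 9 / 10 * k.z.r ≤ (k.z.g2 - 81 / 80) * 13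
  ze1 : k.z.e1 ≤ 9 / 10
  ze2 : k.z.e2 ≤ 9 / 10
  /-- leaf, path and child: the loss side -/
  zl : ∃ ε β1 β2, 1 / 4 ≤ ε ∧ k.z.r * D ≤ 4 * ε ∧ 1 + ε ≤ k.z.q1 ∧
    1 + ε + 1 / (4 * ε) ≤ k.z.q2 ∧ 0 ≤ k.z.a1 ∧ k.z.a1 ≤ 1 ∧ k.z.a1 ≤ k.chi ∧ 0 ≤ k.z.a2 ∧
    k.z.a2 ≤ k.chi ∧ 0 ≤ k.z.k1 ∧ 0 ≤ k.z.k2 ∧
    TSM.ZLo D ε k.chi 1 k.z.a1 (β1 * D) k.z.k1 ∧
    TSM.ZLo D ε k.chi (1 + k.chi) k.z.a2 (β2 * D) k.z.k2 ∧
    k.z.b1 ≤ (k.chi - k.z.a1) * β1 ∧ k.z.b2 ≤ (k.chi - k.z.a2) * β2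
  /-- leaf, path and child: negative gain -/
  zm : ∃ β1 β2, 7 / 5 ≤ k.z.n1 ∧ 23 / 10 ≤ k.z.n2 ∧ 10 ≤ k.z.n3 ∧ 0 ≤ k.z.a3 ∧
    k.z.a3 ≤ k.chi ∧ 0 ≤ k.z.a4 ∧ k.z.a4 ≤ k.chi ∧ 0 ≤ k.z.k3 ∧ 0 ≤ k.z.k4 ∧
    TSM.ZLo D (2 / 5) k.chi 1 k.z.a3 (β1 * D) k.z.k3 ∧
    TSM.ZLo D (2 / 5) k.chi (1 + k.chi) k.z.a4 (β2 * D) k.z.k4 ∧
    k.z.b3 ≤ (k.chi - k.z.a3) * β1 ∧ k.z.b4 ≤ (k.chi - k.z.a4) * β2
  zc4 : k.z.c4 * TSM.q0 ≤ 1

end Pool.Agent.TSG
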