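import Pool.Agent.TSG.RowN

set_option autoImplicit false

/-!
# Rows of the table of the even rule, part 1 (MP_d27362_co, helper2)
-/

namespace Pool.Agent.TSG

/-- rows for `kd = 0` -/
def xr0_0 : List RowN :=
  [⟨36510, 11770, 0, 3710, 6, 3⟩,
   ⟨36640, 11790, 0, 3560, 6, 3⟩,
   ⟨36750, 11810, 0, 3430, 6, 3⟩,
   ⟨37310, 11860, 0, 2850, 6, 3⟩,
   ⟨37530, 11910, 0, 2700, 6, 3⟩,
   ⟨37540, 11870, 0, 2640, 6, 3⟩,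
   ⟨37680, 11880, 0, 2520, 6, 3⟩,
   ⟨37750, 11880, 0, 2460, 6, 3⟩,
   ⟨37860, 11890, 0, 2370, 6, 3⟩,
   ⟨37890, 11890, 0, 2350, 6, 3⟩,
   ⟨37930, 11890, 0, 2320, 6, 3⟩,
   ⟨38030, 11890, 0, 2240, 6, 3⟩,
   ⟨38040, 11890, 0, 2230, 6, 3⟩,
   ⟨38370, 11900, 0, 1990, 6, 3⟩,
   ⟨38410, 11900, 0, 1960, 6, 3⟩,
   ⟨38440, 11900, 0, 1940, 6, 3⟩,
   ⟨38490, 11890, 0, 1910, 6, 3⟩,
   ⟨38500, 11500, 0, 3000, 6, 3⟩,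
   ⟨38580, 11890, 0, 1850, 6, 3⟩,
   ⟨38660, 11890, 0, 1800, 6, 3⟩]

set_option maxRecDepth 100000 in
lemma xr0_0_t : xr0_0.all (rowN 0) = true := by decide +kernel

/-- rows for `kd = 0` -/
def xr0_1 : List RowN :=
  [⟨38740, 11890, 0, 1750, 6, 3⟩,
   ⟨39040, 11880, 0, 1570, 6, 3⟩,
   ⟨39970, 11810, 0, 1110, 6, 3⟩,
   ⟨40030, 11520, 0, 1780, 6, 3⟩,
   ⟨40160, 11790, 0, 1030, 6, 3⟩,
   ⟨40240, 11780, 0, 1000, 6, 3⟩,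
   ⟨40640, 11480, 0, 1430, 6, 3⟩,
   ⟨41190, 11470, 0, 1090, 6, 3⟩,
   ⟨42090, 11530, 0, 470, 6, 3⟩,
   ⟨42190, 11510, 0, 450, 6, 3⟩,
   ⟨42280, 11440, 0, 420, 6, 3⟩,
   ⟨43060, 11030, 0, 930, 6, 3⟩,
   ⟨43100, 10770, 0, 1760, 6, 3⟩,
   ⟨43190, 11250, 0, 270, 6, 3⟩,
   ⟨43810, 11160, 0, 200, 6, 3⟩,
   ⟨44010, 10890, 0, 640, 6, 3⟩,
   ⟨44300, 10790, 0, 740, 6, 3⟩,
   ⟨44310, 11040, 0, 150, 6, 3⟩,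
   ⟨44340, 10780, 0, 740, 6, 3⟩,
   ⟨44630, 10920, 0, 120, 6, 3⟩]

set_option maxRecDepth 100000 in
lemma xr0_1_t : xr0_1.all (rowN 0) = true := by decide +kernel

/-- rows for `kd = 0` -/
def xr0_2 : List RowN :=
  [⟨44960, 10840, 0, 110, 6, 3⟩,
   ⟨45000, 10800, 0, 200, 6, 3⟩,
   ⟨45640, 10690, 0, 60, 6, 3⟩,
   ⟨46900, 10410, 0, 20, 6, 3⟩,
   ⟨47010, 10350, 0, 140, 6, 3⟩,
   ⟨47510, 10280, 0, 10, 6, 3⟩,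
   ⟨49220, 9930, 0, 50, 6, 3⟩,
   ⟨50000, 9800, 0, 0, 6, 3⟩,
   ⟨50910, 9640, 0, 10, 6, 3⟩]

set_option maxRecDepth 100000 in
lemma xr0_2_t : xr0_2.all (rowN 0) = true := by decide +kernel

end Pool.Agent.TSG
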